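import Pool.Agent.MP_35cb46_co.nl.Spec

-- ======== part 0: formerly Pool.Agent.MP_35cb46_co.nl.Base
section MrgPart0

/-! PROJECT NL: small lemmas shared by the rows. -/

namespace Pool.Agent.MP_35cb46_co.Nl

open Finset Pool.Agent.MP_7be75d_co Pool.Agent.MP_35cb46_co.Sq
open scoped Classical

section

variable {κ ι V : Type} {w w' : κ → κ → ℕ} {τ τ' : κ → ℕ} {A A' B X : Finset κ} {K K' : ℕ}

theorem ts_mono (h : A ⊆ A') : ts τ A ≤ ts τ A' := sum_le_sum_of_subset h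

theorem ts_le (h : ∀ a ∈ A, τ a ≤ τ' a) : ts τ A ≤ ts τ' A := sum_le_sum h

theorem ts_union (h : Disjoint A B) : ts τ (A ∪ B) = ts τ A + ts τ B := sum_union h

theorem ts_sdiff (h : A ⊆ X) : ts τ (X \ A) + ts τ A = ts τ X := sum_sdiff h

theorem ts_union_le : ts τ (A ∪ B) ≤ ts τ A + ts τ B := by
  have h1 : ts τ (A ∪ B) + ts τ (A ∩ B) = ts τ A + ts τ B := sum_union_inter
  omega

theorem ts_add : ts (fun a => τ a + τ' a) A = ts τ A + ts τ' A := sum_add_distrib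

theorem ts_const (c : ℕ) : ts (fun _ => c) A = A.card * c := by simp [ts]

theorem ts_le_card {c : ℕ} (h : ∀ a ∈ A, τ a ≤ c) : ts τ A ≤ A.card * c := by
  simpa [ts] using sum_le_card_nsmul A τ c h

theorem card_le_ts {c : ℕ} (h : ∀ a ∈ A, c ≤ τ a) : A.card * c ≤ ts τ A := by
  simpa [ts] using card_nsmul_le_sum A τ c h

theorem ts_single (a : κ) : ts τ {a} = τ a := sum_singleton _ _

theorem single_le_ts {a : κ} (h : a ∈ A) : τ a ≤ ts τ A :=
  single_le_sum (f := τ) (fun _ _ => Nat.zero_le _) h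

theorem ts_biUnion {s : Finset ι} {S : ι → Finset κ}
    (h : ∀ i ∈ s, ∀ j ∈ s, i ≠ j → Disjoint (S i) (S j)) :
    ts τ (s.biUnion S) = ∑ i ∈ s, ts τ (S i) := sum_biUnion h

theorem ts_biUnion_le (s : Finset ι) (S : ι → Finset κ) :
    ts τ (s.biUnion S) ≤ ∑ i ∈ s, ts τ (S i) := by
  induction s using Finset.induction_on with
  | empty => simp [ts]
  | insert a s ha ih =>
    rw [biUnion_insert, sum_insert ha]
    exact ts_union_le.trans (by omega)

theorem ind_le_one (T : Finset κ) (a : κ) : ind T a ≤ 1 := by unfold ind; split_ifs <;> simp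

theorem ind_of_mem {T : Finset κ} {a : κ} (h : a ∈ T) : ind T a = 1 := if_pos h

theorem ind_of_notMem {T : Finset κ} {a : κ} (h : a ∉ T) : ind T a = 0 := if_neg h

theorem ind_mono {T T' : Finset κ} {a : κ} (h : a ∈ T → a ∈ T') : ind T a ≤ ind T' a := by
  unfold ind
  split_ifs with h1 h2 <;> simp_all

theorem ts_ind (T A : Finset κ) : ts (ind T) A = (A ∩ T).card := by
  simp [ts, ind]

theorem ts_cnt (I : Finset ι) (y : ι → κ) (A : Finset κ) :
    ts (cnt I y) A = (I.filter fun i => y i ∈ A).card := by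
  unfold ts cnt
  rw [card_eq_sum_card_fiberwise (f := y) (t := A) (fun i hi => by simpa using (mem_filter.1 hi).2)]
  refine sum_congr rfl fun a ha => congrArg card ?_
  ext i
  simp only [mem_filter]
  exact ⟨fun h => ⟨⟨h.1, h.2 ▸ ha⟩, h.2⟩, fun h => ⟨h.1.1, h.2⟩⟩

theorem cnt_mono {I I' : Finset ι} (h : I ⊆ I') (y : ι → κ) (a : κ) : cnt I y a ≤ cnt I' y a :=
  card_le_card (filter_subset_filter _ h)

theorem cw_le (h : ∀ a ∈ A, ∀ b ∈ B, w a b ≤ w' a b) : cw w A B ≤ cw w' A B :=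
  sum_le_sum fun a ha => sum_le_sum fun b hb => h a ha b hb

theorem cast_cw (w : κ → κ → ℕ) (A B : Finset κ) :
    (cw w A B : ℝ) = rw (fun a b => (w a b : ℝ)) A B := by simp [cw, rw]

theorem WL.mono (h : WL w X τ K) (hw : ∀ a ∈ X, ∀ b ∈ X, w a b ≤ w' a b)
    (hτ : ∀ a ∈ X, τ' a ≤ τ a) (hK : K ≤ K') : WL w' X τ' K' := fun A hA =>
  calc _ ≤ min (ts τ A) (ts τ (X \ A)) :=
        min_le_min (ts_le fun a ha => hτ a (hA ha)) (ts_le fun a ha => hτ a (mem_sdiff.1 ha).1)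
    _ ≤ K * cw w A (X \ A) := h A hA
    _ ≤ _ := Nat.mul_le_mul hK (cw_le fun a ha b hb => hw a (hA ha) b (mem_sdiff.1 hb).1)

theorem WL.tau (h : WL w X τ K) (hτ : ∀ a ∈ X, τ' a ≤ τ a) : WL w X τ' K :=
  h.mono (fun _ _ _ _ => le_rfl) hτ le_rfl

theorem WL.up (h : WL w X τ K) (hK : K ≤ K') : WL w X τ K' :=
  h.mono (fun _ _ _ _ => le_rfl) (fun _ _ => le_rfl) hK

/-- Weights that are at most `c` times larger. -/
theorem WL.scale (h : WL w X τ K) {c : ℕ} (hτ : ∀ a ∈ X, τ' a ≤ c * τ a) : WL w X τ' (c * K) := by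
  intro A hA
  have h1 : ∀ S ⊆ X, ts τ' S ≤ c * ts τ S := fun S hS => by
    unfold ts; rw [mul_sum]; exact sum_le_sum fun a ha => hτ a (hS ha)
  calc _ ≤ min (c * ts τ A) (c * ts τ (X \ A)) := min_le_min (h1 A hA) (h1 _ sdiff_subset)
    _ = c * min (ts τ A) (ts τ (X \ A)) := (mul_min _ _ _).symm
    _ ≤ _ := by rw [mul_assoc]; exact Nat.mul_le_mul_left _ (h A hA)

/-- Positive well linked weights give connectivity. -/
theorem WL.conn {Γ : SimpleGraph κ} (h : WL w X τ K) (hX : X.Nonempty) (hτ : ∀ a ∈ X, 1 ≤ τ a)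
    (hw : ∀ a ∈ X, ∀ b ∈ X, a ≠ b → 0 < w a b → Γ.Adj a b) : Conn Γ X := by
  obtain ⟨a, ha⟩ := hX
  refine Conn.of_center ha fun b hb => ?_
  by_contra hc
  have h1 := h (comp Γ X a) (filter_subset _ _)
  have h2 : cw w (comp Γ X a) (X \ comp Γ X a) = 0 := by
    rw [cw_eq_zero]
    intro x hx y hy
    by_contra h0
    obtain ⟨hy1, hy2⟩ := mem_sdiff.1 hy
    obtain ⟨hx1, hx2⟩ := mem_comp.1 hx
    exact hy2 (mem_comp.2 ⟨hy1, Relation.ReflTransGen.tail hx2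
      ⟨hw x hx1 y hy1 (fun e => hy2 (e ▸ hx)) (Nat.pos_of_ne_zero h0), hx1, hy1⟩⟩)
  have h3 : 1 ≤ ts τ (comp Γ X a) :=
    (hτ a ha).trans (single_le_ts (mem_comp.2 ⟨ha, R.refl⟩))
  have h4 : 1 ≤ ts τ (X \ comp Γ X a) :=
    (hτ b hb).trans (single_le_ts (mem_sdiff.2 ⟨hb, fun e => hc (mem_comp.1 e).2⟩))
  rw [h2] at h1
  omega

theorem mem_un {D : Finset (Finset κ)} {a : κ} : a ∈ un D ↔ ∃ Z ∈ D, a ∈ Z := by simp [un]

theorem subset_un {D : Finset (Finset κ)} {Z : Finset κ} (h : Z ∈ D) : Z ⊆ un D :=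
  fun _ ha => mem_un.2 ⟨Z, h, ha⟩

theorem un_mono {D D' : Finset (Finset κ)} (h : D ⊆ D') : un D ⊆ un D' := fun _ ha =>
  let ⟨Z, h1, h2⟩ := mem_un.1 ha
  mem_un.2 ⟨Z, h h1, h2⟩

theorem PD.mono {D D' : Finset (Finset κ)} (h : PD D) (h' : D' ⊆ D) : PD D' :=
  fun Z hZ Z' hZ' => h Z (h' hZ) Z' (h' hZ')

theorem PD.eq {D : Finset (Finset κ)} (h : PD D) {Z Z' : Finset κ} {a : κ} (hZ : Z ∈ D)
    (hZ' : Z' ∈ D) (ha : a ∈ Z) (ha' : a ∈ Z') : Z = Z' := by
  by_contra hc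
  exact disjoint_left.1 (h Z hZ Z' hZ' hc) ha ha'

theorem PD.ts_un {D : Finset (Finset κ)} (h : PD D) : ts τ (un D) = ∑ Z ∈ D, ts τ Z :=
  ts_biUnion (S := id) h

/-- Disjoint nonempty blocks are at most as many as the points. -/
theorem PD.card_le {D : Finset (Finset κ)} (h : PD D) (hne : ∀ Z ∈ D, Z.Nonempty) :
    D.card ≤ (un D).card := by
  rw [un, card_biUnion (t := id) (fun Z hZ Z' hZ' e => h Z hZ Z' hZ' e), card_eq_sum_ones]
  exact sum_le_sum fun Z hZ => (hne Z hZ).card_pos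

theorem mem_cls {col : κ → ℕ} {t : ℕ} {a : κ} : a ∈ cls X col t ↔ a ∈ X ∧ col a = t := mem_filter

theorem cls_subset {col : κ → ℕ} {t : ℕ} : cls X col t ⊆ X := filter_subset _ _

theorem cls_disj {col : κ → ℕ} {t t' : ℕ} {X' : Finset κ} (h : t ≠ t') :
    Disjoint (cls X col t) (cls X' col t') :=
  disjoint_left.2 fun _ h1 h2 => h ((mem_cls.1 h1).2.symm.trans (mem_cls.1 h2).2)

theorem bip_le (sd : κ → Bool) (a b : κ) : bip w sd a b ≤ w a b := by
  unfold bip; split_ifs <;> simp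

theorem Sy.bip (h : Sy w) (sd : κ → Bool) : Sy (bip w sd) := fun a b => by
  unfold Nl.bip; rw [h a b]; simp only [eq_comm]

theorem thin_le (m : κ → κ → ℕ) (g Δ : ℕ) (a b : κ) : thin m g Δ a b ≤ m a b := by
  unfold thin; split_ifs <;> simp

theorem Sy.thin {m : κ → κ → ℕ} (h : Sy m) (g Δ : ℕ) : Sy (thin m g Δ) := fun a b => by
  unfold Nl.thin; rw [h a b]

variable {G : SimpleGraph V}

theorem sy_aw : Sy (aw G) := fun x y => aw_comm x y

theorem sy_ew : Sy (ew G) := fun C C' => by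
  unfold ew
  rw [cw_comm (fun x y => aw_comm x y) C C']
  simp only [eq_comm]

theorem ew_self (C : Finset V) : ew G C C = 0 := if_pos rfl

theorem Fam.mono {U U' : Finset V} {J J' : Finset κ} {X : κ → Finset V} (h : Fam G U J X)
    (hU : U ⊆ U') (hJ : J' ⊆ J) : Fam G U' J' X :=
  ⟨fun a ha => (h.sub a (hJ ha)).trans hU, fun a ha => h.conn a (hJ ha),
    fun a ha b hb => h.disj a (hJ ha) b (hJ hb)⟩

theorem Fam.eq {U : Finset V} {J : Finset κ} {X : κ → Finset V} (h : Fam G U J X) {a b : κ} {v : V}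
    (ha : a ∈ J) (hb : b ∈ J) (h1 : v ∈ X a) (h2 : v ∈ X b) : a = b := by
  by_contra hc
  exact disjoint_left.1 (h.disj a ha b hb hc) h1 h2

theorem Fam.card_le {U : Finset V} {J : Finset κ} {X : κ → Finset V} (h : Fam G U J X) :
    J.card ≤ U.card := by
  refine le_trans ?_ (card_le_card (biUnion_subset.2 h.sub))
  rw [card_biUnion (fun a ha b hb e => h.disj a ha b hb e), card_eq_sum_ones]
  exact sum_le_sum fun a ha => (h.conn a ha).1.card_pos

theorem ts_bw (X T C : Finset V) : ts (bw G X T C) C = bo G X T C := by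
  unfold bw bo out
  rw [ts_add, cw_eq_sum C]
  rfl

theorem bw_le [Fintype V] (hd : Deg G univ 6) (X T C : Finset V) (v : V) : bw G X T C v ≤ 7 := by
  have h1 := hd v (mem_univ v)
  have h2 : cw (aw G) {v} (X \ C) ≤ 6 := by
    rw [cw_aw_single]
    exact (card_le_card (filter_subset_filter _ (subset_univ _))).trans h1
  have h3 := ind_le_one T v
  unfold bw
  omega

theorem bo_le [Fintype V] (hd : Deg G univ 6) (X T C : Finset V) : bo G X T C ≤ C.card * 7 := by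
  rw [← ts_bw]
  exact ts_le_card fun v _ => bw_le hd X T C v

/-- Edges between disjoint families of clusters. -/
theorem cw_ew {PP I I' : Finset (Finset V)} (h : PD PP) (hI : I ⊆ PP) (hI' : I' ⊆ PP)
    (hd : Disjoint I I') : cw (ew G) I I' = cw (aw G) (un I) (un I') := by
  have h1 : ∀ S : Finset V, cw (aw G) S (un I') = ∑ C' ∈ I', cw (aw G) S C' := fun S => by
    rw [cw_comm (fun x y => aw_comm x y), un,
      cw_biUnion (S := id) (fun a ha b hb e => h a (hI' ha) b (hI' hb) e)]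
    exact sum_congr rfl fun C _ => cw_comm (fun x y => aw_comm x y) _ _
  rw [un, cw_biUnion (S := id) (fun a ha b hb e => h a (hI ha) b (hI hb) e)]
  refine sum_congr rfl fun C hC => ?_
  rw [h1]
  exact sum_congr rfl fun C' hC' => if_neg fun e : C = C' => disjoint_left.1 hd hC (e ▸ hC')

theorem un_sdiff {X : Finset V} {PP W : Finset (Finset V)} (h : Sq.Part G X PP) (hW : W ⊆ PP) :
    un (PP \ W) = X \ un W := by
  ext v
  rw [mem_sdiff, mem_un, mem_un, ← h.un]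
  constructor
  · rintro ⟨C, hC, hv⟩
    obtain ⟨h1, h2⟩ := mem_sdiff.1 hC
    exact ⟨subset_un h1 hv, fun ⟨C', h3, h4⟩ => h2 (PD.eq h.disj h1 (hW h3) hv h4 ▸ h3)⟩
  · rintro ⟨h1, h2⟩
    obtain ⟨C, hC, hv⟩ := mem_un.1 h1
    exact ⟨C, mem_sdiff.2 ⟨hC, fun e => h2 ⟨C, e, hv⟩⟩, hv⟩

/-- The boundary of a family of clusters is the boundary of its union. -/
theorem out_ew {X T : Finset V} {PP W : Finset (Finset V)} (h : Sq.Part G X PP) (hW : W ⊆ PP) :
    out (ew G) (ts (ind T)) PP W = out (aw G) (ind T) X (un W) := by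
  unfold out
  rw [cw_ew h.disj hW sdiff_subset disjoint_sdiff, un_sdiff h hW, (PD.mono h.disj hW).ts_un]
  rfl

/-- The boundary of a cluster in terms of the cluster graph. -/
theorem bo_eq {X T C : Finset V} {PP : Finset (Finset V)} (h : Sq.Part G X PP) (hC : C ∈ PP) :
    bo G X T C = cw (ew G) {C} PP + (C ∩ T).card := by
  have h1 := out_ew (T := T) h (singleton_subset_iff.2 hC)
  have h2 : un {C} = C := by simp [un]
  have h3 : cw (ew G) {C} (PP \ {C}) + cw (ew G) {C} {C} = cw (ew G) {C} PP :=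
    cw_sdiff_right (singleton_subset_iff.2 hC)
  have h4 : cw (ew G) {C} {C} = 0 := by simp [cw, ew_self]
  rw [h2] at h1
  rw [bo, ← h1, out, ts_single, ts_ind]
  omega

/-- Volume is boundary plus inner weight. -/
theorem ts_bo {X T : Finset V} {PP W : Finset (Finset V)} (h : Sq.Part G X PP) (hW : W ⊆ PP) :
    ts (bo G X T) W = out (ew G) (ts (ind T)) PP W + cw (ew G) W W := by
  have h1 : ts (bo G X T) W = cw (ew G) W PP + ts (ts (ind T)) W := by
    rw [cw_eq_sum W, ts, ts, ← sum_add_distrib]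
    exact sum_congr rfl fun C hC => by rw [bo_eq h (hW hC), ts_ind]
  have h2 : cw (ew G) W (PP \ W) + cw (ew G) W W = cw (ew G) W PP := cw_sdiff_right hW
  unfold out
  omega

theorem Paths.mono {X T SV SV' : Finset V} {I I' : Finset ι} {s e : ι → V} {Q : ι → Finset V}
    (h : Paths G X T SV I s e Q) (hI : I' ⊆ I) (hS : SV' ⊆ SV) (he : ∀ k ∈ I', e k ∈ SV') :
    Paths G X T SV' I' s e Q := by
  refine ⟨h.fam.mono subset_rfl hI, fun k hk => h.st k (hI hk), fun k hk => ?_, fun k hk => ?_⟩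
  · have h1 := h.en k (hI hk)
    have h2 : e k ∈ Q k ∩ SV := h1 ▸ mem_singleton_self _
    refine Subset.antisymm (h1 ▸ inter_subset_inter_left hS) ?_
    exact singleton_subset_iff.2 (mem_inter.2 ⟨(mem_inter.1 h2).1, he k hk⟩)
  · refine (h.bdy k (hI hk)).imp_right fun ⟨v, hv, ha⟩ => ⟨v, ?_, ha⟩
    exact mem_sdiff.2 ⟨(mem_sdiff.1 hv).1, fun e' => (mem_sdiff.1 hv).2 (hS e')⟩

theorem IsNet.sy {Amb Rt : Finset V} {T w K : ℕ} {N : ND V κ} (h : IsNet G Amb Rt T w K N) :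
    Sy N.mu := by
  have key : ∀ a b, N.mu a b ≤ N.mu b a := fun a b => by
    refine card_le_card_of_injOn N.μ (fun x hx => ?_) fun x hx y hy e => ?_
    · simp only [coe_filter, mem_inter, Set.mem_ofPred_eq] at hx ⊢
      obtain ⟨h1, h2, -⟩ := h.wire x hx.1.1
      exact ⟨⟨h1, hx.2⟩, h2.symm ▸ hx.1.2⟩
    · simp only [coe_filter, mem_inter, Set.mem_ofPred_eq] at hx hy
      rw [← (h.wire x hx.1.1).2.1, e, (h.wire y hy.1.1).2.1]
  exact fun a b => le_antisymm (key a b) (key b a)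

theorem IsNet.mu_side {Amb Rt : Finset V} {T w K : ℕ} {N : ND V κ} (h : IsNet G Amb Rt T w K N)
    {a b : κ} (ha : a ∈ N.J) (hb : b ∈ N.J) (e : N.sd a = N.sd b) : N.mu a b = 0 := by
  rw [ND.mu, card_eq_zero, filter_eq_empty_iff]
  intro x hx hb'
  obtain ⟨-, -, -, a', ha', b', hb'', h1, h2, h3⟩ := h.wire x (mem_inter.1 hx).1
  rw [h.fam.eq ha' ha h1 (mem_inter.1 hx).2, h.fam.eq hb'' hb h2 hb'] at h3
  exact h3 e

/-- Wires from an atom to a family of atoms. -/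
theorem IsNet.cw_mu {Amb Rt : Finset V} {T w K : ℕ} {N : ND V κ} (h : IsNet G Amb Rt T w K N)
    (a : κ) {S : Finset κ} (hS : S ⊆ N.J) :
    cw N.mu {a} S = ((N.Tm ∩ N.X a).filter fun x => N.μ x ∈ S.biUnion N.X).card := by
  have : ((N.Tm ∩ N.X a).filter fun x => N.μ x ∈ S.biUnion N.X) =
      S.biUnion fun b => (N.Tm ∩ N.X a).filter fun x => N.μ x ∈ N.X b := by
    ext x
    simp only [mem_filter, mem_biUnion]
    exact ⟨fun ⟨h1, b, h2, h3⟩ => ⟨b, h2, h1, h3⟩, fun ⟨b, h2, h1, h3⟩ => ⟨h1, b, h2, h3⟩⟩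
  rw [this, card_biUnion]
  · simp [cw, ND.mu]
  · intro b hb b' hb' e
    exact disjoint_left.2 fun x h1 h2 =>
      e (h.fam.eq (hS hb) (hS hb') (mem_filter.1 h1).2 (mem_filter.1 h2).2)

theorem IsNet.deg_le {Amb Rt : Finset V} {T w K : ℕ} {N : ND V κ} (h : IsNet G Amb Rt T w K N)
    {a : κ} (ha : a ∈ N.J) : cw N.mu {a} N.J ≤ T * w := by
  rw [h.cw_mu a subset_rfl]
  exact (card_filter_le _ _).trans (h.deg a ha)

theorem IsNet.touch {Amb Rt : Finset V} {T w K : ℕ} {N : ND V κ} (h : IsNet G Amb Rt T w K N)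
    {a b : κ} (hp : 0 < N.mu a b) : Touch G (N.X a) (N.X b) := by
  obtain ⟨x, hx⟩ := card_pos.1 hp
  obtain ⟨h1, h2⟩ := mem_filter.1 hx
  exact ⟨x, (mem_inter.1 h1).2, _, h2, (h.wire x (mem_inter.1 h1).1).2.2.1⟩

theorem IsNet.card_le [Fintype V] {Amb Rt : Finset V} {T w K : ℕ} {N : ND V κ}
    (h : IsNet G Amb Rt T w K N) : N.J.card * w ≤ Fintype.card V := by
  calc N.J.card * w = ∑ a ∈ N.J, (N.Ro ∩ N.X a).card := by
        rw [sum_congr rfl h.root]; simp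
    _ = (N.J.biUnion fun a => N.Ro ∩ N.X a).card := by
        rw [card_biUnion]
        exact fun a ha b hb e =>
          (h.fam.disj a ha b hb e).mono inter_subset_right inter_subset_right
    _ ≤ _ := card_le_univ _

theorem Pre.up {Amb Rt : Finset V} {T w K₁ K K₁' K' : ℕ} {J : Finset κ} {X : κ → Finset V}
    {R Cd : ℕ → Finset V} {y : ℕ → V → V} {Old : Finset V}
    (h : Pre G Amb Rt T w K₁ K J X R Cd y Old) (h1 : K₁ ≤ K₁') (h2 : K ≤ K') :
    Pre G Amb Rt T w K₁' K' J X R Cd y Old :=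
  { h with
    xwl := fun a ha => (h.xwl a ha).up h1
    rwl := fun t ht => (h.rwl t ht).up h2
    many := h.many.trans (Nat.mul_le_mul_right _ h2) }

theorem Parts.up {Amb Amb' Rt Rt' : Finset V} {p K K' n : ℕ} {P : Fin n → Finset V}
    (h : Parts G Amb Rt p K n P) (hA : Amb ⊆ Amb') (hR : Rt ⊆ Rt') (hK : K ≤ K') :
    Parts G Amb' Rt' p K' n P :=
  ⟨⟨fun i => (h.tok.sub i).trans hA, h.tok.conn, h.tok.disj⟩, h.rich,
    fun i => (h.root i).mono (inter_subset_inter_left hR),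
    fun S Z h1 h2 => (h.exp S Z h1 h2).trans (Nat.mul_le_mul_right _ hK)⟩

theorem Gad.up {X T₀ : Finset V} {ω : V → V} {col : V → ℕ} {T K K' g ρ : ℕ}
    {AA : Finset (Finset V)} {wd : Finset V → ℕ} {Y Cd : ℕ → Finset V} {y : ℕ → V → V}
    (h : Gad G X T₀ ω col T K g ρ AA wd Y Cd y) (hK : K ≤ K') :
    Gad G X T₀ ω col T K' g ρ AA wd Y Cd y :=
  { h with
    mass := h.mass.trans (Nat.mul_le_mul_right _ hK)
    wl := fun u hu => (h.wl u hu).up hK
    tr := fun t ht A hA => (h.tr t ht A hA).trans (Nat.mul_le_mul_right _ hK) }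

theorem Opened.up {X T₀ : Finset V} {ω : V → V} {T C K K' g ρ : ℕ} {GG : Finset (Finset V)}
    (h : Opened G X T₀ ω T C K g ρ GG) (hK : K ≤ K') : Opened G X T₀ ω T C K' g ρ GG :=
  fun col hc =>
    let ⟨AA, wd, Y, Cd, y, h1⟩ := h col hc
    ⟨AA, wd, Y, Cd, y, h1.up hK⟩

theorem ColZ.up {X T : Finset V} {Z : Finset (Finset V)} {col : Finset V → ℕ} {C K K' t₁ : ℕ}
    (h : ColZ G X T Z col C K t₁) (hK : K ≤ K') : ColZ G X T Z col C K' t₁ :=
  ⟨fun t ht => (h.wl t ht).up hK,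
    fun t ht u hu => (h.deg t ht u hu).trans (Nat.mul_le_mul_right _ hK),
    fun t ht => (h.vol t ht).trans (Nat.mul_le_mul_right _ hK),
    let ⟨j, Q, h1, h2, h3⟩ := h.tg
    ⟨j, Q, h1, h2, h3.trans (Nat.mul_le_mul_right _ hK)⟩⟩

theorem Iter.down {T K L p Λ W W' : ℕ} (h : Iter T K L p Λ W) (hW : W' ≤ W) :
    Iter T K L p Λ W' := fun V κ _ _ G Amb Rt w N h1 h2 h3 h4 h5 h6 =>
  h V κ G Amb Rt w N h1 h2 h3 h4 (h5.trans_le hW) h6

theorem Samp.up {e : κ → κ → ℕ} {PP O : Finset κ} {D : Finset (Finset κ)} (h : Samp e PP D O K)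
    (hK : K ≤ K') : Samp e PP D O K' := fun W h1 h2 =>
  let ⟨W', h3, h4, h5, h6⟩ := h W h1 h2
  ⟨W', h3, h4, h5, h6.trans (Nat.mul_le_mul_right _ hK)⟩

theorem Sit.up {W T₀ : Finset V} {PP O Y : Finset (Finset V)} {D : Finset (Finset (Finset V))}
    {I : Finset ι} {S : ι → Finset V} {nd : Finset V → ι} {par : Finset (Finset V) → Finset ι}
    {p K K' Bm Bm' : ℕ} (h : Sit G W T₀ PP D O Y I S nd par p K Bm) (hK : K ≤ K')
    (hB : Bm ≤ Bm') : Sit G W T₀ PP D O Y I S nd par p K' Bm' :=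
  { h with
    load := fun i hi => (h.load i hi).trans hB
    pexp := fun Z hZ A hA B h1 h2 => (h.pexp Z hZ A hA B h1 h2).trans (Nat.mul_le_mul_right _ hK)
    pvol := fun Z hZ => (h.pvol Z hZ).trans (Nat.mul_le_mul_right _ hB) }

/-- Constants are bounded by powers. -/
theorem le_pow_of {B n : ℕ} (hB : 2 ≤ B) : n ≤ B ^ n :=
  Nat.lt_two_pow_self.le.trans (Nat.pow_le_pow_left hB n)

end

end Pool.Agent.MP_35cb46_co.Nl

end MrgPart0

-- ======== part 1: formerly Pool.Agent.MP_35cb46_co.nl.DoneA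
section MrgPart1

/-! Row DONE, part A: the expander of fat bundles and the embedded product pattern. -/

noncomputable section

namespace Pool.Agent.MP_35cb46_co.Nl.DoneP

open Finset Pool.Agent.MP_7be75d_co Pool.Agent.MP_35cb46_co.Sq
open scoped Classical

/-- Equality of pairs is decided classically, as for a general type of points. -/
local instance (priority := high) decEqPair {α β : Type} : DecidableEq (α × β) :=
  fun a b => Classical.propDecidable (a = b)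

variable {κ ι : Type}

/-- The fat bundles. -/
def fat (m : κ → κ → ℕ) (g Δ : ℕ) (a b : κ) : ℕ := if Δ * m a b ≤ g then 0 else m a b

/-- The fat bundles as real weights. -/
def fr (m : κ → κ → ℕ) (g Δ : ℕ) (a b : κ) : ℝ := fat m g Δ a b

section Fat

variable {m : κ → κ → ℕ} {g Δ : ℕ} {J : Finset κ}

theorem fr_symm (hm : Sy m) (a b : κ) : fr m g Δ a b = fr m g Δ b a := by
  unfold fr fat
  rw [hm a b]

theorem fr_nonneg (a b : κ) : 0 ≤ fr m g Δ a b := Nat.cast_nonneg _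

theorem fat_le (a b : κ) : fat m g Δ a b ≤ m a b := by
  unfold fat; split_ifs <;> simp

theorem sum_fr {X : Finset κ} (hX : X ⊆ J) {a : κ} (ha : cw m {a} J ≤ g) :
    ∑ b ∈ X, fr m g Δ a b ≤ g := by
  have h1 : ∑ b ∈ X, fat m g Δ a b ≤ g := by
    refine le_trans ?_ ha
    simp only [cw, sum_singleton]
    exact (sum_le_sum fun b _ => fat_le a b).trans (sum_le_sum_of_subset hX)
  unfold fr
  exact_mod_cast h1

theorem lt_of_adj (hm : Sy m) {a b : κ} (h : (sg (fr m g Δ)).Adj a b) : g < Δ * m a b := by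
  have key : ∀ a b, 0 < fr m g Δ a b → g < Δ * m a b := fun a b h => by
    by_contra hc
    simp [fr, fat, not_lt.1 hc] at h
  obtain ⟨-, h | h⟩ := (SimpleGraph.fromRel_adj _ _ _).1 h
  · exact key a b h
  · rw [hm a b]
    exact key b a h

theorem cw_split (A B : Finset κ) : cw m A B = cw (fat m g Δ) A B + cw (thin m g Δ) A B := by
  unfold cw
  simp only [← sum_add_distrib]
  refine sum_congr rfl fun a _ => sum_congr rfl fun b _ => ?_
  unfold fat thin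
  split_ifs <;> simp

/-- Trimming: most atoms form an expander for the fat bundles. -/
theorem core (trim : TrimStmt) {w K : ℕ} (hm : Sy m) (hwl : WL m J (fun _ => w) K) (hK : 1 ≤ K)
    (hn : 8 ≤ J.card) (hl : 16 * K * cw (thin m g Δ) J J ≤ J.card * w) :
    ∃ X ⊆ J, J.card ≤ 2 * X.card ∧ ∀ S ⊆ X, 2 * S.card ≤ X.card →
      (w : ℝ) * S.card ≤ 4 * K * rw (fr m g Δ) S (X \ S) := by
  have hK0 : (0 : ℝ) < K := by exact_mod_cast hK
  obtain ⟨A, hA, hAc, -, hexp⟩ := trim κ (fr m g Δ) J (w / (2 * K)) (J.card / 8 + 1)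
    (fr_symm hm) fr_nonneg (Or.inl (by omega)) (by
      intro S hS h1 h2
      have a1 := hwl S hS
      have a2 := card_sdiff_add_card_eq_card hS
      rw [ts_const, ts_const, min_eq_left (Nat.mul_le_mul_right _ (by omega)),
        cw_split (g := g) (Δ := Δ), mul_add] at a1
      have a3 := Nat.mul_le_mul_left K
        (cw_mono (w := thin m g Δ) hS (sdiff_subset (s := J) (t := S)))
      have a4 : J.card * w ≤ 8 * (S.card * w) := by
        rw [← mul_assoc]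
        exact Nat.mul_le_mul_right _ (by omega)
      rw [mul_assoc] at hl
      have a5 : S.card * w ≤ 2 * (K * cw (fat m g Δ) S (J \ S)) := by omega
      have a6 : (S.card : ℝ) * w ≤ 2 * (K * cw (fat m g Δ) S (J \ S)) := by exact_mod_cast a5
      rw [cast_cw] at a6
      rw [div_mul_eq_mul_div, div_le_iff₀ (by positivity)]
      have e : rw (fr m g Δ) S (J \ S) = rw (fun a b => (fat m g Δ a b : ℝ)) S (J \ S) := rfl
      rw [e]
      linarith)
  refine ⟨J \ A, sdiff_subset, ?_, fun S hS h2 => ?_⟩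
  · have := card_sdiff_add_card_eq_card hA
    omega
  · have b1 := hexp S hS h2
    rw [div_mul_eq_mul_div, div_le_iff₀ (by positivity)] at b1
    linarith

end Fat

/-- The box product. -/
def box (Γ₁ Γ₂ : SimpleGraph ι) : SimpleGraph (ι × ι) where
  Adj u v := (Γ₁.Adj u.1 v.1 ∧ u.2 = v.2) ∨ (u.1 = v.1 ∧ Γ₂.Adj u.2 v.2)
  symm := ⟨fun _ _ h => h.imp (fun h => ⟨h.1.symm, h.2.symm⟩) fun h => ⟨h.1.symm, h.2.symm⟩⟩
  loopless := ⟨fun _ h => h.elim (fun h => Γ₁.irrefl h.1) fun h => Γ₂.irrefl h.2⟩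

theorem deg_box {Γ₁ Γ₂ : SimpleGraph ι} {J₁ J₂ : Finset ι} {d : ℕ} (h1 : Deg Γ₁ J₁ d)
    (h2 : Deg Γ₂ J₂ d) : Deg (box Γ₁ Γ₂) (J₁ ×ˢ J₂) (d + d) := by
  rintro ⟨a, b⟩ hv
  obtain ⟨ha, hb⟩ := mem_product.1 hv
  refine le_trans (card_le_card (t := ((J₁.filter fun u => Γ₁.Adj a u).image fun u => (u, b)) ∪
    (J₂.filter fun u => Γ₂.Adj b u).image fun u => (a, u)) ?_) ((card_union_le _ _).trans
      (add_le_add (card_image_le.trans (h1 a ha)) (card_image_le.trans (h2 b hb))))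
  rintro ⟨x, y⟩ hu
  obtain ⟨c1, c2⟩ := mem_filter.1 hu
  obtain ⟨hx, hy⟩ := mem_product.1 c1
  rcases c2 with ⟨c2, c3⟩ | ⟨c2, c3⟩
  · exact mem_union_left _ (mem_image.2 ⟨x, mem_filter.2 ⟨hx, c2⟩, Prod.ext rfl c3⟩)
  · exact mem_union_right _ (mem_image.2 ⟨y, mem_filter.2 ⟨hy, c3⟩, Prod.ext c2 rfl⟩)

/-- The good rows of an embedded product pattern. -/
structure Lay (H : SimpleGraph κ) (X : Finset κ) (d h₀ np : ℕ) (Γ₁ Γ₂ : SimpleGraph ι)
    (Rw : Finset ι) (co : ι → Finset ι) (π : ι → ι → κ) (Bs : ι → ι → Finset κ) : Prop where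
  card : h₀ ≤ 2 * Rw.card
  deg1 : Deg Γ₁ Rw d
  wl1 : WL (aw Γ₁) Rw (fun _ => 1) (4 * d)
  deg2 : ∀ i ∈ Rw, Deg Γ₂ (co i) d
  wl2 : ∀ i ∈ Rw, WL (aw Γ₂) (co i) (fun _ => 1) (4 * d)
  big : ∀ i ∈ Rw, np < 2 * (co i).card
  fam : ∀ i ∈ Rw, Fam H X (co i) (Bs i)
  cross : ∀ i ∈ Rw, ∀ i' ∈ Rw, i ≠ i' → ∀ j ∈ co i, ∀ j' ∈ co i', Disjoint (Bs i j) (Bs i' j')
  port : ∀ i ∈ Rw, ∀ j ∈ co i, π i j ∈ Bs i j
  touch : ∀ i ∈ Rw, ∀ j ∈ co i, ∀ j' ∈ co i, Γ₂.Adj j j' → Touch H (Bs i j) (Bs i j')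
  row : ∀ i ∈ Rw, ∀ i' ∈ Rw, Γ₁.Adj i i' → ∃ j ∈ co i, j ∈ co i' ∧ Touch H (Bs i j) (Bs i' j)

theorem lay (pat : PatStmt) (patr : PatrStmt) (emb : EmbStmt) : ∃ c : ℕ, ∀ (κ ι : Type)
    [Fintype κ] (X : Finset κ) (wt : κ → κ → ℝ) (D : ℝ) (B Λ : ℕ) (J₁ J₂ : Finset ι),
    (∀ a b, wt a b = wt b a) → (∀ a b, 0 ≤ wt a b) → 0 < D → X.Nonempty → X.card ≤ 2 ^ B →
    (∀ a ∈ X, ∑ b ∈ X, wt a b ≤ D) →
    (∀ S ⊆ X, 2 * S.card ≤ X.card → D * S.card ≤ B * rw wt S (X \ S)) →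
    J₁.card ≤ 2 ^ Λ → J₂.card ≤ 2 ^ Λ → 256 * (2 * Λ + 2) ^ 4 ≤ B →
    B ^ c * (J₁.card * J₂.card) ≤ X.card → 1 ≤ J₂.card →
    ∃ (Γ₁ Γ₂ : SimpleGraph ι) (Rw : Finset ι) (co : ι → Finset ι) (π : ι → ι → κ)
      (Bs : ι → ι → Finset κ), Lay (sg wt) X (2 * Λ + 2) J₁.card J₂.card Γ₁ Γ₂ Rw co π Bs := by
  obtain ⟨c, hc⟩ := emb
  refine ⟨c, fun κ ι _ X wt D B Λ J₁ J₂ hs hn hD hX hXc hd he h1 h2 hB hc0 hp => ?_⟩
  obtain ⟨Γ₁, d1, w1⟩ := pat ι J₁ Λ h1
  obtain ⟨Γ₂, d2, w2⟩ := pat ι J₂ Λ h2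
  generalize hdd : 2 * Λ + 2 = d at *
  have hd1 : 1 ≤ d := by omega
  have hd4 : d ≤ d ^ 4 := Nat.le_self_pow (by omega) _
  obtain ⟨J', -, π, Bs, e1, e2, e3, e4⟩ := hc κ (ι × ι) X wt D B (J₁ ×ˢ J₂) (box Γ₁ Γ₂)
    (fun _ => X) hs hn hD (by omega) hX hXc hd he
    (fun v hv => (deg_box d1 d2 v hv).trans (by omega)) (fun _ _ => ⟨subset_rfl, hX⟩) (fun z => by
      have a0 : (0 : ℝ) < X.card := by exact_mod_cast hX.card_pos
      have a1 : ((((J₁ ×ˢ J₂).filter fun _ => z ∈ X).card : ℕ) : ℝ) ≤ (J₁.card * J₂.card : ℕ) := by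
        exact_mod_cast (card_filter_le _ _).trans (card_product _ _).le
      have a2 : ((B ^ c * (J₁.card * J₂.card) : ℕ) : ℝ) ≤ X.card := by exact_mod_cast hc0
      rw [sum_const, nsmul_eq_mul, ← mul_assoc, mul_inv_le_iff₀ a0, one_mul]
      refine le_trans ?_ a2
      rw [Nat.cast_mul, Nat.cast_pow]
      exact mul_le_mul_of_nonneg_left a1 (by positivity))
  rw [card_product] at e1
  obtain ⟨bad, hbad⟩ : ∃ bad : ι → Finset ι, ∀ i, bad i = J₂.filter fun j => (i, j) ∉ J' :=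
    ⟨_, fun _ => rfl⟩
  have b1 : ∑ i ∈ J₁, (bad i).card ≤ ((J₁ ×ˢ J₂) \ J').card := by
    rw [card_eq_sum_card_fiberwise (f := fun u : ι × ι => u.1) (t := J₁)
      (fun u hu => (mem_product.1 (mem_sdiff.1 (mem_coe.1 hu)).1).1)]
    refine sum_le_sum fun i hi => card_le_card_of_injOn (fun j => (i, j)) (fun j hj => ?_)
      fun j _ j' _ e => congrArg Prod.snd e
    rw [hbad] at hj
    obtain ⟨c1, c2⟩ := mem_filter.1 (mem_coe.1 hj)
    exact mem_coe.2 (mem_filter.2 ⟨mem_sdiff.2 ⟨mem_product.2 ⟨hi, c1⟩, c2⟩, rfl⟩)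
  obtain ⟨BR, hBR⟩ : ∃ BR, BR = J₁.filter fun i => ¬ 16 * d * d * (bad i).card ≤ J₂.card :=
    ⟨_, rfl⟩
  have b2 : BR ⊆ J₁ := hBR ▸ filter_subset _ _
  have b3 : BR.card * J₂.card ≤ 16 * d * d * ((J₁ ×ˢ J₂) \ J').card := by
    refine le_trans ?_ (Nat.mul_le_mul_left _ ((sum_le_sum_of_subset b2).trans b1))
    rw [mul_sum, ← smul_eq_mul, ← sum_const]
    refine sum_le_sum fun i hi => ?_
    rw [hBR] at hi
    exact (not_le.1 (mem_filter.1 hi).2).le
  have b4 : 16 * d * d * BR.card ≤ J₁.card := by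
    refine Nat.le_of_mul_le_mul_left ?_ (show 0 < 16 * d * d * J₂.card by positivity)
    calc 16 * d * d * J₂.card * (16 * d * d * BR.card)
        = 256 * d ^ 4 * (BR.card * J₂.card) := by ring
      _ ≤ B * (16 * d * d * ((J₁ ×ˢ J₂) \ J').card) := Nat.mul_le_mul hB b3
      _ = 16 * d * d * (B * ((J₁ ×ˢ J₂) \ J').card) := by ring
      _ ≤ 16 * d * d * (J₁.card * J₂.card) := Nat.mul_le_mul_left _ e1
      _ = _ := by ring
  obtain ⟨Rw, r1, r2, r3⟩ := patr ι Γ₁ J₁ BR d d d1 w1 b2 hd1 hd1 b4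
  have hco : ∀ i, ∃ C : Finset ι, i ∈ Rw → C ⊆ J₂ ∧ (∀ j ∈ C, (i, j) ∈ J') ∧
      J₂.card < 2 * C.card ∧ WL (aw Γ₂) C (fun _ => 1) (4 * d) := fun i => by
    by_cases hi : i ∈ Rw
    · obtain ⟨c1, c2⟩ := mem_sdiff.1 (r1 hi)
      have c3 : 16 * d * d * (bad i).card ≤ J₂.card := by
        by_contra c4
        exact c2 (hBR ▸ mem_filter.2 ⟨c1, c4⟩)
      obtain ⟨C, s1, s2, s3⟩ := patr ι Γ₂ J₂ (bad i) d d d2 w2 (hbad i ▸ filter_subset _ _)
        hd1 hd1 c3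
      have s4 : C ⊆ J₂ := s1.trans sdiff_subset
      refine ⟨C, fun _ => ⟨s4, fun j hj => ?_, ?_, s3⟩⟩
      · by_contra c4
        exact (mem_sdiff.1 (s1 hj)).2 (hbad i ▸ mem_filter.2 ⟨s4 hj, c4⟩)
      · have s5 := card_sdiff_add_card_eq_card s4
        rw [mul_assoc, mul_assoc] at s2 c3
        omega
    · exact ⟨∅, fun h => absurd h hi⟩
  choose co hco using hco
  have r4 : Rw ⊆ J₁ := r1.trans sdiff_subset
  refine ⟨Γ₁, Γ₂, Rw, co, fun i j => π (i, j), fun i j => Bs (i, j), ?_, d1.mono r4, r3,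
    fun i hi => d2.mono (hco i hi).1, fun i hi => (hco i hi).2.2.2, fun i hi => (hco i hi).2.2.1,
    fun i hi => ⟨fun j hj => e2.sub _ ((hco i hi).2.1 j hj),
      fun j hj => e2.conn _ ((hco i hi).2.1 j hj), fun j hj j' hj' e =>
        e2.disj _ ((hco i hi).2.1 j hj) _ ((hco i hi).2.1 j' hj') fun e' => e (congrArg Prod.snd e')⟩,
    fun i hi i' hi' e j hj j' hj' => e2.disj _ ((hco i hi).2.1 j hj) _ ((hco i' hi').2.1 j' hj')
      fun e' => e (congrArg Prod.fst e'),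
    fun i hi j hj => (e3 _ ((hco i hi).2.1 j hj)).2,
    fun i hi j hj j' hj' h => e4 _ ((hco i hi).2.1 j hj) _ ((hco i hi).2.1 j' hj') (Or.inr ⟨rfl, h⟩),
    fun i hi i' hi' h => ?_⟩
  · have s5 := card_sdiff_add_card_eq_card r4
    rw [mul_assoc, mul_assoc] at r2 b4
    omega
  · have s1 : ¬ Disjoint (co i) (co i') := fun hdj => by
      have s2 := card_le_card (union_subset (hco i hi).1 (hco i' hi').1)
      rw [card_union_of_disjoint hdj] at s2
      have s3 := (hco i hi).2.2.1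
      have s4 := (hco i' hi').2.2.1
      omega
    obtain ⟨j, hj, hj'⟩ := not_disjoint_iff.1 s1
    exact ⟨j, hj, hj', e4 _ ((hco i hi).2.1 j hj) _ ((hco i' hi').2.1 j hj') (Or.inl ⟨h, rfl⟩)⟩

end Pool.Agent.MP_35cb46_co.Nl.DoneP

end
end MrgPart1

-- marker of a merged file
example : 731051 + 754022 = 731051 + 754022 := rfl
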