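import Mathlib.Analysis.SpecialFunctions.Pow.Real
import Mathlib.Analysis.SpecialFunctions.Sqrt
import Pool.Agent.MP_35cb46_co.sq.Round

/-! PROJECT NL: definitions and statements of the rows for the nearly linear bound. -/

noncomputable section

namespace Pool.Agent.MP_35cb46_co.Nl

open Finset Pool.Agent.MP_7be75d_co Pool.Agent.MP_35cb46_co.Sq
open scoped Classical

/-- Equality of finite sets is decided classically, as for a general type of points. -/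
scoped instance (priority := high) decEqFinset {α : Type} : DecidableEq (Finset α) :=
  fun a b => Classical.propDecidable (a = b)

section Defs

variable {κ ι V : Type}

/-- Total weight of a set. -/
def ts (τ : κ → ℕ) (A : Finset κ) : ℕ := ∑ a ∈ A, τ a

/-- Indicator. -/
def ind (T : Finset κ) (a : κ) : ℕ := if a ∈ T then 1 else 0

/-- Number of indices anchored at a point. -/
def cnt (I : Finset ι) (y : ι → κ) (a : κ) : ℕ := (I.filter fun i => y i = a).card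

/-- The weights `τ` are well linked in `X`. -/
def WL (w : κ → κ → ℕ) (X : Finset κ) (τ : κ → ℕ) (K : ℕ) : Prop :=
  ∀ A ⊆ X, min (ts τ A) (ts τ (X \ A)) ≤ K * cw w A (X \ A)

/-- Symmetry. -/
def Sy (w : κ → κ → ℕ) : Prop := ∀ a b, w a b = w b a

/-- Pairwise disjoint blocks. -/
def PD (D : Finset (Finset κ)) : Prop := ∀ Z ∈ D, ∀ Z' ∈ D, Z ≠ Z' → Disjoint Z Z'

/-- `W` splits no block. -/
def Resp (D : Finset (Finset κ)) (W : Finset κ) : Prop := ∀ Z ∈ D, Z ⊆ W ∨ Disjoint Z W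

/-- Union of the blocks. -/
def un (D : Finset (Finset κ)) : Finset κ := D.biUnion id

/-- Boundary of `W` in `X`, terminals included. -/
def out (w : κ → κ → ℕ) (τ : κ → ℕ) (X W : Finset κ) : ℕ := cw w W (X \ W) + ts τ W

/-- Degree inside `X`. -/
def dg (w : κ → κ → ℕ) (X : Finset κ) (a : κ) : ℕ := cw w {a} X

/-- The weights between the two sides. -/
def bip (w : κ → κ → ℕ) (sd : κ → Bool) (a b : κ) : ℕ := if sd a = sd b then 0 else w a b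

/-- The bundles of multiplicity at most `g / Δ`. -/
def thin (m : κ → κ → ℕ) (g Δ : ℕ) (a b : κ) : ℕ := if Δ * m a b ≤ g then m a b else 0

/-- The thin bundles that lie in no hub. -/
def lost (m : κ → κ → ℕ) (g Θ : ℕ) (PP : Finset (Finset κ)) (a b : κ) : ℕ :=
  if ∃ P ∈ PP, a ∈ P ∧ b ∈ P then 0 else thin m g Θ a b

/-- Real weight between two sets. -/
def rw (w : κ → κ → ℝ) (A B : Finset κ) : ℝ := ∑ a ∈ A, ∑ b ∈ B, w a b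

/-- The support graph of real weights. -/
def sg (w : κ → κ → ℝ) : SimpleGraph κ := SimpleGraph.fromRel fun a b => 0 < w a b

/-- A colour class. -/
def cls (X : Finset κ) (col : κ → ℕ) (t : ℕ) : Finset κ := X.filter fun a => col a = t

/-- Disjoint connected subsets of `U`, indexed by `J`. -/
structure Fam (G : SimpleGraph V) (U : Finset V) (J : Finset κ) (X : κ → Finset V) : Prop where
  sub : ∀ a ∈ J, X a ⊆ U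
  conn : ∀ a ∈ J, Conn G (X a)
  disj : ∀ a ∈ J, ∀ b ∈ J, a ≠ b → Disjoint (X a) (X b)

/-- Number of edges between different clusters. -/
def ew (G : SimpleGraph V) (C C' : Finset V) : ℕ := if C = C' then 0 else cw (aw G) C C'

/-- Boundary of a cluster. -/
def bo (G : SimpleGraph V) (X T C : Finset V) : ℕ := out (aw G) (ind T) X C

/-- Boundary weight of a vertex of a cluster. -/
def bw (G : SimpleGraph V) (X T C : Finset V) (v : V) : ℕ := cw (aw G) {v} (X \ C) + ind T v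

/-- An optimal clustering. -/
structure Clu (G : SimpleGraph V) (X T : Finset V) (g A Λ : ℕ) (PP : Finset (Finset V)) :
    Prop where
  part : Sq.Part G X PP
  pos : ∀ C ∈ PP, 1 ≤ bo G X T C
  le : ∀ C ∈ PP, bo G X T C ≤ g
  wl : ∀ C ∈ PP, WL (aw G) C (bw G X T C) (14 * A * Λ)
  dense : ∀ W ⊆ PP, out (ew G) (ts (ind T)) PP W ≤ g → A * cw (ew G) W W ≤ ts (bo G X T) W
  thin : ∀ C ∈ PP, ∀ C' ∈ PP, bo G X T C + bo G X T C' ≤ g → A * ew G C C' ≤ bo G X T C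

/-- A bipartite expander of small clusters. -/
structure ZOk (G : SimpleGraph V) (X T : Finset V) (PP : Finset (Finset V))
    (sd : Finset V → Bool) (K τ : ℕ) (Z : Finset (Finset V)) : Prop where
  sub : Z ⊆ PP
  two : 2 ≤ Z.card
  wl : WL (bip (ew G) sd) Z (bo G X T) K
  le : ∀ u ∈ Z, bo G X T u ≤ τ

/-- A good colouring of an expander of clusters; `t₁` is the colour of the targets. -/
structure ColZ (G : SimpleGraph V) (X T : Finset V) (Z : Finset (Finset V))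
    (col : Finset V → ℕ) (C K t₁ : ℕ) : Prop where
  wl : ∀ t < C, WL (ew G) (cls Z col t) (bo G X T) K
  deg : ∀ t < C, ∀ u ∈ Z, bo G X T u ≤ K * cw (ew G) {u} (cls Z col t)
  vol : ∀ t < C, ts (bo G X T) Z ≤ K * ts (bo G X T) (cls Z col t)
  tg : ∃ (j : ℕ) (Q : Finset (Finset V)), Q ⊆ cls Z col t₁ ∧
    (∀ u ∈ Q, 2 ^ j ≤ bo G X T u ∧ bo G X T u < 2 ^ (j + 1)) ∧
    ts (bo G X T) Z ≤ K * (Q.card * 2 ^ j)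

/-- Disjoint connections from terminals to the first vertex of `SV`. -/
structure Paths (G : SimpleGraph V) (X T SV : Finset V) (I : Finset ι) (s e : ι → V)
    (Q : ι → Finset V) : Prop where
  fam : Fam G X I Q
  st : ∀ k ∈ I, s k ∈ T ∧ s k ∈ Q k
  en : ∀ k ∈ I, Q k ∩ SV = {e k}
  bdy : ∀ k ∈ I, e k ∈ T ∨ ∃ v ∈ X \ SV, G.Adj (e k) v

/-- The data of a net. -/
structure ND (V κ : Type) where
  J : Finset κ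
  X : κ → Finset V
  Tm : Finset V
  Ro : Finset V
  μ : V → V
  sd : κ → Bool

/-- The number of wires between two atoms. -/
def ND.mu (N : ND V κ) (a b : κ) : ℕ := ((N.Tm ∩ N.X a).filter fun x => N.μ x ∈ N.X b).card

/-- A rooted bipartite expander of well linked atoms. -/
structure IsNet (G : SimpleGraph V) (Amb Rt : Finset V) (T w K : ℕ) (N : ND V κ) : Prop where
  fam : Fam G Amb N.J N.X
  wire : ∀ x ∈ N.Tm, N.μ x ∈ N.Tm ∧ N.μ (N.μ x) = x ∧ G.Adj x (N.μ x) ∧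
    ∃ a ∈ N.J, ∃ b ∈ N.J, x ∈ N.X a ∧ N.μ x ∈ N.X b ∧ N.sd a ≠ N.sd b
  rt : N.Ro ⊆ Rt
  tr : Disjoint N.Tm N.Ro
  deg : ∀ a ∈ N.J, (N.Tm ∩ N.X a).card ≤ T * w
  root : ∀ a ∈ N.J, (N.Ro ∩ N.X a).card = w
  wl : ∀ a ∈ N.J, WL (aw G) (N.X a) (ind (N.Tm ∪ N.Ro)) (T + 1)
  exp : WL N.mu N.J (fun _ => w) K

/-- Atoms with candidate terminals towards `T + 1` routers. -/
structure Pre (G : SimpleGraph V) (Amb Rt : Finset V) (T w K₁ K : ℕ) (J : Finset κ)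
    (X : κ → Finset V) (R Cd : ℕ → Finset V) (y : ℕ → V → V) (Old : Finset V) : Prop where
  fam : Fam G Amb J X
  rsub : ∀ t ≤ T, R t ⊆ Amb
  rdisj : ∀ t ≤ T, ∀ t' ≤ T, t ≠ t' → Disjoint (R t) (R t')
  xr : ∀ a ∈ J, ∀ t ≤ T, Disjoint (X a) (R t)
  csub : ∀ t ≤ T, Cd t ⊆ J.biUnion X
  card : ∀ a ∈ J, ∀ t ≤ T, (Cd t ∩ X a).card = w
  adj : ∀ t ≤ T, ∀ x ∈ Cd t, y t x ∈ R t ∧ G.Adj x (y t x)
  xwl : ∀ a ∈ J, WL (aw G) (X a) (ind ((range (T + 1)).biUnion Cd)) K₁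
  rwl : ∀ t ≤ T, WL (aw G) (R t)
    (fun v => cnt (Cd t) (y t) v + if t = 0 then ind Old v else 0) K
  old : Old ⊆ R 0 ∩ Rt
  many : J.card * w ≤ K * Old.card

/-- Rooted atoms and `T` routers that answer every cut. -/
structure Ready (G : SimpleGraph V) (Amb Rt : Finset V) (T w : ℕ) (J : Finset κ)
    (X : κ → Finset V) (R Cd : ℕ → Finset V) (y : ℕ → V → V) (Ro : Finset V) : Prop where
  fam : Fam G Amb J X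
  rsub : ∀ t ∈ Icc 1 T, R t ⊆ Amb
  rdisj : ∀ t ∈ Icc 1 T, ∀ t' ∈ Icc 1 T, t ≠ t' → Disjoint (R t) (R t')
  xr : ∀ a ∈ J, ∀ t ∈ Icc 1 T, Disjoint (X a) (R t)
  cdisj : ∀ t ∈ Icc 1 T, ∀ t' ∈ Icc 1 T, t ≠ t' → Disjoint (Cd t) (Cd t')
  cro : ∀ t ∈ Icc 1 T, Disjoint (Cd t) Ro
  rro : ∀ t ∈ Icc 1 T, Disjoint (R t) Ro
  adj : ∀ t ∈ Icc 1 T, ∀ x ∈ Cd t, G.Adj x (y t x)
  rt : Ro ⊆ Rt
  root : ∀ a ∈ J, (Ro ∩ X a).card = w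
  xwl : ∀ a ∈ J, WL (aw G) (X a) (ind (Ro ∪ (Icc 1 T).biUnion Cd)) (T + 1)
  orc : ∀ t ∈ Icc 1 T, ∀ A ⊆ J, ∀ B ⊆ J, Disjoint A B → A.card = B.card → 56 ≤ A.card →
    ∃ (m : ℕ) (s s' : Fin m → V) (Q : Fin m → Finset V), A.card * w ≤ 112 * m ∧
      Tok G (R t) Q ∧ Function.Injective s ∧ Function.Injective s' ∧
      (∀ k, s k ∈ Cd t ∧ s k ∈ A.biUnion X ∧ y t (s k) ∈ Q k) ∧
      (∀ k, s' k ∈ Cd t ∧ s' k ∈ B.biUnion X ∧ y t (s' k) ∈ Q k) ∧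
      ∀ a ∈ J, (univ.filter fun k => s k ∈ X a).card ≤ (w + 1) / 2 ∧
        (univ.filter fun k => s' k ∈ X a).card ≤ (w + 1) / 2

/-- Rooted thick pieces that form a vertex expander. -/
structure Parts (G : SimpleGraph V) (Amb Rt : Finset V) (p K h : ℕ) (P : Fin h → Finset V) :
    Prop where
  tok : Tok G Amb P
  rich : ∀ i, Rich G (P i) (p + 1)
  root : ∀ i, (P i ∩ Rt).Nonempty
  exp : ∀ S Z : Finset (Fin h), 2 * S.card ≤ h →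
    (∀ i ∈ S, ∀ j, Touch G (P i) (P j) → j ∈ S ∪ Z) → S.card ≤ K * Z.card

/-- The outer ends of the terminals of colour `t`. -/
def om (T₀ : Finset V) (ω : V → V) (col : V → ℕ) (t : ℕ) : Finset V := (cls T₀ col t).image ω

/-- New atoms inside an opened atom, with their connections to the outer ends. -/
structure Gad (G : SimpleGraph V) (X T₀ : Finset V) (ω : V → V) (col : V → ℕ) (T K g ρ : ℕ)
    (AA : Finset (Finset V)) (wd : Finset V → ℕ) (Y Cd : ℕ → Finset V) (y : ℕ → V → V) :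
    Prop where
  fam : Fam G X AA id
  ysub : ∀ t ≤ T, Y t ⊆ X
  ydisj : ∀ t ≤ T, ∀ t' ≤ T, t ≠ t' → Disjoint (Y t) (Y t')
  uy : ∀ u ∈ AA, ∀ t ≤ T, Disjoint u (Y t)
  csub : ∀ t ≤ T, Cd t ⊆ un AA
  card : ∀ u ∈ AA, ∀ t ≤ T, (Cd t ∩ u).card = wd u
  big : ∀ u ∈ AA, T + 1 ≤ wd u
  small : ∀ u ∈ AA, ρ * wd u ≤ g
  mass : g ≤ K * ts wd AA
  adj : ∀ t ≤ T, ∀ x ∈ Cd t, y t x ∈ Y t ∪ om T₀ ω col t ∧ G.Adj x (y t x)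
  wl : ∀ u ∈ AA, WL (aw G) u (ind ((range (T + 1)).biUnion Cd)) K
  tr : ∀ t ≤ T, ∀ A ⊆ Y t ∪ om T₀ ω col t, ts (cnt (Cd t) (y t)) A ≤
    K * (cw (aw G) A ((Y t ∪ om T₀ ω col t) \ A) + (A ∩ om T₀ ω col t).card)

/-- Every colouring that is balanced on the groups `GG` gives new atoms. -/
def Opened (G : SimpleGraph V) (X T₀ : Finset V) (ω : V → V) (T C K g ρ : ℕ)
    (GG : Finset (Finset V)) : Prop :=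
  ∀ col : V → ℕ, (∀ Γ ∈ GG, ∀ t ≤ T, Γ.card ≤ C * (cls Γ col t).card) →
    ∃ AA wd Y Cd y, Gad G X T₀ ω col T K g ρ AA wd Y Cd y

/-- The terminals have distinct outer neighbours. -/
structure Outer (G : SimpleGraph V) (X T₀ : Finset V) (ω : V → V) : Prop where
  sub : T₀ ⊆ X
  adj : ∀ x ∈ T₀, ω x ∉ X ∧ G.Adj x (ω x)
  inj : Set.InjOn ω T₀

/-- Opened targets and global routers. -/
structure Mid (G : SimpleGraph V) (Amb Rt : Finset V) (T K g ρ : ℕ) (Tg : Finset κ)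
    (X T₀ : κ → Finset V) (ω : V → V) (col : V → ℕ) (R : ℕ → Finset V) (Old : Finset V) :
    Prop where
  fam : Fam G Amb Tg X
  gad : ∀ a ∈ Tg, ∃ AA wd Y Cd y, Gad G (X a) (T₀ a) ω col T K g ρ AA wd Y Cd y
  tcard : ∀ a ∈ Tg, (T₀ a).card ≤ g
  rsub : ∀ t ≤ T, R t ⊆ Amb
  rdisj : ∀ t ≤ T, ∀ t' ≤ T, t ≠ t' → Disjoint (R t) (R t')
  xr : ∀ a ∈ Tg, ∀ t ≤ T, Disjoint (X a) (R t)
  osub : ∀ a ∈ Tg, ∀ t ≤ T, om (T₀ a) ω col t ⊆ R t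
  odisj : ∀ a ∈ Tg, ∀ b ∈ Tg, a ≠ b → Disjoint ((T₀ a).image ω) ((T₀ b).image ω)
  rwl : ∀ t ≤ T, WL (aw G) (R t) (fun v => ind (Tg.biUnion fun a => om (T₀ a) ω col t) v +
    if t = 0 then ind Old v else 0) K
  old : Old ⊆ R 0 ∩ Rt
  many : Tg.card * g ≤ K * Old.card

/-- The clusters that are kept whole. -/
def kept (PP : Finset κ) (D : Finset (Finset κ)) (O : Finset κ) : Finset κ := (PP \ un D) ∪ O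

/-- Cuts survive the sampling. -/
def Samp (e : κ → κ → ℕ) (PP : Finset κ) (D : Finset (Finset κ)) (O : Finset κ) (K : ℕ) : Prop :=
  ∀ W ⊆ PP, Resp D W → ∃ W' ⊆ PP, Resp D W' ∧ (∀ Z ∈ D, Z ⊆ W ↔ Z ⊆ W') ∧
    cw e W' (PP \ W') ≤ K * cw e (W ∩ kept PP D O) (kept PP D O \ W)

/-- Bilinear forms for the two stage estimate. -/
structure Bil [Fintype κ] (I : Finset ι) (F : ι → κ → κ → ℕ) (L : ι → Finset κ) (r C : ℕ) :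
    Prop where
  pos : 1 ≤ r
  side : ∀ j ∈ I, ∀ a b, 0 < F j a b → a ∈ L j ∧ b ∉ L j
  le : ∀ j ∈ I, ∀ a, cw (F j) {a} univ ≤ r ∧ cw (F j) univ {a} ≤ r
  sum : ∑ j ∈ I, Real.exp (-(cw (F j) univ univ : ℝ) / (64 * (C : ℝ) ^ 2 * r)) ≤ 1 / 8

/-- The pieces of the top level; the clusters in `Y` are not yet attached. -/
structure Sit (G : SimpleGraph V) (W T₀ : Finset V) (PP : Finset (Finset V))
    (D : Finset (Finset (Finset V))) (O Y : Finset (Finset V)) (I : Finset ι) (S : ι → Finset V)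
    (nd : Finset V → ι) (par : Finset (Finset V) → Finset ι) (p K Bm : ℕ) : Prop where
  part : Sq.Part G W PP
  dsub : ∀ Z ∈ D, Z ⊆ PP ∧ Z.Nonempty
  pd : PD D
  osub : O ⊆ un D
  ysub : Y ⊆ PP \ un D
  fam : Fam G W I S
  rich : ∀ i ∈ I, Rich G (S i) (p + 1)
  sy : ∀ i ∈ I, ∀ v ∈ Y, Disjoint (S i) v
  ndm : ∀ u ∈ kept PP D O \ Y, nd u ∈ I ∧ u ⊆ S (nd u)
  load : ∀ i ∈ I, ts (bo G W T₀) ((kept PP D O \ Y).filter fun u => nd u = i) ≤ Bm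
  psub : ∀ Z ∈ D, par Z ⊆ I ∧ (par Z).Nonempty
  pdisj : ∀ Z ∈ D, ∀ Z' ∈ D, Z ≠ Z' → Disjoint (par Z) (par Z')
  pnd : ∀ Z ∈ D, ∀ u ∈ O ∩ Z, nd u ∈ par Z
  pexp : ∀ Z ∈ D, ∀ A ⊆ par Z, ∀ B : Finset ι, 2 * A.card ≤ (par Z).card →
    (∀ i ∈ A, ∀ j ∈ par Z, Touch G (S i) (S j) → j ∈ A ∪ B) → A.card ≤ K * B.card
  pvol : ∀ Z ∈ D, ts (bo G W T₀) Z ≤ Bm * (par Z).card

end Defs

/-! ### Cuts -/

/-- Row CUT. -/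
def RoundStmt : Prop := ∀ (κ : Type) (w u : κ → κ → ℕ) (τ : κ → ℕ) (X : Finset κ)
  (D : Finset (Finset κ)) (K : ℕ), Sy u → (∀ a b, u a b ≤ w a b) → 1 ≤ K → PD D →
  (∀ Z ∈ D, Z ⊆ X ∧ WL w Z (fun v => τ v + cw u {v} (X \ Z)) K) →
  ∀ A ⊆ X, ∃ W ⊆ X, Resp D W ∧ (∀ Z ∈ D, Z ⊆ A → Z ⊆ W) ∧ (∀ v, v ∉ un D → (v ∈ W ↔ v ∈ A)) ∧
    cw u W (X \ W) + ts τ (W \ A) + ts τ (A \ W) ≤ K * cw w A (X \ A)

/-- Row CUT. -/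
def CompStmt : Prop := ∀ (V κ : Type) (w u : V → V → ℕ) (τ : V → ℕ) (J : Finset κ)
  (X : κ → Finset V) (K₁ K₂ : ℕ), Sy u → (∀ a b, u a b ≤ w a b) → 1 ≤ K₁ →
  (∀ a ∈ J, ∀ b ∈ J, a ≠ b → Disjoint (X a) (X b)) →
  (∀ a ∈ J, WL w (X a) (fun v => τ v + cw u {v} (J.biUnion X \ X a)) K₁) →
  WL (fun a b => cw u (X a) (X b)) J (fun a => ts τ (X a)) K₂ →
  WL w (J.biUnion X) τ (K₁ * (K₂ + 1))

/-- Row CUT. -/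
def ExtStmt : Prop := ∀ (V ι : Type) (G : SimpleGraph V) (X T₀ : Finset V) (I : Finset ι)
  (s e : ι → V) (Q : ι → Finset V) (K : ℕ), 1 ≤ K → T₀ ⊆ X → (∀ k ∈ I, e k ∉ T₀) →
  (∀ k ∈ I, Conn G (Q k) ∧ Q k ∩ X = {e k} ∧ s k ∈ Q k) →
  (∀ k ∈ I, ∀ k' ∈ I, k ≠ k' → Disjoint (Q k) (Q k')) →
  WL (aw G) X (ind (T₀ ∪ I.image e)) K →
  WL (aw G) (X ∪ I.biUnion Q) (ind (T₀ ∪ I.image s)) K

/-- Row CUT. -/
def CoreStmt : Prop := ∀ (V : Type) (G : SimpleGraph V) (X : Finset V) (τ : V → ℕ) (K : ℕ),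
  WL (aw G) X τ K → 0 < ts τ X →
  ∃ X' ⊆ X, Conn G X' ∧ (∀ v ∈ X, 0 < τ v → v ∈ X') ∧ WL (aw G) X' τ K

/-- Row CUT: from the atoms of a net to its vertices. -/
def NetcStmt : Prop := ∀ (V κ : Type) (G : SimpleGraph V) (Amb Rt : Finset V) (T w K K₂ : ℕ)
  (N : ND V κ) (J₀ : Finset κ) (τ : V → ℕ), IsNet G Amb Rt T w K N → J₀ ⊆ N.J →
  (∀ v ∈ J₀.biUnion N.X, τ v ≤ ind N.Ro v + ind (N.Tm.filter fun x => N.μ x ∉ J₀.biUnion N.X) v) →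
  WL N.mu J₀ (fun a => ts τ (N.X a)) K₂ →
  WL (aw G) (J₀.biUnion N.X) τ ((T + 1) * (K₂ + 1))

/-- Row GROUP. -/
def GroupStmt : Prop := ∀ (V : Type) [Fintype V] (G : SimpleGraph V) (X : Finset V) (τ : V → ℕ)
  (s : ℕ), Deg G univ 6 → Conn G X → (∀ v, τ v ≤ 7) → 1 ≤ s → s ≤ ts τ X →
  ∃ QQ, Sq.Part G X QQ ∧ ∀ C ∈ QQ, s ≤ ts τ C ∧ ts τ C ≤ 7 * s + 7

/-- Row GROUP. -/
def PickStmt : Prop := ∀ (V : Type) (G : SimpleGraph V) (X : Finset V) (τ τ' : V → ℕ) (K : ℕ)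
  (QQ : Finset (Finset V)), 1 ≤ K → WL (aw G) X τ K → Sq.Part G X QQ →
  (∀ C ∈ QQ, K ≤ ts τ C ∧ ts τ' C ≤ 1) → WL (aw G) X τ' 2

/-- Row LINK. -/
def LinkStmt : Prop := ∀ (V ι κ : Type) [Fintype V] (G : SimpleGraph V) (R : Finset V)
  (I₁ I₂ : Finset ι) (y : ι → V) (o : ι → κ) (J₁ J₂ : Finset κ) (c₁ c₂ K m : ℕ),
  Deg G univ 6 → 1 ≤ K → Disjoint I₁ I₂ → (∀ i ∈ I₁ ∪ I₂, y i ∈ R) →
  (∀ v, cnt (I₁ ∪ I₂) y v ≤ 7) → WL (aw G) R (cnt (I₁ ∪ I₂) y) K →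
  (∀ i ∈ I₁, o i ∈ J₁) → (∀ i ∈ I₂, o i ∈ J₂) →
  (∀ A₁ ⊆ J₁, ∀ A₂ ⊆ J₂, 14 * K * m ≤ 14 * K * (c₁ * (J₁ \ A₁).card + c₂ * (J₂ \ A₂).card) +
    min (I₁.filter fun i => o i ∈ A₁).card (I₂.filter fun i => o i ∈ A₂).card) →
  ∃ (s s' : Fin m → ι) (Q : Fin m → Finset V), Tok G R Q ∧ Function.Injective s ∧
    Function.Injective s' ∧ (∀ k, s k ∈ I₁ ∧ y (s k) ∈ Q k) ∧ (∀ k, s' k ∈ I₂ ∧ y (s' k) ∈ Q k) ∧
    ∀ a, (univ.filter fun k => o (s k) = a).card ≤ c₁ ∧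
      (univ.filter fun k => o (s' k) = a).card ≤ c₂

/-- Row LINK. -/
def Link2Stmt : Prop := ∀ (V : Type) [Fintype V] (G : SimpleGraph V) (X T SV : Finset V) (m : ℕ),
  Deg G univ 6 → T ⊆ X → SV ⊆ X →
  (∀ A ⊆ X, SV ⊆ A → 7 * m ≤ out (aw G) (ind T) X A) →
  ∃ (s e : Fin m → V) (Q : Fin m → Finset V), Paths G X T SV univ s e Q

/-- Row HAVEN. -/
def HavenStmt : Prop := ∀ (V : Type) [Fintype V] (G : SimpleGraph V) (X : Finset V) (τ : V → ℕ)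
  (K k : ℕ), Deg G univ 6 → WL (aw G) X τ K → (∀ v, τ v ≤ 7) → 1 ≤ K →
  21 * K * (k + 1) ≤ ts τ X → Rich G X (k + 1)

/-- Row HAVEN. -/
def TermStmt : Prop := ∀ (V : Type) [Fintype V] (G : SimpleGraph V) (k : ℕ), Deg G univ 6 →
  Rich G univ (12 * k + 13) →
  ∃ W T : Finset V, T ⊆ W ∧ Conn G W ∧ WL (aw G) W (ind T) 1 ∧ k ≤ T.card

/-- Row CLUS. -/
def CluStmt : Prop := ∀ (V : Type) [Fintype V] (G : SimpleGraph V) (X T : Finset V) (g A Λ : ℕ),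
  Deg G univ 6 → Conn G X → T ⊆ X → T.Nonempty → 7 ≤ g → g < 2 ^ Λ → 1 ≤ A →
  ∃ PP, Clu G X T g A Λ PP

/-- Row DEC. -/
def DecStmt : Prop := ∀ (κ : Type) (w : κ → κ → ℕ) (β : κ → ℕ) (X : Finset κ) (E Λ : ℕ),
  Sy w → 1 ≤ E → ts β X < 2 ^ Λ →
  ∃ PP : Finset (Finset κ), PD PP ∧ un PP = X ∧ (∀ P ∈ PP, P.Nonempty ∧ WL w P β (2 * E * Λ)) ∧
    E * ∑ P ∈ PP, cw w P (X \ P) ≤ ts β X

/-- Row DEC. -/
def ExpfStmt : Prop := ∀ (κ : Type) (w : κ → κ → ℕ) (β : κ → ℕ) (U : Finset κ) (K Λ : ℕ),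
  Sy w → (∀ a, w a a = 0) → 1 ≤ K → ts β U < 2 ^ Λ →
  ∃ (ZZ : Finset (Finset κ)) (sd : κ → Bool), PD ZZ ∧
    (∀ Z ∈ ZZ, Z ⊆ U ∧ 2 ≤ Z.card ∧ WL (bip w sd) Z β (4 * K * Λ)) ∧
    ∀ S ⊆ U \ un ZZ, K * cw w S S ≤ ts β S

/-- Row SINK. -/
def SinkStmt : Prop := ∀ (κ : Type) (w : κ → κ → ℕ) (τ : κ → ℕ) (X : Finset κ)
  (D : Finset (Finset κ)) (l F : ℕ), Sy w → PD D → (∀ Z ∈ D, Z ⊆ X ∧ Z.Nonempty) → 1 ≤ l → l ≤ F →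
  (∀ W ⊆ X, Resp D W → (∃ Z ∈ D, Z ⊆ W) → l ≤ out w τ X W) →
  (∀ W ⊆ X, (∀ Z ∈ D, Z ⊆ W) → 2 * F ≤ out w τ X W) →
  ∃ S ⊆ D, S.card * l ^ 2 ≤ 15 * F ^ 2 ∧
    ∀ W ⊆ X, Resp D W → (∀ Z ∈ S, Z ⊆ W) → F ≤ out w τ X W

/-- Row KARG. -/
def KargStmt : Prop := ∀ (κ : Type) (w : κ → κ → ℕ) (X : Finset κ) (D : Finset (Finset κ))
  (l j : ℕ), Sy w → PD D → (∀ Z ∈ D, Z ⊆ X ∧ Z.Nonempty) → 1 ≤ l →
  (∀ W ⊆ X, Resp D W → (∃ Z ∈ D, Z ⊆ W) → (∃ Z ∈ D, Disjoint Z W) → l ≤ cw w W (X \ W)) →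
  (D.powerset.filter fun A => ∃ W ⊆ X, Resp D W ∧ (∀ Z ∈ D, Z ∈ A ↔ Z ⊆ W) ∧
    cw w W (X \ W) ≤ j * l).card ≤ 2 * (2 * D.card + 2) ^ (4 * j)

/-- Row TRIM. -/
def TrimStmt : Prop := ∀ (κ : Type) (w : κ → κ → ℝ) (X : Finset κ) (φ : ℝ) (s : ℕ),
  (∀ a b, w a b = w b a) → (∀ a b, 0 ≤ w a b) → (4 * s ≤ X.card ∨ s ≤ 1) →
  (∀ S ⊆ X, s ≤ S.card → 2 * S.card ≤ X.card → φ * S.card ≤ rw w S (X \ S)) →
  ∃ A ⊆ X, A.card ≤ s ∧ (s ≤ 1 → A = ∅) ∧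
    ∀ S ⊆ X \ A, 2 * S.card ≤ (X \ A).card → φ * S.card ≤ 2 * rw w S ((X \ A) \ S)

/-- Row TRIM. -/
def PatStmt : Prop := ∀ (ι : Type) (J : Finset ι) (Λ : ℕ), J.card ≤ 2 ^ Λ →
  ∃ Γ : SimpleGraph ι, Deg Γ J (2 * Λ + 2) ∧ WL (aw Γ) J (fun _ => 1) (2 * Λ + 2)

/-- Row TRIM. -/
def PatrStmt : Prop := ∀ (ι : Type) (Γ : SimpleGraph ι) (J Bd : Finset ι) (d K : ℕ),
  Deg Γ J d → WL (aw Γ) J (fun _ => 1) K → Bd ⊆ J → 1 ≤ d → 1 ≤ K →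
  16 * d * K * Bd.card ≤ J.card →
  ∃ J' ⊆ J \ Bd, (J \ J').card ≤ 3 * d * K * Bd.card ∧ WL (aw Γ) J' (fun _ => 1) (4 * K)

/-- Row TRIM. -/
def BrStmt : Prop := ∀ (κ ι : Type) (Γ : SimpleGraph ι) (J : Finset ι) (Hf Hv : SimpleGraph κ)
  (U : Finset κ) (Bs : ι → Finset κ) (π : ι → κ) (d K : ℕ), Deg Γ J d →
  WL (aw Γ) J (fun _ => 1) K → 1 ≤ d → Fam (Hf ⊔ Hv) U J Bs → (∀ u ∈ J, π u ∈ Bs u) →
  (∀ u ∈ J, ∀ v ∈ J, Γ.Adj u v → Touch (Hf ⊔ Hv) (Bs u) (Bs v)) →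
  ∀ A Mk : Finset κ, (∀ a ∈ U, ∀ b ∈ U, Hv.Adj a b → a ∈ A → b ∉ A → a ∈ Mk ∨ b ∈ Mk) →
    min (J.filter fun u => π u ∈ A).card (J.filter fun u => π u ∉ A).card ≤
      2 * d * K * ((Mk ∩ J.biUnion Bs).card + cw (aw Hf) (J.biUnion Bs ∩ A) (J.biUnion Bs \ A))

/-! ### Spectral and probabilistic tools -/

/-- Row CHEEG. -/
def CheegStmt : Prop := ∀ (κ : Type) (w : κ → κ → ℝ) (X : Finset κ) (d : κ → ℝ) (φ : ℝ),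
  (∀ a b, w a b = w b a) → (∀ a b, 0 ≤ w a b) → 0 ≤ φ → (∀ a ∈ X, ∑ b ∈ X, w a b ≤ d a) →
  (∀ S ⊆ X, 2 * ∑ a ∈ S, d a ≤ ∑ a ∈ X, d a → φ * ∑ a ∈ S, d a ≤ rw w S (X \ S)) →
  ∀ x : κ → ℝ, ∃ c : ℝ,
    φ ^ 2 * ∑ a ∈ X, d a * (x a - c) ^ 2 ≤ ∑ a ∈ X, ∑ b ∈ X, w a b * (x a - x b) ^ 2

/-- Row MC. -/
def McStmt : Prop := ∀ (κ ν : Type) [Fintype κ] [Fintype ν] (I : Finset κ) (x : κ → ν → ℝ)
  (C Λ H : ℕ) (μ r : ℝ) (t : Fin C), 0 < μ → 1 ≤ H → Fintype.card ν ≤ 2 ^ Λ →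
  (∀ i ∈ I, ∑ j, x i j ^ 2 ≤ r) →
  (∀ z : ν → ℝ, ∑ i ∈ I, (∑ j, x i j * z j) ^ 2 ≤ μ * ∑ j, z j ^ 2) →
  200 * (H : ℝ) ^ 2 * C * (Λ + 1) * r ≤ μ →
  2 ^ Λ * (univ.filter fun c : κ → Fin C => ¬ ∀ z : ν → ℝ,
    (H : ℝ) * C * ∑ i ∈ I.filter fun i => c i = t, (∑ j, x i j * z j) ^ 2 ≤
      (H + 1) * μ * ∑ j, z j ^ 2).card ≤ C ^ Fintype.card κ

/-- Row CHER. -/
def CherStmt : Prop := ∀ (κ : Type) [Fintype κ] (y : κ → ℝ) (C H : ℕ) (r : ℝ) (t : Fin C),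
  0 < r → 1 ≤ H → (∀ a, 0 ≤ y a ∧ y a ≤ r) →
  ((univ.filter fun c : κ → Fin C =>
      (H : ℝ) * C * ∑ a ∈ univ.filter fun a => c a = t, y a < (H - 1) * ∑ a, y a).card : ℝ) ≤
    Real.exp (-(∑ a, y a) / (4 * (H : ℝ) ^ 2 * C * r)) * (C : ℝ) ^ Fintype.card κ ∧
  ((univ.filter fun c : κ → Fin C =>
      (H + 1) * ∑ a, y a < (H : ℝ) * C * ∑ a ∈ univ.filter fun a => c a = t, y a).card : ℝ) ≤
    Real.exp (-(∑ a, y a) / (4 * (H : ℝ) ^ 2 * C * r)) * (C : ℝ) ^ Fintype.card κ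

/-- Row CHER: an event whose parameters depend on the other coordinates. -/
def FibStmt : Prop := ∀ (κ : Type) [Fintype κ] (C : ℕ) (I : Finset κ)
  (E : (κ → Fin C) → (κ → Fin C) → Prop) (M : ℝ), 0 ≤ M →
  (∀ c₀ c₁ c c', (∀ a, a ∉ I → c₀ a = c₁ a) → (∀ a ∈ I, c a = c' a) → E c₀ c → E c₁ c') →
  (∀ c₀, ((univ.filter fun c => E c₀ c).card : ℝ) ≤ M) →
  ((univ.filter fun c => E c c).card : ℝ) ≤ M

/-- Row COL. -/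
def ColStmt : Prop := ∃ c : ℕ, ∀ (κ ι ι' ι'' : Type) [Fintype κ] (I : Finset ι)
  (P : ι → Finset κ) (w : ι → κ → κ → ℕ) (sd : ι → κ → Bool) (I' : Finset ι') (y : ι' → κ → ℕ)
  (I'' : Finset ι'') (F : ι'' → κ → κ → ℕ) (L : ι'' → Finset κ) (r C K Λ Θ t₀ : ℕ),
  1 ≤ K → t₀ < C → C ≤ 2 ^ Λ → I.card ≤ 2 ^ Λ → I'.card ≤ 2 ^ Λ →
  c * C ^ 2 * K ^ 4 * (Λ + 1) ≤ Θ →
  (∀ i ∈ I, (P i).card ≤ 2 ^ Λ ∧ Sy (w i) ∧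
    (∀ a ∈ P i, ∀ b ∈ P i, sd i a = sd i b → w i a b = 0) ∧
    WL (w i) (P i) (dg (w i) (P i)) K ∧
    ∀ a ∈ P i, ∀ b ∈ P i, Θ * w i a b ≤ dg (w i) (P i) a) →
  (∀ j ∈ I', ∀ a, Θ * y j a ≤ ts (y j) univ) → Bil I'' F L r C →
  ∃ col : κ → ℕ, (∀ t < C, (∀ i ∈ I,
      WL (w i) (cls (P i) col t) (dg (w i) (P i)) (16 * C * K ^ 2) ∧
      ∀ a ∈ P i, dg (w i) (P i) a ≤ 2 * C * cw (w i) {a} (cls (P i) col t)) ∧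
    ∀ j ∈ I', ts (y j) univ ≤ 2 * C * ts (y j) (cls univ col t) ∧
      C * ts (y j) (cls univ col t) ≤ 2 * ts (y j) univ) ∧
    ∀ j ∈ I'', cw (F j) univ univ ≤ 4 * C ^ 2 * cw (F j) (cls univ col t₀) (cls univ col t₀)

/-- Row ROUTE. -/
def RouteStmt : Prop := ∃ c : ℕ, ∀ (κ : Type) [Fintype κ] (X : Finset κ) (w : κ → κ → ℝ) (D : ℝ)
  (K Λ : ℕ), (∀ a b, w a b = w b a) → (∀ a b, 0 ≤ w a b) → 0 < D → 1 ≤ K → X.card ≤ 2 ^ Λ →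
  (∀ a ∈ X, ∑ b ∈ X, w a b ≤ D) →
  (∀ S ⊆ X, 2 * S.card ≤ X.card → D * S.card ≤ K * rw w S (X \ S)) →
  ∃ (h : κ → κ → ℝ) (ω : κ → κ → Finset κ × Finset κ → ℝ), (∀ a z, 0 ≤ h a z) ∧
    (∀ a ∈ X, 1 ≤ h a a ∧ ∑ z ∈ X, h a z ≤ (c * K ^ 2 * (Λ + 1) : ℕ) ∧
      ∑ z ∈ X, h z a ≤ (c * K ^ 2 * (Λ + 1) : ℕ)) ∧
    ∀ a ∈ X, ∀ b ∈ X, (∀ q, 0 ≤ ω a b q) ∧ ∑ q, ω a b q = 1 ∧
      (∀ q, 0 < ω a b q → a ∈ q.1 ∧ b ∈ q.2 ∧ q.1 ⊆ X ∧ q.2 ⊆ X ∧ Conn (sg w) q.1 ∧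
        Conn (sg w) q.2 ∧ ¬ Disjoint q.1 q.2) ∧
      ∀ z, ∑ q ∈ univ.filter fun q : Finset κ × Finset κ => z ∈ q.1, ω a b q ≤ h a z ∧
        ∑ q ∈ univ.filter fun q : Finset κ × Finset κ => z ∈ q.2, ω a b q ≤ h b z

/-- Row EMB. -/
def EmbStmt : Prop := ∃ c : ℕ, ∀ (κ ι : Type) [Fintype κ] (X : Finset κ) (w : κ → κ → ℝ) (D : ℝ)
  (B : ℕ) (J : Finset ι) (Γ : SimpleGraph ι) (st : ι → Finset κ),
  (∀ a b, w a b = w b a) → (∀ a b, 0 ≤ w a b) → 0 < D → 2 ≤ B → X.Nonempty → X.card ≤ 2 ^ B →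
  (∀ a ∈ X, ∑ b ∈ X, w a b ≤ D) →
  (∀ S ⊆ X, 2 * S.card ≤ X.card → D * S.card ≤ B * rw w S (X \ S)) →
  Deg Γ J B → (∀ u ∈ J, st u ⊆ X ∧ (st u).Nonempty) →
  (∀ z, (B : ℝ) ^ c * ∑ u ∈ J.filter fun u => z ∈ st u, ((st u).card : ℝ)⁻¹ ≤ 1) →
  ∃ J' ⊆ J, ∃ (π : ι → κ) (Bs : ι → Finset κ), B * (J \ J').card ≤ J.card ∧
    Fam (sg w) X J' Bs ∧ (∀ u ∈ J', π u ∈ st u ∧ π u ∈ Bs u) ∧
    ∀ u ∈ J', ∀ v ∈ J', Γ.Adj u v → Touch (sg w) (Bs u) (Bs v)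

/-! ### The game -/

/-- Row GROUP. -/
def BoostStmt : Prop := ∀ (V κ : Type) [Fintype V] (G : SimpleGraph V) (Amb Rt : Finset V)
  (T w K : ℕ) (J : Finset κ) (X : κ → Finset V) (R Cd : ℕ → Finset V) (y : ℕ → V → V)
  (Old : Finset V), Deg G univ 6 → 1 ≤ T → 1 ≤ K → T + 1 ≤ w →
  Pre G Amb Rt T w K K J X R Cd y Old →
  ∃ (w' : ℕ) (Cd' : ℕ → Finset V), Pre G Amb Rt T w' (T + 1) K J X R Cd' y Old ∧
    (∀ t ≤ T, ∀ t' ≤ T, t ≠ t' → Disjoint (Cd' t) (Cd' t')) ∧ 1 ≤ w' ∧ w' ≤ w ∧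
    w ≤ 28 * K * (T + 1) * w'

/-- Row PREP. -/
def PrepStmt : Prop := ∀ (V κ : Type) [Fintype V] (G : SimpleGraph V) (Amb Rt : Finset V)
  (T w K : ℕ) (J : Finset κ) (X : κ → Finset V) (R Cd : ℕ → Finset V) (y : ℕ → V → V)
  (Old : Finset V), Deg G univ 6 → 1 ≤ T → 1 ≤ K → 1 ≤ w → 14 * K ^ 2 ≤ J.card →
  Pre G Amb Rt T w (T + 1) K J X R Cd y Old →
  (∀ t ≤ T, ∀ t' ≤ T, t ≠ t' → Disjoint (Cd t) (Cd t')) →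
  ∃ (w' : ℕ) (J' : Finset κ) (X' : κ → Finset V) (Cd' : ℕ → Finset V) (Ro : Finset V),
    Ready G Amb Rt T w' J' X' R Cd' y Ro ∧ 1 ≤ w' ∧ w' ≤ w ∧ J.card ≤ 420 * K ^ 3 * T * J'.card ∧
    w ≤ 28 * K ^ 2 * w'

/-- Row PLAY. -/
def PlayStmt : Prop := ∃ c : ℕ, 1 ≤ c ∧ ∀ (V κ : Type) [Fintype V] (G : SimpleGraph V)
  (Amb Rt : Finset V) (T w Λ : ℕ) (J : Finset κ) (X : κ → Finset V) (R Cd : ℕ → Finset V)
  (y : ℕ → V → V) (Ro : Finset V), c * Λ ≤ T → Fintype.card V < 2 ^ Λ → c ≤ J.card → 1 ≤ w →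
  Ready G Amb Rt T w J X R Cd y Ro →
  ∃ N : ND V κ, IsNet G Amb Rt T w c N ∧ J.card ≤ 2 * N.J.card

/-- The game can be played with `T` rounds. -/
def Game (T K₀ c Λ : ℕ) : Prop := ∀ (V κ : Type) [Fintype V] (G : SimpleGraph V)
  (Amb Rt : Finset V) (w K : ℕ) (J : Finset κ) (X : κ → Finset V) (R Cd : ℕ → Finset V)
  (y : ℕ → V → V) (Old : Finset V), Deg G univ 6 → 6 * Fintype.card V < 2 ^ Λ → T + 1 ≤ w →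
  T + 1 ≤ K → K ^ c ≤ J.card → Pre G Amb Rt T w K K J X R Cd y Old →
  ∃ (w' : ℕ) (N : ND V κ), IsNet G Amb Rt T w' K₀ N ∧ 1 ≤ w' ∧ w' ≤ w ∧
    J.card * w ≤ K ^ c * (N.J.card * w')

/-- Row PREP. -/
def GameStmt : Prop := ∃ c K₀ : ℕ, 1 ≤ K₀ ∧ ∀ Λ T, c * Λ ≤ T → 1 ≤ T → Game T K₀ c Λ

/-! ### The two steps -/

/-- Row DONE. -/
def DoneStmt : Prop := ∃ c : ℕ, ∀ (V κ : Type) [Fintype V] [Fintype κ] (G : SimpleGraph V)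
  (Amb Rt : Finset V) (T w K B Δ p : ℕ) (N : ND V κ), Deg G univ 6 → Fintype.card V < 2 ^ B →
  IsNet G Amb Rt T w K N → 1 ≤ w → 1 ≤ T → 1 ≤ K → T ≤ B → K ≤ B → 2 ≤ B → 1 ≤ Δ →
  16 * K * cw (thin N.mu (T * w) Δ) N.J N.J ≤ N.J.card * w →
  B ^ c * Δ * (p + w) ≤ N.J.card * w →
  ∃ (h : ℕ) (P : Fin h → Finset V), Parts G Amb Rt p (B ^ c) h P ∧
    N.J.card * w ≤ B ^ c * Δ * (p + w) * h

/-- Row ROUTER. -/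
def RouterStmt : Prop := ∃ c : ℕ, ∀ (κ : Type) [Fintype κ] (J : Finset κ) (m : κ → κ → ℕ)
  (T w K B Θ : ℕ) (PP : Finset (Finset κ)) (col : κ → ℕ),
  Sy m → (∀ a ∈ J, cw m {a} J ≤ T * w) → WL m J (fun _ => w) K → 1 ≤ w → 1 ≤ T → 1 ≤ K →
  J.card ≤ 2 ^ B → T ≤ B → K ≤ B → 2 ≤ B → 1 ≤ Θ → PD PP →
  (∀ P ∈ PP, P ⊆ J ∧ B ^ c ≤ P.card) → J.card ≤ B * (un PP).card →
  (∀ P ∈ PP, ∀ t ≤ T, WL m (cls P col t) (fun _ => T * w) Θ ∧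
    ∀ a ∈ P, T * w ≤ Θ * cw m {a} (cls P col t)) →
  B ^ c * ((un PP).filter fun a => col a ≤ T + 1).card ≤ J.card →
  B ^ c * cw (lost m (T * w) Θ PP) J J ≤ J.card * w →
  ∃ (R : ℕ → Finset κ) (GG : Finset (Finset κ)) (Po : Finset κ), GG ⊆ PP ∧
    B * (un (PP \ GG)).card ≤ J.card ∧
    (∀ t ≤ T, R t ⊆ J \ cls (un PP) col (T + 1) ∧ cls (un GG) col t ⊆ R t) ∧
    (∀ t ≤ T, ∀ t' ≤ T, t ≠ t' → Disjoint (R t) (R t')) ∧ Po ⊆ R 0 ∧ J.card ≤ B ^ c * Po.card ∧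
    ∀ t ≤ T, WL m (R t) (fun a => T * w * ind (cls (un GG) col t) a +
      if t = 0 then w * ind Po a else 0) ((B * Θ) ^ c)

/-- Row CLB: basic facts on clusterings. -/
def ClbStmt : Prop := ∀ (V : Type) [Fintype V] (G : SimpleGraph V) (X T : Finset V) (g A Λ : ℕ)
  (PP : Finset (Finset V)), Clu G X T g A Λ PP → 1 ≤ A → 1 ≤ Λ →
  (∀ I ⊆ PP, ∀ K, WL (ew G) I (bo G X T) K → ∀ τ : V → ℕ,
    (∀ C ∈ I, ∀ v ∈ C, τ v ≤ bw G X T C v) → WL (aw G) (un I) τ (28 * A * Λ * (K + 1))) ∧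
  (∀ I ⊆ PP, ∀ K, I.Nonempty → WL (ew G) I (bo G X T) K → Conn G (un I)) ∧
  (Deg G univ 6 → ∀ u ∈ PP, ∀ I ⊆ PP, ∃ Cd ⊆ u, ∃ y : V → V,
    (∀ x ∈ Cd, y x ∈ un (I.erase u) ∧ G.Adj x (y x)) ∧ cw (ew G) {u} I ≤ 6 * Cd.card) ∧
  (2 ≤ A → ∀ W ⊆ PP, min (ts (bo G X T) W) (2 * g) ≤ 2 * out (ew G) (ts (ind T)) PP W) ∧
  ∀ sd K τ Z, ZOk G X T PP sd K τ Z → K < A → 2 * τ ≤ g → g < ts (bo G X T) Z ∧
    ∀ u ∈ Z, A ≤ bo G X T u ∧ bo G X T u ≤ K * dg (bip (ew G) sd) Z u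

/-- Row CLB. -/
def ColzStmt : Prop := ∃ c : ℕ, ∀ (V ι' ι'' : Type) [Fintype V] (G : SimpleGraph V)
  (X T : Finset V) (g A Λ : ℕ) (PP : Finset (Finset V)) (sd : Finset V → Bool) (K τ : ℕ)
  (ZZ : Finset (Finset (Finset V))) (I' : Finset ι') (y : ι' → Finset V → ℕ) (I'' : Finset ι'')
  (F : ι'' → Finset V → Finset V → ℕ) (L : ι'' → Finset (Finset V)) (r C B t₀ t₁ : ℕ),
  Deg G univ 6 → 6 * Fintype.card V < 2 ^ Λ → Clu G X T g A Λ PP → PD ZZ →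
  (∀ Z ∈ ZZ, ZOk G X T PP sd K τ Z) → Λ ≤ B → K ≤ B → C ≤ B → 2 ≤ B → t₀ < C → t₁ < C →
  B ^ c ≤ A → B ^ c * τ ≤ g → I'.card ≤ 4 ^ B → (∀ j ∈ I', ∀ a, B ^ c * y j a ≤ ts (y j) univ) →
  Bil I'' F L r C →
  ∃ col : Finset V → ℕ, (∀ Z ∈ ZZ, ColZ G X T Z col C (B ^ c) t₁) ∧
    (∀ t < C, ∀ j ∈ I', ts (y j) univ ≤ 2 * C * ts (y j) (cls univ col t)) ∧
    ∀ j ∈ I'', cw (F j) univ univ ≤ 4 * C ^ 2 * cw (F j) (cls univ col t₀) (cls univ col t₀)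

/-- Row STRUCT. -/
def StructStmt : Prop := ∃ c : ℕ, ∀ (V : Type) [Fintype V] (G : SimpleGraph V) (X T : Finset V)
  (B B' Λ A M g ρ : ℕ), Deg G univ 6 → 6 * Fintype.card V < 2 ^ Λ → Conn G X → T ⊆ X →
  WL (aw G) X (ind T) B → T.card ≤ g → g ≤ B * T.card → Λ ≤ B → 2 ≤ B → B ≤ B' →
  28 * B * Λ < A → A ≤ B' → 2 ≤ M → M ≤ B' → B' ^ c ≤ ρ → ρ ^ 2 ≤ g →
  ∃ (PP S₁ : Finset (Finset V)) (S₂ : Finset (Finset (Finset V))) (sd : Finset V → Bool) (m : ℕ)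
    (s e : Fin m → V) (Q : Fin m → Finset V), Clu G X T (g / ρ) A Λ PP ∧ S₁ ⊆ PP ∧ PD S₂ ∧
    (∀ Z ∈ S₂, ZOk G X T PP sd (28 * B * Λ) (g / ρ / M) Z) ∧
    S₁.card + S₂.card ≤ B' ^ c * ρ ^ 2 ∧ g ≤ B' ^ c * m ∧
    Paths G X T (un (S₁ ∪ un S₂)) univ s e Q

/-- Row OPENA. -/
def OpenAStmt : Prop := ∀ (V ι : Type) [Fintype V] (G : SimpleGraph V) (X T₀ : Finset V)
  (ω : V → V) (g₁ A Λ : ℕ) (PP Hv : Finset (Finset V)) (I : Finset ι) (s e : ι → V)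
  (Q : ι → Finset V) (T C K K' g ρ : ℕ), Clu G X T₀ g₁ A Λ PP → Hv ⊆ PP → Outer G X T₀ ω →
  Paths G X T₀ (un Hv) I s e Q → 1 ≤ C → 1 ≤ K' → 14 * A * Λ ≤ K' → K * C ≤ K' →
  (∀ u ∈ Hv, C * (T + 1) ≤ (I.filter fun k => e k ∈ u).card) → ρ * g₁ ≤ g → g ≤ K * I.card →
  Opened G X T₀ ω T C K' g ρ (Hv.image fun u => (I.filter fun k => e k ∈ u).image s)

/-- Row OPENB. -/
def OpenBStmt : Prop := ∃ c : ℕ, ∀ (V ι : Type) [Fintype V] (G : SimpleGraph V) (X T₀ : Finset V)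
  (ω : V → V) (g₁ A Λ : ℕ) (PP : Finset (Finset V)) (sd : Finset V → Bool) (K τ : ℕ)
  (ZZ : Finset (Finset (Finset V))) (I : Finset ι) (s e : ι → V) (Q : ι → Finset V)
  (T C B B' x g ρ : ℕ), Deg G univ 6 → 6 * Fintype.card V < 2 ^ Λ → Clu G X T₀ g₁ A Λ PP →
  PD ZZ → (∀ Z ∈ ZZ, ZOk G X T₀ PP sd K τ Z) → Outer G X T₀ ω →
  Paths G X T₀ (un (un ZZ)) I s e Q → Λ ≤ B → K ≤ B → T + 2 ≤ B → 1 ≤ C → C ≤ B → B ^ c ≤ A →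
  A ≤ B' → B ^ c * τ ≤ g₁ → 1 ≤ x → (∀ u ∈ un ZZ, (I.filter fun k => e k ∈ u).card ≤ x) →
  (∀ Z ∈ ZZ, B ^ c * x ≤ (I.filter fun k => e k ∈ un Z).card) → ρ * g₁ ≤ g → g ≤ B' * I.card →
  Opened G X T₀ ω T C (B' ^ c) g ρ (ZZ.image fun Z => (I.filter fun k => e k ∈ un Z).image s)

/-- Row OPENA. -/
def OpenStmt : Prop := ∃ c : ℕ, ∀ (V : Type) [Fintype V] (G : SimpleGraph V) (X T₀ : Finset V)
  (ω : V → V) (T C B Λ g ρ : ℕ), Deg G univ 6 → 6 * Fintype.card V < 2 ^ Λ → Conn G X →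
  Outer G X T₀ ω → WL (aw G) X (ind T₀) B → T₀.card ≤ g → g ≤ B * T₀.card → Λ ≤ B → T + 2 ≤ B →
  1 ≤ C → C ≤ B → B ^ c ≤ ρ → ρ ^ 3 ≤ g →
  ∃ GG : Finset (Finset V), (∀ Γ ∈ GG, Γ ⊆ T₀ ∧ g ≤ B ^ c * ρ ^ 2 * Γ.card) ∧
    GG.card ≤ Fintype.card V ∧ Opened G X T₀ ω T C (B ^ c) g ρ GG

/-- Row DOWN1. -/
def Down1Stmt : Prop := ∃ c : ℕ, ∀ (V κ : Type) [Fintype V] [Fintype κ] (G : SimpleGraph V)
  (Amb Rt : Finset V) (T w K B Λ ρ : ℕ) (N : ND V κ), Deg G univ 6 →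
  6 * Fintype.card V < 2 ^ Λ → IsNet G Amb Rt T w K N → 1 ≤ w → 1 ≤ T → 1 ≤ K → Λ ≤ B →
  T + 2 ≤ B → K ≤ B → B ^ c ≤ ρ → B ^ c ≤ N.J.card →
  N.J.card * w < 16 * K * cw (thin N.mu (T * w) (ρ ^ 3)) N.J N.J →
  ∃ (Tg : Finset κ) (T₀ : κ → Finset V) (col : V → ℕ) (R : ℕ → Finset V) (Old : Finset V),
    Mid G Amb Rt T (B ^ c) (T * w) ρ Tg N.X T₀ N.μ col R Old ∧ N.J.card ≤ B ^ c * Tg.card

/-- Row DOWN2. -/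
def Down2Stmt : Prop := ∀ (V κ : Type) [Fintype V] (G : SimpleGraph V) (Amb Rt : Finset V)
  (T K g ρ Λ : ℕ) (Tg : Finset κ) (X T₀ : κ → Finset V) (ω : V → V) (col : V → ℕ)
  (R : ℕ → Finset V) (Old : Finset V), Fintype.card V < 2 ^ Λ → 1 ≤ K → 1 ≤ g → Tg.Nonempty →
  Mid G Amb Rt T K g ρ Tg X T₀ ω col R Old →
  ∃ (w : ℕ) (J : Finset (Finset V)) (R' Cd : ℕ → Finset V) (y : ℕ → V → V),
    Pre G Amb Rt T w (2 * K ^ 2) (2 * K ^ 2) J id R' Cd y Old ∧ T + 1 ≤ w ∧ ρ * w ≤ g ∧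
    Tg.card * g ≤ 2 * Λ * K * (J.card * w)

/-- Every net of width below `W` contains many rooted pieces. -/
def Iter (T K L p Λ W : ℕ) : Prop := ∀ (V κ : Type) [Fintype V] [Fintype κ] (G : SimpleGraph V)
  (Amb Rt : Finset V) (w : ℕ) (N : ND V κ), Deg G univ 6 → 6 * Fintype.card V < 2 ^ Λ →
  IsNet G Amb Rt T w K N → 1 ≤ w → w < W → L * (p + w) ≤ N.J.card * w →
  ∃ (h : ℕ) (P : Fin h → Finset V), Parts G Amb Rt p L h P ∧ N.J.card * w ≤ L * (p + w) * h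

/-- Row DOWN2. -/
def IterStmt : Prop := ∀ c₀ : ℕ, ∃ c : ℕ, ∀ T K B Λ r j p : ℕ, Game T K c₀ Λ → 1 ≤ T → 1 ≤ K →
  Λ ≤ B → T + 2 ≤ B → K ≤ B → B ^ c ≤ r → Iter T K ((B ^ c) ^ (j + 1) * r ^ 3) p Λ (r ^ j)

/-! ### The top level -/

/-- Row PARTN. -/
def PartnStmt : Prop := ∀ (κ : Type) (w : κ → κ → ℕ) (β : κ → ℕ) (O : Finset κ) (K b Λ : ℕ),
  Sy w → WL w O β K → 1 ≤ K → (∀ u ∈ O, 1 ≤ β u ∧ β u ≤ b ∧ cw w {u} O ≤ β u) → 1 ≤ b →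
  b ≤ ts β O → O.card ≤ 2 ^ Λ →
  ∃ GG, Sq.Part (qg w) O GG ∧ ∀ Γ ∈ GG, b ≤ ts β Γ ∧ ts β Γ ≤ (4 * K + Λ + 2) * b

/-- Row ZPART. -/
def ZpartStmt : Prop := ∀ c₀ : ℕ, ∃ c : ℕ, ∀ (V : Type) [Fintype V] (G : SimpleGraph V)
  (X T₀ : Finset V) (g A Λ : ℕ) (PP Z : Finset (Finset V)) (col : Finset V → ℕ)
  (T K₀ K L p τ B : ℕ), Deg G univ 6 → 6 * Fintype.card V < 2 ^ Λ → Game T K₀ c₀ Λ →
  Iter T K₀ L p Λ (2 ^ Λ) → Clu G X T₀ g A Λ PP → Z ⊆ PP →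
  (∀ u ∈ Z, A ≤ bo G X T₀ u ∧ bo G X T₀ u ≤ τ) → ColZ G X T₀ Z col (T + 4) K (T + 1) →
  1 ≤ K → 1 ≤ L → 12 * K * (T + 1) ≤ A → A ≤ B → Λ ≤ B → 1 ≤ τ → p ≤ τ →
  B ^ c * L * τ ≤ ts (bo G X T₀) Z →
  ∃ (h : ℕ) (P : Fin h → Finset V) (grp : Finset V → Fin h), Parts G (un Z) univ p L h P ∧
    (∀ u ∈ cls Z col (T + 3), u ⊆ P (grp u)) ∧
    (∀ i, ts (bo G X T₀) ((cls Z col (T + 3)).filter fun u => grp u = i) ≤ B ^ c * L * τ) ∧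
    ts (bo G X T₀) Z ≤ B ^ c * L * τ * h

/-- Row SAMP. -/
def SampStmt : Prop := ∃ c : ℕ, ∀ (κ : Type) [Fintype κ] (e : κ → κ → ℕ) (PP : Finset κ)
  (D : Finset (Finset κ)) (l r C Λ : ℕ), Sy e → PD D → (∀ Z ∈ D, Z ⊆ PP ∧ Z.Nonempty) →
  D.card ≤ 2 ^ Λ → 1 ≤ r → 1 ≤ C → (∀ u ∈ un D, cw e {u} PP ≤ r) → c * C ^ 2 * r * (Λ + 1) ≤ l →
  (∀ W ⊆ PP, Resp D W → (∃ Z ∈ D, Z ⊆ W) → (∃ Z ∈ D, Disjoint Z W) → l ≤ cw e W (PP \ W)) →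
  ∃ (I : Finset (Finset (Finset κ))) (F : Finset (Finset κ) → κ → κ → ℕ)
    (L : Finset (Finset κ) → Finset κ) (r' : ℕ), Bil I F L r' C ∧
    ∀ O : Finset κ, (∀ j ∈ I, cw (F j) univ univ ≤ 4 * C ^ 2 * cw (F j) O O) →
      Samp e PP D (un D ∩ O) (8 * C ^ 2)

/-- Row ABS. -/
def AbsStmt : Prop := ∀ (V ι : Type) [Fintype V] (G : SimpleGraph V) (W T₀ : Finset V)
  (PP : Finset (Finset V)) (D : Finset (Finset (Finset V))) (O Y : Finset (Finset V))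
  (I : Finset ι) (S : ι → Finset V) (nd : Finset V → ι) (par : Finset (Finset V) → Finset ι)
  (p K K' Bm Λ : ℕ), Deg G univ 6 → 6 * Fintype.card V < 2 ^ Λ → 1 ≤ K' → 1 ≤ Bm →
  Sit G W T₀ PP D O Y I S nd par p K Bm →
  (∀ v ∈ Y, 1 ≤ bo G W T₀ v ∧ bo G W T₀ v ≤ Bm ∧
    bo G W T₀ v ≤ K' * cw (ew G) {v} (kept PP D O)) →
  (∀ A ⊆ Y, 4 * K' * cw (ew G) A A ≤ ts (bo G W T₀) A) →
  ∃ (S' : ι → Finset V) (nd' : Finset V → ι),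
    Sit G W T₀ PP D O ∅ I S' nd' par p K (20 * K' * (Λ + 1) * Bm)

/-- The conclusion for one graph. -/
def Concl {V : Type} [Fintype V] (G : SimpleGraph V) (p q : ℕ) : Prop :=
  ∃ (n : ℕ) (S : Fin n → Finset V), Tok G univ S ∧ (∀ i, Rich G (S i) (p + 1)) ∧
    Rich (quot G S) univ q

/-- Row HAVQ. -/
def HavqStmt : Prop := ∀ (V ι : Type) [Fintype V] (G : SimpleGraph V) (W T₀ : Finset V)
  (PP : Finset (Finset V)) (D : Finset (Finset (Finset V))) (O : Finset (Finset V))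
  (I : Finset ι) (S : ι → Finset V) (nd : Finset V → ι) (par : Finset (Finset V) → Finset ι)
  (p q K Bm : ℕ), T₀ ⊆ W → WL (aw G) W (ind T₀) 1 → 1 ≤ K → 1 ≤ Bm → 1 ≤ q →
  Sit G W T₀ PP D O ∅ I S nd par p K Bm → Samp (ew G) PP D O K →
  200 * K ^ 2 * Bm * q ≤ T₀.card → Concl G p q

/-- Row TOP. -/
def PieceStmt : Prop := ∃ c : ℕ, ∀ (V : Type) [Fintype V] (G : SimpleGraph V) (p q Λ r j k : ℕ),
  Deg G univ 6 → 6 * Fintype.card V < 2 ^ Λ → 1 ≤ p → 1 ≤ q → (Λ + 2) ^ c ≤ r → 2 ^ Λ ≤ r ^ j →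
  Rich G univ k → ((Λ + 2) ^ c) ^ (j + 1) * r ^ 9 * (p * q) ≤ k → Concl G p q

/-- Row FINAL. -/
def FinalStmt : Prop := ∃ C : ℝ, ∀ p q : ℕ, 1 ≤ p → 1 ≤ q →
  ∀ (V : Type) [Fintype V] (G : SimpleGraph V),
    (p : ℝ) * (q : ℝ) * Real.exp (C * Real.sqrt ((1 + Real.log ((p : ℝ) * (q : ℝ))) *
      Real.log (2 + Real.log ((p : ℝ) * (q : ℝ))))) ≤ (treewidth G : ℝ) →
    ∃ n : ℕ, 1 ≤ n ∧ ∃ S : Fin n → Set V,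
      (∀ i j, i ≠ j → Disjoint (S i) (S j)) ∧ (∀ i, (G.induce (S i)).Connected) ∧
      (∀ i, p ≤ treewidth (G.induce (S i))) ∧
      q ≤ treewidth (SimpleGraph.fromRel fun i j : Fin n => ∃ x ∈ S i, ∃ y ∈ S j, G.Adj x y)

end Pool.Agent.MP_35cb46_co.Nl
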