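import Mathlib.Analysis.SpecialFunctions.Sqrt
import Mathlib.Algebra.Order.BigOperators.Ring.Finset
import Pool.Agent.MP_35cb46_co.nl.Spec
import Pool.Agent.MP_35cb46_co.nl.DoneA

-- ======== part 0: formerly Pool.Agent.MP_35cb46_co.nl.Cheeg
section MrgPart0

/-! PROJECT NL, row CHEEG: the Cheeger inequality. -/

noncomputable section

namespace Pool.Agent.MP_35cb46_co.Nl

open Finset Pool.Agent.MP_7be75d_co Pool.Agent.MP_35cb46_co.Sq
open scoped Classical

namespace CheegP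

variable {κ : Type}

theorem coarea (w : κ → κ → ℝ) (X S₀ : Finset κ) (d : κ → ℝ) (φ : ℝ)
    (h : ∀ S ⊆ S₀, S ⊆ X → φ * ∑ a ∈ S, d a ≤ rw w S (X \ S)) (n : ℕ) :
    ∀ f : κ → ℝ, (∀ a, 0 ≤ f a) → (X.filter fun a => 0 < f a) ⊆ S₀ →
      (X.filter fun a => 0 < f a).card ≤ n → (∀ a b, 0 ≤ w a b) →
      φ * ∑ a ∈ X, d a * f a ≤ ∑ a ∈ X, ∑ b ∈ X, w a b * max (f a - f b) 0 := by
  induction n with
  | zero =>
    intro f hf _ hc hw
    have h0 : ∀ a ∈ X, f a = 0 := by
      intro a ha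
      by_contra hne
      have : a ∈ X.filter fun a => 0 < f a :=
        mem_filter.2 ⟨ha, lt_of_le_of_ne (hf a) (Ne.symm hne)⟩
      rw [Nat.le_zero, card_eq_zero] at hc
      simp [hc] at this
    rw [sum_congr rfl (fun a ha => by rw [h0 a ha, mul_zero])]
    simp only [sum_const_zero, mul_zero]
    exact sum_nonneg fun a _ => sum_nonneg fun b _ => mul_nonneg (hw a b) (le_max_right _ _)
  | succ n ih =>
    intro f hf hs hc hw
    set S := X.filter fun a => 0 < f a with hS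
    by_cases hne : S.Nonempty
    swap
    · refine ih f hf hs ?_ hw
      rw [not_nonempty_iff_eq_empty] at hne
      rw [← hS, hne]; simp
    obtain ⟨a₀, ha₀, hmin⟩ := exists_min_image S f hne
    set m := f a₀ with hm
    have hm0 : 0 < m := (mem_filter.1 ha₀).2
    set g : κ → ℝ := fun a => max (f a - m) 0 with hg
    have hsub : (X.filter fun a => 0 < g a) ⊆ S.erase a₀ := by
      intro a ha
      obtain ⟨haX, hpos⟩ := mem_filter.1 ha
      have h1 : 0 < f a - m := by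
        by_contra hcon
        simp only [hg] at hpos
        rw [max_eq_right (not_lt.1 hcon)] at hpos
        exact lt_irrefl _ hpos
      refine mem_erase.2 ⟨?_, mem_filter.2 ⟨haX, by linarith⟩⟩
      rintro rfl
      simp [hm] at h1
    have hIH := ih g (fun a => le_max_right _ _)
      (hsub.trans ((erase_subset _ _).trans hs))
      (by
        have := card_le_card hsub
        rw [card_erase_of_mem ha₀] at this
        omega) hw
    have hcut := h S hs (filter_subset _ _)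
    have hfg : ∀ a ∈ X, f a = g a + if a ∈ S then m else 0 := by
      intro a ha
      by_cases haS : a ∈ S
      · have := hmin a haS
        simp only [hg, haS, if_true]
        rw [max_eq_left (by linarith)]; ring
      · have h0 : f a = 0 := by
          by_contra hne'
          exact haS (mem_filter.2 ⟨ha, lt_of_le_of_ne (hf a) (Ne.symm hne')⟩)
        simp only [hg, haS, if_false, h0]
        rw [max_eq_right (by linarith)]; ring
    have hg0 : ∀ a ∈ X, a ∉ S → g a = 0 := by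
      intro a ha haS
      have h0 : f a = 0 := by
        by_contra hne'
        exact haS (mem_filter.2 ⟨ha, lt_of_le_of_ne (hf a) (Ne.symm hne')⟩)
      simp only [hg, h0]
      exact max_eq_right (by linarith)
    have e1 : ∑ a ∈ X, d a * f a = ∑ a ∈ X, d a * g a + m * ∑ a ∈ S, d a := by
      rw [mul_sum, hS, sum_filter, ← sum_add_distrib]
      refine sum_congr rfl fun a ha => ?_
      rw [hfg a ha]
      by_cases haS : a ∈ S
      · have : 0 < f a := (mem_filter.1 haS).2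
        rw [hfg a ha] at this
        simp only [haS, if_true] at this ⊢
        rw [if_pos this]; ring
      · have : ¬ 0 < f a := fun hh => haS (mem_filter.2 ⟨ha, hh⟩)
        rw [hfg a ha] at this
        simp only [haS, if_false] at this ⊢
        rw [if_neg this]; ring
    have e2 : ∑ a ∈ X, ∑ b ∈ X, w a b * max (f a - f b) 0 =
        ∑ a ∈ X, ∑ b ∈ X, w a b * max (g a - g b) 0 + m * rw w S (X \ S) := by
      have e3 : rw w S (X \ S) =
          ∑ a ∈ X, ∑ b ∈ X, if a ∈ S ∧ b ∉ S then w a b else 0 := by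
        unfold rw
        rw [← sum_subset (filter_subset (fun a => 0 < f a) X)]
        · refine sum_congr rfl fun a ha => ?_
          rw [← sum_filter]
          refine sum_congr ?_ fun _ _ => rfl
          ext b
          simp only [mem_sdiff, mem_filter]
          have : a ∈ S := ha
          tauto
        · intro a _ haS
          refine sum_eq_zero fun b _ => if_neg fun hh => haS hh.1
      rw [e3, mul_sum, ← sum_add_distrib]
      refine sum_congr rfl fun a ha => ?_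
      rw [mul_sum, ← sum_add_distrib]
      refine sum_congr rfl fun b hb => ?_
      rw [hfg a ha, hfg b hb]
      have ga : 0 ≤ g a := le_max_right _ _
      have gb : 0 ≤ g b := le_max_right _ _
      by_cases haS : a ∈ S <;> by_cases hbS : b ∈ S
      · simp only [haS, hbS, if_true, not_true, and_false, if_false]
        rw [show g a + m - (g b + m) = g a - g b by ring]; ring
      · simp only [haS, hbS, if_true, if_false, not_false_iff, and_self]
        rw [hg0 b hb hbS, max_eq_left (by linarith), max_eq_left (by linarith)]; ring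
      · simp only [haS, hbS, if_true, if_false, false_and]
        rw [hg0 a ha haS, max_eq_right (by linarith), max_eq_right (by linarith)]; ring
      · simp only [haS, hbS, if_false, false_and]
        ring_nf
    rw [e1, e2]
    have := mul_le_mul_of_nonneg_left hcut hm0.le
    nlinarith

theorem half (w : κ → κ → ℝ) (X S₀ : Finset κ) (d : κ → ℝ) (φ : ℝ)
    (hsy : ∀ a b, w a b = w b a) (hw : ∀ a b, 0 ≤ w a b) (hφ : 0 ≤ φ)
    (hd : ∀ a ∈ X, ∑ b ∈ X, w a b ≤ d a)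
    (h : ∀ S ⊆ S₀, S ⊆ X → φ * ∑ a ∈ S, d a ≤ rw w S (X \ S)) (y : κ → ℝ) (hy : ∀ a, 0 ≤ y a)
    (hs : (X.filter fun a => 0 < y a) ⊆ S₀) :
    φ ^ 2 * ∑ a ∈ X, d a * y a ^ 2 ≤ ∑ a ∈ X, ∑ b ∈ X, w a b * (y a - y b) ^ 2 := by
  have hd0 : ∀ a ∈ X, 0 ≤ d a := fun a ha => (sum_nonneg fun b _ => hw a b).trans (hd a ha)
  have h1 := coarea w X S₀ d φ h _ (fun a => y a ^ 2) (fun a => sq_nonneg _)
    (by
      refine Subset.trans ?_ hs
      intro a ha
      obtain ⟨haX, hp⟩ := mem_filter.1 ha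
      refine mem_filter.2 ⟨haX, lt_of_le_of_ne (hy a) ?_⟩
      intro h0
      rw [← h0] at hp
      simp at hp) le_rfl hw
  set D := ∑ a ∈ X, d a * y a ^ 2 with hD
  set E := ∑ a ∈ X, ∑ b ∈ X, w a b * (y a - y b) ^ 2 with hE
  have hD0 : 0 ≤ D := sum_nonneg fun a ha => mul_nonneg (hd0 a ha) (sq_nonneg _)
  have hE0 : 0 ≤ E := sum_nonneg fun a _ => sum_nonneg fun b _ => mul_nonneg (hw a b) (sq_nonneg _)
  set A := ∑ a ∈ X, ∑ b ∈ X, w a b * max (y a ^ 2 - y b ^ 2) 0 with hA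
  have hA' : ∑ a ∈ X, ∑ b ∈ X, w a b * max (y b ^ 2 - y a ^ 2) 0 = A := by
    rw [sum_comm]
    exact sum_congr rfl fun a _ => sum_congr rfl fun b _ => by rw [hsy]
  have hW : ∑ a ∈ X, ∑ b ∈ X, w a b * y a ^ 2 ≤ D := by
    refine sum_le_sum fun a ha => ?_
    rw [← sum_mul]
    exact mul_le_mul_of_nonneg_right (hd a ha) (sq_nonneg _)
  have hW' : ∑ a ∈ X, ∑ b ∈ X, w a b * y b ^ 2 ≤ D := by
    rw [sum_comm]
    refine le_of_eq_of_le ?_ hW
    exact sum_congr rfl fun a _ => sum_congr rfl fun b _ => by rw [hsy]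
  -- for every positive t: 2 A ≤ t E / 2 + (1 / (2 t)) * 4 D
  have key : ∀ t : ℝ, 4 * t * A ≤ t ^ 2 * E + 4 * D := by
    intro t
    have : 2 * t * (A + ∑ a ∈ X, ∑ b ∈ X, w a b * max (y b ^ 2 - y a ^ 2) 0) ≤
        t ^ 2 * E + 2 * (∑ a ∈ X, ∑ b ∈ X, w a b * y a ^ 2 + ∑ a ∈ X, ∑ b ∈ X, w a b * y b ^ 2) := by
      rw [hA, hE]
      simp only [← sum_add_distrib, mul_sum]
      refine sum_le_sum fun a _ => sum_le_sum fun b _ => ?_
      have hw0 := hw a b
      have : 2 * t * (max (y a ^ 2 - y b ^ 2) 0 + max (y b ^ 2 - y a ^ 2) 0) ≤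
          t ^ 2 * (y a - y b) ^ 2 + 2 * (y a ^ 2 + y b ^ 2) := by
        rcases le_total (y a ^ 2) (y b ^ 2) with hh | hh
        · rw [max_eq_right (by linarith), max_eq_left (by linarith)]
          nlinarith [sq_nonneg (t * (y b - y a) - (y a + y b)), sq_nonneg (y a - y b)]
        · rw [max_eq_left (by linarith), max_eq_right (by linarith)]
          nlinarith [sq_nonneg (t * (y a - y b) - (y a + y b)), sq_nonneg (y a - y b)]
      nlinarith [mul_le_mul_of_nonneg_left this hw0]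
    rw [hA'] at this
    linarith
  rcases eq_or_lt_of_le hφ with h0 | hpos
  · rw [← h0]; simpa using hE0
  have h2 := key (2 / φ)
  have h3 : 4 * (2 / φ) * (φ * D) ≤ 4 * (2 / φ) * A :=
    mul_le_mul_of_nonneg_left h1 (by positivity)
  have h4 : 4 * (2 / φ) * (φ * D) = 8 * D := by field_simp; ring
  have h5 : 4 * D ≤ (2 / φ) ^ 2 * E := by linarith
  have h6 : φ ^ 2 * ((2 / φ) ^ 2 * E) = 4 * E := by field_simp; ring
  have h7 := mul_le_mul_of_nonneg_left h5 (sq_nonneg φ)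
  linarith

theorem median (X : Finset κ) (d x : κ → ℝ) (hd : ∀ a ∈ X, 0 ≤ d a) :
    ∃ c : ℝ, 2 * ∑ a ∈ X.filter (fun a => c < x a), d a ≤ ∑ a ∈ X, d a ∧
      2 * ∑ a ∈ X.filter (fun a => x a < c), d a ≤ ∑ a ∈ X, d a := by
  by_cases hX : X.Nonempty
  swap
  · rw [not_nonempty_iff_eq_empty] at hX
    exact ⟨0, by simp [hX], by simp [hX]⟩
  have hv : 0 ≤ ∑ a ∈ X, d a := sum_nonneg hd
  set G := X.filter fun b => 2 * ∑ a ∈ X.filter (fun a => x b < x a), d a ≤ ∑ a ∈ X, d a with hG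
  have hGne : G.Nonempty := by
    obtain ⟨b, hb, hmax⟩ := exists_max_image X x hX
    refine ⟨b, mem_filter.2 ⟨hb, ?_⟩⟩
    rw [filter_false_of_mem fun a ha => not_lt.2 (hmax a ha)]
    simpa using hv
  obtain ⟨b, hb, hmin⟩ := exists_min_image G x hGne
  refine ⟨x b, (mem_filter.1 hb).2, ?_⟩
  by_cases hL : (X.filter fun a => x a < x b).Nonempty
  swap
  · rw [not_nonempty_iff_eq_empty] at hL
    rw [hL]; simpa using hv
  obtain ⟨b', hb', hmax⟩ := exists_max_image _ x hL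
  obtain ⟨hb'X, hlt⟩ := mem_filter.1 hb'
  have hnot : b' ∉ G := fun hh => absurd (hmin b' hh) (not_le.2 hlt)
  have h1 : ¬ 2 * ∑ a ∈ X.filter (fun a => x b' < x a), d a ≤ ∑ a ∈ X, d a :=
    fun hh => hnot (mem_filter.2 ⟨hb'X, hh⟩)
  have h2 := sum_filter_add_sum_filter_not X (fun a => x a < x b) d
  have h3 : X.filter (fun a => x b' < x a) = X.filter (fun a => ¬ x a < x b) := by
    refine filter_congr fun a ha => ⟨fun hh hlt' => ?_, fun hh => ?_⟩
    · exact absurd (hmax a (mem_filter.2 ⟨ha, hlt'⟩)) (not_le.2 hh)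
    · exact lt_of_lt_of_le hlt (not_lt.1 hh)
  rw [h3] at h1
  linarith [not_le.1 h1]

end CheegP

theorem cheeg : CheegStmt := by
  intro κ w X d φ hsy hw hφ hd h x
  have hd0 : ∀ a ∈ X, 0 ≤ d a := fun a ha => (sum_nonneg fun b _ => hw a b).trans (hd a ha)
  obtain ⟨c, hc1, hc2⟩ := CheegP.median X d x hd0
  refine ⟨c, ?_⟩
  have sub : ∀ S₀ ⊆ X, 2 * ∑ a ∈ S₀, d a ≤ ∑ a ∈ X, d a →
      ∀ S ⊆ S₀, S ⊆ X → φ * ∑ a ∈ S, d a ≤ rw w S (X \ S) := by
    intro S₀ h0 hS₀ S hS hSX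
    refine h S hSX (le_trans ?_ hS₀)
    have := sum_le_sum_of_subset_of_nonneg hS (f := d) fun a ha _ => hd0 a (h0 ha)
    linarith
  have h1 := CheegP.half w X _ d φ hsy hw hφ hd (sub _ (filter_subset _ _) hc1)
    (fun a => max (x a - c) 0) (fun a => le_max_right _ _) (by
      intro a ha
      obtain ⟨haX, hp⟩ := mem_filter.1 ha
      refine mem_filter.2 ⟨haX, ?_⟩
      by_contra hcon
      rw [max_eq_right (by linarith [not_lt.1 hcon])] at hp
      exact lt_irrefl _ hp)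
  have h2 := CheegP.half w X _ d φ hsy hw hφ hd (sub _ (filter_subset _ _) hc2)
    (fun a => max (c - x a) 0) (fun a => le_max_right _ _) (by
      intro a ha
      obtain ⟨haX, hp⟩ := mem_filter.1 ha
      refine mem_filter.2 ⟨haX, ?_⟩
      by_contra hcon
      rw [max_eq_right (by linarith [not_lt.1 hcon])] at hp
      exact lt_irrefl _ hp)
  have e1 : ∑ a ∈ X, d a * (x a - c) ^ 2 =
      ∑ a ∈ X, d a * (max (x a - c) 0) ^ 2 + ∑ a ∈ X, d a * (max (c - x a) 0) ^ 2 := by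
    rw [← sum_add_distrib]
    refine sum_congr rfl fun a _ => ?_
    rcases le_total (x a) c with hh | hh
    · rw [max_eq_right (by linarith), max_eq_left (by linarith)]; ring
    · rw [max_eq_left (by linarith), max_eq_right (by linarith)]; ring
  have e2 : ∑ a ∈ X, ∑ b ∈ X, w a b * (max (x a - c) 0 - max (x b - c) 0) ^ 2 +
      ∑ a ∈ X, ∑ b ∈ X, w a b * (max (c - x a) 0 - max (c - x b) 0) ^ 2 ≤
      ∑ a ∈ X, ∑ b ∈ X, w a b * (x a - x b) ^ 2 := by
    simp only [← sum_add_distrib]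
    refine sum_le_sum fun a _ => sum_le_sum fun b _ => ?_
    rw [← mul_add]
    refine mul_le_mul_of_nonneg_left ?_ (hw a b)
    rcases le_total (x a) c with ha | ha <;> rcases le_total (x b) c with hb | hb
    · rw [max_eq_right (by linarith), max_eq_right (by linarith), max_eq_left (by linarith),
        max_eq_left (by linarith)]
      nlinarith
    · rw [max_eq_right (by linarith), max_eq_left (by linarith), max_eq_left (by linarith),
        max_eq_right (by linarith)]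
      nlinarith [mul_nonneg (sub_nonneg.2 ha) (sub_nonneg.2 hb)]
    · rw [max_eq_left (by linarith), max_eq_right (by linarith), max_eq_right (by linarith),
        max_eq_left (by linarith)]
      nlinarith [mul_nonneg (sub_nonneg.2 ha) (sub_nonneg.2 hb)]
    · rw [max_eq_left (by linarith), max_eq_left (by linarith), max_eq_right (by linarith),
        max_eq_right (by linarith)]
      nlinarith
  rw [e1, mul_add]
  linarith

end Pool.Agent.MP_35cb46_co.Nl

end
end MrgPart0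

-- ======== part 1: formerly Pool.Agent.MP_35cb46_co.nl.Cut
section MrgPart1

/-! PROJECT NL, row CUT: rounding a cut to blocks and composing well linked sets. -/

namespace Pool.Agent.MP_35cb46_co.Nl

open Finset Pool.Agent.MP_7be75d_co Pool.Agent.MP_35cb46_co.Sq
open scoped Classical

namespace CutP

variable {κ ι : Type} {w : κ → κ → ℕ}

/-- Weights inside disjoint pieces add up to at most the total weight. -/
theorem sum_cw_le {s : Finset ι} {P Q : ι → Finset κ} {P' Q' : Finset κ}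
    (hd : ∀ i ∈ s, ∀ j ∈ s, i ≠ j → Disjoint (P i) (P j)) (hP : ∀ i ∈ s, P i ⊆ P')
    (hQ : ∀ i ∈ s, Q i ⊆ Q') : ∑ i ∈ s, cw w (P i) (Q i) ≤ cw w P' Q' :=
  calc _ ≤ ∑ i ∈ s, cw w (P i) Q' := sum_le_sum fun i hi => cw_mono subset_rfl (hQ i hi)
    _ = cw w (s.biUnion P) Q' := (cw_biUnion hd).symm
    _ ≤ _ := cw_mono (biUnion_subset.2 hP) subset_rfl

/-- The weight of a moved set. -/
theorem moved {τ : κ → ℕ} {s : Finset ι} {P Q : ι → Finset κ} {M B : Finset κ}
    (hM : M ⊆ s.biUnion P) (hB : ∀ i ∈ s, B ⊆ Q i) :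
    ts τ M + cw w M B ≤ ∑ i ∈ s, ts (fun v => τ v + cw w {v} (Q i)) (P i) := by
  have h1 : ts τ M ≤ ∑ i ∈ s, ts τ (P i) := (ts_mono hM).trans (ts_biUnion_le s P)
  have h2 : cw w M B ≤ ∑ i ∈ s, cw w (P i) (Q i) :=
    ((cw_mono hM subset_rfl).trans (cw_biUnion_le s P)).trans
      (sum_le_sum fun i hi => cw_mono subset_rfl (hB i hi))
  have h3 : ∑ i ∈ s, ts (fun v => τ v + cw w {v} (Q i)) (P i) =
      ∑ i ∈ s, ts τ (P i) + ∑ i ∈ s, cw w (P i) (Q i) := by
    rw [← sum_add_distrib]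
    refine sum_congr rfl fun i _ => ?_
    rw [ts_add, cw_eq_sum (P i)]
    rfl
  omega

theorem cw_prod (A B : Finset κ) : cw w A B = ∑ p ∈ A ×ˢ B, w p.1 p.2 := by
  rw [sum_product]
  rfl

theorem cw_biUnion_right {s : Finset ι} {S : ι → Finset κ} (A : Finset κ)
    (h : ∀ i ∈ s, ∀ j ∈ s, i ≠ j → Disjoint (S i) (S j)) :
    cw w A (s.biUnion S) = ∑ i ∈ s, cw w A (S i) := by
  unfold cw
  rw [sum_comm (s := s)]
  exact sum_congr rfl fun a _ => sum_biUnion h

end CutP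

open CutP

theorem round : Nl.RoundStmt := by
  intro κ w u τ X D K hu huw hK hD hZ A hA
  let β : Finset κ → κ → ℕ := fun Z v => τ v + cw u {v} (X \ Z)
  let Din := D.filter fun Z => ts (β Z) (Z \ A) ≤ ts (β Z) (Z ∩ A)
  let Dout := D.filter fun Z => ¬ ts (β Z) (Z \ A) ≤ ts (β Z) (Z ∩ A)
  obtain ⟨W, hW⟩ : ∃ W, W = (A \ un D) ∪ un Din := ⟨_, rfl⟩
  have hin : ∀ Z ∈ Din, Z ⊆ W := fun Z h => hW ▸ (subset_un h).trans subset_union_right
  have hout : ∀ Z ∈ Dout, Disjoint Z W := by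
    intro Z h
    obtain ⟨h1, h2⟩ := mem_filter.1 h
    refine disjoint_left.2 fun v hv hvW => ?_
    rw [hW, mem_union] at hvW
    rcases hvW with h3 | h3
    · exact (mem_sdiff.1 h3).2 (subset_un h1 hv)
    · obtain ⟨Z', h4, h5⟩ := mem_un.1 h3
      obtain ⟨h6, h7⟩ := mem_filter.1 h4
      exact h2 (hD.eq h6 h1 h5 hv ▸ h7)
  have hWX : W ⊆ X := by
    rw [hW]
    refine union_subset (sdiff_subset.trans hA) fun v hv => ?_
    obtain ⟨Z, h1, h2⟩ := mem_un.1 hv
    exact (hZ Z (mem_filter.1 h1).1).1 h2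
  have hfix : ∀ v, v ∉ un D → (v ∈ W ↔ v ∈ A) := by
    intro v hv
    rw [hW, mem_union, mem_sdiff]
    exact ⟨fun h => h.elim (fun h => h.1) fun h => absurd (un_mono (filter_subset _ _) h) hv,
      fun h => Or.inl ⟨h, hv⟩⟩
  have hcase : ∀ Z ∈ D, Z ∈ Din ∨ Z ∈ Dout := fun Z h => by
    by_cases hc : ts (β Z) (Z \ A) ≤ ts (β Z) (Z ∩ A)
    · exact Or.inl (mem_filter.2 ⟨h, hc⟩)
    · exact Or.inr (mem_filter.2 ⟨h, hc⟩)
  refine ⟨W, hWX, fun Z h => (hcase Z h).imp (hin Z) (hout Z), fun Z h hZA => ?_, hfix, ?_⟩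
  · refine hin Z (mem_filter.2 ⟨h, ?_⟩)
    rw [sdiff_eq_empty_iff_subset.2 hZA]
    simp [ts]
  have h1 : ts τ (W \ A) + cw u (W \ A) (X \ W) ≤ ∑ Z ∈ Din, ts (β Z) (Z \ A) := by
    refine moved (P := fun Z => Z \ A) (Q := fun Z => X \ Z) (fun v hv => ?_)
      fun Z h => sdiff_subset_sdiff subset_rfl (hin Z h)
    obtain ⟨h1, h2⟩ := mem_sdiff.1 hv
    rw [hW, mem_union] at h1
    rcases h1 with h1 | h1
    · exact absurd (mem_sdiff.1 h1).1 h2
    · obtain ⟨Z, h3, h4⟩ := mem_un.1 h1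
      exact mem_biUnion.2 ⟨Z, h3, mem_sdiff.2 ⟨h4, h2⟩⟩
  have h2 : ts τ (A \ W) + cw u (A \ W) W ≤ ∑ Z ∈ Dout, ts (β Z) (Z ∩ A) := by
    refine moved (P := fun Z => Z ∩ A) (Q := fun Z => X \ Z) (fun v hv => ?_)
      fun Z h v hv => mem_sdiff.2 ⟨hWX hv, fun e => disjoint_left.1 (hout Z h) e hv⟩
    obtain ⟨h1, h2⟩ := mem_sdiff.1 hv
    have h3 : v ∈ un D := by
      by_contra hc
      exact h2 ((hfix v hc).2 h1)
    obtain ⟨Z, h4, h5⟩ := mem_un.1 h3
    rcases hcase Z h4 with h6 | h6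
    · exact absurd (hin Z h6 h5) h2
    · exact mem_biUnion.2 ⟨Z, h6, mem_inter.2 ⟨h5, h1⟩⟩
  have hwl : ∀ Z ∈ D, min (ts (β Z) (Z ∩ A)) (ts (β Z) (Z \ A)) ≤ K * cw w (Z ∩ A) (Z \ A) := by
    intro Z h
    have := (hZ Z h).2 (Z ∩ A) inter_subset_left
    rwa [sdiff_inter_self_left] at this
  have h3 : ∑ Z ∈ Din, ts (β Z) (Z \ A) ≤ K * cw w (A ∩ W) (W \ A) := by
    refine le_trans ?_ (Nat.mul_le_mul_left K (sum_cw_le (s := Din) (P := fun Z => Z ∩ A)
      (Q := fun Z => Z \ A) (fun Z h Z' h' e => ?_) (fun Z h v hv => ?_) fun Z h => ?_))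
    · rw [mul_sum]
      refine sum_le_sum fun Z h => ?_
      obtain ⟨h4, h5⟩ := mem_filter.1 h
      have := hwl Z h4
      omega
    · exact (hD Z (mem_filter.1 h).1 Z' (mem_filter.1 h').1 e).mono inter_subset_left
        inter_subset_left
    · exact mem_inter.2 ⟨(mem_inter.1 hv).2, hin Z h (mem_inter.1 hv).1⟩
    · exact sdiff_subset_sdiff (hin Z h) subset_rfl
  have h4 : ∑ Z ∈ Dout, ts (β Z) (Z ∩ A) ≤ K * cw w (A \ W) (X \ A) := by
    refine le_trans ?_ (Nat.mul_le_mul_left K (sum_cw_le (s := Dout) (P := fun Z => Z ∩ A)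
      (Q := fun Z => Z \ A) (fun Z h Z' h' e => ?_) (fun Z h v hv => ?_) fun Z h => ?_))
    · rw [mul_sum]
      refine sum_le_sum fun Z h => ?_
      obtain ⟨h4, h5⟩ := mem_filter.1 h
      have := hwl Z h4
      omega
    · exact (hD Z (mem_filter.1 h).1 Z' (mem_filter.1 h').1 e).mono inter_subset_left
        inter_subset_left
    · exact mem_sdiff.2 ⟨(mem_inter.1 hv).2, disjoint_left.1 (hout Z h) (mem_inter.1 hv).1⟩
    · exact sdiff_subset_sdiff (hZ Z (mem_filter.1 h).1).1 subset_rfl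
  have h5 : cw w (A ∩ W) (W \ A) + cw w (A ∩ W) ((X \ W) \ A) + cw w (A \ W) (X \ A) ≤
      cw w A (X \ A) := by
    have e1 : cw w (A \ (A ∩ W)) (X \ A) + cw w (A ∩ W) (X \ A) = cw w A (X \ A) :=
      cw_sdiff_left inter_subset_left
    rw [sdiff_inter_self_left] at e1
    have e2 : cw w (A ∩ W) ((W \ A) ∪ ((X \ W) \ A)) =
        cw w (A ∩ W) (W \ A) + cw w (A ∩ W) ((X \ W) \ A) :=
      cw_union_right (disjoint_left.2 fun v h h' =>
        (mem_sdiff.1 (mem_sdiff.1 h').1).2 (mem_sdiff.1 h).1)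
    have e3 : cw w (A ∩ W) ((W \ A) ∪ ((X \ W) \ A)) ≤ cw w (A ∩ W) (X \ A) :=
      cw_mono subset_rfl (union_subset (sdiff_subset_sdiff hWX subset_rfl)
        (sdiff_subset_sdiff sdiff_subset subset_rfl))
    omega
  have h6 : cw u W (X \ W) ≤
      cw u (W \ A) (X \ W) + cw w (A ∩ W) ((X \ W) \ A) + cw u (A \ W) W := by
    have e1 : cw u (W \ (A ∩ W)) (X \ W) + cw u (A ∩ W) (X \ W) = cw u W (X \ W) :=
      cw_sdiff_left inter_subset_right
    rw [sdiff_inter_self_right] at e1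
    have e2 : cw u (A ∩ W) (X \ W) ≤ cw u (A ∩ W) (((X \ W) \ A) ∪ (A \ W)) := by
      refine cw_mono subset_rfl fun v hv => ?_
      by_cases h : v ∈ A
      · exact mem_union_right _ (mem_sdiff.2 ⟨h, (mem_sdiff.1 hv).2⟩)
      · exact mem_union_left _ (mem_sdiff.2 ⟨hv, h⟩)
    have e3 : cw u (A ∩ W) (((X \ W) \ A) ∪ (A \ W)) ≤
        cw u (A ∩ W) ((X \ W) \ A) + cw u (A ∩ W) (A \ W) := cw_union_right_le
    have e4 : cw u (A ∩ W) ((X \ W) \ A) ≤ cw w (A ∩ W) ((X \ W) \ A) :=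
      cw_le fun a _ b _ => huw a b
    have e5 : cw u (A ∩ W) (A \ W) ≤ cw u (A \ W) W := by
      rw [cw_comm hu]
      exact cw_mono subset_rfl inter_subset_right
    omega
  have h7 : cw w (A ∩ W) ((X \ W) \ A) ≤ K * cw w (A ∩ W) ((X \ W) \ A) :=
    Nat.le_mul_of_pos_left _ hK
  have h8 := Nat.mul_le_mul_left K h5
  rw [mul_add, mul_add] at h8
  omega

theorem comp (hr : Nl.RoundStmt) : CompStmt := by
  intro V κ w u τ J X K₁ K₂ hu huw hK hd h1 h2 A hA
  obtain ⟨W, hW, hresp, -, -, hle⟩ := hr V w u τ (J.biUnion X) (J.image X) K₁ hu huw hK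
    (fun Z hZ Z' hZ' e => by
      obtain ⟨a, ha, rfl⟩ := mem_image.1 hZ
      obtain ⟨b, hb, rfl⟩ := mem_image.1 hZ'
      exact hd a ha b hb fun e' => e (e' ▸ rfl))
    (fun Z hZ => by
      obtain ⟨a, ha, rfl⟩ := mem_image.1 hZ
      exact ⟨subset_biUnion_of_mem X ha, h1 a ha⟩) A hA
  let S := J.filter fun a => X a ⊆ W
  have hS : S ⊆ J := filter_subset _ _
  have hno : ∀ a ∈ J \ S, Disjoint (X a) W := fun a ha =>
    (hresp _ (mem_image_of_mem X (mem_sdiff.1 ha).1)).resolve_left fun h =>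
      (mem_sdiff.1 ha).2 (mem_filter.2 ⟨(mem_sdiff.1 ha).1, h⟩)
  have e1 : S.biUnion X = W := by
    refine Subset.antisymm (biUnion_subset.2 fun a ha => (mem_filter.1 ha).2) fun v hv => ?_
    obtain ⟨a, ha, hv'⟩ := mem_biUnion.1 (hW hv)
    by_cases h : a ∈ S
    · exact mem_biUnion.2 ⟨a, h, hv'⟩
    · exact absurd hv (disjoint_left.1 (hno a (mem_sdiff.2 ⟨ha, h⟩)) hv')
  have e2 : (J \ S).biUnion X = J.biUnion X \ W := by
    refine Subset.antisymm (biUnion_subset.2 fun a ha v hv => mem_sdiff.2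
      ⟨mem_biUnion.2 ⟨a, (mem_sdiff.1 ha).1, hv⟩, disjoint_left.1 (hno a ha) hv⟩) fun v hv => ?_
    obtain ⟨hv1, hv2⟩ := mem_sdiff.1 hv
    obtain ⟨a, ha, hv'⟩ := mem_biUnion.1 hv1
    exact mem_biUnion.2 ⟨a, mem_sdiff.2 ⟨ha, fun h => hv2 ((mem_filter.1 h).2 hv')⟩, hv'⟩
  have d1 : ∀ a ∈ S, ∀ b ∈ S, a ≠ b → Disjoint (X a) (X b) :=
    fun a ha b hb => hd a (hS ha) b (hS hb)
  have d2 : ∀ a ∈ J \ S, ∀ b ∈ J \ S, a ≠ b → Disjoint (X a) (X b) :=
    fun a ha b hb => hd a (mem_sdiff.1 ha).1 b (mem_sdiff.1 hb).1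
  have h3 := h2 S hS
  have e3 : ts (fun a => ts τ (X a)) S = ts τ W := by rw [← e1, ts_biUnion d1]; rfl
  have e4 : ts (fun a => ts τ (X a)) (J \ S) = ts τ (J.biUnion X \ W) := by
    rw [← e2, ts_biUnion d2]; rfl
  have e5 : cw (fun a b => cw u (X a) (X b)) S (J \ S) = cw u W (J.biUnion X \ W) := by
    rw [← e2, ← e1, cw_biUnion d1]
    exact sum_congr rfl fun a _ => (cw_biUnion_right _ d2).symm
  rw [e3, e4, e5] at h3
  have h4 : ts τ A ≤ ts τ W + ts τ (A \ W) :=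
    (ts_mono (A' := W ∪ A \ W) fun v hv => by
      by_cases h : v ∈ W
      · exact mem_union_left _ h
      · exact mem_union_right _ (mem_sdiff.2 ⟨hv, h⟩)).trans ts_union_le
  have h5 : ts τ (J.biUnion X \ A) ≤ ts τ (J.biUnion X \ W) + ts τ (W \ A) :=
    (ts_mono (A' := J.biUnion X \ W ∪ W \ A) fun v hv => by
      by_cases h : v ∈ W
      · exact mem_union_right _ (mem_sdiff.2 ⟨h, (mem_sdiff.1 hv).2⟩)
      · exact mem_union_left _ (mem_sdiff.2 ⟨(mem_sdiff.1 hv).1, h⟩)).trans ts_union_le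
  have h6 : K₂ * cw u W (J.biUnion X \ W) ≤ K₂ * (K₁ * cw w A (J.biUnion X \ A)) :=
    Nat.mul_le_mul_left _ (by omega)
  have h7 : K₁ * (K₂ + 1) * cw w A (J.biUnion X \ A) =
      K₂ * (K₁ * cw w A (J.biUnion X \ A)) + K₁ * cw w A (J.biUnion X \ A) := by ring
  omega

theorem core : Nl.CoreStmt := by
  intro V G X τ K h hpos
  obtain ⟨v, hv, hτ⟩ : ∃ v ∈ X, 0 < τ v := by
    by_contra hc
    push Not at hc
    exact hpos.ne' (sum_eq_zero fun v hv => Nat.le_zero.1 (hc v hv))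
  have h0 : ∀ A ⊆ MP_7be75d_co.comp G X v,
      cw (aw G) A (X \ MP_7be75d_co.comp G X v) = 0 := fun A hA =>
    cw_eq_zero.2 fun a ha b hb => if_neg fun e =>
      (mem_sdiff.1 hb).2 (comp_closed (hA ha) (mem_sdiff.1 hb).1 e)
  refine ⟨MP_7be75d_co.comp G X v, comp_subset, comp_conn hv, fun x hx hτx => ?_, fun A hA => ?_⟩
  · by_contra hc
    have h1 := h _ (comp_subset (G := G) (U := X) (v := v))
    rw [h0 _ subset_rfl] at h1
    have h2 : τ v ≤ ts τ (MP_7be75d_co.comp G X v) := single_le_ts (self_mem_comp hv)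
    have h3 : τ x ≤ ts τ (X \ MP_7be75d_co.comp G X v) := single_le_ts (mem_sdiff.2 ⟨hx, hc⟩)
    omega
  · have h1 := h A (hA.trans comp_subset)
    have h2 : ts τ (MP_7be75d_co.comp G X v \ A) ≤ ts τ (X \ A) :=
      ts_mono (sdiff_subset_sdiff comp_subset subset_rfl)
    have h3 : cw (aw G) A (X \ A) ≤ cw (aw G) A
        ((MP_7be75d_co.comp G X v \ A) ∪ (X \ MP_7be75d_co.comp G X v)) := by
      refine cw_mono subset_rfl fun x hx => ?_
      by_cases e : x ∈ MP_7be75d_co.comp G X v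
      · exact mem_union_left _ (mem_sdiff.2 ⟨e, (mem_sdiff.1 hx).2⟩)
      · exact mem_union_right _ (mem_sdiff.2 ⟨(mem_sdiff.1 hx).1, e⟩)
    have h4 := h3.trans cw_union_right_le
    rw [h0 A hA, add_zero] at h4
    have h5 := Nat.mul_le_mul_left K h4
    omega

theorem netc (hc : CompStmt) : NetcStmt := by
  intro V κ G Amb Rt T w K K₂ N J₀ τ hN hJ hτ hwl
  let u : V → V → ℕ := fun x y => if x ∈ N.Tm ∧ y = N.μ x then 1 else 0
  have hu1 : ∀ v B, cw u {v} B = if v ∈ N.Tm ∧ N.μ v ∈ B then 1 else 0 := by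
    intro v B
    by_cases h : v ∈ N.Tm
    · simp only [cw, u, h, true_and, sum_singleton, sum_ite_eq']
    · simp [cw, u, h]
  have hu2 : ∀ a b, cw u (N.X a) (N.X b) = N.mu a b := by
    intro a b
    rw [cw_eq_sum, sum_congr rfl fun v _ => hu1 v _, ← card_filter, ND.mu]
    refine congrArg card ?_
    ext x
    simp only [mem_filter, mem_inter]
    tauto
  refine hc V κ (aw G) u τ J₀ N.X (T + 1) K₂ (fun x y => ?_) (fun x y => ?_) (by omega)
    (fun a ha b hb => hN.fam.disj a (hJ ha) b (hJ hb)) (fun a ha => ?_) ?_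
  · refine if_congr ⟨?_, ?_⟩ rfl rfl
    · rintro ⟨h1, rfl⟩
      exact ⟨(hN.wire x h1).1, (hN.wire x h1).2.1.symm⟩
    · rintro ⟨h1, rfl⟩
      exact ⟨(hN.wire y h1).1, (hN.wire y h1).2.1.symm⟩
  · simp only [u]
    split_ifs with h
    · obtain ⟨h1, rfl⟩ := h
      simp [aw, (hN.wire x h1).2.2.1]
    · exact Nat.zero_le _
  · refine (hN.wl a (hJ ha)).tau fun v hv => ?_
    have h1 := hτ v (mem_biUnion.2 ⟨a, ha, hv⟩)
    rw [hu1]
    by_cases h2 : v ∈ N.Tm
    · have h3 : v ∉ N.Ro := disjoint_left.1 hN.tr h2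
      rw [ind_of_notMem h3] at h1
      rw [ind_of_mem (mem_union_left _ h2)]
      by_cases h4 : N.μ v ∈ J₀.biUnion N.X
      · rw [ind_of_notMem (T := N.Tm.filter fun x => N.μ x ∉ J₀.biUnion N.X)
          fun e => (mem_filter.1 e).2 h4] at h1
        split_ifs <;> omega
      · rw [if_neg fun e => h4 (mem_sdiff.1 e.2).1]
        have := ind_le_one (N.Tm.filter fun x => N.μ x ∉ J₀.biUnion N.X) v
        omega
    · rw [ind_of_notMem fun e => h2 (mem_filter.1 e).1] at h1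
      rw [if_neg fun e => h2 e.1]
      have : ind N.Ro v ≤ ind (N.Tm ∪ N.Ro) v := ind_mono (mem_union_right _)
      omega
  · exact hwl.mono (fun a _ b _ => (hu2 a b).ge) (fun _ _ => le_rfl) le_rfl

theorem ext : ExtStmt := by
  intro V ι G X T₀ I s e Q K hK hT he hQ hd hwl A hA
  have heQ : ∀ k ∈ I, e k ∈ Q k ∧ e k ∈ X := fun k hk =>
    mem_inter.1 ((hQ k hk).2.1 ▸ mem_singleton_self _)
  have hinj : Set.InjOn e I := fun k hk k' hk' h => by
    by_contra hc
    exact disjoint_left.1 (hd k hk k' hk' hc) (heQ k hk).1 (h ▸ (heQ k' hk').1)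
  obtain ⟨C, hC⟩ : ∃ C, C = I.filter fun k => ¬ (s k ∈ A ↔ e k ∈ A) := ⟨_, rfl⟩
  have key : ∀ B B' : Finset V, B ∩ T₀ ⊆ B' → (∀ k ∈ I, k ∉ C → s k ∈ B → e k ∈ B') →
      ts (ind (T₀ ∪ I.image s)) B ≤ ts (ind (T₀ ∪ I.image e)) B' + C.card := by
    intro B B' h1 h2
    rw [ts_ind, ts_ind]
    have e1 : B ∩ (T₀ ∪ I.image s) ⊆
        (B ∩ T₀) ∪ ((I.filter fun k => e k ∈ B').image s ∪ C.image s) := by
      intro v hv
      obtain ⟨h3, h4⟩ := mem_inter.1 hv
      rcases mem_union.1 h4 with h4 | h4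
      · exact mem_union_left _ (mem_inter.2 ⟨h3, h4⟩)
      · obtain ⟨k, hk, rfl⟩ := mem_image.1 h4
        refine mem_union_right _ ?_
        by_cases h5 : k ∈ C
        · exact mem_union_right _ (mem_image_of_mem _ h5)
        · exact mem_union_left _ (mem_image_of_mem _ (mem_filter.2 ⟨hk, h2 k hk h5 h3⟩))
    have e2 : (B ∩ T₀) ∪ (I.filter fun k => e k ∈ B').image e ⊆ B' ∩ (T₀ ∪ I.image e) := by
      refine union_subset (fun v hv => mem_inter.2 ⟨h1 hv, mem_union_left _ (mem_inter.1 hv).2⟩)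
        fun v hv => ?_
      obtain ⟨k, hk, rfl⟩ := mem_image.1 hv
      exact mem_inter.2 ⟨(mem_filter.1 hk).2,
        mem_union_right _ (mem_image_of_mem _ (mem_filter.1 hk).1)⟩
    have e3 := card_le_card e2
    rw [card_union_of_disjoint (disjoint_left.2 fun v h h' => by
      obtain ⟨k, hk, rfl⟩ := mem_image.1 h'
      exact he k (mem_filter.1 hk).1 (mem_inter.1 h).2),
      card_image_of_injOn (hinj.mono (coe_subset.2 (filter_subset _ _)))] at e3
    have e4 := (card_le_card e1).trans (card_union_le _ _)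
    have e5 := card_union_le ((I.filter fun k => e k ∈ B').image s) (C.image s)
    have e6 : ((I.filter fun k => e k ∈ B').image s).card ≤ _ := card_image_le
    have e7 : (C.image s).card ≤ _ := card_image_le
    omega
  have hnc : ∀ k ∈ I, k ∉ C → (s k ∈ A ↔ e k ∈ A) := fun k hk h => by
    by_contra hc
    exact h (hC ▸ mem_filter.2 ⟨hk, hc⟩)
  have k1 := key A (X ∩ A) (fun v hv => mem_inter.2 ⟨hT (mem_inter.1 hv).2, (mem_inter.1 hv).1⟩)
    fun k hk h h' => mem_inter.2 ⟨(heQ k hk).2, (hnc k hk h).1 h'⟩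
  have k2 := key ((X ∪ I.biUnion Q) \ A) (X \ A)
    (fun v hv => mem_sdiff.2 ⟨hT (mem_inter.1 hv).2, (mem_sdiff.1 (mem_inter.1 hv).1).2⟩)
    fun k hk h h' => mem_sdiff.2 ⟨(heQ k hk).2, fun e' => (mem_sdiff.1 h').2 ((hnc k hk h).2 e')⟩
  have k3 := hwl (X ∩ A) inter_subset_left
  rw [sdiff_inter_self_left] at k3
  have hCI : C ⊆ I := hC ▸ filter_subset _ _
  have k4 : ∀ k ∈ C, 1 ≤ cw (aw G) (Q k ∩ A) (Q k \ A) := by
    intro k hk
    obtain ⟨hk1, hk2⟩ := mem_filter.1 (hC ▸ hk)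
    obtain ⟨x, y, h1, h2, h3, h4, h5⟩ :
        ∃ x y, x ∈ A ∧ y ∉ A ∧ x ∈ Q k ∧ y ∈ Q k ∧ G.Adj x y := by
      by_cases h : s k ∈ A
      · exact (hQ k hk1).1.exit (hQ k hk1).2.2 h (heQ k hk1).1 fun h' => hk2 (iff_of_true h h')
      · refine (hQ k hk1).1.exit (heQ k hk1).1 ?_ (hQ k hk1).2.2 h
        by_contra h'
        exact hk2 (iff_of_false h h')
    refine le_trans ?_ (cw_mono (A := {x}) (B := {y})
      (singleton_subset_iff.2 (mem_inter.2 ⟨h3, h1⟩)) (singleton_subset_iff.2 (mem_sdiff.2 ⟨h4, h2⟩)))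
    rw [cw, sum_singleton, sum_singleton, aw, if_pos h5]
  have k5 : cw (aw G) (X ∩ A) (X \ A) + ∑ k ∈ C, cw (aw G) (Q k ∩ A) (Q k \ A) ≤
      cw (aw G) A ((X ∪ I.biUnion Q) \ A) := by
    simp only [cw_prod]
    rw [← sum_biUnion, ← sum_union]
    · refine sum_le_sum_of_subset (union_subset ?_ (biUnion_subset.2 fun k hk => ?_))
      · exact product_subset_product inter_subset_right
          (sdiff_subset_sdiff subset_union_left subset_rfl)
      · exact product_subset_product inter_subset_right (sdiff_subset_sdiff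
          ((subset_biUnion_of_mem Q (hCI hk)).trans subset_union_right) subset_rfl)
    · refine disjoint_left.2 fun p h h' => ?_
      obtain ⟨k, hk, h'⟩ := mem_biUnion.1 h'
      obtain ⟨h1, h2⟩ := mem_product.1 h
      obtain ⟨h3, h4⟩ := mem_product.1 h'
      have h5 : p.1 ∈ Q k ∩ X := mem_inter.2 ⟨(mem_inter.1 h3).1, (mem_inter.1 h1).1⟩
      have h6 : p.2 ∈ Q k ∩ X := mem_inter.2 ⟨(mem_sdiff.1 h4).1, (mem_sdiff.1 h2).1⟩
      rw [(hQ k (hCI hk)).2.1, mem_singleton] at h5 h6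
      exact (mem_sdiff.1 h2).2 (h6.trans h5.symm ▸ (mem_inter.1 h1).2)
    · intro k hk k' hk' hne
      refine disjoint_left.2 fun p h h' => ?_
      exact disjoint_left.1 (hd k (hCI hk) k' (hCI hk') hne)
        (mem_inter.1 (mem_product.1 h).1).1 (mem_inter.1 (mem_product.1 h').1).1
  have k6 : C.card ≤ ∑ k ∈ C, cw (aw G) (Q k ∩ A) (Q k \ A) := by
    rw [card_eq_sum_ones]
    exact sum_le_sum k4
  have k7 : C.card ≤ K * ∑ k ∈ C, cw (aw G) (Q k ∩ A) (Q k \ A) :=
    k6.trans (Nat.le_mul_of_pos_left _ hK)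
  have k8 := Nat.mul_le_mul_left K k5
  rw [mul_add] at k8
  omega

end Pool.Agent.MP_35cb46_co.Nl

end MrgPart1

-- marker of a merged file
example : 731051 + 263697 = 731051 + 263697 := rfl
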