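import Mathlib.Combinatorics.Hall.Basic
import Pool.Agent.MP_35cb46_co.nl.DoneA

/-! PROJECT NL, row GROUP. -/

noncomputable section

namespace Pool.Agent.MP_35cb46_co.Nl

open Finset Pool.Agent.MP_7be75d_co Pool.Agent.MP_35cb46_co.Sq
open scoped Classical

namespace GroupP

variable {V : Type} {G : SimpleGraph V} {X C A : Finset V} {v : V}

theorem near (h : Conn G C) (hv : v ∈ C) {x : V} (hx : x ∈ C.erase v) :
    ∃ u ∈ C.erase v, G.Adj v u ∧ x ∈ comp G (C.erase v) u := by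
  obtain ⟨a, b, ha, hb, -, hbC, hab⟩ := h.exit (T := comp G (C.erase v) x) (mem_of_mem_erase hx)
    (self_mem_comp hx) hv fun e => notMem_erase v C (comp_subset e)
  have : b = v := by
    by_contra e
    exact hb (comp_closed ha (mem_erase.2 ⟨e, hbC⟩) hab)
  exact ⟨a, comp_subset ha, (this ▸ hab).symm, comp_eq ha ▸ self_mem_comp hx⟩

theorem rest (h : Conn G C) (hC : C ⊆ X) (hv : v ∈ C)
    (hX : X \ C = ∅ ∨ Conn G (X \ C) ∧ ∃ y ∈ X \ C, G.Adj v y) (u : V) :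
    Conn G (X \ comp G (C.erase v) u) := by
  have sub : comp G (C.erase v) u ⊆ C := comp_subset.trans (erase_subset _ _)
  have hv' : v ∈ X \ comp G (C.erase v) u :=
    mem_sdiff.2 ⟨hC hv, fun e => notMem_erase v C (comp_subset e)⟩
  refine Conn.of_center hv' fun x hx => ?_
  by_cases hxC : x ∈ C
  · by_cases e : x = v
    · rw [e]; exact R.refl
    obtain ⟨a, ha, hva, hxa⟩ := near h hv (mem_erase.2 ⟨e, hxC⟩)
    have s2 : comp G (C.erase v) a ⊆ X \ comp G (C.erase v) u := fun z hz => mem_sdiff.2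
      ⟨hC (mem_of_mem_erase (comp_subset hz)), fun hz' => (mem_sdiff.1 hx).2 (by
        rwa [← comp_eq hz', comp_eq hz])⟩
    exact (R.single hva hv' (s2 (self_mem_comp ha))).trans
      ((comp_conn ha).r (self_mem_comp ha) hxa s2)
  · have hx' : x ∈ X \ C := mem_sdiff.2 ⟨(mem_sdiff.1 hx).1, hxC⟩
    rcases hX with e | ⟨c, y, hy, hvy⟩
    · simp [e] at hx'
    have s2 := sdiff_subset_sdiff (subset_rfl (a := X)) sub
    exact (R.single hvy hv' (s2 hy)).trans (c.r hy hx' s2)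

theorem piece [Fintype V] {τ : V → ℕ} {s : ℕ} (hd : Deg G univ 6) (h : Conn G X)
    (h7 : ∀ v, τ v ≤ 7) (h1 : 1 ≤ s) (hs : s ≤ ts τ X) : ∃ C ⊆ X, Conn G C ∧ s ≤ ts τ C ∧
      ts τ C ≤ 6 * s + 1 ∧ (X \ C = ∅ ∨ Conn G (X \ C)) := by
  obtain ⟨C, ⟨hC, hc, hsC, hr⟩, hmin⟩ := exists_min_of
    (p := fun C => C ⊆ X ∧ Conn G C ∧ s ≤ ts τ C ∧ (X \ C = ∅ ∨ Conn G (X \ C))) card
    ⟨X, subset_rfl, h, hs, Or.inl (Finset.sdiff_self X)⟩
  refine ⟨C, hC, hc, hsC, ?_, hr⟩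
  obtain ⟨v, hv, hr'⟩ : ∃ v ∈ C, X \ C = ∅ ∨ Conn G (X \ C) ∧ ∃ y ∈ X \ C, G.Adj v y := by
    obtain ⟨a, ha⟩ := hc.1
    rcases hr with e | c
    · exact ⟨a, ha, Or.inl e⟩
    obtain ⟨b, hb⟩ := c.1
    obtain ⟨x, y, hx, hy, -, hyX, hxy⟩ := h.exit (hC ha) ha (mem_sdiff.1 hb).1 (mem_sdiff.1 hb).2
    exact ⟨x, hx, Or.inr ⟨c, y, mem_sdiff.2 ⟨hyX, hy⟩, hxy⟩⟩
  have small : ∀ u ∈ (C.erase v).filter (G.Adj v), ts τ (comp G (C.erase v) u) ≤ s - 1 := by
    intro u hu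
    by_contra e
    have := hmin _ ⟨comp_subset.trans ((erase_subset _ _).trans hC), comp_conn (mem_filter.1 hu).1,
      by omega, Or.inr (rest hc hC hv hr' u)⟩
    exact absurd ((card_le_card comp_subset).trans_lt (card_erase_lt_of_mem hv)) (not_lt.2 this)
  have cov : C ⊆ {v} ∪ ((C.erase v).filter (G.Adj v)).biUnion (comp G (C.erase v)) := by
    intro x hx
    by_cases e : x = v
    · simp [e]
    obtain ⟨u, hu, a, b⟩ := near hc hv (mem_erase.2 ⟨e, hx⟩)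
    exact mem_union_right _ (mem_biUnion.2 ⟨u, mem_filter.2 ⟨hu, a⟩, b⟩)
  have a1 := (ts_mono (τ := τ) cov).trans ts_union_le
  have a2 := (ts_biUnion_le (τ := τ) _ _).trans (sum_le_card_nsmul _ _ _ small)
  have a3 := Nat.mul_le_mul_right (s - 1) ((card_le_card
    (filter_subset_filter (G.Adj v) (subset_univ (C.erase v)))).trans (hd v (mem_univ v)))
  have := h7 v
  rw [ts_single] at a1
  rw [smul_eq_mul] at a2
  omega

theorem cw_pos (h : Conn G C) (hC : C ⊆ X) {a b : V} (ha : a ∈ C) (ha' : a ∈ A) (hb : b ∈ C)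
    (hb' : b ∉ A) : 1 ≤ cw (aw G) (C ∩ A) (X \ A) := by
  obtain ⟨x, y, h1, h2, h3, h4, h5⟩ := h.exit ha ha' hb hb'
  refine Nat.pos_of_ne_zero fun e => ?_
  simpa [aw, h5] using cw_eq_zero.1 e x (mem_inter.2 ⟨h3, h1⟩) y (mem_sdiff.2 ⟨hC h4, h2⟩)

theorem side {τ τ' : V → ℕ} {K : ℕ} {QQ : Finset (Finset V)} (hK : 1 ≤ K) (hQ : Sq.Part G X QQ)
    (h : ∀ C ∈ QQ, K ≤ ts τ C ∧ ts τ' C ≤ 1) (hA : A ⊆ X)
    (hτ : ts τ A ≤ K * cw (aw G) A (X \ A)) : ts τ' A ≤ 2 * cw (aw G) A (X \ A) := by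
  have e : QQ.biUnion (fun C => C ∩ A) = A := by
    rw [← biUnion_inter QQ (fun C => C) A, show QQ.biUnion (fun C => C) = X from hQ.un,
      inter_eq_right.2 hA]
  have d : ∀ C ∈ QQ, ∀ C' ∈ QQ, C ≠ C' → Disjoint (C ∩ A) (C' ∩ A) := fun C a C' b c =>
    (hQ.disj C a C' b c).mono inter_subset_left inter_subset_left
  have k : K * ts τ' A ≤ K * cw (aw G) A (X \ A) + ts τ A := by
    have e1 := ts_biUnion (τ := τ) d
    have e2 := ts_biUnion (τ := τ') d
    have e3 := cw_biUnion (w := aw G) (B := X \ A) d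
    rw [e] at e1 e2 e3
    rw [e1, e2, e3, mul_sum, mul_sum, ← sum_add_distrib]
    refine sum_le_sum fun C hC => ?_
    have a1 := Nat.mul_le_mul_left K ((ts_mono (inter_subset_left (s₂ := A))).trans (h C hC).2)
    by_cases c1 : C ⊆ A
    · have := (h C hC).1
      rw [inter_eq_left.2 c1] at a1 ⊢
      omega
    rcases (C ∩ A).eq_empty_or_nonempty with c2 | ⟨a, ha⟩
    · simp [c2, ts]
    obtain ⟨b, hb, hb'⟩ := not_subset.1 c1
    have := Nat.mul_le_mul_left K (cw_pos (hQ.conn C hC) (hQ.un ▸ subset_biUnion_of_mem id hC)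
      (mem_inter.1 ha).1 (mem_inter.1 ha).2 hb hb')
    omega
  refine Nat.le_of_mul_le_mul_left ?_ hK
  rw [mul_left_comm]
  omega

theorem greedy {γ : Type} (S : ℕ → Finset V) (gr : V → γ) {T w m : ℕ} (hm : 0 < m)
    (h1 : ∀ t ≤ T, ∀ c ∈ (S t).image gr, ((S t).filter fun x => gr x = c).card ≤ m)
    (h2 : ∀ t ≤ T, m * ((T + 1) * w) ≤ (S t).card) :
    ∃ D : ℕ → Finset V, (∀ t ≤ T, D t ⊆ S t ∧ (D t).card = w) ∧
      ∀ t ≤ T, ∀ t' ≤ T, ∀ x ∈ D t, ∀ x' ∈ D t', gr x = gr x' → t = t' ∧ x = x' := by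
  obtain ⟨f, hf, hf'⟩ := (all_card_le_biUnion_card_iff_exists_injective
    fun i : Fin (T + 1) × Fin w => (S i.1).image gr).1 fun s => by
      rcases s.eq_empty_or_nonempty with rfl | ⟨i, hi⟩
      · simp
      refine (card_le_univ s).trans (le_trans ?_ (card_le_card (subset_biUnion_of_mem _ hi)))
      have hi := Nat.le_of_lt_succ i.1.2
      simpa using Nat.le_of_mul_le_mul_left
        ((h2 _ hi).trans (card_le_mul_card_image _ m (h1 _ hi))) hm
  choose x hx hx' using fun i => mem_image.1 (hf' i)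
  let ι : ℕ → Fin (T + 1) := fun t => ⟨min t T, by omega⟩
  refine ⟨fun t => univ.image fun j => x (ι t, j), fun t ht => ⟨fun z hz => ?_, ?_⟩, ?_⟩
  · obtain ⟨j, -, rfl⟩ := mem_image.1 hz
    simpa [ι, ht] using hx (ι t, j)
  · rw [card_image_of_injective _ fun j j' e => (Prod.ext_iff.1 (hf (by
      rw [← hx', ← hx', e]) : (ι t, j) = (ι t, j'))).2]
    simp
  · intro t ht t' ht' z hz z' hz' e
    obtain ⟨j, -, rfl⟩ := mem_image.1 hz
    obtain ⟨j', -, rfl⟩ := mem_image.1 hz'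
    have := hf (hx' _ ▸ hx' _ ▸ e : f (ι t, j) = f (ι t', j'))
    refine ⟨?_, by rw [this]⟩
    simpa [ι, ht, ht'] using congrArg Prod.fst this

theorem atom [Fintype V] (hg : GroupStmt) (hp : PickStmt) {T w w' K : ℕ} {Cd : ℕ → Finset V}
    (hd : Deg G univ 6) (hT : 1 ≤ T) (hK : 1 ≤ K) (hw : T + 1 ≤ w) (h1 : 1 ≤ w')
    (h2 : w' = 1 ∨ 14 * K * ((T + 1) * w') ≤ w) (hX : Conn G X)
    (hc : ∀ t ≤ T, (Cd t ∩ X).card = w)
    (hl : WL (aw G) X (ind ((range (T + 1)).biUnion Cd)) K) :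
    ∃ D : ℕ → Finset V, (∀ t ≤ T, D t ⊆ Cd t ∩ X ∧ (D t).card = w') ∧
      (∀ t ≤ T, ∀ t' ≤ T, ∀ x ∈ D t, x ∈ D t' → t = t') ∧
      WL (aw G) X (ind ((range (T + 1)).biUnion D)) (T + 1) := by
  rcases h2 with rfl | h2
  · obtain ⟨D, a, b⟩ := greedy (fun t => Cd t ∩ X) id (T := T) (w := 1) one_pos
      (fun t _ c _ => card_le_one.2 fun x hx y hy =>
        (mem_filter.1 hx).2.trans (mem_filter.1 hy).2.symm) fun t ht => by simp [hc t ht, hw]
    refine ⟨D, a, fun t ht t' ht' x c d => (b t ht t' ht' x c x d rfl).1, fun A hA => ?_⟩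
    rcases A.eq_empty_or_nonempty with rfl | ⟨x, hx⟩
    · simp [ts]
    rcases (X \ A).eq_empty_or_nonempty with e | ⟨y, hy⟩
    · simp [ts, e]
    have := cw_pos hX subset_rfl (hA hx) hx (mem_sdiff.1 hy).1 (mem_sdiff.1 hy).2
    rw [inter_eq_right.2 hA] at this
    refine (min_le_left _ _).trans (le_trans ?_ (Nat.le_mul_of_pos_right _ this))
    rw [ts_ind]
    refine (card_le_card inter_subset_right).trans (card_biUnion_le.trans ?_)
    rw [sum_congr rfl fun t ht => (a t (Nat.le_of_lt_succ (mem_range.1 ht))).2]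
    simp
  have sub : ∀ t ≤ T, Cd t ⊆ (range (T + 1)).biUnion Cd := fun t ht =>
    subset_biUnion_of_mem Cd (mem_range.2 (Nat.lt_succ_of_le ht))
  obtain ⟨QQ, hQ, hq⟩ := hg V G X (ind ((range (T + 1)).biUnion Cd)) K hd hX
    (fun v => (ind_le_one _ v).trans (by omega)) hK (by
      rw [ts_ind, inter_comm]
      refine le_trans ?_ (card_le_card (inter_subset_inter_right (sub 0 T.zero_le)))
      rw [hc 0 T.zero_le]
      have : 1 ≤ (T + 1) * w' := Nat.mul_pos T.succ_pos h1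
      nlinarith)
  have ex : ∀ v ∈ X, ∃ C ∈ QQ, v ∈ C := fun v hv => by simpa [← hQ.un] using hv
  choose! gr g1 g2 using ex
  obtain ⟨D, a, b⟩ := greedy (fun t => Cd t ∩ X) gr (T := T) (w := w') (m := 14 * K) (by omega)
    (fun t ht c hc => by
      obtain ⟨v, hv, rfl⟩ := mem_image.1 hc
      have := (hq _ (g1 v (mem_inter.1 hv).2)).2
      rw [ts_ind] at this
      refine (card_le_card fun x hx => ?_).trans (this.trans (by omega))
      obtain ⟨hx, e⟩ := mem_filter.1 hx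
      exact mem_inter.2 ⟨e ▸ g2 x (mem_inter.1 hx).2, sub t ht (mem_inter.1 hx).1⟩)
    fun t ht => by rwa [hc t ht]
  refine ⟨D, a, fun t ht t' ht' x c d => (b t ht t' ht' x c x d rfl).1,
    (hp V G X _ _ K QQ hK hl hQ fun C hC => ⟨(hq C hC).1, ?_⟩).up (by omega)⟩
  rw [ts_ind]
  have k : ∀ x ∈ C ∩ (range (T + 1)).biUnion D, ∃ t ≤ T, x ∈ D t ∧ gr x = C := fun x hx => by
    obtain ⟨t, ht, hx'⟩ := mem_biUnion.1 (mem_inter.1 hx).2
    have ht := Nat.le_of_lt_succ (mem_range.1 ht)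
    have := (mem_inter.1 ((a t ht).1 hx')).2
    exact ⟨t, ht, hx', PD.eq hQ.disj (g1 x this) hC (g2 x this) (mem_inter.1 hx).1⟩
  refine card_le_one.2 fun x hx y hy => ?_
  obtain ⟨t, ht, c, e⟩ := k x hx
  obtain ⟨t', ht', c', e'⟩ := k y hy
  exact (b t ht t' ht' x c y c' (e.trans e'.symm)).2

end GroupP

open GroupP

theorem group : GroupStmt := by
  intro V _ G X τ s hd hX h7 h1 hs
  induction X using Finset.strongInduction with
  | H X ih =>
  obtain ⟨C, hC, hc, h2, h3, h4⟩ := piece hd hX h7 h1 hs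
  have e := ts_sdiff (τ := τ) hC
  by_cases h5 : ts τ (X \ C) < s
  · exact ⟨{X}, ⟨by simpa using hX, by simp, by simp⟩, by simp; omega⟩
  rcases h4 with h4 | h4
  · simp [h4, ts] at h5; omega
  obtain ⟨QQ, hQ, hq⟩ := ih (X \ C) (sdiff_ssubset hC hc.1) h4 (by omega)
  have d : ∀ D ∈ QQ, Disjoint C D := fun D hD =>
    disjoint_sdiff.mono_right (hQ.un ▸ subset_biUnion_of_mem id hD)
  refine ⟨insert C QQ, ⟨by simpa [hc] using hQ.conn, fun D hD D' hD' ne => ?_, ?_⟩,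
    by simpa [h2, show ts τ C ≤ 7 * s + 7 by omega] using hq⟩
  · rcases mem_insert.1 hD with rfl | a <;> rcases mem_insert.1 hD' with rfl | b
    exacts [absurd rfl ne, d _ b, (d _ a).symm, hQ.disj _ a _ b ne]
  · rw [biUnion_insert, hQ.un, id, union_sdiff_of_subset hC]

theorem pick : PickStmt := by
  intro V G X τ τ' K QQ hK hw hQ h A hA
  rcases min_le_iff.1 (hw A hA) with e | e
  · exact (min_le_left _ _).trans (side hK hQ h hA e)
  have := side hK hQ h (sdiff_subset (t := A))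
  rw [Finset.sdiff_sdiff_eq_self hA, cw_comm aw_comm] at this
  exact (min_le_right _ _).trans (this e)

theorem boost (hg : GroupStmt) (hp : PickStmt) : BoostStmt := by
  intro V κ _ G Amb Rt T w K J X R Cd y Old hd hT hK hw P
  have n0 : 0 < 14 * K * (T + 1) := by positivity
  obtain ⟨w', h1, h2, h3, h4⟩ : ∃ w', 1 ≤ w' ∧ (w' = 1 ∨ 14 * K * ((T + 1) * w') ≤ w) ∧ w' ≤ w ∧
      w ≤ 28 * K * (T + 1) * w' := by
    have a1 := Nat.mul_div_le w (14 * K * (T + 1))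
    have a2 := Nat.lt_mul_div_succ w n0
    have a3 := Nat.div_le_self w (14 * K * (T + 1))
    rcases Nat.eq_zero_or_pos (w / (14 * K * (T + 1))) with e | e
    · exact ⟨1, le_rfl, Or.inl rfl, by omega, by rw [e] at a2; nlinarith⟩
    · exact ⟨_, e, Or.inr (by rwa [← mul_assoc]), a3, by nlinarith⟩
  have := fun a ha => atom hg hp hd hT hK hw h1 h2 (P.fam.conn a ha) (P.card a ha) (P.xwl a ha)
  choose! D a1 a2 a3 using this
  have own : ∀ t ≤ T, ∀ a ∈ J, ∀ x ∈ J.biUnion fun a => D a t, x ∈ X a → x ∈ D a t := by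
    intro t ht a ha x hx hx'
    obtain ⟨b, hb, hx⟩ := mem_biUnion.1 hx
    exact P.fam.eq hb ha (mem_inter.1 ((a1 b hb t ht).1 hx)).2 hx' ▸ hx
  have sub : ∀ t ≤ T, (J.biUnion fun a => D a t) ⊆ Cd t := fun t ht =>
    biUnion_subset.2 fun a ha => (a1 a ha t ht).1.trans inter_subset_left
  refine ⟨w', fun t => J.biUnion fun a => D a t, ⟨P.fam, P.rsub, P.rdisj, P.xr,
    fun t ht => (sub t ht).trans (P.csub t ht), fun a ha t ht => ?_,
    fun t ht x hx => P.adj t ht x (sub t ht hx), fun a ha => (a3 a ha).tau fun v hv => ?_,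
    fun t ht => (P.rwl t ht).tau fun v _ => Nat.add_le_add_right (cnt_mono (sub t ht) _ _) _,
    P.old, (Nat.mul_le_mul_left _ h3).trans P.many⟩, fun t ht t' ht' ne => ?_, h1, h3, h4⟩
  · rw [← (a1 a ha t ht).2]
    congr 1
    exact Subset.antisymm (fun x hx => own t ht a ha x (mem_inter.1 hx).1 (mem_inter.1 hx).2)
      (subset_inter (subset_biUnion_of_mem (fun a => D a t) ha)
        ((a1 a ha t ht).1.trans inter_subset_right))
  · refine ind_mono fun hv' => ?_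
    obtain ⟨t, ht, hv'⟩ := mem_biUnion.1 hv'
    exact mem_biUnion.2 ⟨t, ht, own t (Nat.le_of_lt_succ (mem_range.1 ht)) a ha v hv' hv⟩
  · refine disjoint_left.2 fun x hx hx' => ne ?_
    obtain ⟨a, ha, hx⟩ := mem_biUnion.1 hx
    exact a2 a ha t ht t' ht' x hx (own t' ht' a ha x hx' (mem_inter.1 ((a1 a ha t ht).1 hx)).2)

end Pool.Agent.MP_35cb46_co.Nl
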