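import Mathlib.Analysis.Complex.ExponentialBounds
import Pool.Agent.MP_35cb46_co.nl.Spec
import Mathlib.Algebra.BigOperators.Field
import Mathlib.Analysis.SpecialFunctions.Log.Basic
import Pool.Agent.MP_35cb46_co.sq.Clus

-- ======== part 0: formerly Pool.Agent.MP_35cb46_co.nl.Abs
section MrgPart0

/-! PROJECT NL, row ABS: the remaining clusters are attached with small load. -/

noncomputable section

namespace Pool.Agent.MP_35cb46_co.Nl

open Finset Pool.Agent.MP_7be75d_co Pool.Agent.MP_35cb46_co.Sq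
open scoped Classical

namespace AbsP

/-- The averaging step. -/
theorem avg {ι : Type} (I : Finset ι) (a wt : ι → ℝ) {s δ : ℝ} (ha : ∀ j, 0 ≤ a j)
    (hw : ∀ j, 0 ≤ wt j) (hp : 0 < ∑ j ∈ I, wt j) (hδ : δ ≤ s * ∑ j ∈ I, wt j) :
    ∃ i ∈ I, 0 < wt i ∧ ∑ j ∈ I, a j * Real.exp (-(s * wt j)) +
      a i * Real.exp (-(s * wt i)) * δ ≤ ∑ j ∈ I, a j := by
  by_contra hc
  push Not at hc
  obtain ⟨i0, hI, hi0⟩ : ∃ i ∈ I, 0 < wt i := by
    by_contra h0
    push Not at h0
    exact absurd (sum_nonpos h0) (not_le.2 hp)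
  have h1 : ∑ i ∈ I, wt i * ∑ j ∈ I, a j < ∑ i ∈ I, wt i *
      (∑ j ∈ I, a j * Real.exp (-(s * wt j)) + a i * Real.exp (-(s * wt i)) * δ) := by
    refine sum_lt_sum (fun i hi => ?_) ⟨i0, hI, mul_lt_mul_of_pos_left (hc i0 hI hi0) hi0⟩
    rcases (hw i).eq_or_lt with e | e
    · rw [← e, zero_mul, zero_mul]
    · exact mul_le_mul_of_nonneg_left (hc i hi e).le e.le
  have h2 : ∑ i ∈ I, wt i *
      (∑ j ∈ I, a j * Real.exp (-(s * wt j)) + a i * Real.exp (-(s * wt i)) * δ) =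
      (∑ i ∈ I, wt i) * ∑ j ∈ I, a j * Real.exp (-(s * wt j)) +
        δ * ∑ i ∈ I, wt i * (a i * Real.exp (-(s * wt i))) := by
    rw [sum_mul, mul_sum _ _ δ, ← sum_add_distrib]
    exact sum_congr rfl fun i _ => by ring
  have h3 : 0 ≤ ∑ i ∈ I, wt i * (a i * Real.exp (-(s * wt i))) :=
    sum_nonneg fun i _ => mul_nonneg (hw i) (mul_nonneg (ha i) (Real.exp_pos _).le)
  have h4 : ∑ j ∈ I, a j * Real.exp (-(s * wt j)) +
      s * ∑ i ∈ I, wt i * (a i * Real.exp (-(s * wt i))) ≤ ∑ j ∈ I, a j := by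
    rw [mul_sum, ← sum_add_distrib]
    refine sum_le_sum fun i _ => ?_
    have b1 := Real.add_one_le_exp (s * wt i)
    have b2 : Real.exp (s * wt i) * Real.exp (-(s * wt i)) = 1 := by
      rw [← Real.exp_add, add_neg_cancel, Real.exp_zero]
    have b3 := mul_le_mul_of_nonneg_right b1 (Real.exp_pos (-(s * wt i))).le
    have b4 := mul_le_mul_of_nonneg_left (b3.trans b2.le) (ha i)
    linarith
  rw [h2, ← sum_mul] at h1
  have h5 := mul_le_mul_of_nonneg_right hδ h3
  have h6 := mul_le_mul_of_nonneg_left h4 hp.le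
  linarith

section Pot

variable {κ ι : Type}

/-- The points that are attached to the node `i`. -/
def cl (N Y : Finset κ) (nd : κ → ι) (i : ι) : Finset κ := (N \ Y).filter fun u => nd u = i

/-- The exponential potential. -/
def pot (w : κ → κ → ℕ) (b : κ → ℕ) (K B : ℕ) (N : Finset κ) (I : Finset ι) (Y : Finset κ)
    (nd : κ → ι) : ℝ :=
  ∑ i ∈ I, Real.exp ((ts b (cl N Y nd i) + 6 * K * cw w (cl N Y nd i) Y : ℕ) / (10 * B : ℝ))

variable {N Y : Finset κ} {nd : κ → ι} {v : κ}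

theorem mem_cl {i : ι} {u : κ} : u ∈ cl N Y nd i ↔ (u ∈ N ∧ u ∉ Y) ∧ nd u = i := by
  simp only [cl, mem_filter, mem_sdiff]

theorem mem_kept {PP O : Finset κ} {D : Finset (Finset κ)} {u : κ} :
    u ∈ kept PP D O ↔ (u ∈ PP ∧ u ∉ un D) ∨ u ∈ O := by
  simp only [kept, mem_union, mem_sdiff]

theorem mem_un {D : Finset (Finset κ)} {u : κ} : u ∈ un D ↔ ∃ Z ∈ D, u ∈ Z := by
  simp only [un, mem_biUnion, id]

theorem cl_ne (hv : v ∈ Y) {i j : ι} (h : j ≠ i) :
    cl N (Y.erase v) (Function.update nd v i) j = cl N Y nd j := by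
  ext u
  simp only [cl, mem_filter, mem_sdiff, mem_erase]
  by_cases e : u = v
  · subst e
    simp [hv, h.symm]
  · simp [e]

theorem cl_self (hv : v ∈ Y) (i : ι) :
    cl N (Y.erase v) (Function.update nd v i) i ⊆ {v} ∪ cl N Y nd i := by
  intro u
  simp only [cl, mem_filter, mem_sdiff, mem_erase, mem_union, mem_singleton]
  by_cases e : u = v
  · simp [e]
  · simp [e]

theorem ts_union_le (b : κ → ℕ) (A B : Finset κ) : ts b (A ∪ B) ≤ ts b A + ts b B := by
  have := sum_union_inter (s₁ := A) (s₂ := B) (f := b)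
  unfold ts
  omega

theorem ts_mono (b : κ → ℕ) {A B : Finset κ} (h : A ⊆ B) : ts b A ≤ ts b B :=
  sum_le_sum_of_subset h

/-- One point is attached without increasing the potential. -/
theorem step [inst : DecidableEq κ] {w : κ → κ → ℕ} {b : κ → ℕ} {K B : ℕ} {I : Finset ι}
    (hw : Sy w) (hYN : Y ⊆ N)
    (hnd : ∀ u ∈ N \ Y, nd u ∈ I) (hv : v ∈ Y) (h1 : 1 ≤ b v) (hB : b v ≤ B)
    (hK : b v ≤ K * cw w {v} N) (hs : 4 * K * cw w {v} Y ≤ b v) :
    ∃ u ∈ N \ Y, 0 < w u v ∧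
      pot w b K B N I (Y.erase v) (Function.update nd v (nd u)) ≤ pot w b K B N I Y nd := by
  obtain rfl : inst = fun a b => Classical.propDecidable (a = b) := Subsingleton.elim _ _
  have hb : (0 : ℝ) < 10 * B := by
    have : (1 : ℝ) ≤ B := by exact_mod_cast h1.trans hB
    linarith
  have e0 : ∑ j ∈ I, cw w (cl N Y nd j) {v} = cw w {v} (N \ Y) := by
    rw [cw_comm hw {v}]
    exact sum_fiberwise_of_maps_to hnd fun a => ∑ c ∈ ({v} : Finset κ), w a c
  have e1 : ∑ j ∈ I, cw w (cl N Y nd j) {v} + cw w {v} Y = cw w {v} N := by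
    rw [e0]
    exact cw_sdiff_right hYN
  have e2 : ∀ A, cw w A (Y.erase v) + cw w A {v} = cw w A Y := fun A => by
    rw [erase_eq]
    exact cw_sdiff_right (singleton_subset_iff.2 hv)
  obtain ⟨y, hy⟩ : ∃ y, y = K * cw w {v} Y := ⟨_, rfl⟩
  obtain ⟨z, hz⟩ : ∃ z, z = K * ∑ j ∈ I, cw w (cl N Y nd j) {v} := ⟨_, rfl⟩
  have f1 : 4 * y ≤ b v := by rw [hy, ← mul_assoc]; exact hs
  have f2 : b v ≤ z + y := by rw [hy, hz, ← mul_add, e1]; exact hK
  obtain ⟨x, hx⟩ : ∃ x : ℝ, x = ((b v + 6 * y : ℕ) : ℝ) / (10 * B) := ⟨_, rfl⟩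
  have x0 : 0 ≤ x := by rw [hx]; positivity
  have x1 : 2 * (x * (10 * B)) ≤ 5 * b v := by
    rw [hx, div_mul_cancel₀ _ hb.ne']
    exact_mod_cast (show 2 * (b v + 6 * y) ≤ 5 * b v by omega)
  have x2 : x ≤ 1 / 4 := by
    have : (b v : ℝ) ≤ B := by exact_mod_cast hB
    refine le_of_mul_le_mul_right ?_ hb
    linarith
  have x3 : Real.exp x - 1 ≤ 4 / 3 * x := by
    have a1 := Real.exp_bound_div_one_sub_of_interval x0 (by linarith)
    rw [le_div_iff₀ (by linarith)] at a1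
    have a2 := Real.exp_pos x
    by_contra a3
    nlinarith
  have x4 : (3 : ℝ) * b v ≤ 4 * (K * ∑ j ∈ I, (cw w (cl N Y nd j) {v} : ℝ)) := by
    have : 3 * b v ≤ 4 * z := by omega
    rw [hz] at this
    exact_mod_cast this
  have x5 : (1 : ℝ) ≤ b v := by exact_mod_cast h1
  obtain ⟨i, hI, hi, hs⟩ := avg I
    (fun j => Real.exp ((ts b (cl N Y nd j) + 6 * K * cw w (cl N Y nd j) Y : ℕ) / (10 * B : ℝ)))
    (fun j => (cw w (cl N Y nd j) {v} : ℝ)) (s := 6 * K / (10 * B)) (δ := Real.exp x - 1)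
    (fun _ => (Real.exp_pos _).le) (fun _ => Nat.cast_nonneg _)
    (by
      refine lt_of_le_of_ne (sum_nonneg fun _ _ => Nat.cast_nonneg _) fun e => ?_
      rw [← e] at x4
      linarith)
    (by
      rw [div_mul_eq_mul_div, le_div_iff₀ hb]
      have := mul_le_mul_of_nonneg_right x3 hb.le
      linarith)
  obtain ⟨a, ha, a', ha', hw'⟩ := exists_of_cw_pos (Nat.cast_pos.1 hi)
  obtain ⟨ha1, ha2⟩ := mem_filter.1 ha
  refine ⟨a, ha1, mem_singleton.1 ha' ▸ hw', le_trans ?_ hs⟩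
  rw [ha2]
  have e3 : ∀ j, Real.exp ((ts b (cl N Y nd j) + 6 * K * cw w (cl N Y nd j) (Y.erase v) : ℕ) /
      (10 * B : ℝ)) =
      Real.exp ((ts b (cl N Y nd j) + 6 * K * cw w (cl N Y nd j) Y : ℕ) / (10 * B : ℝ)) *
        Real.exp (-(6 * K / (10 * B) * (cw w (cl N Y nd j) {v} : ℝ))) := fun j => by
    rw [← Real.exp_add, ← e2 (cl N Y nd j)]
    congr 1
    push_cast
    field_simp
    ring
  rw [pot, ← add_sum_erase _ _ hI, ← add_sum_erase _ _ hI, add_right_comm]
  refine add_le_add ?_ (sum_le_sum fun j hj => ?_)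
  · rw [← mul_one_add, add_sub_cancel, ← e3, ← Real.exp_add, hx, ← add_div]
    refine Real.exp_le_exp.2 (div_le_div_of_nonneg_right ?_ hb.le)
    have a1 := (ts_mono b (cl_self (N := N) (nd := nd) hv i)).trans (ts_union_le b _ _)
    have a2 := (cw_mono (w := w) (cl_self (N := N) (nd := nd) hv i)
      (subset_rfl (a := Y.erase v))).trans cw_union_left_le
    have a3 : cw w {v} (Y.erase v) ≤ cw w {v} Y := cw_mono subset_rfl (erase_subset _ _)
    have a4 := Nat.mul_le_mul_left (6 * K) (a2.trans (Nat.add_le_add_right a3 _))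
    have a5 : ts b {v} = b v := sum_singleton _ _
    rw [mul_add, mul_assoc 6 K (cw w {v} Y), ← hy] at a4
    exact_mod_cast (show ts b (cl N (Y.erase v) (Function.update nd v i) i) +
      6 * K * cw w (cl N (Y.erase v) (Function.update nd v i) i) (Y.erase v) ≤
      ts b (cl N Y nd i) + 6 * K * cw w (cl N Y nd i) (Y.erase v) + (b v + 6 * y) by omega)
  · rw [cl_ne hv (mem_erase.1 hj).1, e3]

end Pot

section Graph

variable {V ι : Type} {G : SimpleGraph V} {W T₀ : Finset V} {PP : Finset (Finset V)}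
  {D : Finset (Finset (Finset V))} {O Y : Finset (Finset V)} {I : Finset ι} {S : ι → Finset V}
  {nd : Finset V → ι} {par : Finset (Finset V) → Finset ι} {p K B : ℕ}

theorem sy_ew (G : SimpleGraph V) : Sy (ew G) := fun a b => by
  unfold ew
  by_cases e : a = b
  · simp [e]
  · rw [if_neg e, if_neg (Ne.symm e), cw_comm aw_comm]

theorem part_sub (h : Sq.Part G W PP) {C : Finset V} (hC : C ∈ PP) : C ⊆ W := by
  rw [← h.un]
  exact subset_biUnion_of_mem id hC

/-- The edges to other clusters are boundary edges. -/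
theorem ew_le_bo (h : Sq.Part G W PP) {u : Finset V} (hu : u ∈ PP) (hY : Y ⊆ PP) :
    cw (ew G) {u} Y ≤ bo G W T₀ u := by
  have e1 : cw (ew G) {u} Y = ∑ v ∈ Y.erase u, cw (aw G) v u := by
    rw [cw, sum_singleton, ← sum_erase Y (a := u) (by simp [ew])]
    refine sum_congr rfl fun v hv => ?_
    rw [ew, if_neg (mem_erase.1 hv).1.symm, cw_comm aw_comm]
  have e2 : cw (aw G) ((Y.erase u).biUnion id) u = ∑ v ∈ Y.erase u, cw (aw G) v u :=
    cw_biUnion fun i hi j hj e => h.disj i (hY (mem_erase.1 hi).2) j (hY (mem_erase.1 hj).2) e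
  rw [e1, ← e2, cw_comm aw_comm]
  refine le_trans (cw_mono subset_rfl (biUnion_subset.2 fun v hv => ?_)) (Nat.le_add_right _ _)
  exact subset_sdiff.2 ⟨part_sub h (hY (mem_erase.1 hv).2),
    h.disj v (hY (mem_erase.1 hv).2) u hu (mem_erase.1 hv).1⟩

theorem kept_sub (h : Sit G W T₀ PP D O Y I S nd par p K B) : kept PP D O ⊆ PP := by
  intro u hu
  rcases mem_kept.1 hu with c | c
  · exact c.1
  · obtain ⟨Z, hZ, c'⟩ := mem_un.1 (h.osub c)
    exact (h.dsub Z hZ).1 c'

theorem sub_kept (h : Sit G W T₀ PP D O Y I S nd par p K B) : Y ⊆ kept PP D O :=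
  fun _ hu => mem_kept.2 (Or.inl (mem_sdiff.1 (h.ysub hu)))

/-- One cluster is absorbed. -/
theorem absorb (h : Sit G W T₀ PP D O Y I S nd par p K B)
    (hB : ts (bo G W T₀) (kept PP D O) ≤ B) {u v : Finset V} (hv : v ∈ Y)
    (hu : u ∈ kept PP D O \ Y) (he : 0 < ew G u v) :
    Sit G W T₀ PP D O (Y.erase v) I (Function.update S (nd u) (S (nd u) ∪ v))
      (Function.update nd v (nd u)) par p K B := by
  obtain ⟨hvP, hvD⟩ := mem_sdiff.1 (h.ysub hv)
  obtain ⟨hI, huS⟩ := h.ndm u hu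
  have sub : ∀ j, S j ⊆ Function.update S (nd u) (S (nd u) ∪ v) j := fun j => by
    by_cases e : j = nd u
    · rw [e, Function.update_self]
      exact subset_union_left
    · rw [Function.update_of_ne e]
  have key : ∀ j, ∀ x ∈ Function.update S (nd u) (S (nd u) ∪ v) j,
      x ∈ S j ∨ (x ∈ v ∧ j = nd u) := fun j x hx => by
    by_cases e : j = nd u
    · rw [e, Function.update_self] at hx
      rw [e]
      exact (mem_union.1 hx).imp_right fun h0 => ⟨h0, rfl⟩
    · rw [Function.update_of_ne e] at hx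
      exact Or.inl hx
  have ht : Touch G (S (nd u)) v := by
    unfold ew at he
    split_ifs at he with e
    · exact absurd he (lt_irrefl 0)
    obtain ⟨x, hx, y, hy, hxy⟩ := exists_of_cw_pos he
    refine ⟨x, huS hx, y, hy, ?_⟩
    by_contra hc
    simp [aw, hc] at hxy
  refine ⟨h.part, h.dsub, h.pd, h.osub, (erase_subset _ _).trans h.ysub,
    ⟨fun j hj x hx => ?_, fun j hj => ?_, fun j hj j' hj' e => disjoint_left.2 fun x h1 h2 => ?_⟩,
    fun j hj => (h.rich j hj).mono le_rfl (sub j) le_rfl,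
    fun j hj v' hv' => disjoint_left.2 fun x h1 h2 => ?_, fun u' hu' => ?_,
    fun j _ => le_trans (ts_mono _ ((filter_subset _ _).trans sdiff_subset)) hB, h.psub, h.pdisj,
    fun Z hZ u' hu' => ?_, fun Z hZ A hA C hc hh => h.pexp Z hZ A hA C hc fun i hi j hj ht' =>
      hh i hi j hj (ht'.mono (sub i) (sub j)), h.pvol⟩
  · rcases key j x hx with c | ⟨c, -⟩
    · exact h.fam.sub j hj c
    · exact part_sub h.part hvP c
  · by_cases e : j = nd u
    · rw [e, Function.update_self]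
      exact (h.fam.conn _ hI).union_touch (h.part.conn v hvP) ht
    · rw [Function.update_of_ne e]
      exact h.fam.conn j hj
  · rcases key j x h1 with c1 | ⟨c1, c2⟩ <;> rcases key j' x h2 with c3 | ⟨c3, c4⟩
    · exact disjoint_left.1 (h.fam.disj j hj j' hj' e) c1 c3
    · exact disjoint_left.1 (h.sy j hj v hv) c1 c3
    · exact disjoint_left.1 (h.sy j' hj' v hv) c3 c1
    · exact e (c2.trans c4.symm)
  · obtain ⟨e, hv''⟩ := mem_erase.1 hv'
    rcases key j x h1 with c | ⟨c, -⟩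
    · exact disjoint_left.1 (h.sy j hj v' hv'') c h2
    · exact disjoint_left.1 (h.part.disj v hvP v' (mem_sdiff.1 (h.ysub hv'')).1 e.symm) c h2
  · by_cases e : u' = v
    · rw [e, Function.update_self, Function.update_self]
      exact ⟨hI, subset_union_right⟩
    · rw [Function.update_of_ne e]
      obtain ⟨c1, c2⟩ := mem_sdiff.1 hu'
      obtain ⟨c3, c4⟩ := h.ndm u' (mem_sdiff.2 ⟨c1, fun c => c2 (mem_erase.2 ⟨e, c⟩)⟩)
      exact ⟨c3, c4.trans (sub _)⟩
  · have e : u' ≠ v := fun e => hvD (e ▸ h.osub (mem_inter.1 hu').1)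
    rw [Function.update_of_ne e]
    exact h.pnd Z hZ u' hu'

/-- All clusters are absorbed. -/
theorem grow {K' Bm : ℕ} (hB : ts (bo G W T₀) (kept PP D O) ≤ B) (Y : Finset (Finset V)) :
    (∀ v ∈ Y, 1 ≤ bo G W T₀ v ∧ bo G W T₀ v ≤ Bm ∧
      bo G W T₀ v ≤ K' * cw (ew G) {v} (kept PP D O)) →
    (∀ A ⊆ Y, 4 * K' * cw (ew G) A A ≤ ts (bo G W T₀) A) →
    ∀ (S : ι → Finset V) (nd : Finset V → ι), Sit G W T₀ PP D O Y I S nd par p K B →
      ∃ (S' : ι → Finset V) (nd' : Finset V → ι), Sit G W T₀ PP D O ∅ I S' nd' par p K B ∧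
        pot (ew G) (bo G W T₀) K' Bm (kept PP D O) I ∅ nd' ≤
          pot (ew G) (bo G W T₀) K' Bm (kept PP D O) I Y nd := by
  induction Y using Finset.strongInduction with
  | H Y ih =>
  intro h1 h2 S nd h
  rcases Y.eq_empty_or_nonempty with rfl | hne
  · exact ⟨S, nd, h, le_rfl⟩
  obtain ⟨v, hv, hs⟩ : ∃ v ∈ Y, 4 * K' * cw (ew G) {v} Y ≤ bo G W T₀ v := by
    refine exists_le_of_sum_le hne ?_
    rw [← mul_sum, ← cw_eq_sum]
    exact h2 Y subset_rfl
  obtain ⟨c1, c2, c3⟩ := h1 v hv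
  obtain ⟨u, hu, he, hp⟩ := step (I := I) (nd := nd) (sy_ew G) (sub_kept h)
    (fun u hu => (h.ndm u hu).1) hv c1 c2 c3 hs
  obtain ⟨S', nd', b1, b2⟩ := ih (Y.erase v) (erase_ssubset hv)
    (fun x hx => h1 x (mem_erase.1 hx).2) (fun A hA => h2 A (hA.trans (erase_subset _ _))) _ _
    (absorb h hB hv hu he)
  exact ⟨S', nd', b1, b2.trans hp⟩

theorem card_le [Fintype V] (h : Fam G W I S) : I.card ≤ Fintype.card V := by
  have h1 : (I.biUnion S).card = ∑ i ∈ I, (S i).card := card_biUnion h.disj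
  have h2 : ∑ _i ∈ I, 1 ≤ ∑ i ∈ I, (S i).card := sum_le_sum fun i hi => (h.conn i hi).1.card_pos
  have h3 := card_le_univ (I.biUnion S)
  simp only [sum_const, smul_eq_mul, mul_one] at h2
  omega

end Graph

end AbsP

open AbsP in
theorem abs : AbsStmt := by
  intro V ι _ G W T₀ PP D O Y I S nd par p K K' Bm Λ _ hΛ hK hBm h h1 h2
  have h0 : Sit G W T₀ PP D O Y I S nd par p K (ts (bo G W T₀) (kept PP D O) + Bm) :=
    { h with
      load := fun i hi => (h.load i hi).trans (Nat.le_add_left _ _)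
      pvol := fun Z hZ => (h.pvol Z hZ).trans (Nat.mul_le_mul_right _ (Nat.le_add_left _ _)) }
  obtain ⟨S', nd', b1, b2⟩ := grow (Nat.le_add_right _ _) Y h1 h2 S nd h0
  have hle : 7 * K' * Bm + 10 * Bm * Λ ≤ 20 * K' * (Λ + 1) * Bm := by
    have a1 : Bm * Λ ≤ K' * (Bm * Λ) := Nat.le_mul_of_pos_left _ hK
    have a2 : 20 * K' * (Λ + 1) * Bm = 20 * (K' * (Bm * Λ)) + 20 * (K' * Bm) := by ring
    rw [a2, mul_assoc 7, mul_assoc 10]
    omega
  refine ⟨S', nd', { b1 with
    load := fun j hj => le_trans ?_ hle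
    pvol := fun Z hZ => (h.pvol Z hZ).trans (Nat.mul_le_mul_right _ (le_trans ?_ hle)) }⟩
  · have hb : (0 : ℝ) < 10 * Bm := by
      have : (1 : ℝ) ≤ Bm := by exact_mod_cast hBm
      linarith
    have c1 : Real.exp ((ts (bo G W T₀) (cl (kept PP D O) ∅ nd' j) : ℝ) / (10 * Bm)) ≤
        pot (ew G) (bo G W T₀) K' Bm (kept PP D O) I ∅ nd' := by
      refine le_trans (le_of_eq ?_) (single_le_sum (fun _ _ => (Real.exp_pos _).le) hj)
      simp [cw]
    have c2 : pot (ew G) (bo G W T₀) K' Bm (kept PP D O) I Y nd ≤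
        I.card * Real.exp ((7 * K' * Bm : ℝ) / (10 * Bm)) := by
      refine (sum_le_card_nsmul _ _ (Real.exp ((7 * K' * Bm : ℝ) / (10 * Bm))) fun i hi => ?_).trans
        (le_of_eq (by simp))
      refine Real.exp_le_exp.2 (div_le_div_of_nonneg_right ?_ hb.le)
      have a1 : ts (bo G W T₀) (cl (kept PP D O) Y nd i) ≤ Bm :=
        le_trans (ts_mono _ fun u hu => mem_filter.2
          ⟨mem_sdiff.2 (mem_cl.1 hu).1, (mem_cl.1 hu).2⟩) (h.load i hi)
      have a2 : cw (ew G) (cl (kept PP D O) Y nd i) Y ≤ ts (bo G W T₀) (cl (kept PP D O) Y nd i) := by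
        rw [cw_eq_sum]
        exact sum_le_sum fun u hu => ew_le_bo h.part
          (kept_sub h (mem_cl.1 hu).1.1) (h.ysub.trans sdiff_subset)
      have a3 := Nat.mul_le_mul_left (6 * K') (a2.trans a1)
      have a4 : Bm ≤ K' * Bm := Nat.le_mul_of_pos_left _ hK
      have a5 : ts (bo G W T₀) (cl (kept PP D O) Y nd i) +
          6 * K' * cw (ew G) (cl (kept PP D O) Y nd i) Y ≤ 7 * K' * Bm := by
        rw [mul_assoc 6 K' Bm] at a3
        rw [mul_assoc 7]
        omega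
      exact_mod_cast a5
    have c3 : (I.card : ℝ) ≤ Real.exp Λ := by
      have a0 := card_le h.fam
      have a1 : (I.card : ℝ) ≤ 2 ^ Λ := by exact_mod_cast (show I.card ≤ 2 ^ Λ by omega)
      have a2 : (2 : ℝ) ≤ Real.exp 1 := by linarith [Real.add_one_le_exp 1]
      rw [← mul_one (Λ : ℝ), Real.exp_nat_mul]
      exact a1.trans (pow_le_pow_left₀ (by norm_num) a2 Λ)
    have c4 := (c1.trans (b2.trans c2)).trans
      (mul_le_mul_of_nonneg_right c3 (Real.exp_pos _).le)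
    rw [← Real.exp_add, Real.exp_le_exp, div_le_iff₀ hb, add_mul, div_mul_cancel₀ _ hb.ne'] at c4
    have c5 : (ts (bo G W T₀) (cl (kept PP D O) ∅ nd' j) : ℝ) ≤ 7 * K' * Bm + 10 * Bm * Λ := by
      linarith
    refine le_trans (ts_mono _ (B := cl (kept PP D O) ∅ nd' j) fun u hu => mem_cl.2
      ⟨mem_sdiff.1 (mem_filter.1 hu).1, (mem_filter.1 hu).2⟩) ?_
    exact_mod_cast c5
  · have a4 : Bm ≤ K' * Bm := Nat.le_mul_of_pos_left _ hK
    rw [mul_assoc 7]
    omega

end Pool.Agent.MP_35cb46_co.Nl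

end
end MrgPart0

-- ======== part 1: formerly Pool.Agent.MP_35cb46_co.nl.Cher
section MrgPart1

/-! PROJECT NL, row CHER: Chernoff bounds for a random colour class, and fibred events. -/

noncomputable section

namespace Pool.Agent.MP_35cb46_co.Nl

open Finset Pool.Agent.MP_7be75d_co Pool.Agent.MP_35cb46_co.Sq
open scoped Classical

namespace CherP

theorem moment {κ : Type} [Fintype κ] (y : κ → ℝ) {C : ℕ} {r θ : ℝ} (t : Fin C)
    (hy : ∀ a, 0 ≤ y a ∧ y a ≤ r) (hθ : |θ| * r ≤ 1) :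
    ∑ c : κ → Fin C, Real.exp (θ * ∑ a ∈ univ.filter fun a => c a = t, y a) ≤
      Real.exp ((θ + θ ^ 2 * r) * (∑ a, y a) / C) * (C : ℝ) ^ Fintype.card κ := by
  have hC : (0 : ℝ) < C := by exact_mod_cast t.pos
  have e : ∀ c : κ → Fin C, Real.exp (θ * ∑ a ∈ univ.filter fun a => c a = t, y a) =
      ∏ a, Real.exp (if c a = t then θ * y a else 0) := fun c => by
    rw [← Real.exp_sum, mul_sum, sum_filter]
  simp only [e]
  rw [← Fintype.piFinset_univ, ← prod_univ_sum (fun _ => univ)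
    fun a j => Real.exp (if j = t then θ * y a else 0), mul_sum, sum_div, Real.exp_sum,
    ← card_univ, ← prod_const, ← prod_mul_distrib]
  refine prod_le_prod (fun a _ => sum_nonneg fun _ _ => (Real.exp_pos _).le) fun a _ => ?_
  have e2 : ∑ j : Fin C, Real.exp (if j = t then θ * y a else 0) =
      C + (Real.exp (θ * y a) - 1) := by
    have : ∀ j : Fin C, Real.exp (if j = t then θ * y a else 0) =
        1 + if j = t then Real.exp (θ * y a) - 1 else 0 := fun j => by
      split_ifs <;> simp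
    simp [this, sum_add_distrib]
  have h1 : |θ * y a| ≤ 1 := by
    rw [abs_mul, abs_of_nonneg (hy a).1]
    exact (mul_le_mul_of_nonneg_left (hy a).2 (abs_nonneg _)).trans hθ
  have h2 := (abs_le.1 (Real.abs_exp_sub_one_sub_id_le h1)).2
  have h3 := Real.add_one_le_exp ((θ + θ ^ 2 * r) * y a / C)
  have h4 : (θ * y a) ^ 2 ≤ θ ^ 2 * r * y a := by
    have := mul_le_mul_of_nonneg_right (hy a).2 (hy a).1
    nlinarith [sq_nonneg θ]
  rw [e2]
  calc (C : ℝ) + (Real.exp (θ * y a) - 1) ≤ ((θ + θ ^ 2 * r) * y a / C + 1) * C := by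
        rw [add_mul, div_mul_cancel₀ _ hC.ne']; linarith
    _ ≤ _ := by gcongr

theorem tail {κ : Type} [Fintype κ] (y : κ → ℝ) {C : ℕ} {r θ s : ℝ} (t : Fin C)
    (hy : ∀ a, 0 ≤ y a ∧ y a ≤ r) (hθ : |θ| * r ≤ 1) (A : Finset (κ → Fin C))
    (hA : ∀ c ∈ A, (θ + θ ^ 2 * r) * (∑ a, y a) / C - s ≤
      θ * ∑ a ∈ univ.filter fun a => c a = t, y a) :
    (A.card : ℝ) ≤ Real.exp s * (C : ℝ) ^ Fintype.card κ := by
  have h1 : (A.card : ℝ) * Real.exp ((θ + θ ^ 2 * r) * (∑ a, y a) / C - s) ≤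
      ∑ c : κ → Fin C, Real.exp (θ * ∑ a ∈ univ.filter fun a => c a = t, y a) := by
    rw [← nsmul_eq_mul]
    exact (card_nsmul_le_sum A _ _ fun c hc => Real.exp_le_exp.2 (hA c hc)).trans
      (sum_le_sum_of_subset_of_nonneg (subset_univ _) fun _ _ _ => (Real.exp_pos _).le)
  have h2 := h1.trans (moment y t hy hθ)
  refine le_of_mul_le_mul_right (h2.trans (le_of_eq ?_))
    (Real.exp_pos ((θ + θ ^ 2 * r) * (∑ a, y a) / C - s))
  rw [mul_right_comm, ← Real.exp_add]
  congr 2; ring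

end CherP

theorem cher : CherStmt := by
  intro κ _ y C H r t hr hH hy
  have hC : (0 : ℝ) < C := by exact_mod_cast t.pos
  have hH1 : (1 : ℝ) ≤ H := by exact_mod_cast hH
  have hH0 : (0 : ℝ) < H := by linarith
  have hθ : 1 / (2 * H * r) * r ≤ 1 := by
    rw [div_mul_eq_mul_div, div_le_one (by positivity)]; nlinarith
  have hp : (0 : ℝ) < 1 / (2 * H * r) := by positivity
  constructor
  · refine CherP.tail y (θ := -(1 / (2 * H * r))) t hy (by rwa [abs_neg, abs_of_pos hp]) _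
      fun c hc => ?_
    have h1 := (mem_filter.1 hc).2
    set S := ∑ a, y a
    set X := ∑ a ∈ univ.filter fun a => c a = t, y a
    have e : (-(1 / (2 * H * r)) + (-(1 / (2 * H * r))) ^ 2 * r) * S / C -
        -S / (4 * (H : ℝ) ^ 2 * C * r) = -(1 / (2 * H * r)) * ((H - 1) * S / (H * C)) := by
      field_simp; ring
    rw [e, neg_mul, neg_mul, neg_le_neg_iff]
    gcongr
    rw [le_div_iff₀ (by positivity)]; linarith
  · refine CherP.tail y (θ := 1 / (2 * H * r)) t hy (by rwa [abs_of_pos hp]) _ fun c hc => ?_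
    have h1 := (mem_filter.1 hc).2
    set S := ∑ a, y a
    set X := ∑ a ∈ univ.filter fun a => c a = t, y a
    have e : (1 / (2 * H * r) + (1 / (2 * H * r)) ^ 2 * r) * S / C -
        -S / (4 * (H : ℝ) ^ 2 * C * r) = 1 / (2 * H * r) * ((H + 1) * S / (H * C)) := by
      field_simp; ring
    rw [e]
    gcongr
    rw [div_le_iff₀ (by positivity)]; linarith

theorem fib : FibStmt := by
  intro κ _ C I E M hM hE hb
  let φ : (κ → Fin C) × (κ → Fin C) → (κ → Fin C) × (κ → Fin C) := fun p =>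
    (fun a => if a ∈ I then p.2 a else p.1 a, fun a => if a ∈ I then p.1 a else p.2 a)
  have hφ : Function.Involutive φ := fun p => by
    ext a <;> by_cases h : a ∈ I <;> simp [φ, h]
  have h1 : ∑ p : (κ → Fin C) × (κ → Fin C), (if E p.1 p.1 then (1 : ℝ) else 0) ≤
      ∑ p : (κ → Fin C) × (κ → Fin C), (if E p.1 p.2 then (1 : ℝ) else 0) := by
    rw [← Equiv.sum_comp hφ.toPerm]
    refine sum_le_sum fun p _ => ?_
    by_cases h : E (φ p).1 (φ p).1
    · rw [if_pos (hE _ p.1 _ p.2 (fun a ha => if_neg ha) (fun a ha => if_pos ha) h)]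
      split_ifs <;> norm_num
    · rw [Function.Involutive.coe_toPerm, if_neg h]
      split_ifs <;> norm_num
  rw [Fintype.sum_prod_type_right, Fintype.sum_prod_type] at h1
  simp only [sum_boole] at h1
  have h2 := h1.trans (sum_le_sum fun c₀ _ => hb c₀)
  rw [sum_const, sum_const, nsmul_eq_mul, nsmul_eq_mul] at h2
  rcases Nat.eq_zero_or_pos (univ : Finset (κ → Fin C)).card with h | h
  · have := (card_filter_le univ fun c => E c c).trans h.le
    rw [Nat.le_zero.1 this]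
    simpa using hM
  · exact le_of_mul_le_mul_left h2 (by exact_mod_cast h)

end Pool.Agent.MP_35cb46_co.Nl

end
end MrgPart1

-- ======== part 2: formerly Pool.Agent.MP_35cb46_co.nl.Clus
section MrgPart2

/-! Row CLUS: a clustering that minimises a convex potential. -/

noncomputable section

namespace Pool.Agent.MP_35cb46_co.Nl

open Finset Pool.Agent.MP_7be75d_co Pool.Agent.MP_35cb46_co.Sq
open scoped Classical

namespace ClusP

/-- the potential -/
def pf (N x : ℕ) : ℝ := x * (N + Real.log x)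

theorem lg_nonneg (x : ℕ) : 0 ≤ Real.log x := Real.log_natCast_nonneg x

theorem lg_mono {x y : ℕ} (h : x ≤ y) : Real.log x ≤ Real.log y := by
  rcases Nat.eq_zero_or_pos x with rfl | hx
  · simpa using lg_nonneg y
  · exact Real.log_le_log (by exact_mod_cast hx) (by exact_mod_cast h)

theorem lg_le {x Λ : ℕ} (h : x < 2 ^ Λ) : Real.log x ≤ Λ := by
  have h1 := lg_mono h.le
  have h2 : Real.log 2 ≤ 1 := by linarith [Real.log_le_sub_one_of_pos (show (0 : ℝ) < 2 by norm_num)]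
  rw [Nat.cast_pow, Real.log_pow, Nat.cast_ofNat] at h1
  nlinarith [Nat.cast_nonneg (α := ℝ) Λ]

theorem pf_nonneg (N x : ℕ) : 0 ≤ pf N x := mul_nonneg (by positivity) (by
  have := lg_nonneg x
  positivity)

theorem lg_sub {x y : ℕ} (hx : 0 < x) (hy : 0 < y) : Real.log x - Real.log y ≤ x / y - 1 := by
  have hx' : (0 : ℝ) < x := by exact_mod_cast hx
  have hy' : (0 : ℝ) < y := by exact_mod_cast hy
  rw [← Real.log_div hx'.ne' hy'.ne']
  exact Real.log_le_sub_one_of_pos (by positivity)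

theorem split_ineq {A Λ x y e : ℕ} (hA : 1 ≤ A) (hΛ : 1 ≤ Λ) (hxy : x ≤ y) (hg : x + y < 2 ^ Λ)
    (hx : 14 * A * Λ * e < x)
    (h : pf (A * Λ) (x + y) ≤ pf (A * Λ) (x + e) + pf (A * Λ) (y + e)) : False := by
  have hN : Λ ≤ A * Λ := Nat.le_mul_of_pos_left _ hA
  rw [mul_assoc 14] at hx
  generalize A * Λ = N at *
  have he : 14 * e ≤ x := by nlinarith
  have h1 := lg_mono (show y + e ≤ x + y by omega)
  have h2 := lg_sub (show 0 < x + e by omega) (show 0 < x + y by omega)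
  have h3 := lg_le hg
  have h4 : ((x + e : ℕ) : ℝ) / (x + y : ℕ) ≤ 3 / 5 := by
    rw [div_le_div_iff₀ (by exact_mod_cast (show 0 < x + y by omega)) (by norm_num)]
    exact_mod_cast (show (x + e) * 5 ≤ 3 * (x + y) by omega)
  unfold pf at h
  generalize Real.log (x + y : ℕ) = L at *
  generalize Real.log (x + e : ℕ) = L1 at *
  generalize Real.log (y + e : ℕ) = L2 at *
  have hx' : 14 * (N : ℝ) * e < x := by exact_mod_cast hx
  have hN' : (Λ : ℝ) ≤ N := by exact_mod_cast hN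
  push_cast at h
  have x0 := Nat.cast_nonneg (α := ℝ) x
  have y0 := Nat.cast_nonneg (α := ℝ) y
  have e0 := Nat.cast_nonneg (α := ℝ) e
  have n0 := Nat.cast_nonneg (α := ℝ) N
  have a1 := mul_le_mul_of_nonneg_left h1 (add_nonneg y0 e0)
  have a2 := mul_le_mul_of_nonneg_left (show L1 ≤ L - 2 / 5 by linarith) (add_nonneg x0 e0)
  have a3 := mul_le_mul_of_nonneg_left (h3.trans hN') e0
  nlinarith [mul_nonneg n0 e0]

theorem thin_ineq {A Λ x y e u : ℕ} (hΛ : 1 ≤ Λ) (hx : 1 ≤ x) (hy : 1 ≤ y) (hg : x + y < 2 ^ Λ)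
    (hu : u + 2 * e = x + y) (h : pf (A * Λ) x + pf (A * Λ) y ≤ pf (A * Λ) u) : A * e ≤ x := by
  have h1 := lg_mono (show u ≤ x + y by omega)
  have h2 := lg_sub (show 0 < x + y by omega) hy
  have h3 := lg_le hg
  have h4 := lg_nonneg x
  have h5 := lg_nonneg (x + y)
  have hy' : (0 : ℝ) < y := by exact_mod_cast hy
  have h6 : (y : ℝ) * (Real.log (x + y : ℕ) - Real.log y) ≤ x := by
    refine (mul_le_mul_of_nonneg_left h2 hy'.le).trans (le_of_eq ?_)
    push_cast
    field_simp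
    ring
  unfold pf at h
  generalize Real.log (x + y : ℕ) = L at *
  generalize Real.log x = L1 at *
  generalize Real.log y = L2 at *
  generalize Real.log u = L3 at *
  have hu' : (u : ℝ) = x + y - 2 * e := by
    have : (u : ℝ) + 2 * e = x + y := by exact_mod_cast hu
    linarith
  have x0 := Nat.cast_nonneg (α := ℝ) x
  have e0 := Nat.cast_nonneg (α := ℝ) e
  have hΛ' : (1 : ℝ) ≤ Λ := by exact_mod_cast hΛ
  have a1 := mul_le_mul_of_nonneg_left h1 (Nat.cast_nonneg (α := ℝ) u)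
  have a2 := mul_le_mul_of_nonneg_left h3 x0
  have a3 := mul_le_mul_of_nonneg_left hΛ' x0
  push_cast at h
  have : (A : ℝ) * e * Λ ≤ x * Λ := by
    rw [hu'] at h a1
    nlinarith [mul_nonneg x0 h4, mul_nonneg e0 h5]
  exact_mod_cast le_of_mul_le_mul_right this (by linarith)

variable {V : Type} {G : SimpleGraph V} {X T C S : Finset V} {PP W W' : Finset (Finset V)}
  {g : ℕ}

theorem mem_un {v : V} : v ∈ un W ↔ ∃ C ∈ W, v ∈ C := by simp [un]

theorem bo_sub (hS : S ⊆ C) (hC : C ⊆ X) :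
    bo G X T S = ts (bw G X T C) S + cw (aw G) S (C \ S) := by
  have h : X \ S = (X \ C) ∪ (C \ S) := by
    ext v
    have := @hS v
    have := @hC v
    simp only [mem_sdiff, mem_union]
    tauto
  rw [bo, out, h, cw_union_right (disjoint_sdiff_self_left.mono_right sdiff_subset),
    cw_eq_sum S (X \ C)]
  simp only [ts, bw, sum_add_distrib]
  ring

theorem bo_pos (hX : Conn G X) (hT : T ⊆ X) (hT' : T.Nonempty) (hC : C ⊆ X) (hC' : C.Nonempty) :
    1 ≤ bo G X T C := by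
  by_contra h
  have h0 : cw (aw G) C (X \ C) + ts (ind T) C = 0 := by
    simpa only [bo, out, not_le, Nat.lt_one_iff] using h
  obtain ⟨t, ht⟩ := hT'
  obtain ⟨v, hv⟩ := hC'
  by_cases htC : t ∈ C
  · have := sum_eq_zero_iff.1 (show ts (ind T) C = 0 by omega) t htC
    simp [ind, ht] at this
  · obtain ⟨x, y, h1, h2, -, h4, h5⟩ := hX.exit (hC hv) hv (hT ht) htC
    have := cw_eq_zero.1 (show cw (aw G) C (X \ C) = 0 by omega) x h1 y (mem_sdiff.2 ⟨h4, h2⟩)
    simp [aw, h5] at this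

theorem cw_un (h : PD W) (h' : PD W') :
    cw (aw G) (un W) (un W') = ∑ C ∈ W, ∑ C' ∈ W', cw (aw G) C C' := by
  rw [un, cw_biUnion (S := id) h]
  refine sum_congr rfl fun C _ => ?_
  rw [cw_comm aw_comm, un, cw_biUnion (S := id) h']
  exact sum_congr rfl fun C' _ => cw_comm aw_comm _ _

theorem out_eq {κ : Type} [i : DecidableEq κ] (w : κ → κ → ℕ) (τ : κ → ℕ) (X W : Finset κ) :
    out w τ X W = cw w W (X \ W) + ts τ W := by
  obtain rfl : i = fun a b => Classical.propDecidable (a = b) := Subsingleton.elim _ _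
  rfl

theorem cw_sd {κ : Type} [i : DecidableEq κ] (w : κ → κ → ℕ) (A : Finset κ) {X W : Finset κ}
    (h : W ⊆ X) : cw w A (X \ W) + cw w A W = cw w A X := by
  obtain rfl : i = fun a b => Classical.propDecidable (a = b) := Subsingleton.elim _ _
  exact cw_sdiff_right (w := w) (A := A) h

theorem pd_mono (h : PD PP) (hW : W ⊆ PP) : PD W := fun Z hZ Z' hZ' => h Z (hW hZ) Z' (hW hZ')

theorem bo_un (h : PD PP) (hX : un PP = X) (hW : W ⊆ PP) :
    bo G X T (un W) = out (ew G) (ts (ind T)) PP W := by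
  have h1 : X \ un W = un (PP \ W) := by
    ext v
    simp only [← hX, mem_sdiff, mem_un]
    constructor
    · rintro ⟨⟨C, hC, hv⟩, h2⟩
      exact ⟨C, ⟨hC, fun hc => h2 ⟨C, hc, hv⟩⟩, hv⟩
    · rintro ⟨C, ⟨hC, hc⟩, hv⟩
      refine ⟨⟨C, hC, hv⟩, ?_⟩
      rintro ⟨C', hC', hv'⟩
      exact disjoint_left.1 (h C hC C' (hW hC') fun e => hc (e ▸ hC')) hv hv'
  rw [bo, out, out_eq, h1, cw_un (pd_mono h hW) (pd_mono h sdiff_subset)]
  congr 1
  · refine sum_congr rfl fun C hC => sum_congr rfl fun C' hC' => ?_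
    rw [ew, if_neg fun e : C = C' => (mem_sdiff.1 hC').2 (e ▸ hC)]
  · exact sum_biUnion (pd_mono h hW)

theorem ts_bo (h : PD PP) (hX : un PP = X) (hW : W ⊆ PP) :
    ts (bo G X T) W = bo G X T (un W) + cw (ew G) W W := by
  have h1 : ∀ C ∈ W, bo G X T C = cw (ew G) {C} PP + ts (ind T) C := fun C hC => by
    have h2 := bo_un (G := G) (T := T) h hX (singleton_subset_iff.2 (hW hC))
    have h3 := cw_sd (ew G) {C} (singleton_subset_iff.2 (hW hC))
    have h4 : cw (ew G) {C} {C} = 0 := by simp [cw, ew]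
    have h5 : un {C} = C := by simp [un]
    rw [h5, out_eq, ts, sum_singleton] at h2
    omega
  rw [bo_un h hX hW, ts, sum_congr rfl h1, sum_add_distrib, ← cw_eq_sum, out_eq,
    ← cw_sd _ W hW, ts]
  ring

/-- the admissible partitions of `U` -/
structure Ok (G : SimpleGraph V) (X T : Finset V) (g : ℕ) (U : Finset V)
    (PP : Finset (Finset V)) : Prop where
  ne : ∀ C ∈ PP, C.Nonempty
  le : ∀ C ∈ PP, bo G X T C ≤ g
  pd : PD PP
  un : un PP = U

theorem Ok.repl (h : Ok G X T g X PP) (hW : W ⊆ PP) (h' : Ok G X T g (Nl.un W) W') :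
    Ok G X T g X ((PP \ W) ∪ W') := by
  have key : ∀ C ∈ PP \ W, ∀ C' ∈ W', Disjoint C C' := fun C hC C' hC' =>
    disjoint_left.2 fun v hv hv' => by
      obtain ⟨D, hD, hvD⟩ := mem_un.1 (h'.un ▸ mem_un.2 ⟨C', hC', hv'⟩ : v ∈ Nl.un W)
      exact disjoint_left.1 (h.pd C (mem_sdiff.1 hC).1 D (hW hD)
        fun e => (mem_sdiff.1 hC).2 (e ▸ hD)) hv hvD
  refine ⟨fun C hC => ?_, fun C hC => ?_, fun C hC C' hC' hne => ?_, ?_⟩
  · exact (mem_union.1 hC).elim (fun hC => h.ne C (mem_sdiff.1 hC).1) (h'.ne C)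
  · exact (mem_union.1 hC).elim (fun hC => h.le C (mem_sdiff.1 hC).1) (h'.le C)
  · rcases mem_union.1 hC with hC | hC <;> rcases mem_union.1 hC' with hC' | hC'
    · exact h.pd C (mem_sdiff.1 hC).1 C' (mem_sdiff.1 hC').1 hne
    · exact key C hC C' hC'
    · exact (key C' hC' C hC).symm
    · exact h'.pd C hC C' hC' hne
  · have e : ∀ A B : Finset (Finset V), Nl.un (A ∪ B) = Nl.un A ∪ Nl.un B := fun A B => by
      simp only [Nl.un, union_biUnion]
    rw [e, h'.un, ← e, sdiff_union_of_subset hW, h.un]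

theorem exists_opt [Fintype V] (hd : Deg G univ 6) (hg : 7 ≤ g) (N : ℕ) :
    ∃ PP, Ok G X T g X PP ∧ ∀ W ⊆ PP, ∀ W', Ok G X T g (un W) W' →
      ∑ C ∈ W, pf N (bo G X T C) ≤ ∑ C ∈ W', pf N (bo G X T C) := by
  have h0 : Ok G X T g X (X.image fun v => {v}) := by
    refine ⟨fun C hC => ?_, fun C hC => ?_, fun C hC C' hC' hne => ?_, ?_⟩
    · obtain ⟨v, -, rfl⟩ := mem_image.1 hC
      simp
    · obtain ⟨v, -, rfl⟩ := mem_image.1 hC
      have h1 := hd.cw_le (subset_univ {v}) (subset_univ (X \ {v}))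
      have h2 : ts (ind T) {v} ≤ 1 := by
        rw [ts, sum_singleton, ind]
        split_ifs <;> simp
      rw [card_singleton] at h1
      rw [bo, out]
      omega
    · obtain ⟨v, -, rfl⟩ := mem_image.1 hC
      obtain ⟨v', -, rfl⟩ := mem_image.1 hC'
      simpa using hne
    · ext v
      simp [mem_un]
  obtain ⟨PP, h1, h2⟩ := exists_min_image (univ.filter (Ok G X T g X))
    (fun PP => ∑ C ∈ PP, pf N (bo G X T C)) ⟨_, mem_filter.2 ⟨mem_univ _, h0⟩⟩
  have h3 := (mem_filter.1 h1).2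
  refine ⟨PP, h3, fun W hW W' hW' => ?_⟩
  have h4 := h2 _ (mem_filter.2 ⟨mem_univ _, h3.repl hW hW'⟩)
  have h5 := sum_union_inter (s₁ := PP \ W) (s₂ := W') (f := fun C => pf N (bo G X T C))
  have h6 := sum_sdiff (f := fun C => pf N (bo G X T C)) hW
  have h7 : 0 ≤ ∑ C ∈ (PP \ W) ∩ W', pf N (bo G X T C) := sum_nonneg fun _ _ => pf_nonneg _ _
  linarith

end ClusP

open ClusP in
theorem clu : CluStmt := by
  intro V _ G X T g A Λ hd hX hT hT' hg hΛ hA
  have hΛ1 : 1 ≤ Λ := by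
    rcases Nat.eq_zero_or_pos Λ with rfl | h
    · omega
    · exact h
  obtain ⟨PP, h, opt⟩ := exists_opt (X := X) (T := T) hd hg (A * Λ)
  have sub : ∀ C ∈ PP, C ⊆ X := fun C hC v hv => h.un ▸ mem_un.2 ⟨C, hC, hv⟩
  have pos : ∀ C ∈ PP, 1 ≤ bo G X T C := fun C hC => bo_pos hX hT hT' (sub C hC) (h.ne C hC)
  have merge : ∀ W ⊆ PP, W.Nonempty → bo G X T (un W) ≤ g →
      ∑ C ∈ W, pf (A * Λ) (bo G X T C) ≤ pf (A * Λ) (bo G X T (un W)) := fun W hW hne hle => by
    obtain ⟨C, hC⟩ := hne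
    obtain ⟨v, hv⟩ := h.ne C (hW hC)
    simpa using opt W hW {un W} ⟨by simpa using ⟨v, mem_un.2 ⟨C, hC, hv⟩⟩, by simpa using hle,
      by simp [PD], by simp [un]⟩
  have wl : ∀ C ∈ PP, WL (aw G) C (bw G X T C) (14 * A * Λ) := fun C hC S hS => by
    by_contra hc
    rw [not_le, lt_min_iff] at hc
    have e1 := bo_sub (G := G) (T := T) hS (sub C hC)
    have e2 := bo_sub (G := G) (T := T) (sdiff_subset (s := C) (t := S)) (sub C hC)
    have e3 := bo_sub (G := G) (T := T) (subset_refl C) (sub C hC)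
    have e4 : ts (bw G X T C) (C \ S) + ts (bw G X T C) S = ts (bw G X T C) C := sum_sdiff hS
    rw [Finset.sdiff_sdiff_eq_self hS, cw_comm aw_comm] at e2
    rw [sdiff_self, show cw (aw G) C ⊥ = 0 by simp [cw], add_zero, ← e4] at e3
    have n1 : S.Nonempty := nonempty_iff_ne_empty.2 fun e => by simp [e, ts] at hc
    have n2 : (C \ S).Nonempty := nonempty_iff_ne_empty.2 fun e => by simp [e, ts] at hc
    have hne : S ≠ C \ S := fun e => by
      obtain ⟨v, hv⟩ := n1
      exact (mem_sdiff.1 (e ▸ hv : v ∈ C \ S)).2 hv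
    have hle := h.le C hC
    have h1 : 1 ≤ 14 * A * Λ := Nat.mul_pos (by omega) hΛ1
    have h2 := Nat.le_mul_of_pos_left (cw (aw G) S (C \ S)) h1
    have := opt {C} (singleton_subset_iff.2 hC) {S, C \ S} ⟨by simp [n1, n2],
      by simp only [mem_insert, mem_singleton, forall_eq_or_imp, forall_eq]; omega,
      by simp [PD, disjoint_sdiff_self_left, disjoint_sdiff_self_right],
      by simp [un, union_sdiff_of_subset hS]⟩
    rw [sum_singleton, sum_pair hne, e1, e2, e3] at this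
    rcases le_total (ts (bw G X T C) S) (ts (bw G X T C) (C \ S)) with hh | hh
    · exact split_ineq hA hΛ1 hh (by omega) hc.1 (by rwa [add_comm (ts _ S)])
    · exact split_ineq hA hΛ1 hh (by omega) hc.2 (by rwa [add_comm (pf _ _)])
  refine ⟨PP, ⟨fun C hC => ?_, h.pd, h.un⟩, pos, h.le, wl, fun W hW hle => ?_,
    fun C hC C' hC' hle => ?_⟩
  · obtain ⟨v, hv⟩ := h.ne C hC
    have hS : comp G C v ⊆ C := comp_subset
    by_cases hn : (C \ comp G C v).Nonempty
    · have e0 : cw (aw G) (comp G C v) (C \ comp G C v) = 0 := cw_eq_zero.2 fun a ha b hb => by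
        rw [aw, if_neg fun hab => (mem_sdiff.1 hb).2 (comp_closed ha (mem_sdiff.1 hb).1 hab)]
      have e1 := bo_sub (G := G) (T := T) hS (sub C hC)
      have e2 := bo_sub (G := G) (T := T) (sdiff_subset (s := C) (t := comp G C v)) (sub C hC)
      rw [Finset.sdiff_sdiff_eq_self hS, cw_comm aw_comm] at e2
      have p1 := bo_pos hX hT hT' (hS.trans (sub C hC)) ⟨v, self_mem_comp hv⟩
      have p2 := bo_pos hX hT hT' (sdiff_subset.trans (sub C hC)) hn
      have := wl C hC _ hS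
      rw [e0, mul_zero] at this
      omega
    · rw [not_nonempty_iff_eq_empty, sdiff_eq_empty_iff_subset] at hn
      exact subset_antisymm hS hn ▸ comp_conn hv
  · rcases W.eq_empty_or_nonempty with rfl | hne
    · simp [cw]
    rw [← bo_un h.pd h.un hW] at hle
    have h1 := merge W hW hne hle
    have h2 := ts_bo (G := G) (T := T) h.pd h.un hW
    have h3 : ((A * Λ : ℕ) : ℝ) * (ts (bo G X T) W : ℕ) ≤ ∑ C ∈ W, pf (A * Λ) (bo G X T C) := by
      rw [ts, Nat.cast_sum, mul_sum]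
      refine sum_le_sum fun C _ => ?_
      rw [pf, mul_comm]
      exact mul_le_mul_of_nonneg_left (by linarith [lg_nonneg (bo G X T C)]) (by positivity)
    have h4 := mul_le_mul_of_nonneg_left (lg_le (hle.trans_lt hΛ))
      (Nat.cast_nonneg (α := ℝ) (bo G X T (un W)))
    rw [pf] at h1
    rw [h2] at h3 ⊢
    have h5 : (A : ℝ) * cw (ew G) W W * Λ ≤ bo G X T (un W) * Λ := by
      push_cast at h1 h3
      linarith
    have h6 : A * cw (ew G) W W ≤ bo G X T (un W) := by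
      exact_mod_cast le_of_mul_le_mul_right h5 (by exact_mod_cast hΛ1)
    omega
  · by_cases hne : C = C'
    · simp [ew, hne]
    have hW : {C, C'} ⊆ PP := by simp [insert_subset_iff, hC, hC']
    have h2 := ts_bo (G := G) (T := T) h.pd h.un hW
    have h3 : cw (ew G) {C, C'} {C, C'} = 2 * ew G C C' := by
      simp only [cw, sum_pair hne]
      simp only [ew, if_true, if_neg hne, if_neg (Ne.symm hne), cw_comm aw_comm C' C]
      ring
    rw [h3, ts, sum_pair hne] at h2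
    have h1 := merge _ hW (by simp) (by omega)
    rw [sum_pair hne] at h1
    exact thin_ineq hΛ1 (pos C hC) (pos C' hC') (by omega) h2.symm h1

end Pool.Agent.MP_35cb46_co.Nl

end
end MrgPart2

-- ======== part 3: formerly Pool.Agent.MP_35cb46_co.nl.Havq
section MrgPart3

/-! PROJECT NL, row HAVQ: the haven in the quotient by the pieces. -/

noncomputable section

namespace Pool.Agent.MP_35cb46_co.Nl

open Finset Pool.Agent.MP_7be75d_co Pool.Agent.MP_35cb46_co.Sq
open scoped Classical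

namespace HavqP

variable {κ ι : Type} {e : κ → κ → ℕ} {t b : κ → ℕ} {PP A B O : Finset κ}

/-- The value of a cut. -/
def ct (e : κ → κ → ℕ) (PP A : Finset κ) : ℕ := cw e A (PP \ A)

lemma ct_compl (he : Sy e) (hA : A ⊆ PP) : ct e PP (PP \ A) = ct e PP A := by
  rw [ct, ct, Finset.sdiff_sdiff_eq_self hA, cw_comm he]

lemma ct_union : ct e PP (A ∪ B) ≤ ct e PP A + ct e PP B :=
  cw_union_left_le.trans (add_le_add
    (cw_mono subset_rfl (sdiff_subset_sdiff subset_rfl subset_union_left))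
    (cw_mono subset_rfl (sdiff_subset_sdiff subset_rfl subset_union_right)))

lemma ct_sdiff (he : Sy e) (hA : A ⊆ PP) : ct e PP (A \ B) ≤ ct e PP A + ct e PP B := by
  have h1 : PP \ (A \ B) ⊆ (PP \ A) ∪ B := fun x hx => by
    simp only [mem_sdiff, mem_union] at hx ⊢; tauto
  refine ((cw_mono subset_rfl h1).trans cw_union_right_le).trans
    (add_le_add (cw_mono sdiff_subset subset_rfl) ?_)
  rw [cw_comm he]
  exact cw_mono subset_rfl (sdiff_subset_sdiff hA subset_rfl)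

lemma ts_mono (h : A ⊆ B) : ts t A ≤ ts t B := sum_le_sum_of_subset h

lemma ts_union : ts t (A ∪ B) ≤ ts t A + ts t B := by
  have := sum_union_inter (s₁ := A) (s₂ := B) (f := t)
  unfold ts
  omega

lemma ts_sdiff (h : A ⊆ PP) : ts t (PP \ A) + ts t A = ts t PP := sum_sdiff h

lemma cw_le_ts (hb : ∀ u ∈ PP, cw e {u} PP + t u ≤ b u) (hA : A ⊆ PP) (hB : B ⊆ PP) :
    cw e A B ≤ ts b A := by
  rw [cw_eq_sum]
  exact sum_le_sum fun u hu =>
    (cw_mono subset_rfl hB).trans (le_trans (Nat.le_add_right _ _) (hb u (hA hu)))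

lemma ts_le_ts (hb : ∀ u ∈ PP, cw e {u} PP + t u ≤ b u) (hA : A ⊆ PP) : ts t A ≤ ts b A :=
  sum_le_sum fun u hu => le_trans (Nat.le_add_left _ _) (hb u (hA hu))

/-- Edges that are covered by a set of nodes. -/
lemma cw_le_cover (he : Sy e) (hb : ∀ u ∈ PP, cw e {u} PP + t u ≤ b u) (hA : A ⊆ PP)
    (hB : B ⊆ PP) (hd : Disjoint A B) {C : Finset κ}
    (h : ∀ u ∈ A, ∀ u' ∈ B, 0 < e u u' → u ∈ C ∨ u' ∈ C) : cw e A B ≤ ts b C := by
  have h1 := cw_sdiff_left (w := e) (B := B) (inter_subset_left (s₁ := A) (s₂ := C))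
  have h2 := cw_sdiff_right (w := e) (A := A \ (A ∩ C)) (inter_subset_left (s₁ := B) (s₂ := C))
  have h3 : cw e (A \ (A ∩ C)) (B \ (B ∩ C)) = 0 := cw_eq_zero.2 fun u hu u' hu' => by
    by_contra hc
    simp only [mem_sdiff, mem_inter] at hu hu'
    have := h u hu.1 u' hu'.1 (Nat.pos_of_ne_zero hc)
    tauto
  have h4 := cw_le_ts hb ((inter_subset_left (s₂ := C)).trans hA) hB
  have h5 := cw_le_ts hb ((inter_subset_left (s₂ := C)).trans hB)
    ((sdiff_subset (t := A ∩ C)).trans hA)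
  rw [cw_comm he] at h5
  have h6 : ts b (A ∩ C) + ts b (B ∩ C) ≤ ts b C := by
    unfold ts
    rw [← sum_union (hd.mono inter_subset_left inter_subset_left)]
    exact sum_le_sum_of_subset (union_subset inter_subset_right inter_subset_right)
  omega

variable {Q : SimpleGraph ι} {I : Finset ι} {q : ℕ}

lemma rich_of_big (Big : Finset ι → Prop)
    (h1 : ∀ X : Finset ι, X.card < q → ∃ v ∈ I \ X, Big (comp Q (I \ X) v))
    (h2 : ∀ L L', Big L → Big L' → ¬ Disjoint L L') : Rich Q I q := by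
  have h3 : ∀ X : Finset ι, ∃ L, X.card < q → (Conn Q L ∧ L ⊆ I \ X) ∧ Big L := fun X => by
    by_cases hX : X.card < q
    · obtain ⟨v, hv, h⟩ := h1 X hX
      exact ⟨_, fun _ => ⟨⟨comp_conn hv, comp_subset⟩, h⟩⟩
    · exact ⟨∅, fun h => absurd h hX⟩
  choose γ hγ using h3
  obtain ⟨β, h4, -⟩ := exists_haven (G := Q) (U := I) (K := q) γ (fun X hX => (hγ X hX).1)
    fun X X' hXX hX' => not_disjoint_iff.1
      (h2 _ _ (hγ X ((card_le_card hXX).trans_lt hX')).2 (hγ X' hX').2)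
  exact ⟨β, h4⟩

lemma closed_un (s J : Finset ι) : Closed Q J (s.biUnion (comp Q J)) :=
  ⟨biUnion_subset.2 fun _ _ => comp_subset, fun x hx y hy hxy => by
    obtain ⟨v, hv, hx⟩ := mem_biUnion.1 hx
    exact mem_biUnion.2 ⟨v, hv, comp_closed hx hy hxy⟩⟩

/-- The situation on the level of clusters. -/
structure Dat (e : κ → κ → ℕ) (t b : κ → ℕ) (PP : Finset κ) (D : Finset (Finset κ))
    (O : Finset κ) (Q : SimpleGraph ι) (I : Finset ι) (nd : κ → ι) (par : Finset κ → Finset ι)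
    (K Bm q : ℕ) : Prop where
  sy : Sy e
  hb : ∀ u ∈ PP, cw e {u} PP + t u ≤ b u
  wl : ∀ A ⊆ PP, min (ts t A) (ts t (PP \ A)) ≤ ct e PP A
  big : 200 * (K * (K * (q * Bm))) ≤ ts t PP
  hK : 1 ≤ K
  pos : 1 ≤ q * Bm
  dsub : ∀ Z ∈ D, Z ⊆ PP ∧ Z.Nonempty
  pd : PD D
  osub : O ⊆ un D
  ndm : ∀ u ∈ kept PP D O, nd u ∈ I
  adj : ∀ u ∈ kept PP D O, ∀ u' ∈ kept PP D O, 0 < e u u' → nd u = nd u' ∨ Q.Adj (nd u) (nd u')
  load : ∀ i, ts b ((kept PP D O).filter fun u => nd u = i) ≤ Bm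
  psub : ∀ Z ∈ D, par Z ⊆ I
  pdisj : ∀ Z ∈ D, ∀ Z' ∈ D, Z ≠ Z' → Disjoint (par Z) (par Z')
  pnd : ∀ Z ∈ D, ∀ u ∈ O ∩ Z, nd u ∈ par Z
  pexp : ∀ Z ∈ D, ∀ A ⊆ par Z, ∀ B : Finset ι, 2 * A.card ≤ (par Z).card →
    (∀ i ∈ A, ∀ j ∈ par Z, Q.Adj i j → j ∈ A ∪ B) → A.card ≤ K * B.card
  pvol : ∀ Z ∈ D, ts b Z ≤ Bm * (par Z).card
  samp : Samp e PP D O K

variable {D : Finset (Finset κ)} {nd : κ → ι} {par : Finset κ → Finset ι} {K Bm : ℕ}

lemma mem_un {u : κ} : u ∈ un D ↔ ∃ Z ∈ D, u ∈ Z := mem_biUnion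

namespace Dat

variable (h : Dat e t b PP D O Q I nd par K Bm q)
include h

lemma un_sub {D' : Finset (Finset κ)} (hD : D' ⊆ D) : un D' ⊆ PP := fun _ hu => by
  obtain ⟨Z, hZ, hu⟩ := mem_un.1 hu
  exact (h.dsub Z (hD hZ)).1 hu

lemma kept_sub : kept PP D O ⊆ PP :=
  union_subset sdiff_subset (h.osub.trans (h.un_sub subset_rfl))

lemma load_le (X : Finset ι) : ts b ((kept PP D O).filter fun u => nd u ∈ X) ≤ X.card * Bm := by
  unfold ts
  rw [← sum_fiberwise_of_maps_to (t := X) (g := nd) fun u hu => (mem_filter.1 hu).2]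
  refine sum_le_card_nsmul _ _ _ fun i _ => le_trans (sum_le_sum_of_subset fun u hu => ?_)
    (h.load i)
  simp only [mem_filter] at hu ⊢
  exact ⟨hu.1.1, hu.2⟩

lemma le_M : q * Bm ≤ K * (q * Bm) ∧ K * (q * Bm) ≤ K * (K * (q * Bm)) :=
  ⟨Nat.le_mul_of_pos_left _ h.hK, Nat.le_mul_of_pos_left _ h.hK⟩

/-- An edge between kept clusters does not leave a closed set of nodes. -/
lemma stay {X U : Finset ι} (hU : Closed Q (I \ X) U) {u u' : κ} (hu : u ∈ kept PP D O)
    (hu' : u' ∈ kept PP D O) (he : 0 < e u u') (h1 : nd u ∈ U) (h2 : nd u' ∉ X) : nd u' ∈ U := by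
  rcases h.adj u hu u' hu' he with h3 | h3
  · exact h3 ▸ h1
  · exact hU.2 _ h1 _ (mem_sdiff.2 ⟨h.ndm u' hu', h2⟩) h3

/-- First case: most terminals are cut off cheaply from all blocks. -/
lemma case_one {R : Finset κ} (hR : R ⊆ PP \ un D) (h1 : ct e PP R ≤ 12 * (K * (K * (q * Bm))))
    (h2 : ts t (PP \ R) ≤ 12 * (K * (K * (q * Bm)))) : Rich Q I q := by
  have hK : R ⊆ kept PP D O := hR.trans subset_union_left
  have hP : R ⊆ PP := hR.trans sdiff_subset
  have hM := h.le_M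
  have hN := h.big
  have hp := h.pos
  refine rich_of_big (fun L => ts t PP < 2 * ts t (R.filter fun u => nd u ∈ L)) (fun X hX => ?_)
    fun L L' hL hL' hd => ?_
  · have hl := (h.load_le X).trans (Nat.mul_le_mul_right Bm hX.le)
    have h3 : ∀ s : Finset ι, min (ts t (R.filter fun u => nd u ∈ s.biUnion (comp Q (I \ X))))
        (ts t (PP \ R.filter fun u => nd u ∈ s.biUnion (comp Q (I \ X)))) ≤
        13 * (K * (K * (q * Bm))) := fun s => by
      refine (h.wl _ ((filter_subset _ _).trans hP)).trans ?_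
      set U := s.biUnion (comp Q (I \ X))
      have h4 : PP \ R.filter (fun u => nd u ∈ U) ⊆
          (PP \ R) ∪ (R \ R.filter fun u => nd u ∈ U) := fun x hx => by
        simp only [mem_sdiff, mem_union] at hx ⊢; tauto
      have h5 := (cw_mono (w := e) (A := R.filter fun u => nd u ∈ U) subset_rfl h4).trans
        cw_union_right_le
      have h6 : cw e (R.filter fun u => nd u ∈ U) (PP \ R) ≤ ct e PP R :=
        cw_mono (filter_subset _ _) subset_rfl
      have h7 := cw_le_cover h.sy h.hb ((filter_subset (fun u => nd u ∈ U) R).trans hP)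
        (sdiff_subset.trans hP) disjoint_sdiff (C := (kept PP D O).filter fun u => nd u ∈ X)
        fun u hu u' hu' he => Or.inr (by
          obtain ⟨h8, h9⟩ := mem_sdiff.1 hu'
          refine mem_filter.2 ⟨hK h8, by_contra fun hc => h9 (mem_filter.2 ⟨h8, ?_⟩)⟩
          exact h.stay (closed_un s _) (hK (mem_filter.1 hu).1) (hK h8) he (mem_filter.1 hu).2 hc)
      unfold ct
      omega
    by_contra hc
    push Not at hc
    have h4 : ∀ s ⊆ I \ X, ts t (R.filter fun u => nd u ∈ s.biUnion (comp Q (I \ X))) ≤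
        13 * (K * (K * (q * Bm))) := fun s hs => by
      induction s using Finset.induction_on with
      | empty => simp [ts]
      | insert v s hv ih =>
        have h5 := ih ((subset_insert _ _).trans hs)
        have h6 := hc v (hs (mem_insert_self _ _))
        have h7 := h3 {v}
        rw [singleton_biUnion] at h7
        have h8 := h3 (insert v s)
        have h9 := ts_sdiff (t := t) ((filter_subset (fun u => nd u ∈ comp Q (I \ X) v) R).trans hP)
        have h10 := ts_sdiff (t := t)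
          ((filter_subset (fun u => nd u ∈ (insert v s).biUnion (comp Q (I \ X))) R).trans hP)
        have h11 : ts t (R.filter fun u => nd u ∈ (insert v s).biUnion (comp Q (I \ X))) ≤ _ :=
          (ts_mono fun u hu => by
            rw [biUnion_insert, mem_filter, mem_union] at hu
            simp only [mem_union, mem_filter]
            tauto).trans (ts_union (A := R.filter fun u => nd u ∈ comp Q (I \ X) v)
              (B := R.filter fun u => nd u ∈ s.biUnion (comp Q (I \ X))))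
        omega
    have h5 := h4 _ subset_rfl
    have h6 := ts_sdiff (t := t) hP
    have h7 : ts t R ≤ _ := (ts_mono fun u hu => by
      by_cases hu' : nd u ∈ X
      · exact mem_union_right _ (mem_filter.2 ⟨hK hu, hu'⟩)
      · have h8 := mem_sdiff.2 ⟨h.ndm u (hK hu), hu'⟩
        exact mem_union_left _ (mem_filter.2 ⟨hu, mem_biUnion.2 ⟨_, h8, self_mem_comp h8⟩⟩)).trans
      (ts_union (A := R.filter fun u => nd u ∈ (I \ X).biUnion (comp Q (I \ X)))
        (B := (kept PP D O).filter fun u => nd u ∈ X))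
    have h8 := ts_le_ts h.hb ((filter_subset (fun u => nd u ∈ X) _).trans h.kept_sub)
    omega
  · have h3 : ts t (R.filter fun u => nd u ∈ L) + ts t (R.filter fun u => nd u ∈ L') ≤ ts t PP := by
      unfold ts
      rw [← sum_union (disjoint_filter.2 fun u _ h4 h5 => disjoint_left.1 hd h4 h5)]
      exact sum_le_sum_of_subset (union_subset ((filter_subset _ _).trans hP)
        ((filter_subset _ _).trans hP))
    omega

/-- A closed set of nodes without a majority component holds few parts of a block. -/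
lemma few {X U : Finset ι} (hU : Closed Q (I \ X) U) {Z : Finset κ} (hZ : Z ∈ D)
    (hm : ∀ v ∈ U, 2 * (par Z ∩ comp Q (I \ X) v).card ≤ (par Z).card) :
    (par Z ∩ U).card ≤ 3 * (K * (X ∩ par Z).card) := by
  obtain ⟨B, h1, h2, h3, -⟩ := three_bins (G := Q) (A := U) (X := par Z) fun v hv =>
    le_trans (Nat.mul_le_mul_left 2 (card_le_card (inter_subset_inter_left (comp_mono hU.1))))
      (hm v hv)
  have h4 : ∀ i, (par Z ∩ B i).card ≤ K * (X ∩ par Z).card := fun i =>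
    h.pexp Z hZ _ inter_subset_left _ (h3 i) fun x hx y hy hxy => by
      by_cases hyX : y ∈ X
      · exact mem_union_right _ (mem_inter.2 ⟨hyX, hy⟩)
      · have h5 := (mem_inter.1 hx).2
        exact mem_union_left _ (mem_inter.2 ⟨hy, (h1 i).2 x h5 y
          (hU.2 x ((h1 i).1 h5) y (mem_sdiff.2 ⟨h.psub Z hZ hy, hyX⟩) hxy) hxy⟩)
  have h5 : par Z ∩ U ⊆ univ.biUnion fun i => par Z ∩ B i := fun x hx => by
    obtain ⟨i, hi⟩ := h2 x (mem_inter.1 hx).2
    exact mem_biUnion.2 ⟨i, mem_univ _, mem_inter.2 ⟨(mem_inter.1 hx).1, hi⟩⟩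
  refine ((card_le_card h5).trans card_biUnion_le).trans ?_
  simpa using sum_le_card_nsmul univ _ _ fun i _ => h4 i

lemma sum_inter_le (X : Finset ι) {D' : Finset (Finset κ)} (hD : D' ⊆ D) :
    ∑ Z ∈ D', (X ∩ par Z).card ≤ X.card := by
  rw [← card_biUnion fun Z hZ Z' hZ' hne =>
    (h.pdisj Z (hD hZ) Z' (hD hZ') hne).mono inter_subset_right inter_subset_right]
  exact card_le_card (biUnion_subset.2 fun _ _ => inter_subset_left)

omit h in
lemma meet {Z L L' : Finset ι} (h1 : Z.card < 2 * (Z ∩ L).card) (h2 : Z.card < 2 * (Z ∩ L').card) :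
    ¬ Disjoint L L' := fun hd => by
  have := card_le_card (union_subset (inter_subset_left (s₁ := Z) (s₂ := L))
    (inter_subset_left (s₁ := Z) (s₂ := L')))
  rw [card_union_of_disjoint (hd.mono inter_subset_right inter_subset_right)] at this
  omega

lemma sub_un_iff {D' : Finset (Finset κ)} (hD : D' ⊆ D) {Z : Finset κ} (hZ : Z ∈ D)
    (hn : Z ∉ D') : Disjoint Z (un D') := disjoint_left.2 fun u hu hu' => by
  obtain ⟨Z', hZ', h1⟩ := mem_un.1 hu'
  exact disjoint_left.1 (h.pd Z hZ Z' (hD hZ') fun e => hn (e ▸ hZ')) hu h1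

/-- A cheap cut whose trace consists of the blocks with a majority component among `s`. -/
lemma exists_cut {X : Finset ι} (hX : X.card < q) (s : Finset ι) :
    ∃ W ⊆ PP, Resp D W ∧ ct e PP W ≤ 4 * (K * (K * (q * Bm))) ∧ ∀ Z ∈ D, Z ⊆ W ↔
      ∃ v ∈ s, (par Z).card < 2 * (par Z ∩ comp Q (I \ X) v).card := by
  set U := s.biUnion (comp Q (I \ X)) with hU
  have hUc : Closed Q (I \ X) U := closed_un s _
  set Tr := D.filter fun Z => ∃ v ∈ s, (par Z).card < 2 * (par Z ∩ comp Q (I \ X) v).card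
    with hTr
  have hTD : Tr ⊆ D := filter_subset _ _
  set W := un Tr ∪ (PP \ un D).filter fun u => nd u ∈ U with hW
  have h1 : ∀ Z ∈ Tr, Z ⊆ W := fun Z hZ u hu => mem_union_left _ (mem_un.2 ⟨Z, hZ, hu⟩)
  have h2 : ∀ Z ∈ D, Z ∉ Tr → Disjoint Z W := fun Z hZ hn =>
    disjoint_union_right.2 ⟨h.sub_un_iff hTD hZ hn, disjoint_left.2 fun u hu hu' =>
      (mem_sdiff.1 (mem_filter.1 hu').1).2 (mem_un.2 ⟨Z, hZ, hu⟩)⟩
  have hWP : W ⊆ PP := union_subset (h.un_sub hTD) ((filter_subset _ _).trans sdiff_subset)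
  obtain ⟨W', h3, h4, h5, h6⟩ := h.samp W hWP fun Z hZ =>
    (em (Z ∈ Tr)).imp (h1 Z) (h2 Z hZ)
  refine ⟨W', h3, h4, h6.trans ?_, fun Z hZ => (h5 Z hZ).symm.trans ⟨fun h7 => ?_, fun h7 =>
    h1 Z (mem_filter.2 ⟨hZ, h7⟩)⟩⟩
  swap
  · by_contra hc
    obtain ⟨u, hu⟩ := (h.dsub Z hZ).2
    exact disjoint_left.1 (h2 Z hZ fun h8 => hc (mem_filter.1 h8).2) hu (h7 hu)
  set mis : Finset κ → Finset ι := fun Z => par Z ∩ if Z ∈ Tr then (I \ X) \ U else U with hmis
  have h7 : ∀ Z ∈ D, (mis Z).card ≤ 3 * (K * (X ∩ par Z).card) := fun Z hZ => by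
    simp only [hmis]
    split_ifs with hT
    · refine h.few (Closed.sdiff ⟨subset_rfl, fun _ _ _ hy _ => hy⟩ hUc) hZ fun v hv => ?_
      by_contra hc
      obtain ⟨v₀, hv₀, h8⟩ := (mem_filter.1 hT).2
      obtain ⟨x, h9, h10⟩ := not_disjoint_iff.1 (meet h8 (not_le.1 hc))
      refine (mem_sdiff.1 hv).2 (mem_biUnion.2 ⟨v₀, hv₀, ?_⟩)
      rw [← comp_eq h9, comp_eq h10]
      exact self_mem_comp (mem_sdiff.1 hv).1
    · refine h.few hUc hZ fun v hv => ?_
      obtain ⟨v₀, hv₀, h8⟩ := mem_biUnion.1 hv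
      rw [comp_eq h8]
      exact not_lt.1 fun h9 => hT (mem_filter.2 ⟨hZ, v₀, hv₀, h9⟩)
  have h8 : (X ∪ D.biUnion mis).card ≤ 4 * (K * q) := by
    have h9 := card_union_le X (D.biUnion mis)
    have h10 := (card_biUnion_le (s := D) (t := mis)).trans (sum_le_sum h7)
    rw [← mul_sum, ← mul_sum] at h10
    have h11 := Nat.mul_le_mul_left K ((h.sum_inter_le X subset_rfl).trans hX.le)
    have h12 := Nat.le_mul_of_pos_left q h.hK
    omega
  have h9 : ∀ u ∈ kept PP D O, nd u ∉ X ∪ D.biUnion mis → (u ∈ W ↔ nd u ∈ U) := fun u hu hn => by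
    rw [mem_union, not_or] at hn
    rcases mem_union.1 hu with h10 | h10
    · refine ⟨fun h11 => ?_, fun h11 => mem_union_right _ (mem_filter.2 ⟨h10, h11⟩)⟩
      refine (mem_union.1 h11).elim (fun h12 => ?_) fun h12 => (mem_filter.1 h12).2
      obtain ⟨Z, hZ, h13⟩ := mem_un.1 h12
      exact absurd (mem_un.2 ⟨Z, hTD hZ, h13⟩) (mem_sdiff.1 h10).2
    · obtain ⟨Z, hZ, h11⟩ := mem_un.1 (h.osub h10)
      have h12 := h.pnd Z hZ u (mem_inter.2 ⟨h10, h11⟩)
      have h13 : nd u ∉ mis Z := fun h14 => hn.2 (mem_biUnion.2 ⟨Z, hZ, h14⟩)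
      simp only [hmis, mem_inter, h12, true_and] at h13
      split_ifs at h13 with hT
      · refine iff_of_true (h1 Z hT h11) (by_contra fun hc => h13 ?_)
        exact mem_sdiff.2 ⟨mem_sdiff.2 ⟨h.ndm u hu, hn.1⟩, hc⟩
      · exact iff_of_false (disjoint_left.1 (h2 Z hZ hT) h11) h13
  have h10 := cw_le_cover h.sy h.hb ((inter_subset_right (s₁ := W)).trans h.kept_sub)
    ((sdiff_subset (t := W)).trans h.kept_sub)
    (disjoint_sdiff.mono_left inter_subset_left)
    (C := (kept PP D O).filter fun u => nd u ∈ X ∪ D.biUnion mis) fun u hu u' hu' he => by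
      obtain ⟨h11, h12⟩ := mem_inter.1 hu
      obtain ⟨h13, h14⟩ := mem_sdiff.1 hu'
      by_contra hc
      simp only [mem_filter, h12, h13, true_and, not_or] at hc
      exact h14 ((h9 u' h13 hc.2).2 (h.stay hUc h12 h13 he ((h9 u h12 hc.1).1 h11)
        fun h15 => hc.2 (mem_union_left _ h15)))
  have h11 := (h10.trans (h.load_le _)).trans (Nat.mul_le_mul_right Bm h8)
  calc K * _ ≤ K * (4 * (K * q) * Bm) := Nat.mul_le_mul_left K h11
    _ = _ := by ring

/-- Second case: cheap cuts are oriented by their traces. -/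
lemma case_two (hn : ∀ R ⊆ PP \ un D, ct e PP R ≤ 12 * (K * (K * (q * Bm))) →
    12 * (K * (K * (q * Bm))) < ts t (PP \ R)) : Rich Q I q := by
  have hM := h.le_M
  have hN := h.big
  have hp := h.pos
  have key : ∀ W ⊆ PP, ∀ W', Resp D W → (∀ Z ∈ D, Z ⊆ W → Z ⊆ W') →
      ct e PP W + ct e PP W' ≤ 12 * (K * (K * (q * Bm))) →
      12 * (K * (K * (q * Bm))) < ts t (PP \ W) + ts t W' := fun W hW W' hr hZ hc => by
    refine (hn (W \ W') (fun u hu => ?_) ((ct_sdiff h.sy hW).trans hc)).trans_le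
      ((ts_mono fun x hx => ?_).trans ts_union)
    · obtain ⟨h1, h2⟩ := mem_sdiff.1 hu
      refine mem_sdiff.2 ⟨hW h1, fun h3 => ?_⟩
      obtain ⟨Z, h4, h5⟩ := mem_un.1 h3
      exact (hr Z h4).elim (fun h6 => h2 (hZ Z h4 h6 h5)) fun h6 => disjoint_left.1 h6 h5 h1
    · simp only [mem_sdiff, mem_union] at hx ⊢; tauto
  refine rich_of_big (fun L => ∃ W ⊆ PP, Resp D W ∧ ct e PP W ≤ 4 * (K * (K * (q * Bm))) ∧
    ts t (PP \ W) ≤ 4 * (K * (K * (q * Bm))) ∧
      ∀ Z ∈ D, Z ⊆ W → (par Z).card < 2 * (par Z ∩ L).card) (fun X hX => ?_) ?_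
  · by_contra hc
    have h1 : ∀ s ⊆ I \ X, ∃ W, ct e PP W ≤ 4 * (K * (K * (q * Bm))) ∧
        ts t W ≤ 4 * (K * (K * (q * Bm))) ∧ ∀ Z ∈ D,
        (∃ v ∈ s, (par Z).card < 2 * (par Z ∩ comp Q (I \ X) v).card) → Z ⊆ W := fun s hs => by
      induction s using Finset.induction_on with
      | empty => exact ⟨∅, by simp [ct, cw], by simp [ts], by simp⟩
      | insert v s hv ih =>
        obtain ⟨W₁, a1, a2, a3⟩ := ih ((subset_insert _ _).trans hs)
        obtain ⟨W₂, b1, b2, b3, b4⟩ := h.exists_cut hX {v}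
        obtain ⟨W, c1, c2, c3, c4⟩ := h.exists_cut hX (insert v s)
        have b5 := h.wl _ b1
        have c5 := h.wl _ c1
        have b6 : ¬ ts t (PP \ W₂) ≤ 4 * (K * (K * (q * Bm))) := fun h2 =>
          hc ⟨v, hs (mem_insert_self _ _), W₂, b1, b2, b3, h2, fun Z hZ h3 => by
            simpa using (b4 Z hZ).1 h3⟩
        have d1 := ct_union (e := e) (PP := PP) (A := W₁) (B := W₂)
        have d2 := ts_union (t := t) (A := W₁) (B := W₂)
        have d3 := key W c1 (W₁ ∪ W₂) c2 (fun Z hZ h2 => by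
          obtain ⟨v', h3, h4⟩ := (c4 Z hZ).1 h2
          rcases mem_insert.1 h3 with rfl | h3
          · exact ((b4 Z hZ).2 ⟨_, mem_singleton_self _, h4⟩).trans subset_union_right
          · exact (a3 Z hZ ⟨v', h3, h4⟩).trans subset_union_left) (by omega)
        exact ⟨W, c3, by omega, fun Z hZ => (c4 Z hZ).2⟩
    obtain ⟨W, a1, a2, a3⟩ := h1 _ subset_rfl
    set Ds := D.filter fun Z =>
      ¬ ∃ v ∈ I \ X, (par Z).card < 2 * (par Z ∩ comp Q (I \ X) v).card with hDs
    have hD : Ds ⊆ D := filter_subset _ _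
    have h2 : ∀ Z ∈ Ds, ts b Z ≤ Bm * (4 * (K * (X ∩ par Z).card)) := fun Z hZ => by
      refine (h.pvol Z (hD hZ)).trans (Nat.mul_le_mul_left Bm ?_)
      have h3 := h.few (X := X) ⟨subset_rfl, fun _ _ _ hy _ => hy⟩ (hD hZ) fun v hv =>
        not_lt.1 fun h4 => (mem_filter.1 hZ).2 ⟨v, hv, h4⟩
      have h4 : par Z ⊆ (par Z ∩ (I \ X)) ∪ (X ∩ par Z) := fun x hx => by
        have := h.psub Z (hD hZ) hx
        simp only [mem_sdiff, mem_union, mem_inter]; tauto
      have h5 := (card_le_card h4).trans (card_union_le _ _)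
      have h6 := Nat.le_mul_of_pos_left (X ∩ par Z).card h.hK
      omega
    have h3 : ts b (un Ds) ≤ 4 * (K * (q * Bm)) := by
      refine ((sum_biUnion_le' Ds id b).trans (sum_le_sum h2)).trans ?_
      rw [← mul_sum, ← mul_sum, ← mul_sum]
      calc _ ≤ Bm * (4 * (K * q)) := by gcongr; exact (h.sum_inter_le X hD).trans hX.le
        _ = _ := by ring
    have h4 := h.un_sub hD
    have h5 := ct_compl h.sy h4
    have h6 : ct e PP (un Ds) ≤ _ := cw_le_ts h.hb h4 sdiff_subset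
    have h7 := ts_le_ts h.hb h4
    have h8 := key (PP \ un Ds) sdiff_subset W (fun Z hZ => by
      by_cases h9 : Z ∈ Ds
      · exact Or.inr (disjoint_sdiff.mono_left fun u hu => mem_un.2 ⟨Z, h9, hu⟩)
      · exact Or.inl (subset_sdiff.2 ⟨(h.dsub Z hZ).1, h.sub_un_iff hD hZ h9⟩))
      (fun Z hZ h9 => a3 Z hZ (by_contra fun h10 => by
        obtain ⟨u, hu⟩ := (h.dsub Z hZ).2
        exact (mem_sdiff.1 (h9 hu)).2 (mem_un.2 ⟨Z, mem_filter.2 ⟨hZ, h10⟩, hu⟩))) (by omega)
    rw [Finset.sdiff_sdiff_eq_self h4] at h8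
    omega
  · rintro L L' ⟨W, a1, a2, a3, a4, a5⟩ ⟨W', b1, b2, b3, b4, b5⟩ hd
    have h1 := ct_compl h.sy b1
    have h2 := key W a1 (PP \ W') a2 (fun Z hZ h3 => subset_sdiff.2 ⟨(h.dsub Z hZ).1,
      (b2 Z hZ).resolve_left fun h4 => meet (a5 Z hZ h3) (b5 Z hZ h4) hd⟩) (by omega)
    omega

lemma rich : Rich Q I q := by
  by_cases hc : ∃ R ⊆ PP \ un D, ct e PP R ≤ 12 * (K * (K * (q * Bm))) ∧
      ts t (PP \ R) ≤ 12 * (K * (K * (q * Bm)))
  · obtain ⟨R, h1, h2, h3⟩ := hc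
    exact h.case_one h1 h2 h3
  · exact h.case_two fun R h1 h2 => not_le.1 fun h3 => hc ⟨R, h1, h2, h3⟩

end Dat

variable {V : Type} {G : SimpleGraph V} {W : Finset V} {P : Finset (Finset V)}

lemma ts_un (hP : Sq.Part G W P) (τ : V → ℕ) {A : Finset (Finset V)} (hA : A ⊆ P) :
    ts τ (un A) = ts (ts τ) A :=
  sum_biUnion fun C hC C' hC' hne => hP.disj C (hA hC) C' (hA hC') hne

lemma un_sdiff (hP : Sq.Part G W P) {A B : Finset (Finset V)} (hA : A ⊆ P)
    (hB : ∀ C, C ∈ B ↔ C ∈ P ∧ C ∉ A) : W \ un A = un B := by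
  ext v
  rw [mem_sdiff, ← hP.un]
  refine ⟨fun ⟨h1, h2⟩ => ?_, fun h1 => ?_⟩
  · obtain ⟨C, h3, h4⟩ := mem_un.1 h1
    exact mem_un.2 ⟨C, (hB C).2 ⟨h3, fun h5 => h2 (mem_un.2 ⟨C, h5, h4⟩)⟩, h4⟩
  · obtain ⟨C, h3, h4⟩ := mem_un.1 h1
    refine ⟨mem_un.2 ⟨C, ((hB C).1 h3).1, h4⟩, fun h5 => ?_⟩
    obtain ⟨C', h6, h7⟩ := mem_un.1 h5
    exact disjoint_left.1 (hP.disj C ((hB C).1 h3).1 C' (hA h6)
      fun e => ((hB C).1 h3).2 (e ▸ h6)) h4 h7

lemma cw_un (hP : Sq.Part G W P) {A B : Finset (Finset V)} (hA : A ⊆ P)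
    (hB : ∀ C, C ∈ B ↔ C ∈ P ∧ C ∉ A) : cw (aw G) (un A) (W \ un A) = cw (ew G) A B := by
  rw [un_sdiff hP hA hB, un,
    cw_biUnion (S := id) fun C hC C' hC' hne => hP.disj C (hA hC) C' (hA hC') hne]
  refine sum_congr rfl fun C hC => ?_
  rw [cw_comm aw_comm, un, cw_biUnion (S := id) fun C hC C' hC' hne =>
    hP.disj C ((hB C).1 hC).1 C' ((hB C').1 hC').1 hne]
  refine sum_congr rfl fun C' hC' => ?_
  rw [ew, if_neg fun e : C = C' => ((hB C').1 hC').2 (e ▸ hC), cw_comm aw_comm]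
  rfl

lemma ts_compl {τ : κ → ℕ} (h : ∀ B : Finset κ, (∀ C, C ∈ B ↔ C ∈ PP ∧ C ∉ A) →
    min (ts τ A) (ts τ B) ≤ cw e A B) : min (ts τ A) (ts τ (PP \ A)) ≤ ct e PP A :=
  h _ fun _ => mem_sdiff

end HavqP

open HavqP

theorem havq : HavqStmt := by
  intro V ι _ G W T₀ PP D O I S nd par p q K Bm hT hwl hK hB hq hS hsa hbig
  have hP := hS.part
  have hk : kept PP D O \ ∅ = kept PP D O := sdiff_empty
  have hm : ∀ u ∈ kept PP D O, nd u ∈ I ∧ u ⊆ S (nd u) := fun u hu =>
    hS.ndm u (mem_sdiff.2 ⟨hu, notMem_empty _⟩)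
  have hW : un PP = W := hP.un
  have hD : Dat (ew G) (ts (ind T₀)) (bo G W T₀) PP D O (quot G S) I nd par K Bm q :=
    { sy := fun C C' => by
        unfold ew
        rw [cw_comm aw_comm]
        simp only [eq_comm]
      hb := fun u hu => by
        have h1 := cw_un hP (singleton_subset_iff.2 hu) fun _ => mem_sdiff
        have h2 : cw (ew G) {u} (PP \ {u}) + cw (ew G) {u} {u} = cw (ew G) {u} PP := by
          convert cw_sdiff_right (w := ew G) (A := {u}) (singleton_subset_iff.2 hu)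
        have h3 : cw (ew G) {u} {u} = 0 := by simp [cw, ew]
        have h4 : un {u} = u := by simp [un]
        rw [h4] at h1
        unfold bo out
        omega
      wl := fun A hA => ts_compl fun B hB => by
        have h1 := hwl (un A) (hW ▸ biUnion_subset_biUnion_of_subset_left _ hA)
        rwa [cw_un hP hA hB, un_sdiff hP hA hB, ts_un hP _ hA,
          ts_un hP _ fun C hC => ((hB C).1 hC).1, one_mul] at h1
      big := by
        rw [← ts_un hP _ subset_rfl, hW]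
        refine le_trans (le_of_eq (by ring)) (hbig.trans (le_of_eq ?_))
        simp [ts, ind, inter_eq_right.2 hT]
      hK := hK
      pos := Nat.mul_pos hq hB
      dsub := hS.dsub
      pd := hS.pd
      osub := hS.osub
      ndm := fun u hu => (hm u hu).1
      adj := fun u hu u' hu' he => by
        refine (em _).imp_right fun hne => (SimpleGraph.fromRel_adj _ _ _).2 ⟨hne, Or.inl ?_⟩
        unfold ew at he
        split_ifs at he with h1
        · exact absurd he (lt_irrefl 0)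
        obtain ⟨x, hx, y, hy, h2⟩ := exists_of_cw_pos he
        refine ⟨x, (hm u hu).2 hx, y, (hm u' hu').2 hy, ?_⟩
        by_contra h3
        simp [aw, h3] at h2
      load := fun i => by
        by_cases hi : i ∈ I
        · exact hk ▸ hS.load i hi
        · rw [filter_eq_empty_iff.2 fun u hu (e : nd u = i) => hi (e ▸ (hm u hu).1)]
          exact Nat.zero_le _
      psub := fun Z hZ => (hS.psub Z hZ).1
      pdisj := hS.pdisj
      pnd := fun Z hZ u hu => hS.pnd Z hZ u (by simpa using hu)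
      pexp := fun Z hZ A hA B h1 h2 => hS.pexp Z hZ A hA B h1 fun i hi j hj h3 => by
        by_cases hij : i = j
        · exact mem_union_left _ (hij ▸ hi)
        · exact h2 i hi j hj ((SimpleGraph.fromRel_adj _ _ _).2 ⟨hij, Or.inl h3⟩)
      pvol := hS.pvol
      samp := hsa }
  set f : Fin I.card → ι := fun j => (I.equivFin.symm j).1 with hf
  have hfI : ∀ j, f j ∈ I := fun j => (I.equivFin.symm j).2
  have hfi : Function.Injective f := Subtype.val_injective.comp I.equivFin.symm.injective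
  have hfs : ∀ i ∈ I, ∃ j, univ.filter (fun j => f j = i) = {j} ∧ f j = i := fun i hi => by
    have h1 : f (I.equivFin ⟨i, hi⟩) = i := by simp [hf]
    refine ⟨_, eq_singleton_iff_unique_mem.2 ⟨mem_filter.2 ⟨mem_univ _, h1⟩, fun j hj => ?_⟩, h1⟩
    exact hfi ((mem_filter.1 hj).2.trans h1.symm)
  refine ⟨I.card, fun j => S (f j), ⟨fun _ => subset_univ _, fun j => hS.fam.conn _ (hfI j),
    fun i j hij => hS.fam.disj _ (hfI i) _ (hfI j) (hfi.ne hij)⟩, fun j => hS.rich _ (hfI j), ?_⟩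
  refine (pull _ _ (quot G fun j => S (f j)) univ (quot G S) I I
    (fun i => univ.filter fun j => f j = i) q ⟨fun _ _ => subset_univ _, fun i hi => ?_,
      fun i _ i' _ hne => disjoint_filter.2 fun j _ h1 h2 => hne (h1.symm.trans h2),
      fun i hi i' hi' h1 => ?_⟩ subset_rfl hD.rich).mono le_rfl (subset_univ _) le_rfl
  · obtain ⟨j, h1, -⟩ := hfs i hi
    exact h1 ▸ Conn.singleton j
  · obtain ⟨j, h2, rfl⟩ := hfs i hi
    obtain ⟨j', h3, rfl⟩ := hfs i' hi'
    rw [h2, h3]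
    obtain ⟨h4, h5⟩ := (SimpleGraph.fromRel_adj _ _ _).1 h1
    exact ⟨j, mem_singleton_self _, j', mem_singleton_self _,
      (SimpleGraph.fromRel_adj _ _ _).2 ⟨fun e => h4 (e ▸ rfl), h5⟩⟩

end Pool.Agent.MP_35cb46_co.Nl

end
end MrgPart3

-- marker of a merged file
example : 731051 + 839232 = 731051 + 839232 := rfl
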