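import Pool.Agent.MP_35cb46_co.nl.Spec

/-! Row CLB: basic facts on clusterings and the colouring of expanders of clusters. -/

noncomputable section

namespace Pool.Agent.MP_35cb46_co.Nl

open Finset Pool.Agent.MP_7be75d_co Pool.Agent.MP_35cb46_co.Sq
open scoped Classical

namespace ClbP

section General

variable {κ : Type} {w w' : κ → κ → ℕ} {τ τ' : κ → ℕ} {X A B : Finset κ} {K K' m : ℕ}

theorem ts_le (h : ∀ v ∈ A, τ' v ≤ m * τ v) : ts τ' A ≤ m * ts τ A := by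
  unfold ts
  rw [mul_sum]
  exact sum_le_sum h

theorem cw_le (h : ∀ a ∈ A, ∀ b ∈ B, w a b ≤ w' a b) : cw w A B ≤ cw w' A B :=
  sum_le_sum fun a ha => sum_le_sum (h a ha)

theorem wl_mono (h : WL w X τ K) (hw : ∀ a ∈ X, ∀ b ∈ X, a ≠ b → w a b ≤ w' a b)
    (hτ : ∀ v ∈ X, τ' v ≤ m * τ v) (hK : m * K ≤ K') : WL w' X τ' K' := by
  intro A hA
  have h1 : ts τ' A ≤ m * ts τ A := ts_le fun v hv => hτ v (hA hv)
  have h2 : ts τ' (X \ A) ≤ m * ts τ (X \ A) := ts_le fun v hv => hτ v (mem_sdiff.1 hv).1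
  have h3 : cw w A (X \ A) ≤ cw w' A (X \ A) := cw_le fun a ha b hb =>
    hw a (hA ha) b (mem_sdiff.1 hb).1 fun e => (mem_sdiff.1 hb).2 (e ▸ ha)
  calc min (ts τ' A) (ts τ' (X \ A)) ≤ min (m * ts τ A) (m * ts τ (X \ A)) := min_le_min h1 h2
    _ = m * min (ts τ A) (ts τ (X \ A)) := Nat.mul_min_mul_left _ _ _
    _ ≤ m * (K * cw w A (X \ A)) := Nat.mul_le_mul_left _ (h A hA)
    _ ≤ K' * cw w' A (X \ A) := by rw [← mul_assoc]; exact Nat.mul_le_mul hK h3

theorem ts_pos (h : ∀ v ∈ A, 1 ≤ τ v) (hA : A.Nonempty) : 1 ≤ ts τ A := by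
  obtain ⟨a, ha⟩ := hA
  exact (h a ha).trans (single_le_sum (f := τ) (fun _ _ => Nat.zero_le _) ha)

theorem wl_conn (h : WL w X τ K) (hτ : ∀ v ∈ X, 1 ≤ τ v) (hX : X.Nonempty) : Conn (qg w) X := by
  obtain ⟨a, ha⟩ := hX
  refine Conn.of_center ha fun b hb => ?_
  by_contra hc
  have h1 := h (comp (qg w) X a) comp_subset
  have h2 := ts_pos (τ := τ) (fun v hv => hτ v (comp_subset hv)) ⟨a, self_mem_comp (G := qg w) ha⟩
  have h3 := ts_pos (τ := τ) (A := X \ comp (qg w) X a) (fun v hv => hτ v (mem_sdiff.1 hv).1)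
    ⟨b, mem_sdiff.2 ⟨hb, fun h => hc (mem_comp.1 h).2⟩⟩
  have h4 : 0 < cw w (comp (qg w) X a) (X \ comp (qg w) X a) :=
    Nat.pos_of_mul_pos_left (lt_of_lt_of_le (lt_min h2 h3) h1)
  obtain ⟨x, hx, y, hy, hxy⟩ := exists_of_cw_pos h4
  obtain ⟨hy1, hy2⟩ := mem_sdiff.1 hy
  exact hy2 (comp_closed hx hy1
    ((SimpleGraph.fromRel_adj _ _ _).2 ⟨fun e => hy2 (e ▸ hx), Or.inl hxy⟩))

theorem card_le_un {D : Finset (Finset κ)} (h : PD D) (hn : ∀ Z ∈ D, Z.Nonempty) :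
    D.card ≤ (un D).card := by
  rw [un, card_biUnion (t := id) (fun Z hZ Z' hZ' e => h Z hZ Z' hZ' e), card_eq_sum_ones]
  exact sum_le_sum fun Z hZ => (hn Z hZ).card_pos

theorem bip_le (sd : κ → Bool) (a b : κ) : bip w sd a b ≤ w a b := by
  unfold bip
  split_ifs
  · exact Nat.zero_le _
  · exact le_rfl

/-- Restriction of a weight. -/
def rs (τ : κ → ℕ) (Z : Finset κ) (u : κ) : ℕ := if u ∈ Z then τ u else 0

theorem rs_le {Z : Finset κ} {n c : ℕ} (h : ∀ u ∈ Z, c * τ u ≤ n) (u : κ) : c * rs τ Z u ≤ n := by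
  unfold rs
  split_ifs with hu
  · exact h u hu
  · exact Nat.zero_le _

theorem ts_ite (τ : κ → ℕ) (Z A : Finset κ) : ts (rs τ Z) A = ts τ (A ∩ Z) := sum_ite_mem _ _ _

theorem ts_ind (Z A : Finset κ) : ts (ind Z) A = (A ∩ Z).card := by
  rw [card_eq_sum_ones]
  exact sum_ite_mem _ _ _

theorem cls_inter [Fintype κ] (Z : Finset κ) (col : κ → ℕ) (t : ℕ) :
    cls univ col t ∩ Z = cls Z col t := by
  ext a
  simp [cls, and_comm]

theorem ts_rs_univ [Fintype κ] (τ : κ → ℕ) (Z : Finset κ) : ts (rs τ Z) univ = ts τ Z := by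
  rw [ts_ite, univ_inter]

theorem ts_rs_cls [Fintype κ] (τ : κ → ℕ) (Z : Finset κ) (col : κ → ℕ) (t : ℕ) :
    ts (rs τ Z) (cls univ col t) = ts τ (cls Z col t) := by
  rw [ts_ite, cls_inter]

theorem ts_ind_univ [Fintype κ] (Z : Finset κ) : ts (ind Z) univ = Z.card := by
  rw [ts_ind, univ_inter]

theorem ts_ind_cls [Fintype κ] (Z : Finset κ) (col : κ → ℕ) (t : ℕ) :
    ts (ind Z) (cls univ col t) = (cls Z col t).card := by
  rw [ts_ind, cls_inter]

theorem un_subset {D : Finset (Finset κ)} (h : ∀ Z ∈ D, Z ⊆ X) : un D ⊆ X := biUnion_subset.2 h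

theorem wl_single (h : WL w X τ K) (h2 : 2 ≤ X.card) {u : κ} (hu : u ∈ X) :
    τ u ≤ K * dg w X u ∨ ∃ Y ⊆ X, Y.Nonempty ∧ ts τ Y ≤ K * cw w {u} Y := by
  have h1 := h {u} (singleton_subset_iff.2 hu)
  have h3 : ts τ {u} = τ u := sum_singleton _ _
  rw [h3] at h1
  rcases min_le_iff.1 h1 with h4 | h4
  · exact Or.inl (h4.trans (Nat.mul_le_mul_left _ (cw_mono subset_rfl sdiff_subset)))
  · refine Or.inr ⟨_, sdiff_subset, ?_, h4⟩
    rw [← card_pos, card_sdiff_of_subset (singleton_subset_iff.2 hu), card_singleton]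
    omega

/-- The dyadic class of largest volume. -/
theorem dyadic (τ : κ → ℕ) (Z : Finset κ) (Λ : ℕ) (h : ∀ u ∈ Z, 1 ≤ τ u ∧ τ u < 2 ^ (Λ + 1)) :
    ∃ j, ∃ Q ⊆ Z, (∀ u ∈ Q, 2 ^ j ≤ τ u ∧ τ u < 2 ^ (j + 1)) ∧ ts τ Z ≤ (Λ + 1) * ts τ Q := by
  obtain ⟨j, -, hj⟩ := exists_max_image (range (Λ + 1))
    (fun j => ts τ (Z.filter fun u => Nat.log 2 (τ u) = j)) ⟨0, by simp⟩
  refine ⟨j, Z.filter fun u => Nat.log 2 (τ u) = j, filter_subset _ _, fun u hu => ?_, ?_⟩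
  · obtain ⟨h1, rfl⟩ := mem_filter.1 hu
    exact ⟨Nat.pow_log_le_self 2 (by have := (h u h1).1; omega),
      Nat.lt_pow_succ_log_self (by decide) _⟩
  · have h1 := sum_fiberwise_of_maps_to (s := Z) (t := range (Λ + 1))
      (g := fun u => Nat.log 2 (τ u)) (fun u hu => mem_range.2
        (Nat.log_lt_of_lt_pow (by have := (h u hu).1; omega) (h u hu).2)) τ
    have h2 := sum_le_card_nsmul _ _ _ hj
    rw [card_range, smul_eq_mul] at h2
    exact le_trans (le_of_eq h1.symm) h2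

end General

variable {V : Type} {G : SimpleGraph V} {X T : Finset V} {g A Λ : ℕ} {PP : Finset (Finset V)}

theorem ew_comm (a b : Finset V) : ew G a b = ew G b a := by
  unfold ew
  rw [cw_comm aw_comm a b]
  simp only [eq_comm]

theorem cw_ew (h : Sq.Part G X PP) (u : Finset V) {I : Finset (Finset V)} (hI : I ⊆ PP) :
    cw (ew G) {u} I = cw (aw G) u (un (I.erase u)) := by
  rw [cw_comm aw_comm, un, cw_biUnion (S := id) fun a ha b hb e =>
    h.disj a (hI (mem_of_mem_erase ha)) b (hI (mem_of_mem_erase hb)) e]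
  rw [cw, sum_singleton, ← sum_erase I (a := u) (by simp [ew])]
  refine sum_congr rfl fun a ha => ?_
  rw [ew, if_neg (ne_of_mem_erase ha).symm, cw_comm aw_comm]
  rfl

theorem un_erase (h : Sq.Part G X PP) {u : Finset V} (hu : u ∈ PP) : un (PP.erase u) = X \ u := by
  ext v
  rw [← h.un]
  simp only [un, mem_biUnion, mem_sdiff, mem_erase, id]
  constructor
  · rintro ⟨a, ⟨h1, h2⟩, h3⟩
    exact ⟨⟨a, h2, h3⟩, disjoint_left.1 (h.disj a h2 u hu h1) h3⟩
  · rintro ⟨⟨a, h1, h2⟩, h3⟩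
    exact ⟨a, ⟨fun e => h3 (e ▸ h2), h1⟩, h2⟩

theorem bo_eq (h : Sq.Part G X PP) {u : Finset V} (hu : u ∈ PP) :
    bo G X T u = cw (ew G) {u} PP + ts (ind T) u := by
  rw [cw_ew h u subset_rfl, un_erase h hu]
  rfl

theorem ts_bo (h : Sq.Part G X PP) {W : Finset (Finset V)} (hW : W ⊆ PP) :
    ts (bo G X T) W = cw (ew G) W W + out (ew G) (ts (ind T)) PP W := by
  have h1 : ts (bo G X T) W = cw (ew G) W PP + ts (ts (ind T)) W := by
    rw [cw_eq_sum, ts, ts, ← sum_add_distrib]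
    exact sum_congr rfl fun u hu => bo_eq h (hW hu)
  have h2 := cw_sdiff_right (w := ew G) (A := W) hW
  unfold out
  omega

theorem ts_bw (C : Finset V) : ts (bw G X T C) C = bo G X T C := by
  unfold bo out
  rw [cw_eq_sum, ts, ts, ← sum_add_distrib]
  rfl

theorem dg_le (h : Sq.Part G X PP) (sd : Finset V → Bool) {Z : Finset (Finset V)} (hZ : Z ⊆ PP)
    {u : Finset V} (hu : u ∈ PP) : dg (bip (ew G) sd) Z u ≤ bo G X T u := by
  rw [bo_eq h hu]
  exact ((cw_le fun a _ b _ => bip_le sd a b).trans (cw_mono subset_rfl hZ)).trans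
    (Nat.le_add_right _ _)

theorem five (h : Clu G X T g A Λ PP) {sd : Finset V → Bool} {K τ : ℕ} {Z : Finset (Finset V)}
    (hZ : ZOk G X T PP sd K τ Z) (hK : K < A) (hτ : 2 * τ ≤ g) : g < ts (bo G X T) Z ∧
    ∀ u ∈ Z, A ≤ bo G X T u ∧ bo G X T u ≤ K * dg (bip (ew G) sd) Z u := by
  have hthin : ∀ u ∈ Z, ∀ u' ∈ Z, A * ew G u u' ≤ bo G X T u := fun u hu u' hu' =>
    h.thin u (hZ.sub hu) u' (hZ.sub hu') (by have := hZ.le u hu; have := hZ.le u' hu'; omega)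
  have hdeg : ∀ u ∈ Z, bo G X T u ≤ K * dg (bip (ew G) sd) Z u := by
    intro u hu
    refine (wl_single hZ.wl hZ.two hu).resolve_right ?_
    rintro ⟨Y, hY, hne, h1⟩
    have h4 : cw (bip (ew G) sd) {u} Y ≤ cw (ew G) {u} Y := cw_le fun a _ b _ => bip_le sd a b
    have h5 : A * cw (ew G) {u} Y ≤ ts (bo G X T) Y := by
      rw [cw, sum_singleton, mul_sum]
      exact sum_le_sum fun a ha => ew_comm (G := G) a u ▸ hthin a (hY ha) u hu
    have h6 : 1 ≤ ts (bo G X T) Y := ts_pos (fun v hv => h.pos v (hZ.sub (hY hv))) hne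
    have h7 := h1.trans (Nat.mul_le_mul_left K h4)
    have h8 : 0 < cw (ew G) {u} Y := Nat.pos_of_mul_pos_left (h6.trans h7)
    exact absurd (Nat.le_of_mul_le_mul_right (h5.trans h7) h8) (not_le.2 hK)
  refine ⟨?_, fun u hu => ⟨?_, hdeg u hu⟩⟩
  · by_contra hc
    have h1 := ts_bo (T := T) h.part hZ.sub
    have h2 := h.dense Z hZ.sub (by omega)
    have h3 : ts (bo G X T) Z ≤ K * cw (ew G) Z Z := by
      refine (ts_le hdeg).trans (Nat.mul_le_mul_left _ ?_)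
      rw [cw_eq_sum]
      exact sum_le_sum fun u _ => cw_le fun a _ b _ => bip_le sd a b
    have h4 : 1 ≤ ts (bo G X T) Z := ts_pos (fun v hv => h.pos v (hZ.sub hv))
      (card_pos.1 (by have := hZ.two; omega))
    have h5 : 0 < cw (ew G) Z Z := Nat.pos_of_mul_pos_left (h4.trans h3)
    exact absurd (Nat.le_of_mul_le_mul_right (h2.trans h3) h5) (not_le.2 hK)
  · have h1 : 0 < dg (bip (ew G) sd) Z u :=
      Nat.pos_of_mul_pos_left ((h.pos u (hZ.sub hu)).trans (hdeg u hu))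
    obtain ⟨a, ha, b, hb, hab⟩ := exists_of_cw_pos h1
    rw [mem_singleton.1 ha] at hab
    exact (Nat.le_mul_of_pos_right A (hab.trans_le (bip_le sd u b))).trans (hthin u hu b hb)

theorem bo_le [Fintype V] (hG : Deg G univ 6) (u : Finset V) :
    bo G X T u ≤ 7 * Fintype.card V := by
  have h1 := hG.cw_le (subset_univ u) (subset_univ (X \ u))
  have h2 : ts (ind T) u ≤ u.card := by
    rw [ts_ind]
    exact card_le_card inter_subset_left
  have h3 := card_le_univ u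
  unfold bo out
  omega

end ClbP

open ClbP in
theorem clb (comp : CompStmt) : ClbStmt := by
  intro V _ G X T g A Λ PP h hA hΛ
  refine ⟨fun I hI K hK τ hτ => ?_, fun I hI K hne hK => ?_, fun hG u hu I hI => ?_,
    fun h2 W hW => ?_, fun sd K τ Z hZ hK hτ => five h hZ hK hτ⟩
  · have hle : ∀ x y, (if ∃ C ∈ PP, x ∈ C ∧ y ∈ C then 0 else aw G x y) ≤ aw G x y := by
      intro x y
      split_ifs
      · exact Nat.zero_le _
      · exact le_rfl
    refine comp V (Finset V) (aw G) (fun x y => if ∃ C ∈ PP, x ∈ C ∧ y ∈ C then 0 else aw G x y)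
      τ I id (28 * A * Λ) K (fun x y => ?_) hle (Nat.mul_pos (by omega) hΛ)
      (fun a ha b hb e => h.part.disj a (hI ha) b (hI hb) e) (fun C hC => ?_) ?_
    · simp only [aw_comm (G := G) x y, and_comm]
    · refine wl_mono (m := 2) (h.wl C (hI hC)) (fun _ _ _ _ _ => le_rfl) (fun v hv => ?_)
        (le_of_eq (by ring))
      have h1 := hτ C hC v hv
      have h2 : I.biUnion id \ C ⊆ X \ C := by
        rw [← h.part.un]
        exact sdiff_subset_sdiff (biUnion_subset_biUnion_of_subset_left _ hI) subset_rfl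
      have h3 := (cw_le (A := {v}) fun a _ b _ => hle a b).trans (cw_mono subset_rfl h2)
      have h4 : cw (aw G) {v} (X \ C) ≤ bw G X T C v := Nat.le_add_right _ _
      simp only [id] at h3 ⊢
      omega
    · refine wl_mono (m := 1) hK (fun a ha b hb e => ?_) (fun a ha => ?_) (by omega)
      · rw [ew, if_neg e]
        refine cw_le fun x hx y hy => ?_
        rw [if_neg]
        rintro ⟨C, hC, h1, h2⟩
        by_cases e1 : C = a
        · exact disjoint_left.1 (h.part.disj a (hI ha) b (hI hb) e) (e1 ▸ h2) hy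
        · exact disjoint_left.1 (h.part.disj C hC a (hI ha) e1) h1 hx
      · rw [one_mul, ← ts_bw]
        exact sum_le_sum (hτ a ha)
  · refine Conn.biUnion (wl_conn hK (fun v hv => h.pos v (hI hv)) hne)
      (fun i hi => h.part.conn i (hI hi)) fun i _ j _ hij => ?_
    obtain ⟨e, h1⟩ := (SimpleGraph.fromRel_adj _ _ _).1 hij
    rw [ew_comm j i, or_self, ew, if_neg e] at h1
    obtain ⟨x, hx, y, hy, hxy⟩ := exists_of_cw_pos h1
    refine ⟨x, hx, y, hy, ?_⟩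
    by_contra hc
    simp [aw, hc] at hxy
  · have hy : ∀ x : V, ∃ y, (∃ z ∈ un (I.erase u), G.Adj x z) → y ∈ un (I.erase u) ∧ G.Adj x y := by
      intro x
      by_cases hx : ∃ z ∈ un (I.erase u), G.Adj x z
      · obtain ⟨z, hz⟩ := hx
        exact ⟨z, fun _ => hz⟩
      · exact ⟨x, fun h => absurd h hx⟩
    choose y hy using hy
    refine ⟨u.filter fun x => ∃ z ∈ un (I.erase u), G.Adj x z, filter_subset _ _, y,
      fun x hx => hy x (mem_filter.1 hx).2, ?_⟩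
    rw [cw_ew h.part u hI, ← cw_sdiff_left (filter_subset (fun x => ∃ z ∈ un (I.erase u),
      G.Adj x z) u), cw_eq_zero.2, zero_add, mul_comm]
    · exact hG.cw_le (subset_univ _) (subset_univ _)
    · intro a ha b hb
      obtain ⟨h1, h2⟩ := mem_sdiff.1 ha
      exact if_neg fun hab => h2 (mem_filter.2 ⟨h1, b, hb, hab⟩)
  · by_cases hc : out (ew G) (ts (ind T)) PP W ≤ g
    · have h1 := h.dense W hW hc
      have h3 := ts_bo (T := T) h.part hW
      have h4 := Nat.mul_le_mul_right (cw (ew G) W W) h2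
      omega
    · omega

open ClbP in
theorem colz (_clb : ClbStmt) (col : ColStmt) : ColzStmt := by
  obtain ⟨c₀, hcol⟩ := col
  refine ⟨c₀ + 11, ?_⟩
  intro V ι' ι'' _ G X T g A Λ PP sd K τ ZZ I' y I'' F L r C B t₀ t₁ hG hV h hPD hZ hΛ hK hC hB
    ht₀ ht₁ hA hτ hI' hy hF
  have hpw : ∀ {i j : ℕ}, i ≤ j → B ^ i ≤ B ^ j := fun hij => Nat.pow_le_pow_right (by omega) hij
  have hB2 : ∀ i, 2 ^ i ≤ B ^ i := fun i => Nat.pow_le_pow_left hB i
  have hBA : B < A := by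
    have h1 : B ^ 2 ≤ A := (hpw (by omega)).trans hA
    nlinarith
  have hτ2 : 2 * τ ≤ g := by
    refine le_trans (Nat.mul_le_mul_right _ ?_) hτ
    exact le_trans (by simpa using hB) (hpw (i := 1) (by omega))
  have h5 := fun Z hZ' => five h (hZ Z hZ') (by omega) hτ2
  have hdeg : ∀ Z ∈ ZZ, ∀ u ∈ Z, bo G X T u ≤ B * dg (bip (ew G) sd) Z u := fun Z hZ' u hu =>
    ((h5 Z hZ').2 u hu).2.trans (Nat.mul_le_mul_right _ hK)
  have hPP : PP.card ≤ 2 ^ B := by
    have h1 := card_le_un (D := PP) h.part.disj fun C hC => (h.part.conn C hC).1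
    have h2 := card_le_univ (un PP)
    have h3 : 2 ^ Λ ≤ 2 ^ B := Nat.pow_le_pow_right (by decide) hΛ
    omega
  have hZZ : ZZ.card ≤ 2 ^ B := by
    refine (card_le_un hPD fun Z hZ' => card_pos.1 (by have := (hZ Z hZ').two; omega)).trans
      (le_trans (card_le_card ?_) hPP)
    exact un_subset fun Z hZ' => (hZ Z hZ').sub
  have hdy : ∀ Z : Finset (Finset V), ∃ j, ∃ Q : Finset (Finset V), Z ∈ ZZ → Q ⊆ Z ∧
      (∀ u ∈ Q, 2 ^ j ≤ bo G X T u ∧ bo G X T u < 2 ^ (j + 1)) ∧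
      ts (bo G X T) Z ≤ (Λ + 1) * ts (bo G X T) Q := by
    intro Z
    by_cases hZ' : Z ∈ ZZ
    · obtain ⟨j, Q, h1⟩ := dyadic (bo G X T) Z Λ fun u hu =>
        ⟨h.pos u ((hZ Z hZ').sub hu), by
          have := bo_le (X := X) (T := T) hG u
          rw [pow_succ]
          omega⟩
      exact ⟨j, Q, fun _ => h1⟩
    · exact ⟨0, ∅, fun h => absurd h hZ'⟩
  choose j Q hQ using hdy
  have h4B : 4 ^ B = 2 ^ B * 2 ^ B := mul_pow 2 2 B
  have h22 : 2 ^ (2 * B + 2) = 4 * (2 ^ B * 2 ^ B) := by ring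
  have h1B : 1 ≤ 2 ^ B := Nat.one_le_two_pow
  have hsq : 2 ^ B ≤ 2 ^ B * 2 ^ B := Nat.le_mul_of_pos_right _ h1B
  have hlt : B < 2 ^ B := Nat.lt_two_pow_self
  have hΘ : B ^ (c₀ + 9) ≤ B ^ (c₀ + 11) := hpw (by omega)
  obtain ⟨cl, h1, h2⟩ := hcol (Finset V) (Finset (Finset V))
    (ι' ⊕ (Finset (Finset V) ⊕ Finset (Finset V))) ι'' ZZ id (fun _ => bip (ew G) sd)
    (fun _ => sd) (I'.disjSum (ZZ.disjSum ZZ))
    (Sum.elim y (Sum.elim (rs (bo G X T)) fun Z => ind (Q Z)))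
    I'' F L r C B (2 * B + 2) (B ^ (c₀ + 9)) t₀ (by omega) ht₀ (by omega) (by omega)
    (by rw [card_disjSum, card_disjSum]; omega)
    (by
      have a1 : c₀ ≤ B ^ c₀ := (Nat.lt_two_pow_self).le.trans (hB2 c₀)
      have a2 : C ^ 2 ≤ B ^ 2 := Nat.pow_le_pow_left hC 2
      have a3 : 2 * B + 2 + 1 ≤ B ^ 3 := by
        have := hB2 2
        calc 2 * B + 2 + 1 ≤ 2 ^ 2 * B := by omega
          _ ≤ B ^ 2 * B := Nat.mul_le_mul_right _ this
          _ = B ^ 3 := by ring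
      calc c₀ * C ^ 2 * B ^ 4 * (2 * B + 2 + 1) ≤ B ^ c₀ * B ^ 2 * B ^ 4 * B ^ 3 := by gcongr
        _ = B ^ (c₀ + 9) := by ring)
    (fun Z hZ' => by
      have hz := hZ Z hZ'
      refine ⟨((card_le_card hz.sub).trans hPP).trans (by omega), fun a b => ?_,
        fun a _ b _ e => if_pos e, ?_, fun a ha b hb => ?_⟩
      · simp only [bip, ew_comm a b, eq_comm]
      · exact wl_mono (m := 1) hz.wl (fun _ _ _ _ _ => le_rfl)
          (fun v hv => by rw [one_mul]; exact dg_le h.part sd hz.sub (hz.sub hv)) (by omega)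
      · have a1 := h.thin a (hz.sub ha) b (hz.sub hb)
          (by have := hz.le a ha; have := hz.le b hb; omega)
        refine Nat.le_of_mul_le_mul_left ?_ (show 0 < B by omega)
        calc B * (B ^ (c₀ + 9) * bip (ew G) sd a b) = B ^ (c₀ + 10) * bip (ew G) sd a b := by ring
          _ ≤ A * ew G a b := Nat.mul_le_mul ((hpw (by omega)).trans hA) (bip_le sd a b)
          _ ≤ _ := a1.trans (hdeg Z hZ' a ha))
    (by
      rintro (i | Z | Z) hi a
      · exact (Nat.mul_le_mul_right _ hΘ).trans (hy i (inl_mem_disjSum.1 hi) a)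
      · have hZ' : Z ∈ ZZ := inl_mem_disjSum.1 (inr_mem_disjSum.1 hi)
        simp only [Sum.elim_inr, Sum.elim_inl]
        rw [ts_rs_univ]
        exact rs_le (fun a ha =>
          ((Nat.mul_le_mul hΘ ((hZ Z hZ').le a ha)).trans hτ).trans (h5 Z hZ').1.le) a
      · have hZ' : Z ∈ ZZ := inr_mem_disjSum.1 (inr_mem_disjSum.1 hi)
        simp only [Sum.elim_inr]
        rw [ts_ind_univ]
        obtain ⟨q1, -, q3⟩ := hQ Z hZ'
        have a1 : ts (bo G X T) (Q Z) ≤ (Q Z).card * τ :=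
          sum_le_card_nsmul _ _ _ fun u hu => (hZ Z hZ').le u (q1 hu)
        have a2 : Λ + 1 ≤ B ^ 2 := by nlinarith
        have a3 : B ^ 2 * B ^ (c₀ + 9) * τ < B ^ 2 * (Q Z).card * τ :=
          calc B ^ 2 * B ^ (c₀ + 9) * τ = B ^ (c₀ + 11) * τ := by ring
            _ < ts (bo G X T) Z := hτ.trans_lt (h5 Z hZ').1
            _ ≤ B ^ 2 * ((Q Z).card * τ) := q3.trans (Nat.mul_le_mul a2 a1)
            _ = _ := by ring
        have a4 := (Nat.lt_of_mul_lt_mul_left (Nat.lt_of_mul_lt_mul_right a3)).le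
        unfold ind
        split_ifs
        · rwa [mul_one]
        · exact Nat.zero_le _)
    hF
  refine ⟨cl, fun Z hZ' => ⟨fun t ht => ?_, fun t ht u hu => ?_, fun t ht => ?_, ?_⟩,
    fun t ht i hi => ((h1 t ht).2 (Sum.inl i) (inl_mem_disjSum.2 hi)).1, h2⟩
  · refine wl_mono (m := B) ((h1 t ht).1 Z hZ').1 (fun a _ b _ _ => bip_le sd a b)
      (fun v hv => hdeg Z hZ' v (mem_filter.1 hv).1) ?_
    calc B * (16 * C * B ^ 2) ≤ B * (B ^ 4 * B * B ^ 2) := by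
          gcongr
          exact hB2 4
      _ = B ^ 8 := by ring
      _ ≤ _ := hpw (by omega)
  · have a1 := ((h1 t ht).1 Z hZ').2 u hu
    have a2 : cw (bip (ew G) sd) {u} (cls Z cl t) ≤ cw (ew G) {u} (cls Z cl t) :=
      cw_le fun a _ b _ => bip_le sd a b
    calc bo G X T u ≤ B * (2 * C * cw (bip (ew G) sd) {u} (cls Z cl t)) :=
          (hdeg Z hZ' u hu).trans (Nat.mul_le_mul_left _ a1)
      _ ≤ B * (B * B * cw (ew G) {u} (cls Z cl t)) := by gcongr
      _ = B ^ 3 * cw (ew G) {u} (cls Z cl t) := by ring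
      _ ≤ _ := Nat.mul_le_mul_right _ (hpw (by omega))
  · have a1 := ((h1 t ht).2 (Sum.inr (Sum.inl Z))
      (inr_mem_disjSum.2 (inl_mem_disjSum.2 hZ'))).1
    simp only [Sum.elim_inr, Sum.elim_inl] at a1
    rw [ts_rs_univ, ts_rs_cls] at a1
    refine a1.trans (Nat.mul_le_mul_right _ ?_)
    calc 2 * C ≤ B * B := by gcongr
      _ = B ^ 2 := by ring
      _ ≤ _ := hpw (by omega)
  · obtain ⟨q1, q2, q3⟩ := hQ Z hZ'
    have a1 := ((h1 t₁ ht₁).2 (Sum.inr (Sum.inr Z))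
      (inr_mem_disjSum.2 (inr_mem_disjSum.2 hZ'))).1
    simp only [Sum.elim_inr] at a1
    rw [ts_ind_univ, ts_ind_cls] at a1
    refine ⟨j Z, cls (Q Z) cl t₁, filter_subset_filter _ q1,
      fun u hu => q2 u (mem_filter.1 hu).1, ?_⟩
    have a2 : ts (bo G X T) (Q Z) ≤ (Q Z).card * 2 ^ (j Z + 1) :=
      sum_le_card_nsmul _ _ _ fun u hu => (q2 u hu).2.le
    have a3 : Λ + 1 ≤ B ^ 2 := by nlinarith
    calc ts (bo G X T) Z ≤ B ^ 2 * (2 * C * (cls (Q Z) cl t₁).card * 2 ^ (j Z + 1)) :=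
          q3.trans (Nat.mul_le_mul a3 (a2.trans (Nat.mul_le_mul_right _ a1)))
      _ = B ^ 2 * 2 * C * 2 * ((cls (Q Z) cl t₁).card * 2 ^ j Z) := by ring
      _ ≤ B ^ 2 * B * B * B * ((cls (Q Z) cl t₁).card * 2 ^ j Z) := by gcongr
      _ = B ^ 5 * ((cls (Q Z) cl t₁).card * 2 ^ j Z) := by ring
      _ ≤ _ := Nat.mul_le_mul_right _ (hpw (by omega))

end Pool.Agent.MP_35cb46_co.Nl
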