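import Mathlib.Algebra.BigOperators.Field
import Pool.Agent.MP_35cb46_co.nl.DoneA
import Pool.Agent.MP_35cb46_co.sq.Clus
import Pool.Agent.MP_35cb46_co.nl.Spec

-- ======== part 0: formerly Pool.Agent.MP_35cb46_co.nl.ColA
section MrgPart0

/-! PROJECT NL, row COL: the deterministic spectral part. -/

noncomputable section

namespace Pool.Agent.MP_35cb46_co.Nl

open Finset Pool.Agent.MP_7be75d_co Pool.Agent.MP_35cb46_co.Sq
open scoped Classical

namespace ColP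

variable {κ : Type} {w B : κ → κ → ℝ} {d : κ → ℝ} {L R : Finset κ} {m : ℝ}

theorem dir_eq (w : κ → κ → ℝ) (L R : Finset κ) (x y : κ → ℝ) :
    ∑ a ∈ L, ∑ b ∈ R, w a b * (x a - y b) ^ 2 =
      ∑ a ∈ L, (∑ b ∈ R, w a b) * x a ^ 2 + ∑ b ∈ R, (∑ a ∈ L, w a b) * y b ^ 2 -
        2 * ∑ a ∈ L, ∑ b ∈ R, w a b * x a * y b := by
  have h1 : ∑ b ∈ R, (∑ a ∈ L, w a b) * y b ^ 2 = ∑ a ∈ L, ∑ b ∈ R, w a b * y b ^ 2 := by
    rw [sum_comm]; simp [sum_mul]
  rw [h1]
  simp only [sum_mul, mul_sum, ← sum_add_distrib, ← sum_sub_distrib]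
  exact sum_congr rfl fun a _ => sum_congr rfl fun b _ => by ring

theorem am (S : Finset κ) (u v : κ → ℝ) (μ : ℝ) :
    2 * μ * ∑ a ∈ S, u a * v a ≤ μ ^ 2 * ∑ a ∈ S, u a ^ 2 + ∑ a ∈ S, v a ^ 2 := by
  simp only [mul_sum, ← sum_add_distrib]
  exact sum_le_sum fun a _ => by nlinarith [sq_nonneg (μ * u a - v a)]

/-- The transposed operator has the same bound. -/
theorem transp {μ : ℝ} (hμ : 0 < μ)
    (h : ∀ z : κ → ℝ, ∑ b ∈ R, (∑ a ∈ L, B a b * z a) ^ 2 ≤ μ * ∑ a ∈ L, z a ^ 2) (g : κ → ℝ) :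
    ∑ a ∈ L, (∑ b ∈ R, B a b * g b) ^ 2 ≤ μ * ∑ b ∈ R, g b ^ 2 := by
  set z : κ → ℝ := fun a => ∑ b ∈ R, B a b * g b with hz
  have h1 : ∑ a ∈ L, z a ^ 2 = ∑ b ∈ R, g b * ∑ a ∈ L, B a b * z a := by
    simp only [mul_sum]
    rw [sum_comm]
    refine sum_congr rfl fun a _ => ?_
    rw [sq]
    conv_lhs => rw [hz]
    simp only [sum_mul]
    exact sum_congr rfl fun b _ => by ring
  have h2 := am R g (fun b => ∑ a ∈ L, B a b * z a) μ
  have h3 := h z
  rw [← h1] at h2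
  have h4 : μ * ∑ a ∈ L, z a ^ 2 ≤ μ * (μ * ∑ b ∈ R, g b ^ 2) := by nlinarith
  exact le_of_mul_le_mul_left h4 hμ

theorem bil_le {ν : ℝ} (hν : 0 < ν) (f g : κ → ℝ)
    (h : ∑ a ∈ L, (∑ b ∈ R, B a b * g b) ^ 2 ≤ ν ^ 2 * ∑ b ∈ R, g b ^ 2) :
    2 * ∑ a ∈ L, ∑ b ∈ R, B a b * f a * g b ≤ ν * (∑ a ∈ L, f a ^ 2 + ∑ b ∈ R, g b ^ 2) := by
  have h1 : ∑ a ∈ L, ∑ b ∈ R, B a b * f a * g b = ∑ a ∈ L, f a * ∑ b ∈ R, B a b * g b := by
    simp only [mul_sum]
    exact sum_congr rfl fun a _ => sum_congr rfl fun b _ => by ring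
  have h2 := am L f (fun a => ∑ b ∈ R, B a b * g b) ν
  rw [h1]
  refine le_of_mul_le_mul_left ?_ hν
  nlinarith

theorem op_le {ν : ℝ} (hν : 0 < ν)
    (h : ∀ f g : κ → ℝ, 2 * ∑ a ∈ L, ∑ b ∈ R, B a b * f a * g b ≤
      ν * (∑ a ∈ L, f a ^ 2 + ∑ b ∈ R, g b ^ 2)) (z : κ → ℝ) :
    ∑ b ∈ R, (∑ a ∈ L, B a b * z a) ^ 2 ≤ ν ^ 2 * ∑ a ∈ L, z a ^ 2 := by
  set g : κ → ℝ := fun b => ∑ a ∈ L, B a b * z a with hg
  have h1 := h (fun a => ν * z a) g
  have h2 : ∑ a ∈ L, ∑ b ∈ R, B a b * (ν * z a) * g b = ν * ∑ b ∈ R, g b ^ 2 := by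
    rw [sum_comm, mul_sum]
    refine sum_congr rfl fun b _ => ?_
    have e : ν * g b ^ 2 = ν * (∑ a ∈ L, B a b * z a) * g b := by rw [sq, mul_assoc]
    rw [e, mul_sum L _ ν, sum_mul]
    exact sum_congr rfl fun a _ => by ring
  have h3 : ∑ a ∈ L, (ν * z a) ^ 2 = ν ^ 2 * ∑ a ∈ L, z a ^ 2 := by
    rw [mul_sum]; exact sum_congr rfl fun a _ => by ring
  rw [h2, h3] at h1
  refine le_of_mul_le_mul_left ?_ hν
  nlinarith

/-- A weighted bipartite graph with its degrees and its number of edges. -/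
structure Bp (w : κ → κ → ℝ) (d : κ → ℝ) (L R : Finset κ) (m : ℝ) : Prop where
  nn : ∀ a b, 0 ≤ w a b
  dl : ∀ a ∈ L, d a = ∑ b ∈ R, w a b
  dr : ∀ b ∈ R, d b = ∑ a ∈ L, w a b
  ml : m = ∑ a ∈ L, d a
  pos : 0 < m

theorem Bp.mr (h : Bp w d L R m) : m = ∑ b ∈ R, d b := by
  rw [h.ml, sum_congr rfl h.dl, sum_congr rfl h.dr, sum_comm]

theorem Bp.nl (h : Bp w d L R m) {a : κ} (ha : a ∈ L) : 0 ≤ d a := by
  rw [h.dl a ha]; exact sum_nonneg fun b _ => h.nn a b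

theorem Bp.nr (h : Bp w d L R m) {b : κ} (hb : b ∈ R) : 0 ≤ d b := by
  rw [h.dr b hb]; exact sum_nonneg fun a _ => h.nn a b

theorem Bp.le_l (h : Bp w d L R m) {a b : κ} (ha : a ∈ L) (hb : b ∈ R) : w a b ≤ d a := by
  rw [h.dl a ha]; exact single_le_sum (f := fun b => w a b) (fun b _ => h.nn a b) hb

theorem Bp.le_r (h : Bp w d L R m) {a b : κ} (ha : a ∈ L) (hb : b ∈ R) : w a b ≤ d b := by
  rw [h.dr b hb]; exact single_le_sum (f := fun a => w a b) (fun a _ => h.nn a b) ha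

theorem Bp.swap (h : Bp w d L R m) : Bp (fun a b => w b a) d R L m :=
  ⟨fun a b => h.nn b a, h.dr, h.dl, h.mr, h.pos⟩

theorem sq_shift (S : Finset κ) (d x : κ → ℝ) (u : ℝ) :
    ∑ a ∈ S, d a * (x a - u) ^ 2 =
      ∑ a ∈ S, d a * x a ^ 2 - 2 * u * ∑ a ∈ S, d a * x a + u ^ 2 * ∑ a ∈ S, d a := by
  simp only [mul_sum, ← sum_add_distrib, ← sum_sub_distrib]
  exact sum_congr rfl fun a _ => by ring

/-- The quadratic form without its trivial direction. -/
theorem Bp.quad (h : Bp w d L R m) {γ : ℝ} (h0 : 0 ≤ γ) (h1 : γ ≤ 1)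
    (hc : ∀ x y : κ → ℝ, ∃ c : ℝ, γ * (∑ a ∈ L, d a * (x a - c) ^ 2 +
      ∑ b ∈ R, d b * (y b - c) ^ 2) ≤ ∑ a ∈ L, ∑ b ∈ R, w a b * (x a - y b) ^ 2)
    (x y : κ → ℝ) :
    2 * (∑ a ∈ L, ∑ b ∈ R, w a b * x a * y b - (∑ a ∈ L, d a * x a) * (∑ b ∈ R, d b * y b) / m) ≤
      (1 - γ) * (∑ a ∈ L, d a * x a ^ 2 + ∑ b ∈ R, d b * y b ^ 2) := by
  obtain ⟨α, hα⟩ : ∃ α, ∑ a ∈ L, d a * x a = α * m := ⟨_, (div_mul_cancel₀ _ h.pos.ne').symm⟩
  obtain ⟨β, hβ⟩ : ∃ β, ∑ b ∈ R, d b * y b = β * m := ⟨_, (div_mul_cancel₀ _ h.pos.ne').symm⟩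
  obtain ⟨c, hc⟩ := hc (fun a => x a - α) (fun b => y b - β)
  rw [dir_eq] at hc
  have e1 : ∑ a ∈ L, (∑ b ∈ R, w a b) * (x a - α) ^ 2 = ∑ a ∈ L, d a * (x a - α) ^ 2 :=
    sum_congr rfl fun a ha => by rw [h.dl a ha]
  have e2 : ∑ b ∈ R, (∑ a ∈ L, w a b) * (y b - β) ^ 2 = ∑ b ∈ R, d b * (y b - β) ^ 2 :=
    sum_congr rfl fun b hb => by rw [h.dr b hb]
  have e3 : ∑ a ∈ L, ∑ b ∈ R, w a b * (x a - α) * (y b - β) =
      ∑ a ∈ L, ∑ b ∈ R, w a b * x a * y b - β * ∑ a ∈ L, d a * x a - α * ∑ b ∈ R, d b * y b +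
        α * β * ∑ a ∈ L, d a := by
    have f1 : ∑ a ∈ L, d a * x a = ∑ a ∈ L, ∑ b ∈ R, w a b * x a :=
      sum_congr rfl fun a ha => by rw [h.dl a ha, sum_mul]
    have f2 : ∑ b ∈ R, d b * y b = ∑ a ∈ L, ∑ b ∈ R, w a b * y b := by
      rw [sum_comm]; exact sum_congr rfl fun b hb => by rw [h.dr b hb, sum_mul]
    rw [f1, f2, sum_congr rfl h.dl]
    simp only [mul_sum, ← sum_add_distrib, ← sum_sub_distrib]
    exact sum_congr rfl fun a _ => sum_congr rfl fun b _ => by ring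
  simp only [sub_sub] at hc
  rw [e1, e2, e3] at hc
  simp only [sq_shift] at hc
  rw [← h.ml, ← h.mr, hα, hβ] at hc
  rw [hα, hβ]
  have e4 : α * m * (β * m) / m = α * β * m := by field_simp
  rw [e4]
  have p1 : 0 ≤ γ * (c ^ 2 * m) := mul_nonneg h0 (mul_nonneg (sq_nonneg _) h.pos.le)
  have p2 : 0 ≤ (1 - γ) * ((α ^ 2 + β ^ 2) * m) :=
    mul_nonneg (by linarith) (mul_nonneg (by positivity) h.pos.le)
  nlinarith

/-- The normalised weights without the trivial direction. -/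
def bm (w : κ → κ → ℝ) (d : κ → ℝ) (m : ℝ) (a b : κ) : ℝ :=
  w a b / (√(d a) * √(d b)) - √(d a) * √(d b) / m

theorem bm_swap (w : κ → κ → ℝ) (d : κ → ℝ) (m : ℝ) (a b : κ) :
    bm (fun a b => w b a) d m b a = bm w d m a b := by simp [bm, mul_comm]

theorem sub_sum (w : κ → κ → ℝ) (d : κ → ℝ) (m : ℝ) (L R : Finset κ) (x y : κ → ℝ) :
    ∑ a ∈ L, ∑ b ∈ R, (w a b * x a * y b - d a * x a * (d b * y b) / m) =
      ∑ a ∈ L, ∑ b ∈ R, w a b * x a * y b - (∑ a ∈ L, d a * x a) * (∑ b ∈ R, d b * y b) / m := by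
  simp only [sum_sub_distrib, sum_mul_sum, sum_div]

theorem Bp.norm (h : Bp w d L R m) {γ : ℝ} (h0 : 0 ≤ γ) (h1 : γ ≤ 1)
    (hc : ∀ x y : κ → ℝ, ∃ c : ℝ, γ * (∑ a ∈ L, d a * (x a - c) ^ 2 +
      ∑ b ∈ R, d b * (y b - c) ^ 2) ≤ ∑ a ∈ L, ∑ b ∈ R, w a b * (x a - y b) ^ 2)
    (f g : κ → ℝ) :
    2 * ∑ a ∈ L, ∑ b ∈ R, bm w d m a b * f a * g b ≤
      (1 - γ) * (∑ a ∈ L, f a ^ 2 + ∑ b ∈ R, g b ^ 2) := by
  have h2 := h.quad h0 h1 hc (fun a => f a / √(d a)) (fun b => g b / √(d b))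
  rw [← sub_sum] at h2
  have k1 : ∀ s u : ℝ, s * (u / √s) = √s * u := fun s u => by
    rw [← mul_div_assoc, mul_comm s, mul_div_assoc, Real.div_sqrt, mul_comm]
  have k2 : ∀ s u : ℝ, 0 ≤ s → s * (u / √s) ^ 2 ≤ u ^ 2 := fun s u hs => by
    rw [div_pow, Real.sq_sqrt hs]
    rcases hs.eq_or_lt with rfl | hs
    · simp [sq_nonneg]
    · rw [mul_div_cancel₀ _ hs.ne']
  have e : ∑ a ∈ L, ∑ b ∈ R, bm w d m a b * f a * g b = ∑ a ∈ L, ∑ b ∈ R,
      (w a b * (f a / √(d a)) * (g b / √(d b)) -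
        d a * (f a / √(d a)) * (d b * (g b / √(d b))) / m) :=
    sum_congr rfl fun a _ => sum_congr rfl fun b _ => by
      rw [k1, k1, bm]; ring
  rw [e]
  refine h2.trans (mul_le_mul_of_nonneg_left (add_le_add ?_ ?_) (by linarith))
  · exact sum_le_sum fun a ha => k2 _ _ (h.nl ha)
  · exact sum_le_sum fun b hb => k2 _ _ (h.nr hb)

/-- Columns are short. -/
theorem Bp.colm (h : Bp w d L R m) {Θ : ℝ} (hΘ : 0 < Θ) (hw : ∀ a ∈ L, ∀ b ∈ R, Θ * w a b ≤ d a)
    {b : κ} (hb : b ∈ R) : ∑ a ∈ L, bm w d m a b ^ 2 ≤ 2 / Θ := by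
  have hm := h.pos
  have hdb := h.nr hb
  have k1 : ∀ a ∈ L, bm w d m a b ^ 2 ≤ w a b / (Θ * d b) + d a * d b / m ^ 2 := by
    intro a ha
    have hda := h.nl ha
    have hwn := h.nn a b
    have p1 : 0 ≤ w a b / (√(d a) * √(d b)) := by positivity
    have p2 : 0 ≤ √(d a) * √(d b) / m := by positivity
    have p3 : (√(d a) * √(d b) / m) ^ 2 = d a * d b / m ^ 2 := by
      rw [div_pow, mul_pow, Real.sq_sqrt hda, Real.sq_sqrt hdb]
    have p4 : (w a b / (√(d a) * √(d b))) ^ 2 ≤ w a b / (Θ * d b) := by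
      rw [div_pow, mul_pow, Real.sq_sqrt hda, Real.sq_sqrt hdb]
      rcases hwn.eq_or_lt with e | hp
      · simp [← e]
      · have q1 := h.le_l ha hb
        have q2 := h.le_r ha hb
        have q3 := hw a ha b hb
        rw [div_le_div_iff₀ (mul_pos (by linarith) (by linarith)) (mul_pos hΘ (by linarith))]
        have := mul_le_mul_of_nonneg_left q3 (mul_nonneg hp.le hdb)
        nlinarith
    unfold bm
    nlinarith [mul_nonneg p1 p2]
  refine (sum_le_sum k1).trans ?_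
  rw [sum_add_distrib, ← sum_div, ← sum_div, ← sum_mul, ← h.dr b hb, ← h.ml]
  have k2 : d b / (Θ * d b) ≤ 1 / Θ := by
    rcases hdb.eq_or_lt with e | hp
    · rw [← e]; simp [hΘ.le]
    · apply le_of_eq; field_simp
  have k3 : Θ * d b ≤ m := by
    rw [h.dr b hb, h.ml, mul_sum]; exact sum_le_sum fun a ha => hw a ha b hb
  have k4 : m * d b / m ^ 2 ≤ 1 / Θ := by
    rw [div_le_div_iff₀ (by positivity) hΘ]; nlinarith
  have k5 : 2 / Θ = 1 / Θ + 1 / Θ := by ring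
  linarith

/-- The Dirichlet form on a colour class. -/
theorem Bp.dir (h : Bp w d L R m) {L' R' : Finset κ} (hL : L' ⊆ L) (hR : R' ⊆ R) {ν δ : ℝ}
    (hν : 0 < ν)
    (hop : ∀ g : κ → ℝ, ∑ a ∈ L', (∑ b ∈ R', bm w d m a b * g b) ^ 2 ≤ ν ^ 2 * ∑ b ∈ R', g b ^ 2)
    (hdl : ∀ a ∈ L', δ * d a ≤ ∑ b ∈ R', w a b) (hdr : ∀ b ∈ R', δ * d b ≤ ∑ a ∈ L', w a b)
    (x : κ → ℝ) : ∃ c : ℝ, (δ - ν) * (∑ a ∈ L', d a * (x a - c) ^ 2 +
      ∑ b ∈ R', d b * (x b - c) ^ 2) ≤ ∑ a ∈ L', ∑ b ∈ R', w a b * (x a - x b) ^ 2 := by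
  obtain ⟨c, hc⟩ : ∃ c, ∑ a ∈ L', d a * (x a - c) = 0 := by
    refine ⟨(∑ a ∈ L', d a * x a) / ∑ a ∈ L', d a, ?_⟩
    by_cases h0 : ∑ a ∈ L', d a = 0
    · rw [sum_eq_zero_iff_of_nonneg fun a ha => h.nl (hL ha)] at h0
      exact sum_eq_zero fun a ha => by rw [h0 a ha, zero_mul]
    · simp only [mul_sub, sum_sub_distrib, ← sum_mul]
      field_simp
      ring
  refine ⟨c, ?_⟩
  have e0 : ∑ a ∈ L', ∑ b ∈ R', w a b * (x a - x b) ^ 2 =
      ∑ a ∈ L', ∑ b ∈ R', w a b * ((x a - c) - (x b - c)) ^ 2 := by simp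
  rw [e0, dir_eq w L' R' (fun a => x a - c) (fun a => x a - c)]
  have h1 := bil_le hν (fun a => √(d a) * (x a - c)) (fun b => √(d b) * (x b - c)) (hop _)
  have e1 : ∑ a ∈ L', ∑ b ∈ R', bm w d m a b * (√(d a) * (x a - c)) * (√(d b) * (x b - c)) =
      ∑ a ∈ L', ∑ b ∈ R', (w a b * (x a - c) * (x b - c) -
        d a * (x a - c) * (d b * (x b - c)) / m) := by
    refine sum_congr rfl fun a ha => sum_congr rfl fun b hb => ?_
    have hda := h.nl (hL ha)
    have hdb := h.nr (hR hb)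
    have s1 := Real.mul_self_sqrt hda
    have s2 := Real.mul_self_sqrt hdb
    have s3 : w a b / (√(d a) * √(d b)) * (√(d a) * √(d b)) = w a b := by
      rcases (h.nn a b).eq_or_lt with e | hp
      · simp [← e]
      · have q1 := h.le_l (hL ha) (hR hb)
        have q2 := h.le_r (hL ha) (hR hb)
        exact div_mul_cancel₀ _ (mul_pos (Real.sqrt_pos.2 (by linarith))
          (Real.sqrt_pos.2 (by linarith))).ne'
    calc _ = w a b / (√(d a) * √(d b)) * (√(d a) * √(d b)) * (x a - c) * (x b - c) -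
          (√(d a) * √(d a)) * (x a - c) * ((√(d b) * √(d b)) * (x b - c)) / m := by
            unfold bm; ring
      _ = _ := by rw [s1, s2, s3]
  rw [e1, sub_sum w d m L' R' (fun a => x a - c) (fun a => x a - c), hc] at h1
  have e2 : ∑ a ∈ L', (√(d a) * (x a - c)) ^ 2 = ∑ a ∈ L', d a * (x a - c) ^ 2 :=
    sum_congr rfl fun a ha => by rw [mul_pow, Real.sq_sqrt (h.nl (hL ha))]
  have e3 : ∑ b ∈ R', (√(d b) * (x b - c)) ^ 2 = ∑ b ∈ R', d b * (x b - c) ^ 2 :=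
    sum_congr rfl fun b hb => by rw [mul_pow, Real.sq_sqrt (h.nr (hR hb))]
  rw [e2, e3] at h1
  have h2 : δ * ∑ a ∈ L', d a * (x a - c) ^ 2 ≤ ∑ a ∈ L', (∑ b ∈ R', w a b) * (x a - c) ^ 2 := by
    rw [mul_sum]
    exact sum_le_sum fun a ha => by
      rw [← mul_assoc]; exact mul_le_mul_of_nonneg_right (hdl a ha) (sq_nonneg _)
  have h3 : δ * ∑ b ∈ R', d b * (x b - c) ^ 2 ≤ ∑ b ∈ R', (∑ a ∈ L', w a b) * (x b - c) ^ 2 := by
    rw [mul_sum]
    exact sum_le_sum fun b hb => by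
      rw [← mul_assoc]; exact mul_le_mul_of_nonneg_right (hdr b hb) (sq_nonneg _)
  simp only [zero_mul, zero_div, sub_zero] at h1
  nlinarith

section Nat

variable {u : κ → κ → ℕ} {P : Finset κ} {sd : κ → Bool}

/-- The left side. -/
def lf (sd : κ → Bool) (S : Finset κ) : Finset κ := S.filter fun a => sd a = true

/-- The right side. -/
def rt (sd : κ → Bool) (S : Finset κ) : Finset κ := S.filter fun a => ¬ sd a = true

theorem sum_lr (sd : κ → Bool) (S : Finset κ) (f : κ → ℝ) :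
    ∑ a ∈ S, f a = ∑ a ∈ lf sd S, f a + ∑ a ∈ rt sd S, f a :=
  (sum_filter_add_sum_filter_not S _ f).symm

theorem row_l (hz : ∀ a ∈ P, ∀ b ∈ P, sd a = sd b → u a b = 0) {S : Finset κ} (hS : S ⊆ P) {a : κ}
    (ha : a ∈ lf sd P) (f : κ → ℝ) :
    ∑ b ∈ S, (u a b : ℝ) * f b = ∑ b ∈ rt sd S, (u a b : ℝ) * f b := by
  rw [sum_lr sd, sum_eq_zero, zero_add]
  intro b hb
  obtain ⟨h1, h2⟩ := mem_filter.1 ha
  obtain ⟨h3, h4⟩ := mem_filter.1 hb
  rw [hz a h1 b (hS h3) (h2.trans h4.symm)]; simp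

theorem row_r (hs : Sy u) (hz : ∀ a ∈ P, ∀ b ∈ P, sd a = sd b → u a b = 0) {S : Finset κ}
    (hS : S ⊆ P) {b : κ} (hb : b ∈ rt sd P) (f : κ → ℝ) :
    ∑ a ∈ S, (u b a : ℝ) * f a = ∑ a ∈ lf sd S, (u a b : ℝ) * f a := by
  rw [sum_lr sd, sum_eq_zero (s := rt sd S), add_zero]
  · exact sum_congr rfl fun a _ => by rw [hs]
  intro a ha
  obtain ⟨h1, h2⟩ := mem_filter.1 ha
  obtain ⟨h3, h4⟩ := mem_filter.1 hb
  rw [hz b h3 a (hS h1) (by simp_all)]; simp

theorem lf_mono {S : Finset κ} (hS : S ⊆ P) : lf sd S ⊆ lf sd P := filter_subset_filter _ hS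

theorem rt_mono {S : Finset κ} (hS : S ⊆ P) : rt sd S ⊆ rt sd P := filter_subset_filter _ hS

theorem dir_two (hs : Sy u) (hz : ∀ a ∈ P, ∀ b ∈ P, sd a = sd b → u a b = 0) {S : Finset κ}
    (hS : S ⊆ P) (x : κ → ℝ) : ∑ a ∈ S, ∑ b ∈ S, (u a b : ℝ) * (x a - x b) ^ 2 =
      2 * ∑ a ∈ lf sd S, ∑ b ∈ rt sd S, (u a b : ℝ) * (x a - x b) ^ 2 := by
  rw [sum_lr sd, two_mul]
  congr 1
  · exact sum_congr rfl fun a ha => row_l hz hS (lf_mono hS ha) _
  · rw [sum_comm (s := lf sd S)]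
    refine sum_congr rfl fun b hb => (row_r hs hz hS (rt_mono hS hb) _).trans ?_
    exact sum_congr rfl fun a _ => by ring

theorem cast_row (u : κ → κ → ℕ) (a : κ) (S : Finset κ) :
    (cw u {a} S : ℝ) = ∑ b ∈ S, (u a b : ℝ) * 1 := by simp [cw]

theorem bp (hs : Sy u) (hz : ∀ a ∈ P, ∀ b ∈ P, sd a = sd b → u a b = 0)
    (hp : ∃ a ∈ P, 0 < dg u P a) : Bp (fun a b => (u a b : ℝ)) (fun a => (dg u P a : ℝ))
      (lf sd P) (rt sd P) (∑ a ∈ lf sd P, (dg u P a : ℝ)) := by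
  refine ⟨fun a b => by positivity, fun a ha => ?_, fun b hb => ?_, rfl, ?_⟩
  · simpa [dg] using (cast_row u a P).trans (row_l hz subset_rfl ha fun _ => 1)
  · simpa [dg] using (cast_row u b P).trans (row_r hs hz subset_rfl hb fun _ => 1)
  · obtain ⟨a, ha, h⟩ := hp
    obtain ⟨b, hb, hab⟩ : ∃ b ∈ P, 0 < u a b := by
      by_contra hc
      push Not at hc
      have : dg u P a = 0 := by
        rw [dg, cw_eq_zero]
        intro a' ha' b hb
        rw [mem_singleton.1 ha']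
        exact Nat.le_zero.1 (hc b hb)
      omega
    have k : ∀ a ∈ P, ∀ b ∈ P, 0 < u a b → sd a = true →
        0 < ∑ a ∈ lf sd P, (dg u P a : ℝ) := by
      intro a ha b hb hab hsd
      have h1 : u a b ≤ dg u P a := by
        simpa [dg, cw] using single_le_sum (f := fun b => u a b) (fun _ _ => Nat.zero_le _) hb
      refine lt_of_lt_of_le ?_ (single_le_sum (f := fun a => (dg u P a : ℝ))
        (fun _ _ => by positivity) (mem_filter.2 ⟨ha, hsd⟩))
      exact_mod_cast hab.trans_le h1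
    by_cases h1 : sd a = true
    · exact k a ha b hb hab h1
    · refine k b hb a ha (hs a b ▸ hab) ?_
      by_contra h2
      rw [hz a ha b hb (by simp_all)] at hab
      omega

theorem cheeg_lr (cheeg : CheegStmt) (hs : Sy u) (hz : ∀ a ∈ P, ∀ b ∈ P, sd a = sd b → u a b = 0)
    {K : ℕ} (hK : 1 ≤ K) (hw : WL u P (dg u P) K) (x y : κ → ℝ) :
    ∃ c : ℝ, 1 / (2 * (K : ℝ) ^ 2) * (∑ a ∈ lf sd P, (dg u P a : ℝ) * (x a - c) ^ 2 +
      ∑ b ∈ rt sd P, (dg u P b : ℝ) * (y b - c) ^ 2) ≤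
        ∑ a ∈ lf sd P, ∑ b ∈ rt sd P, (u a b : ℝ) * (x a - y b) ^ 2 := by
  have hK' : (0 : ℝ) < K := by exact_mod_cast hK
  obtain ⟨c, hc⟩ := cheeg κ (fun a b => (u a b : ℝ)) P (fun a => (dg u P a : ℝ)) (1 / K)
    (fun a b => by rw [hs]) (fun a b => by positivity) (by positivity)
    (fun a _ => by simp [dg, cw]) (fun S hS h2 => by
      have h1 := hw S hS
      have h3 := ts_sdiff (τ := dg u P) hS
      have h4 : 2 * ts (dg u P) S ≤ ts (dg u P) P := by unfold ts; exact_mod_cast h2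
      have h5 : ts (dg u P) S ≤ K * cw u S (P \ S) := by
        rw [min_eq_left (by omega)] at h1; exact h1
      rw [← cast_cw, one_div, inv_mul_le_iff₀ hK']
      unfold ts at h5
      exact_mod_cast h5) (fun a => if sd a = true then x a else y a)
  refine ⟨c, ?_⟩
  rw [dir_two hs hz subset_rfl, sum_lr sd] at hc
  have e1 : ∀ a ∈ lf sd P, (if sd a = true then x a else y a) = x a :=
    fun a ha => if_pos (mem_filter.1 ha).2
  have e2 : ∀ a ∈ rt sd P, (if sd a = true then x a else y a) = y a :=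
    fun a ha => if_neg (mem_filter.1 ha).2
  rw [sum_congr rfl fun a ha => by rw [e1 a ha], sum_congr (s₁ := rt sd P) rfl fun a ha => by
    rw [e2 a ha]] at hc
  have e4 : ∑ a ∈ lf sd P, ∑ b ∈ rt sd P, (u a b : ℝ) * ((if sd a = true then x a else y a) -
      if sd b = true then x b else y b) ^ 2 =
        ∑ a ∈ lf sd P, ∑ b ∈ rt sd P, (u a b : ℝ) * (x a - y b) ^ 2 :=
    sum_congr rfl fun a ha => sum_congr rfl fun b hb => by rw [e1 a ha, e2 b hb]
  rw [e4] at hc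
  have e3 : 1 / (2 * (K : ℝ) ^ 2) = (1 / K) ^ 2 / 2 := by field_simp
  rw [e3]
  linarith

/-- From the Dirichlet form to cuts. -/
theorem wl_of (hs : Sy u) (hz : ∀ a ∈ P, ∀ b ∈ P, sd a = sd b → u a b = 0) {S : Finset κ}
    (hS : S ⊆ P) {τ : κ → ℕ} {K : ℕ} {ε : ℝ} (hε : 0 < ε) (hK : 2 ≤ ε * K)
    (h : ∀ x : κ → ℝ, ∃ c : ℝ, ε * (∑ a ∈ lf sd S, (τ a : ℝ) * (x a - c) ^ 2 +
      ∑ b ∈ rt sd S, (τ b : ℝ) * (x b - c) ^ 2) ≤
        ∑ a ∈ lf sd S, ∑ b ∈ rt sd S, (u a b : ℝ) * (x a - x b) ^ 2) : WL u S τ K := by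
  intro A hA
  obtain ⟨c, hc⟩ := h fun a => if a ∈ A then 1 else 0
  have h1 := dir_two hs hz hS fun a => if a ∈ A then 1 else 0
  rw [← sum_lr sd S fun a => (τ a : ℝ) * ((if a ∈ A then 1 else 0) - c) ^ 2] at hc
  have e1 : ∑ a ∈ S, (τ a : ℝ) * ((if a ∈ A then 1 else 0) - c) ^ 2 =
      c ^ 2 * ts τ (S \ A) + (1 - c) ^ 2 * ts τ A := by
    rw [← sum_sdiff hA, ts, ts]
    push_cast
    rw [mul_sum, mul_sum]
    congr 1
    · exact sum_congr rfl fun a ha => by rw [if_neg (mem_sdiff.1 ha).2]; ring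
    · exact sum_congr rfl fun a ha => by rw [if_pos ha]; ring
  have e2 : ∑ a ∈ S, ∑ b ∈ S, (u a b : ℝ) *
      ((if a ∈ A then (1 : ℝ) else 0) - if b ∈ A then 1 else 0) ^ 2 =
        (cw u (S \ A) A : ℝ) + cw u A (S \ A) := by
    rw [← sum_sdiff hA, cw, cw]
    push_cast
    congr 1
    · refine sum_congr rfl fun a ha => ?_
      rw [← sum_sdiff hA, sum_eq_zero, zero_add]
      · exact sum_congr rfl fun b hb => by simp [(mem_sdiff.1 ha).2, hb]
      · exact fun b hb => by simp [(mem_sdiff.1 ha).2, (mem_sdiff.1 hb).2]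
    · refine sum_congr rfl fun a ha => ?_
      rw [← sum_sdiff hA, sum_eq_zero (s := A), add_zero]
      · exact sum_congr rfl fun b hb => by simp [(mem_sdiff.1 hb).2, ha]
      · exact fun b hb => by simp [ha, hb]
  rw [e2, cw_comm hs (S \ A) A] at h1
  rw [e1] at hc
  set n : ℕ := min (ts τ A) (ts τ (S \ A)) with hn
  have n1 : (n : ℝ) ≤ ts τ A := by exact_mod_cast min_le_left _ _
  have n2 : (n : ℝ) ≤ ts τ (S \ A) := by exact_mod_cast min_le_right _ _
  have n3 : (n : ℝ) / 2 ≤ c ^ 2 * ts τ (S \ A) + (1 - c) ^ 2 * ts τ A := by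
    have p1 := mul_le_mul_of_nonneg_left n2 (sq_nonneg c)
    have p2 := mul_le_mul_of_nonneg_left n1 (sq_nonneg (1 - c))
    have p3 : (0 : ℝ) ≤ (2 * c - 1) ^ 2 * n := by positivity
    nlinarith
  have n4 : ε * (n / 2) ≤ cw u A (S \ A) := by
    have := mul_le_mul_of_nonneg_left n3 hε.le
    linarith
  have n5 : (n : ℝ) ≤ K * cw u A (S \ A) := by
    have p1 := mul_le_mul_of_nonneg_left n4 (Nat.cast_nonneg (α := ℝ) K)
    have p2 := mul_le_mul_of_nonneg_right hK (Nat.cast_nonneg (α := ℝ) n)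
    nlinarith
  exact_mod_cast n5

end Nat

end ColP

end Pool.Agent.MP_35cb46_co.Nl

end
end MrgPart0

-- ======== part 1: formerly Pool.Agent.MP_35cb46_co.nl.ColB
section MrgPart1

/-! PROJECT NL, row COL: counting bad colourings. -/

noncomputable section

namespace Pool.Agent.MP_35cb46_co.Nl

open Finset Pool.Agent.MP_7be75d_co Pool.Agent.MP_35cb46_co.Sq
open scoped Classical

namespace ColP

section Pr

variable {Ω ι : Type} [Fintype Ω] {E E' : Ω → Prop}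

/-- The number of points of an event. -/
def pr (E : Ω → Prop) : ℝ := ((@filter Ω E (fun _ => Classical.propDecidable _) univ).card : ℝ)

theorem pr_eq (E : Ω → Prop) [DecidablePred E] : ((univ.filter E).card : ℝ) = pr E := by
  unfold pr; congr

theorem pr_mono (h : ∀ c, E c → E' c) : pr E ≤ pr E' := by
  unfold pr
  exact_mod_cast card_le_card fun c hc => mem_filter.2 ⟨mem_univ _, h c (mem_filter.1 hc).2⟩

theorem pr_or (E E' : Ω → Prop) : pr (fun c => E c ∨ E' c) ≤ pr E + pr E' := by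
  rw [← pr_eq, ← pr_eq, ← pr_eq, filter_or]
  exact_mod_cast card_union_le _ _

theorem pr_no {p : ℝ} (hp : 0 ≤ p) (h : ∀ c, ¬ E c) : pr E ≤ p := by
  rw [← pr_eq, filter_eq_empty_iff.2 fun c _ => h c]
  simpa using hp

theorem pr_ex (S : Finset ι) (E : ι → Ω → Prop) (p : ι → ℝ) (h : ∀ j ∈ S, pr (E j) ≤ p j) :
    pr (fun c => ∃ j ∈ S, E j c) ≤ ∑ j ∈ S, p j := by
  induction S using Finset.induction_on with
  | empty => exact pr_no (by simp) (by simp)
  | insert a S ha ih =>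
    rw [sum_insert ha]
    refine (pr_mono (E' := fun c => E a c ∨ ∃ j ∈ S, E j c) fun c hc => by simpa using hc).trans ?_
    exact (pr_or _ _).trans (add_le_add (h a (mem_insert_self _ _))
      (ih fun j hj => h j (mem_insert_of_mem hj)))

theorem pr_ex' (S : Finset ι) (E : ι → Ω → Prop) (p : ℝ) (h : ∀ j ∈ S, pr (E j) ≤ p) :
    pr (fun c => ∃ j ∈ S, E j c) ≤ S.card * p := by
  simpa using pr_ex S E (fun _ => p) h

theorem ex_not (h : pr E < Fintype.card Ω) : ∃ c, ¬ E c := by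
  by_contra hc
  push Not at hc
  rw [← pr_eq, filter_true_of_mem fun c _ => hc c] at h
  simp at h

end Pr

variable {κ : Type} [Fintype κ]

theorem mc' (mc : McStmt) (I J : Finset κ) (x : κ → κ → ℝ) {C Λ H : ℕ} {μ r : ℝ} (t : Fin C)
    (hμ : 0 < μ) (hH : 1 ≤ H) (hJ : J.card ≤ 2 ^ Λ) (hr : ∀ i ∈ I, ∑ j ∈ J, x i j ^ 2 ≤ r)
    (hop : ∀ z : κ → ℝ, ∑ i ∈ I, (∑ j ∈ J, x i j * z j) ^ 2 ≤ μ * ∑ j ∈ J, z j ^ 2)
    (hb : 200 * (H : ℝ) ^ 2 * C * (Λ + 1) * r ≤ μ) :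
    pr (fun c : κ → Fin C => ¬ ∀ z : κ → ℝ,
      (H : ℝ) * C * ∑ i ∈ I.filter fun i => c i = t, (∑ j ∈ J, x i j * z j) ^ 2 ≤
        (H + 1) * μ * ∑ j ∈ J, z j ^ 2) ≤ (C : ℝ) ^ Fintype.card κ / 2 ^ Λ := by
  have s1 : ∀ f : κ → ℝ, ∑ j : J, f j = ∑ j ∈ J, f j := fun f => sum_coe_sort J f
  have h := mc κ J I (fun i j => x i j) C Λ H μ r t hμ hH (by simpa using hJ)
    (fun i hi => (s1 fun j => x i j ^ 2).trans_le (hr i hi))
    (fun z => by
      obtain ⟨z', hz'⟩ : ∃ z' : κ → ℝ, ∀ j : J, z j = z' j :=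
        ⟨fun a => if h : a ∈ J then z ⟨a, h⟩ else 0, fun j => by simp⟩
      have e1 : ∀ i, ∑ j : J, x i j * z j = ∑ j ∈ J, x i j * z' j := fun i => by
        rw [← s1 fun j => x i j * z' j]; simp only [hz']
      have e2 : ∑ j : J, z j ^ 2 = ∑ j ∈ J, z' j ^ 2 := by
        rw [← s1 fun j => z' j ^ 2]; simp only [hz']
      simp only [e1, e2]
      exact hop z') hb
  have h1 := (Nat.cast_le (α := ℝ)).2 h
  rw [Nat.cast_mul, pr_eq] at h1
  push_cast at h1
  rw [le_div_iff₀' (by positivity)]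
  refine le_trans ?_ h1
  refine mul_le_mul_of_nonneg_left (pr_mono ?_) (by positivity)
  intro c hc h3
  refine hc fun z => ?_
  have h4 := h3 fun j => z j
  have e1 : ∀ i, ∑ j : J, x i j * z j = ∑ j ∈ J, x i j * z j := fun i => s1 fun j => x i j * z j
  have e2 : ∑ j : J, z j ^ 2 = ∑ j ∈ J, z j ^ 2 := s1 fun j => z j ^ 2
  simp only [e1, e2] at h4
  exact h4

theorem exp_le {x : ℝ} {n : ℕ} (h : (n : ℝ) ≤ x) : Real.exp (-x) ≤ 1 / 2 ^ n := by
  have h1 : (2 : ℝ) ≤ Real.exp 1 := by linarith [Real.add_one_le_exp (1 : ℝ)]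
  have h2 : (2 : ℝ) ^ n ≤ Real.exp x := by
    refine (pow_le_pow_left₀ (by norm_num) h1 n).trans ?_
    rw [← Real.exp_nat_mul, mul_one]
    exact Real.exp_le_exp.2 h
  rw [Real.exp_neg, one_div]
  exact inv_anti₀ (by positivity) h2

theorem cher' (cher : CherStmt) (y : κ → ℝ) {C H n : ℕ} {Θ : ℝ} (t : Fin C) (hH : 1 ≤ H)
    (hy : ∀ a, 0 ≤ y a) (hΘ : ∀ a, Θ * y a ≤ ∑ a, y a) (h0 : 0 < Θ)
    (hn : 4 * (H : ℝ) ^ 2 * C * n ≤ Θ) :
    pr (fun c : κ → Fin C => (H : ℝ) * C * ∑ a ∈ univ.filter fun a => c a = t, y a <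
      (H - 1) * ∑ a, y a) ≤ (C : ℝ) ^ Fintype.card κ / 2 ^ n ∧
    pr (fun c : κ → Fin C => (H + 1) * ∑ a, y a <
      (H : ℝ) * C * ∑ a ∈ univ.filter fun a => c a = t, y a) ≤ (C : ℝ) ^ Fintype.card κ / 2 ^ n := by
  have hs : 0 ≤ ∑ a, y a := sum_nonneg fun a _ => hy a
  rcases hs.eq_or_lt with e | hp
  · have h1 : ∀ a, y a = 0 := fun a =>
      (sum_eq_zero_iff_of_nonneg fun a _ => hy a).1 e.symm a (mem_univ a)
    exact ⟨pr_no (by positivity) fun c => by simp [h1], pr_no (by positivity) fun c => by simp [h1]⟩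
  have hC : (0 : ℝ) < C := by exact_mod_cast t.pos
  have hH' : (0 : ℝ) < H := by exact_mod_cast hH
  obtain ⟨h1, h2⟩ := cher κ y C H ((∑ a, y a) / Θ) t (by positivity) hH
    fun a => ⟨hy a, by rw [le_div_iff₀' h0]; exact hΘ a⟩
  rw [pr_eq] at h1 h2
  have h3 : Real.exp (-(∑ a, y a) / (4 * (H : ℝ) ^ 2 * C * ((∑ a, y a) / Θ))) ≤ 1 / 2 ^ n := by
    rw [neg_div]
    refine exp_le ?_
    have e : (∑ a, y a) / (4 * (H : ℝ) ^ 2 * C * ((∑ a, y a) / Θ)) = Θ / (4 * (H : ℝ) ^ 2 * C) := by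
      field_simp
    rw [e, le_div_iff₀' (by positivity)]
    exact hn
  have h4 := mul_le_mul_of_nonneg_right h3 (by positivity : (0 : ℝ) ≤ (C : ℝ) ^ Fintype.card κ)
  rw [one_div_mul_eq_div] at h4
  exact ⟨h1.trans h4, h2.trans h4⟩

theorem fib' (fib : FibStmt) {C : ℕ} (I : Finset κ) (E : (κ → Fin C) → (κ → Fin C) → Prop) {M : ℝ}
    (hM : 0 ≤ M)
    (h1 : ∀ c₀ c₁ c c', (∀ a, a ∉ I → c₀ a = c₁ a) → (∀ a ∈ I, c a = c' a) → E c₀ c → E c₁ c')
    (h2 : ∀ c₀, pr (E c₀) ≤ M) : pr (fun c => E c c) ≤ M := by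
  have := fib κ C I E M hM h1 fun c₀ => by rw [pr_eq]; exact h2 c₀
  rwa [pr_eq] at this

/-- A linear form splits evenly. -/
theorem lin (cher : CherStmt) (y : κ → ℕ) {C n Θ : ℕ} (t : Fin C)
    (hΘ : ∀ a, Θ * y a ≤ ts y univ) (hn : 16 * C * (n + 1) ≤ Θ) :
    pr (fun c : κ → Fin C => ¬ (ts y univ ≤ 2 * C * ts y (univ.filter fun a => c a = t) ∧
      C * ts y (univ.filter fun a => c a = t) ≤ 2 * ts y univ)) ≤
        2 * ((C : ℝ) ^ Fintype.card κ / 2 ^ n) := by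
  have hC := t.pos
  have hn' : (16 : ℝ) * C * (n + 1) ≤ Θ := by exact_mod_cast hn
  have hC' : (0 : ℝ) < C := by exact_mod_cast hC
  obtain ⟨h1, h2⟩ := cher' cher (fun a => (y a : ℝ)) (H := 2) (n := n) (Θ := Θ) t (by norm_num)
    (fun a => by positivity) (fun a => by have := hΘ a; unfold ts at this; exact_mod_cast this)
    (lt_of_lt_of_le (by positivity) hn') (by push_cast; nlinarith)
  rw [two_mul (_ / _ : ℝ)]
  refine le_trans (pr_mono fun c hc => ?_) ((pr_or _ _).trans (add_le_add h1 h2))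
  by_contra h3
  rw [not_or, not_lt, not_lt] at h3
  obtain ⟨h4, h5⟩ := h3
  apply hc
  have e1 : ∀ S, ∑ a ∈ S, (y a : ℝ) = ts y S := fun S => by simp [ts]
  rw [e1, e1] at h4 h5
  have p : (0 : ℝ) ≤ ts y univ := by positivity
  constructor
  · have : (ts y univ : ℝ) ≤ 2 * C * ts y (univ.filter fun a => c a = t) := by
      push_cast at h4; linarith
    exact_mod_cast this
  · have : (C : ℝ) * ts y (univ.filter fun a => c a = t) ≤ 2 * ts y univ := by
      push_cast at h5; linarith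
    exact_mod_cast this

/-- A bilinear form survives, in two stages. -/
theorem bil (cher : CherStmt) (fib : FibStmt) (F : κ → κ → ℕ) (L : Finset κ) {r C : ℕ} (t : Fin C)
    (hr : 1 ≤ r) (hs : ∀ a b, 0 < F a b → a ∈ L ∧ b ∉ L)
    (hl : ∀ a, cw F {a} univ ≤ r ∧ cw F univ {a} ≤ r) :
    pr (fun c : κ → Fin C => ¬ cw F univ univ ≤ 4 * C ^ 2 *
      cw F (univ.filter fun a => c a = t) (univ.filter fun a => c a = t)) ≤
        2 * (Real.exp (-(cw F univ univ : ℝ) / (64 * (C : ℝ) ^ 2 * r)) *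
          (C : ℝ) ^ Fintype.card κ) := by
  have hC : (1 : ℝ) ≤ C := by exact_mod_cast t.pos
  have hr' : (0 : ℝ) < r := by exact_mod_cast hr
  have k : ∀ s : ℝ, (cw F univ univ : ℝ) ≤ 2 * C * s →
      Real.exp (-s / (4 * ((2 : ℕ) : ℝ) ^ 2 * C * r)) * (C : ℝ) ^ Fintype.card κ ≤
        Real.exp (-(cw F univ univ : ℝ) / (64 * (C : ℝ) ^ 2 * r)) * (C : ℝ) ^ Fintype.card κ := by
    intro s hs
    refine mul_le_mul_of_nonneg_right (Real.exp_le_exp.2 ?_) (by positivity)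
    have p : (0 : ℝ) ≤ cw F univ univ := by positivity
    rw [neg_div, neg_div, neg_le_neg_iff, div_le_div_iff₀ (by positivity) (by positivity)]
    have p2 : (0 : ℝ) ≤ C * r := by positivity
    push_cast
    nlinarith [mul_le_mul_of_nonneg_left hs p2, mul_nonneg p p2]
  have e1 : ∀ S : Finset κ, ∑ a ∈ S, (cw F {a} univ : ℝ) = cw F S univ := fun S => by simp [cw]
  have e2 : ∀ S S' : Finset κ, ∑ b ∈ S', (cw F S {b} : ℝ) = cw F S S' := fun S S' => by
    simp only [cw, sum_singleton]; push_cast; exact sum_comm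
  have h1 := (cher κ (fun a => (cw F {a} univ : ℝ)) C 2 r t hr' (by norm_num)
    fun a => ⟨by positivity, by exact_mod_cast (hl a).1⟩).1
  rw [pr_eq] at h1
  simp only [e1] at h1
  have h1' := h1.trans (k _ (by
    have p : (0 : ℝ) ≤ cw F univ univ := by positivity
    nlinarith))
  have h2 := fib' fib Lᶜ (fun c₀ c : κ → Fin C =>
    (cw F univ univ : ℝ) ≤ 2 * C * cw F (univ.filter fun a => c₀ a = t) univ ∧
    (2 : ℝ) * C * cw F (univ.filter fun a => c₀ a = t) (univ.filter fun a => c a = t) <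
      cw F (univ.filter fun a => c₀ a = t) univ)
    (M := Real.exp (-(cw F univ univ : ℝ) / (64 * (C : ℝ) ^ 2 * r)) * (C : ℝ) ^ Fintype.card κ)
    (by positivity) (fun c₀ c₁ c c' q1 q2 q3 => by
      have f1 : ∀ S, cw F (univ.filter fun a => c₀ a = t) S =
          cw F (univ.filter fun a => c₁ a = t) S := fun S => by
        simp only [cw, sum_filter]
        refine sum_congr rfl fun a _ => ?_
        by_cases ha : a ∈ L
        · rw [q1 a (by simpa using ha)]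
        · have : ∑ b ∈ S, F a b = 0 := sum_eq_zero fun b _ => by
            by_contra h; exact ha (hs a b (Nat.pos_of_ne_zero h)).1
          simp [this]
      have f2 : ∀ S, cw F S (univ.filter fun a => c a = t) =
          cw F S (univ.filter fun a => c' a = t) := fun S => by
        simp only [cw, sum_filter]
        refine sum_congr rfl fun a _ => sum_congr rfl fun b _ => ?_
        by_cases hb : b ∈ L
        · have : F a b = 0 := by
            by_contra h; exact (hs a b (Nat.pos_of_ne_zero h)).2 hb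
          simp [this]
        · rw [q2 b (by simpa using hb)]
      rw [← f1, ← f1, ← f2]
      exact q3) (fun c₀ => by
      by_cases q : (cw F univ univ : ℝ) ≤ 2 * C * cw F (univ.filter fun a => c₀ a = t) univ
      · have h3 := (cher κ (fun b => (cw F (univ.filter fun a => c₀ a = t) {b} : ℝ)) C 2 r t hr'
          (by norm_num) fun b => ⟨by positivity, by
            exact_mod_cast (cw_mono (subset_univ _) subset_rfl).trans (hl b).2⟩).1
        rw [pr_eq] at h3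
        simp only [e2] at h3
        refine le_trans (pr_mono fun c hc => ?_) (h3.trans (k _ q))
        push_cast
        linarith [hc.2]
      · exact pr_no (by positivity) fun c hc => q hc.1)
  rw [two_mul]
  refine le_trans (pr_mono fun c hc => ?_) ((pr_or _ _).trans (add_le_add h1' h2))
  by_contra h3
  rw [not_or, not_lt, not_and, not_lt] at h3
  obtain ⟨h4, h5⟩ := h3
  push_cast at h4
  have h6 := h5 (by linarith)
  apply hc
  have : (cw F univ univ : ℝ) ≤ 4 * C ^ 2 *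
      cw F (univ.filter fun a => c a = t) (univ.filter fun a => c a = t) := by
    nlinarith [mul_le_mul_of_nonneg_left h6 (by positivity : (0 : ℝ) ≤ 2 * C)]
  exact_mod_cast this

end ColP

end Pool.Agent.MP_35cb46_co.Nl

end
end MrgPart1

-- ======== part 2: formerly Pool.Agent.MP_35cb46_co.nl.Col
section MrgPart2

/-! PROJECT NL, row COL: a random colouring keeps expansion, degrees and forms. -/

noncomputable section

namespace Pool.Agent.MP_35cb46_co.Nl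

open Finset Pool.Agent.MP_7be75d_co Pool.Agent.MP_35cb46_co.Sq
open scoped Classical

namespace ColP

variable {κ : Type} {u : κ → κ → ℕ} {P : Finset κ} {sd : κ → Bool} {m : ℝ}

theorem good_of (hs : Sy u) (hz : ∀ a ∈ P, ∀ b ∈ P, sd a = sd b → u a b = 0) {S : Finset κ}
    (hS : S ⊆ P)
    (hb : Bp (fun a b => (u a b : ℝ)) (fun a => (dg u P a : ℝ)) (lf sd P) (rt sd P) m)
    {K C : ℕ} {H : ℝ} (hK : 1 ≤ K) (hC : 1 ≤ C) (hH : H = 8 * (K : ℝ) ^ 2)
    (h2 : ∀ g : κ → ℝ, H * C * ∑ a ∈ lf sd S, (∑ b ∈ rt sd S,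
      bm (fun a b => (u a b : ℝ)) (fun a => (dg u P a : ℝ)) m a b * g b) ^ 2 ≤
        (H + 1) * ((H + 1) * (1 - 4 / H) ^ 2 / (H * C)) * ∑ b ∈ rt sd S, g b ^ 2)
    (h3 : ∀ a ∈ P, (H - 1) * dg u P a ≤ H * C * cw u {a} S) :
    WL u S (dg u P) (16 * C * K ^ 2) ∧ ∀ a ∈ P, dg u P a ≤ 2 * C * cw u {a} S := by
  have hK' : (1 : ℝ) ≤ K := by exact_mod_cast hK
  have hC' : (1 : ℝ) ≤ C := by exact_mod_cast hC
  have h8 : 8 ≤ H := by nlinarith
  have hHC : 0 < H * C := by positivity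
  have h4 : 4 / H ≤ 1 / 2 := by rw [div_le_iff₀ (by linarith)]; linarith
  constructor
  · have k : ∀ a ∈ P, (H - 1) / (H * C) * dg u P a ≤ ∑ b ∈ S, (u a b : ℝ) * 1 := fun a ha => by
      rw [← cast_row, div_mul_eq_mul_div, div_le_iff₀' hHC]; exact h3 a ha
    refine wl_of hs hz hS (ε := (H - 1) / (H * C) - (H + 1) * (1 - 4 / H) / (H * C)) ?_ ?_
      (hb.dir (lf_mono hS) (rt_mono hS) (div_pos (mul_pos (by linarith) (by linarith)) hHC)
        (fun g => ?_) (fun a ha => ?_) fun b hb => ?_)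
    · have e : (H - 1) / (H * C) - (H + 1) * (1 - 4 / H) / (H * C) = (2 + 4 / H) / (H * C) := by
        field_simp; ring
      rw [e]; positivity
    · have e : ((H - 1) / (H * C) - (H + 1) * (1 - 4 / H) / (H * C)) * ((16 * C * K ^ 2 : ℕ) : ℝ) =
          4 + 8 / H := by
        have e1 : ((16 * C * K ^ 2 : ℕ) : ℝ) = 2 * (H * C) := by rw [hH]; push_cast; ring
        rw [e1]; field_simp; ring
      rw [e]
      have : 0 ≤ 8 / H := by positivity
      linarith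
    · refine le_of_mul_le_mul_left ((h2 g).trans (le_of_eq ?_)) hHC
      field_simp
    · simpa using (k a (mem_filter.1 (lf_mono hS ha)).1).trans_eq
        (row_l hz hS (lf_mono hS ha) fun _ => 1)
    · simpa using (k b (mem_filter.1 (rt_mono hS hb)).1).trans_eq
        (row_r hs hz hS (rt_mono hS hb) fun _ => 1)
  · intro a ha
    have h5 := h3 a ha
    have p1 : (0 : ℝ) ≤ dg u P a := by positivity
    have h6 : H * (dg u P a : ℝ) ≤ H * (2 * C * cw u {a} S) := by nlinarith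
    exact_mod_cast le_of_mul_le_mul_left h6 (by linarith)

theorem lf_filter (sd : κ → Bool) (P : Finset κ) (p : κ → Prop) [DecidablePred p] :
    lf sd (P.filter p) = (lf sd P).filter p := filter_comm _ _ _

theorem rt_filter (sd : κ → Bool) (P : Finset κ) (p : κ → Prop) [DecidablePred p] :
    rt sd (P.filter p) = (rt sd P).filter p := filter_comm _ _ _

/-- One block and one colour. -/
theorem blk [Fintype κ] (cheeg : CheegStmt) (mc : McStmt) (cher : CherStmt) (fib : FibStmt)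
    {C K n Θ : ℕ} (t : Fin C) (hK : 1 ≤ K) (hP : P.card ≤ 2 ^ n) (hs : Sy u)
    (hz : ∀ a ∈ P, ∀ b ∈ P, sd a = sd b → u a b = 0) (hw : WL u P (dg u P) K)
    (hΘ : ∀ a ∈ P, ∀ b ∈ P, Θ * u a b ≤ dg u P a) (hn : 102400 * C ^ 2 * K ^ 4 * (n + 1) ≤ Θ) :
    pr (fun c : κ → Fin C => ¬ (WL u (P.filter fun a => c a = t) (dg u P) (16 * C * K ^ 2) ∧
      ∀ a ∈ P, dg u P a ≤ 2 * C * cw u {a} (P.filter fun a => c a = t))) ≤
        (2 + P.card) * ((C : ℝ) ^ Fintype.card κ / 2 ^ n) := by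
  by_cases hp : ∃ a ∈ P, 0 < dg u P a
  swap
  · push Not at hp
    refine pr_no (by positivity) fun c hc => hc ⟨fun A hA => ?_, fun a ha => ?_⟩
    · have : ts (dg u P) A = 0 :=
        sum_eq_zero fun a ha => Nat.le_zero.1 (hp a (mem_filter.1 (hA ha)).1)
      rw [this]; simp
    · exact (hp a ha).trans (Nat.zero_le _)
  have hb := bp hs hz hp
  set m := ∑ a ∈ lf sd P, (dg u P a : ℝ)
  set B := bm (fun a b => (u a b : ℝ)) (fun a => (dg u P a : ℝ)) m with hB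
  obtain ⟨H, hH⟩ : ∃ H : ℕ, H = 8 * K ^ 2 := ⟨_, rfl⟩
  have hH' : (H : ℝ) = 8 * (K : ℝ) ^ 2 := by rw [hH]; push_cast; ring
  have hK' : (1 : ℝ) ≤ K := by exact_mod_cast hK
  have hC : (1 : ℝ) ≤ C := by exact_mod_cast t.pos
  have h8 : (8 : ℝ) ≤ H := by nlinarith
  have hH1 : 1 ≤ H := by exact_mod_cast (by linarith : (1 : ℝ) ≤ H)
  have h4 : 4 / (H : ℝ) ≤ 1 / 2 := by rw [div_le_iff₀ (by linarith)]; linarith
  have hn' : 1600 * (H : ℝ) ^ 2 * C ^ 2 * (n + 1) ≤ Θ := by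
    have : (102400 : ℝ) * C ^ 2 * K ^ 4 * (n + 1) ≤ Θ := by exact_mod_cast hn
    rw [hH']; linarith
  have hΘ0 : (0 : ℝ) < Θ := lt_of_lt_of_le (by positivity) hn'
  have eγ : 1 / (2 * (K : ℝ) ^ 2) = 4 / H := by rw [hH']; field_simp; norm_num
  have hop := op_le (ν := 1 - 4 / (H : ℝ)) (by linarith)
    (hb.norm (γ := 4 / (H : ℝ)) (by positivity) (by linarith)
      (eγ ▸ cheeg_lr cheeg hs hz hK hw))
  have hμ1 : 1 / 4 ≤ (1 - 4 / (H : ℝ)) ^ 2 := by nlinarith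
  have hcol : ∀ b ∈ rt sd P, ∑ a ∈ lf sd P, B a b ^ 2 ≤ 2 / Θ := fun b hb' =>
    hb.colm hΘ0 (fun a ha b hb => by
      exact_mod_cast hΘ a (mem_filter.1 ha).1 b (mem_filter.1 hb).1) hb'
  have hrow : ∀ a ∈ lf sd P, ∑ b ∈ rt sd P, B a b ^ 2 ≤ 2 / Θ := fun a ha => by
    have := hb.swap.colm hΘ0 (fun b hb a ha => by
      have := hΘ b (mem_filter.1 hb).1 a (mem_filter.1 ha).1
      rw [hs] at this
      exact_mod_cast this) ha
    simpa only [bm_swap (fun a b => (u a b : ℝ))] using this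
  have hbud : 200 * (H : ℝ) ^ 2 * C * (n + 1) * (2 / Θ) ≤ 1 / (4 * C) := by
    rw [← mul_div_assoc, div_le_div_iff₀ hΘ0 (by positivity)]
    nlinarith
  have hC4 : 1 / (4 * (C : ℝ)) ≤ 1 / 4 := one_div_le_one_div_of_le (by norm_num) (by linarith)
  have hμ2 : 1 / (4 * (C : ℝ)) ≤ (H + 1) * (1 - 4 / (H : ℝ)) ^ 2 / (H * C) := by
    rw [div_le_div_iff₀ (by positivity) (by positivity)]
    have p : (0 : ℝ) ≤ (H + 1) * (4 * C) := by positivity
    nlinarith [mul_le_mul_of_nonneg_left hμ1 p]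
  have hμ2' : 0 < ((H : ℝ) + 1) * (1 - 4 / (H : ℝ)) ^ 2 / (H * C) :=
    lt_of_lt_of_le (by positivity) hμ2
  have p1 := mc' mc (rt sd P) (lf sd P) (fun b a => B a b) (Λ := n) t (by linarith) hH1
    ((card_filter_le _ _).trans hP) hcol hop (by linarith)
  have p2 := fib' fib (lf sd P) (fun c₀ c : κ → Fin C =>
    (∀ z : κ → ℝ, (H : ℝ) * C * ∑ b ∈ (rt sd P).filter fun b => c₀ b = t,
      (∑ a ∈ lf sd P, B a b * z a) ^ 2 ≤
        (H + 1) * (1 - 4 / (H : ℝ)) ^ 2 * ∑ a ∈ lf sd P, z a ^ 2) ∧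
    ¬ ∀ g : κ → ℝ, (H : ℝ) * C * ∑ a ∈ (lf sd P).filter fun a => c a = t,
      (∑ b ∈ (rt sd P).filter fun b => c₀ b = t, B a b * g b) ^ 2 ≤
        (H + 1) * ((H + 1) * (1 - 4 / (H : ℝ)) ^ 2 / (H * C)) *
          ∑ b ∈ (rt sd P).filter fun b => c₀ b = t, g b ^ 2)
    (M := (C : ℝ) ^ Fintype.card κ / 2 ^ n) (by positivity) (fun c₀ c₁ c c' q1 q2 q3 => by
      have f1 : ((rt sd P).filter fun b => c₀ b = t) = (rt sd P).filter fun b => c₁ b = t :=
        filter_congr fun b hb => by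
          rw [q1 b fun h => (mem_filter.1 hb).2 (mem_filter.1 h).2]
      have f2 : ((lf sd P).filter fun a => c a = t) = (lf sd P).filter fun a => c' a = t :=
        filter_congr fun a ha => by rw [q2 a ha]
      rw [← f1, ← f2]
      exact q3) (fun c₀ => by
      by_cases q : ∀ z : κ → ℝ, (H : ℝ) * C * ∑ b ∈ (rt sd P).filter fun b => c₀ b = t,
          (∑ a ∈ lf sd P, B a b * z a) ^ 2 ≤
            (H + 1) * (1 - 4 / (H : ℝ)) ^ 2 * ∑ a ∈ lf sd P, z a ^ 2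
      · refine le_trans (pr_mono fun c hc => hc.2) ?_
        refine mc' mc (lf sd P) ((rt sd P).filter fun b => c₀ b = t) B (Λ := n) (r := 2 / Θ) t hμ2'
          hH1 ((card_filter_le _ _).trans ((card_filter_le _ _).trans hP)) (fun a ha => ?_)
          (transp hμ2' fun z => ?_) (by linarith)
        · exact (sum_le_sum_of_subset_of_nonneg (filter_subset _ _)
            fun _ _ _ => sq_nonneg _).trans (hrow a ha)
        · rw [div_mul_eq_mul_div, le_div_iff₀' (by positivity)]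
          exact q z
      · exact pr_no (by positivity) fun c hc => q hc.1)
  have p3 := pr_ex' P (fun a (c : κ → Fin C) =>
    (H : ℝ) * C * cw u {a} (P.filter fun a => c a = t) < (H - 1) * dg u P a)
    ((C : ℝ) ^ Fintype.card κ / 2 ^ n) fun a ha => by
      have e1 : ∑ b, (if b ∈ P then (u a b : ℝ) else 0) = dg u P a := by simp [dg, cw]
      have h := (cher' cher (fun b => if b ∈ P then (u a b : ℝ) else 0) (n := n) (Θ := Θ) t hH1
        (fun b => by positivity) (fun b => by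
          rw [e1]
          split_ifs with hb
          · exact_mod_cast hΘ a ha b hb
          · simp) hΘ0 (by
          have p : (0 : ℝ) ≤ (H : ℝ) ^ 2 * C := by positivity
          have p' : (0 : ℝ) ≤ (H : ℝ) ^ 2 * C * n := by positivity
          nlinarith [mul_le_mul_of_nonneg_left hC p, mul_le_mul_of_nonneg_left hC p'])).1
      refine le_trans (pr_mono fun c hc => ?_) h
      have e2 : ∑ b ∈ univ.filter fun b => c b = t, (if b ∈ P then (u a b : ℝ) else 0) =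
          cw u {a} (P.filter fun a => c a = t) := by
        rw [← sum_filter, cast_row]
        refine sum_congr ?_ fun _ _ => (mul_one _).symm
        ext b; simp [and_comm]
      rw [e1, e2]
      exact hc
  have p4 := (pr_or _ _).trans (add_le_add ((pr_or _ _).trans (add_le_add p1 p2)) p3)
  refine le_trans (pr_mono ?_) (p4.trans_eq (by ring))
  intro c hc
  by_contra h
  simp only [not_or, not_and, not_not, not_exists, not_lt] at h
  obtain ⟨⟨g1, g2⟩, g3⟩ := h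
  refine hc (good_of hs hz (filter_subset _ _) hb hK t.pos hH' ?_ g3)
  rw [lf_filter, rt_filter]
  exact g2 g1

theorem cls_eq {C : ℕ} (c : κ → Fin C) (X : Finset κ) (t : Fin C) :
    cls X (fun a => (c a : ℕ)) t = X.filter fun a => c a = t :=
  filter_congr fun _ _ => Fin.val_inj

end ColP

open ColP in
theorem col (cheeg : CheegStmt) (mc : McStmt) (cher : CherStmt) (fib : FibStmt) : ColStmt := by
  refine ⟨614400, fun κ ι ι' ι'' _ I P w sd I' y I'' F L r C K Λ Θ t₀ hK ht hC hI hI' hΘ hP hy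
    hF => ?_⟩
  have hC1 : 1 ≤ C := by omega
  have hn : 102400 * C ^ 2 * K ^ 4 * (3 * Λ + 5 + 1) ≤ Θ := le_trans (le_of_eq (by ring)) <|
    le_trans (Nat.mul_le_mul_left (102400 * C ^ 2 * K ^ 4)
      (by omega : 3 * Λ + 6 ≤ 6 * (Λ + 1))) (le_trans (le_of_eq (by ring)) hΘ)
  have hn2 : 16 * C * (3 * Λ + 5 + 1) ≤ Θ := le_trans (Nat.mul_le_mul_right _ (by
    have h1 : 1 ≤ K ^ 4 := Nat.one_le_pow _ _ hK
    nlinarith [Nat.mul_le_mul_left (C ^ 2) h1])) hn
  set N : ℝ := (C : ℝ) ^ Fintype.card κ with hN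
  have hN0 : 0 < N := by positivity
  set q : ℝ := N / 2 ^ (3 * Λ + 5) with hq
  have hq0 : 0 < q := by positivity
  set a : ℝ := 2 ^ Λ with ha
  have ha1 : 1 ≤ a := one_le_pow₀ (by norm_num)
  have hqa : 32 * a ^ 3 * q = N := by
    rw [hq, ha, ← pow_mul, mul_comm Λ, pow_add]; field_simp; norm_num
  have p1 := pr_ex' (univ : Finset (Fin C)) _ _ fun t _ => pr_ex' I _ (3 * a * q) fun i hi =>
    (blk cheeg mc cher fib (n := 3 * Λ + 5) t hK ((hP i hi).1.trans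
      (Nat.pow_le_pow_right (by norm_num) (by omega))) (hP i hi).2.1 (hP i hi).2.2.1
      (hP i hi).2.2.2.1 (hP i hi).2.2.2.2 hn).trans (mul_le_mul_of_nonneg_right (by
        have : ((P i).card : ℝ) ≤ a := by rw [ha]; exact_mod_cast (hP i hi).1
        linarith) hq0.le)
  have p2 := pr_ex' (univ : Finset (Fin C)) _ _ fun t _ => pr_ex' I' _ (2 * q) fun j hj =>
    lin cher (y j) (n := 3 * Λ + 5) t (hy j hj) hn2
  have p3 := pr_ex I'' _ _ fun j hj =>
    bil cher fib (F j) (L j) ⟨t₀, ht⟩ hF.pos (hF.side j hj) (hF.le j hj)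
  have p4 := (pr_or _ _).trans (add_le_add ((pr_or _ _).trans (add_le_add p1 p2)) p3)
  obtain ⟨c, hc⟩ := ex_not (p4.trans_lt (by
    have e : ((Fintype.card (κ → Fin C) : ℕ) : ℝ) = N := by simp [hN]
    have c1 : (C : ℝ) ≤ a := by rw [ha]; exact_mod_cast hC
    have c2 : (I.card : ℝ) ≤ a := by rw [ha]; exact_mod_cast hI
    have c3 : (I'.card : ℝ) ≤ a := by rw [ha]; exact_mod_cast hI'
    have s := hF.sum
    rw [e, ← mul_sum, ← sum_mul, card_univ, Fintype.card_fin]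
    have b1 : (C : ℝ) * (I.card * (3 * a * q)) ≤ a * (a * (3 * a * q)) := by gcongr
    have b2 : (C : ℝ) * (I'.card * (2 * q)) ≤ a * (a * (2 * q)) := by gcongr
    have b3 : a * (a * (2 * q)) * 1 ≤ a * (a * (2 * q)) * a := by gcongr
    nlinarith [mul_le_mul_of_nonneg_right s hN0.le]))
  refine ⟨fun a => c a, fun t h => ⟨fun i hi => ?_, fun j hj => ?_⟩, fun j hj => ?_⟩
  · rw [cls_eq c _ ⟨t, h⟩]
    exact not_not.1 fun g => hc (.inl (.inl ⟨_, mem_univ _, i, hi, g⟩))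
  · rw [cls_eq c _ ⟨t, h⟩]
    exact not_not.1 fun g => hc (.inl (.inr ⟨_, mem_univ _, j, hj, g⟩))
  · rw [cls_eq c _ ⟨t₀, ht⟩]
    exact not_not.1 fun g => hc (.inr ⟨j, hj, g⟩)

end Pool.Agent.MP_35cb46_co.Nl

end
end MrgPart2

-- ======== part 3: formerly Pool.Agent.MP_35cb46_co.nl.Down2
section MrgPart3

/-! PROJECT NL, row DOWN2: from opened targets to new atoms, and the iteration. -/

namespace Pool.Agent.MP_35cb46_co.Nl

open Finset Pool.Agent.MP_7be75d_co Pool.Agent.MP_35cb46_co.Sq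
open scoped Classical

namespace Down2P

/-- The best dyadic class. -/
theorem dyadic {κ : Type} (S : Finset κ) (f : κ → ℕ) (Λ : ℕ) (h1 : ∀ u ∈ S, 1 ≤ f u)
    (h2 : ∀ u ∈ S, f u < 2 ^ Λ) (hS : S.Nonempty) :
    ∃ J ⊆ S, ∃ u₀ ∈ J, (∀ u ∈ J, f u₀ ≤ f u) ∧ ts f S ≤ 2 * Λ * (J.card * f u₀) := by
  have hl : ∀ u ∈ S, Nat.log 2 (f u) ∈ range Λ := fun u hu =>
    mem_range.2 (Nat.log_lt_of_lt_pow (by have := h1 u hu; omega) (h2 u hu))
  obtain ⟨u₁, hu₁⟩ := hS
  obtain ⟨j, -, hj⟩ := exists_max_image (range Λ)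
    (fun j => ts f (S.filter fun u => Nat.log 2 (f u) = j)) ⟨_, hl u₁ hu₁⟩
  set J := S.filter fun u => Nat.log 2 (f u) = j with hJ
  have h3 : ts f S ≤ Λ * ts f J := by
    have : ts f S = ∑ i ∈ range Λ, ts f (S.filter fun u => Nat.log 2 (f u) = i) :=
      (sum_fiberwise_of_maps_to hl f).symm
    rw [this]
    simpa using sum_le_card_nsmul _ _ _ hj
  have h4 : J.Nonempty := by
    by_contra hc
    rw [not_nonempty_iff_eq_empty] at hc
    have h5 : f u₁ ≤ ts f S := single_le_ts hu₁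
    have h6 := h1 u₁ hu₁
    rw [hc] at h3
    simp [ts] at h3
    have := h3 u₁ hu₁
    omega
  obtain ⟨u₀, hu₀, hm⟩ := exists_min_image J f h4
  refine ⟨J, filter_subset _ _, u₀, hu₀, hm, h3.trans ?_⟩
  have h7 : ts f J ≤ J.card * (2 * f u₀) := by
    refine ts_le_card fun u hu => ?_
    have a1 := (mem_filter.1 hu).2
    have a2 := (mem_filter.1 hu₀).2
    have a3 : f u < 2 ^ (Nat.log 2 (f u) + 1) := Nat.lt_pow_succ_log_self (by norm_num) _
    have a4 : 2 ^ Nat.log 2 (f u₀) ≤ f u₀ :=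
      Nat.pow_log_le_self 2 (by have := h1 u₀ (mem_filter.1 hu₀).1; omega)
    rw [a1, pow_succ] at a3
    rw [a2] at a4
    omega
  calc Λ * ts f J ≤ Λ * (J.card * (2 * f u₀)) := Nat.mul_le_mul_left _ h7
    _ = _ := by ring

end Down2P

open Down2P

theorem down2 : Down2Stmt := by
  intro V κ _ G Amb Rt T K g ρ Λ Tg X T₀ ω col R Old hV hK hg hTg hM
  have : Nonempty (ℕ → V → V) := ⟨fun _ x => x⟩
  choose! AA wd Y Cd y hG using hM.gad
  obtain ⟨a₀, ha₀⟩ := hTg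
  -- owners
  have ex1 : ∀ x : V, ∃ a, ∀ b ∈ Tg, x ∈ X b → a = b := fun x => by
    by_cases h : ∃ b ∈ Tg, x ∈ X b
    · obtain ⟨b, hb, hx⟩ := h
      exact ⟨b, fun c hc hx' => hM.fam.eq hb hc hx hx'⟩
    · exact ⟨a₀, fun c hc hx' => absurd ⟨c, hc, hx'⟩ h⟩
  choose ow how using ex1
  have uniq : ∀ a ∈ Tg, ∀ b ∈ Tg, ∀ u ∈ AA a, ∀ u' ∈ AA b, ∀ x ∈ u, x ∈ u' → a = b ∧ u = u' :=
    fun a ha b hb u hu u' hu' x h1 h2 => by
      have e : a = b := hM.fam.eq ha hb ((hG a ha).fam.sub u hu h1) ((hG b hb).fam.sub u' hu' h2)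
      subst e
      exact ⟨rfl, (hG a ha).fam.eq hu hu' h1 h2⟩
  have ex2 : ∀ u : Finset V, ∃ a, ∀ b ∈ Tg, u ∈ AA b → a = b := fun u => by
    by_cases h : ∃ b ∈ Tg, u ∈ AA b
    · obtain ⟨b, hb, hu⟩ := h
      obtain ⟨x, hx⟩ := ((hG b hb).fam.conn u hu).1
      exact ⟨b, fun c hc hu' => (uniq b hb c hc u hu u hu' x hx hx).1⟩
    · exact ⟨a₀, fun c hc hx' => absurd ⟨c, hc, hx'⟩ h⟩
  choose oa hoa using ex2
  set S : Finset (Finset V) := Tg.biUnion AA with hS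
  have hSm : ∀ u ∈ S, oa u ∈ Tg ∧ u ∈ AA (oa u) := fun u hu => by
    obtain ⟨b, hb, h⟩ := mem_biUnion.1 hu
    rw [hoa u b hb h]
    exact ⟨hb, h⟩
  set f : Finset V → ℕ := fun u => wd (oa u) u with hf
  have hmass : Tg.card * g ≤ K * ts f S := by
    have e1 : ts f S = ∑ a ∈ Tg, ts (wd a) (AA a) := by
      rw [hS, ts_biUnion]
      · exact sum_congr rfl fun a ha => sum_congr rfl fun u hu => by
          simp only [hf, hoa u a ha hu]
      · intro a ha b hb e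
        exact disjoint_left.2 fun u h1 h2 => e ((hoa u a ha h1).symm.trans (hoa u b hb h2))
    rw [e1, mul_sum]
    simpa using card_nsmul_le_sum Tg (fun a => K * ts (wd a) (AA a)) g fun a ha => (hG a ha).mass
  have hSne : S.Nonempty := by
    by_contra hc
    rw [not_nonempty_iff_eq_empty] at hc
    have h1 : 0 < Tg.card := card_pos.2 ⟨a₀, ha₀⟩
    have h2 : 0 < Tg.card * g := Nat.mul_pos h1 hg
    rw [hc] at hmass
    simp [ts] at hmass
    rcases hmass with h | h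
    · rw [h] at ha₀; simp at ha₀
    · omega
  obtain ⟨J, hJS, u₀, hu₀, hmin, hvol⟩ := dyadic S f Λ
    (fun u hu => le_trans (by omega) ((hG _ (hSm u hu).1).big u (hSm u hu).2))
    (fun u hu => by
      have h1 := (hG _ (hSm u hu).1).card u (hSm u hu).2 0 (Nat.zero_le _)
      have h2 : (Cd (oa u) 0 ∩ u).card ≤ Fintype.card V := card_le_univ _
      simp only [hf]
      omega) hSne
  have hJm : ∀ u ∈ J, oa u ∈ Tg ∧ u ∈ AA (oa u) := fun u hu => hSm u (hJS hu)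
  have ex3 : ∀ u t, ∃ s : Finset V, u ∈ J → t ≤ T → s ⊆ Cd (oa u) t ∩ u ∧ s.card = f u₀ :=
    fun u t => by
      by_cases h : u ∈ J ∧ t ≤ T
      · have h1 := (hG _ (hJm u h.1).1).card u (hJm u h.1).2 t h.2
        obtain ⟨s, h2, h3⟩ := exists_subset_card_eq (s := Cd (oa u) t ∩ u) (n := f u₀)
          (h1 ▸ hmin u h.1)
        exact ⟨s, fun _ _ => ⟨h2, h3⟩⟩
      · exact ⟨∅, fun h1 h2 => absurd ⟨h1, h2⟩ h⟩
  choose sb hsb using ex3
  set Cd' : ℕ → Finset V := fun t => J.biUnion fun u => sb u t with hCd'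
  set y' : ℕ → V → V := fun t x => y (ow x) t x with hy'
  set R' : ℕ → Finset V := fun t => R t ∪ Tg.biUnion fun a => Y a t with hR'
  have jdisj : ∀ u ∈ J, ∀ u' ∈ J, u ≠ u' → Disjoint u u' := fun u hu u' hu' e =>
    disjoint_left.2 fun x h1 h2 =>
      e (uniq _ (hJm u hu).1 _ (hJm u' hu').1 u (hJm u hu).2 u' (hJm u' hu').2 x h1 h2).2
  have hcd : ∀ t ≤ T, ∀ x ∈ Cd' t, ∃ u ∈ J, x ∈ u ∧ x ∈ Cd (oa u) t ∧ ow x = oa u :=
    fun t ht x hx => by
      obtain ⟨u, hu, h1⟩ := mem_biUnion.1 hx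
      obtain ⟨h2, h3⟩ := mem_inter.1 ((hsb u t hu ht).1 h1)
      exact ⟨u, hu, h3, h2, how x _ (hJm u hu).1 ((hG _ (hJm u hu).1).fam.sub u (hJm u hu).2 h3)⟩
  have hcard : ∀ u ∈ J, ∀ t ≤ T, (Cd' t ∩ u).card = f u₀ := fun u hu t ht => by
    rw [← (hsb u t hu ht).2]
    congr 1
    ext x
    rw [mem_inter]
    constructor
    · rintro ⟨h1, h2⟩
      obtain ⟨u', hu', h3⟩ := mem_biUnion.1 h1
      by_cases e : u' = u
      · exact e ▸ h3
      · exact absurd h2 (disjoint_left.1 (jdisj u' hu' u hu e)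
          (mem_inter.1 ((hsb u' t hu' ht).1 h3)).2)
    · exact fun h => ⟨mem_biUnion.2 ⟨u, hu, h⟩, (mem_inter.1 ((hsb u t hu ht).1 h)).2⟩
  have hsub : ∀ t ≤ T, ∀ a ∈ Tg, Y a t ∪ om (T₀ a) ω col t ⊆ R' t := fun t ht a ha =>
    union_subset ((subset_biUnion_of_mem (fun a => Y a t) ha).trans subset_union_right)
      ((hM.osub a ha t ht).trans subset_union_left)
  have hadj : ∀ t ≤ T, ∀ x ∈ Cd' t, y' t x ∈ R' t ∧ G.Adj x (y' t x) := fun t ht x hx => by
    obtain ⟨u, hu, -, h2, h3⟩ := hcd t ht x hx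
    have h4 := (hG _ (hJm u hu).1).adj t ht x h2
    simp only [hy', h3]
    exact ⟨hsub t ht _ (hJm u hu).1 h4.1, h4.2⟩
  have omsub : ∀ a t, om (T₀ a) ω col t ⊆ (T₀ a).image ω := fun a t =>
    image_subset_image cls_subset
  -- the key estimate
  have key : ∀ t ≤ T, ∀ A ⊆ R' t, ts (cnt (Cd' t) (y' t)) A ≤
      K * (cw (aw G) A (R' t \ A) + (A ∩ Tg.biUnion fun a => om (T₀ a) ω col t).card) := by
    intro t ht A hA
    set Z : κ → Finset V := fun a => Y a t ∪ om (T₀ a) ω col t with hZ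
    have zd : ∀ a ∈ Tg, ∀ b ∈ Tg, a ≠ b → Disjoint (Z a) (Z b) := fun a ha b hb e => by
      simp only [hZ, disjoint_union_left, disjoint_union_right]
      refine ⟨⟨?_, ?_⟩, ?_, ?_⟩
      · exact (hM.fam.disj a ha b hb e).mono ((hG a ha).ysub t ht) ((hG b hb).ysub t ht)
      · exact ((hM.xr b hb t ht).mono ((hG b hb).ysub t ht) (hM.osub a ha t ht)).symm
      · exact (hM.xr a ha t ht).mono ((hG a ha).ysub t ht) (hM.osub b hb t ht)
      · exact (hM.odisj a ha b hb e).mono (omsub a t) (omsub b t)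
    have s1 : ((Cd' t).filter fun x => y' t x ∈ A) ⊆
        Tg.biUnion fun a => (Cd a t).filter fun x => y a t x ∈ A ∩ Z a := by
      intro x hx
      obtain ⟨h0, h1⟩ := mem_filter.1 hx
      obtain ⟨u, hu, -, h2, h3⟩ := hcd t ht x h0
      simp only [hy', h3] at h1
      exact mem_biUnion.2 ⟨_, (hJm u hu).1, mem_filter.2
        ⟨h2, mem_inter.2 ⟨h1, ((hG _ (hJm u hu).1).adj t ht x h2).1⟩⟩⟩
    have s2 : ∑ a ∈ Tg, cw (aw G) (A ∩ Z a) (Z a \ (A ∩ Z a)) ≤ cw (aw G) A (R' t \ A) := by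
      calc _ ≤ ∑ a ∈ Tg, cw (aw G) (A ∩ Z a) (R' t \ A) := by
            refine sum_le_sum fun a ha => cw_mono subset_rfl fun v hv => ?_
            obtain ⟨h1, h2⟩ := mem_sdiff.1 hv
            exact mem_sdiff.2 ⟨hsub t ht a ha h1, fun h3 => h2 (mem_inter.2 ⟨h3, h1⟩)⟩
        _ = cw (aw G) (Tg.biUnion fun a => A ∩ Z a) (R' t \ A) :=
            (cw_biUnion fun a ha b hb e =>
              (zd a ha b hb e).mono inter_subset_right inter_subset_right).symm
        _ ≤ _ := cw_mono (biUnion_subset.2 fun a _ => inter_subset_left) subset_rfl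
    have s3 : ∑ a ∈ Tg, ((A ∩ Z a) ∩ om (T₀ a) ω col t).card ≤
        (A ∩ Tg.biUnion fun a => om (T₀ a) ω col t).card := by
      rw [← card_biUnion fun a ha b hb e => (zd a ha b hb e).mono
        (inter_subset_left.trans inter_subset_right) (inter_subset_left.trans inter_subset_right)]
      refine card_le_card (biUnion_subset.2 fun a ha v hv => ?_)
      obtain ⟨h1, h2⟩ := mem_inter.1 hv
      exact mem_inter.2 ⟨(mem_inter.1 h1).1, mem_biUnion.2 ⟨a, ha, h2⟩⟩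
    calc _ = ((Cd' t).filter fun x => y' t x ∈ A).card := ts_cnt _ _ _
      _ ≤ ∑ a ∈ Tg, ((Cd a t).filter fun x => y a t x ∈ A ∩ Z a).card :=
          (card_le_card s1).trans card_biUnion_le
      _ ≤ ∑ a ∈ Tg, K * (cw (aw G) (A ∩ Z a) (Z a \ (A ∩ Z a)) +
            ((A ∩ Z a) ∩ om (T₀ a) ω col t).card) := by
          refine sum_le_sum fun a ha => ?_
          rw [← ts_cnt]
          exact (hG a ha).tr t ht _ inter_subset_right
      _ ≤ _ := by
          rw [← mul_sum, sum_add_distrib]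
          exact Nat.mul_le_mul_left _ (Nat.add_le_add s2 s3)
  have omR : ∀ t ≤ T, (Tg.biUnion fun a => om (T₀ a) ω col t) ⊆ R t := fun t ht =>
    biUnion_subset.2 fun a ha => hM.osub a ha t ht
  have key2 : ∀ t ≤ T, ∀ A ⊆ R' t,
      ts (fun v => cnt (Cd' t) (y' t) v + if t = 0 then ind Old v else 0) A ≤
      K * cw (aw G) A (R' t \ A) + K * ts (fun v => ind (Tg.biUnion fun a => om (T₀ a) ω col t) v +
        if t = 0 then ind Old v else 0) (A ∩ R t) := by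
    intro t ht A hA
    have h1 := key t ht A hA
    have h2 : (A ∩ Tg.biUnion fun a => om (T₀ a) ω col t).card =
        ts (ind (Tg.biUnion fun a => om (T₀ a) ω col t)) (A ∩ R t) := by
      rw [ts_ind, inter_assoc, inter_eq_right.2 (omR t ht)]
    have h3 : ts (fun v => if t = 0 then ind Old v else 0) A =
        ts (fun v => if t = 0 then ind Old v else 0) (A ∩ R t) := by
      by_cases e : t = 0
      · subst e
        simp only [if_true]
        rw [show (fun v => ind Old v) = ind Old from rfl, ts_ind, ts_ind, inter_assoc,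
          inter_eq_right.2 (hM.old.trans inter_subset_left)]
      · simp [e, ts]
    rw [ts_add, ts_add, h3, ← h2]
    have h4 : ts (fun v => if t = 0 then ind Old v else 0) (A ∩ R t) ≤
      K * ts (fun v => if t = 0 then ind Old v else 0) (A ∩ R t) := Nat.le_mul_of_pos_left _ hK
    rw [mul_add] at h1 ⊢
    omega
  have hKK : K ≤ 2 * K ^ 2 := by nlinarith
  refine ⟨f u₀, J, R', Cd', y', ⟨⟨fun u hu => ?_, fun u hu => ?_, jdisj⟩, fun t ht => ?_,
    fun t ht t' ht' e => ?_, fun u hu t ht => ?_, fun t ht x hx => ?_, hcard, hadj,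
    fun u hu => ?_, fun t ht A hA => ?_, ?_, ?_⟩, (hG _ (hJm u₀ hu₀).1).big u₀ (hJm u₀ hu₀).2,
    (hG _ (hJm u₀ hu₀).1).small u₀ (hJm u₀ hu₀).2, ?_⟩
  · exact ((hG _ (hJm u hu).1).fam.sub u (hJm u hu).2).trans (hM.fam.sub _ (hJm u hu).1)
  · exact (hG _ (hJm u hu).1).fam.conn u (hJm u hu).2
  · exact union_subset (hM.rsub t ht)
      (biUnion_subset.2 fun a ha => ((hG a ha).ysub t ht).trans (hM.fam.sub a ha))
  · simp only [hR', disjoint_union_left, disjoint_union_right, disjoint_biUnion_left,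
      disjoint_biUnion_right]
    refine ⟨⟨hM.rdisj t ht t' ht' e, fun a ha => ?_⟩, fun b hb => ⟨?_, fun a ha => ?_⟩⟩
    · exact (hM.xr a ha t' ht').mono ((hG a ha).ysub t ht) subset_rfl
    · exact ((hM.xr b hb t ht).mono ((hG b hb).ysub t' ht') subset_rfl).symm
    · by_cases e' : a = b
      · subst e'
        exact (hG a ha).ydisj t ht t' ht' e
      · exact (hM.fam.disj a ha b hb e').mono ((hG a ha).ysub t ht) ((hG b hb).ysub t' ht')
  · have h1 := (hG _ (hJm u hu).1).fam.sub u (hJm u hu).2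
    simp only [hR', disjoint_union_right, disjoint_biUnion_right, id]
    refine ⟨(hM.xr _ (hJm u hu).1 t ht).mono h1 subset_rfl, fun b hb => ?_⟩
    by_cases e' : oa u = b
    · subst e'
      exact (hG _ hb).uy u (hJm u hu).2 t ht
    · exact (hM.fam.disj _ (hJm u hu).1 b hb e').mono h1 ((hG b hb).ysub t ht)
  · obtain ⟨u, hu, h1, -⟩ := hcd t ht x hx
    exact mem_biUnion.2 ⟨u, hu, h1⟩
  · refine (((hG _ (hJm u hu).1).wl u (hJm u hu).2).tau fun x hx => ind_mono fun h => ?_).up hKK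
    obtain ⟨t, ht, h1⟩ := mem_biUnion.1 h
    obtain ⟨u', hu', h2, h3, -⟩ := hcd t (Nat.lt_succ_iff.1 (mem_range.1 ht)) x h1
    have e : u' = u := by
      by_contra e
      exact disjoint_left.1 (jdisj u' hu' u hu e) h2 hx
    exact mem_biUnion.2 ⟨t, ht, e ▸ h3⟩
  · have h1 := key2 t ht A hA
    have h2 := key2 t ht (R' t \ A) sdiff_subset
    rw [Finset.sdiff_sdiff_eq_self hA, cw_comm aw_comm (R' t \ A) A] at h2
    have e1 : (R' t \ A) ∩ R t = R t \ (A ∩ R t) := by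
      ext v
      simp only [mem_inter, mem_sdiff, hR', mem_union]
      tauto
    rw [e1] at h2
    have h3 := hM.rwl t ht (A ∩ R t) inter_subset_right
    have h4 : cw (aw G) (A ∩ R t) (R t \ (A ∩ R t)) ≤ cw (aw G) A (R' t \ A) :=
      cw_mono inter_subset_left (e1 ▸ inter_subset_left)
    set e := cw (aw G) A (R' t \ A)
    have h5 : K * (K * cw (aw G) (A ∩ R t) (R t \ (A ∩ R t))) ≤ K * (K * e) :=
      Nat.mul_le_mul_left _ (Nat.mul_le_mul_left _ h4)
    have h6 : K * e ≤ K * (K * e) := Nat.le_mul_of_pos_left _ hK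
    have h7 : 2 * K ^ 2 * e = K * (K * e) + K * (K * e) := by ring
    rcases min_le_iff.1 h3 with h | h
    · have := Nat.mul_le_mul_left K h
      exact (min_le_left _ _).trans (by omega)
    · have := Nat.mul_le_mul_left K h
      exact (min_le_right _ _).trans (by omega)
  · exact hM.old.trans (inter_subset_inter_right subset_union_left)
  · have h1 := key 0 (Nat.zero_le _) (R' 0) subset_rfl
    have h2 : ts (cnt (Cd' 0) (y' 0)) (R' 0) = (Cd' 0).card := by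
      rw [ts_cnt, filter_true_of_mem fun x hx => (hadj 0 (Nat.zero_le _) x hx).1]
    have h3 : (Cd' 0).card = J.card * f u₀ := by
      rw [hCd', card_biUnion fun u hu u' hu' e => (jdisj u hu u' hu' e).mono
        ((hsb u 0 hu (Nat.zero_le _)).1.trans inter_subset_right)
        ((hsb u' 0 hu' (Nat.zero_le _)).1.trans inter_subset_right),
        sum_congr rfl fun u hu => (hsb u 0 hu (Nat.zero_le _)).2]
      simp
    have h4 : (R' 0 ∩ Tg.biUnion fun a => om (T₀ a) ω col 0).card ≤ Tg.card * g := by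
      refine (card_le_card inter_subset_right).trans (card_biUnion_le.trans ?_)
      simpa using sum_le_card_nsmul Tg _ g fun a ha =>
        ((card_le_card (omsub a 0)).trans card_image_le).trans (hM.tcard a ha)
    have h5 : cw (aw G) (R' 0) (R' 0 \ R' 0) = 0 := by simp [cw]
    rw [h2, h3, h5, zero_add] at h1
    calc J.card * f u₀ ≤ K * (K * Old.card) :=
          h1.trans (Nat.mul_le_mul_left _ (h4.trans hM.many))
      _ ≤ _ := by nlinarith [Nat.zero_le (K * (K * Old.card))]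
  · calc Tg.card * g ≤ K * (2 * Λ * (J.card * f u₀)) := hmass.trans (Nat.mul_le_mul_left _ hvol)
      _ = _ := by ring

theorem iter (done : DoneStmt) (down1 : Down1Stmt) (down2 : Down2Stmt) : IterStmt := by
  obtain ⟨cd, done⟩ := done
  obtain ⟨c₁, down1⟩ := down1
  intro c₀
  refine ⟨(2 * c₁ + 2) * (c₀ + 1) + cd + 3, ?_⟩
  set c := (2 * c₁ + 2) * (c₀ + 1) + cd + 3 with hc
  intro T K B Λ r j p hgame hT hK hΛ hTB hKB hr
  have hB : 2 ≤ B := by omega
  have hB1 : 1 ≤ B := by omega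
  have hpow : ∀ {a b : ℕ}, a ≤ b → B ^ a ≤ B ^ b := fun h => Nat.pow_le_pow_right hB1 h
  have hBc : 1 ≤ B ^ c := Nat.one_le_pow _ _ hB1
  have hr1 : 1 ≤ r := hBc.trans hr
  induction j with
  | zero =>
    intro V κ _ _ G Amb Rt w N _ _ _ h1 h2 _
    simp at h2
    omega
  | succ j ih =>
    intro V κ _ _ G Amb Rt w N hd hV hN hw hwr hL
    set L' := (B ^ c) ^ (j + 1) * r ^ 3 with hL'
    have eL : (B ^ c) ^ (j + 1 + 1) * r ^ 3 = B ^ c * L' := by rw [hL']; ring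
    rw [eL] at hL ⊢
    have hL1 : r ^ 3 ≤ L' := Nat.le_mul_of_pos_left _ (Nat.one_le_pow _ _ hBc)
    have hL2 : 1 ≤ L' := (Nat.one_le_pow _ _ hr1).trans hL1
    have hV1 : Fintype.card V < 2 ^ Λ := by omega
    have hV2 : Fintype.card V < 2 ^ B := hV1.trans_le (Nat.pow_le_pow_right (by norm_num) hΛ)
    have hJ : B ^ c * L' ≤ N.J.card := by
      have h1 : B ^ c * L' * w ≤ N.J.card * w :=
        (Nat.mul_le_mul_left _ (Nat.le_add_left _ _)).trans hL
      exact Nat.le_of_mul_le_mul_right h1 hw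
    by_cases hth : 16 * K * cw (thin N.mu (T * w) ((r * T) ^ 3)) N.J N.J ≤ N.J.card * w
    · have h1 : B ^ cd * (r * T) ^ 3 ≤ B ^ c * L' := by
        calc B ^ cd * (r * T) ^ 3 ≤ B ^ cd * (r * B) ^ 3 :=
              Nat.mul_le_mul_left _ (Nat.pow_le_pow_left (Nat.mul_le_mul_left _ (by omega)) 3)
          _ = B ^ (cd + 3) * r ^ 3 := by ring
          _ ≤ _ := Nat.mul_le_mul (hpow (by omega)) hL1
      obtain ⟨h, P, hP, hh⟩ := done V κ G Amb Rt T w K B ((r * T) ^ 3) p N hd hV2 hN hw hT hK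
        (by omega) hKB hB (Nat.one_le_pow _ _ (Nat.mul_pos hr1 hT)) hth
        ((Nat.mul_le_mul_right _ h1).trans hL)
      refine ⟨h, P, hP.up subset_rfl subset_rfl ?_,
        hh.trans (Nat.mul_le_mul_right _ (Nat.mul_le_mul_right _ h1))⟩
      exact (hpow (by omega)).trans (Nat.le_mul_of_pos_right _ hL2)
    · have hc1 : c₁ ≤ c := by nlinarith
      obtain ⟨Tg, T₀, col, R, Old, hM, hTg⟩ := down1 V κ G Amb Rt T w K B Λ (r * T) N hd hV hN hw
        hT hK hΛ hTB hKB (((hpow hc1).trans hr).trans (Nat.le_mul_of_pos_right _ hT))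
        (((hpow hc1).trans (Nat.le_mul_of_pos_right _ hL2)).trans hJ) (not_le.1 hth)
      have hJ1 : 1 ≤ N.J.card := (Nat.mul_pos hBc hL2).trans_le hJ
      have hne : Tg.Nonempty := by
        rw [← card_pos]
        rcases Nat.eq_zero_or_pos Tg.card with h | h
        · rw [h] at hTg; omega
        · exact h
      obtain ⟨w', J', R', Cd, y, hP, hw1, hw2, hw3⟩ := down2 V κ G Amb Rt T (B ^ c₁) (T * w)
        (r * T) Λ Tg N.X T₀ N.μ col R Old hV1 (Nat.one_le_pow _ _ hB1) (Nat.mul_pos hT hw) hne hM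
      set K₂ := B ^ (2 * c₁ + 2) with hK₂
      have eK : K₂ = B * B * (B ^ c₁) ^ 2 := by rw [hK₂]; ring
      have hp1 : 1 ≤ (B ^ c₁) ^ 2 := Nat.one_le_pow _ _ (Nat.one_le_pow _ _ hB1)
      have hK1 : 2 * (B ^ c₁) ^ 2 ≤ K₂ := by
        rw [eK]; exact Nat.mul_le_mul_right _ (by nlinarith)
      have hK2 : T + 1 ≤ K₂ := by
        rw [eK]
        exact le_trans (by nlinarith) (Nat.le_mul_of_pos_right (B * B) hp1)
      have hK0 : 0 < K₂ := by omega
      have hrw : r * w' ≤ w := by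
        have : T * (r * w') ≤ T * w := by rw [← mul_assoc, mul_comm T r]; exact hw2
        exact Nat.le_of_mul_le_mul_left this hT
      have hww : w' ≤ w := (Nat.le_mul_of_pos_left _ hr1).trans hrw
      have hwj : w' < r ^ j := by
        have : r * w' < r * r ^ j := by rw [← pow_succ']; omega
        exact Nat.lt_of_mul_lt_mul_left this
      have hm : N.J.card * w ≤ K₂ * (J'.card * w') := by
        calc N.J.card * w ≤ B ^ c₁ * Tg.card * (T * w) :=
              Nat.mul_le_mul hTg (Nat.le_mul_of_pos_left _ hT)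
          _ = B ^ c₁ * (Tg.card * (T * w)) := by ring
          _ ≤ B ^ c₁ * (2 * Λ * B ^ c₁ * (J'.card * w')) := Nat.mul_le_mul_left _ hw3
          _ = 2 * Λ * (B ^ c₁) ^ 2 * (J'.card * w') := by ring
          _ ≤ _ := by
              rw [eK]
              exact Nat.mul_le_mul_right _ (Nat.mul_le_mul_right _ (Nat.mul_le_mul hB hΛ))
      have hKc : K₂ * K₂ ^ c₀ ≤ B ^ c := by
        rw [← pow_succ', hK₂, ← pow_mul]
        exact hpow (by omega)
      have hJ' : K₂ ^ c₀ ≤ J'.card := by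
        have h1 : K₂ * K₂ ^ c₀ * w ≤ K₂ * J'.card * w := by
          calc K₂ * K₂ ^ c₀ * w ≤ N.J.card * w := Nat.mul_le_mul_right _
                ((hKc.trans (Nat.le_mul_of_pos_right _ hL2)).trans hJ)
            _ ≤ K₂ * (J'.card * w) :=
                hm.trans (Nat.mul_le_mul_left _ (Nat.mul_le_mul_left _ hww))
            _ = _ := by ring
        exact Nat.le_of_mul_le_mul_left (Nat.le_of_mul_le_mul_right h1 hw) hK0
      obtain ⟨w'', N', hN', hv1, hv2, hv3⟩ := hgame V (Finset V) G Amb Rt w' K₂ J' id R' Cd y Old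
        hd hV hw1 hK2 hJ' (hP.up hK1 hK1)
      have hm2 : N.J.card * w ≤ B ^ c * (N'.J.card * w'') := by
        calc N.J.card * w ≤ K₂ * (K₂ ^ c₀ * (N'.J.card * w'')) :=
              hm.trans (Nat.mul_le_mul_left _ hv3)
          _ = K₂ * K₂ ^ c₀ * (N'.J.card * w'') := by ring
          _ ≤ _ := Nat.mul_le_mul_right _ hKc
      have hpw : L' * (p + w'') ≤ L' * (p + w) := Nat.mul_le_mul_left _ (by omega)
      obtain ⟨h, P, hP', hh⟩ := ih V (Finset V) G Amb Rt w'' N' hd hV hN' hv1 (by omega)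
        (hpw.trans (Nat.le_of_mul_le_mul_left
          (by rw [← mul_assoc]; exact hL.trans hm2) hBc))
      refine ⟨h, P, hP'.up subset_rfl subset_rfl (Nat.le_mul_of_pos_left _ hBc), ?_⟩
      calc N.J.card * w ≤ B ^ c * (L' * (p + w) * h) :=
            hm2.trans (Nat.mul_le_mul_left _ (hh.trans (Nat.mul_le_mul_right _ hpw)))
        _ = _ := by ring

end Pool.Agent.MP_35cb46_co.Nl

end MrgPart3

-- ======== part 4: formerly Pool.Agent.MP_35cb46_co.nl.Final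
section MrgPart4

/-! PROJECT NL, row FINAL: from small graphs of bounded degree to all graphs. -/

namespace Pool.Agent.MP_35cb46_co.Nl

open Finset Pool.Agent.MP_7be75d_co Pool.Agent.MP_35cb46_co.Sq
open scoped Classical

namespace FinalP

theorem nat_arith (c c1 : ℕ) : ∃ a F : ℕ, ∀ x l : ℕ, 1 ≤ x → x < 2 ^ l →
    ∃ m t r j k : ℕ, 1 ≤ k ∧ (12 * l + a + 2) ^ c1 ≤ r ∧ 2 ^ (12 * l + a) ≤ r ^ j ∧
      ((12 * l + a + 2) ^ c1) ^ (j + 1) * r ^ 9 * (6 * x) ≤ k ∧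
      6 * (49 * (12 * l + a) * (16 * (4 * (18 * (49 * (12 * l + a)) * k)) ^ 3)) <
        2 ^ (12 * l + a) ∧
      c * (49 * (12 * l + a)) ^ c * (4 * (18 * (49 * (12 * l + a)) * k)) ≤ 2 ^ (F * t) * x ∧
      t ^ 2 ≤ 4 * (m + 1) * (12 * l + a) ∧ 2 ^ m ≤ 12 * l + a + 2 := by
  obtain ⟨E, hE⟩ : ∃ E, E = 11 * c1 + 12 := ⟨_, rfl⟩
  obtain ⟨F, hF⟩ : ∃ F, F = 3 * (E + 13) + 14 := ⟨_, rfl⟩
  obtain ⟨a, ha⟩ := exists_dom (64 * F ^ 2) 1
  refine ⟨2 ^ a, 8 * c + (E + 13), fun x l hx hl => ?_⟩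
  have l1 : 1 ≤ l := Nat.pos_of_ne_zero fun e => by rw [e] at hl; omega
  obtain ⟨Λ, hΛ⟩ : ∃ Λ, Λ = 12 * l + 2 ^ a := ⟨_, rfl⟩
  rw [← hΛ]
  have Λ0 : 12 * l ≤ Λ := hΛ ▸ Nat.le_add_right _ _
  obtain ⟨m, hm⟩ : ∃ m, m = Nat.log 2 (Λ + 2) := ⟨_, rfl⟩
  have m1 : 2 ^ m ≤ Λ + 2 := hm ▸ Nat.pow_log_le_self 2 (by omega)
  have m2 : Λ + 2 < 2 ^ (m + 1) := hm ▸ Nat.lt_pow_succ_log_self (by omega) _
  have m3 : a ≤ m + 1 := by
    have : 2 ^ a < 2 ^ (m + 1) := by omega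
    exact ((Nat.pow_lt_pow_iff_right (by omega)).1 this).le
  have m4 : 16 * F ^ 2 * (m + 1) ≤ Λ := by
    have := ha _ m3
    rw [pow_one, pow_succ 2 m] at this
    have e : 64 * F ^ 2 * (m + 1) = 4 * (16 * F ^ 2 * (m + 1)) := by ring
    omega
  have F1 : 1 ≤ F ^ 2 := Nat.one_le_pow _ _ (by omega)
  have m5 : m + 1 ≤ Λ := by nlinarith
  obtain ⟨s, hs⟩ : ∃ s, s = Nat.sqrt (Λ / (m + 1)) := ⟨_, rfl⟩
  have s1 : (m + 1) * s ^ 2 ≤ Λ :=
    le_trans (Nat.mul_le_mul_left _ (hs ▸ Nat.sqrt_le' _)) (Nat.mul_div_le _ _)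
  have s2 : Λ ≤ (m + 1) * (s + 1) ^ 2 := by
    have h1 : Λ / (m + 1) + 1 ≤ (s + 1) ^ 2 := hs ▸ Nat.lt_succ_sqrt' _
    exact le_trans (Nat.lt_mul_div_succ Λ (Nat.succ_pos m)).le (Nat.mul_le_mul_left _ h1)
  obtain ⟨t, ht⟩ : ∃ t, t = (m + 1) * (s + 1) := ⟨_, rfl⟩
  have t1 : m + 1 ≤ t := ht ▸ Nat.le_mul_of_pos_right _ (Nat.succ_pos s)
  have t2 : t ^ 2 ≤ 4 * (m + 1) * Λ := by
    have h1 : (s + 1) ^ 2 ≤ 2 * s ^ 2 + 2 := by nlinarith [sq_nonneg ((s : ℤ) - 1)]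
    calc t ^ 2 = (m + 1) * ((m + 1) * (s + 1) ^ 2) := by rw [ht]; ring
      _ ≤ (m + 1) * ((m + 1) * (2 * s ^ 2 + 2)) := by gcongr
      _ = (m + 1) * (2 * ((m + 1) * s ^ 2) + 2 * (m + 1)) := by ring
      _ ≤ (m + 1) * (2 * Λ + 2 * Λ) := by gcongr
      _ = _ := by ring
  have t3 : 2 * (F * t) ≤ Λ := by
    refine (Nat.pow_le_pow_iff_left (show 2 ≠ 0 by omega)).1 ?_
    calc (2 * (F * t)) ^ 2 = 4 * F ^ 2 * t ^ 2 := by ring
      _ ≤ 4 * F ^ 2 * (4 * (m + 1) * Λ) := by gcongr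
      _ = 16 * F ^ 2 * (m + 1) * Λ := by ring
      _ ≤ Λ * Λ := by gcongr
      _ = _ := by ring
  have pw : ∀ {u v : ℕ}, u ≤ v → 2 ^ u ≤ 2 ^ v := fun h => Nat.pow_le_pow_right (by omega) h
  have L1 : Λ ≤ 2 ^ t := le_trans (by omega) (m2.le.trans (pw t1))
  have L2 : (Λ + 2) ^ c1 ≤ 2 ^ ((m + 1) * c1) := by
    rw [pow_mul]; exact Nat.pow_le_pow_left m2.le _
  have g1 : 4 * (18 * (49 * Λ) * (2 ^ (E * t) * x)) ≤ 2 ^ ((E + 13) * t) * x :=
    calc _ = 3528 * Λ * 2 ^ (E * t) * x := by ring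
      _ ≤ 2 ^ (12 * t) * 2 ^ t * 2 ^ (E * t) * x := by
          gcongr
          exact le_trans (by norm_num) (pw (show 12 ≤ 12 * t by omega))
      _ = _ := by rw [← pow_add, ← pow_add]; congr 2; ring
  refine ⟨m, t, 2 ^ ((m + 1) * c1 + t), s + 1, 2 ^ (E * t) * x, Nat.succ_le_of_lt (by positivity),
    L2.trans (pw (by omega)), ?_, ?_, ?_, ?_, t2, m1⟩
  · rw [← pow_mul]
    refine pw (s2.trans ?_)
    rw [add_mul, ht]
    nlinarith [Nat.zero_le ((m + 1) * c1 * (s + 1))]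
  · calc _ ≤ (2 ^ ((m + 1) * c1)) ^ (s + 1 + 1) * (2 ^ ((m + 1) * c1 + t)) ^ 9 *
          (2 ^ (3 * t) * x) := by
          gcongr
          exact le_trans (by norm_num) (pw (show 3 ≤ 3 * t by omega))
      _ = 2 ^ (c1 * t + 10 * (c1 * (m + 1)) + 12 * t) * x := by
          rw [← pow_mul, ← pow_mul, ← mul_assoc, ← pow_add, ← pow_add, ht]; congr 2; ring
      _ ≤ _ := by
          refine Nat.mul_le_mul_right _ (pw ?_)
          have := Nat.mul_le_mul_left c1 t1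
          rw [hE, add_mul, mul_assoc]
          omega
  · calc _ = 4704 * Λ * (4 * (18 * (49 * Λ) * (2 ^ (E * t) * x))) ^ 3 := by ring
      _ ≤ 2 ^ (13 * t) * 2 ^ t * (2 ^ ((E + 13) * t) * x) ^ 3 := by
          gcongr
          exact le_trans (by norm_num) (pw (show 13 ≤ 13 * t by omega))
      _ = 2 ^ (F * t) * x ^ 3 := by
          rw [mul_pow, ← pow_mul, ← mul_assoc, ← pow_add, ← pow_add, hF]; congr 2; ring
      _ < 2 ^ (F * t) * (2 ^ l) ^ 3 :=
          Nat.mul_lt_mul_of_pos_left (Nat.pow_lt_pow_left hl (by omega)) (by positivity)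
      _ ≤ _ := by
          rw [← pow_mul, ← pow_add]
          exact pw (by omega)
  · calc _ ≤ 2 ^ (c * t) * (2 ^ (6 * t) * 2 ^ t) ^ c * (2 ^ ((E + 13) * t) * x) := by
          gcongr
          · exact Nat.lt_two_pow_self.le.trans (pw (Nat.le_mul_of_pos_right _ (by omega)))
          · exact le_trans (by norm_num) (pw (show 6 ≤ 6 * t by omega))
      _ = _ := by
          rw [← pow_add, ← pow_mul, ← mul_assoc, ← pow_add, ← pow_add]; congr 2; ring

theorem real_arith (a F : ℕ) : ∃ C : ℝ, ∀ (y : ℝ) (l m t : ℕ), 0 ≤ y → (l : ℝ) ≤ 2 * (1 + y) →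
    t ^ 2 ≤ 4 * (m + 1) * (12 * l + a) → 2 ^ m ≤ 12 * l + a + 2 →
    (2 : ℝ) ^ (F * t) ≤ Real.exp (C * Real.sqrt ((1 + y) * Real.log (2 + y))) := by
  obtain ⟨A, hA⟩ : ∃ A : ℝ, A = 26 + a := ⟨_, rfl⟩
  have a0 : (0 : ℝ) ≤ a := Nat.cast_nonneg _
  have A1 : 1 ≤ A := by linarith
  refine ⟨F * Real.sqrt (4 * (4 * A + 4) * A), fun y l m t hy hl ht hm => ?_⟩
  have h2 := Real.log_two_gt_d9
  have h3 : Real.log 2 ≤ Real.log (2 + y) := Real.log_le_log (by norm_num) (by linarith)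
  have h4 : (12 * l + a + 2 : ℝ) ≤ A * (1 + y) := by nlinarith
  have h5 : (2 : ℝ) ^ m ≤ A * (2 + y) := by
    have : (2 : ℝ) ^ m ≤ 12 * l + a + 2 := by exact_mod_cast hm
    nlinarith
  have h6 := Real.log_le_log (by positivity) h5
  rw [Real.log_pow, Real.log_mul (by positivity) (by positivity)] at h6
  have h7 := Real.log_le_sub_one_of_pos (show 0 < A by positivity)
  have m0 : (0 : ℝ) ≤ m := Nat.cast_nonneg _
  have h8 : (m + 1 : ℝ) ≤ (4 * A + 4) * Real.log (2 + y) := by nlinarith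
  have h9 : (t : ℝ) ^ 2 ≤ 4 * (4 * A + 4) * A * ((1 + y) * Real.log (2 + y)) := by
    have l0 : (0 : ℝ) ≤ l := Nat.cast_nonneg _
    calc (t : ℝ) ^ 2 ≤ 4 * (m + 1) * (12 * l + a) := by exact_mod_cast ht
      _ ≤ 4 * ((4 * A + 4) * Real.log (2 + y)) * (A * (1 + y)) := by
          refine mul_le_mul (by linarith) (by linarith) (by positivity) (by linarith)
      _ = _ := by ring
  have h10 := Real.le_sqrt_of_sq_le h9
  rw [Real.sqrt_mul (by positivity)] at h10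
  calc (2 : ℝ) ^ (F * t) ≤ Real.exp 1 ^ (F * t) :=
        pow_le_pow_left₀ (by norm_num) (by linarith [Real.add_one_le_exp 1]) _
    _ = Real.exp (F * t) := by rw [← Real.exp_nat_mul]; push_cast; rw [mul_one]
    _ ≤ _ := by
        rw [mul_assoc]
        exact Real.exp_le_exp.2 (mul_le_mul_of_nonneg_left h10 (Nat.cast_nonneg _))

theorem sub {V : Type} {G H : SimpleGraph V} [Fintype V] {U : Finset V} {φ : V → Finset V} {k : ℕ}
    (hM : Model G univ H U φ) (hD : Deg H U 6) (hR : Rich H U k) :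
    ∃ (W : Type) (_ : Fintype W) (H' : SimpleGraph W) (ψ : W → Finset V),
      Model G univ H' univ ψ ∧ Deg H' univ 6 ∧ Fintype.card W = U.card ∧ Rich H' univ k := by
  obtain ⟨W, _, f, hf, h1, h2, hc⟩ : ∃ (W : Type) (_ : Fintype W) (f : W → V),
      Function.Injective f ∧ (∀ w, f w ∈ U) ∧ (∀ v ∈ U, ∃ w, f w = v) ∧
        Fintype.card W = U.card :=
    ⟨U, inferInstance, Subtype.val, Subtype.val_injective, fun w => w.2, fun v hv => ⟨⟨v, hv⟩, rfl⟩,
      Fintype.card_coe U⟩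
  refine ⟨W, inferInstance, H.comap f, fun w => φ (f w), ⟨fun _ _ => subset_univ _,
    fun w _ => hM.conn _ (h1 w), fun w _ w' _ e => hM.disj _ (h1 w) _ (h1 w') fun e' => e (hf e'),
    fun w _ w' _ h => hM.adj _ (h1 w) _ (h1 w') h⟩, fun w _ => ?_, hc, ?_⟩
  · refine le_trans (card_le_card_of_injOn f (fun u hu => ?_) hf.injOn) (hD _ (h1 w))
    exact mem_coe.2 (mem_filter.2 ⟨h1 u, (mem_filter.1 (mem_coe.1 hu)).2⟩)
  · refine (pull W V (H.comap f) univ H U U (fun v => univ.filter fun w => f w = v) k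
      ⟨fun _ _ => subset_univ _, fun v hv => ?_, fun v _ v' _ e => disjoint_left.2 fun w h3 h4 =>
        e ((mem_filter.1 h3).2.symm.trans (mem_filter.1 h4).2), fun v hv v' hv' h => ?_⟩
      subset_rfl hR).mono le_rfl (subset_univ _) le_rfl
    · obtain ⟨w, rfl⟩ := h2 v hv
      refine ⟨⟨w, mem_filter.2 ⟨mem_univ _, rfl⟩⟩, fun a ha b hb => ?_⟩
      rw [hf ((mem_filter.1 ha).2.trans (mem_filter.1 hb).2.symm)]
      exact R.refl
    · obtain ⟨w, rfl⟩ := h2 v hv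
      obtain ⟨w', rfl⟩ := h2 v' hv'
      exact ⟨w, mem_filter.2 ⟨mem_univ _, rfl⟩, w', mem_filter.2 ⟨mem_univ _, rfl⟩, h⟩

theorem lift {V W : Type} [Fintype V] [Fintype W] {G : SimpleGraph V} {H : SimpleGraph W}
    {φ : W → Finset V} {p q : ℕ} (hM : Model G univ H univ φ) (h : Concl H p q) : Concl G p q := by
  obtain ⟨m, S, hT, hS, hQ⟩ := h
  refine ⟨m, fun i => (S i).biUnion φ, ⟨fun _ => subset_univ _, fun i => (hT.conn i).biUnion
    (fun v hv => hM.conn v (hT.sub i hv)) fun u hu v hv => hM.adj u (hT.sub i hu) v (hT.sub i hv),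
    fun i j hij => ?_⟩, fun i => pull V W G univ H univ _ φ _ hM (hT.sub i) (hS i),
    hQ.mono (fun i j hij => ?_) subset_rfl le_rfl⟩
  · rw [disjoint_biUnion_left]
    intro u hu
    rw [disjoint_biUnion_right]
    exact fun v hv => hM.disj u (hT.sub i hu) v (hT.sub j hv) fun e =>
      disjoint_left.1 (hT.disj i j hij) hu (e ▸ hv)
  · have key : ∀ i j, (∃ x ∈ S i, ∃ y ∈ S j, H.Adj x y) →
        ∃ x ∈ (S i).biUnion φ, ∃ y ∈ (S j).biUnion φ, G.Adj x y := by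
      rintro i j ⟨x, hx, y, hy, h⟩
      exact (hM.adj x (hT.sub i hx) y (hT.sub j hy) h).mono (subset_biUnion_of_mem φ hx)
        (subset_biUnion_of_mem φ hy)
    rw [quot, SimpleGraph.fromRel_adj] at hij ⊢
    exact ⟨hij.1, hij.2.imp (key i j) (key j i)⟩

end FinalP

theorem fin (piece : Nl.PieceStmt) : FinalStmt := by
  obtain ⟨c1, h1⟩ := piece
  obtain ⟨c, h2⟩ := chain_of_treewidth
  obtain ⟨a, F, h3⟩ := FinalP.nat_arith c c1
  obtain ⟨C, h4⟩ := FinalP.real_arith a F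
  refine ⟨C, fun p q hp hq V _ G htw => ?_⟩
  have x1 : 1 ≤ p * q := Nat.mul_pos hp hq
  have x2 : (1 : ℝ) ≤ (p : ℝ) * q := by exact_mod_cast x1
  obtain ⟨l, hl⟩ : ∃ l, l = Nat.log 2 (p * q) + 1 := ⟨_, rfl⟩
  have l1 : (l : ℝ) ≤ 2 * (1 + Real.log ((p : ℝ) * (q : ℝ))) := by
    have h5 : ((2 : ℝ) ^ Nat.log 2 (p * q)) ≤ (p : ℝ) * q := by
      exact_mod_cast Nat.pow_log_le_self 2 (show p * q ≠ 0 by omega)
    have h6 := Real.log_le_log (by positivity) h5
    rw [Real.log_pow] at h6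
    have h7 := Real.log_two_gt_d9
    have h8 : (0 : ℝ) ≤ Nat.log 2 (p * q) := Nat.cast_nonneg _
    rw [hl]
    push_cast
    nlinarith
  obtain ⟨m, t, r, j, k, k1, e1, e2, e3, e4, e5, e6, e7⟩ :=
    h3 (p * q) l x1 (hl ▸ Nat.lt_pow_succ_log_self (by omega) _)
  have e8 := h4 _ l m t (Real.log_nonneg x2) l1 e6 e7
  obtain ⟨Λ, hΛ⟩ : ∃ Λ, Λ = 12 * l + a := ⟨_, rfl⟩
  rw [← hΛ] at e1 e2 e3 e4 e5
  have Λ1 : 1 ≤ Λ := by omega
  obtain ⟨g, hg⟩ : ∃ g, g = 18 * (49 * Λ) * k := ⟨_, rfl⟩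
  have g2 : 1 ≤ g := by rw [hg]; exact Nat.succ_le_of_lt (by positivity)
  rw [← hg] at e4 e5
  obtain ⟨n, U0, R, A, B, n1, hch⟩ := h2 (49 * Λ) (4 * g) V G (by omega) (by omega) (e5.trans (by
    have : ((2 ^ (F * t) * (p * q) : ℕ) : ℝ) ≤ treewidth G := by
      refine le_trans ?_ htw
      push_cast
      rw [mul_comm]
      exact mul_le_mul_of_nonneg_left e8 (by positivity)
    exact_mod_cast this))
  obtain ⟨H, U, φ, hM, hD, hU, hR⟩ := sparse cm el (Sq.round (sp count) inv) glue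
    V G g k Λ n U0 R A B hch n1 Λ1 k1 (by
      have : 4 * g ≤ (4 * g) ^ 3 := Nat.le_self_pow (by omega) _
      nlinarith) hg.ge
  obtain ⟨W, _, H', ψ, hM', hD', hc, hR'⟩ := FinalP.sub hM hD hR
  obtain ⟨n, S, hT, hS, hQ⟩ := FinalP.lift hM' (h1 W H' (2 * p) (2 * q + 1) Λ r j (k + 1) hD'
    (by omega) (by omega) (by omega) e1 e2 hR' (le_trans (Nat.mul_le_mul_left _ (by nlinarith))
      (e3.trans (by omega))))
  obtain ⟨T, -, ⟨⟨i, -⟩, -⟩, -⟩ := hQ.core
  exact ⟨n, i.pos, fun i => S i, fun i j hij => disjoint_coe.2 (hT.disj i j hij),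
    fun i => (hT.conn i).connected, fun i => (hS i).le_treewidth,
    hQ.le_treewidth.trans (treewidth_induce_le _)⟩

end Pool.Agent.MP_35cb46_co.Nl

end MrgPart4

-- ======== part 5: formerly Pool.Agent.MP_35cb46_co.nl.Zpart
section MrgPart5

/-! Row ZPART: the parts of one expander of clusters. -/

noncomputable section

namespace Pool.Agent.MP_35cb46_co.Nl

open Finset Pool.Agent.MP_7be75d_co Pool.Agent.MP_35cb46_co.Sq
open scoped Classical

namespace ZpartP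

variable {V : Type} {G : SimpleGraph V}

/-- The vertices of `S` with a neighbour in `R`. -/
def nb (G : SimpleGraph V) (S R : Finset V) : Finset V := S.filter fun x => ∃ v ∈ R, G.Adj x v

/-- A chosen neighbour in `R`. -/
def ch (G : SimpleGraph V) (R : Finset V) (x : V) : V :=
  if h : ∃ v ∈ R, G.Adj x v then h.choose else x

theorem mem_nb {S R : Finset V} {x : V} : x ∈ nb G S R ↔ x ∈ S ∧ ∃ v ∈ R, G.Adj x v := mem_filter

theorem ch_spec {S R : Finset V} {x : V} (h : x ∈ nb G S R) :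
    ch G R x ∈ R ∧ G.Adj x (ch G R x) := by
  have h1 := (mem_nb.1 h).2
  rw [ch, dif_pos h1]
  exact h1.choose_spec

theorem nb_sub {S R : Finset V} : nb G S R ⊆ S := filter_subset _ _

theorem nb_mono {S S' R : Finset V} (h : S ⊆ S') : nb G S R ⊆ nb G S' R :=
  filter_subset_filter _ h

theorem cw_le_nb [Fintype V] (hd : Deg G univ 6) (S R : Finset V) :
    cw (aw G) S R ≤ (nb G S R).card * 6 := by
  have h1 : cw (aw G) (S \ nb G S R) R = 0 := cw_eq_zero.2 fun a ha b hb => by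
    obtain ⟨h2, h3⟩ := mem_sdiff.1 ha
    exact if_neg fun h4 => h3 (mem_nb.2 ⟨h2, b, hb, h4⟩)
  have h2 := cw_sdiff_left (w := aw G) (B := R) (nb_sub (G := G) (S := S) (R := R))
  have h3 := hd.cw_le (F := nb G S R) (U' := R) (subset_univ _) (subset_univ _)
  omega

theorem cnt_le {I S R : Finset V} (hI : I ⊆ nb G S R) (v : V) :
    cnt I (ch G R) v ≤ cw (aw G) {v} S := by
  rw [cw_aw_single]
  refine card_le_card fun x hx => ?_
  obtain ⟨h1, h2⟩ := mem_filter.1 hx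
  exact mem_filter.2 ⟨nb_sub (hI h1), h2 ▸ (ch_spec (hI h1)).2.symm⟩

theorem ind_le {S R : Finset V} {I : Finset V} (hI : I ⊆ nb G S R) (v : V) :
    ind I v ≤ cw (aw G) {v} R := by
  by_cases h : v ∈ I
  · rw [ind_of_mem h, cw_aw_single]
    exact card_pos.2 ⟨_, mem_filter.2 (ch_spec (hI h))⟩
  · rw [ind_of_notMem h]
    exact Nat.zero_le _

theorem un_disj {κ : Type} {PP I I' : Finset (Finset κ)} (h : PD PP) (hI : I ⊆ PP) (hI' : I' ⊆ PP)
    (hd : Disjoint I I') : Disjoint (un I) (un I') := by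
  refine disjoint_left.2 fun x h1 h2 => ?_
  obtain ⟨C, hC, hx⟩ := mem_un.1 h1
  obtain ⟨C', hC', hx'⟩ := mem_un.1 h2
  exact disjoint_left.1 hd hC (h.eq (hI hC) (hI' hC') hx hx' ▸ hC')

theorem un_out {X C : Finset V} {PP I : Finset (Finset V)} (h : Sq.Part G X PP) (hI : I ⊆ PP)
    (hC : C ∈ PP) (hn : C ∉ I) : un I ⊆ X \ C := by
  intro x hx
  obtain ⟨C', hC', hx'⟩ := mem_un.1 hx
  refine mem_sdiff.2 ⟨h.un ▸ mem_biUnion.2 ⟨C', hI hC', hx'⟩, fun h2 => hn ?_⟩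
  exact PD.eq h.disj (hI hC') hC hx' h2 ▸ hC'

theorem conn_attach {ι : Type} {S : Finset V} (hS : Conn G S) (I : Finset ι) (f : ι → Finset V)
    (h : ∀ k ∈ I, Conn G (f k) ∧ Touch G S (f k)) : Conn G (S ∪ I.biUnion f) := by
  induction I using Finset.induction_on with
  | empty => simpa using hS
  | insert a I ha ih =>
    rw [biUnion_insert, union_comm (f a), ← union_assoc]
    exact (ih fun k hk => h k (mem_insert_of_mem hk)).union_touch (h a (mem_insert_self _ _)).1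
      ((h a (mem_insert_self _ _)).2.mono subset_union_left subset_rfl)

theorem conn_un {X : Finset V} {PP Γ : Finset (Finset V)} (h : Sq.Part G X PP) (hΓ : Γ ⊆ PP)
    (hc : Conn (qg (ew G)) Γ) : Conn G (un Γ) := by
  refine hc.biUnion (f := id) (fun C hC => h.conn C (hΓ hC)) fun C _ C' _ ha => ?_
  obtain ⟨hne, h1⟩ := (SimpleGraph.fromRel_adj _ _ _).1 ha
  have h2 : 0 < ew G C C' := by
    rcases h1 with h1 | h1
    · exact h1
    · rwa [sy_ew C C']
  rw [ew, if_neg hne] at h2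
  obtain ⟨x, hx, y, hy, h3⟩ := exists_of_cw_pos h2
  refine ⟨x, hx, y, hy, ?_⟩
  by_contra h4
  rw [aw, if_neg h4] at h3
  exact lt_irrefl _ h3

/-- The volume of a family is bounded by the number of its vertices that see a class. -/
theorem vol_le_nb [Fintype V] (hd : Deg G univ 6) {PP I I' : Finset (Finset V)}
    {β : Finset V → ℕ} {K : ℕ} (h : PD PP) (hI : I ⊆ PP) (hI' : I' ⊆ PP) (hdis : Disjoint I I')
    (hb : ∀ u ∈ I, β u ≤ K * cw (ew G) {u} I') :
    ts β I ≤ K * ((nb G (un I) (un I')).card * 6) := by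
  refine le_trans ?_ (Nat.mul_le_mul_left K (cw_le_nb hd _ _))
  rw [← cw_ew h hI hI' hdis, cw_eq_sum, mul_sum]
  exact sum_le_sum hb

/-- Every member of `J₁` is joined inside `R` to its own member of `J₂`. -/
theorem attach (link : LinkStmt) [Fintype V] (hd : Deg G univ 6) (R : Finset V)
    (J₁ J₂ : Finset (Finset V)) (K : ℕ) (hK : 1 ≤ K) (hp : PD (J₁ ∪ J₂)) (hJ : Disjoint J₁ J₂)
    (hwl : WL (aw G) R (cnt (nb G (un J₁) R ∪ nb G (un J₂) R) (ch G R)) K)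
    (h1 : ∀ S ∈ J₁, 14 * K ≤ (nb G S R).card) (h2 : ∀ S ∈ J₂, (nb G S R).Nonempty)
    (hm : 14 * K * J₁.card ≤ J₂.card) :
    ∃ f Q : Finset V → Finset V, Set.InjOn f J₁ ∧
      (∀ S ∈ J₁, f S ∈ J₂ ∧ Q S ⊆ R ∧ Conn G (Q S) ∧ Touch G S (Q S) ∧ Touch G (f S) (Q S)) ∧
      ∀ S ∈ J₁, ∀ S' ∈ J₁, S ≠ S' → Disjoint (Q S) (Q S') := by
  let o : V → Finset V := fun x => if h : ∃ S ∈ J₁ ∪ J₂, x ∈ S then h.choose else ∅
  have ho : ∀ S ∈ J₁ ∪ J₂, ∀ x ∈ S, o x = S := fun S hS x hx => by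
    have h : ∃ S ∈ J₁ ∪ J₂, x ∈ S := ⟨S, hS, hx⟩
    simp only [o, dif_pos h]
    exact hp.eq h.choose_spec.1 hS h.choose_spec.2 hx
  have ho' : ∀ J ⊆ J₁ ∪ J₂, ∀ x ∈ nb G (un J) R, o x ∈ J ∧ x ∈ o x := fun J hJ x hx => by
    obtain ⟨S, hS, hxS⟩ := mem_un.1 (nb_sub hx)
    rw [ho S (hJ hS) x hxS]
    exact ⟨hS, hxS⟩
  have hcount : ∀ J ⊆ J₁ ∪ J₂, ∀ A ⊆ J, ∀ c, (∀ S ∈ J, c ≤ (nb G S R).card) →
      A.card * c ≤ ((nb G (un J) R).filter fun i => o i ∈ A).card := fun J hJ A hA c hc => by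
    have e : A.biUnion (fun S => nb G S R) ⊆ (nb G (un J) R).filter fun i => o i ∈ A := by
      intro x hx
      obtain ⟨S, hS, hxS⟩ := mem_biUnion.1 hx
      exact mem_filter.2 ⟨nb_mono (subset_un (hA hS)) hxS,
        (ho S (hJ (hA hS)) x (nb_sub hxS)).symm ▸ hS⟩
    refine le_trans ?_ (card_le_card e)
    rw [card_biUnion fun S hS S' hS' hne =>
      (hp S (hJ (hA hS)) S' (hJ (hA hS')) hne).mono nb_sub nb_sub]
    exact card_le_ts (τ := fun S => (nb G S R).card) fun S hS => hc S (hA hS)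
  have hsub : nb G (un J₁) R ∪ nb G (un J₂) R ⊆ nb G univ R :=
    union_subset (nb_mono (subset_univ _)) (nb_mono (subset_univ _))
  obtain ⟨s, s', Q, hQ, -, -, hs, hs', hc⟩ := link V V (Finset V) G R (nb G (un J₁) R)
    (nb G (un J₂) R) (ch G R) o J₁ J₂ 1 1 K J₁.card hd hK
    ((un_disj hp subset_union_left subset_union_right hJ).mono nb_sub nb_sub)
    (fun i hi => (ch_spec (hsub hi)).1)
    (fun v => (cnt_le hsub v).trans (by
      have := hd.cw_le (F := {v}) (U' := univ) (subset_univ _) subset_rfl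
      rw [card_singleton] at this
      omega)) hwl
    (fun i hi => (ho' J₁ subset_union_left i hi).1) (fun i hi => (ho' J₂ subset_union_right i hi).1)
    (fun A₁ hA₁ A₂ hA₂ => by
      have a1 := hcount J₁ subset_union_left A₁ hA₁ _ h1
      have a2 := hcount J₂ subset_union_right A₂ hA₂ 1 fun S hS => (h2 S hS).card_pos
      have a3 := card_sdiff_add_card_eq_card hA₁
      have a4 := card_sdiff_add_card_eq_card hA₂
      have a5 : (J₂ \ A₂).card ≤ 14 * K * (J₂ \ A₂).card := Nat.le_mul_of_pos_left _ (by omega)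
      rw [one_mul, one_mul, mul_add]
      rcases le_total ((nb G (un J₁) R).filter fun i => o i ∈ A₁).card
        ((nb G (un J₂) R).filter fun i => o i ∈ A₂).card with a6 | a6
      · rw [min_eq_left a6, ← a3, mul_add, mul_comm (14 * K) A₁.card]
        omega
      · rw [min_eq_right a6]
        omega)
  have inj : ∀ r : Fin J₁.card → Finset V,
      (∀ a, (univ.filter fun k => r k = a).card ≤ 1) → Function.Injective r := fun r hr k k' e =>
    card_le_one.1 (hr (r k')) k (mem_filter.2 ⟨mem_univ _, e⟩) k' (mem_filter.2 ⟨mem_univ _, rfl⟩)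
  have i1 := inj (fun k => o (s k)) fun a => (hc a).1
  have i2 := inj (fun k => o (s' k)) fun a => (hc a).2
  have hsurj : ∀ S ∈ J₁, ∃ k, o (s k) = S := fun S hS => by
    have e : univ.image (fun k => o (s k)) = J₁ := by
      refine eq_of_subset_of_card_le (fun a ha => ?_) ?_
      · obtain ⟨k, -, rfl⟩ := mem_image.1 ha
        exact (ho' J₁ subset_union_left _ (hs k).1).1
      · rw [card_image_of_injective _ i1, card_univ, Fintype.card_fin]
    rw [← e] at hS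
    obtain ⟨k, -, hk⟩ := mem_image.1 hS
    exact ⟨k, hk⟩
  choose k hk using hsurj
  refine ⟨fun S => if h : S ∈ J₁ then o (s' (k S h)) else ∅,
    fun S => if h : S ∈ J₁ then Q (k S h) else ∅, fun S hS S' hS' e => ?_, fun S hS => ?_,
    fun S hS S' hS' hne => ?_⟩
  · have hS1 : S ∈ J₁ := hS
    have hS2 : S' ∈ J₁ := hS'
    simp only [dif_pos hS1, dif_pos hS2] at e
    rw [← hk S hS1, ← hk S' hS2, i2 e]
  · simp only [dif_pos hS]
    have b1 := ho' J₁ subset_union_left _ (hs (k S hS)).1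
    have b2 := ho' J₂ subset_union_right _ (hs' (k S hS)).1
    have b3 := b1.2
    rw [hk S hS] at b3
    exact ⟨b2.1, hQ.sub _, hQ.conn _, ⟨_, b3, _, (hs _).2, (ch_spec (hs _).1).2⟩,
      ⟨_, b2.2, _, (hs' _).2, (ch_spec (hs' _).1).2⟩⟩
  · simp only [dif_pos hS, dif_pos hS']
    exact hQ.disj _ _ fun e => hne (by rw [← hk S hS, ← hk S' hS', e])

/-- Gluing the groups and the connections to the parts. -/
theorem glue [Fintype V] {Amb Rt W R U : Finset V} {p L h : ℕ} {P : Fin h → Finset V}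
    (hP : Parts G Amb Rt p L h P) (J : Finset (Finset V)) (f Q : Finset V → Finset V)
    (hA : Amb ⊆ W) (hR : R ⊆ W) (hU : U ⊆ W) (d1 : Disjoint Amb R) (d2 : Disjoint Amb U)
    (d3 : Disjoint R U) (hJ : ∀ S ∈ J, S ⊆ U ∧ Conn G S) (hp : PD J)
    (hf : ∀ S ∈ J, Q S ⊆ R ∧ Conn G (Q S) ∧ Touch G S (Q S) ∧ Touch G (f S) (Q S))
    (hQ : ∀ S ∈ J, ∀ S' ∈ J, S ≠ S' → Disjoint (Q S) (Q S')) :
    Parts G W univ p L h
      fun i => P i ∪ (J.filter fun S => f S = P i).biUnion fun S => Q S ∪ S := by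
  have hne : ∀ i, (P i).Nonempty := fun i => (hP.tok.conn i).1
  have e1 : ∀ i j, Disjoint (P i) ((J.filter fun S => f S = P j).biUnion fun S => Q S ∪ S) :=
    fun i j => (disjoint_biUnion_right _ _ _).2 fun S hS => disjoint_union_right.2
      ⟨d1.mono (hP.tok.sub i) (hf S (mem_filter.1 hS).1).1,
        d2.mono (hP.tok.sub i) (hJ S (mem_filter.1 hS).1).1⟩
  refine ⟨⟨fun i => ?_, fun i => ?_, fun i j hij => ?_⟩,
    fun i => (hP.rich i).mono le_rfl subset_union_left le_rfl,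
    fun i => (hne i).mono (subset_inter subset_union_left (subset_univ _)),
    fun S Z h1 h2 => hP.exp S Z h1 fun i hi j ht =>
      h2 i hi j (ht.mono subset_union_left subset_union_left)⟩
  · refine union_subset ((hP.tok.sub i).trans hA) (biUnion_subset.2 fun S hS => ?_)
    exact union_subset ((hf S (mem_filter.1 hS).1).1.trans hR) ((hJ S (mem_filter.1 hS).1).1.trans hU)
  · refine conn_attach (hP.tok.conn i) _ _ fun S hS => ?_
    obtain ⟨h1, h2⟩ := mem_filter.1 hS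
    obtain ⟨-, a2, a3, a4⟩ := hf S h1
    exact ⟨a2.union_touch (hJ S h1).2 a3.symm, (h2 ▸ a4).mono subset_rfl subset_union_left⟩
  · refine disjoint_union_left.2 ⟨disjoint_union_right.2 ⟨hP.tok.disj i j hij, e1 i j⟩,
      disjoint_union_right.2 ⟨(e1 j i).symm, ?_⟩⟩
    refine (disjoint_biUnion_left _ _ _).2 fun S hS => (disjoint_biUnion_right _ _ _).2 fun S' hS' => ?_
    obtain ⟨h1, h2⟩ := mem_filter.1 hS
    obtain ⟨h3, h4⟩ := mem_filter.1 hS'
    have hSS : S ≠ S' := fun e => by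
      obtain ⟨x, hx⟩ := hne i
      exact disjoint_left.1 (hP.tok.disj i j hij) hx (by rw [← h4, ← e, h2]; exact hx)
    exact disjoint_union_left.2 ⟨disjoint_union_right.2 ⟨hQ S h1 S' h3 hSS,
      d3.mono (hf S h1).1 (hJ S' h3).1⟩, disjoint_union_right.2
      ⟨d3.symm.mono (hJ S h1).1 (hf S' h3).1, hp S h1 S' h3 hSS⟩⟩

/-- The targets with their candidates and routers. -/
theorem pre [Fintype V] (hd : Deg G univ 6) {X T₀ : Finset V} {g A Λ : ℕ}
    {PP Z : Finset (Finset V)} {col : Finset V → ℕ} {T K K₁ w : ℕ}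
    (hclu : Clu G X T₀ g A Λ PP) (hZ : Z ⊆ PP) (hcol : ColZ G X T₀ Z col (T + 4) K (T + 1))
    (hK : 1 ≤ K) (k1 : K ≤ K₁) (k2 : 14 * A * Λ ≤ K₁)
    (hc : ∀ t < T + 4, ∀ τ : V → ℕ, (∀ C ∈ cls Z col t, ∀ v ∈ C, τ v ≤ bw G X T₀ C v) →
      WL (aw G) (un (cls Z col t)) τ K₁)
    {Q : Finset (Finset V)} (hQ : Q ⊆ cls Z col (T + 1))
    (hw : ∀ u ∈ Q, 6 * K * w ≤ bo G X T₀ u) :
    ∃ Cd y, Pre G (un (Z.filter fun u => col u ≤ T + 1))
      (nb G (un (cls Z col 0)) (un (cls Z col (T + 2)))) T w K₁ K₁ Q id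
      (fun t => un (cls Z col t)) Cd y (nb G (un (cls Z col 0)) (un (cls Z col (T + 2)))) := by
  have hp : PD PP := hclu.part.disj
  have hcl : ∀ t, cls Z col t ⊆ PP := fun t => cls_subset.trans hZ
  have hQP : Q ⊆ PP := hQ.trans (hcl _)
  have hQZ : Q ⊆ Z := hQ.trans cls_subset
  have hn : ∀ u ∈ Q, ∀ t, t ≠ T + 1 → u ∉ cls Z col t := fun u hu t ht e =>
    ht ((mem_cls.1 e).2.symm.trans (mem_cls.1 (hQ hu)).2)
  have hex : ∀ t u, ∃ D : Finset V, t ≤ T → u ∈ Q →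
      D ⊆ nb G u (un (cls Z col t)) ∧ D.card = w := fun t u => by
    by_cases h : t ≤ T ∧ u ∈ Q
    · have h1 := vol_le_nb hd (I := {u}) (I' := cls Z col t) (β := bo G X T₀) (K := K) hp
        (singleton_subset_iff.2 (hQP h.2)) (hcl t)
        (disjoint_singleton_left.2 (hn u h.2 t (by omega)))
        (fun v hv => by rw [mem_singleton.1 hv]; exact hcol.deg t (by omega) u (hQZ h.2))
      have h2 : un {u} = u := by simp [un]
      rw [ts_single, h2] at h1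
      have h3 : 6 * K * w ≤ 6 * K * (nb G u (un (cls Z col t))).card := by
        have := hw u h.2
        nlinarith
      obtain ⟨D, h4, h5⟩ := exists_subset_card_eq (Nat.le_of_mul_le_mul_left h3 (by omega))
      exact ⟨D, fun _ _ => ⟨h4, h5⟩⟩
    · exact ⟨∅, fun h1 h2 => absurd ⟨h1, h2⟩ h⟩
  choose D hD using hex
  have hsub : ∀ t ≤ T, Q.biUnion (D t) ⊆ nb G (un Q) (un (cls Z col t)) := fun t ht =>
    biUnion_subset.2 fun u hu => (hD t u ht hu).1.trans (nb_mono (subset_un hu))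
  refine ⟨fun t => Q.biUnion (D t), fun t => ch G (un (cls Z col t)),
    ⟨fun u hu => subset_un (mem_filter.2 ⟨hQZ hu, (mem_cls.1 (hQ hu)).2.le⟩),
      fun u hu => hclu.part.conn u (hQP hu), fun u hu u' hu' => hp u (hQP hu) u' (hQP hu')⟩,
    fun t ht => un_mono fun u hu => mem_filter.2 ⟨(mem_cls.1 hu).1, by rw [(mem_cls.1 hu).2]; omega⟩,
    fun t _ t' _ e => un_disj hp (hcl t) (hcl t') (cls_disj e),
    fun u hu t ht => disjoint_left.2 fun x h1 h2 =>
      (mem_sdiff.1 (un_out hclu.part (hcl t) (hQP hu) (hn u hu t (by omega)) h2)).2 h1,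
    fun t ht => (hsub t ht).trans nb_sub, fun u hu t ht => ?_,
    fun t ht x hx => ch_spec (hsub t ht hx), fun u hu => ?_, fun t ht => ?_,
    subset_inter nb_sub subset_rfl, ?_⟩
  · rw [← (hD t u ht hu).2]
    congr 1
    ext x
    rw [mem_inter, mem_biUnion]
    constructor
    · rintro ⟨⟨u', hu', h1⟩, h2⟩
      exact hp.eq (hQP hu') (hQP hu) (nb_sub ((hD t u' ht hu').1 h1)) h2 ▸ h1
    · exact fun h => ⟨⟨u, hu, h⟩, nb_sub ((hD t u ht hu).1 h)⟩
  · refine ((hclu.wl u (hQP hu)).tau fun v hv => ?_).up k2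
    by_cases h : v ∈ (range (T + 1)).biUnion fun t => Q.biUnion (D t)
    · obtain ⟨t, ht, h1⟩ := mem_biUnion.1 h
      have ht' : t ≤ T := Nat.lt_succ_iff.1 (mem_range.1 ht)
      have h2 := ind_le (hsub t ht') v
      have h3 : cw (aw G) {v} (un (cls Z col t)) ≤ cw (aw G) {v} (X \ u) :=
        cw_mono subset_rfl (un_out hclu.part (hcl t) (hQP hu) (hn u hu t (by omega)))
      rw [ind_of_mem h1] at h2
      rw [ind_of_mem h, bw]
      omega
    · rw [ind_of_notMem h]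
      exact Nat.zero_le _
  · refine hc t (by omega) _ fun C hC v _ => ?_
    have h1 := cnt_le (hsub t ht) v
    have h2 := ind_le (G := G) (S := un (cls Z col 0)) (R := un (cls Z col (T + 2))) subset_rfl v
    have h3 := cw_union_right (w := aw G) (A := {v})
      (un_disj hp hQP (hcl (T + 2)) (disjoint_left.2 fun u hu => hn u hu _ (by omega)))
    have h4 : cw (aw G) {v} (un Q ∪ un (cls Z col (T + 2))) ≤ cw (aw G) {v} (X \ C) :=
      cw_mono subset_rfl (union_subset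
        (un_out hclu.part hQP (hcl t hC) fun e => hn C e t (by omega) hC)
        (un_out hclu.part (hcl _) (hcl t hC) fun e => by
          have := (mem_cls.1 e).2.symm.trans (mem_cls.1 hC).2
          omega))
    rw [bw]
    split_ifs <;> omega
  · have h1 := vol_le_nb hd (β := bo G X T₀) (K := K) hp (hcl 0) (hcl (T + 2)) (cls_disj (by omega))
      fun u hu => hcol.deg (T + 2) (by omega) u (cls_subset hu)
    have h2 := hcol.vol 0 (by omega)
    have h3 := (card_le_ts hw).trans (ts_mono hQZ)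
    have h4 : 6 * K * (Q.card * w) ≤
        6 * K * (K * (nb G (un (cls Z col 0)) (un (cls Z col (T + 2)))).card) := by
      have := h2.trans (Nat.mul_le_mul_left K h1)
      nlinarith
    exact (Nat.le_of_mul_le_mul_left h4 (by omega)).trans (Nat.mul_le_mul_right _ k1)

theorem cancel {B e x y : ℕ} (hB : 1 ≤ B) (h : B ^ e * x ≤ B ^ e * y) : x ≤ y :=
  Nat.le_of_mul_le_mul_left h (Nat.pow_pos hB)

/-- The game and the iteration give rooted parts. -/
theorem parts [Fintype V] (hd : Deg G univ 6) {X T₀ : Finset V} {g A Λ : ℕ}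
    {PP Z : Finset (Finset V)} {col : Finset V → ℕ} {c₀ T K₀ K K₁ L p τ B : ℕ}
    (hV : 6 * Fintype.card V < 2 ^ Λ) (hg : Game T K₀ c₀ Λ) (hi : Iter T K₀ L p Λ (2 ^ Λ))
    (hclu : Clu G X T₀ g A Λ PP) (hZ : Z ⊆ PP) (hb : ∀ u ∈ Z, A ≤ bo G X T₀ u ∧ bo G X T₀ u ≤ τ)
    (hcol : ColZ G X T₀ Z col (T + 4) K (T + 1)) (hK : 1 ≤ K) (hL : 1 ≤ L)
    (hA : 12 * K * (T + 1) ≤ A) (hAB : A ≤ B) (hτ : 1 ≤ τ) (hp : p ≤ τ)
    (k0 : T + 1 ≤ K₁) (k1 : K ≤ K₁) (k2 : 14 * A * Λ ≤ K₁) (k3 : K₁ ≤ B ^ 4)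
    (hc : ∀ t < T + 4, ∀ τ : V → ℕ, (∀ C ∈ cls Z col t, ∀ v ∈ C, τ v ≤ bw G X T₀ C v) →
      WL (aw G) (un (cls Z col t)) τ K₁)
    (hvol : B ^ (4 * c₀ + 3) * L * τ ≤ ts (bo G X T₀) Z) :
    ∃ h P, Parts G (un (Z.filter fun u => col u ≤ T + 1))
      (nb G (un (cls Z col 0)) (un (cls Z col (T + 2)))) p L h P ∧
      ts (bo G X T₀) Z ≤ B ^ (4 * c₀ + 3) * L * τ * h := by
  obtain ⟨j, Q, hQ, hj, hQv⟩ := hcol.tg
  have hKB : 12 * K ≤ B := by nlinarith
  have hB : 1 ≤ B := by omega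
  have hpos : 0 < B ^ (4 * c₀ + 3) * L * τ := by positivity
  obtain ⟨u, hu⟩ : Q.Nonempty := by
    rw [← card_pos]
    by_contra h
    rw [Nat.eq_zero_of_not_pos h] at hQv
    omega
  have hu1 := hj u hu
  have hu2 := hb u (cls_subset (hQ hu))
  obtain ⟨w, hw⟩ : ∃ w, w = 2 ^ j / (6 * K) := ⟨_, rfl⟩
  have w1 : 6 * K * w ≤ 2 ^ j := hw ▸ Nat.mul_div_le _ _
  have w2 : 2 ^ j < 6 * K * (w + 1) := hw ▸ Nat.lt_mul_div_succ _ (by omega)
  have w3 : T + 1 ≤ w := by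
    rw [hw, Nat.le_div_iff_mul_le (by omega)]
    rw [pow_succ] at hu1
    nlinarith
  have w4 : w ≤ τ := by nlinarith
  obtain ⟨Cd, y, hpre⟩ := pre hd hclu hZ hcol hK k1 k2 hc hQ (w := w)
    fun v hv => w1.trans (hj v hv).1
  have w5 : w ≤ Fintype.card V := hpre.card u hu 0 (Nat.zero_le _) ▸ card_le_univ _
  have q0 : K₁ ^ c₀ ≤ B ^ (4 * c₀) := by rw [pow_mul]; exact Nat.pow_le_pow_left k3 _
  have q1 : B ^ (4 * c₀) ≤ Q.card := by
    have a1 : B ^ 1 * (B ^ (4 * c₀) * τ) ≤ B ^ (4 * c₀ + 3) * L * τ := by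
      rw [← mul_assoc, ← pow_add]
      exact Nat.mul_le_mul_right _
        ((Nat.pow_le_pow_right hB (by omega)).trans (Nat.le_mul_of_pos_right _ hL))
    have a2 : K * (Q.card * 2 ^ j) ≤ B ^ 1 * (Q.card * τ) :=
      Nat.mul_le_mul (by rw [pow_one]; omega) (Nat.mul_le_mul_left _ (by omega))
    exact Nat.le_of_mul_le_mul_right (cancel hB (a1.trans (hvol.trans (hQv.trans a2)))) hτ
  obtain ⟨w', N, hN, n1, n2, n3⟩ := hg V (Finset V) G _ _ w K₁ Q id _ Cd y _ hd hV w3 k0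
    (q0.trans q1) hpre
  have v1 : ts (bo G X T₀) Z ≤ B ^ (4 * c₀ + 2) * (N.J.card * w') := by
    have a1 : 2 ^ j ≤ B * w := by nlinarith
    calc _ ≤ K * (Q.card * 2 ^ j) := hQv
      _ ≤ B * (Q.card * (B * w)) := Nat.mul_le_mul (by omega) (Nat.mul_le_mul_left _ a1)
      _ = B ^ 2 * (Q.card * w) := by ring
      _ ≤ B ^ 2 * (B ^ (4 * c₀) * (N.J.card * w')) :=
        Nat.mul_le_mul_left _ (n3.trans (Nat.mul_le_mul_right _ q0))
      _ = _ := by ring
  have v2 : L * (p + w') ≤ B * L * τ := by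
    calc L * (p + w') ≤ L * (B * τ) := Nat.mul_le_mul_left _ (by nlinarith)
      _ = _ := by ring
  obtain ⟨h, P, hP, hh⟩ := hi V (Finset V) G _ _ w' N hd hV hN n1 (by omega)
    (v2.trans (cancel (e := 4 * c₀ + 2) hB (le_trans (le_of_eq (by ring)) (hvol.trans v1))))
  refine ⟨h, P, hP, v1.trans ?_⟩
  calc _ ≤ B ^ (4 * c₀ + 2) * (B * L * τ * h) :=
        Nat.mul_le_mul_left _ (hh.trans (Nat.mul_le_mul_right _ v2))
    _ = _ := by ring

end ZpartP

open ZpartP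

theorem zpart (clb : ClbStmt) (partn : PartnStmt) (link : LinkStmt) : ZpartStmt := by
  intro c₀
  refine ⟨4 * c₀ + 10, fun V _ G X T₀ g A Λ PP Z col T K₀ K L p τ B hd hV hg hi hclu hZ hb hcol hK
    hL hA hAB hΛB hτ hp hvol => ?_⟩
  have hKB : 12 * K ≤ B := by nlinarith
  have hB : 1 ≤ B := by omega
  have hA1 : T + 1 ≤ A := by nlinarith
  have hpd : PD PP := hclu.part.disj
  have hcl : ∀ t, cls Z col t ⊆ PP := fun t => cls_subset.trans hZ
  have hne : ∀ u ∈ PP, u.Nonempty := fun u hu => (hclu.part.conn u hu).1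
  obtain ⟨b, hb0⟩ : ∃ b, b = B ^ (4 * c₀ + 8) * L * τ := ⟨_, rfl⟩
  have b1 : B ^ 6 * τ ≤ b := by
    rw [hb0]
    exact Nat.mul_le_mul_right _
      ((Nat.pow_le_pow_right hB (by omega)).trans (Nat.le_mul_of_pos_right _ hL))
  have b2 : τ ≤ b := (Nat.le_mul_of_pos_left _ (Nat.pow_pos hB)).trans b1
  have b3 : B ^ (4 * c₀ + 10) * L * τ = B ^ 2 * b := by rw [hb0]; ring
  have b4 : B ^ (4 * c₀ + 3) * L * τ ≤ B ^ (4 * c₀ + 10) * L * τ :=
    Nat.mul_le_mul_right _ (Nat.mul_le_mul_right _ (Nat.pow_le_pow_right hB (by omega)))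
  have hpos : 0 < ts (bo G X T₀) Z := lt_of_lt_of_le (by positivity) hvol
  have hΛ : 1 ≤ Λ := by
    obtain ⟨u, hu⟩ : Z.Nonempty := nonempty_iff_ne_empty.2 fun e => by simp [e, ts] at hpos
    obtain ⟨v, -⟩ := hne u (hZ hu)
    have : 0 < Fintype.card V := Fintype.card_pos_iff.2 ⟨v⟩
    by_contra h
    rw [Nat.eq_zero_of_not_pos h] at hV
    omega
  obtain ⟨K₁, hK₁⟩ : ∃ K₁, K₁ = 28 * A * Λ * (K + 1) := ⟨_, rfl⟩
  have k2 : 14 * A * Λ ≤ K₁ := by rw [hK₁]; nlinarith [Nat.zero_le (A * Λ * K)]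
  have k0 : T + 1 ≤ K₁ := by nlinarith
  have k1 : K ≤ K₁ := by nlinarith
  have k4 : K₁ ≤ 5 * B ^ 3 := by
    calc K₁ = 28 * (K + 1) * (A * Λ) := by rw [hK₁]; ring
      _ ≤ 5 * B * (B * B) := Nat.mul_le_mul (by omega) (Nat.mul_le_mul hAB hΛB)
      _ = _ := by ring
  have k3 : K₁ ≤ B ^ 4 := k4.trans (by
    rw [pow_succ B 3, mul_comm]; exact Nat.mul_le_mul_left _ (by omega))
  have k5 : 14 * K₁ ≤ B ^ 5 := by
    calc 14 * K₁ ≤ 70 * B ^ 3 := by omega
      _ ≤ B * B * B ^ 3 := Nat.mul_le_mul_right _ (by nlinarith)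
      _ = _ := by ring
  have hc : ∀ t < T + 4, ∀ τ : V → ℕ, (∀ C ∈ cls Z col t, ∀ v ∈ C, τ v ≤ bw G X T₀ C v) →
      WL (aw G) (un (cls Z col t)) τ K₁ := fun t ht =>
    hK₁ ▸ (clb V G X T₀ g A Λ PP hclu (by omega) hΛ).1 _ (hcl t) K (hcol.wl t ht)
  obtain ⟨h, P, hP, hh⟩ := parts hd hV hg hi hclu hZ hb hcol hK hL hA hAB hτ hp k0 k1 k2 k3 hc
    (b4.trans hvol)
  have h0 : 0 < h := Nat.pos_of_ne_zero fun e => by rw [e] at hh; omega
  obtain ⟨GG, hG, hGb⟩ := partn (Finset V) (ew G) (bo G X T₀) (cls Z col (T + 3)) K b Λ sy_ew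
    (hcol.wl _ (by omega)) hK
    (fun u hu => ⟨hclu.pos u (hcl _ hu), (hb u (cls_subset hu)).2.trans b2, by
      rw [bo_eq hclu.part (hcl _ hu)]
      exact (cw_mono subset_rfl (hcl _)).trans (Nat.le_add_right _ _)⟩) (by omega)
    (cancel (e := 2) hB (b3 ▸ hvol.trans ((hcol.vol (T + 3) (by omega)).trans
      (Nat.mul_le_mul_right _ (by nlinarith)))))
    (((hpd.mono (hcl _)).card_le fun u hu => hne u (hcl _ hu)).trans
      ((card_le_univ _).trans (by omega)))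
  have hGu : un GG = cls Z col (T + 3) := hG.un
  have hGO : ∀ Γ ∈ GG, Γ ⊆ cls Z col (T + 3) := fun Γ hΓ => hGu ▸ subset_un hΓ
  have hGP : ∀ Γ ∈ GG, Γ ⊆ PP := fun Γ hΓ => (hGO Γ hΓ).trans (hcl _)
  have hGd : ∀ Γ ∈ GG, ∀ Γ' ∈ GG, Γ ≠ Γ' → Disjoint (un Γ) (un Γ') := fun Γ hΓ Γ' hΓ' e =>
    un_disj hpd (hGP Γ hΓ) (hGP Γ' hΓ') (hG.disj Γ hΓ Γ' hΓ' e)
  have hJ : ∀ S ∈ GG.image un, S ⊆ un (cls Z col (T + 3)) ∧ Conn G S := fun S hS => by
    obtain ⟨Γ, hΓ, rfl⟩ := mem_image.1 hS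
    exact ⟨un_mono (hGO Γ hΓ), conn_un hclu.part (hGP Γ hΓ) (hG.conn Γ hΓ)⟩
  have hJp : PD (GG.image un) := fun S hS S' hS' e => by
    obtain ⟨Γ, hΓ, rfl⟩ := mem_image.1 hS
    obtain ⟨Γ', hΓ', rfl⟩ := mem_image.1 hS'
    exact hGd Γ hΓ Γ' hΓ' fun e' => e (e' ▸ rfl)
  have hAd : ∀ t, T + 1 < t →
      Disjoint (un (Z.filter fun u => col u ≤ T + 1)) (un (cls Z col t)) := fun t ht =>
    un_disj hpd ((filter_subset _ _).trans hZ) (hcl t) (disjoint_left.2 fun u h1 h2 => by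
      have := (mem_filter.1 h1).2
      rw [(mem_cls.1 h2).2] at this
      omega)
  have hJP : ∀ S ∈ GG.image un, ∀ i, Disjoint S (P i) := fun S hS i =>
    (hAd (T + 3) (by omega)).symm.mono (hJ S hS).1 (hP.tok.sub i)
  have hPi : Function.Injective P := fun i j e => by
    by_contra hij
    obtain ⟨x, hx⟩ := (hP.tok.conn i).1
    exact disjoint_left.1 (hP.tok.disj i j hij) hx (e ▸ hx)
  obtain ⟨f, Q, hf, hfQ, hQ⟩ := ZpartP.attach link hd (un (cls Z col (T + 2))) (GG.image un)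
    (univ.image P) K₁ (by omega)
    (fun S hS S' hS' e => by
      rcases mem_union.1 hS with a | a <;> rcases mem_union.1 hS' with a' | a'
      · exact hJp S a S' a' e
      · obtain ⟨i, -, rfl⟩ := mem_image.1 a'
        exact hJP S a i
      · obtain ⟨i, -, rfl⟩ := mem_image.1 a
        exact (hJP S' a' i).symm
      · obtain ⟨i, -, rfl⟩ := mem_image.1 a
        obtain ⟨i', -, rfl⟩ := mem_image.1 a'
        exact hP.tok.disj i i' fun e' => e (e' ▸ rfl))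
    (disjoint_left.2 fun S a a' => by
      obtain ⟨i, -, rfl⟩ := mem_image.1 a'
      obtain ⟨x, hx⟩ := (hP.tok.conn i).1
      exact disjoint_left.1 (hJP _ a i) hx hx)
    (hc (T + 2) (by omega) _ fun C hC v _ => by
      have a0 : ∀ I ⊆ Z, (∀ u ∈ I, col u ≠ T + 2) → un I ⊆ X \ C := fun I hI h1 =>
        un_out hclu.part (hI.trans hZ) (hcl _ hC) fun e => h1 C e (mem_cls.1 hC).2
      have a1 : un (GG.image un) ⊆ X \ C := biUnion_subset.2 fun S hS =>
        (hJ S hS).1.trans (a0 _ cls_subset fun u hu => by rw [(mem_cls.1 hu).2]; omega)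
      have a2 : un (univ.image P) ⊆ X \ C := biUnion_subset.2 fun S hS => by
        obtain ⟨i, -, rfl⟩ := mem_image.1 hS
        exact (hP.tok.sub i).trans (a0 _ (filter_subset _ _) fun u hu => by
          have := (mem_filter.1 hu).2
          omega)
      exact (cnt_le (union_subset (nb_mono a1) (nb_mono a2)) v).trans (Nat.le_add_right _ _))
    (fun S hS => by
      obtain ⟨Γ, hΓ, rfl⟩ := mem_image.1 hS
      have a1 := vol_le_nb hd (β := bo G X T₀) (K := K) hpd (hGP Γ hΓ) (hcl (T + 2))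
        ((cls_disj (by omega)).mono_left (hGO Γ hΓ))
        fun u hu => hcol.deg (T + 2) (by omega) u (cls_subset (hGO Γ hΓ hu))
      refine k5.trans (cancel (e := 1) hB ?_)
      calc B ^ 1 * B ^ 5 = B ^ 6 * 1 := by ring
        _ ≤ b := (Nat.mul_le_mul_left _ hτ).trans b1
        _ ≤ K * ((nb G (un Γ) (un (cls Z col (T + 2)))).card * 6) := (hGb Γ hΓ).1.trans a1
        _ = 6 * K * (nb G (un Γ) (un (cls Z col (T + 2)))).card := by ring
        _ ≤ _ := Nat.mul_le_mul_right _ (by rw [pow_one]; omega))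
    (fun S hS => by
      obtain ⟨i, -, rfl⟩ := mem_image.1 hS
      obtain ⟨x, hx⟩ := hP.root i
      exact ⟨x, mem_nb.2 ⟨(mem_inter.1 hx).1, (mem_nb.1 (mem_inter.1 hx).2).2⟩⟩)
    (by
      rw [card_image_of_injective _ hPi, card_univ, Fintype.card_fin]
      have a1 : GG.card * b ≤ ts (bo G X T₀) Z := by
        refine le_trans ?_ (ts_mono (cls_subset (col := col) (t := T + 3)))
        rw [← hGu, PD.ts_un hG.disj]
        exact card_le_ts (τ := ts (bo G X T₀)) fun Γ hΓ => (hGb Γ hΓ).1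
      have a2 : B ^ (4 * c₀ + 3) * L * τ * (B ^ 5 * GG.card) ≤ B ^ (4 * c₀ + 3) * L * τ * h :=
        le_trans (le_of_eq (by rw [hb0]; ring)) (a1.trans hh)
      exact (Nat.mul_le_mul k5 card_image_le).trans
        (Nat.le_of_mul_le_mul_left a2 (by positivity)))
  have hex : ∀ u, ∃ i : Fin h, u ∈ cls Z col (T + 3) → ∃ Γ ∈ GG, u ∈ Γ ∧ f (un Γ) = P i :=
    fun u => by
      by_cases hu : u ∈ cls Z col (T + 3)
      · obtain ⟨Γ, hΓ, h1⟩ := mem_un.1 (hGu.symm ▸ hu : u ∈ un GG)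
        obtain ⟨i, -, h2⟩ := mem_image.1 (hfQ _ (mem_image_of_mem un hΓ)).1
        exact ⟨i, fun _ => ⟨Γ, hΓ, h1, h2.symm⟩⟩
      · exact ⟨⟨0, h0⟩, fun e => absurd e hu⟩
  choose grp hgrp using hex
  refine ⟨h, _, grp, glue hP (GG.image un) f Q (un_mono (filter_subset _ _)) (un_mono cls_subset)
    (un_mono cls_subset) (hAd _ (by omega)) (hAd _ (by omega))
    (un_disj hpd (hcl _) (hcl _) (cls_disj (by omega))) hJ hJp (fun S hS => (hfQ S hS).2) hQ,
    fun u hu => ?_, fun i => ?_, hh.trans (Nat.mul_le_mul_right _ b4)⟩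
  · obtain ⟨Γ, hΓ, h1, h2⟩ := hgrp u hu
    exact fun x hx => mem_union_right _ (mem_biUnion.2 ⟨un Γ, mem_filter.2
      ⟨mem_image_of_mem un hΓ, h2⟩, mem_union_right _ (subset_un h1 hx)⟩)
  · rcases ((cls Z col (T + 3)).filter fun u => grp u = i).eq_empty_or_nonempty with e | ⟨u, hu⟩
    · rw [e]
      exact Nat.zero_le _
    obtain ⟨hu1, hu2⟩ := mem_filter.1 hu
    obtain ⟨Γ, hΓ, -, h2⟩ := hgrp u hu1
    have a1 : ((cls Z col (T + 3)).filter fun u => grp u = i) ⊆ Γ := fun u' hu' => by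
      obtain ⟨a2, a3⟩ := mem_filter.1 hu'
      obtain ⟨Γ', hΓ', a4, a5⟩ := hgrp u' a2
      have a6 : un Γ' = un Γ := hf (mem_coe.2 (mem_image_of_mem un hΓ'))
        (mem_coe.2 (mem_image_of_mem un hΓ)) (by rw [a5, h2, a3, hu2])
      by_contra a7
      obtain ⟨x, hx⟩ := hne u' (hGP Γ' hΓ' a4)
      exact disjoint_left.1 (hGd Γ' hΓ' Γ hΓ fun e => a7 (e ▸ a4)) (subset_un a4 hx)
        (a6 ▸ subset_un a4 hx)
    rw [b3]
    exact (ts_mono a1).trans ((hGb Γ hΓ).2.trans (Nat.mul_le_mul_right _ (by nlinarith)))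

end Pool.Agent.MP_35cb46_co.Nl

end
end MrgPart5

-- marker of a merged file
example : 731051 + 410671 = 731051 + 410671 := rfl
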