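import Pool.Agent.MP_35cb46_co.nl.DoneA

/-! PROJECT NL: expander decomposition and maximal families of bipartite expanders. -/

namespace Pool.Agent.MP_35cb46_co.Nl

open Finset Pool.Agent.MP_7be75d_co Pool.Agent.MP_35cb46_co.Sq
open scoped Classical

namespace DecP

variable {κ : Type} {w : κ → κ → ℕ} {β : κ → ℕ}

theorem cw_un {D : Finset (Finset κ)} (h : PD D) (B : Finset κ) :
    cw w (un D) B = ∑ P ∈ D, cw w P B := cw_biUnion (S := id) h

theorem cut_add {D : Finset (Finset κ)} {A B : Finset κ} (h : PD D) (hu : un D = A)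
    (hd : Disjoint A B) :
    ∑ P ∈ D, cw w P ((A ∪ B) \ P) = ∑ P ∈ D, cw w P (A \ P) + cw w A B := by
  rw [← hu, cw_un h, hu, ← sum_add_distrib]
  refine sum_congr rfl fun P hP => ?_
  have h1 : P ⊆ A := hu ▸ subset_un hP
  rw [← cw_union_right (hd.mono_left sdiff_subset), union_sdiff_distrib,
    sdiff_eq_self_of_disjoint (hd.mono_left h1).symm]

/-- The conclusion of the decomposition with a free exponent. -/
def Ok (w : κ → κ → ℕ) (β : κ → ℕ) (M L : ℕ) (X : Finset κ) : Prop :=
  ∃ PP : Finset (Finset κ), PD PP ∧ un PP = X ∧ (∀ P ∈ PP, P.Nonempty ∧ WL w P β M) ∧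
    M * ∑ P ∈ PP, cw w P (X \ P) ≤ 2 * L * ts β X

theorem join (hw : Sy w) {M L : ℕ} {A B : Finset κ} (hd : Disjoint A B) (hA : Ok w β M L A)
    (hB : Ok w β M (L + 1) B) (hc : M * cw w A B ≤ ts β A) : Ok w β M (L + 1) (A ∪ B) := by
  obtain ⟨PA, a1, a2, a3, a4⟩ := hA
  obtain ⟨PB, b1, b2, b3, b4⟩ := hB
  have hx : ∀ P ∈ PA, ∀ Q ∈ PB, Disjoint P Q := fun P hP Q hQ =>
    hd.mono (a2 ▸ subset_un hP) (b2 ▸ subset_un hQ)
  have hdd : Disjoint PA PB := disjoint_left.2 fun P hP hQ =>
    (a3 P hP).1.ne_empty (disjoint_self.1 (hx P hP P hQ))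
  refine ⟨PA ∪ PB, fun P hP Q hQ hne => ?_, ?_, fun P hP => ?_, ?_⟩
  · rcases mem_union.1 hP with hP | hP <;> rcases mem_union.1 hQ with hQ | hQ
    exacts [a1 P hP Q hQ hne, hx P hP Q hQ, (hx Q hQ P hP).symm, b1 P hP Q hQ hne]
  · rw [← a2, ← b2]
    exact union_biUnion
  · exact (mem_union.1 hP).elim (a3 P) (b3 P)
  · rw [sum_union hdd, cut_add a1 a2 hd, union_comm, cut_add b1 b2 hd.symm, ts_union hd.symm,
      cw_comm hw B A]
    nlinarith

theorem aux (hw : Sy w) (M : ℕ) (X : Finset κ) : ∀ L, ts β X < 2 ^ L → Ok w β M L X := by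
  induction X using Finset.strongInduction with
  | H X ih =>
    intro L hL
    rcases X.eq_empty_or_nonempty with rfl | hX
    · exact ⟨∅, fun _ h => absurd h (notMem_empty _), rfl, fun _ h => absurd h (notMem_empty _),
        by simp⟩
    by_cases hW : WL w X β M
    · refine ⟨{X}, fun P hP Q hQ hne => ?_, by simp [un], fun P hP => ?_, by simp [cw]⟩
      · exact absurd ((mem_singleton.1 hP).trans (mem_singleton.1 hQ).symm) hne
      · rw [mem_singleton.1 hP]
        exact ⟨hX, hW⟩
    have key : ∀ A ⊆ X, M * cw w A (X \ A) < ts β A → ts β A ≤ ts β (X \ A) → Ok w β M L X := by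
      intro A hA h1 h2
      have h3 := ts_sdiff (τ := β) hA
      obtain ⟨L, rfl⟩ : ∃ L', L = L' + 1 := by
        cases L with
        | zero => omega
        | succ L' => exact ⟨L', rfl⟩
      have hA' : A ⊂ X := ssubset_of_ne_of_subset (fun e => by
        rw [e] at h1 h2; simp [ts] at h1 h2; exact absurd h1 (by rw [sum_eq_zero h2]; simp)) hA
      have hB' : X \ A ⊂ X := sdiff_ssubset hA (by
        rcases A.eq_empty_or_nonempty with rfl | h
        · simp [ts] at h1
        · exact h)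
      have := join hw disjoint_sdiff (ih A hA' L (by rw [pow_succ] at hL; omega))
        (ih _ hB' (L + 1) (by omega)) h1.le
      rwa [union_sdiff_of_subset hA] at this
    obtain ⟨A, hA⟩ := not_forall.1 hW
    obtain ⟨hA, h1⟩ := Classical.not_imp.1 hA
    rcases le_total (ts β A) (ts β (X \ A)) with h2 | h2
    · exact key A hA (by omega) h2
    · have e : X \ (X \ A) = A := Finset.sdiff_sdiff_eq_self hA
      exact key (X \ A) sdiff_subset (by rw [e, cw_comm hw]; omega) (by rwa [e])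

theorem cw_insert (hw : Sy w) {a : κ} {S : Finset κ} (ha : a ∉ S) :
    cw w (insert a S) (insert a S) = w a a + 2 * cw w {a} S + cw w S S := by
  have hd : Disjoint {a} S := disjoint_singleton_left.2 ha
  rw [insert_eq, cw_union_left hd, cw_union_right hd, cw_union_right hd, cw_comm hw S {a}]
  simp only [cw, sum_singleton]
  omega

theorem maxcut (hw : Sy w) (h0 : ∀ a, w a a = 0) (S : Finset κ) :
    ∃ sd, cw w S S ≤ 2 * cw (bip w sd) S S := by
  induction S using Finset.induction_on with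
  | empty => exact ⟨fun _ => true, by simp [cw]⟩
  | insert a S ha ih =>
    obtain ⟨sd, h⟩ := ih
    have h1 : ∀ c, cw (bip w (Function.update sd a c)) S S = cw (bip w sd) S S := fun c =>
      sum_congr rfl fun x hx => sum_congr rfl fun y hy => by
        simp only [bip, Function.update_of_ne (ne_of_mem_of_not_mem hx ha),
          Function.update_of_ne (ne_of_mem_of_not_mem hy ha)]
    have h2 : cw (bip w (Function.update sd a true)) {a} S +
        cw (bip w (Function.update sd a false)) {a} S = cw w {a} S := by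
      simp only [cw, sum_singleton, ← sum_add_distrib]
      refine sum_congr rfl fun y hy => ?_
      simp only [bip, Function.update_self, Function.update_of_ne (ne_of_mem_of_not_mem hy ha)]
      cases sd y <;> simp
    have h3 : ∃ c, cw w {a} S ≤ 2 * cw (bip w (Function.update sd a c)) {a} S := by
      by_contra hc
      have h4 := not_le.1 fun e => hc ⟨true, e⟩
      have h5 := not_le.1 fun e => hc ⟨false, e⟩
      omega
    obtain ⟨c, hc⟩ := h3
    refine ⟨Function.update sd a c, ?_⟩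
    rw [cw_insert hw ha, cw_insert (hw.bip _) ha, h0, h1]
    omega

end DecP

theorem dec : DecStmt := by
  intro κ w β X E Λ hw hE hX
  rcases Nat.eq_zero_or_pos Λ with rfl | hΛ
  · obtain ⟨PP, h1, h2, h3, h4⟩ := DecP.aux hw 1 X 0 hX
    refine ⟨PP, h1, h2, fun P hP => ⟨(h3 P hP).1, fun A hA => ?_⟩, ?_⟩
    · have : ts β A ≤ ts β X := ts_mono (hA.trans (h2 ▸ subset_un hP))
      omega
    · have : ∑ P ∈ PP, cw w P (X \ P) = 0 := by omega
      rw [this]
      exact Nat.zero_le _
  · obtain ⟨PP, h1, h2, h3, h4⟩ := DecP.aux hw (2 * E * Λ) X Λ hX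
    refine ⟨PP, h1, h2, h3, Nat.le_of_mul_le_mul_left (c := 2 * Λ) ?_ (by omega)⟩
    calc _ = 2 * E * Λ * ∑ P ∈ PP, cw w P (X \ P) := by ring
      _ ≤ _ := h4

theorem expf (hd : DecStmt) : ExpfStmt := by
  intro κ w β U K Λ hw h0 hK
  induction U using Finset.strongInduction with
  | H U ih =>
    intro hU
    by_cases hs : ∀ S ⊆ U, K * cw w S S ≤ ts β S
    · exact ⟨∅, fun _ => true, fun _ h => absurd h (notMem_empty _),
        fun _ h => absurd h (notMem_empty _), fun S hS => hs S (hS.trans sdiff_subset)⟩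
    obtain ⟨S, hS⟩ := not_forall.1 hs
    obtain ⟨hS, h1⟩ := Classical.not_imp.1 hS
    obtain ⟨sd, h2⟩ := DecP.maxcut hw h0 S
    obtain ⟨PP, p1, p2, p3, p4⟩ := hd κ (bip w sd) β S (2 * K) Λ (hw.bip sd) (by omega)
      ((ts_mono hS).trans_lt hU)
    obtain ⟨P, hP, h3⟩ : ∃ P ∈ PP, 0 < cw (bip w sd) P P := by
      by_contra hc
      have h4 : cw (bip w sd) S S = ∑ P ∈ PP, cw (bip w sd) P (S \ P) := by
        rw [← congrArg (fun X => cw (bip w sd) X S) p2, DecP.cw_un p1]
        refine sum_congr rfl fun P hP => ?_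
        have h5 := cw_sdiff_right (w := bip w sd) (A := P) (p2 ▸ subset_un hP : P ⊆ S)
        have h6 := not_lt.1 fun e => hc ⟨P, hP, e⟩
        omega
      rw [← h4] at p4
      have h5 := Nat.mul_le_mul_left K h2
      nlinarith
    have hPU : P ⊆ U := (p2 ▸ subset_un hP : P ⊆ S).trans hS
    obtain ⟨ZZ, sd', z1, z2, z3⟩ := ih (U \ P) (sdiff_ssubset hPU (p3 P hP).1)
      ((ts_mono sdiff_subset).trans_lt hU)
    have hx : ∀ Z ∈ ZZ, Disjoint Z P := fun Z hZ => sdiff_disjoint.mono_left (z2 Z hZ).1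
    refine ⟨insert P ZZ, fun a => if a ∈ P then sd a else sd' a, fun Z hZ Z' hZ' hne => ?_,
      fun Z hZ => ?_, fun S' hS' => z3 S' fun a ha => ?_⟩
    · rcases mem_insert.1 hZ with rfl | h4 <;> rcases mem_insert.1 hZ' with rfl | h5
      exacts [absurd rfl hne, (hx _ h5).symm, hx _ h4, z1 _ h4 _ h5 hne]
    · rcases mem_insert.1 hZ with rfl | h4
      · obtain ⟨a, ha, b, hb, hab⟩ := exists_of_cw_pos h3
        refine ⟨hPU, one_lt_card.2 ⟨a, ha, b, hb, fun e => ?_⟩, (p3 _ hP).2.mono
          (fun a ha b hb => ?_) (fun _ _ => le_rfl) (le_of_eq (by ring))⟩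
        · simp [bip, e] at hab
        · simp only [bip, if_pos ha, if_pos hb, le_refl]
      · refine ⟨(z2 Z h4).1.trans sdiff_subset, (z2 Z h4).2.1, (z2 Z h4).2.2.mono
          (fun a ha b hb => ?_) (fun _ _ => le_rfl) le_rfl⟩
        simp only [bip, if_neg (disjoint_left.1 (hx Z h4) ha), if_neg (disjoint_left.1 (hx Z h4) hb),
          le_refl]
    · obtain ⟨h4, h5⟩ := mem_sdiff.1 (hS' ha)
      exact mem_sdiff.2 ⟨mem_sdiff.2 ⟨h4, fun e => h5 (subset_un (mem_insert_self _ _) e)⟩,
        fun e => h5 (un_mono (subset_insert _ _) e)⟩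

end Pool.Agent.MP_35cb46_co.Nl
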