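import Pool.Agent.MP_35cb46_co.nl.DoneA

/-! Row DONE: a net with few thin bundles gives thick parts. -/

noncomputable section

namespace Pool.Agent.MP_35cb46_co.Nl

open Finset Pool.Agent.MP_7be75d_co Pool.Agent.MP_35cb46_co.Sq
open scoped Classical

namespace DoneP

variable {V κ ι : Type} {G : SimpleGraph V} {Amb Rt : Finset V}

theorem parts_of {p K : ℕ} (I : Finset ι) (P : ι → Finset V) (hf : Fam G Amb I P)
    (hr : ∀ i ∈ I, Rich G (P i) (p + 1)) (ho : ∀ i ∈ I, (P i ∩ Rt).Nonempty)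
    (he : ∀ S ⊆ I, ∀ Z : Finset ι, 2 * S.card ≤ I.card →
      (∀ i ∈ S, ∀ j ∈ I, Touch G (P i) (P j) → j ∈ S ∪ Z) → S.card ≤ K * Z.card) :
    ∃ P' : Fin I.card → Finset V, Parts G Amb Rt p K I.card P' := by
  obtain ⟨f, hf'⟩ : ∃ f : Fin I.card → ι, f = fun k => (I.equivFin.symm k).1 := ⟨_, rfl⟩
  have p1 : ∀ k, f k ∈ I := fun k => by rw [hf']; exact (I.equivFin.symm k).2
  have p2 : ∀ i ∈ I, ∃ k, f k = i := fun i hi => ⟨I.equivFin ⟨i, hi⟩, by simp [hf']⟩
  have p3 : Function.Injective f := fun k k' e => by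
    rw [hf'] at e
    exact I.equivFin.symm.injective (Subtype.ext e)
  refine ⟨fun k => P (f k), ⟨fun k => hf.sub _ (p1 k), fun k => hf.conn _ (p1 k),
    fun k k' e => hf.disj _ (p1 k) _ (p1 k') fun e' => e (p3 e')⟩, fun k => hr _ (p1 k),
    fun k => ho _ (p1 k), fun S Z h1 h2 => ?_⟩
  have := he (S.image f) (fun i hi => by
    obtain ⟨k, -, rfl⟩ := mem_image.1 hi
    exact p1 k) (Z.image f) (by rwa [card_image_of_injective _ p3]) (fun i hi j hj ht => by
    obtain ⟨k, hk, rfl⟩ := mem_image.1 hi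
    obtain ⟨k', rfl⟩ := p2 j hj
    rcases mem_union.1 (h2 k hk k' ht) with c | c
    · exact mem_union_left _ (mem_image_of_mem f c)
    · exact mem_union_right _ (mem_image_of_mem f c))
  rwa [card_image_of_injective _ p3, card_image_of_injective _ p3] at this

theorem adj_of_aw {Γ : SimpleGraph ι} {a b : ι} (h : 0 < aw Γ a b) : Γ.Adj a b := by
  by_contra hc
  simp [aw, hc] at h

variable {T w K Δ d : ℕ} {N : ND V κ} {H : SimpleGraph κ} {X : Finset κ}

/-- One row: the ports are well linked among the atoms of the branch sets. -/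
theorem row_wl (br : BrStmt) {m : κ → κ → ℕ} {Γ : SimpleGraph ι} {C : Finset ι} {π : ι → κ}
    {Bs : ι → Finset κ} (hH : ∀ a b, H.Adj a b → w ≤ Δ * m a b) (hd : 1 ≤ d) (h1 : Deg Γ C d)
    (h2 : WL (aw Γ) C (fun _ => 1) (4 * d)) (h3 : Fam H X C Bs) (h4 : ∀ j ∈ C, π j ∈ Bs j)
    (h5 : ∀ j ∈ C, ∀ j' ∈ C, Γ.Adj j j' → Touch H (Bs j) (Bs j')) :
    WL m (C.biUnion Bs) (fun a => w * ind (C.image π) a) (8 * d ^ 2 * Δ) := by
  intro A hA
  have a1 := br κ ι Γ C H ⊥ X Bs π d (4 * d) h1 h2 hd (by rwa [sup_bot_eq]) h4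
    (by rwa [sup_bot_eq]) A ∅ (fun _ _ _ _ h => h.elim)
  rw [empty_inter, card_empty, zero_add, inter_eq_right.2 hA] at a1
  have a2 : ∀ S : Finset κ, ts (fun a => w * ind (C.image π) a) S ≤
      w * (C.filter fun u => π u ∈ S).card := fun S => by
    have e : ts (fun a => w * ind (C.image π) a) S = w * ts (ind (C.image π)) S := by
      unfold ts
      rw [mul_sum]
    rw [e, ts_ind]
    refine Nat.mul_le_mul_left _ (le_trans (card_le_card fun a ha => ?_) (card_image_le (f := π)))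
    obtain ⟨u, hu, rfl⟩ := mem_image.1 (mem_inter.1 ha).2
    exact mem_image.2 ⟨u, mem_filter.2 ⟨hu, (mem_inter.1 ha).1⟩, rfl⟩
  have a3 : (C.filter fun u => π u ∈ C.biUnion Bs \ A).card ≤ (C.filter fun u => π u ∉ A).card :=
    card_le_card fun u hu =>
      mem_filter.2 ⟨(mem_filter.1 hu).1, (mem_sdiff.1 (mem_filter.1 hu).2).2⟩
  have a4 : w * cw (aw H) A (C.biUnion Bs \ A) ≤ Δ * cw m A (C.biUnion Bs \ A) := by
    unfold cw
    simp only [mul_sum]
    refine sum_le_sum fun a _ => sum_le_sum fun b _ => ?_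
    unfold aw
    split_ifs with h
    · rw [mul_one]
      exact hH a b h
    · exact Nat.zero_le _
  calc _ ≤ min (w * (C.filter fun u => π u ∈ A).card) (w * (C.filter fun u => π u ∉ A).card) :=
        min_le_min (a2 A) ((a2 _).trans (Nat.mul_le_mul_left _ a3))
    _ = w * min (C.filter fun u => π u ∈ A).card (C.filter fun u => π u ∉ A).card :=
        (Nat.mul_min_mul_left _ _ _)
    _ ≤ w * (2 * d * (4 * d) * cw (aw H) A (C.biUnion Bs \ A)) := Nat.mul_le_mul_left _ a1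
    _ = 8 * d ^ 2 * (w * cw (aw H) A (C.biUnion Bs \ A)) := by ring
    _ ≤ 8 * d ^ 2 * (Δ * cw m A (C.biUnion Bs \ A)) := Nat.mul_le_mul_left _ a4
    _ = _ := by ring

/-- The atoms of one row carry a haven. -/
theorem row_rich [Fintype V] (netc : NetcStmt) (haven : HavenStmt) (hG : Deg G univ 6)
    (hN : IsNet G Amb Rt T w K N) {U Po : Finset κ} {K₂ p : ℕ} (hU : U ⊆ N.J) (hP : Po ⊆ U)
    (h : WL N.mu U (fun a => w * ind Po a) K₂)
    (hp : 21 * ((T + 1) * (K₂ + 1)) * (p + 1) ≤ Po.card * w) :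
    Rich G (U.biUnion N.X) (p + 1) := by
  refine haven V G _ (ind (N.Ro ∩ Po.biUnion N.X)) ((T + 1) * (K₂ + 1)) p hG
    (netc V κ G Amb Rt T w K K₂ N U _ hN hU
      (fun v _ => le_trans (ind_mono fun hv => (mem_inter.1 hv).1) (Nat.le_add_right _ _))
      (h.tau fun a ha => ?_))
    (fun v => (ind_le_one _ _).trans (by omega)) (Nat.succ_le_of_lt (by positivity)) (hp.trans ?_)
  · rw [ts_ind]
    by_cases e : a ∈ Po
    · rw [ind_of_mem e, mul_one, ← hN.root a (hU ha)]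
      exact card_le_card fun v hv =>
        mem_inter.2 ⟨(mem_inter.1 (mem_inter.1 hv).2).1, (mem_inter.1 hv).1⟩
    · rw [ind_of_notMem e, mul_zero, Nat.le_zero, card_eq_zero, eq_empty_iff_forall_notMem]
      intro v hv
      obtain ⟨b, hb, hv'⟩ := mem_biUnion.1 (mem_inter.1 (mem_inter.1 hv).2).2
      exact e (hN.fam.eq (hU (hP hb)) (hU ha) hv' (mem_inter.1 hv).1 ▸ hb)
  · rw [ts_ind]
    calc Po.card * w = ∑ a ∈ Po, (N.Ro ∩ N.X a).card := by
          rw [sum_congr rfl fun a ha => hN.root a (hU (hP ha))]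
          simp
      _ = (Po.biUnion fun a => N.Ro ∩ N.X a).card := by
          rw [card_biUnion]
          exact fun a ha b hb e => (hN.fam.disj a (hU (hP ha)) b (hU (hP hb)) e).mono
            inter_subset_right inter_subset_right
      _ ≤ _ := card_le_card fun v hv => by
          obtain ⟨a, ha, hv⟩ := mem_biUnion.1 hv
          obtain ⟨c1, c2⟩ := mem_inter.1 hv
          exact mem_inter.2 ⟨mem_biUnion.2 ⟨a, hP ha, c2⟩,
            mem_inter.2 ⟨c1, mem_biUnion.2 ⟨a, ha, c2⟩⟩⟩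

theorem parts [Fintype V] (br : BrStmt) (netc : NetcStmt) (haven : HavenStmt) (hG : Deg G univ 6)
    (hN : IsNet G Amb Rt T w K N) (hw : 1 ≤ w) (hd : 1 ≤ d) {h₀ np p : ℕ}
    {Γ₁ Γ₂ : SimpleGraph ι} {Rw : Finset ι} {co : ι → Finset ι} {π : ι → ι → κ}
    {Bs : ι → ι → Finset κ} (hL : Lay H X d h₀ np Γ₁ Γ₂ Rw co π Bs) (hX : X ⊆ N.J)
    (hH : ∀ a b, H.Adj a b → w ≤ Δ * N.mu a b)
    (hp : 42 * ((T + 1) * (8 * d ^ 2 * Δ + 1)) * (p + 1) ≤ np * w) :
    ∃ P : Fin Rw.card → Finset V, Parts G Amb Rt p (4 * d ^ 2) Rw.card P := by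
  have hU : ∀ i ∈ Rw, (co i).biUnion (Bs i) ⊆ N.J := fun i hi =>
    (biUnion_subset.2 (hL.fam i hi).sub).trans hX
  have hT : ∀ a b, H.Adj a b → Touch G (N.X a) (N.X b) := fun a b h =>
    hN.touch (Nat.pos_of_mul_pos_left (hw.trans (hH a b h)))
  have hne : ∀ i ∈ Rw, (co i).Nonempty := fun i hi => card_pos.1 (by have := hL.big i hi; omega)
  refine parts_of Rw (fun i => ((co i).biUnion (Bs i)).biUnion N.X)
    ⟨fun i hi => biUnion_subset.2 fun a ha => hN.fam.sub a (hU i hi ha), fun i hi => ?_,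
      fun i hi i' hi' e => disjoint_left.2 fun v h1 h2 => ?_⟩ (fun i hi => ?_) (fun i hi => ?_)
    fun S hS Z h1 h2 => ?_
  · refine Conn.biUnion (A := H) (Conn.biUnion (A := Γ₂) ?_ (hL.fam i hi).conn (hL.touch i hi))
      (fun a ha => hN.fam.conn a (hU i hi ha)) fun a _ b _ h => hT a b h
    exact (hL.wl2 i hi).conn (hne i hi) (fun _ _ => le_rfl) fun _ _ _ _ _ h => adj_of_aw h
  · obtain ⟨a, ha, h1⟩ := mem_biUnion.1 h1
    obtain ⟨b, hb, h2⟩ := mem_biUnion.1 h2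
    obtain rfl := hN.fam.eq (hU i hi ha) (hU i' hi' hb) h1 h2
    obtain ⟨j, hj, ha⟩ := mem_biUnion.1 ha
    obtain ⟨j', hj', hb⟩ := mem_biUnion.1 hb
    exact disjoint_left.1 (hL.cross i hi i' hi' e j hj j' hj') ha hb
  · refine row_rich netc haven hG hN (hU i hi) (Po := (co i).image (π i)) (fun a ha => ?_)
      (row_wl br hH hd (hL.deg2 i hi) (hL.wl2 i hi) (hL.fam i hi) (hL.port i hi) (hL.touch i hi)) ?_
    · obtain ⟨j, hj, rfl⟩ := mem_image.1 ha
      exact mem_biUnion.2 ⟨j, hj, hL.port i hi j hj⟩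
    · rw [card_image_of_injOn fun j hj j' hj' e => (hL.fam i hi).eq hj hj'
        (hL.port i hi j hj) ((show π i j = π i j' from e) ▸ hL.port i hi j' hj')]
      have a1 := Nat.mul_le_mul_right w (hL.big i hi).le
      rw [mul_assoc] at a1 hp ⊢
      omega
  · obtain ⟨j, hj⟩ := hne i hi
    have a1 : π i j ∈ (co i).biUnion (Bs i) := mem_biUnion.2 ⟨j, hj, hL.port i hi j hj⟩
    obtain ⟨v, hv⟩ := card_pos.1 (hw.trans (hN.root _ (hU i hi a1)).ge)
    exact ⟨v, mem_inter.2 ⟨mem_biUnion.2 ⟨_, a1, (mem_inter.1 hv).2⟩, hN.rt (mem_inter.1 hv).1⟩⟩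
  · have a1 := hL.wl1 S hS
    have a2 := card_sdiff_add_card_eq_card hS
    rw [ts_const, ts_const, mul_one, mul_one, min_eq_left (by omega)] at a1
    have a3 : cw (aw Γ₁) S (Rw \ S) ≤ cw (aw Γ₁) S (Rw ∩ Z) := by
      unfold cw
      refine sum_le_sum fun i hi => sum_le_sum_of_ne_zero fun i' hi' h0 => ?_
      obtain ⟨c1, c2⟩ := mem_sdiff.1 hi'
      obtain ⟨j, hj, hj', a, ha, b, hb, hab⟩ :=
        hL.row i (hS hi) i' c1 (adj_of_aw (Nat.pos_of_ne_zero h0))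
      have c3 := h2 i hi i' c1 ((hT a b hab).mono
        (subset_biUnion_of_mem N.X (mem_biUnion.2 ⟨j, hj, ha⟩))
        (subset_biUnion_of_mem N.X (mem_biUnion.2 ⟨j, hj', hb⟩)))
      exact mem_inter.2 ⟨c1, (mem_union.1 c3).resolve_left c2⟩
    have a4 := hL.deg1.cw_le (F := Rw ∩ Z) inter_subset_left hS
    rw [cw_comm aw_comm] at a4
    have a5 : (Rw ∩ Z).card ≤ Z.card := card_le_card inter_subset_right
    calc S.card ≤ 4 * d * (Z.card * d) := a1.trans (Nat.mul_le_mul_left _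
          (a3.trans (a4.trans (Nat.mul_le_mul_right _ a5))))
      _ = _ := by ring

theorem le_two_div {n σ : ℕ} (h0 : 1 ≤ σ) (h : σ ≤ n) : n ≤ 2 * σ * (n / σ) := by
  have h1 : n < σ * (n / σ + 1) := Nat.lt_mul_div_succ _ h0
  have h2 : 1 ≤ n / σ := (Nat.le_div_iff_mul_le h0).2 (by omega)
  nlinarith

theorem pw {B a i j : ℕ} (hB : 2 ≤ B) (h : a ≤ 2 ^ i) : a * B ^ j ≤ B ^ (i + j) := by
  rw [pow_add]
  exact Nat.mul_le_mul_right _ (h.trans (Nat.pow_le_pow_left hB _))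

end DoneP

open DoneP in
theorem done (trim : TrimStmt) (pat : PatStmt) (patr : PatrStmt) (br : BrStmt) (emb : EmbStmt)
    (netc : NetcStmt) (haven : HavenStmt) : DoneStmt := by
  obtain ⟨c, hc⟩ := lay pat patr emb
  refine ⟨19 * c + 20, ?_⟩
  intro V κ _ _ G Amb Rt T w K B Δ p N hG hV hN hw hT hK hTB hKB hB hΔ hl hn
  have hB1 : 1 ≤ B := by omega
  have hmono : ∀ {i j : ℕ}, i ≤ j → B ^ i ≤ B ^ j := fun h => Nat.pow_le_pow_right hB1 h
  obtain ⟨Y, hY⟩ : ∃ Y, Y = Δ * (p + w) := ⟨_, rfl⟩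
  have hwY : w ≤ Y := by
    rw [hY]
    exact (Nat.le_add_left _ _).trans (Nat.le_mul_of_pos_left _ hΔ)
  rw [mul_assoc, ← hY] at hn
  have hn8 : 8 ≤ N.J.card := by
    refine Nat.le_of_mul_le_mul_right (le_trans ?_ hn) hw
    refine Nat.mul_le_mul ?_ hwY
    exact le_trans (by simp) ((pw (a := 8) (i := 3) (j := 0) hB (by norm_num)).trans
      (hmono (by omega)))
  obtain ⟨X, hX, hXc, hXe⟩ := core (g := T * w) (Δ := Δ) trim hN.sy hN.exp hK hn8 hl
  have hXV : X.card ≤ 2 ^ B :=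
    (card_le_card hX).trans ((Nat.le_mul_of_pos_right _ hw).trans (hN.card_le.trans hV.le))
  obtain ⟨np, hnp⟩ : ∃ np, np = B ^ 16 * Y / w + 1 := ⟨_, rfl⟩
  have hnp1 : B ^ 16 * Y ≤ np * w := by
    rw [hnp, mul_comm _ w]
    exact (Nat.lt_mul_div_succ _ hw).le
  have hnp2 : np * w ≤ 2 * (B ^ 16 * Y) := by
    have a1 := Nat.div_mul_le_self (B ^ 16 * Y) w
    have a2 : Y ≤ B ^ 16 * Y := Nat.le_mul_of_pos_left _ (by positivity)
    rw [hnp, add_mul]
    omega
  obtain ⟨σ, hσ⟩ : ∃ σ, σ = (B ^ 19) ^ c * np := ⟨_, rfl⟩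
  have hσ1 : 1 ≤ σ := by
    rw [hσ, hnp]
    exact Nat.succ_le_of_lt (by positivity)
  have hσ2 : 8 * (σ * w) ≤ B ^ (19 * c + 20) * Y :=
    calc _ = 8 * (B ^ 19) ^ c * (np * w) := by rw [hσ]; ring
      _ ≤ 8 * (B ^ 19) ^ c * (2 * (B ^ 16 * Y)) := Nat.mul_le_mul_left _ hnp2
      _ = 16 * B ^ (19 * c + 16) * Y := by rw [← pow_mul]; ring
      _ ≤ _ := Nat.mul_le_mul_right _ ((pw (i := 4) hB (by norm_num)).trans (hmono (by omega)))
  have hσ3 : σ ≤ X.card := by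
    have a1 : 8 * σ ≤ N.J.card := Nat.le_of_mul_le_mul_right (by rw [mul_assoc]; omega) hw
    omega
  have hd3 : 2 * B + 2 ≤ 3 * B := by omega
  obtain ⟨Γ₁, Γ₂, Rw, co, π, Bs, hL⟩ := hc κ ℕ X (fr N.mu (T * w) Δ) (T * w : ℕ) (B ^ 19) B
    (range (X.card / σ)) (range np) (fr_symm hN.sy) fr_nonneg (by positivity)
    (card_pos.1 (by omega))
    (hXV.trans (Nat.pow_le_pow_right (by omega) (Nat.le_self_pow (by omega) _)))
    (fun a ha => sum_fr hX (hN.deg_le (hX ha)))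
    (fun S hS h2 => by
      have a1 := hXe S hS h2
      have a2 : 0 ≤ rw (fr N.mu (T * w) Δ) S (X \ S) :=
        sum_nonneg fun a _ => sum_nonneg fun b _ => fr_nonneg a b
      have a3 : T * (4 * K) ≤ B ^ 19 :=
        calc _ ≤ B * (4 * B) := by gcongr
          _ = 4 * B ^ 2 := by ring
          _ ≤ _ := (pw (i := 2) hB (by norm_num)).trans (hmono (by omega))
      have a4 : (T : ℝ) * (4 * K) ≤ (B ^ 19 : ℕ) := by exact_mod_cast a3
      calc ((T * w : ℕ) : ℝ) * S.card = T * (w * S.card) := by push_cast; ring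
        _ ≤ T * (4 * K * rw (fr N.mu (T * w) Δ) S (X \ S)) := by gcongr
        _ = T * (4 * K) * rw (fr N.mu (T * w) Δ) S (X \ S) := by ring
        _ ≤ _ := mul_le_mul_of_nonneg_right a4 a2)
    (by rw [card_range]; exact (Nat.div_le_self _ _).trans hXV)
    (by
      rw [card_range]
      refine le_trans ?_ (hσ3.trans hXV)
      rw [hσ]
      exact Nat.le_mul_of_pos_left _ (by positivity))
    (calc _ ≤ 256 * (3 * B) ^ 4 := by gcongr
      _ = 20736 * B ^ 4 := by ring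
      _ ≤ _ := pw (i := 15) hB (by norm_num))
    (by
      rw [card_range, card_range, mul_left_comm, ← hσ]
      exact Nat.div_mul_le_self _ _)
    (by rw [card_range, hnp]; exact Nat.succ_pos _)
  rw [card_range, card_range] at hL
  obtain ⟨P, hP⟩ := parts (Δ := Δ) (p := p) br netc haven hG hN hw (by omega) hL hX
    (fun a b h => (Nat.le_mul_of_pos_left _ hT).trans (lt_of_adj hN.sy h).le)
    (le_trans (by
      have a1 : 1 ≤ B ^ 2 * Δ := Nat.succ_le_of_lt (by positivity)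
      have a2 : 8 * (2 * B + 2) ^ 2 * Δ + 1 ≤ 73 * (B ^ 2 * Δ) :=
        calc _ ≤ 8 * (3 * B) ^ 2 * Δ + B ^ 2 * Δ := by gcongr
          _ = _ := by ring
      calc _ ≤ 42 * (2 * B * (73 * (B ^ 2 * Δ))) * (p + w) := by gcongr; omega
        _ = 6132 * B ^ 3 * Y := by rw [hY]; ring
        _ ≤ _ := Nat.mul_le_mul_right _ (pw (i := 13) hB (by norm_num))) hnp1)
  refine ⟨_, P, hP.up subset_rfl subset_rfl ?_, ?_⟩
  · calc _ ≤ 4 * (3 * B) ^ 2 := by gcongr
      _ = 36 * B ^ 2 := by ring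
      _ ≤ _ := (pw (i := 6) hB (by norm_num)).trans (hmono (by omega))
  · rw [mul_assoc (B ^ _), ← hY]
    calc N.J.card * w ≤ 2 * (2 * σ * (2 * Rw.card)) * w := Nat.mul_le_mul_right _ (hXc.trans
          (Nat.mul_le_mul_left _ ((le_two_div hσ1 hσ3).trans (Nat.mul_le_mul_left _ hL.card))))
      _ = 8 * (σ * w) * Rw.card := by ring
      _ ≤ _ := Nat.mul_le_mul_right _ hσ2

end Pool.Agent.MP_35cb46_co.Nl
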