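import Pool.Agent.MP_35cb46_co.nl.Spec
import Mathlib.Analysis.Matrix.Spectrum
import Mathlib.LinearAlgebra.Matrix.Trace

-- ======== part 0: formerly Pool.Agent.MP_35cb46_co.nl.Down1
section MrgPart0

/-! PROJECT NL, row DOWN1: hubs, candidates, colouring and routers. -/

noncomputable section

namespace Pool.Agent.MP_35cb46_co.Nl

open Finset Pool.Agent.MP_7be75d_co Pool.Agent.MP_35cb46_co.Sq
open scoped Classical

namespace Down1P

section Gen

variable {κ ι V : Type}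

lemma ts_cnt (I : Finset ι) (y : ι → κ) (S : Finset κ) :
    ts (cnt I y) S = (I.filter fun i => y i ∈ S).card := by
  unfold ts cnt
  exact sum_card_fiberwise_eq_card_filter I S y

lemma ts_ind (T S : Finset κ) : ts (ind T) S = (S ∩ T).card := by
  unfold ts ind
  rw [← card_filter, filter_mem_eq_inter]

lemma ind_le (T : Finset κ) (a : κ) : ind T a ≤ 1 := by
  unfold ind
  split_ifs <;> omega

lemma ind_mono {T T' : Finset κ} {a : κ} (h : a ∈ T → a ∈ T') : ind T a ≤ ind T' a := by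
  unfold ind
  by_cases ha : a ∈ T
  · rw [if_pos ha, if_pos (h ha)]
  · rw [if_neg ha]
    exact Nat.zero_le _

lemma mem_un {D : Finset (Finset κ)} {a : κ} : a ∈ un D ↔ ∃ P ∈ D, a ∈ P := by
  simp [un]

lemma mem_cls {X : Finset κ} {col : κ → ℕ} {t : ℕ} {a : κ} :
    a ∈ cls X col t ↔ a ∈ X ∧ col a = t := mem_filter

lemma wl_mono {w w' : κ → κ → ℕ} {X : Finset κ} {τ τ' : κ → ℕ} {K K' M : ℕ} (h : WL w X τ K)
    (hw : ∀ a b, w a b ≤ w' a b) (hτ : ∀ a ∈ X, τ' a ≤ M * τ a) (hK : M * K ≤ K') :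
    WL w' X τ' K' := by
  intro A hA
  have h1 : ∀ S ⊆ X, ts τ' S ≤ M * ts τ S := fun S hS => by
    unfold ts
    rw [mul_sum]
    exact sum_le_sum fun a ha => hτ a (hS ha)
  have h2 : cw w A (X \ A) ≤ cw w' A (X \ A) :=
    sum_le_sum fun a _ => sum_le_sum fun b _ => hw a b
  calc min (ts τ' A) (ts τ' (X \ A)) ≤ min (M * ts τ A) (M * ts τ (X \ A)) :=
        min_le_min (h1 A hA) (h1 _ sdiff_subset)
    _ = M * min (ts τ A) (ts τ (X \ A)) := (mul_min _ _ _).symm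
    _ ≤ M * (K * cw w A (X \ A)) := Nat.mul_le_mul_left _ (h A hA)
    _ ≤ K' * cw w' A (X \ A) := by
        rw [← mul_assoc]
        exact Nat.mul_le_mul hK h2

lemma gad_mono {G : SimpleGraph V} {X T₀ : Finset V} {ω : V → V} {col : V → ℕ} {T K K' g ρ : ℕ}
    {AA : Finset (Finset V)} {wd : Finset V → ℕ} {Y Cd : ℕ → Finset V} {y : ℕ → V → V}
    (h : Gad G X T₀ ω col T K g ρ AA wd Y Cd y) (hK : K ≤ K') :
    Gad G X T₀ ω col T K' g ρ AA wd Y Cd y :=
  { h with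
    mass := h.mass.trans (Nat.mul_le_mul_right _ hK)
    wl := fun u hu => wl_mono (M := 1) (h.wl u hu) (fun _ _ => le_rfl) (fun _ _ => by simp)
      (by simpa using hK)
    tr := fun t ht A hA => (h.tr t ht A hA).trans (Nat.mul_le_mul_right _ hK) }

lemma thin_le (m : κ → κ → ℕ) (g Δ : ℕ) (a b : κ) : thin m g Δ a b ≤ m a b := by
  unfold thin
  split_ifs <;> omega

lemma thin_mul (m : κ → κ → ℕ) (g Δ : ℕ) (a b : κ) : Δ * thin m g Δ a b ≤ g := by
  unfold thin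
  split_ifs with h
  · exact h
  · simp

lemma thin_sy {m : κ → κ → ℕ} (h : Sy m) (g Δ : ℕ) : Sy (thin m g Δ) := fun a b => by
  unfold thin
  rw [h a b]

lemma cw_thin_le (m : κ → κ → ℕ) (g Δ : ℕ) (A S : Finset κ) : cw (thin m g Δ) A S ≤ cw m A S :=
  sum_le_sum fun a _ => sum_le_sum fun b _ => thin_le m g Δ a b

lemma cw_single (w : κ → κ → ℕ) (a : κ) (S : Finset κ) : cw w {a} S = ∑ b ∈ S, w a b := by
  simp [cw]

lemma sum_card_le {D : Finset (Finset κ)} (hD : PD D) (S : Finset κ) :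
    ∑ P ∈ D, (S ∩ P).card ≤ S.card := by
  rw [← card_biUnion]
  · exact card_le_card (biUnion_subset.2 fun P _ => inter_subset_left)
  · intro P hP P' hP' hne
    exact (hD P hP P' hP' hne).mono inter_subset_right inter_subset_right

/-- The hubs of the thin graph. -/
lemma hubs (dec : DecStmt) (m : κ → κ → ℕ) (J : Finset κ) (g Θ E Λ K : ℕ) (hs : Sy m)
    (h0 : ∀ a ∈ J, m a a = 0) (hg : 1 ≤ g) (hE : 1 ≤ E) (hΛ : J.card * g < 2 ^ Λ)
    (hK : 2 * E * Λ ≤ K) :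
    ∃ PP : Finset (Finset κ), PD PP ∧
      (∀ P ∈ PP, P ⊆ J ∧ WL (thin m g Θ) P (fun _ => g) K ∧
        (∀ a ∈ P, g ≤ K * dg (thin m g Θ) P a) ∧ Θ ≤ K * P.card) ∧
      E * cw (lost m g Θ PP) J J ≤ J.card * g := by
  have hts : ∀ S : Finset κ, ts (fun _ => g) S = S.card * g := fun S => by simp [ts]
  obtain ⟨QQ, hpd, hun, hwl, hcut⟩ := dec κ (thin m g Θ) (fun _ => g) J E Λ (thin_sy hs g Θ) hE
    (by rwa [hts])
  rw [hts] at hcut
  have hsub : ∀ P ∈ QQ, P ⊆ J := fun P hP a ha => hun ▸ mem_un.2 ⟨P, hP, ha⟩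
  refine ⟨QQ.filter fun P => 2 ≤ P.card, fun P hP P' hP' => hpd P (mem_filter.1 hP).1 P'
    (mem_filter.1 hP').1, fun P hP => ?_, le_trans (Nat.mul_le_mul_left _ ?_) hcut⟩
  · obtain ⟨hP, h2⟩ := mem_filter.1 hP
    have hw : WL (thin m g Θ) P (fun _ => g) K :=
      wl_mono (M := 1) (hwl P hP).2 (fun _ _ => le_rfl) (fun _ _ => by simp) (by simpa using hK)
    have hd : ∀ a ∈ P, g ≤ K * dg (thin m g Θ) P a := fun a ha => by
      have h1 := hw {a} (singleton_subset_iff.2 ha)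
      rw [hts, hts, card_singleton, one_mul, card_sdiff_of_subset (singleton_subset_iff.2 ha),
        card_singleton, min_eq_left (Nat.le_mul_of_pos_left _ (by omega))] at h1
      exact h1.trans (Nat.mul_le_mul_left _ (cw_mono subset_rfl sdiff_subset))
    refine ⟨hsub P hP, hw, hd, ?_⟩
    obtain ⟨a, ha⟩ := (hwl P hP).1
    have h1 : Θ * dg (thin m g Θ) P a ≤ P.card * g := by
      unfold dg
      rw [cw_single, mul_sum]
      exact (sum_le_card_nsmul _ _ g fun b _ => thin_mul m g Θ a b).trans (by simp)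
    refine Nat.le_of_mul_le_mul_right ?_ (show 0 < g by omega)
    calc Θ * g ≤ Θ * (K * dg (thin m g Θ) P a) := Nat.mul_le_mul_left _ (hd a ha)
      _ = K * (Θ * dg (thin m g Θ) P a) := by ring
      _ ≤ K * (P.card * g) := Nat.mul_le_mul_left _ h1
      _ = _ := by ring
  · have e : cw (lost m g Θ (QQ.filter fun P => 2 ≤ P.card)) J J =
        ∑ P ∈ QQ, cw (lost m g Θ (QQ.filter fun P => 2 ≤ P.card)) P J := by
      exact (congrArg (fun Z => cw _ Z J) hun.symm).trans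
        (cw_biUnion (S := id) fun P hP P' hP' hne => hpd P hP P' hP' hne)
    rw [e]
    refine sum_le_sum fun P hP => sum_le_sum fun a ha => ?_
    rw [← sum_sdiff (hsub P hP)]
    have z : ∑ b ∈ P, lost m g Θ (QQ.filter fun P => 2 ≤ P.card) a b = 0 := by
      refine sum_eq_zero fun b hb => ?_
      unfold lost
      split_ifs with hc
      · rfl
      · have hab : a = b := by
          by_contra hne
          exact hc ⟨P, mem_filter.2 ⟨hP, one_lt_card.2 ⟨a, ha, b, hb, hne⟩⟩, ha, hb⟩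
        have := thin_le m g Θ a b
        rw [← hab, h0 a (hsub P hP ha)] at this
        rw [← hab]
        omega
    rw [z, add_zero]
    refine sum_le_sum fun b _ => ?_
    unfold lost
    split_ifs
    · exact Nat.zero_le _
    · exact le_rfl

/-- Many candidates survive as targets. -/
lemma tg_count {J Cd Tg : Finset κ} {PP GG : Finset (Finset κ)} {M Th Θ K C : ℕ} (hpd : PD PP)
    (hG : GG ⊆ PP) (hK : 1 ≤ K) (hP : ∀ P ∈ PP, P ⊆ J ∧ Θ ≤ K * P.card) (hc : Cd ⊆ un PP)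
    (hn : 4 * J.card ≤ M * Cd.card) (hb : M * (un (PP \ GG)).card ≤ J.card)
    (hΘ : M * Th * K ≤ Θ)
    (ht : ∀ P ∈ GG, Th ≤ (Cd ∩ P).card → (Cd ∩ P).card ≤ 2 * C * (Tg ∩ P).card) :
    J.card ≤ C * M * Tg.card := by
  have hpd' : PD GG := fun P hP P' hP' => hpd P (hG hP) P' (hG hP')
  have h1 : Cd.card ≤ (un (PP \ GG)).card + ∑ P ∈ GG, (Cd ∩ P).card := by
    refine le_trans (card_le_card (t := un (PP \ GG) ∪ GG.biUnion fun P => Cd ∩ P) ?_)
      ((card_union_le _ _).trans (Nat.add_le_add_left card_biUnion_le _))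
    intro a ha
    obtain ⟨P, hP, haP⟩ := mem_un.1 (hc ha)
    by_cases hPG : P ∈ GG
    · exact mem_union_right _ (mem_biUnion.2 ⟨P, hPG, mem_inter.2 ⟨ha, haP⟩⟩)
    · exact mem_union_left _ (mem_un.2 ⟨P, mem_sdiff.2 ⟨hP, hPG⟩, haP⟩)
  have h2 : ∑ P ∈ GG, (Cd ∩ P).card ≤ GG.card * Th + 2 * C * Tg.card := by
    calc ∑ P ∈ GG, (Cd ∩ P).card ≤ ∑ P ∈ GG, (Th + 2 * C * (Tg ∩ P).card) := by
          refine sum_le_sum fun P hP => ?_
          by_cases h : Th ≤ (Cd ∩ P).card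
          · exact (ht P hP h).trans (Nat.le_add_left _ _)
          · omega
      _ = GG.card * Th + 2 * C * ∑ P ∈ GG, (Tg ∩ P).card := by
          rw [sum_add_distrib, mul_sum]
          simp
      _ ≤ _ := Nat.add_le_add_left (Nat.mul_le_mul_left _ (sum_card_le hpd' Tg)) _
  have h3 : GG.card * Θ ≤ K * J.card := by
    calc GG.card * Θ = ∑ P ∈ GG, Θ := by simp
      _ ≤ ∑ P ∈ GG, K * (J ∩ P).card := sum_le_sum fun P h => by
          rw [inter_eq_right.2 (hP P (hG h)).1]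
          exact (hP P (hG h)).2
      _ = K * ∑ P ∈ GG, (J ∩ P).card := by rw [mul_sum]
      _ ≤ _ := Nat.mul_le_mul_left _ (sum_card_le hpd' J)
  have h4 : M * (GG.card * Th) ≤ J.card := by
    refine Nat.le_of_mul_le_mul_left ?_ (show 0 < K by omega)
    calc K * (M * (GG.card * Th)) = GG.card * (M * Th * K) := by ring
      _ ≤ GG.card * Θ := Nat.mul_le_mul_left _ hΘ
      _ ≤ _ := h3
  have h5 : M * Cd.card ≤ M * (un (PP \ GG)).card + M * (GG.card * Th) +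
      2 * (C * M * Tg.card) := by
    calc M * Cd.card ≤ M * ((un (PP \ GG)).card + (GG.card * Th + 2 * C * Tg.card)) :=
          Nat.mul_le_mul_left _ (h1.trans (Nat.add_le_add_left h2 _))
      _ = _ := by ring
  omega

end Gen

section Net

variable {κ V : Type} {G : SimpleGraph V} {Amb Rt : Finset V} {T w K : ℕ} {N : ND V κ}
  {ν : V → κ}

lemma atom_eq (h : IsNet G Amb Rt T w K N) {a b : κ} (ha : a ∈ N.J) (hb : b ∈ N.J) {x : V}
    (hxa : x ∈ N.X a) (hxb : x ∈ N.X b) : a = b := by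
  by_contra hne
  exact disjoint_left.1 (h.fam.disj a ha b hb hne) hxa hxb

lemma mu_inj (h : IsNet G Amb Rt T w K N) {x y : V} (hx : x ∈ N.Tm) (hy : y ∈ N.Tm)
    (e : N.μ x = N.μ y) : x = y := by
  rw [← (h.wire x hx).2.1, e, (h.wire y hy).2.1]

lemma mu_sy (h : IsNet G Amb Rt T w K N) : Sy N.mu := by
  have key : ∀ a b, N.mu a b ≤ N.mu b a := fun a b => by
    refine card_le_card_of_injOn N.μ (fun x hx => ?_) fun x hx y hy e => ?_
    · obtain ⟨h1, h2⟩ := mem_filter.1 hx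
      obtain ⟨h3, h4⟩ := mem_inter.1 h1
      exact mem_filter.2 ⟨mem_inter.2 ⟨(h.wire x h3).1, h2⟩, by rwa [(h.wire x h3).2.1]⟩
    · exact mu_inj h (mem_inter.1 (mem_filter.1 hx).1).1 (mem_inter.1 (mem_filter.1 hy).1).1 e
  exact fun a b => le_antisymm (key a b) (key b a)

lemma sd_ne (h : IsNet G Amb Rt T w K N) {a b : κ} (ha : a ∈ N.J) (hb : b ∈ N.J) {x : V}
    (hx : x ∈ N.Tm) (hxa : x ∈ N.X a) (hxb : N.μ x ∈ N.X b) : N.sd a ≠ N.sd b := by
  obtain ⟨-, -, -, a', ha', b', hb', h1, h2, h3⟩ := h.wire x hx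
  rwa [atom_eq h ha ha' hxa h1, atom_eq h hb hb' hxb h2]

lemma mu_zero (h : IsNet G Amb Rt T w K N) {a b : κ} (ha : a ∈ N.J) (hb : b ∈ N.J)
    (e : N.sd a = N.sd b) : N.mu a b = 0 := by
  refine card_eq_zero.2 (filter_eq_empty_iff.2 fun x hx hxb => ?_)
  exact sd_ne h ha hb (mem_inter.1 hx).1 (mem_inter.1 hx).2 hxb e

lemma exists_nu (h : IsNet G Amb Rt T w K N) (hJ : N.J.Nonempty) :
    ∃ ν : V → κ, ∀ x ∈ N.Tm, ν x ∈ N.J ∧ N.μ x ∈ N.X (ν x) := by
  obtain ⟨a₀, -⟩ := hJ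
  have : ∀ x, ∃ b, x ∈ N.Tm → b ∈ N.J ∧ N.μ x ∈ N.X b := fun x => by
    by_cases hx : x ∈ N.Tm
    · obtain ⟨-, -, -, -, -, b, hb, -, h2, -⟩ := h.wire x hx
      exact ⟨b, fun _ => ⟨hb, h2⟩⟩
    · exact ⟨a₀, fun h' => (hx h').elim⟩
  choose ν hν using this
  exact ⟨ν, hν⟩

lemma mu_eq (h : IsNet G Amb Rt T w K N) (hν : ∀ x ∈ N.Tm, ν x ∈ N.J ∧ N.μ x ∈ N.X (ν x))
    (a : κ) {b : κ} (hb : b ∈ N.J) : N.mu a b = cnt (N.Tm ∩ N.X a) ν b := by
  unfold ND.mu cnt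
  congr 1
  refine filter_congr fun x hx => ?_
  have hx' := hν x (mem_inter.1 hx).1
  exact ⟨fun h1 => atom_eq h hx'.1 hb hx'.2 h1, fun h1 => h1 ▸ hx'.2⟩

lemma deg_le (h : IsNet G Amb Rt T w K N) (hν : ∀ x ∈ N.Tm, ν x ∈ N.J ∧ N.μ x ∈ N.X (ν x))
    {a : κ} (ha : a ∈ N.J) : cw N.mu {a} N.J ≤ T * w := by
  rw [cw_single, sum_congr rfl fun b hb => mu_eq h hν a hb]
  refine le_trans ?_ (h.deg a ha)
  exact (ts_cnt _ ν N.J).le.trans (card_filter_le _ _)

lemma card_roots (h : IsNet G Amb Rt T w K N) {S : Finset κ} (hS : S ⊆ N.J) :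
    (N.Ro ∩ S.biUnion N.X).card = S.card * w := by
  rw [inter_biUnion, card_biUnion]
  · rw [sum_congr rfl fun a ha => h.root a (hS ha)]
    simp
  · intro a ha b hb hne
    exact (h.fam.disj a (hS ha) b (hS hb) hne).mono inter_subset_right inter_subset_right

/-- The thin wires of an atom that end in its own hub. -/
def tz (N : ND V κ) (ν : V → κ) (g Δ : ℕ) (PP : Finset (Finset κ)) (a : κ) : Finset V :=
  (N.Tm ∩ N.X a).filter fun x => Δ * N.mu a (ν x) ≤ g ∧ ∃ P ∈ PP, a ∈ P ∧ ν x ∈ P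

lemma mem_tz {g Δ : ℕ} {PP : Finset (Finset κ)} {a : κ} {x : V} : x ∈ tz N ν g Δ PP a ↔
    (x ∈ N.Tm ∧ x ∈ N.X a) ∧ Δ * N.mu a (ν x) ≤ g ∧ ∃ P ∈ PP, a ∈ P ∧ ν x ∈ P := by
  rw [tz, mem_filter, mem_inter]

lemma tz_card (h : IsNet G Amb Rt T w K N) (g Δ : ℕ) (PP : Finset (Finset κ)) {a : κ}
    (ha : a ∈ N.J) : (tz N ν g Δ PP a).card ≤ T * w :=
  (card_filter_le _ _).trans (h.deg a ha)

lemma thin_le_tz (h : IsNet G Amb Rt T w K N) (hν : ∀ x ∈ N.Tm, ν x ∈ N.J ∧ N.μ x ∈ N.X (ν x))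
    {g Δ Θ : ℕ} (hΘ : Θ ≤ Δ) (PP : Finset (Finset κ)) (a : κ) :
    ∑ b ∈ N.J, thin N.mu g Δ a b ≤ (tz N ν g Δ PP a).card + ∑ b ∈ N.J, lost N.mu g Θ PP a b := by
  have h1 : ts (cnt (tz N ν g Δ PP a) ν) N.J ≤ (tz N ν g Δ PP a).card :=
    (ts_cnt _ ν N.J).le.trans (card_filter_le _ _)
  refine le_trans ?_ (Nat.add_le_add_right h1 _)
  unfold ts
  rw [← sum_add_distrib]
  refine sum_le_sum fun b hb => ?_
  by_cases h2 : Δ * N.mu a b ≤ g
  · refine (thin_le _ _ _ _ _).trans ?_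
    by_cases h3 : ∃ P ∈ PP, a ∈ P ∧ b ∈ P
    · refine le_trans ?_ (Nat.le_add_right _ _)
      rw [mu_eq h hν a hb]
      refine card_le_card fun x hx => ?_
      obtain ⟨h4, h5⟩ := mem_filter.1 hx
      exact mem_filter.2 ⟨mem_filter.2 ⟨h4, by rw [h5]; exact ⟨h2, h3⟩⟩, h5⟩
    · refine le_trans ?_ (Nat.le_add_left _ _)
      unfold lost thin
      rw [if_neg h3, if_pos ((Nat.mul_le_mul_right _ hΘ).trans h2)]
  · unfold thin
    rw [if_neg h2]
    exact Nat.zero_le _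

lemma cand_count (h : IsNet G Amb Rt T w K N) (hν : ∀ x ∈ N.Tm, ν x ∈ N.J ∧ N.μ x ∈ N.X (ν x))
    {Δ Θ : ℕ} (hΘ : Θ ≤ Δ) (PP : Finset (Finset κ)) (hw : 1 ≤ w)
    (h1 : N.J.card * w < 16 * K * cw (thin N.mu (T * w) Δ) N.J N.J)
    (h2 : 32 * K * cw (lost N.mu (T * w) Θ PP) N.J N.J ≤ N.J.card * w) :
    N.J.card ≤ 64 * K * T *
      (N.J.filter fun a => w ≤ 64 * K * (tz N ν (T * w) Δ PP a).card).card := by
  set Cd := N.J.filter fun a => w ≤ 64 * K * (tz N ν (T * w) Δ PP a).card with hCd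
  have h3 : cw (thin N.mu (T * w) Δ) N.J N.J ≤ ∑ a ∈ N.J, (tz N ν (T * w) Δ PP a).card +
      cw (lost N.mu (T * w) Θ PP) N.J N.J := by
    unfold cw
    rw [← sum_add_distrib]
    exact sum_le_sum fun a _ => thin_le_tz h hν hΘ PP a
  have h4 : 64 * K * ∑ a ∈ N.J, (tz N ν (T * w) Δ PP a).card ≤
      N.J.card * w + 64 * K * (T * w) * Cd.card := by
    calc 64 * K * ∑ a ∈ N.J, (tz N ν (T * w) Δ PP a).card
        ≤ ∑ a ∈ N.J, (w + 64 * K * (T * w) * ind Cd a) := by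
          rw [mul_sum]
          refine sum_le_sum fun a ha => ?_
          by_cases hc : w ≤ 64 * K * (tz N ν (T * w) Δ PP a).card
          · have : ind Cd a = 1 := if_pos (mem_filter.2 ⟨ha, hc⟩)
            rw [this, mul_one]
            exact (Nat.mul_le_mul_left _ (tz_card h _ _ PP ha)).trans (Nat.le_add_left _ _)
          · omega
      _ = N.J.card * w + 64 * K * (T * w) * ts (ind Cd) N.J := by
          rw [sum_add_distrib, ← mul_sum]
          simp [ts]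
      _ ≤ _ := by
          rw [ts_ind]
          exact Nat.add_le_add_left (Nat.mul_le_mul_left _ (card_le_card inter_subset_right)) _
  refine Nat.le_of_mul_le_mul_right ?_ (show 0 < w by omega)
  have h5 := Nat.mul_le_mul_left (64 * K) h3
  have e : 64 * K * T * Cd.card * w = 64 * K * (T * w) * Cd.card := by ring
  rw [e]
  nlinarith

lemma outer (h : IsNet G Amb Rt T w K N) {g Δ : ℕ} {PP : Finset (Finset κ)} {a : κ}
    (ha : a ∈ N.J) : Outer G (N.X a) (tz N ν g Δ PP a) N.μ where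
  sub := fun _ hx => (mem_tz.1 hx).1.2
  adj := fun x hx => ⟨fun h1 => sd_ne h ha ha (mem_tz.1 hx).1.1 (mem_tz.1 hx).1.2 h1 rfl,
    (h.wire x (mem_tz.1 hx).1.1).2.2.1⟩
  inj := fun _ hx _ hy e => mu_inj h (mem_tz.1 hx).1.1 (mem_tz.1 hy).1.1 e

/-- From the routers on the atoms to the routers in the graph. -/
lemma mid (netc : NetcStmt) (h : IsNet G Amb Rt T w K N)
    (hν : ∀ x ∈ N.Tm, ν x ∈ N.J ∧ N.μ x ∈ N.X (ν x)) {Δ ρ K₁ K₂ K' : ℕ}
    {PP GG : Finset (Finset κ)} {col : κ → ℕ} {R : ℕ → Finset κ} {Po Tg : Finset κ}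
    (hpd : PD PP) (hG : GG ⊆ PP) (hTJ : Tg ⊆ N.J) (hTg : Tg ⊆ cls (un GG) col (T + 1))
    (hR : ∀ t ≤ T, R t ⊆ N.J \ cls (un PP) col (T + 1) ∧ cls (un GG) col t ⊆ R t)
    (hd : ∀ t ≤ T, ∀ t' ≤ T, t ≠ t' → Disjoint (R t) (R t')) (hPo : Po ⊆ R 0)
    (hn : N.J.card ≤ K₁ * Po.card)
    (hwl : ∀ t ≤ T, WL N.mu (R t) (fun a => T * w * ind (cls (un GG) col t) a +
      if t = 0 then w * ind Po a else 0) K₂)
    (h1 : T * K₁ ≤ K') (h2 : (T + 1) * (K₂ + 1) ≤ K')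
    (hgad : ∀ a ∈ Tg, ∃ AA wd Y Cd y, Gad G (N.X a) (tz N ν (T * w) Δ PP a) N.μ
      (fun x => col (ν x)) T K' (T * w) ρ AA wd Y Cd y) :
    Mid G Amb Rt T K' (T * w) ρ Tg N.X (tz N ν (T * w) Δ PP) N.μ (fun x => col (ν x))
      (fun t => (R t).biUnion N.X) (N.Ro ∩ Po.biUnion N.X) := by
  have hRJ : ∀ t ≤ T, R t ⊆ N.J := fun t ht => (hR t ht).1.trans sdiff_subset
  have hTR : ∀ a ∈ Tg, ∀ t ≤ T, a ∉ R t := fun a ha t ht haR => by
    obtain ⟨h3, h4⟩ := mem_cls.1 (hTg ha)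
    obtain ⟨P, hP, haP⟩ := mem_un.1 h3
    exact (mem_sdiff.1 ((hR t ht).1 haR)).2 (mem_cls.2 ⟨mem_un.2 ⟨P, hG hP, haP⟩, h4⟩)
  have hxr : ∀ a ∈ Tg, ∀ t ≤ T, Disjoint (N.X a) ((R t).biUnion N.X) := fun a ha t ht =>
    (disjoint_biUnion_right _ _ _).2 fun b hb => h.fam.disj a (hTJ ha) b (hRJ t ht hb)
      fun e => hTR a ha t ht (e ▸ hb)
  have hom : ∀ a ∈ Tg, ∀ t, ∀ v ∈ om (tz N ν (T * w) Δ PP a) N.μ (fun x => col (ν x)) t,
      ∃ x, x ∈ N.Tm ∧ x ∈ N.X a ∧ N.μ x = v ∧ ν x ∈ cls (un GG) col t := fun a ha t v hv => by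
    obtain ⟨x, hx, rfl⟩ := mem_image.1 hv
    obtain ⟨hx1, hx2⟩ := mem_cls.1 hx
    obtain ⟨⟨h3, h4⟩, -, P, hP, haP, hxP⟩ := mem_tz.1 hx1
    obtain ⟨P', hP', haP'⟩ := mem_un.1 (mem_cls.1 (hTg ha)).1
    have e : P = P' := by
      by_contra hne
      exact disjoint_left.1 (hpd P hP P' (hG hP') hne) haP haP'
    exact ⟨x, h3, h4, rfl, mem_cls.2 ⟨mem_un.2 ⟨P', hP', e ▸ hxP⟩, hx2⟩⟩
  have hPJ : Po ⊆ N.J := hPo.trans (hRJ 0 (Nat.zero_le _))
  refine ⟨⟨fun a ha => h.fam.sub a (hTJ ha), fun a ha => h.fam.conn a (hTJ ha),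
    fun a ha b hb => h.fam.disj a (hTJ ha) b (hTJ hb)⟩, hgad, fun a ha => tz_card h _ _ _ (hTJ ha),
    fun t ht => biUnion_subset.2 fun b hb => h.fam.sub b (hRJ t ht hb), fun t ht t' ht' hne => ?_,
    hxr, fun a ha t ht v hv => ?_, fun a ha b hb hne => ?_, fun t ht => ?_, fun v hv => ?_, ?_⟩
  · refine (disjoint_biUnion_left _ _ _).2 fun a ha => (disjoint_biUnion_right _ _ _).2
      fun b hb => h.fam.disj a (hRJ t ht ha) b (hRJ t' ht' hb) fun e => ?_
    exact disjoint_left.1 (hd t ht t' ht' hne) ha (e ▸ hb)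
  · obtain ⟨x, hx, -, rfl, h3⟩ := hom a ha t v hv
    exact mem_biUnion.2 ⟨ν x, (hR t ht).2 h3, (hν x hx).2⟩
  · refine disjoint_left.2 fun v hv hv' => ?_
    obtain ⟨x, hx, rfl⟩ := mem_image.1 hv
    obtain ⟨y, hy, e⟩ := mem_image.1 hv'
    have e' := mu_inj h (mem_tz.1 hy).1.1 (mem_tz.1 hx).1.1 e
    exact hne (atom_eq h (hTJ ha) (hTJ hb) (mem_tz.1 hx).1.2 (e' ▸ (mem_tz.1 hy).1.2))
  · refine wl_mono (M := 1) (netc V κ G Amb Rt T w K K₂ N (R t) _ h (hRJ t ht) (fun v _ => ?_)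
      (wl_mono (M := 1) (hwl t ht) (fun _ _ => le_rfl) (fun b hb => ?_) (by simp)))
      (fun _ _ => le_rfl) (fun _ _ => (one_mul _).ge) (by simpa using h2)
    · rw [add_comm]
      refine Nat.add_le_add ?_ (ind_mono fun hv => ?_)
      · split_ifs
        · exact ind_mono fun hv => (mem_inter.1 hv).1
        · exact Nat.zero_le _
      · obtain ⟨a, ha, hv⟩ := mem_biUnion.1 hv
        obtain ⟨x, hx, hxa, rfl, -⟩ := hom a ha t v hv
        refine mem_filter.2 ⟨(h.wire x hx).1, ?_⟩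
        rw [(h.wire x hx).2.1]
        exact disjoint_left.1 (hxr a ha t ht) hxa
    · have hbJ := hRJ t ht hb
      rw [one_mul, ts, sum_add_distrib]
      refine Nat.add_le_add ?_ ?_
      · refine (ts_ind _ _).le.trans ?_
        by_cases hc : b ∈ cls (un GG) col t
        · rw [ind, if_pos hc, mul_one]
          refine le_trans (card_le_card fun v hv => ?_) (h.deg b hbJ)
          obtain ⟨h3, h4⟩ := mem_inter.1 hv
          obtain ⟨a, ha, h4⟩ := mem_biUnion.1 h4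
          obtain ⟨x, hx, -, rfl, -⟩ := hom a ha t v h4
          exact mem_inter.2 ⟨(h.wire x hx).1, h3⟩
        · refine (card_eq_zero.2 (eq_empty_of_forall_notMem fun v hv => hc ?_)).le.trans
            (Nat.zero_le _)
          obtain ⟨h3, h4⟩ := mem_inter.1 hv
          obtain ⟨a, ha, h4⟩ := mem_biUnion.1 h4
          obtain ⟨x, hx, -, rfl, h5⟩ := hom a ha t v h4
          rwa [← atom_eq h (hν x hx).1 hbJ (hν x hx).2 h3]
      · by_cases h0 : t = 0
        · simp only [if_pos h0]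
          refine (ts_ind _ _).le.trans ?_
          by_cases hc : b ∈ Po
          · rw [ind, if_pos hc, mul_one, ← h.root b hbJ]
            exact card_le_card fun v hv =>
              mem_inter.2 ⟨(mem_inter.1 (mem_inter.1 hv).2).1, (mem_inter.1 hv).1⟩
          · refine (card_eq_zero.2 (eq_empty_of_forall_notMem fun v hv => hc ?_)).le.trans
              (Nat.zero_le _)
            obtain ⟨h3, h4⟩ := mem_inter.1 hv
            obtain ⟨a, ha, h5⟩ := mem_biUnion.1 (mem_inter.1 h4).2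
            rwa [← atom_eq h (hPJ ha) hbJ h5 h3]
        · simp [h0]
  · obtain ⟨h3, h4⟩ := mem_inter.1 hv
    obtain ⟨a, ha, h5⟩ := mem_biUnion.1 h4
    exact mem_inter.2 ⟨mem_biUnion.2 ⟨a, hPo ha, h5⟩, h.rt h3⟩
  · rw [card_roots h hPJ]
    calc Tg.card * (T * w) ≤ K₁ * Po.card * (T * w) :=
          Nat.mul_le_mul_right _ ((card_le_card hTJ).trans hn)
      _ = T * K₁ * (Po.card * w) := by ring
      _ ≤ _ := Nat.mul_le_mul_right _ h1

end Net

section Num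

variable {B x y i j k : ℕ}

lemma pw (hB : 3 ≤ B) (h : i ≤ j) : B ^ i ≤ B ^ j := Nat.pow_le_pow_right (by omega) h

lemma pw_mul (hB : 3 ≤ B) (hx : x ≤ B ^ i) (hy : y ≤ B ^ j) (h : i + j ≤ k) : x * y ≤ B ^ k :=
  (Nat.mul_le_mul hx hy).trans (by rw [← pow_add]; exact pw hB h)

lemma pw_const (hB : 3 ≤ B) (h : x ≤ 3 ^ i) : x ≤ B ^ i := h.trans (Nat.pow_le_pow_left hB i)

lemma pw_self (hB : 3 ≤ B) (x : ℕ) : x ≤ B ^ x := (Nat.lt_pow_self (by omega)).le

lemma pw_one (h : x ≤ B) : x ≤ B ^ 1 := by rwa [pow_one]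

lemma pw_le (hB : 3 ≤ B) (hx : x ≤ B ^ i) (h : i ≤ j) : x ≤ B ^ j := hx.trans (pw hB h)

lemma pw_pos (hB : 3 ≤ B) (i : ℕ) : 1 ≤ B ^ i := Nat.one_le_pow _ _ (by omega)

end Num

end Down1P

open Down1P in
theorem down1 (dec : DecStmt) (col : ColStmt) (opn : OpenStmt) (router : RouterStmt)
    (netc : NetcStmt) : Down1Stmt := by
  obtain ⟨cc, hcol⟩ := col
  obtain ⟨o, hopn⟩ := opn
  obtain ⟨r, hrt⟩ := router
  refine ⟨(cc + 64 * r + 84) * r + (8 * r + 8) * o + cc + 64 * r + 84, ?_⟩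
  intro V κ _ _ G Amb Rt T w K B Λ ρ N hdeg hV h hw hT hK hΛ hTB hKB hρ hn hthin
  generalize hc : (cc + 64 * r + 84) * r + (8 * r + 8) * o + cc + 64 * r + 84 = c at hρ hn ⊢
  have hB : 3 ≤ B := by omega
  have bT : T ≤ B ^ 1 := pw_one (by omega)
  have bK : K ≤ B ^ 1 := pw_one hKB
  have bB : B ≤ B ^ 1 := pw_one le_rfl
  have hg : 1 ≤ T * w := Nat.mul_pos hT hw
  have hJ : N.J.Nonempty := card_pos.1 ((pw_pos hB c).trans hn)
  obtain ⟨ν, hν⟩ := exists_nu h hJ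
  have hV' : Fintype.card V < 2 ^ B := by
    have := Nat.pow_le_pow_right (show 0 < 2 by omega) hΛ
    omega
  have hnw : N.J.card * w ≤ Fintype.card V := by
    rw [← card_roots h subset_rfl]
    exact card_le_univ _
  have hn2 : N.J.card ≤ 2 ^ B := (Nat.le_mul_of_pos_right _ hw).trans (hnw.trans hV'.le)
  have hng : N.J.card * (T * w) < 2 ^ (2 * B) := by
    have h1 : T ≤ 2 ^ B := (Nat.lt_two_pow_self (n := B)).le.trans' (by omega)
    calc N.J.card * (T * w) = T * (N.J.card * w) := by ring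
      _ ≤ 2 ^ B * Fintype.card V := Nat.mul_le_mul h1 hnw
      _ < 2 ^ B * 2 ^ B := Nat.mul_lt_mul_of_pos_left hV' (by positivity)
      _ = _ := by rw [← pow_add, two_mul]
  -- hubs
  obtain ⟨PP, hpd, hPP, hlost⟩ := hubs dec N.mu N.J (T * w) (B ^ (cc + 64 * r + 76))
    (B ^ (8 * r + 9)) (2 * B) (B ^ (8 * r + 12)) (mu_sy h) (fun a ha => mu_zero h ha ha rfl) hg
    (pw_pos hB _) hng
    (pw_mul hB (pw_mul hB (pw_const (i := 1) hB (by norm_num)) le_rfl le_rfl)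
      (pw_mul hB (pw_const (i := 1) hB (by norm_num)) bB le_rfl) (by omega))
  have hlost' : B ^ (8 * r + 8) * cw (lost N.mu (T * w) (B ^ (cc + 64 * r + 76)) PP) N.J N.J ≤
      N.J.card * w := by
    refine Nat.le_of_mul_le_mul_left ?_ (show 0 < T by omega)
    rw [← mul_assoc]
    refine (Nat.mul_le_mul_right _ (pw_mul hB bT le_rfl (by omega))).trans (hlost.trans ?_)
    exact le_of_eq (by ring)
  have hΘρ : B ^ (cc + 64 * r + 76) ≤ ρ ^ 3 :=
    ((pw hB (by omega)).trans hρ).trans (Nat.le_self_pow (by omega) ρ)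
  have hcd := cand_count h hν hΘρ PP hw hthin ((Nat.mul_le_mul_right _
    (pw_mul hB (pw_const (i := 4) hB (by norm_num)) bK (by omega))).trans hlost')
  set Cd := N.J.filter fun a => w ≤ 64 * K * (tz N ν (T * w) (ρ ^ 3) PP a).card with hCd
  have hCdne : ∀ a ∈ Cd, ∃ x, x ∈ tz N ν (T * w) (ρ ^ 3) PP a := fun a ha => by
    have h1 := (mem_filter.1 ha).2
    refine card_pos.1 (Nat.pos_of_ne_zero fun h2 => ?_)
    rw [h2] at h1
    omega
  have hCdP : Cd ⊆ un PP := fun a ha => by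
    obtain ⟨x, hx⟩ := hCdne a ha
    obtain ⟨-, -, P, hP, haP, -⟩ := mem_tz.1 hx
    exact mem_un.2 ⟨P, hP, haP⟩
  have hPJ : un PP ⊆ N.J := fun a ha => by
    obtain ⟨P, hP, haP⟩ := mem_un.1 ha
    exact (hPP P hP).1 haP
  have hcd4 : 4 * N.J.card ≤ B ^ 8 * Cd.card := by
    refine (Nat.mul_le_mul_left 4 hcd).trans ?_
    rw [← mul_assoc]
    refine Nat.mul_le_mul_right _ ?_
    rw [show 4 * (64 * K * T) = 256 * K * T by ring]
    exact pw_mul hB (pw_mul hB (pw_const (i := 6) hB (by norm_num)) bK le_rfl) bT le_rfl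
  have hun8 : N.J.card ≤ B ^ 8 * (un PP).card :=
    le_trans (by omega) (hcd4.trans (Nat.mul_le_mul_left _ (card_le_card hCdP)))
  -- open the candidates
  have hop : ∀ a, ∃ GG : Finset (Finset V), a ∈ Cd →
      (∀ Γ ∈ GG, Γ ⊆ tz N ν (T * w) (ρ ^ 3) PP a ∧
        T * w ≤ (B ^ (8 * r + 8)) ^ o * ρ ^ 2 * Γ.card) ∧ GG.card ≤ Fintype.card V ∧
      Opened G (N.X a) (tz N ν (T * w) (ρ ^ 3) PP a) N.μ T (2 * B ^ (8 * r + 2))
        ((B ^ (8 * r + 8)) ^ o) (T * w) ρ GG := fun a => by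
    by_cases ha : a ∈ Cd
    · obtain ⟨haJ, haw⟩ := mem_filter.1 ha
      refine Exists.elim (hopn V G (N.X a) (tz N ν (T * w) (ρ ^ 3) PP a) N.μ T
        (2 * B ^ (8 * r + 2)) (B ^ (8 * r + 8)) Λ (T * w) ρ hdeg hV (h.fam.conn a haJ)
        (outer h haJ)
        (wl_mono (M := 1) (h.wl a haJ) (fun _ _ => le_rfl)
          (fun v _ => (ind_mono fun hv => mem_union_left _ (mem_tz.1 hv).1.1).trans (one_mul _).ge)
          ((one_mul _).le.trans (pw_le hB (pw_one (by omega)) (by omega))))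
        (tz_card h _ _ _ haJ) ?_ (pw_le hB (pw_one hΛ) (by omega))
        (pw_le hB (pw_one hTB) (by omega)) (Nat.mul_pos (by omega) (pw_pos hB _))
        (pw_mul hB (pw_const (i := 1) hB (by norm_num)) le_rfl (by omega))
        (by rw [← pow_mul]; exact (pw hB (by omega)).trans hρ) ?_)
        fun GG hGG => ⟨GG, fun _ => hGG⟩
      · refine (Nat.mul_le_mul_left _ haw).trans ?_
        rw [← mul_assoc]
        exact Nat.mul_le_mul_right _ (pw_mul hB bT (pw_mul hB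
          (pw_const (i := 4) hB (by norm_num)) bK le_rfl) (by omega))
      · obtain ⟨x, hx⟩ := hCdne a ha
        obtain ⟨⟨h1, h2⟩, h3, -⟩ := mem_tz.1 hx
        refine le_trans (Nat.le_mul_of_pos_right _ (card_pos.2 ⟨x, ?_⟩)) h3
        exact mem_filter.2 ⟨mem_inter.2 ⟨h1, h2⟩, (hν x h1).2⟩
    · exact ⟨∅, fun h' => (ha h').elim⟩
  choose Gr hGr using hop
  -- colour the hubs
  have hPPn : PP.card ≤ N.J.card := by
    refine le_trans ?_ (sum_card_le hpd N.J)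
    rw [card_eq_sum_ones]
    refine sum_le_sum fun P hP => ?_
    rw [inter_eq_right.2 (hPP P hP).1]
    refine Nat.pos_of_ne_zero fun h0 => ?_
    have h1 := (hPP P hP).2.2.2
    rw [h0, mul_zero] at h1
    exact absurd ((pw_pos hB _).trans h1) (by omega)
  have hBΛ : 2 * B + 2 ≤ B ^ (8 * r + 3) := by
    refine le_trans ?_ (pw hB (show 3 ≤ 8 * r + 3 by omega))
    nlinarith [Nat.mul_le_mul hB hB]
  have hn3 : N.J.card ≤ 2 ^ B ^ (8 * r + 3) :=
    hn2.trans (Nat.pow_le_pow_right (by omega) (by omega))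
  set I' : Finset (κ → ℕ) := (Cd.biUnion fun a => (Gr a).image fun Γ => cnt Γ ν) ∪
    ((PP.filter fun P => B ^ (cc + 56 * r + 56) ≤ (Cd ∩ P).card).image fun P => ind (Cd ∩ P)) ∪
    {ind (un PP)} with hI'
  have hI'c : I'.card ≤ 2 ^ B ^ (8 * r + 3) := by
    have h1 : (Cd.biUnion fun a => (Gr a).image fun Γ => cnt Γ ν).card ≤ 2 ^ B * 2 ^ B := by
      refine (card_biUnion_le_card_mul _ _ (2 ^ B) fun a ha => ?_).trans ?_
      · exact card_image_le.trans ((hGr a ha).2.1.trans hV'.le)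
      · exact Nat.mul_le_mul_right _ ((card_filter_le _ _).trans hn2)
    have h2 : ((PP.filter fun P => B ^ (cc + 56 * r + 56) ≤ (Cd ∩ P).card).image
        fun P => ind (Cd ∩ P)).card ≤ 2 ^ B :=
      card_image_le.trans ((card_filter_le _ _).trans (hPPn.trans hn2))
    refine (card_union_le _ _).trans (le_trans (Nat.add_le_add_right ((card_union_le _ _).trans
      (Nat.add_le_add h1 h2)) _) (le_trans ?_ (Nat.pow_le_pow_right (by omega) hBΛ)))
    rw [card_singleton, pow_add, two_mul, pow_add]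
    nlinarith [Nat.one_le_two_pow (n := B)]
  refine Exists.elim (hcol κ (Finset κ) (κ → ℕ) Unit PP id
    (fun _ => thin N.mu (T * w) (B ^ (cc + 64 * r + 76))) (fun _ => N.sd) I' id ∅
    (fun _ _ _ => 0) (fun _ => ∅) 1 (B ^ (8 * r + 2)) (B ^ (8 * r + 12)) (B ^ (8 * r + 3))
    (B ^ (cc + 56 * r + 56)) 0 (pw_pos hB _) (pw_pos hB _)
    ((pw hB (by omega)).trans Nat.lt_two_pow_self.le) (hPPn.trans hn3) hI'c ?_ ?_ ?_
    ⟨le_rfl, by simp, by simp, by simp⟩) ?_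
  · rw [← pow_mul, ← pow_mul]
    refine pw_mul hB (pw_mul hB (pw_mul hB (pw_self hB cc) le_rfl le_rfl) le_rfl le_rfl)
      (j := 8 * r + 4) ?_ (by omega)
    have := pw_pos hB (8 * r + 3)
    rw [pow_succ B (8 * r + 3)]
    nlinarith
  · intro P hP
    obtain ⟨h1, h2, h3, -⟩ := hPP P hP
    refine ⟨(card_le_card h1).trans hn3, thin_sy (mu_sy h) _ _, fun a ha b hb e => ?_,
      wl_mono (M := 1) h2 (fun _ _ => le_rfl) (fun a ha => ?_) (by simp), fun a ha b _ => ?_⟩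
    · exact Nat.le_zero.1 ((thin_le _ _ _ _ _).trans (mu_zero h (h1 ha) (h1 hb) e).le)
    · rw [one_mul]
      exact (cw_thin_le N.mu _ _ {a} P).trans ((cw_mono subset_rfl h1).trans (deg_le h hν (h1 ha)))
    · refine Nat.le_of_mul_le_mul_left ?_ (pw_pos hB (8 * r + 12))
      refine le_trans ?_ ((thin_mul N.mu (T * w) (B ^ (cc + 64 * r + 76)) a b).trans (h3 a ha))
      rw [← mul_assoc]
      exact Nat.mul_le_mul_right _ (pw_mul hB le_rfl le_rfl (by omega))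
  · intro y hy b
    simp only [id]
    rcases mem_union.1 hy with hy | hy
    · rcases mem_union.1 hy with hy | hy
      · obtain ⟨a, ha, hy⟩ := mem_biUnion.1 hy
        obtain ⟨Γ, hΓ, rfl⟩ := mem_image.1 hy
        obtain ⟨h1, h2⟩ := (hGr a ha).1 Γ hΓ
        rw [ts_cnt, filter_true_of_mem fun _ _ => mem_univ _]
        have h3 : ρ ^ 3 * cnt Γ ν b ≤ T * w := by
          rcases Nat.eq_zero_or_pos (cnt Γ ν b) with h0 | h0
          · rw [h0]
            exact Nat.zero_le _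
          · obtain ⟨x, hx⟩ := card_pos.1 h0
            obtain ⟨hx1, rfl⟩ := mem_filter.1 hx
            obtain ⟨⟨h4, -⟩, h5, -⟩ := mem_tz.1 (h1 hx1)
            refine le_trans (Nat.mul_le_mul_left _ ?_) h5
            rw [mu_eq h hν a (hν x h4).1]
            exact card_le_card (filter_subset_filter _ (h1.trans (filter_subset _ _)))
        have hρ0 : 0 < ρ := (pw_pos hB c).trans hρ
        refine Nat.le_of_mul_le_mul_left ?_
          (show 0 < (B ^ (8 * r + 8)) ^ o * ρ ^ 2 by have := pw_pos hB (8 * r + 8); positivity)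
        refine le_trans ?_ (h3.trans h2)
        have h4 : (B ^ (8 * r + 8)) ^ o * B ^ (cc + 56 * r + 56) ≤ ρ := by
          rw [← pow_mul]
          exact (pw_mul hB le_rfl le_rfl (by omega)).trans hρ
        calc (B ^ (8 * r + 8)) ^ o * ρ ^ 2 * (B ^ (cc + 56 * r + 56) * cnt Γ ν b)
            = (B ^ (8 * r + 8)) ^ o * B ^ (cc + 56 * r + 56) * (ρ ^ 2 * cnt Γ ν b) := by ring
          _ ≤ ρ * (ρ ^ 2 * cnt Γ ν b) := Nat.mul_le_mul_right _ h4
          _ = _ := by ring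
      · obtain ⟨P, hP, rfl⟩ := mem_image.1 hy
        rw [ts_ind, univ_inter]
        exact (Nat.mul_le_mul_left _ (ind_le _ _)).trans ((mul_one _).le.trans (mem_filter.1 hP).2)
    · rw [mem_singleton.1 hy, ts_ind, univ_inter]
      refine (Nat.mul_le_mul_left _ (ind_le _ _)).trans ((mul_one _).le.trans ?_)
      refine Nat.le_of_mul_le_mul_left ?_ (pw_pos hB 8)
      exact ((pw_mul hB le_rfl le_rfl (by omega)).trans hn).trans hun8
  rintro cl ⟨hcl, -⟩
  have hTC : T + 1 < B ^ (8 * r + 2) :=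
    lt_of_lt_of_le (by omega) (pw_le hB (pw_one hTB) (by omega))
  -- routers
  refine Exists.elim (hrt κ N.J N.mu T w K (B ^ 8)
    (B ^ (cc + 64 * r + 76)) PP cl (mu_sy h) (fun a ha => deg_le h hν ha) h.exp hw hT hK
    (hn2.trans (Nat.pow_le_pow_right (by omega) (pw_le hB bB (by omega))))
    (pw_le hB bT (by omega)) (pw_le hB bK (by omega)) (pw_const hB (by norm_num)) (pw_pos hB _)
    hpd ?_ hun8 ?_ ?_ ?_) ?_
  · intro P hP
    refine ⟨(hPP P hP).1, Nat.le_of_mul_le_mul_left ?_ (pw_pos hB (8 * r + 12))⟩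
    rw [← pow_mul]
    exact (pw_mul hB le_rfl le_rfl (by omega)).trans (hPP P hP).2.2.2
  · intro P hP t ht
    obtain ⟨h1, h2⟩ := (hcl t (by omega)).1 P hP
    refine ⟨wl_mono (M := B ^ (8 * r + 12)) h1 (thin_le _ _ _)
      (fun a ha => (hPP P hP).2.2.1 a (mem_cls.1 ha).1) ?_, fun a ha => ?_⟩
    · rw [← pow_mul]
      exact pw_mul hB le_rfl (pw_mul hB (pw_mul hB (pw_const (i := 3) hB (by norm_num)) le_rfl
        le_rfl) le_rfl le_rfl) (by omega)
    · refine ((hPP P hP).2.2.1 a ha).trans ((Nat.mul_le_mul_left _ (h2 a ha)).trans ?_)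
      rw [← mul_assoc]
      exact Nat.mul_le_mul (pw_mul hB le_rfl (pw_mul hB (pw_const (i := 1) hB (by norm_num))
        le_rfl le_rfl) (by omega)) (cw_thin_le _ _ _ _ _)
  · have h1 : ((un PP).filter fun a => cl a ≤ T + 1).card ≤
        ∑ t ∈ range (T + 2), (cls univ cl t ∩ un PP).card := by
      refine le_trans (card_le_card fun a ha => ?_) card_biUnion_le
      obtain ⟨h2, h3⟩ := mem_filter.1 ha
      exact mem_biUnion.2 ⟨cl a, mem_range.2 (by omega),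
        mem_inter.2 ⟨mem_cls.2 ⟨mem_univ _, rfl⟩, h2⟩⟩
    have h2 : B ^ (8 * r + 2) * ∑ t ∈ range (T + 2), (cls univ cl t ∩ un PP).card ≤
        (T + 2) * (2 * N.J.card) := by
      rw [mul_sum]
      refine (sum_le_card_nsmul _ _ (2 * N.J.card) fun t ht => ?_).trans (by simp)
      have h3 := ((hcl t (by have := mem_range.1 ht; omega)).2 (ind (un PP))
        (mem_union_right _ (mem_singleton_self _))).2
      simp only [id] at h3
      rw [ts_ind, ts_ind, univ_inter] at h3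
      exact h3.trans (Nat.mul_le_mul_left _ (card_le_card hPJ))
    refine Nat.le_of_mul_le_mul_left ?_ (pw_pos hB 2)
    rw [← pow_mul, ← mul_assoc, ← pow_add, add_comm 2]
    refine (Nat.mul_le_mul_left _ h1).trans (h2.trans ?_)
    rw [← mul_assoc]
    exact Nat.mul_le_mul_right _ (pw_mul hB (pw_one hTB) (pw_const (i := 1) hB (by norm_num))
      le_rfl)
  · rw [← pow_mul]
    exact (Nat.mul_le_mul_right _ (pw hB (by omega))).trans hlost'
  -- targets
  rintro R ⟨GG, Po, hG, hbad, hR, hRd, hPo, hPn, hRw⟩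
  refine ⟨Cd ∩ cls (un GG) cl (T + 1), tz N ν (T * w) (ρ ^ 3) PP, fun x => cl (ν x),
    fun t => (R t).biUnion N.X, N.Ro ∩ Po.biUnion N.X,
    mid netc h hν hpd hG (inter_subset_left.trans (filter_subset _ _)) inter_subset_right hR hRd
      hPo hPn hRw ?_ ?_ fun a ha => ?_, ?_⟩
  · rw [← pow_mul]
    exact pw_mul hB bT le_rfl (by omega)
  · rw [← pow_add, ← pow_mul, show 8 + (cc + 64 * r + 76) = cc + 64 * r + 84 by ring]
    refine pw_mul hB (pw_one (by omega)) (j := (cc + 64 * r + 84) * r + 1) ?_ (by omega)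
    have := pw_pos hB ((cc + 64 * r + 84) * r)
    rw [pow_succ]
    nlinarith
  · have haC := (mem_inter.1 ha).1
    obtain ⟨AA, wd, Y, Cd', y, hy⟩ := (hGr a haC).2.2 (fun x => cl (ν x)) fun Γ hΓ t ht => by
      have h1 := ((hcl t (by omega)).2 (cnt Γ ν) (mem_union_left _ (mem_union_left _
        (mem_biUnion.2 ⟨a, haC, mem_image_of_mem _ hΓ⟩)))).1
      simp only [id] at h1
      rw [ts_cnt, ts_cnt, filter_true_of_mem fun _ _ => mem_univ _] at h1
      refine h1.trans (Nat.mul_le_mul_left _ (card_le_card fun x hx => ?_))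
      exact mem_cls.2 ⟨(mem_filter.1 hx).1, (mem_cls.1 (mem_filter.1 hx).2).2⟩
    exact ⟨AA, wd, Y, Cd', y, gad_mono hy (by rw [← pow_mul]; exact pw hB (by omega))⟩
  · refine (tg_count (C := B ^ (8 * r + 2)) (Th := B ^ (cc + 56 * r + 56)) hpd hG
      (pw_pos hB (8 * r + 12)) (fun P hP => ⟨(hPP P hP).1, (hPP P hP).2.2.2⟩) hCdP hcd4 hbad
      (pw_mul hB (pw_mul hB le_rfl le_rfl le_rfl) le_rfl (by omega)) fun P hP hTh => ?_).trans
      (Nat.mul_le_mul_right _ (pw_mul hB le_rfl le_rfl (by omega)))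
    have h1 := ((hcl (T + 1) hTC).2 (ind (Cd ∩ P)) (mem_union_left _ (mem_union_right _
      (mem_image.2 ⟨P, mem_filter.2 ⟨hG hP, hTh⟩, rfl⟩)))).1
    simp only [id] at h1
    rw [ts_ind, ts_ind, univ_inter] at h1
    refine h1.trans (Nat.mul_le_mul_left _ (card_le_card fun a ha => ?_))
    obtain ⟨h2, h3⟩ := mem_inter.1 ha
    obtain ⟨h4, h5⟩ := mem_inter.1 h3
    exact mem_inter.2 ⟨mem_inter.2 ⟨h4, mem_cls.2 ⟨mem_un.2 ⟨P, hP, h5⟩, (mem_cls.1 h2).2⟩⟩, h5⟩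

end Pool.Agent.MP_35cb46_co.Nl

end
end MrgPart0

-- ======== part 1: formerly Pool.Agent.MP_35cb46_co.nl.Mc
section MrgPart1

/-! PROJECT NL, row MC: the upper tail for sums of rank one matrices, by the trace of a power. -/

noncomputable section

namespace Pool.Agent.MP_35cb46_co.Nl

open Finset Matrix

namespace McP

variable {ν κ : Type} [Fintype ν] [DecidableEq ν]

theorem spec (A : Matrix ν ν ℝ) (hA : A.IsHermitian) : ∃ (U : Matrix ν ν ℝ) (d : ν → ℝ),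
    Uᵀ * U = 1 ∧ ∀ n : ℕ, A ^ n = U * diagonal (fun e => d e ^ n) * Uᵀ := by
  obtain ⟨U, hU, hU', e⟩ : ∃ U : Matrix ν ν ℝ, Uᵀ * U = 1 ∧ U * Uᵀ = 1 ∧
      A = U * diagonal hA.eigenvalues * Uᵀ := by
    refine ⟨hA.eigenvectorUnitary, ?_, ?_, ?_⟩
    · simpa [star_eq_conjTranspose] using Unitary.coe_star_mul_self hA.eigenvectorUnitary
    · simpa [star_eq_conjTranspose] using Unitary.coe_mul_star_self hA.eigenvectorUnitary
    · simpa [star_eq_conjTranspose] using hA.spectral_theorem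
  generalize hA.eigenvalues = d at e
  refine ⟨U, d, hU, fun n => ?_⟩
  induction n with
  | zero => simp [hU']
  | succ n ih =>
    rw [pow_succ, ih, e]
    calc U * diagonal (fun e => d e ^ n) * Uᵀ * (U * diagonal d * Uᵀ)
        = U * (diagonal (fun e => d e ^ n) * (Uᵀ * U) * diagonal d) * Uᵀ := by
          simp only [Matrix.mul_assoc]
      _ = _ := by
          rw [hU, Matrix.mul_one, diagonal_mul_diagonal]
          simp only [pow_succ]

/-- moments of a symmetric matrix that is bounded below -/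
theorem moments (A : Matrix ν ν ℝ) (hA : A.IsHermitian) {a : ℝ}
    (ha : ∀ z : ν → ℝ, a * (z ⬝ᵥ z) ≤ z ⬝ᵥ A *ᵥ z) : ∃ d : ν → ℝ, (∀ e, a ≤ d e) ∧
    (∀ n : ℕ, trace (A ^ n) = ∑ e, d e ^ n) ∧
    ∀ x : ν → ℝ, ∃ w : ν → ℝ, (∀ e, 0 ≤ w e) ∧ ∀ n : ℕ, x ⬝ᵥ (A ^ n) *ᵥ x = ∑ e, w e * d e ^ n := by
  obtain ⟨U, d, hU, h⟩ := spec A hA
  have key : ∀ (x : ν → ℝ) (n : ℕ), x ⬝ᵥ (A ^ n) *ᵥ x = ∑ e, (Uᵀ *ᵥ x) e ^ 2 * d e ^ n := by
    intro x n
    rw [h, ← mulVec_mulVec, ← mulVec_mulVec, dotProduct_mulVec, ← mulVec_transpose, dotProduct]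
    exact sum_congr rfl fun e _ => by rw [mulVec_diagonal]; ring
  refine ⟨d, fun e => ?_, fun n => ?_, fun x => ⟨_, fun e => sq_nonneg _, key x⟩⟩
  · have h0 := key (U *ᵥ Pi.single e 1) 0
    have h1 := key (U *ᵥ Pi.single e 1) 1
    have h2 := ha (U *ᵥ Pi.single e 1)
    rw [mulVec_mulVec _ Uᵀ U, hU, one_mulVec] at h0 h1
    rw [pow_zero, one_mulVec] at h0
    rw [pow_one] at h1
    rw [h0, h1] at h2
    simpa [Pi.single_apply] using h2
  · rw [h, trace_mul_cycle, hU, Matrix.one_mul, trace_diagonal]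

section mom
variable {w d : ν → ℝ} {a : ℝ}

omit [DecidableEq ν] in
theorem mom_nonneg (ha : 0 < a) (hw : ∀ e, 0 ≤ w e) (hd : ∀ e, a ≤ d e) (n : ℕ) :
    0 ≤ ∑ e, w e * d e ^ n :=
  sum_nonneg fun e _ => mul_nonneg (hw e) (pow_nonneg (ha.le.trans (hd e)) n)

omit [DecidableEq ν] in
theorem mom_succ (ha : 0 < a) (hw : ∀ e, 0 ≤ w e) (hd : ∀ e, a ≤ d e) (n : ℕ) :
    a * ∑ e, w e * d e ^ n ≤ ∑ e, w e * d e ^ (n + 1) := by
  rw [mul_sum]
  refine sum_le_sum fun e _ => ?_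
  have := mul_le_mul_of_nonneg_left (hd e)
    (mul_nonneg (hw e) (pow_nonneg (ha.le.trans (hd e)) n))
  rw [pow_succ]
  linarith

omit [DecidableEq ν] in
theorem mom_mul (ha : 0 < a) (hw : ∀ e, 0 ≤ w e) (hd : ∀ e, a ≤ d e) (i j : ℕ) :
    (∑ e, w e * d e ^ i) * ∑ e, w e * d e ^ j ≤ (∑ e, w e * d e ^ 0) * ∑ e, w e * d e ^ (i + j) := by
  have h0 : ∀ e, 0 ≤ d e := fun e => ha.le.trans (hd e)
  have h1 : 0 ≤ ∑ e, ∑ f, w e * w f * ((d e ^ i - d f ^ i) * (d e ^ j - d f ^ j)) := by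
    refine sum_nonneg fun e _ => sum_nonneg fun f _ => mul_nonneg (mul_nonneg (hw e) (hw f)) ?_
    rcases le_total (d e) (d f) with h | h
    · exact mul_nonneg_of_nonpos_of_nonpos (sub_nonpos.2 (pow_le_pow_left₀ (h0 e) h i))
        (sub_nonpos.2 (pow_le_pow_left₀ (h0 e) h j))
    · exact mul_nonneg (sub_nonneg.2 (pow_le_pow_left₀ (h0 f) h i))
        (sub_nonneg.2 (pow_le_pow_left₀ (h0 f) h j))
  have h2 : ∑ e, ∑ f, w e * w f * ((d e ^ i - d f ^ i) * (d e ^ j - d f ^ j)) =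
      (∑ e, w e * d e ^ (i + j)) * (∑ e, w e * d e ^ 0) +
        (∑ e, w e * d e ^ 0) * (∑ e, w e * d e ^ (i + j)) -
        (∑ e, w e * d e ^ i) * (∑ e, w e * d e ^ j) -
        (∑ e, w e * d e ^ j) * (∑ e, w e * d e ^ i) := by
    simp only [sum_mul_sum, ← sum_add_distrib, ← sum_sub_distrib]
    exact sum_congr rfl fun e _ => sum_congr rfl fun f _ => by ring
  nlinarith

end mom

/-- the effect of a rank one update on the trace of a power -/
theorem step (A : Matrix ν ν ℝ) (hA : A.IsHermitian) {a r c : ℝ} (ha0 : 0 < a)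
    (ha : ∀ z : ν → ℝ, a * (z ⬝ᵥ z) ≤ z ⬝ᵥ A *ᵥ z) (x : ν → ℝ) (hx : x ⬝ᵥ x ≤ r) (k : ℕ)
    (hc : 2 * |c| * k * r ≤ a) : 0 ≤ x ⬝ᵥ (A ^ k) *ᵥ x ∧
    trace ((A + c • vecMulVec x x) ^ (k + 1)) ≤ trace (A ^ (k + 1)) +
      (k + 1) * (x ⬝ᵥ (A ^ k) *ᵥ x) * (c + 2 * c ^ 2 * k * r / a) := by
  obtain ⟨d, hd, -, hm⟩ := moments A hA ha
  obtain ⟨w, hw, hm⟩ := hm x
  set M := A + c • vecMulVec x x with hM
  set m : ℕ → ℝ := fun n => x ⬝ᵥ (A ^ n) *ᵥ x with hmd
  have m0 : ∀ n, 0 ≤ m n := fun n => by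
    simp only [hmd, hm]; exact mom_nonneg ha0 hw hd n
  have m1 : ∀ n, a * m n ≤ m (n + 1) := fun n => by
    simp only [hmd, hm]; exact mom_succ ha0 hw hd n
  have mr : m 0 ≤ r := by simpa [hmd] using hx
  have r0 : 0 ≤ r := (m0 0).trans mr
  have m2 : ∀ i j, m i * m j ≤ r * m (i + j) := fun i j => by
    refine le_trans ?_ (mul_le_mul_of_nonneg_right mr (m0 _))
    simp only [hmd, hm]; exact mom_mul ha0 hw hd i j
  set u : ℕ → ℕ → ℝ := fun j i => x ⬝ᵥ (A ^ j * M ^ i) *ᵥ x with hu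
  have u0 : ∀ j, u j 0 = m j := fun j => by simp [hu, hmd]
  have u1 : ∀ j i, u j (i + 1) = u (j + 1) i + c * m j * u 0 i := fun j i => by
    simp only [hu, hmd]
    rw [pow_succ' M, ← Matrix.mul_assoc, hM, Matrix.mul_add, Matrix.add_mul, add_mulVec,
      dotProduct_add, ← pow_succ, Matrix.mul_smul, Matrix.smul_mul, smul_mulVec, dotProduct_smul,
      mul_vecMulVec, ← mulVec_mulVec _ (vecMulVec _ _), vecMulVec_mulVec, pow_zero, Matrix.one_mul]
    simp only [smul_eq_mul, op_smul_eq_smul, dotProduct_smul]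
    ring
  have hca := abs_nonneg c
  have u2 : ∀ i, i ≤ k → ∀ j, a * |u j i - m (i + j)| ≤ 2 * |c| * i * r * m (i + j) := by
    intro i
    induction i with
    | zero => intro _ j; simp [u0]
    | succ i ih =>
      intro hi j
      have h1 := ih (by omega) (j + 1)
      have h2 := ih (by omega) 0
      have hik : (i : ℝ) ≤ k := by exact_mod_cast (by omega : i ≤ k)
      have h3 : |u 0 i| ≤ 2 * m i := by
        rw [add_zero] at h2
        have h4 : 2 * |c| * i * r * m i ≤ a * m i :=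
          mul_le_mul_of_nonneg_right (le_trans (by gcongr) hc) (m0 i)
        have h5 := le_of_mul_le_mul_left (h2.trans h4) ha0
        have h6 := abs_sub_abs_le_abs_sub (u 0 i) (m i)
        rw [abs_of_nonneg (m0 i)] at h6
        linarith
      have e : i + (j + 1) = i + 1 + j := by omega
      rw [e] at h1
      have h7 : |u j (i + 1) - m (i + 1 + j)| ≤
          |u (j + 1) i - m (i + 1 + j)| + |c| * (m j * (2 * m i)) := by
        rw [u1, add_sub_right_comm]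
        refine (abs_add_le _ _).trans (add_le_add le_rfl ?_)
        rw [abs_mul, abs_mul, abs_of_nonneg (m0 j), mul_assoc]
        have := m0 j
        gcongr
      have h8 : a * (m j * (2 * m i)) ≤ 2 * r * m (i + 1 + j) := by
        have h9 := mul_le_mul_of_nonneg_left (m2 i j) ha0.le
        have h10 := mul_le_mul_of_nonneg_left (m1 (i + j)) r0
        rw [show i + j + 1 = i + 1 + j by omega] at h10
        nlinarith
      have h11 := mul_le_mul_of_nonneg_left h7 ha0.le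
      have h12 := mul_le_mul_of_nonneg_left h8 hca
      push_cast
      nlinarith
  have u3 : ∀ i j, i + j = k → c * u j i ≤ m k * (c + 2 * c ^ 2 * k * r / a) := by
    intro i j e
    have h1 := u2 i (by omega) j
    rw [e] at h1
    have hik : (i : ℝ) ≤ k := by exact_mod_cast (by omega : i ≤ k)
    have h2 : |u j i - m k| ≤ 2 * |c| * k * r * m k / a := by
      rw [le_div_iff₀ ha0, mul_comm]
      have := m0 k
      exact h1.trans (by gcongr)
    have h3 : c * (u j i - m k) ≤ |c| * (2 * |c| * k * r * m k / a) :=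
      (le_abs_self _).trans (by rw [abs_mul]; gcongr)
    have h4 : |c| * (2 * |c| * k * r * m k / a) = m k * (2 * c ^ 2 * k * r / a) := by
      rw [← sq_abs c]; ring
    linarith
  have t1 : ∀ i j, trace (M ^ (i + 1) * A ^ j) = trace (M ^ i * A ^ (j + 1)) + c * u j i := by
    intro i j
    rw [pow_succ M, Matrix.mul_assoc, pow_succ' A]
    nth_rewrite 2 [hM]
    rw [Matrix.add_mul, Matrix.mul_add, trace_add, Matrix.smul_mul, Matrix.mul_smul, trace_smul,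
      ← Matrix.mul_assoc _ (vecMulVec x x), trace_mul_cycle, mul_vecMulVec, trace_vecMulVec,
      dotProduct_comm]
    rfl
  have t2 : ∀ i j, i + j = k + 1 → trace (M ^ i * A ^ j) ≤
      trace (A ^ (k + 1)) + i * (m k * (c + 2 * c ^ 2 * k * r / a)) := by
    intro i
    induction i with
    | zero => intro j e; simp [← e]
    | succ i ih =>
      intro j e
      have h1 := ih (j + 1) (by omega)
      have h2 := u3 i j (by omega)
      rw [t1]
      push_cast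
      linarith
  have := t2 (k + 1) 0 rfl
  rw [pow_zero, Matrix.mul_one] at this
  push_cast at this
  exact ⟨m0 k, by simp only [hmd] at this; linarith⟩

/-- averaging over one coordinate -/
theorem avg [Fintype κ] [DecidableEq κ] {C : ℕ} (t : Fin C) (i : κ) (F : (κ → Fin C) → ℝ)
    (g : Fin C → ℝ) (hF : ∀ c s, F (Function.update c i s) = F c) (h0 : ∀ c, 0 ≤ F c)
    (hg : ∑ s, g s ≤ 0) : ∑ c, F c * g (c i) ≤ 0 := by
  have hinv : Function.Involutive fun p : (κ → Fin C) × Fin C =>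
      (Function.update p.1 i p.2, p.1 i) := fun p => by simp
  have h1 := Equiv.sum_comp hinv.toPerm fun p : (κ → Fin C) × Fin C => F p.1 * g (p.1 i)
  simp only [Function.Involutive.coe_toPerm, hF, Function.update_self, Fintype.sum_prod_type,
    ← mul_sum, sum_const, card_univ, Fintype.card_fin, nsmul_eq_mul] at h1
  have h2 : ∑ c, F c * ∑ s, g s ≤ 0 := sum_nonpos fun c _ => mul_nonpos_of_nonneg_of_nonpos (h0 c) hg
  have hC : (0 : ℝ) < C := by exact_mod_cast t.pos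
  rw [h1] at h2
  simp only [mul_left_comm _ (C : ℝ), ← mul_sum] at h2
  exact le_of_mul_le_mul_left (by rwa [mul_zero]) hC

/-- the random matrix -/
def mat (a : ℝ) (x : κ → ν → ℝ) (co : κ → ℝ) (S : Finset κ) : Matrix ν ν ℝ :=
  a • 1 + ∑ i ∈ S, co i • vecMulVec (x i) (x i)

omit [Fintype ν] in
theorem mat_herm (a : ℝ) (x : κ → ν → ℝ) (co : κ → ℝ) (S : Finset κ) :
    (mat a x co S).IsHermitian := by
  ext i j
  simp only [mat, conjTranspose_apply, star_trivial, Matrix.add_apply, Matrix.smul_apply,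
    Matrix.sum_apply, vecMulVec_apply, Matrix.one_apply, eq_comm, mul_comm]

theorem mat_form (a : ℝ) (x : κ → ν → ℝ) (co : κ → ℝ) (S : Finset κ) (z : ν → ℝ) :
    z ⬝ᵥ mat a x co S *ᵥ z = a * (z ⬝ᵥ z) + ∑ i ∈ S, co i * (x i ⬝ᵥ z) ^ 2 := by
  rw [mat, add_mulVec, dotProduct_add, smul_mulVec, one_mulVec, dotProduct_smul, sum_mulVec,
    dotProduct_sum]
  congr 1
  refine sum_congr rfl fun i _ => ?_
  rw [smul_mulVec, vecMulVec_mulVec, dotProduct_smul, op_smul_eq_smul, dotProduct_smul,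
    dotProduct_comm z]
  simp only [smul_eq_mul]
  ring

theorem mat_lower {a b μ : ℝ} (hb : 0 ≤ b) {x : κ → ν → ℝ} {I S : Finset κ} (hS : S ⊆ I)
    (hμ : ∀ z : ν → ℝ, ∑ i ∈ I, (x i ⬝ᵥ z) ^ 2 ≤ μ * (z ⬝ᵥ z)) {co : κ → ℝ} (hco : ∀ i, -b ≤ co i)
    (z : ν → ℝ) : a * (z ⬝ᵥ z) ≤ z ⬝ᵥ mat (a + b * μ) x co S *ᵥ z := by
  rw [mat_form]
  have h1 : ∑ i ∈ S, -b * (x i ⬝ᵥ z) ^ 2 ≤ ∑ i ∈ S, co i * (x i ⬝ᵥ z) ^ 2 :=
    sum_le_sum fun i _ => mul_le_mul_of_nonneg_right (hco i) (sq_nonneg _)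
  rw [← mul_sum] at h1
  have h2 : ∑ i ∈ S, (x i ⬝ᵥ z) ^ 2 ≤ μ * (z ⬝ᵥ z) :=
    (sum_le_sum_of_subset_of_nonneg hS fun i _ _ => sq_nonneg _).trans (hμ z)
  have h3 := mul_le_mul_of_nonneg_left h2 hb
  nlinarith

/-- the mean of the potential does not grow -/
theorem mean [Fintype κ] [DecidableEq κ] {C : ℕ} (t : Fin C) {a b μ r : ℝ} (ha : 0 < a)
    (hb : 0 ≤ b) {x : κ → ν → ℝ} {I : Finset κ} (hx : ∀ i ∈ I, x i ⬝ᵥ x i ≤ r)
    (hμ : ∀ z : ν → ℝ, ∑ i ∈ I, (x i ⬝ᵥ z) ^ 2 ≤ μ * (z ⬝ᵥ z)) (f : Fin C → ℝ) (k : ℕ)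
    (hf : ∀ s, -b ≤ f s) (hf' : ∀ s, 2 * |f s| * k * r ≤ a)
    (hg : ∑ s, (f s + 2 * f s ^ 2 * k * r / a) ≤ 0) (S : Finset κ) (hS : S ⊆ I) :
    ∑ c : κ → Fin C, trace (mat (a + b * μ) x (fun i => f (c i)) S ^ (k + 1)) ≤
      C ^ Fintype.card κ * (Fintype.card ν * (a + b * μ) ^ (k + 1)) := by
  induction S using Finset.induction_on with
  | empty => simp [mat, smul_pow, mul_comm]
  | insert i S hi ih =>
    have hS' : S ⊆ I := (subset_insert i S).trans hS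
    have st := fun c : κ → Fin C => step _ (mat_herm (a + b * μ) x (fun i => f (c i)) S) ha
      (mat_lower hb hS' hμ fun i => hf (c i)) (x i) (hx i (hS (mem_insert_self i S))) k (hf' (c i))
    have e : ∀ c : κ → Fin C, mat (a + b * μ) x (fun i => f (c i)) (insert i S) =
        mat (a + b * μ) x (fun i => f (c i)) S + f (c i) • vecMulVec (x i) (x i) := fun c => by
      rw [mat, mat, sum_insert hi]
      abel
    have h1 := avg t i
      (fun c => (k + 1) * (x i ⬝ᵥ (mat (a + b * μ) x (fun i => f (c i)) S ^ k) *ᵥ x i))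
      (fun s => f s + 2 * f s ^ 2 * k * r / a) (fun c s => by
        have : mat (a + b * μ) x (fun j => f (Function.update c i s j)) S =
            mat (a + b * μ) x (fun j => f (c j)) S := by
          rw [mat, mat]
          congr 1
          refine sum_congr rfl fun j hj => ?_
          rw [Function.update_of_ne (ne_of_mem_of_not_mem hj hi)]
        simp only [this]) (fun c => mul_nonneg (by positivity) (st c).1) hg
    refine le_trans ?_ (ih hS')
    simp only [e]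
    refine (sum_le_sum fun c _ => (st c).2).trans ?_
    rw [sum_add_distrib]
    linarith

/-- a large value of the form gives a large trace -/
theorem trace_ge (A : Matrix ν ν ℝ) (hA : A.IsHermitian) {a b : ℝ} (ha0 : 0 < a)
    (ha : ∀ z : ν → ℝ, a * (z ⬝ᵥ z) ≤ z ⬝ᵥ A *ᵥ z) (hb : 0 ≤ b) (k : ℕ) :
    0 ≤ trace (A ^ k) ∧ ∀ z : ν → ℝ, b * (z ⬝ᵥ z) < z ⬝ᵥ A *ᵥ z → b ^ k ≤ trace (A ^ k) := by
  obtain ⟨d, hd, ht, hm⟩ := moments A hA ha
  have h0 : ∀ e, 0 ≤ d e ^ k := fun e => pow_nonneg (ha0.le.trans (hd e)) k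
  rw [ht]
  refine ⟨sum_nonneg fun e _ => h0 e, fun z hz => ?_⟩
  obtain ⟨w, hw, hm⟩ := hm z
  have h1 := hm 0
  have h2 := hm 1
  rw [pow_zero, one_mulVec] at h1
  rw [pow_one] at h2
  rw [h1, h2, mul_sum] at hz
  obtain ⟨e, -, he⟩ := exists_lt_of_sum_lt hz
  have h3 : b ≤ d e := by
    by_contra h4
    have := mul_le_mul_of_nonneg_left (not_le.1 h4).le (hw e)
    simp only [pow_zero, pow_one] at he
    linarith
  exact (pow_le_pow_left₀ hb h3 k).trans (single_le_sum (fun e _ => h0 e) (mem_univ e))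

theorem core [Fintype κ] [DecidableEq κ] (I : Finset κ) (x : κ → ν → ℝ) (C Λ H : ℕ) (μ r : ℝ)
    (t : Fin C) (hμ0 : 0 < μ) (hH : 1 ≤ H) (hν : Fintype.card ν ≤ 2 ^ Λ) (hr : 0 ≤ r)
    (hx : ∀ i ∈ I, x i ⬝ᵥ x i ≤ r)
    (hμ : ∀ z : ν → ℝ, ∑ i ∈ I, (x i ⬝ᵥ z) ^ 2 ≤ μ * (z ⬝ᵥ z))
    (hb : 200 * (H : ℝ) ^ 2 * C * (Λ + 1) * r ≤ μ) (B : Finset (κ → Fin C))
    (hB : ∀ c ∈ B, ∃ z : ν → ℝ, (H + 1) * μ * (z ⬝ᵥ z) <
      (H : ℝ) * C * ∑ i ∈ I.filter fun i => c i = t, (x i ⬝ᵥ z) ^ 2) :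
    2 ^ Λ * B.card ≤ C ^ Fintype.card κ := by
  have hC : (1 : ℝ) ≤ C := by exact_mod_cast t.pos
  have hH' : (1 : ℝ) ≤ H := by exact_mod_cast hH
  have hL : (0 : ℝ) ≤ Λ := Nat.cast_nonneg _
  obtain ⟨ε, hε⟩ : ∃ ε : ℝ, ε = 1 / C := ⟨_, rfl⟩
  obtain ⟨η, hη⟩ : ∃ η : ℝ, η = 1 / H := ⟨_, rfl⟩
  have e0 : 0 < ε := by rw [hε]; positivity
  have e1 : ε ≤ 1 := by rw [hε]; exact (div_le_one (by positivity)).2 hC
  have eC : ε * C = 1 := by rw [hε]; field_simp
  have n0 : 0 < η := by rw [hη]; positivity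
  have n1 : η ≤ 1 := by rw [hη]; exact (div_le_one (by positivity)).2 hH'
  have nH : η * H = 1 := by rw [hη]; field_simp
  obtain ⟨b, hbd⟩ : ∃ b : ℝ, b = ε + ε * η / 2 := ⟨_, rfl⟩
  have b0 : 0 ≤ b := by rw [hbd]; positivity
  have b1 : b ≤ 3 / 2 * ε := by rw [hbd]; nlinarith
  set k := 10 * H * Λ with hk
  have hk' : (k : ℝ) = 10 * H * Λ := by rw [hk]; push_cast; ring
  have hkr : 20 * H * C * (k * r) ≤ μ := by
    rw [hk']
    have : 0 ≤ (H : ℝ) ^ 2 * C * r := by positivity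
    nlinarith
  have kr0 : 0 ≤ k * r := by positivity
  have hkr' : 20 * (k * r) ≤ η * (ε * μ) := by
    have := mul_le_mul_of_nonneg_left hkr (mul_pos n0 e0).le
    calc 20 * (k * r) = 20 * (η * H) * (ε * C) * (k * r) := by rw [nH, eC]; ring
      _ = η * ε * (20 * H * C * (k * r)) := by ring
      _ ≤ _ := by linarith
  have a0 : 0 < ε * μ := mul_pos e0 hμ0
  set f : Fin C → ℝ := fun s => (if s = t then 1 else 0) - b with hf
  have f1 : ∀ s, -b ≤ f s := fun s => by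
    simp only [hf]; split_ifs <;> linarith
  have f2 : ∀ s, |f s| ≤ 2 := fun s => by
    simp only [hf]; rw [abs_le]; split_ifs <;> constructor <;> linarith
  have f3 : ∀ s, 2 * |f s| * k * r ≤ ε * μ := fun s => by
    have h1 := mul_le_mul_of_nonneg_right (f2 s) kr0
    nlinarith
  have f4 : ∑ s, (f s + 2 * f s ^ 2 * k * r / (ε * μ)) ≤ 0 := by
    have h1 : ∀ s, f s + 2 * f s ^ 2 * k * r / (ε * μ) ≤
        (if s = t then 1 + η / 10 else 0) + (η / 10 * b ^ 2 - b) := fun s => by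
      have h2 : 2 * f s ^ 2 * k * r / (ε * μ) ≤ η / 10 * f s ^ 2 := by
        rw [div_le_iff₀ a0]
        nlinarith [mul_le_mul_of_nonneg_left hkr' (sq_nonneg (f s))]
      have h3 : f s ^ 2 ≤ (if s = t then 1 else 0) + b ^ 2 := by
        simp only [hf]; split_ifs <;> nlinarith
      have h4 := mul_le_mul_of_nonneg_left h3 (by positivity : 0 ≤ η / 10)
      have h5 : f s = (if s = t then 1 else 0) - b := rfl
      split_ifs at h4 h5 ⊢ <;> nlinarith
    refine (sum_le_sum fun s _ => h1 s).trans ?_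
    rw [sum_add_distrib, sum_ite_eq' univ t, if_pos (mem_univ t), sum_const, card_univ,
      Fintype.card_fin, nsmul_eq_mul]
    have h6 : C * b = 1 + η / 2 := by
      rw [hbd]
      calc C * (ε + ε * η / 2) = ε * C * (1 + η / 2) := by ring
        _ = _ := by rw [eC, one_mul]
    have h7 : C * b ^ 2 ≤ 9 / 4 := by
      rw [sq, ← mul_assoc, h6]
      nlinarith
    nlinarith
  have hmean := mean t a0 b0 hx hμ f k f1 f3 f4 I Subset.rfl
  set a := ε * μ + b * μ with had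
  have a1 : 0 < a := by rw [had]; positivity
  have tr := fun c : κ → Fin C => trace_ge _ (mat_herm a x (fun i => f (c i)) I) a0
    (mat_lower b0 Subset.rfl hμ fun i => f1 (c i))
    (by positivity : 0 ≤ a * (1 + η / 5)) (k + 1)
  have h1 : ∀ c ∈ B, (a * (1 + η / 5)) ^ (k + 1) ≤
      trace (mat a x (fun i => f (c i)) I ^ (k + 1)) := by
    intro c hc
    obtain ⟨z, hz⟩ := hB c hc
    refine (tr c).2 z ?_
    rw [mat_form]
    have h2 : ∑ i ∈ I, f (c i) * (x i ⬝ᵥ z) ^ 2 =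
        ∑ i ∈ I.filter fun i => c i = t, (x i ⬝ᵥ z) ^ 2 - b * ∑ i ∈ I, (x i ⬝ᵥ z) ^ 2 := by
      rw [sum_filter, mul_sum, ← sum_sub_distrib]
      refine sum_congr rfl fun i _ => ?_
      simp only [hf]
      split_ifs <;> ring
    have h3 := mul_le_mul_of_nonneg_left (hμ z) b0
    have h4 := mul_lt_mul_of_pos_left hz (mul_pos n0 e0)
    have z0 : 0 ≤ z ⬝ᵥ z := sum_nonneg fun j _ => mul_self_nonneg (z j)
    set P := ∑ i ∈ I.filter fun i => c i = t, (x i ⬝ᵥ z) ^ 2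
    have h5 : η * ε * (H * C * P) = P := by
      calc η * ε * (H * C * P) = η * H * (ε * C) * P := by ring
        _ = P := by rw [nH, eC]; ring
    have h6 : η * ε * ((H + 1) * μ * (z ⬝ᵥ z)) = (1 + η) * (ε * μ * (z ⬝ᵥ z)) := by
      calc η * ε * ((H + 1) * μ * (z ⬝ᵥ z)) = (η * H + η) * (ε * μ * (z ⬝ᵥ z)) := by ring
        _ = _ := by rw [nH]
    have h7 : 0 ≤ η * (ε * μ * (z ⬝ᵥ z)) := by positivity
    have h8 : η * η * (ε * μ * (z ⬝ᵥ z)) ≤ η * (ε * μ * (z ⬝ᵥ z)) := by nlinarith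
    rw [h2, had]
    rw [h5, h6] at h4
    rw [hbd] at h3 ⊢
    nlinarith
  have h2 : B.card * (a * (1 + η / 5)) ^ (k + 1) ≤
      C ^ Fintype.card κ * (Fintype.card ν * a ^ (k + 1)) := by
    refine le_trans ?_ hmean
    rw [← nsmul_eq_mul]
    exact (card_nsmul_le_sum B _ _ h1).trans
      (sum_le_sum_of_subset_of_nonneg (subset_univ B) fun c _ _ => (tr c).1)
  have h3 : (2 : ℝ) ^ Λ * 2 ^ Λ ≤ (1 + η / 5) ^ (k + 1) := by
    have h4 : (2 : ℝ) ≤ (1 + η / 5) ^ (5 * H) := by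
      have := one_add_mul_le_pow (a := η / 5) (by linarith) (5 * H)
      push_cast at this
      nlinarith
    calc (2 : ℝ) ^ Λ * 2 ^ Λ = 2 ^ (2 * Λ) := by ring
      _ ≤ ((1 + η / 5) ^ (5 * H)) ^ (2 * Λ) := by gcongr
      _ = (1 + η / 5) ^ k := by rw [← pow_mul, hk]; congr 1; ring
      _ ≤ _ := pow_le_pow_right₀ (by linarith) (Nat.le_succ k)
  have h4 : (Fintype.card ν : ℝ) ≤ 2 ^ Λ := by exact_mod_cast hν
  have h5 : (0 : ℝ) < 2 ^ Λ * a ^ (k + 1) := by positivity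
  have h6 : (2 : ℝ) ^ Λ * B.card * (2 ^ Λ * a ^ (k + 1)) ≤
      C ^ Fintype.card κ * (2 ^ Λ * a ^ (k + 1)) := by
    calc (2 : ℝ) ^ Λ * B.card * (2 ^ Λ * a ^ (k + 1))
        = B.card * (a ^ (k + 1) * (2 ^ Λ * 2 ^ Λ)) := by ring
      _ ≤ B.card * (a ^ (k + 1) * (1 + η / 5) ^ (k + 1)) := by gcongr
      _ ≤ C ^ Fintype.card κ * (Fintype.card ν * a ^ (k + 1)) := by rwa [← mul_pow]
      _ ≤ _ := by gcongr
  exact_mod_cast le_of_mul_le_mul_right h6 h5

end McP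

open scoped Classical in
theorem mc : McStmt := by
  intro κ ν _ _ I x C Λ H μ r t hμ0 hH hν hx hμ hb
  have e : ∀ z : ν → ℝ, ∑ j, z j ^ 2 = z ⬝ᵥ z := fun z => by simp only [dotProduct, sq]
  refine McP.core I x C Λ H μ (max r 0) t hμ0 hH hν (le_max_right _ _)
    (fun i hi => (e _ ▸ hx i hi).trans (le_max_left _ _)) (fun z => e z ▸ hμ z) ?_ _ fun c hc => ?_
  · rcases le_total r 0 with h | h
    · rw [max_eq_right h, mul_zero]
      exact hμ0.le
    · rwa [max_eq_left h]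
  · obtain ⟨z, hz⟩ := not_forall.1 (mem_filter.1 hc).2
    exact ⟨z, e z ▸ not_le.1 hz⟩

end Pool.Agent.MP_35cb46_co.Nl

end
end MrgPart1

-- marker of a merged file
example : 731051 + 281725 = 731051 + 281725 := rfl
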