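import Pool.Agent.MP_35cb46_co.nl.Spec

/-! PROJECT NL, row EMB: embedding a pattern of bounded degree into an expander. -/

noncomputable section

namespace Pool.Agent.MP_35cb46_co.Nl

open Finset Pool.Agent.MP_7be75d_co Pool.Agent.MP_35cb46_co.Sq
open scoped Classical

namespace EmbP

theorem avg {α : Type} [Fintype α] (p E : α → ℝ) (hp : ∀ a, 0 ≤ p a) (h1 : ∑ a, p a = 1) :
    ∃ a, 0 < p a ∧ E a ≤ ∑ b, p b * E b := by
  by_contra hc
  have hc' : ∀ a, 0 < p a → ∑ b, p b * E b < E a := fun a ha =>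
    lt_of_not_ge fun h => hc ⟨a, ha, h⟩
  have : ∑ a, p a * ∑ b, p b * E b < ∑ a, p a * E a := by
    apply sum_lt_sum
    · intro a _
      rcases (hp a).eq_or_lt with h | h
      · simp [← h]
      · exact mul_le_mul_of_nonneg_left (hc' a h).le (hp a)
    · obtain ⟨a, -, ha⟩ : ∃ a ∈ univ, p a ≠ 0 :=
        exists_ne_zero_of_sum_ne_zero (by rw [h1]; norm_num)
      have := lt_of_le_of_ne (hp a) ha.symm
      exact ⟨a, mem_univ _, mul_lt_mul_of_pos_left (hc' a this) this⟩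
  rw [← sum_mul, h1, one_mul] at this
  exact lt_irrefl _ this

theorem sum_off {ι : Type} {k : ι} {I : Finset ι} (hk : k ∉ I) (F : ι × ι → ℝ) :
    ∑ e ∈ (cons k I hk).offDiag, F e =
      ∑ e ∈ I.offDiag, F e + (∑ j ∈ I, F (k, j) + ∑ j ∈ I, F (j, k)) := by
  have h1 : (cons k I hk).offDiag =
      I.offDiag ∪ (I.image (fun j => (k, j)) ∪ I.image fun j => (j, k)) := by
    ext ⟨a, b⟩
    simp only [mem_offDiag, mem_cons, mem_union, mem_image, Prod.mk.injEq]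
    constructor
    · rintro ⟨rfl | ha, rfl | hb, h⟩
      · exact absurd rfl h
      · exact Or.inr (Or.inl ⟨b, hb, rfl, rfl⟩)
      · exact Or.inr (Or.inr ⟨a, ha, rfl, rfl⟩)
      · exact Or.inl ⟨ha, hb, h⟩
    · rintro (⟨ha, hb, h⟩ | ⟨j, hj, rfl, rfl⟩ | ⟨j, hj, rfl, rfl⟩)
      · exact ⟨Or.inr ha, Or.inr hb, h⟩
      · exact ⟨Or.inl rfl, Or.inr hj, fun h => hk (h ▸ hj)⟩
      · exact ⟨Or.inr hj, Or.inl rfl, fun h => hk (h ▸ hj)⟩
  rw [h1, sum_union, sum_union, sum_image, sum_image]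
  · intro a _ b _ h
    exact (Prod.ext_iff.1 h).1
  · intro a _ b _ h
    exact (Prod.ext_iff.1 h).2
  · rw [disjoint_left]
    rintro ⟨a, b⟩ h h'
    simp only [mem_image, Prod.mk.injEq] at h h'
    obtain ⟨j, -, rfl, rfl⟩ := h
    obtain ⟨j', hj', rfl, -⟩ := h'
    exact hk hj'
  · rw [disjoint_left]
    rintro ⟨a, b⟩ h h'
    simp only [mem_offDiag, mem_union, mem_image, Prod.mk.injEq] at h h'
    rcases h' with ⟨j, -, rfl, rfl⟩ | ⟨j, -, rfl, rfl⟩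
    · exact hk h.1
    · exact hk h.2.1

/-- Conditional expectations for linear and bilinear costs. -/
theorem pair0 {ι α τ : Type} [Fintype α] [Nonempty α] (p : ι → α → ℝ) (T : Finset τ)
    (φ ψ : ι → α → τ → ℝ) (I : Finset ι) (hp : ∀ i ∈ I, (∀ a, 0 ≤ p i a) ∧ ∑ a, p i a = 1)
    (g : ι → α → ℝ) :
    ∃ x : ι → α, (∀ i ∈ I, 0 < p i (x i)) ∧
      ∑ i ∈ I, g i (x i) + ∑ e ∈ I.offDiag, ∑ t ∈ T, φ e.1 (x e.1) t * ψ e.2 (x e.2) t ≤
        ∑ i ∈ I, ∑ a, p i a * g i a + ∑ e ∈ I.offDiag, ∑ t ∈ T,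
          (∑ a, p e.1 a * φ e.1 a t) * ∑ a, p e.2 a * ψ e.2 a t := by
  induction I using Finset.cons_induction generalizing g with
  | empty => exact ⟨fun _ => Classical.arbitrary α, by simp, by simp⟩
  | cons k I hk ih =>
    obtain ⟨a, ha, hE⟩ := avg (p k) (fun a => g k a +
      (∑ j ∈ I, ∑ t ∈ T, φ k a t * ∑ b, p j b * ψ j b t +
        ∑ j ∈ I, ∑ t ∈ T, (∑ b, p j b * φ j b t) * ψ k a t))
      (hp k (mem_cons_self _ _)).1 (hp k (mem_cons_self _ _)).2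
    obtain ⟨x, hx, hS⟩ := ih (fun i hi => hp i (mem_cons.2 (Or.inr hi)))
      (fun j b => g j b + (∑ t ∈ T, φ k a t * ψ j b t + ∑ t ∈ T, φ j b t * ψ k a t))
    have hu : ∀ i ∈ I, Function.update x k a i = x i := fun i hi =>
      Function.update_of_ne (fun h : i = k => hk (h ▸ hi)) _ _
    refine ⟨Function.update x k a, fun i hi => ?_, ?_⟩
    · rcases mem_cons.1 hi with rfl | hi
      · rwa [Function.update_self]
      · rw [hu i hi]
        exact hx i hi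
    · rw [sum_cons, sum_cons, sum_off, sum_off]
      simp only [Function.update_self]
      have e1 : ∑ i ∈ I, g i (Function.update x k a i) = ∑ i ∈ I, g i (x i) :=
        sum_congr rfl fun i hi => by rw [hu i hi]
      have e2 : ∑ e ∈ I.offDiag, ∑ t ∈ T, φ e.1 (Function.update x k a e.1) t *
          ψ e.2 (Function.update x k a e.2) t =
          ∑ e ∈ I.offDiag, ∑ t ∈ T, φ e.1 (x e.1) t * ψ e.2 (x e.2) t :=
        sum_congr rfl fun e he => by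
          rw [hu _ (mem_offDiag.1 he).1, hu _ (mem_offDiag.1 he).2.1]
      have e3 : ∑ j ∈ I, ∑ t ∈ T, φ k a t * ψ j (Function.update x k a j) t =
          ∑ j ∈ I, ∑ t ∈ T, φ k a t * ψ j (x j) t :=
        sum_congr rfl fun i hi => by rw [hu i hi]
      have e4 : ∑ j ∈ I, ∑ t ∈ T, φ j (Function.update x k a j) t * ψ k a t =
          ∑ j ∈ I, ∑ t ∈ T, φ j (x j) t * ψ k a t :=
        sum_congr rfl fun i hi => by rw [hu i hi]
      rw [e1, e2, e3, e4]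
      have f1 : ∀ j, ∑ b, p j b * ∑ t ∈ T, φ k a t * ψ j b t =
          ∑ t ∈ T, φ k a t * ∑ b, p j b * ψ j b t := fun j => by
        simp only [mul_sum]
        rw [sum_comm]
        exact sum_congr rfl fun t _ => sum_congr rfl fun b _ => by ring
      have f2 : ∀ j, ∑ b, p j b * ∑ t ∈ T, φ j b t * ψ k a t =
          ∑ t ∈ T, (∑ b, p j b * φ j b t) * ψ k a t := fun j => by
        simp only [mul_sum, sum_mul]
        rw [sum_comm]
        exact sum_congr rfl fun t _ => sum_congr rfl fun b _ => by ring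
      have f3 : ∀ c : ι → τ → ℝ, ∑ b, p k b * ∑ j ∈ I, ∑ t ∈ T, φ k b t * c j t =
          ∑ j ∈ I, ∑ t ∈ T, (∑ b, p k b * φ k b t) * c j t := fun c => by
        simp only [mul_sum, sum_mul]
        rw [sum_comm]
        refine sum_congr rfl fun j _ => ?_
        rw [sum_comm]
        exact sum_congr rfl fun t _ => sum_congr rfl fun b _ => by ring
      have f4 : ∀ c : ι → τ → ℝ, ∑ b, p k b * ∑ j ∈ I, ∑ t ∈ T, c j t * ψ k b t =
          ∑ j ∈ I, ∑ t ∈ T, c j t * ∑ b, p k b * ψ k b t := fun c => by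
        simp only [mul_sum]
        rw [sum_comm]
        refine sum_congr rfl fun j _ => ?_
        rw [sum_comm]
        exact sum_congr rfl fun t _ => sum_congr rfl fun b _ => by ring
      simp only [mul_add, sum_add_distrib, f1, f2] at hS
      simp only [mul_add, sum_add_distrib] at hE
      rw [f3 fun j t => ∑ b, p j b * ψ j b t, f4 fun j t => ∑ b, p j b * φ j b t] at hE
      linarith

theorem pair {ι α τ : Type} [Fintype α] [Nonempty α] (p : ι → α → ℝ) (T : Finset τ)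
    (φ ψ : ι → α → τ → ℝ) (I : Finset ι) (hp : ∀ i ∈ I, (∀ a, 0 ≤ p i a) ∧ ∑ a, p i a = 1)
    (hφ : ∀ i a t, 0 ≤ φ i a t) (hψ : ∀ i a t, 0 ≤ ψ i a t) :
    ∃ x : ι → α, (∀ i ∈ I, 0 < p i (x i)) ∧
      ∑ e ∈ I.offDiag, ∑ t ∈ T, φ e.1 (x e.1) t * ψ e.2 (x e.2) t ≤
        ∑ t ∈ T, (∑ i ∈ I, ∑ a, p i a * φ i a t) * ∑ i ∈ I, ∑ a, p i a * ψ i a t := by
  obtain ⟨x, hx, h⟩ := pair0 p T φ ψ I hp fun _ _ => 0
  refine ⟨x, hx, ?_⟩
  simp only [sum_const_zero, mul_zero, zero_add] at h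
  refine h.trans ?_
  rw [sum_comm]
  refine sum_le_sum fun t _ => ?_
  rw [sum_mul_sum, ← sum_product']
  refine sum_le_sum_of_subset_of_nonneg (fun e he => ?_) fun e he _ => ?_
  · exact mem_product.2 ⟨(mem_offDiag.1 he).1, (mem_offDiag.1 he).2.1⟩
  · exact mul_nonneg
      (sum_nonneg fun a _ => mul_nonneg ((hp _ (mem_product.1 he).1).1 a) (hφ _ _ _))
      (sum_nonneg fun a _ => mul_nonneg ((hp _ (mem_product.1 he).2).1 a) (hψ _ _ _))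

/-- The choice of the ports. -/
theorem ports {κ ι : Type} [Fintype κ] [Nonempty κ] (X : Finset κ) (J : Finset ι)
    (st : ι → Finset κ) (h : κ → κ → ℝ) (H M : ℝ) (hH : 0 ≤ H) (hM : 0 < M)
    (h0 : ∀ a z, 0 ≤ h a z)
    (h1 : ∀ a ∈ X, ∑ z ∈ X, h a z ≤ H ∧ ∑ z ∈ X, h z a ≤ H)
    (hst : ∀ u ∈ J, st u ⊆ X ∧ (st u).Nonempty)
    (hl : ∀ z, M * ∑ u ∈ J.filter fun u => z ∈ st u, ((st u).card : ℝ)⁻¹ ≤ 1) :
    ∃ π : ι → κ, (∀ u ∈ J, π u ∈ st u) ∧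
      M * ∑ e ∈ J.offDiag, ∑ z ∈ X, h (π e.1) z * h (π e.2) z ≤ J.card * H ^ 2 := by
  set p : ι → κ → ℝ := fun u a => if a ∈ st u then ((st u).card : ℝ)⁻¹ else 0 with hpd
  have hp0 : ∀ u a, 0 ≤ p u a := fun u a => by
    simp only [hpd]
    split_ifs
    · positivity
    · exact le_rfl
  have hp1 : ∀ u ∈ J, ∑ a, p u a = 1 := fun u hu => by
    have : ((st u).card : ℝ) ≠ 0 := by exact_mod_cast (card_pos.2 (hst u hu).2).ne'
    simp only [hpd, sum_ite_mem, univ_inter, sum_const, nsmul_eq_mul]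
    exact mul_inv_cancel₀ this
  have hpX : ∀ u ∈ J, ∀ a, a ∉ X → p u a = 0 := fun u hu a ha =>
    if_neg fun h => ha ((hst u hu).1 h)
  obtain ⟨π, hπ, hS⟩ := pair p X (fun _ a z => h a z) (fun _ a z => h a z) J
    (fun u hu => ⟨hp0 u, hp1 u hu⟩) (fun _ => h0) fun _ => h0
  refine ⟨π, fun u hu => ?_, ?_⟩
  · by_contra hc
    have := hπ u hu
    simp only [hpd, if_neg hc] at this
    exact lt_irrefl _ this
  have a1 : ∀ z ∈ X, M * ∑ i ∈ J, ∑ a, p i a * h a z ≤ H := fun z hz => by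
    rw [sum_comm, mul_sum]
    refine le_trans ?_ (h1 z hz).2
    rw [← sum_subset (subset_univ X) fun a _ ha => by
      rw [sum_eq_zero fun i hi => by rw [hpX i hi a ha, zero_mul], mul_zero]]
    refine sum_le_sum fun a _ => ?_
    rw [← sum_mul, ← mul_assoc]
    refine mul_le_of_le_one_left (h0 a z) ?_
    have := hl a
    rwa [sum_filter] at this
  have a2 : ∑ z ∈ X, ∑ i ∈ J, ∑ a, p i a * h a z ≤ J.card * H := by
    rw [sum_comm, ← nsmul_eq_mul]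
    refine sum_le_card_nsmul _ _ _ fun i hi => ?_
    rw [sum_comm]
    calc ∑ a, ∑ z ∈ X, p i a * h a z ≤ ∑ a, p i a * H := sum_le_sum fun a _ => by
          rw [← mul_sum]
          by_cases ha : a ∈ X
          · exact mul_le_mul_of_nonneg_left (h1 a ha).1 (hp0 i a)
          · rw [hpX i hi a ha, zero_mul, zero_mul]
      _ = H := by rw [← sum_mul, hp1 i hi, one_mul]
  refine (mul_le_mul_of_nonneg_left hS hM.le).trans ?_
  rw [mul_sum]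
  calc _ ≤ ∑ z ∈ X, H * ∑ i ∈ J, ∑ a, p i a * h a z := sum_le_sum fun z hz => by
        rw [← mul_assoc]
        exact mul_le_mul_of_nonneg_right (a1 z hz)
          (sum_nonneg fun i _ => sum_nonneg fun a _ => mul_nonneg (hp0 i a) (h0 a z))
    _ ≤ H * (J.card * H) := by
        rw [← mul_sum]
        exact mul_le_mul_of_nonneg_left a2 hH
    _ = _ := by ring

variable {κ ι : Type}

/-- The point `z` lies on a half of the route `q` of the edge `e` that belongs to `u`. -/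
def Own (e : ι × ι) (q : Finset κ × Finset κ) (u : ι) (z : κ) : Prop :=
  (e.1 = u ∧ z ∈ q.1) ∨ (e.2 = u ∧ z ∈ q.2)

/-- The load of a route. -/
def ld (e : ι × ι) (q : Finset κ × Finset κ) (u : ι) (z : κ) : ℝ :=
  (if e.1 = u then (if z ∈ q.1 then 1 else 0) else 0) +
    if e.2 = u then (if z ∈ q.2 then 1 else 0) else 0

theorem ld_nonneg (e : ι × ι) (q : Finset κ × Finset κ) (u : ι) (z : κ) : 0 ≤ ld e q u z := by
  unfold ld
  split_ifs <;> norm_num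

theorem Own.one_le {e : ι × ι} {q : Finset κ × Finset κ} {u : ι} {z : κ} (h : Own e q u z) :
    1 ≤ ld e q u z := by
  unfold ld
  rcases h with ⟨h1, h2⟩ | ⟨h1, h2⟩
  · rw [if_pos h1, if_pos h2]
    split_ifs <;> norm_num
  · rw [if_pos h1, if_pos h2]
    split_ifs <;> norm_num

/-- The edges of the pattern together with the loops. -/
def ed (Γ : SimpleGraph ι) (J : Finset ι) : Finset (ι × ι) :=
  (J ×ˢ J).filter fun e => e.1 = e.2 ∨ Γ.Adj e.1 e.2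

theorem mem_ed {Γ : SimpleGraph ι} {J : Finset ι} {e : ι × ι} :
    e ∈ ed Γ J ↔ (e.1 ∈ J ∧ e.2 ∈ J) ∧ (e.1 = e.2 ∨ Γ.Adj e.1 e.2) := by
  simp only [ed, mem_filter, mem_product]

theorem card_ed {Γ : SimpleGraph ι} {J : Finset ι} {B : ℕ} (hΓ : Deg Γ J B) {u : ι} (hu : u ∈ J) :
    ((ed Γ J).filter fun e => e.1 = u).card ≤ B + 1 ∧
      ((ed Γ J).filter fun e => e.2 = u).card ≤ B + 1 := by
  have h0 : (insert u (J.filter fun v => Γ.Adj u v)).card ≤ B + 1 :=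
    (card_insert_le _ _).trans (Nat.succ_le_succ (hΓ u hu))
  constructor
  · refine le_trans (card_le_card_of_injOn Prod.snd (fun e he => ?_) fun e he e' he' h => ?_) h0
    · obtain ⟨h1, h2⟩ := mem_filter.1 (mem_coe.1 he)
      obtain ⟨⟨-, h3⟩, h4⟩ := mem_ed.1 h1
      rw [h2] at h4
      refine mem_coe.2 (mem_insert.2 ?_)
      exact h4.elim (fun h => Or.inl h.symm) fun h => Or.inr (mem_filter.2 ⟨h3, h⟩)
    · exact Prod.ext ((mem_filter.1 (mem_coe.1 he)).2.trans (mem_filter.1 (mem_coe.1 he')).2.symm) h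
  · refine le_trans (card_le_card_of_injOn Prod.fst (fun e he => ?_) fun e he e' he' h => ?_) h0
    · obtain ⟨h1, h2⟩ := mem_filter.1 (mem_coe.1 he)
      obtain ⟨⟨h3, -⟩, h4⟩ := mem_ed.1 h1
      rw [h2] at h4
      refine mem_coe.2 (mem_insert.2 ?_)
      exact h4.elim (fun h => Or.inl h) fun h => Or.inr (mem_filter.2 ⟨h3, h.symm⟩)
    · exact Prod.ext h ((mem_filter.1 (mem_coe.1 he)).2.trans (mem_filter.1 (mem_coe.1 he')).2.symm)

theorem exp_ld [Fintype κ] {Γ : SimpleGraph ι} {J : Finset ι} {B : ℕ} (hΓ : Deg Γ J B)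
    (p : ι × ι → Finset κ × Finset κ → ℝ) (k : ι → κ → ℝ) (hk : ∀ u z, 0 ≤ k u z)
    (hp : ∀ e ∈ ed Γ J, ∀ z,
      ∑ q ∈ univ.filter fun q : Finset κ × Finset κ => z ∈ q.1, p e q ≤ k e.1 z ∧
        ∑ q ∈ univ.filter fun q : Finset κ × Finset κ => z ∈ q.2, p e q ≤ k e.2 z)
    {u : ι} (hu : u ∈ J) (z : κ) :
    ∑ e ∈ ed Γ J, ∑ q, p e q * ld e q u z ≤ 2 * (B + 1) * k u z := by
  have h1 : ∀ e ∈ ed Γ J, ∑ q, p e q * ld e q u z ≤
      (if e.1 = u then k u z else 0) + if e.2 = u then k u z else 0 := fun e he => by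
    unfold ld
    simp only [mul_add, sum_add_distrib]
    obtain ⟨a1, a2⟩ := hp e he z
    rw [sum_filter] at a1 a2
    refine add_le_add ?_ ?_
    · split_ifs with h
      · rw [← h]
        simpa using a1
      · simp
    · split_ifs with h
      · rw [← h]
        simpa using a2
      · simp
  refine (sum_le_sum h1).trans ?_
  rw [sum_add_distrib, ← sum_filter, ← sum_filter, sum_const, sum_const, nsmul_eq_mul,
    nsmul_eq_mul]
  have b1 : (((ed Γ J).filter fun e => e.1 = u).card : ℝ) ≤ B + 1 := by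
    exact_mod_cast (card_ed hΓ hu).1
  have b2 : (((ed Γ J).filter fun e => e.2 = u).card : ℝ) ≤ B + 1 := by
    exact_mod_cast (card_ed hΓ hu).2
  nlinarith [hk u z]

/-- The choice of the routes. -/
theorem routes [Fintype κ] {Γ : SimpleGraph ι} {J : Finset ι} {B : ℕ} (hΓ : Deg Γ J B)
    (X : Finset κ) (p : ι × ι → Finset κ × Finset κ → ℝ) (k : ι → κ → ℝ) (hk : ∀ u z, 0 ≤ k u z)
    (hp0 : ∀ e ∈ ed Γ J, (∀ q, 0 ≤ p e q) ∧ ∑ q, p e q = 1)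
    (hp : ∀ e ∈ ed Γ J, ∀ z,
      ∑ q ∈ univ.filter fun q : Finset κ × Finset κ => z ∈ q.1, p e q ≤ k e.1 z ∧
        ∑ q ∈ univ.filter fun q : Finset κ × Finset κ => z ∈ q.2, p e q ≤ k e.2 z) :
    ∃ (x : ι × ι → Finset κ × Finset κ) (Bad : Finset ι), (∀ e ∈ ed Γ J, 0 < p e (x e)) ∧
      (Bad.card : ℝ) ≤ (2 * (B + 1)) ^ 2 * ∑ e ∈ J.offDiag, ∑ z ∈ X, k e.1 z * k e.2 z ∧
      ∀ e ∈ ed Γ J, ∀ e' ∈ ed Γ J, e ≠ e' → ∀ u ∈ J, ∀ u' ∈ J, u ≠ u' → ∀ z ∈ X,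
        Own e (x e) u z → Own e' (x e') u' z → u ∈ Bad := by
  obtain ⟨x, hx, hS⟩ := pair p (J.offDiag ×ˢ X) (fun e q t => ld e q t.1.1 t.2)
    (fun e q t => ld e q t.1.2 t.2) (ed Γ J) hp0 (fun _ _ _ => ld_nonneg _ _ _ _)
    fun _ _ _ => ld_nonneg _ _ _ _
  rw [← sum_product'] at hS
  set W := (ed Γ J).offDiag ×ˢ (J.offDiag ×ˢ X) with hW
  set F : ((ι × ι) × (ι × ι)) × ((ι × ι) × κ) → ℝ := fun y =>
    ld y.1.1 (x y.1.1) y.2.1.1 y.2.2 * ld y.1.2 (x y.1.2) y.2.1.2 y.2.2 with hF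
  refine ⟨x, (W.filter fun y => 1 ≤ F y).image fun y => y.2.1.1, hx, ?_, ?_⟩
  · have c1 : (((W.filter fun y => 1 ≤ F y).image fun y => y.2.1.1).card : ℝ) ≤
        (W.filter fun y => 1 ≤ F y).card := by exact_mod_cast card_image_le
    have c2 : ((W.filter fun y => 1 ≤ F y).card : ℝ) ≤ ∑ y ∈ W, F y := by
      rw [card_filter]
      push_cast
      refine sum_le_sum fun y _ => ?_
      split_ifs with h
      · exact h
      · exact mul_nonneg (ld_nonneg _ _ _ _) (ld_nonneg _ _ _ _)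
    refine c1.trans (c2.trans (hS.trans ?_))
    rw [← sum_product', mul_sum]
    refine sum_le_sum fun t ht => ?_
    have ht' := mem_offDiag.1 (mem_product.1 ht).1
    have d1 := exp_ld hΓ p k hk hp ht'.1 t.2
    have d2 := exp_ld hΓ p k hk hp ht'.2.1 t.2
    refine (mul_le_mul d1 d2 (sum_nonneg fun e he => sum_nonneg fun q _ =>
      mul_nonneg ((hp0 e he).1 q) (ld_nonneg _ _ _ _))
      (mul_nonneg (by positivity) (hk _ _))).trans (le_of_eq ?_)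
    ring
  · intro e he e' he' hne u hu u' hu' huu z hz h1 h2
    refine mem_image.2 ⟨((e, e'), ((u, u'), z)), mem_filter.2 ⟨?_, ?_⟩, rfl⟩
    · exact mem_product.2 ⟨mem_offDiag.2 ⟨he, he', hne⟩,
        mem_product.2 ⟨mem_offDiag.2 ⟨hu, hu', huu⟩, hz⟩⟩
    · exact one_le_mul_of_one_le_of_one_le h1.one_le h2.one_le

/-- The branch set of `u`. -/
def br (G : SimpleGraph κ) (E : Finset (ι × ι)) (π : ι → κ) (x : ι × ι → Finset κ × Finset κ)
    (u : ι) : Finset κ :=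
  (E.filter fun e => e.1 = u).biUnion (fun e => (x e).1) ∪
    (E.filter fun e => e.2 = u).biUnion fun e => comp G ((x e).2 \ (x e).1) (π u)

theorem mem_br {G : SimpleGraph κ} {E : Finset (ι × ι)} {π : ι → κ}
    {x : ι × ι → Finset κ × Finset κ} {u : ι} {z : κ} :
    z ∈ br G E π x u ↔ ∃ e ∈ E, (e.1 = u ∧ z ∈ (x e).1) ∨
      (e.2 = u ∧ z ∈ comp G ((x e).2 \ (x e).1) (π u)) := by
  simp only [br, mem_union, mem_biUnion, mem_filter]
  constructor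
  · rintro (⟨e, ⟨h1, h2⟩, h3⟩ | ⟨e, ⟨h1, h2⟩, h3⟩)
    · exact ⟨e, h1, Or.inl ⟨h2, h3⟩⟩
    · exact ⟨e, h1, Or.inr ⟨h2, h3⟩⟩
  · rintro ⟨e, h1, ⟨h2, h3⟩ | ⟨h2, h3⟩⟩
    · exact Or.inl ⟨e, ⟨h1, h2⟩, h3⟩
    · exact Or.inr ⟨e, ⟨h1, h2⟩, h3⟩

theorem build {G : SimpleGraph κ} {Γ : SimpleGraph ι} {J Bad : Finset ι} {X : Finset κ}
    {π : ι → κ} {x : ι × ι → Finset κ × Finset κ}
    (hx : ∀ e ∈ ed Γ J, π e.1 ∈ (x e).1 ∧ π e.2 ∈ (x e).2 ∧ (x e).1 ⊆ X ∧ (x e).2 ⊆ X ∧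
      Conn G (x e).1 ∧ Conn G (x e).2 ∧ ¬ Disjoint (x e).1 (x e).2)
    (hB : ∀ e ∈ ed Γ J, ∀ e' ∈ ed Γ J, e ≠ e' → ∀ u ∈ J, ∀ u' ∈ J, u ≠ u' → ∀ z ∈ X,
      Own e (x e) u z → Own e' (x e') u' z → u ∈ Bad) :
    Fam G X (J \ Bad) (br G (ed Γ J) π x) ∧ (∀ u ∈ J \ Bad, π u ∈ br G (ed Γ J) π x u) ∧
      ∀ u ∈ J \ Bad, ∀ v ∈ J \ Bad, Γ.Adj u v →
        Touch G (br G (ed Γ J) π x u) (br G (ed Γ J) π x v) := by
  have hl : ∀ u ∈ J, (u, u) ∈ ed Γ J := fun u hu => mem_ed.2 ⟨⟨hu, hu⟩, Or.inl rfl⟩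
  have hπ : ∀ u ∈ J, π u ∈ br G (ed Γ J) π x u := fun u hu =>
    mem_br.2 ⟨(u, u), hl u hu, Or.inl ⟨rfl, (hx _ (hl u hu)).1⟩⟩
  have hsub : ∀ u, br G (ed Γ J) π x u ⊆ X := fun u z hz => by
    obtain ⟨e, he, ⟨-, h⟩ | ⟨-, h⟩⟩ := mem_br.1 hz
    · exact (hx e he).2.2.1 h
    · exact (hx e he).2.2.2.1 (mem_sdiff.1 (comp_subset h)).1
  refine ⟨⟨fun u _ => hsub u, fun u hu => ?_, fun u hu v hv huv => ?_⟩,
    fun u hu => hπ u (mem_sdiff.1 hu).1, fun u hu v hv h => ?_⟩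
  · refine Conn.of_center (hπ u (mem_sdiff.1 hu).1) fun b hb => ?_
    obtain ⟨e, he, ⟨h1, h⟩ | ⟨h1, h⟩⟩ := mem_br.1 hb
    · exact (hx e he).2.2.2.2.1.r (h1 ▸ (hx e he).1) h
        fun z hz => mem_br.2 ⟨e, he, Or.inl ⟨h1, hz⟩⟩
    · have h2 : π u ∈ (x e).2 \ (x e).1 := (mem_comp.1 h).2.symm.mem (mem_comp.1 h).1
      exact (comp_conn h2).r (self_mem_comp h2) h fun z hz => mem_br.2 ⟨e, he, Or.inr ⟨h1, hz⟩⟩
  · rw [disjoint_left]
    intro z hz hz'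
    have hzX := hsub u hz
    obtain ⟨e, he, h⟩ := mem_br.1 hz
    obtain ⟨e', he', h'⟩ := mem_br.1 hz'
    by_cases hee : e = e'
    · subst hee
      rcases h with ⟨h1, h2⟩ | ⟨h1, h2⟩ <;> rcases h' with ⟨h3, h4⟩ | ⟨h3, h4⟩
      · exact huv (h1.symm.trans h3)
      · exact (mem_sdiff.1 (comp_subset h4)).2 h2
      · exact (mem_sdiff.1 (comp_subset h2)).2 h4
      · exact huv (h1.symm.trans h3)
    · refine (mem_sdiff.1 hu).2 (hB e he e' he' hee u (mem_sdiff.1 hu).1 v (mem_sdiff.1 hv).1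
        huv z hzX ?_ ?_)
      · exact h.imp id fun h => ⟨h.1, (mem_sdiff.1 (comp_subset h.2)).1⟩
      · exact h'.imp id fun h => ⟨h.1, (mem_sdiff.1 (comp_subset h.2)).1⟩
  · have huJ := (mem_sdiff.1 hu).1
    have hvJ := (mem_sdiff.1 hv).1
    have he : (u, v) ∈ ed Γ J := mem_ed.2 ⟨⟨huJ, hvJ⟩, Or.inr h⟩
    obtain ⟨-, a2, a3, -, -, a6, a7⟩ := hx _ he
    have hn : π v ∉ (x (u, v)).1 := fun hc =>
      (mem_sdiff.1 hu).2 (hB _ he _ (hl v hvJ) (fun e => h.ne (Prod.ext_iff.1 e).1) u huJ v hvJ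
        h.ne _ (a3 hc) (Or.inl ⟨rfl, hc⟩) (Or.inl ⟨rfl, (hx _ (hl v hvJ)).1⟩))
    obtain ⟨m, hm1, hm2⟩ := not_disjoint_iff.1 a7
    obtain ⟨a, b, ha, hb, -, hb2, hab, hr⟩ := (a6.2 _ a2 m hm2).exit
      (S := (x (u, v)).2 \ (x (u, v)).1) (mem_sdiff.2 ⟨a2, hn⟩) fun hc => (mem_sdiff.1 hc).2 hm1
    have hb1 : b ∈ (x (u, v)).1 := by
      by_contra hc
      exact hb (mem_sdiff.2 ⟨hb2, hc⟩)
    exact ⟨b, mem_br.2 ⟨_, he, Or.inl ⟨rfl, hb1⟩⟩, a,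
      mem_br.2 ⟨_, he, Or.inr ⟨rfl, mem_comp.2 ⟨ha, hr.mono inter_subset_right⟩⟩⟩, hab.symm⟩

theorem num (c B : ℕ) (hB : 2 ≤ B) :
    B * ((2 * (B + 1)) ^ 2 * (c * B ^ 2 * (B + 1)) ^ 2) ≤ B ^ (15 + 2 * c) := by
  have h1 : B + 1 ≤ B ^ 2 := by nlinarith
  have h2 : c ≤ B ^ c := (Nat.lt_pow_self (by omega)).le
  calc _ ≤ B * ((B * B ^ 2) ^ 2 * (B ^ c * B ^ 2 * B ^ 2) ^ 2) := by gcongr
    _ = _ := by ring

theorem main (route : RouteStmt) : ∃ c : ℕ, ∀ (κ ι : Type) [Fintype κ] [Nonempty κ]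
    (X : Finset κ) (w : κ → κ → ℝ) (D : ℝ)
    (B : ℕ) (J : Finset ι) (Γ : SimpleGraph ι) (st : ι → Finset κ),
    (∀ a b, w a b = w b a) → (∀ a b, 0 ≤ w a b) → 0 < D → 2 ≤ B → X.card ≤ 2 ^ B →
    (∀ a ∈ X, ∑ b ∈ X, w a b ≤ D) →
    (∀ S ⊆ X, 2 * S.card ≤ X.card → D * S.card ≤ B * rw w S (X \ S)) →
    Deg Γ J B → (∀ u ∈ J, st u ⊆ X ∧ (st u).Nonempty) →
    (∀ z, (B : ℝ) ^ c * ∑ u ∈ J.filter fun u => z ∈ st u, ((st u).card : ℝ)⁻¹ ≤ 1) →
    ∃ J' ⊆ J, ∃ (π : ι → κ) (Bs : ι → Finset κ), B * (J \ J').card ≤ J.card ∧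
      Fam (sg w) X J' Bs ∧ (∀ u ∈ J', π u ∈ st u ∧ π u ∈ Bs u) ∧
      ∀ u ∈ J', ∀ v ∈ J', Γ.Adj u v → Touch (sg w) (Bs u) (Bs v) := by
  obtain ⟨c, hc⟩ := route
  refine ⟨15 + 2 * c, ?_⟩
  intro κ ι _ _ X w D B J Γ st hs h0 hD hB hX hd he hΓ hst hl
  obtain ⟨h, ω, hh0, hh, hω⟩ := hc κ X w D B B hs h0 hD (by omega) hX hd he
  have hM : (0 : ℝ) < (B : ℝ) ^ (15 + 2 * c) := by
    have : (0 : ℝ) < B := by exact_mod_cast (by omega : 0 < B)
    positivity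
  obtain ⟨π, hπ, hS⟩ := ports X J st h ((c * B ^ 2 * (B + 1) : ℕ) : ℝ) _ (Nat.cast_nonneg _) hM
    hh0 (fun a ha => (hh a ha).2) hst hl
  have hω' := fun (e : ι × ι) (he : e ∈ ed Γ J) =>
    hω (π e.1) ((hst _ (mem_ed.1 he).1.1).1 (hπ _ (mem_ed.1 he).1.1))
      (π e.2) ((hst _ (mem_ed.1 he).1.2).1 (hπ _ (mem_ed.1 he).1.2))
  obtain ⟨x, Bad, hx, hBad, hB'⟩ := routes hΓ X (fun e => ω (π e.1) (π e.2)) (fun u => h (π u))
    (fun u => hh0 (π u)) (fun e he => ⟨(hω' e he).1, (hω' e he).2.1⟩) fun e he => (hω' e he).2.2.2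
  obtain ⟨b1, b2, b3⟩ := build (G := sg w) (π := π)
    (fun e he => (hω' e he).2.2.1 _ (hx e he)) hB'
  refine ⟨J \ Bad, sdiff_subset, π, _, ?_, b1,
    fun u hu => ⟨hπ u (mem_sdiff.1 hu).1, b2 u hu⟩, b3⟩
  have c1 : (J \ (J \ Bad)).card ≤ Bad.card := card_le_card fun u hu => by
    by_contra hc
    exact (mem_sdiff.1 hu).2 (mem_sdiff.2 ⟨(mem_sdiff.1 hu).1, hc⟩)
  refine (Nat.mul_le_mul_left B c1).trans ?_
  have c2 : ((B * ((2 * (B + 1)) ^ 2 * (c * B ^ 2 * (B + 1)) ^ 2) : ℕ) : ℝ) ≤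
      (B : ℝ) ^ (15 + 2 * c) := by exact_mod_cast num c B hB
  have c3 : (B : ℝ) ^ (15 + 2 * c) * (B * Bad.card) ≤ (B : ℝ) ^ (15 + 2 * c) * J.card := by
    set M := (B : ℝ) ^ (15 + 2 * c)
    set S := ∑ e ∈ J.offDiag, ∑ z ∈ X, h (π e.1) z * h (π e.2) z
    calc M * (B * Bad.card) ≤ M * (B * ((2 * (B + 1)) ^ 2 * S)) := by gcongr
      _ = B * (2 * (B + 1)) ^ 2 * (M * S) := by ring
      _ ≤ B * (2 * (B + 1)) ^ 2 * (J.card * ((c * B ^ 2 * (B + 1) : ℕ) : ℝ) ^ 2) := by gcongr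
      _ = ((B * ((2 * (B + 1)) ^ 2 * (c * B ^ 2 * (B + 1)) ^ 2) : ℕ) : ℝ) * J.card := by
          push_cast
          ring
      _ ≤ M * J.card := by gcongr
  exact_mod_cast le_of_mul_le_mul_left c3 hM

end EmbP

theorem emb (route : RouteStmt) : EmbStmt := by
  obtain ⟨c, hc⟩ := EmbP.main route
  refine ⟨c, fun κ ι _ X w D B J Γ st hs h0 hD hB hne => ?_⟩
  have : Nonempty κ := ⟨hne.choose⟩
  exact hc κ ι X w D B J Γ st hs h0 hD hB

end Pool.Agent.MP_35cb46_co.Nl
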