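import Pool.Agent.MP_35cb46_co.nl.DoneA
import Mathlib.Analysis.Complex.ExponentialBounds
import Mathlib.Analysis.SpecialFunctions.Exp
import Mathlib.Algebra.Order.Chebyshev
import Mathlib.Algebra.BigOperators.Field
import Pool.Agent.MP_35cb46_co.nl.Spec

-- ======== part 0: formerly Pool.Agent.MP_35cb46_co.nl.Haven
section MrgPart0

/-! PROJECT NL, row HAVEN: havens from well linked weights, and well linked terminals from
havens. -/

namespace Pool.Agent.MP_35cb46_co.Nl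

open Finset Pool.Agent.MP_7be75d_co Pool.Agent.MP_35cb46_co.Sq
open scoped Classical

namespace HavenP

variable {V : Type} {G : SimpleGraph V}

theorem aw_zero {x y : V} (h : ¬ G.Adj x y) : aw G x y = 0 := by simp [aw, h]

theorem closed_comp (A : Finset V) (v : V) : Closed G A (comp G A v) :=
  ⟨comp_subset, fun _ hx _ hy hxy => comp_closed hx hy hxy⟩

/-- A union of components of `X \ Z` sends few edges to the rest of `X`. -/
theorem closed_cut [Fintype V] (hD : Deg G univ 6) {X Z B : Finset V}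
    (hB : Closed G (X \ Z) B) : cw (aw G) B (X \ B) ≤ Z.card * 6 := by
  have h1 : X \ B ⊆ ((X \ Z) \ B) ∪ Z := by
    intro v hv
    by_cases h : v ∈ Z
    · exact mem_union_right _ h
    · exact mem_union_left _
        (mem_sdiff.2 ⟨mem_sdiff.2 ⟨(mem_sdiff.1 hv).1, h⟩, (mem_sdiff.1 hv).2⟩)
  have h2 : cw (aw G) B ((X \ Z) \ B) = 0 := cw_eq_zero.2 fun a ha b hb =>
    aw_zero fun e => (mem_sdiff.1 hb).2 (hB.2 a ha b (mem_sdiff.1 hb).1 e)
  have h3 : cw (aw G) B Z ≤ Z.card * 6 := by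
    rw [cw_comm (w := aw G) aw_comm]
    exact hD.cw_le (subset_univ _) (subset_univ _)
  have h4 : cw (aw G) B (X \ B) ≤ cw (aw G) B (((X \ Z) \ B) ∪ Z) := cw_mono subset_rfl h1
  have h5 := cw_union_right_le (w := aw G) (A := B) (B := (X \ Z) \ B) (B' := Z)
  omega

theorem big_comp [Fintype V] (hD : Deg G univ 6) {X : Finset V} {τ : V → ℕ} {K k : ℕ}
    (hW : WL (aw G) X τ K) (hτ : ∀ v, τ v ≤ 7) (hK : 1 ≤ K) (hN : 21 * K * (k + 1) ≤ ts τ X)
    {Z : Finset V} (hZ : Z.card < k + 1) :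
    ∃ v ∈ X \ Z, ts τ X < 2 * ts τ (comp G (X \ Z) v) := by
  by_contra hc
  push Not at hc
  obtain ⟨m, hm⟩ : ∃ m, m = K * k := ⟨_, rfl⟩
  have e1 : 21 * K * (k + 1) = 21 * m + 21 * K := by rw [hm]; ring
  have e2 : k ≤ m := hm ▸ Nat.le_mul_of_pos_left _ hK
  have dich : ∀ B, Closed G (X \ Z) B → ts τ B ≤ 6 * m ∨ ts τ X ≤ ts τ B + 6 * m := by
    intro B hB
    have h0 : B ⊆ X := hB.1.trans sdiff_subset
    have h1 := hW B h0
    have h2 : K * cw (aw G) B (X \ B) ≤ 6 * m :=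
      calc _ ≤ K * (k * 6) := Nat.mul_le_mul_left _ ((closed_cut hD hB).trans (by omega))
        _ = 6 * m := by rw [hm]; ring
    have h3 := ts_sdiff (τ := τ) h0
    omega
  obtain ⟨B, ⟨hB, hB'⟩, hmax⟩ := exists_max_of
    (p := fun B => Closed G (X \ Z) B ∧ ts τ B ≤ 6 * m) card (X \ Z).card
    (fun B h => card_le_card h.1.1) ⟨∅, ⟨empty_subset _, by simp⟩, by simp [ts]⟩
  by_cases hs : X \ Z ⊆ B
  · have h1 : X ⊆ B ∪ Z := fun v hv => by
      by_cases h : v ∈ Z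
      · exact mem_union_right _ h
      · exact mem_union_left _ (hs (mem_sdiff.2 ⟨hv, h⟩))
    have h2 := ts_mono (τ := τ) h1
    have h3 := ts_union_le (τ := τ) (A := B) (B := Z)
    have h4 := ts_le_card (τ := τ) (A := Z) fun a _ => hτ a
    omega
  · obtain ⟨v, hv, hvB⟩ := not_subset.1 hs
    have hC := closed_comp (G := G) (X \ Z) v
    have h1 : B.card < (B ∪ comp G (X \ Z) v).card := card_lt_card
      ⟨subset_union_left, fun e => hvB (e (mem_union_right _ (self_mem_comp hv)))⟩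
    have h2 : ¬ ts τ (B ∪ comp G (X \ Z) v) ≤ 6 * m := fun e =>
      absurd (hmax _ ⟨hB.union hC, e⟩) (by omega)
    have h3 := dich _ (hB.union hC)
    have h4 := dich _ hC
    have h5 := hc v hv
    have h6 := ts_union_le (τ := τ) (A := B) (B := comp G (X \ Z) v)
    omega

theorem inside {U A Z : Finset V} {K : ℕ} {β : Finset V → Finset V} (h : Haven G U K β)
    (hZ : Z.card < K) (hA : bd G U A ⊆ Z) {v : V} (hv : v ∈ β Z) (hvA : v ∈ A) :
    β (bd G U A) ⊆ A := by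
  have hb : (bd G U A).card < K := (card_le_card hA).trans_lt hZ
  exact (h.conn _ hb).subset_of_closed (h.mono _ _ hA hZ hv) hvA fun x hx y hy hx' hxy =>
    mem_of_not_mem_bd hx (h.not_mem hb hx') (h.subU hb hy) hxy

theorem card_inter_bd (U W S : Finset V) : (S ∩ bd G U W).card ≤ cw (aw G) S (U \ W) := by
  refine le_trans ?_ (cw_mono (inter_subset_left (s₂ := bd G U W)) subset_rfl)
  rw [cw_eq_sum, card_eq_sum_ones]
  refine sum_le_sum fun v hv => ?_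
  obtain ⟨-, u, hu, hu', huv⟩ := mem_bd.1 (mem_inter.1 hv).2
  rw [cw_aw_single]
  exact card_pos.2 ⟨u, mem_filter.2 ⟨mem_sdiff.2 ⟨hu, hu'⟩, huv⟩⟩

theorem card_bd (U W : Finset V) : (bd G U W).card ≤ cw (aw G) W (U \ W) := by
  have := card_inter_bd (G := G) U W W
  rwa [inter_eq_right.2 bd_subset] at this

theorem cut_le_bd [Fintype V] (hD : Deg G univ 6) (W : Finset V) :
    cw (aw G) W (univ \ W) ≤ (bd G univ W).card * 6 := by
  have h1 := cw_sdiff_left (w := aw G) (B := univ \ W) (bd_subset (G := G) (U := univ) (F := W))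
  have h2 : cw (aw G) (W \ bd G univ W) (univ \ W) = 0 := cw_eq_zero.2 fun a ha b hb =>
    aw_zero fun e => (mem_sdiff.1 hb).2
      (mem_of_not_mem_bd (mem_sdiff.1 ha).1 (mem_sdiff.1 ha).2 (mem_univ b) e)
  have h3 := hD.cw_le (F := bd G univ W) (U' := univ \ W) (subset_univ _) (subset_univ _)
  omega

/-- The cut of a part of `W`. -/
theorem cut_part {U W A : Finset V} :
    cw (aw G) A (U \ A) ≤ cw (aw G) A (U \ W) + cw (aw G) A (W \ A) := by
  refine le_trans (cw_mono subset_rfl fun v hv => ?_) cw_union_right_le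
  by_cases h : v ∈ W
  · exact mem_union_right _ (mem_sdiff.2 ⟨h, (mem_sdiff.1 hv).2⟩)
  · exact mem_union_left _ (mem_sdiff.2 ⟨(mem_sdiff.1 hv).1, h⟩)

theorem bd_part {U W A : Finset V} (hA : A ⊆ W) {v : V} (hv : v ∈ bd G U W) (hvA : v ∈ A) :
    v ∈ bd G U A :=
  let ⟨_, u, hu, hu', huv⟩ := mem_bd.1 hv
  mem_bd.2 ⟨hvA, u, hu, fun e => hu' (hA e), huv⟩

end HavenP

open HavenP

theorem haven : HavenStmt := by
  intro V _ G X τ K k hD hW hτ hK hN
  have h3 : ∀ Z : Finset V, ∃ B : Finset V, Z.card < k + 1 →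
      (Conn G B ∧ B ⊆ X \ Z) ∧ ts τ X < 2 * ts τ B := by
    intro Z
    by_cases hZ : Z.card < k + 1
    · obtain ⟨v, hv, hv'⟩ := big_comp hD hW hτ hK hN hZ
      exact ⟨_, fun _ => ⟨⟨comp_conn hv, comp_subset⟩, hv'⟩⟩
    · exact ⟨∅, fun h => absurd h hZ⟩
  choose γ hγ using h3
  obtain ⟨β, h1, -⟩ := exists_haven (G := G) (U := X) (K := k + 1) γ (fun Z hZ => (hγ Z hZ).1) (by
    intro Z Z' hZZ hZ'
    have hZ : Z.card < k + 1 := (card_le_card hZZ).trans_lt hZ'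
    by_contra hc
    have hd : Disjoint (γ Z) (γ Z') := disjoint_left.2 fun v a b => hc ⟨v, a, b⟩
    have e1 := ts_union (τ := τ) hd
    have e2 := ts_mono (τ := τ) (union_subset ((hγ Z hZ).1.2.trans sdiff_subset)
      ((hγ Z' hZ').1.2.trans sdiff_subset))
    have e3 := (hγ Z hZ).2
    have e4 := (hγ Z' hZ').2
    omega)
  exact ⟨β, h1⟩

theorem term : TermStmt := by
  intro V _ G k hD ⟨β, h⟩
  obtain ⟨W, ⟨hW, hβ⟩, hmin⟩ := exists_min_of
    (p := fun W : Finset V => cw (aw G) W (univ \ W) ≤ 6 * k + 6 ∧ β (bd G univ W) ⊆ W) card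
    ⟨univ, by simp [cw], subset_univ _⟩
  have hb := card_bd (G := G) univ W
  obtain ⟨v, hv⟩ := (h.conn (bd G univ W) (by omega)).1
  refine ⟨W, bd G univ W, bd_subset, ?_, fun A hA => ?_, ?_⟩
  · have hvC : v ∈ comp G W v := self_mem_comp (hβ hv)
    have h0 : cw (aw G) (comp G W v) (W \ comp G W v) = 0 := cw_eq_zero.2 fun a ha b hb =>
      aw_zero fun e => (mem_sdiff.1 hb).2 (comp_closed ha (mem_sdiff.1 hb).1 e)
    have h1 := cut_part (G := G) (U := univ) (W := W) (A := comp G W v)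
    have h2 : cw (aw G) (comp G W v) (univ \ W) ≤ cw (aw G) W (univ \ W) :=
      cw_mono comp_subset subset_rfl
    have h3 : bd G univ (comp G W v) ⊆ bd G univ W := fun x hx => by
      obtain ⟨hx1, u, hu, hu', hxu⟩ := mem_bd.1 hx
      exact mem_bd.2 ⟨comp_subset hx1, u, hu, fun e => hu' (comp_closed hx1 e hxu), hxu⟩
    have h4 := hmin (comp G W v) ⟨by omega, inside h (by omega) h3 hv hvC⟩
    rw [← eq_of_subset_of_card_le (comp_subset (G := G) (v := v)) h4]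
    exact comp_conn (hβ hv)
  · by_contra hc
    rw [ts_ind, ts_ind, one_mul] at hc
    have h1 := card_inter_bd (G := G) univ W A
    have h2 := card_inter_bd (G := G) univ W (W \ A)
    have h3 := cw_sdiff_left (w := aw G) (B := univ \ W) hA
    have h4 := cut_part (G := G) (U := univ) (W := W) (A := A)
    have h5 := cut_part (G := G) (U := univ) (W := W) (A := W \ A)
    rw [Finset.sdiff_sdiff_eq_self hA, cw_comm (w := aw G) aw_comm (W \ A) A] at h5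
    have h6 := card_bd (G := G) univ A
    have h7 := card_bd (G := G) univ (W \ A)
    have h8 := card_union_le (bd G univ A) (bd G univ (W \ A))
    have hZ : (bd G univ A ∪ bd G univ (W \ A)).card < 12 * k + 13 := by omega
    have h9 : bd G univ W ⊆ bd G univ A ∪ bd G univ (W \ A) := fun x hx => by
      by_cases e : x ∈ A
      · exact mem_union_left _ (bd_part hA hx e)
      · exact mem_union_right _ (bd_part sdiff_subset hx (mem_sdiff.2 ⟨bd_subset hx, e⟩))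
    obtain ⟨u, hu⟩ := (h.conn _ hZ).1
    have huW := hβ (h.mono _ _ h9 hZ hu)
    have c1 := card_sdiff_add_card_eq_card hA
    have c2 : (A ∩ bd G univ W).card ≤ A.card := card_le_card inter_subset_left
    have c3 : (W \ A ∩ bd G univ W).card ≤ (W \ A).card := card_le_card inter_subset_left
    by_cases e : u ∈ A
    · have := hmin A ⟨by omega, inside h hZ subset_union_left hu e⟩
      omega
    · have := hmin (W \ A) ⟨by omega, inside h hZ subset_union_right hu (mem_sdiff.2 ⟨huW, e⟩)⟩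
      omega
  · by_contra hc
    have h0 := cut_le_bd hD W
    have h1 := cut_part (G := G) (U := univ) (W := W) (A := W \ {v})
    rw [Finset.sdiff_sdiff_eq_self (singleton_subset_iff.2 (hβ hv)),
      cw_comm (w := aw G) aw_comm (W \ {v}) {v}] at h1
    have h2 : cw (aw G) (W \ {v}) (univ \ W) ≤ cw (aw G) W (univ \ W) :=
      cw_mono sdiff_subset subset_rfl
    have h3 := hD.cw_le (F := {v}) (U' := W \ {v}) (subset_univ _) (subset_univ _)
    rw [card_singleton] at h3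
    have h4 := card_bd (G := G) univ (W \ {v})
    have h5 := card_union_le (bd G univ W ∪ {v}) (bd G univ (W \ {v}))
    have h6 := card_union_le (bd G univ W) {v}
    rw [card_singleton] at h6
    have hZ : (bd G univ W ∪ {v} ∪ bd G univ (W \ {v})).card < 12 * k + 13 := by omega
    obtain ⟨u, hu⟩ := (h.conn _ hZ).1
    have huW := hβ (h.mono _ _ (subset_union_left.trans subset_union_left) hZ hu)
    have huv : u ∉ ({v} : Finset V) := fun e =>
      h.not_mem hZ hu (mem_union_left _ (mem_union_right _ e))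
    have h7 := hmin (W \ {v})
      ⟨by omega, inside h hZ subset_union_right hu (mem_sdiff.2 ⟨huW, huv⟩)⟩
    have c1 := card_sdiff_add_card_eq_card (singleton_subset_iff.2 (hβ hv))
    rw [card_singleton] at c1
    omega

end Pool.Agent.MP_35cb46_co.Nl

end MrgPart0

-- ======== part 1: formerly Pool.Agent.MP_35cb46_co.nl.Openb
section MrgPart1

/-! PROJECT NL, row OPENB: new atoms inside expanders of small clusters. -/

noncomputable section

namespace Pool.Agent.MP_35cb46_co.Nl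

open Finset Pool.Agent.MP_7be75d_co Pool.Agent.MP_35cb46_co.Sq
open scoped Classical

namespace OpenbP

variable {V ι ζ : Type} {G : SimpleGraph V}

lemma sum_cut_le {J : Finset ζ} {S : ζ → Finset V} {W A : Finset V} (hS : ∀ i ∈ J, S i ⊆ W)
    (hd : ∀ i ∈ J, ∀ j ∈ J, i ≠ j → Disjoint (S i) (S j)) :
    ∑ i ∈ J, cw (aw G) (A ∩ S i) (S i \ A) ≤ cw (aw G) A (W \ A) :=
  calc _ ≤ ∑ i ∈ J, cw (aw G) (A ∩ S i) (W \ A) := sum_le_sum fun i hi =>
        cw_mono subset_rfl (sdiff_subset_sdiff (hS i hi) subset_rfl)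
    _ = cw (aw G) (J.biUnion fun i => A ∩ S i) (W \ A) := (cw_biUnion fun i hi j hj e =>
        (hd i hi j hj e).mono inter_subset_right inter_subset_right).symm
    _ ≤ _ := cw_mono (biUnion_subset.2 fun _ _ => inter_subset_left) subset_rfl

lemma one_le_cw {A B : Finset V} {a b : V} (ha : a ∈ A) (hb : b ∈ B) (h : G.Adj a b) :
    1 ≤ cw (aw G) A B := by
  refine Nat.pos_of_ne_zero fun h0 => ?_
  have := cw_eq_zero.1 h0 a ha b hb
  simp [aw, h] at this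

lemma one_le_cut {S A : Finset V} {a b : V} (h : Conn G S) (ha : a ∈ S) (haA : a ∈ A)
    (hb : b ∈ S) (hbA : b ∉ A) : 1 ≤ cw (aw G) (A ∩ S) (S \ A) := by
  obtain ⟨x, y, h1, h2, h3, h4, h5⟩ := h.exit ha haA hb hbA
  exact one_le_cw (mem_inter.2 ⟨h1, h3⟩) (mem_sdiff.2 ⟨h4, h2⟩) h5

/-- Anchors in a set are paid by its boundary and by the outer ends inside it. -/
lemma tr_abs {ZZ : Finset ζ} {R : ζ → Finset V} {J : Finset ι} {W O A : Finset V} {α : V → ℕ}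
    {e o : ι → V} {Q : ι → Finset V} {K L : ℕ} (hK : 1 ≤ K) (hL : 1 ≤ L)
    (r1 : ∀ Z ∈ ZZ, R Z ⊆ W) (r2 : ∀ Z ∈ ZZ, ∀ Z' ∈ ZZ, Z ≠ Z' → Disjoint (R Z) (R Z'))
    (q1 : ∀ k ∈ J, Conn G (Q k) ∧ Q k ⊆ W ∧ e k ∈ Q k ∧ o k ∈ Q k ∧ o k ∈ O)
    (q2 : ∀ k ∈ J, ∀ k' ∈ J, k ≠ k' → Disjoint (Q k) (Q k'))
    (hw : ∀ Z ∈ ZZ, WL (aw G) (R Z) (fun v => max (α v) (ind (J.image e) v)) K)
    (hm : ∀ Z ∈ ZZ, ts α (R Z) ≤ L * (J.filter fun k => e k ∈ R Z).card)
    (hα : ∀ v, α v ≠ 0 → ∃ Z ∈ ZZ, v ∈ R Z) :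
    ts α A ≤ 2 * (L * K) * (cw (aw G) A (W \ A) + (A ∩ O).card) := by
  have inj : ∀ p : ι → V, (∀ k ∈ J, p k ∈ Q k) → Set.InjOn p J := fun p hp k hk k' hk' h => by
    by_contra hne
    exact disjoint_left.1 (q2 k hk k' hk' hne) (hp k hk) (h ▸ hp k' hk')
  obtain ⟨f, hf⟩ : ∃ f : ι → ℕ, ∀ k, f k =
      cw (aw G) (A ∩ Q k) (Q k \ A) + if o k ∈ A then 1 else 0 := ⟨_, fun _ => rfl⟩
  have h1 : ∀ Z ∈ ZZ, ts α (A ∩ R Z) ≤ L * K *
      (cw (aw G) (A ∩ R Z) (R Z \ A) + ∑ k ∈ J.filter fun k => e k ∈ R Z, f k) := by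
    intro Z hZ
    have h2 := hw Z hZ (A ∩ R Z) inter_subset_right
    rw [sdiff_inter_self_right] at h2
    rcases min_le_iff.1 h2 with h3 | h3
    · calc _ ≤ K * cw (aw G) (A ∩ R Z) (R Z \ A) := (ts_le fun _ _ => le_max_left _ _).trans h3
        _ ≤ _ := Nat.mul_le_mul (Nat.le_mul_of_pos_left _ hL) (Nat.le_add_right _ _)
    · have h4 := card_filter_add_card_filter_not (s := J.filter fun k => e k ∈ R Z)
        (fun k => e k ∈ A)
      have h5 : ((J.filter fun k => e k ∈ R Z).filter fun k => e k ∈ A).card ≤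
          ∑ k ∈ J.filter fun k => e k ∈ R Z, f k := by
        rw [card_filter]
        refine sum_le_sum fun k hk => ?_
        obtain ⟨c1, -, c3, c4, -⟩ := q1 k (mem_filter.1 hk).1
        rw [hf]
        split_ifs with i1 i2
        · omega
        · exact one_le_cut c1 c3 i1 c4 i2
        · omega
        · omega
      have h6 : ((J.filter fun k => e k ∈ R Z).filter fun k => ¬ e k ∈ A).card ≤
          ts (ind (J.image e)) (R Z \ A) := by
        rw [ts_ind]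
        refine card_le_card_of_injOn e (fun k hk => ?_)
          ((inj e fun k hk => (q1 k hk).2.2.1).mono fun k hk => ?_)
        · simp only [coe_filter, mem_filter, Set.mem_ofPred_eq] at hk
          exact mem_coe.2 (mem_inter.2 ⟨mem_sdiff.2 ⟨hk.1.2, hk.2⟩, mem_image_of_mem _ hk.1.1⟩)
        · exact (mem_filter.1 (mem_filter.1 (mem_coe.1 hk)).1).1
      have h7 := h6.trans ((ts_le fun _ _ => le_max_right _ _).trans h3)
      have h8 := h5.trans (Nat.le_mul_of_pos_left _ hK)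
      calc _ ≤ L * (J.filter fun k => e k ∈ R Z).card :=
            (ts_mono inter_subset_right).trans (hm Z hZ)
        _ ≤ _ := by
            rw [mul_assoc, mul_add]
            exact Nat.mul_le_mul_left _ (by omega)
  have h2 : ts α A ≤ ∑ Z ∈ ZZ, ts α (A ∩ R Z) := by
    refine le_trans (sum_le_sum_of_ne_zero fun v hv h => ?_) (ts_biUnion_le ZZ fun Z => A ∩ R Z)
    obtain ⟨Z, h3, h4⟩ := hα v h
    exact mem_biUnion.2 ⟨Z, h3, mem_inter.2 ⟨hv, h4⟩⟩
  have h3 : ∑ Z ∈ ZZ, ∑ k ∈ J.filter fun k => e k ∈ R Z, f k ≤ ∑ k ∈ J, f k := by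
    have h4 := ts_biUnion (τ := f) (s := ZZ) (S := fun Z => J.filter fun k => e k ∈ R Z)
      fun Z hZ Z' hZ' hne => disjoint_left.2 fun k i1 i2 =>
        disjoint_left.1 (r2 Z hZ Z' hZ' hne) (mem_filter.1 i1).2 (mem_filter.1 i2).2
    exact h4.ge.trans (ts_mono (biUnion_subset.2 fun _ _ => filter_subset _ _))
  have h4 : ∑ k ∈ J, f k ≤ cw (aw G) A (W \ A) + (A ∩ O).card := by
    simp only [hf]
    rw [sum_add_distrib, ← card_filter]
    refine add_le_add (sum_cut_le (fun k hk => (q1 k hk).2.1) q2)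
      (card_le_card_of_injOn o (fun k hk => ?_)
        ((inj o fun k hk => (q1 k hk).2.2.2.1).mono fun k hk => (mem_filter.1 (mem_coe.1 hk)).1))
    obtain ⟨i1, i2⟩ := mem_filter.1 (mem_coe.1 hk)
    exact mem_coe.2 (mem_inter.2 ⟨i2, (q1 k i1).2.2.2.2⟩)
  have h5 := sum_cut_le (G := G) (A := A) r1 r2
  have h6 := h2.trans (sum_le_sum h1)
  rw [← mul_sum, sum_add_distrib] at h6
  refine h6.trans ?_
  rw [mul_comm 2, mul_assoc (L * K)]
  exact Nat.mul_le_mul_left _ (by omega)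

lemma le_two_mul_div {a d : ℕ} (hd : 0 < d) (h : d ≤ a) : a ≤ 2 * d * (a / d) := by
  have h1 := Nat.lt_mul_div_succ a hd
  have h2 : d * 1 ≤ d * (a / d) := Nat.mul_le_mul_left _ ((Nat.le_div_iff_mul_le hd).2 (by omega))
  have h3 : 2 * d * (a / d) = d * (a / d) + d * (a / d) := by ring
  rw [mul_add] at h1
  omega

/-- The number and the width of the new atoms of one expander. -/
lemma perZ {β : ζ → ℕ} {Q : Finset ζ} {j K x T : ℕ} (hK : 1 ≤ K) (hT : 1 ≤ T) (hx : T ≤ x)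
    (hQ : ∀ u ∈ Q, 2 ^ j ≤ β u ∧ β u < 2 ^ (j + 1)) (hv : x ≤ K * (Q.card * 2 ^ j))
    (hA : ∀ u ∈ Q, 12 * K * T ≤ β u) :
    ∃ AA ⊆ Q, ∃ w, T ≤ w ∧ (∀ u ∈ AA, 6 * K * w ≤ β u) ∧ AA.card * w ≤ x ∧
      x ≤ 12 * K ^ 2 * (AA.card * w) := by
  have h1 : 1 ≤ Q.card := Nat.pos_of_ne_zero fun h => by
    rw [h, zero_mul, mul_zero] at hv
    omega
  obtain ⟨u₀, hu₀⟩ := card_pos.1 h1
  have h2 : 6 * K * T ≤ 2 ^ j := by
    have i1 := (hA u₀ hu₀).trans_lt (hQ u₀ hu₀).2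
    have i2 : 12 * K * T = 2 * (6 * K * T) := by ring
    rw [pow_succ] at i1
    omega
  have h6 : 0 < 6 * K := by omega
  obtain ⟨om, hom⟩ : ∃ om, om = 2 ^ j / (6 * K) := ⟨_, rfl⟩
  have h3 : T ≤ om := by rw [hom, Nat.le_div_iff_mul_le h6, mul_comm]; exact h2
  have h4 : 6 * K * om ≤ 2 ^ j := hom ▸ Nat.mul_div_le _ _
  have h5 : 2 ^ j ≤ 2 * (6 * K) * om :=
    hom ▸ le_two_mul_div h6 ((Nat.le_mul_of_pos_right _ hT).trans h2)
  obtain ⟨w, hw⟩ : ∃ w, w = min om x := ⟨_, rfl⟩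
  have hKK : 1 ≤ K ^ 2 := Nat.one_le_pow _ _ hK
  obtain ⟨AA, a1, a2⟩ := exists_subset_card_eq (s := Q) (n := min Q.card (x / w)) (min_le_left _ _)
  refine ⟨AA, a1, w, by omega, fun u hu => ?_, ?_, ?_⟩
  · exact (Nat.mul_le_mul_left _ (by omega)).trans (h4.trans (hQ u (a1 hu)).1)
  · exact (Nat.mul_le_mul_right _ (a2.le.trans (min_le_right _ _))).trans (Nat.div_mul_le_self _ _)
  · rw [a2]
    rcases le_total Q.card (x / w) with i1 | i1
    · rw [min_eq_left i1]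
      rcases le_total om x with i2 | i2
      · rw [hw, min_eq_left i2]
        calc x ≤ K * (Q.card * (2 * (6 * K) * om)) :=
            hv.trans (Nat.mul_le_mul_left _ (Nat.mul_le_mul_left _ h5))
          _ = _ := by ring
      · rw [hw, min_eq_right i2]
        exact (Nat.le_mul_of_pos_left _ h1).trans (Nat.le_mul_of_pos_left _ (by omega))
    · rw [min_eq_right i1]
      calc x ≤ 2 * w * (x / w) := le_two_mul_div (by omega) (by omega)
        _ = 2 * (x / w * w) := by ring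
        _ ≤ _ := Nat.mul_le_mul_right _ (by omega)

variable {X T₀ SV : Finset V} {I : Finset ι} {s e : ι → V} {Q : ι → Finset V}

lemma e_mem (h : Paths G X T₀ SV I s e Q) {k : ι} (hk : k ∈ I) : e k ∈ Q k ∧ e k ∈ SV :=
  mem_inter.1 (h.en k hk ▸ mem_singleton_self _)

lemma one_le_bw (h : Paths G X T₀ SV I s e Q) {k : ι} (hk : k ∈ I) {u : Finset V} (hu : u ⊆ SV) :
    1 ≤ bw G X T₀ u (e k) := by
  unfold bw
  rcases h.bdy k hk with h1 | ⟨v, h1, h2⟩
  · rw [ind_of_mem h1]; omega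
  · have := one_le_cw (mem_singleton_self _) (sdiff_subset_sdiff subset_rfl hu h1) h2
    omega

/-- The gadget from the data chosen in every expander. -/
lemma build {ω : V → V} {PP : Finset (Finset V)} {ZZ : Finset (Finset (Finset V))}
    {ic : Finset V → ℕ} {col : V → ℕ} {T K K₂ L g ρ : ℕ}
    {AZ : Finset (Finset V) → Finset (Finset V)} {w : Finset (Finset V) → ℕ}
    (hP : Sq.Part G X PP) (hD : PD ZZ) (hZ : ∀ Z ∈ ZZ, Z ⊆ PP) (hO : Outer G X T₀ ω)
    (hQ : Paths G X T₀ (un (un ZZ)) I s e Q) (hK₂ : 1 ≤ K₂) (hL : 1 ≤ L) (hK : 2 * (L * K₂) ≤ K)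
    (a1 : ∀ Z ∈ ZZ, AZ Z ⊆ cls Z ic (T + 1)) (a2 : ∀ Z ∈ ZZ, T + 1 ≤ w Z)
    (a3 : ∀ Z ∈ ZZ, ∀ u ∈ AZ Z, ρ * w Z ≤ g) (a4 : g ≤ K * ∑ Z ∈ ZZ, (AZ Z).card * w Z)
    (a5 : ∀ Z ∈ ZZ, ∀ u ∈ AZ Z, ∀ t ≤ T, ∃ Cd ⊆ u, ∃ y : V → V, Cd.card = w Z ∧
      ∀ x ∈ Cd, y x ∈ un (cls Z ic t) ∧ G.Adj x (y x))
    (a6 : ∀ u ∈ PP, WL (aw G) u (bw G X T₀ u) K)
    (a7 : ∀ Z ∈ ZZ, ∀ t ≤ T, ∀ τ : V → ℕ, (∀ C ∈ cls Z ic t, ∀ v ∈ C, τ v ≤ bw G X T₀ C v) →
      WL (aw G) (un (cls Z ic t)) τ K₂)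
    (a8 : ∀ Z ∈ ZZ, ∀ t ≤ T, (AZ Z).card * w Z ≤
      L * (I.filter fun k => col (s k) = t ∧ e k ∈ un (cls Z ic t)).card) :
    ∃ AA wd Y Cd y, Gad G X T₀ ω col T K g ρ AA wd Y Cd y := by
  have hPD : PD PP := hP.disj
  have hX : ∀ u ∈ PP, u ⊆ X := fun u hu => hP.un ▸ subset_un hu
  have hAZ : ∀ Z ∈ ZZ, ∀ u ∈ AZ Z, u ∈ Z := fun Z h u hu => (mem_cls.1 (a1 Z h hu)).1
  obtain ⟨zo, hzo⟩ : ∃ zo : Finset V → Finset (Finset V), ∀ Z ∈ ZZ, ∀ u ∈ Z, zo u = Z :=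
    ⟨fun u => if h : ∃ Z ∈ ZZ, u ∈ Z then h.choose else ∅, fun Z h1 u h2 => by
      have h : ∃ Z ∈ ZZ, u ∈ Z := ⟨Z, h1, h2⟩
      simp only [dif_pos h]
      exact hD.eq h.choose_spec.1 h1 h.choose_spec.2 h2⟩
  obtain ⟨cl, hcl⟩ : ∃ cl : V → Finset V, ∀ u ∈ PP, ∀ v ∈ u, cl v = u :=
    ⟨fun v => if h : ∃ u ∈ PP, v ∈ u then h.choose else ∅, fun u h1 v h2 => by
      have h : ∃ u ∈ PP, v ∈ u := ⟨u, h1, h2⟩
      simp only [dif_pos h]
      exact hPD.eq h.choose_spec.1 h1 h.choose_spec.2 h2⟩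
  obtain ⟨AA, hAA⟩ : ∃ AA, AA = ZZ.biUnion AZ := ⟨_, rfl⟩
  have mA : ∀ u ∈ AA, zo u ∈ ZZ ∧ u ∈ AZ (zo u) := fun u hu => by
    obtain ⟨Z, h1, h2⟩ := mem_biUnion.1 (hAA ▸ hu)
    rw [hzo Z h1 u (hAZ Z h1 u h2)]
    exact ⟨h1, h2⟩
  have mP : ∀ u ∈ AA, u ∈ PP := fun u hu => hZ _ (mA u hu).1 (hAZ _ (mA u hu).1 u (mA u hu).2)
  have c0 : ∀ (t : ℕ) (u : Finset V), ∃ (Cd : Finset V) (y : V → V), u ∈ AA → t ≤ T →
      Cd ⊆ u ∧ Cd.card = w (zo u) ∧ ∀ x ∈ Cd, y x ∈ un (cls (zo u) ic t) ∧ G.Adj x (y x) := by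
    intro t u
    by_cases h : u ∈ AA ∧ t ≤ T
    · obtain ⟨Cd, h1, y, h2⟩ := a5 _ (mA u h.1).1 u (mA u h.1).2 t h.2
      exact ⟨Cd, y, fun _ _ => ⟨h1, h2⟩⟩
    · exact ⟨∅, id, fun h1 h2 => (h ⟨h1, h2⟩).elim⟩
  choose Cd y hC using c0
  -- routers
  obtain ⟨R, hR⟩ : ∃ R : ℕ → Finset V, ∀ t v, v ∈ R t ↔ ∃ Z ∈ ZZ, v ∈ un (cls Z ic t) :=
    ⟨fun t => ZZ.biUnion fun Z => un (cls Z ic t), fun t v => mem_biUnion⟩
  have key : ∀ Z ∈ ZZ, ∀ Z' ∈ ZZ, ∀ t t' v, v ∈ un (cls Z ic t) → v ∈ un (cls Z' ic t') →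
      Z = Z' ∧ t = t' := by
    intro Z h Z' h' t t' v i1 i2
    obtain ⟨u, j1, j2⟩ := mem_un.1 i1
    obtain ⟨u', j3, j4⟩ := mem_un.1 i2
    obtain ⟨j5, j6⟩ := mem_cls.1 j1
    obtain ⟨j7, j8⟩ := mem_cls.1 j3
    obtain rfl : u = u' := hPD.eq (hZ Z h j5) (hZ Z' h' j7) j2 j4
    exact ⟨hD.eq h h' j5 j7, j6.symm.trans j8⟩
  have rS : ∀ t, R t ⊆ un (un ZZ) := fun t v hv => by
    obtain ⟨Z, h1, h2⟩ := (hR t v).1 hv
    exact un_mono (cls_subset.trans (subset_un h1)) h2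
  have sX : un (un ZZ) ⊆ X := fun v hv => by
    obtain ⟨u, h1, h2⟩ := mem_un.1 hv
    obtain ⟨Z, h3, h4⟩ := mem_un.1 h1
    exact hX u (hZ Z h3 h4) h2
  have rR : ∀ t t' v, v ∈ R t → v ∈ R t' → t = t' := fun t t' v h1 h2 => by
    obtain ⟨Z, h3, h4⟩ := (hR t v).1 h1
    obtain ⟨Z', h5, h6⟩ := (hR t' v).1 h2
    exact (key Z h3 Z' h5 t t' v h4 h6).2
  have uR : ∀ u ∈ AA, u ⊆ R (T + 1) := fun u hu v hv =>
    (hR _ v).2 ⟨_, (mA u hu).1, subset_un (a1 _ (mA u hu).1 (mA u hu).2) hv⟩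
  obtain ⟨J, hJ⟩ : ∃ J : ℕ → Finset ι, ∀ t k, k ∈ J t ↔ k ∈ I ∧ col (s k) = t ∧ e k ∈ R t :=
    ⟨fun t => I.filter fun k => col (s k) = t ∧ e k ∈ R t, fun t k => mem_filter⟩
  obtain ⟨Y, hY⟩ : ∃ Y : ℕ → Finset V, ∀ t v, v ∈ Y t ↔ v ∈ R t ∨ ∃ k ∈ J t, v ∈ Q k :=
    ⟨fun t => R t ∪ (J t).biUnion Q, fun t v => by rw [mem_union, mem_biUnion]⟩
  have rY : ∀ t t' v, v ∈ R t → v ∈ Y t' → t = t' := fun t t' v h1 h2 => by
    rcases (hY t' v).1 h2 with h3 | ⟨k, h3, h4⟩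
    · exact rR t t' v h1 h3
    · obtain ⟨h5, -, h6⟩ := (hJ t' k).1 h3
      have h7 : v ∈ Q k ∩ un (un ZZ) := mem_inter.2 ⟨h4, rS t h1⟩
      rw [hQ.en k h5, mem_singleton] at h7
      exact rR t t' v h1 (h7 ▸ h6)
  have yy : ∀ t ≤ T, ∀ x ∈ AA.biUnion (Cd t), ∃ u ∈ AA, x ∈ Cd t u ∧ x ∈ u ∧
      y t (cl x) x ∈ un (cls (zo u) ic t) ∧ G.Adj x (y t (cl x) x) := fun t ht x hx => by
    obtain ⟨u, h1, h2⟩ := mem_biUnion.1 hx
    obtain ⟨h3, -, h4⟩ := hC t u h1 ht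
    rw [hcl u (mP u h1) x (h3 h2)]
    exact ⟨u, h1, h2, h3 h2, h4 x h2⟩
  have wZ : ∀ Z ∈ ZZ, ts (fun u => w (zo u)) (AZ Z) = (AZ Z).card * w Z := fun Z h => by
    rw [← ts_const]
    exact sum_congr rfl fun u hu => congrArg w (hzo Z h u (hAZ Z h u hu))
  refine ⟨AA, fun u => w (zo u), Y, fun t => AA.biUnion (Cd t), fun t x => y t (cl x) x,
    ⟨fun u hu => hX u (mP u hu), fun u hu => hP.conn u (mP u hu),
      fun u hu u' hu' => hP.disj u (mP u hu) u' (mP u' hu')⟩, fun t _ v hv => ?_,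
    fun t _ t' _ hne => disjoint_left.2 fun v h1 h2 => ?_,
    fun u hu t ht => disjoint_left.2 fun v h1 h2 => ?_, fun t ht x hx => ?_, fun u hu t ht => ?_,
    fun u hu => a2 _ (mA u hu).1, fun u hu => a3 _ (mA u hu).1 u (mA u hu).2, ?_,
    fun t ht x hx => ?_, fun u hu => (a6 u (mP u hu)).tau fun x hx => ?_, fun t ht A _ => ?_⟩
  · rcases (hY t v).1 hv with h | ⟨k, h1, h2⟩
    · exact sX (rS t h)
    · exact hQ.fam.sub k ((hJ t k).1 h1).1 h2
  · rcases (hY t v).1 h1 with h3 | ⟨k, h3, h4⟩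
    · exact hne (rY t t' v h3 h2)
    · rcases (hY t' v).1 h2 with h5 | ⟨k', h5, h6⟩
      · exact hne (rY t' t v h5 h1).symm
      · obtain ⟨i1, i2, -⟩ := (hJ t k).1 h3
        obtain ⟨i3, i4, -⟩ := (hJ t' k').1 h5
        obtain rfl : k = k' := hQ.fam.eq i1 i3 h4 h6
        exact hne (i2.symm.trans i4)
  · have := rY _ t v (uR u hu h1) h2
    omega
  · obtain ⟨u, h1, -, h2, -⟩ := yy t ht x hx
    exact subset_un h1 h2
  · rw [← (hC t u hu ht).2.1]
    congr 1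
    ext x
    rw [mem_inter]
    refine ⟨fun ⟨h1, h2⟩ => ?_, fun h => ⟨mem_biUnion.2 ⟨u, hu, h⟩, (hC t u hu ht).1 h⟩⟩
    obtain ⟨u', h3, h4, h5, -⟩ := yy t ht x h1
    exact hPD.eq (mP u' h3) (mP u hu) h5 h2 ▸ h4
  · rw [hAA, ts_biUnion fun Z h Z' h' hne =>
      (hD Z h Z' h' hne).mono (hAZ Z h) (hAZ Z' h'), sum_congr rfl wZ]
    exact a4
  · obtain ⟨u, h1, -, -, h2, h3⟩ := yy t ht x hx
    exact ⟨mem_union_left _ ((hY t _).2 (Or.inl ((hR t _).2 ⟨_, (mA u h1).1, h2⟩))), h3⟩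
  · by_cases h : x ∈ (range (T + 1)).biUnion fun t => AA.biUnion (Cd t)
    · obtain ⟨t, h1, h2⟩ := mem_biUnion.1 h
      have ht : t ≤ T := Nat.lt_succ_iff.1 (mem_range.1 h1)
      obtain ⟨u', h3, -, -, h4, h5⟩ := yy t ht x h2
      have h6 := (hR t _).2 ⟨_, (mA u' h3).1, h4⟩
      have h7 := one_le_cw (mem_singleton_self x) (mem_sdiff.2 ⟨sX (rS t h6), fun h8 => by
        have := rR _ t _ (uR u hu h8) h6
        omega⟩ : _ ∈ X \ u) h5
      rw [ind_of_mem h, bw]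
      omega
    · rw [ind_of_notMem h]
      exact Nat.zero_le _
  · refine le_trans (tr_abs (ZZ := ZZ) (R := fun Z => un (cls Z ic t)) (J := J t) (e := e)
      (o := fun k => ω (s k)) (Q := fun k => insert (ω (s k)) (Q k)) hK₂ hL
      (fun Z h v hv => mem_union_left _ ((hY t v).2 (Or.inl ((hR t v).2 ⟨Z, h, hv⟩))))
      (fun Z h Z' h' hne => disjoint_left.2 fun v h1 h2 => hne (key Z h Z' h' t t v h1 h2).1)
      (fun k hk => ?_) (fun k hk k' hk' hne => ?_) (fun Z h => a7 Z h t ht _ fun C h1 v h2 => ?_)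
      (fun Z h => ?_) fun v hv => ?_) (Nat.mul_le_mul_right _ hK)
    · obtain ⟨h1, h2, -⟩ := (hJ t k).1 hk
      obtain ⟨h3, h4⟩ := hQ.st k h1
      have h5 : ω (s k) ∈ om T₀ ω col t := mem_image_of_mem _ (mem_cls.2 ⟨h3, h2⟩)
      exact ⟨(hQ.fam.conn k h1).insert h4 (hO.adj _ h3).2, insert_subset (mem_union_right _ h5)
        fun v hv => mem_union_left _ ((hY t v).2 (Or.inr ⟨k, hk, hv⟩)),
        mem_insert_of_mem (e_mem hQ h1).1, mem_insert_self _ _, h5⟩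
    · have h1 := ((hJ t k).1 hk).1
      have h2 := ((hJ t k').1 hk').1
      refine disjoint_left.2 fun v h3 h4 => ?_
      rcases mem_insert.1 h3 with rfl | h3 <;> rcases mem_insert.1 h4 with h4 | h4
      · have h5 := hO.inj (hQ.st k h1).1 (hQ.st k' h2).1 h4
        exact hne (hQ.fam.eq h1 h2 (hQ.st k h1).2 (h5 ▸ (hQ.st k' h2).2))
      · exact (hO.adj _ (hQ.st k h1).1).1 (hQ.fam.sub k' h2 h4)
      · exact (hO.adj _ (hQ.st k' h2).1).1 (h4 ▸ hQ.fam.sub k h1 h3)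
      · exact hne (hQ.fam.eq h1 h2 h3 h4)
    · have h3 : C ⊆ R t := fun v hv => (hR t v).2 ⟨Z, h, subset_un h1 hv⟩
      refine max_le ?_ ?_
      · refine le_trans ?_ (Nat.le_add_right _ _)
        rw [cw_aw_single]
        refine card_le_card fun x hx => ?_
        obtain ⟨h4, h5⟩ := mem_filter.1 hx
        obtain ⟨u, h6, -, h7, -, h8⟩ := yy t ht x h4
        refine mem_filter.2 ⟨mem_sdiff.2 ⟨hX u (mP u h6) h7, fun h9 => ?_⟩, h5 ▸ h8.symm⟩
        have := rR _ t _ (uR u h6 h7) (h3 h9)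
        omega
      · by_cases h4 : v ∈ (J t).image e
        · obtain ⟨k, h5, rfl⟩ := mem_image.1 h4
          exact (ind_le_one _ _).trans (one_le_bw hQ ((hJ t k).1 h5).1 (h3.trans (rS t)))
        · rw [ind_of_notMem h4]
          exact Nat.zero_le _
    · rw [ts_cnt]
      refine le_trans ?_ ((a8 Z h t ht).trans (Nat.mul_le_mul_left _ (card_le_card fun k hk => ?_)))
      · rw [← wZ Z h]
        refine le_trans (card_le_card (t := (AZ Z).biUnion (Cd t)) fun x hx => ?_)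
          (card_biUnion_le.trans (sum_le_sum fun u hu => (hC t u ?_ ht).2.1.le))
        · obtain ⟨h1, h2⟩ := mem_filter.1 hx
          obtain ⟨u, h3, h4, -, h5, -⟩ := yy t ht x h1
          exact mem_biUnion.2 ⟨u, (key _ (mA u h3).1 Z h t t _ h5 h2).1 ▸ (mA u h3).2, h4⟩
        · exact hAA ▸ mem_biUnion.2 ⟨Z, h, hu⟩
      · obtain ⟨h1, h2, h3⟩ := mem_filter.1 hk
        exact mem_filter.2 ⟨(hJ t k).2 ⟨h1, h2, (hR t _).2 ⟨Z, h, h3⟩⟩, h3⟩
    · obtain ⟨x, hx⟩ := card_pos.1 (Nat.pos_of_ne_zero hv)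
      obtain ⟨h1, h2⟩ := mem_filter.1 hx
      obtain ⟨u, h3, -, -, h4, -⟩ := yy t ht x h1
      exact ⟨_, (mA u h3).1, h2 ▸ h4⟩

lemma pw_le {b n i j : ℕ} (hb : 2 ≤ b) (hn : n ≤ 2 ^ i) : n * b ^ j ≤ b ^ (i + j) := by
  rw [pow_add]
  exact Nat.mul_le_mul_right _ (hn.trans (Nat.pow_le_pow_left hb i))

end OpenbP

open OpenbP in
theorem openB (clb : ClbStmt) (colz : ColzStmt) : OpenBStmt := by
  obtain ⟨c, colz⟩ := colz
  refine ⟨2 * c + 12, fun V ι _ G X T₀ ω g₁ A Λ PP sd K τ ZZ I s e Q T C B b x g ρ hd hΛ hC hD hZ hO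
    hQ hΛB hKB hTB hC1 hCB hA hAb hτ hx1 hx hxZ hρ hg col hcol => ?_⟩
  have hB : 2 ≤ B := by omega
  have up : ∀ i j, i ≤ j → B ^ i ≤ B ^ j := fun i j h => Nat.pow_le_pow_right (by omega) h
  have hB2 : 2 * B ≤ B ^ (2 * c + 12) := by
    have := (pw_le (n := 2) (i := 1) (j := 1) hB (by norm_num)).trans
      (up (1 + 1) (2 * c + 12) (by omega))
    rwa [pow_one] at this
  have hBb : B ≤ b := by omega
  have hb : 2 ≤ b := by omega
  have upb : ∀ i j, i ≤ j → b ^ i ≤ b ^ j := fun i j h => Nat.pow_le_pow_right (by omega) h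
  have hcb : B ^ c ≤ b ^ c := Nat.pow_le_pow_left hBb c
  have hc1 : 1 ≤ B ^ c := Nat.one_le_pow _ _ (by omega)
  have hP := hC.part
  have hPD : PD PP := hP.disj
  have hZP : ∀ Z ∈ ZZ, Z ⊆ PP := fun Z h => (hZ Z h).sub
  have hC' : Clu G X T₀ g₁ A B PP :=
    { hC with wl := fun u h => (hC.wl u h).up (Nat.mul_le_mul_left _ hΛB) }
  obtain ⟨c1, -, c3, -, c5⟩ := clb V G X T₀ g₁ A B PP hC' (by omega) (by omega)
  obtain ⟨cl, hcl⟩ : ∃ cl : V → Finset V, ∀ u ∈ PP, ∀ v ∈ u, cl v = u :=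
    ⟨fun v => if h : ∃ u ∈ PP, v ∈ u then h.choose else ∅, fun u h1 v h2 => by
      have h : ∃ u ∈ PP, v ∈ u := ⟨u, h1, h2⟩
      simp only [dif_pos h]
      exact hPD.eq h.choose_spec.1 h1 h.choose_spec.2 h2⟩
  have hcl' : ∀ Z ∈ ZZ, ∀ v ∈ un Z, cl v ∈ Z ∧ v ∈ cl v := fun Z h v hv => by
    obtain ⟨u, h1, h2⟩ := mem_un.1 hv
    rw [hcl u (hZP Z h h1) v h2]
    exact ⟨h1, h2⟩
  obtain ⟨n, hn⟩ : ∃ n : Finset (Finset V) → ℕ, ∀ Z, n Z = (I.filter fun k => e k ∈ un Z).card :=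
    ⟨_, fun _ => rfl⟩
  obtain ⟨IZ, hIZ⟩ : ∃ IZ : Finset (Finset V) × ℕ → Finset ι, ∀ j k, k ∈ IZ j ↔
      k ∈ I ∧ e k ∈ un j.1 ∧ col (s k) = j.2 :=
    ⟨fun j => I.filter fun k => e k ∈ un j.1 ∧ col (s k) = j.2, fun j k => mem_filter⟩
  have n1 : ∀ Z ∈ ZZ, ∀ t ≤ T, n Z ≤ B * (IZ (Z, t)).card := fun Z h t ht => by
    have h1 := hcol _ (mem_image_of_mem _ h) t ht
    rw [card_image_of_injOn (f := s) fun k hk k' hk' h2 => hQ.fam.eq (mem_filter.1 hk).1
      (mem_filter.1 hk').1 (hQ.st k (mem_filter.1 hk).1).2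
      (h2 ▸ (hQ.st k' (mem_filter.1 hk').1).2), ← hn] at h1
    refine h1.trans (Nat.mul_le_mul hCB (le_trans (card_le_card fun v hv => ?_)
      (card_image_le (f := s))))
    obtain ⟨h2, h3⟩ := mem_cls.1 hv
    obtain ⟨k, h4, rfl⟩ := mem_image.1 h2
    exact mem_image_of_mem _ ((hIZ _ k).2 ⟨(mem_filter.1 h4).1, (mem_filter.1 h4).2, h3⟩)
  have n2 : ∀ Z ∈ ZZ, n Z ≤ ts (bo G X T₀) Z := fun Z h => by
    rw [hn]
    refine le_trans (card_le_card (t := Z.biUnion fun u => I.filter fun k => e k ∈ u)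
      fun k hk => ?_) (card_biUnion_le.trans (sum_le_sum fun u hu => ?_))
    · obtain ⟨u, h1, h2⟩ := mem_un.1 (mem_filter.1 hk).2
      exact mem_biUnion.2 ⟨u, h1, mem_filter.2 ⟨(mem_filter.1 hk).1, h2⟩⟩
    · rw [← ts_bw, ← card_image_of_injOn (f := e) fun k hk k' hk' h2 =>
        hQ.fam.eq (mem_filter.1 hk).1 (mem_filter.1 hk').1 (e_mem hQ (mem_filter.1 hk).1).1
          (h2 ▸ (e_mem hQ (mem_filter.1 hk').1).1), ← mul_one (card _)]
      refine (card_le_ts fun v hv => ?_).trans (ts_mono fun v hv => ?_)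
      · obtain ⟨k, h1, rfl⟩ := mem_image.1 hv
        exact one_le_bw hQ (mem_filter.1 h1).1 (subset_un (subset_un h hu))
      · obtain ⟨k, h1, rfl⟩ := mem_image.1 hv
        exact (mem_filter.1 h1).2
  have n3 : I.card ≤ ∑ Z ∈ ZZ, n Z := by
    simp only [hn]
    refine le_trans (card_le_card fun k hk => ?_) card_biUnion_le
    obtain ⟨u, h1, h2⟩ := mem_un.1 (e_mem hQ hk).2
    obtain ⟨Z, h3, h4⟩ := mem_un.1 h1
    exact mem_biUnion.2 ⟨Z, h3, mem_filter.2 ⟨hk, subset_un h4 h2⟩⟩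
  have tu : ∀ j, ts (cnt (IZ j) fun k => cl (e k)) univ = (IZ j).card := fun j => by
    rw [ts_cnt, filter_true_of_mem fun _ _ => mem_univ _]
  obtain ⟨ic, z1, z2, -⟩ := colz V (Finset (Finset V) × ℕ) Unit G X T₀ g₁ A Λ PP sd K τ ZZ
    (ZZ ×ˢ range (T + 1)) (fun j => cnt (IZ j) fun k => cl (e k)) ∅ (fun _ _ _ => 0) (fun _ => ∅) 1
    (T + 2) B 0 (T + 1) hd hΛ hC hD hZ hΛB hKB hTB hB (by omega) (by omega)
    ((up _ _ (by omega)).trans hA) ((Nat.mul_le_mul_right _ (up _ _ (by omega))).trans hτ)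
    (by
      have h1 := hD.card_le fun Z h => card_pos.1 (by have := (hZ Z h).two; omega)
      have h2 : (un ZZ).card ≤ PP.card := card_le_card fun u hu => by
        obtain ⟨Z, h3, h4⟩ := mem_un.1 hu
        exact hZP Z h3 h4
      have h3 := (hPD.card_le fun u h => (hP.conn u h).1).trans (card_le_univ _)
      have h4 : 2 ^ Λ ≤ 2 ^ B := Nat.pow_le_pow_right (by norm_num) hΛB
      have h5 : B < 2 ^ B := Nat.lt_two_pow_self
      rw [card_product, card_range, show 4 = 2 * 2 from rfl, mul_pow]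
      exact Nat.mul_le_mul (by omega) (by omega))
    (fun j hj u => by
      obtain ⟨h1, h2⟩ := mem_product.1 hj
      have h3 : (cnt (IZ j) (fun k => cl (e k)) u) ≤ x := by
        by_cases h : u ∈ j.1
        · refine le_trans (card_le_card fun k hk => ?_) (hx u (subset_un h1 h))
          obtain ⟨h4, h5⟩ := mem_filter.1 hk
          obtain ⟨h6, h7, -⟩ := (hIZ j k).1 h4
          exact mem_filter.2 ⟨h6, h5 ▸ (hcl' _ h1 _ h7).2⟩
        · refine le_trans (card_eq_zero.2 (filter_eq_empty_iff.2 fun k hk h4 => ?_)).le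
            (Nat.zero_le _)
          exact h (h4 ▸ (hcl' _ h1 _ ((hIZ j k).1 hk).2.1).1)
      rw [tu]
      refine Nat.le_of_mul_le_mul_left ?_ (show 0 < B by omega)
      calc B * (B ^ c * cnt (IZ j) (fun k => cl (e k)) u) =
            B ^ (c + 1) * cnt (IZ j) (fun k => cl (e k)) u := by ring
        _ ≤ B ^ (2 * c + 12) * x := Nat.mul_le_mul (up _ _ (by omega)) h3
        _ ≤ _ := (hxZ _ h1).trans (hn _ ▸ n1 _ h1 _ (Nat.lt_succ_iff.1 (mem_range.1 h2))))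
    ⟨le_rfl, by simp, by simp, by simp⟩
  have p0 : ∀ Z, ∃ (AA : Finset (Finset V)) (w : ℕ), Z ∈ ZZ → AA ⊆ cls Z ic (T + 1) ∧ T + 1 ≤ w ∧
      (∀ u ∈ AA, 6 * B ^ c * w ≤ bo G X T₀ u) ∧ AA.card * w ≤ n Z ∧
      n Z ≤ 12 * (B ^ c) ^ 2 * (AA.card * w) := fun Z => by
    by_cases h : Z ∈ ZZ
    · obtain ⟨j, QQ, h1, h2, h3⟩ := (z1 Z h).tg
      have h4 := (c5 sd K τ Z (hZ Z h) (by omega)
        ((Nat.mul_le_mul_right _ (by omega)).trans hτ)).2
      obtain ⟨AA, h5, w, h6⟩ := perZ (T := T + 1) (x := n Z) hc1 (by omega) (by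
        have h5 := (Nat.le_mul_of_pos_right _ hx1).trans (hxZ Z h)
        rw [hn]
        omega) h2 ((n2 Z h).trans h3) fun u hu => by
          refine le_trans ?_ (hA.trans (h4 u (cls_subset (h1 hu))).1)
          calc 12 * B ^ c * (T + 1) ≤ 12 * B ^ c * B := Nat.mul_le_mul_left _ (by omega)
            _ = 12 * B ^ (c + 1) := by ring
            _ ≤ _ := (pw_le (i := 4) hB (by norm_num)).trans (up _ _ (by omega))
      exact ⟨AA, w, fun _ => ⟨h5.trans h1, h6⟩⟩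
    · exact ⟨∅, 0, fun h' => (h h').elim⟩
  choose AZ w hw using p0
  refine build (ic := ic) (AZ := AZ) (w := w) (K₂ := 56 * b ^ (c + 2)) (L := 2 * b ^ 2) hP hD hZP hO hQ
    (by have := Nat.one_le_pow (c + 2) b (by omega); omega)
    (by have := Nat.one_le_pow 2 b (by omega); omega) ?_ (fun Z h => (hw Z h).1)
    (fun Z h => (hw Z h).2.1) (fun Z h u hu => ?_) ?_ (fun Z h u hu t ht => ?_) (fun u hu => ?_)
    (fun Z h t ht τ' hτ' => ?_) fun Z h t ht => ?_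
  · calc 2 * (2 * b ^ 2 * (56 * b ^ (c + 2))) = 224 * b ^ (c + 4) := by ring
      _ ≤ _ := (pw_le (i := 8) hb (by norm_num)).trans (upb _ _ (by omega))
  · have h1 := ((hw Z h).2.2.1 u hu).trans (hC.le u (hZP Z h (cls_subset ((hw Z h).1 hu))))
    exact (Nat.mul_le_mul_left _ ((Nat.le_mul_of_pos_left _ (by omega)).trans h1)).trans hρ
  · have h1 : ∑ Z ∈ ZZ, n Z ≤ 12 * (b ^ c) ^ 2 * ∑ Z ∈ ZZ, (AZ Z).card * w Z := by
      rw [mul_sum]
      exact sum_le_sum fun Z h => (hw Z h).2.2.2.2.trans (Nat.mul_le_mul_right _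
        (Nat.mul_le_mul_left _ (Nat.pow_le_pow_left hcb 2)))
    calc g ≤ b * (12 * (b ^ c) ^ 2 * ∑ Z ∈ ZZ, (AZ Z).card * w Z) :=
        hg.trans (Nat.mul_le_mul_left _ (n3.trans h1))
      _ = 12 * b ^ (2 * c + 1) * ∑ Z ∈ ZZ, (AZ Z).card * w Z := by ring
      _ ≤ _ := Nat.mul_le_mul_right _ ((pw_le (i := 4) hb (by norm_num)).trans (upb _ _ (by omega)))
  · have h1 : u ∈ Z := cls_subset ((hw Z h).1 hu)
    obtain ⟨Cd, h2, y, h3, h4⟩ := c3 hd u (hZP Z h h1) (cls Z ic t) (cls_subset.trans (hZP Z h))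
    have h5 := ((hw Z h).2.2.1 u hu).trans
      (((z1 Z h).deg t (by omega) u h1).trans (Nat.mul_le_mul_left _ h4))
    obtain ⟨Cd', h6, h7⟩ := exists_subset_card_eq (s := Cd) (n := w Z) (by
      refine Nat.le_of_mul_le_mul_left (h5.trans (le_of_eq ?_)) (show 0 < 6 * B ^ c by omega)
      ring)
    exact ⟨Cd', h6.trans h2, y, h7, fun v hv =>
      ⟨un_mono (erase_subset _ _) (h3 v (h6 hv)).1, (h3 v (h6 hv)).2⟩⟩
  · refine (hC'.wl u hu).up ?_
    calc 14 * A * B ≤ 14 * b * b := Nat.mul_le_mul (Nat.mul_le_mul_left _ hAb) hBb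
      _ = 14 * b ^ 2 := by ring
      _ ≤ _ := (pw_le (i := 4) hb (by norm_num)).trans (upb _ _ (by omega))
  · refine (c1 _ (cls_subset.trans (hZP Z h)) _ ((z1 Z h).wl t (by omega)) τ' hτ').up ?_
    calc 28 * A * B * (B ^ c + 1) ≤ 28 * b * b * (2 * b ^ c) :=
        Nat.mul_le_mul (Nat.mul_le_mul (Nat.mul_le_mul_left _ hAb) hBb) (by omega)
      _ = _ := by ring
  · have h1 := z2 t (by omega) (Z, t) (mem_product.2 ⟨h, mem_range.2 (by omega)⟩)
    rw [tu, ts_cnt] at h1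
    have h2 : ((IZ (Z, t)).filter fun k => cl (e k) ∈ cls univ ic t).card ≤
        (I.filter fun k => col (s k) = t ∧ e k ∈ un (cls Z ic t)).card := card_le_card fun k hk => by
      obtain ⟨h3, h4⟩ := mem_filter.1 hk
      obtain ⟨h5, h6, h7⟩ := (hIZ _ k).1 h3
      obtain ⟨h8, h9⟩ := hcl' Z h _ h6
      exact mem_filter.2 ⟨h5, h7, subset_un (mem_cls.2 ⟨h8, (mem_cls.1 h4).2⟩) h9⟩
    calc _ ≤ b * (2 * b * (I.filter fun k => col (s k) = t ∧ e k ∈ un (cls Z ic t)).card) :=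
        (hw Z h).2.2.2.1.trans ((n1 Z h t ht).trans (Nat.mul_le_mul hBb
          (h1.trans (Nat.mul_le_mul (Nat.mul_le_mul_left _ (by omega)) h2))))
      _ = _ := by ring

end Pool.Agent.MP_35cb46_co.Nl

end
end MrgPart1

-- ======== part 2: formerly Pool.Agent.MP_35cb46_co.nl.Partn
section MrgPart2

/-! PROJECT NL, row PARTN: a partition into connected groups of comparable weight. -/

noncomputable section

namespace Pool.Agent.MP_35cb46_co.Nl

open Finset Pool.Agent.MP_7be75d_co Pool.Agent.MP_35cb46_co.Sq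
open scoped Classical

namespace PartnP

/-- The averaging step. -/
theorem avg {ι : Type} (I : Finset ι) (a wt : ι → ℝ) {s δ : ℝ} (ha : ∀ j, 0 ≤ a j)
    (hw : ∀ j, 0 ≤ wt j) (hp : 0 < ∑ j ∈ I, wt j) (hδ : δ ≤ s * ∑ j ∈ I, wt j) :
    ∃ i ∈ I, 0 < wt i ∧ ∑ j ∈ I, a j * Real.exp (-(s * wt j)) +
      a i * Real.exp (-(s * wt i)) * δ ≤ ∑ j ∈ I, a j := by
  by_contra hc
  push Not at hc
  obtain ⟨i0, hI, hi0⟩ : ∃ i ∈ I, 0 < wt i := by
    by_contra h0
    push Not at h0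
    exact absurd (sum_nonpos h0) (not_le.2 hp)
  have h1 : ∑ i ∈ I, wt i * ∑ j ∈ I, a j < ∑ i ∈ I, wt i *
      (∑ j ∈ I, a j * Real.exp (-(s * wt j)) + a i * Real.exp (-(s * wt i)) * δ) := by
    refine sum_lt_sum (fun i hi => ?_) ⟨i0, hI, mul_lt_mul_of_pos_left (hc i0 hI hi0) hi0⟩
    rcases (hw i).eq_or_lt with e | e
    · rw [← e, zero_mul, zero_mul]
    · exact mul_le_mul_of_nonneg_left (hc i hi e).le e.le
  have h2 : ∑ i ∈ I, wt i *
      (∑ j ∈ I, a j * Real.exp (-(s * wt j)) + a i * Real.exp (-(s * wt i)) * δ) =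
      (∑ i ∈ I, wt i) * ∑ j ∈ I, a j * Real.exp (-(s * wt j)) +
        δ * ∑ i ∈ I, wt i * (a i * Real.exp (-(s * wt i))) := by
    rw [sum_mul, mul_sum _ _ δ, ← sum_add_distrib]
    exact sum_congr rfl fun i _ => by ring
  have h3 : 0 ≤ ∑ i ∈ I, wt i * (a i * Real.exp (-(s * wt i))) :=
    sum_nonneg fun i _ => mul_nonneg (hw i) (mul_nonneg (ha i) (Real.exp_pos _).le)
  have h4 : ∑ j ∈ I, a j * Real.exp (-(s * wt j)) +
      s * ∑ i ∈ I, wt i * (a i * Real.exp (-(s * wt i))) ≤ ∑ j ∈ I, a j := by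
    rw [mul_sum, ← sum_add_distrib]
    refine sum_le_sum fun i _ => ?_
    have b1 := Real.add_one_le_exp (s * wt i)
    have b2 : Real.exp (s * wt i) * Real.exp (-(s * wt i)) = 1 := by
      rw [← Real.exp_add, add_neg_cancel, Real.exp_zero]
    have b3 := mul_le_mul_of_nonneg_right b1 (Real.exp_pos (-(s * wt i))).le
    have b4 := mul_le_mul_of_nonneg_left (b3.trans b2.le) (ha i)
    linarith
  rw [h2, ← sum_mul] at h1
  have h5 := mul_le_mul_of_nonneg_right hδ h3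
  have h6 := mul_le_mul_of_nonneg_left h4 hp.le
  linarith

variable {κ ι : Type} {w : κ → κ → ℕ} {β : κ → ℕ} {O R C : Finset κ} {K b : ℕ} {I : Finset ι}
  {P : ι → Finset κ}

theorem adj_of {a c : κ} (h : a ≠ c) (hp : 0 < w a c) : (qg w).Adj a c := by
  rw [qg, SimpleGraph.fromRel_adj]
  exact ⟨h, Or.inl hp⟩

/-- A heavy connected set has a connected subset of weight in `[b, 2 b]`. -/
theorem grow {Γ : SimpleGraph κ} (hb : ∀ u ∈ C, β u ≤ b) (hC : Conn Γ C) (h : b ≤ ts β C) :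
    ∃ T ⊆ C, Conn Γ T ∧ b ≤ ts β T ∧ ts β T ≤ 2 * b := by
  obtain ⟨a, ha⟩ := hC.1
  obtain ⟨T, ⟨h1, h2, h3⟩, hmax⟩ := exists_max_of
    (p := fun T : Finset κ => T ⊆ C ∧ Conn Γ T ∧ ts β T ≤ 2 * b) card C.card
    (fun T hT => card_le_card hT.1)
    ⟨{a}, by simpa using ha, Conn.singleton a, by have := hb a ha; rw [ts_single]; omega⟩
  refine ⟨T, h1, h2, ?_, h3⟩
  by_contra hc
  have hne : ¬ C ⊆ T := fun e => hc (h.trans (ts_mono e))
  obtain ⟨c, hcK, hcT⟩ := not_subset.1 hne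
  obtain ⟨t, ht⟩ := h2.1
  obtain ⟨x, y, hx, hy, -, hyK, hxy⟩ := hC.exit (h1 ht) ht hcK hcT
  have h4 : ts β (insert y T) ≤ 2 * b := by
    have h5 : ts β ({y} ∪ T) ≤ ts β {y} + ts β T := ts_union_le
    have h6 := hb y hyK
    rw [ts_single] at h5
    rw [insert_eq]
    omega
  have := hmax (insert y T) ⟨insert_subset hyK h1, h2.insert hx hxy, h4⟩
  rw [card_insert_of_notMem hy] at this
  omega

/-- The exponential potential. -/
def pot (w : κ → κ → ℕ) (β : κ → ℕ) (K b : ℕ) (I : Finset ι) (P : ι → Finset κ) (R : Finset κ) :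
    ℝ := ∑ i ∈ I, Real.exp ((ts β (P i) + 2 * K * cw w (P i) R : ℕ) / (b : ℝ))

/-- The groups cover everything outside `R`. -/
structure St (w : κ → κ → ℕ) (β : κ → ℕ) (b : ℕ) (O R : Finset κ) (I : Finset ι)
    (P : ι → Finset κ) : Prop where
  fam : Fam (qg w) O I P
  sub : R ⊆ O
  disj : ∀ i ∈ I, Disjoint (P i) R
  cov : ∀ a ∈ O, a ∉ R → ∃ i ∈ I, a ∈ P i
  big : ∀ i ∈ I, b ≤ ts β (P i)

/-- One component is attached without increasing the potential. -/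
theorem step (hw : Sy w) (h : St w β b O R I P) (hC : C ⊆ R) (hc : Conn (qg w) C)
    (hz : cw w C (R \ C) = 0) (h1 : 1 ≤ ts β C) (hb : ts β C ≤ b)
    (hK : ts β C ≤ K * cw w C (O \ C)) :
    ∃ P' : ι → Finset κ, St w β b O (R \ C) I P' ∧
      pot w β K b I P' (R \ C) ≤ pot w β K b I P R := by
  have hb0 : (0 : ℝ) < b := by exact_mod_cast h1.trans hb
  have e1 : cw w C (O \ C) ≤ ∑ j ∈ I, cw w (P j) C := by
    have a1 : O \ C ⊆ I.biUnion P ∪ (R \ C) := fun a ha => by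
      obtain ⟨a2, a3⟩ := mem_sdiff.1 ha
      by_cases a4 : a ∈ R
      · exact mem_union_right _ (mem_sdiff.2 ⟨a4, a3⟩)
      · exact mem_union_left _ (mem_biUnion.2 (h.cov a a2 a4))
    have a2 := (cw_mono (w := w) (subset_refl C) a1).trans cw_union_right_le
    rw [hz, add_zero, cw_comm hw C (I.biUnion P)] at a2
    exact a2.trans (cw_biUnion_le _ _)
  have e2 : ∀ A, cw w A (R \ C) + cw w A C = cw w A R := fun A => cw_sdiff_right hC
  obtain ⟨x, hx⟩ : ∃ x : ℝ, x = (ts β C : ℝ) / b := ⟨_, rfl⟩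
  have x0 : 0 ≤ x := by rw [hx]; positivity
  have x1 : x * b = ts β C := by rw [hx, div_mul_cancel₀ _ hb0.ne']
  have x2 : x ≤ 1 := by
    rw [hx, div_le_one hb0]
    exact_mod_cast hb
  have x3 : Real.exp x - 1 ≤ 2 * x := by
    have := Real.abs_exp_sub_one_le (x := x) (by rwa [abs_of_nonneg x0])
    rw [abs_of_nonneg x0] at this
    exact (le_abs_self _).trans this
  have x4 : (ts β C : ℝ) ≤ K * ∑ j ∈ I, (cw w (P j) C : ℝ) := by
    exact_mod_cast hK.trans (Nat.mul_le_mul_left K e1)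
  have x5 : (1 : ℝ) ≤ ts β C := by exact_mod_cast h1
  obtain ⟨i, hI, hi, hs⟩ := avg I
    (fun j => Real.exp ((ts β (P j) + 2 * K * cw w (P j) R : ℕ) / (b : ℝ)))
    (fun j => (cw w (P j) C : ℝ)) (s := 2 * K / b) (δ := Real.exp x - 1)
    (fun _ => (Real.exp_pos _).le) (fun _ => Nat.cast_nonneg _)
    (by
      refine lt_of_le_of_ne (sum_nonneg fun _ _ => Nat.cast_nonneg _) fun e => ?_
      rw [← e] at x4
      linarith)
    (by
      rw [div_mul_eq_mul_div, le_div_iff₀ hb0]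
      have := mul_le_mul_of_nonneg_right x3 hb0.le
      linarith)
  obtain ⟨a, ha, a', ha', hw'⟩ := exists_of_cw_pos (Nat.cast_pos.1 hi)
  have hne : a ≠ a' := fun e => disjoint_left.1 (h.disj i hI) ha (e ▸ hC ha')
  have sub : ∀ j, P j ⊆ Function.update P i (P i ∪ C) j := fun j => by
    by_cases e : j = i
    · rw [e, Function.update_self]
      exact subset_union_left
    · rw [Function.update_of_ne e]
  have key : ∀ j, ∀ v ∈ Function.update P i (P i ∪ C) j, v ∈ P j ∨ (v ∈ C ∧ j = i) :=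
    fun j v hv => by
      by_cases e : j = i
      · rw [e, Function.update_self] at hv
        rw [e]
        exact (mem_union.1 hv).imp_right fun h0 => ⟨h0, rfl⟩
      · rw [Function.update_of_ne e] at hv
        exact Or.inl hv
  refine ⟨Function.update P i (P i ∪ C), ⟨⟨fun j hj v hv => ?_, fun j hj => ?_,
    fun j hj j' hj' e => disjoint_left.2 fun v h1 h2 => ?_⟩, sdiff_subset.trans h.sub,
    fun j hj => disjoint_left.2 fun v h1 h2 => ?_, fun v hv hv' => ?_,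
    fun j hj => (h.big j hj).trans (ts_mono (sub j))⟩, le_trans ?_ hs⟩
  · rcases key j v hv with c | ⟨c, -⟩
    · exact h.fam.sub j hj c
    · exact h.sub (hC c)
  · by_cases e : j = i
    · rw [e, Function.update_self]
      exact (h.fam.conn i hI).union_adj hc ha ha' (adj_of hne hw')
    · rw [Function.update_of_ne e]
      exact h.fam.conn j hj
  · rcases key j v h1 with c1 | ⟨c1, c2⟩ <;> rcases key j' v h2 with c3 | ⟨c3, c4⟩
    · exact disjoint_left.1 (h.fam.disj j hj j' hj' e) c1 c3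
    · exact disjoint_left.1 (h.disj j hj) c1 (hC c3)
    · exact disjoint_left.1 (h.disj j' hj') c3 (hC c1)
    · exact e (c2.trans c4.symm)
  · rcases key j v h1 with c | ⟨c, -⟩
    · exact disjoint_left.1 (h.disj j hj) c (mem_sdiff.1 h2).1
    · exact (mem_sdiff.1 h2).2 c
  · by_cases e : v ∈ C
    · exact ⟨i, hI, by rw [Function.update_self]; exact mem_union_right _ e⟩
    · obtain ⟨j, hj, c⟩ := h.cov v hv fun c => hv' (mem_sdiff.2 ⟨c, e⟩)
      exact ⟨j, hj, sub j c⟩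
  have e3 : ∀ j, Real.exp ((ts β (P j) + 2 * K * cw w (P j) (R \ C) : ℕ) / (b : ℝ)) =
      Real.exp ((ts β (P j) + 2 * K * cw w (P j) R : ℕ) / (b : ℝ)) *
        Real.exp (-(2 * K / b * (cw w (P j) C : ℝ))) := fun j => by
    rw [← Real.exp_add, ← e2 (P j)]
    congr 1
    push_cast
    field_simp
    ring
  rw [pot, ← add_sum_erase _ _ hI, ← add_sum_erase _ _ hI, add_right_comm, Function.update_self]
  refine add_le_add ?_ (sum_le_sum fun j hj => ?_)
  · rw [← mul_one_add, add_sub_cancel, ← e3, ← Real.exp_add, hx, ← add_div]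
    refine Real.exp_le_exp.2 (div_le_div_of_nonneg_right ?_ hb0.le)
    have a1 : ts β (P i ∪ C) ≤ ts β (P i) + ts β C := ts_union_le
    have a2 : cw w (P i ∪ C) (R \ C) ≤ cw w (P i) (R \ C) + cw w C (R \ C) := cw_union_left_le
    rw [hz, add_zero] at a2
    have a4 := Nat.mul_le_mul_left (2 * K) a2
    exact_mod_cast (show ts β (P i ∪ C) + 2 * K * cw w (P i ∪ C) (R \ C) ≤
      ts β (P i) + 2 * K * cw w (P i) (R \ C) + ts β C by omega)
  · rw [Function.update_of_ne (mem_erase.1 hj).1, e3]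

/-- All components are attached. -/
theorem all (hw : Sy w) (hl : WL w O β K) (h1 : ∀ u ∈ O, 1 ≤ β u) (h2 : 2 * b ≤ ts β O)
    (R : Finset κ) : (∀ C ⊆ R, Conn (qg w) C → ts β C < b) → ∀ P : ι → Finset κ,
      St w β b O R I P → ∃ P' : ι → Finset κ, St w β b O ∅ I P' ∧
        pot w β K b I P' ∅ ≤ pot w β K b I P R := by
  induction R using Finset.strongInduction with
  | H R ih =>
  intro hR P h
  rcases R.eq_empty_or_nonempty with rfl | ⟨v, hv⟩
  · exact ⟨P, h, le_rfl⟩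
  have c1 : comp (qg w) R v ⊆ R := comp_subset
  have c2 : Conn (qg w) (comp (qg w) R v) := comp_conn hv
  have c3 := hR _ c1 c2
  have c4 : v ∈ comp (qg w) R v := self_mem_comp hv
  have c5 : cw w (comp (qg w) R v) (R \ comp (qg w) R v) = 0 := by
    refine cw_eq_zero.2 fun p hp q hq => ?_
    by_contra hpq
    obtain ⟨q1, q2⟩ := mem_sdiff.1 hq
    exact q2 (comp_closed hp q1 (adj_of (fun e => q2 (e ▸ hp)) (Nat.pos_of_ne_zero hpq)))
  have c6 := hl _ (c1.trans h.sub)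
  have c7 := ts_sdiff (τ := β) (c1.trans h.sub)
  rw [min_eq_left (by omega)] at c6
  obtain ⟨P₁, b1, b2⟩ := step hw h c1 c2 c5 ((h1 v (h.sub hv)).trans (single_le_ts c4)) c3.le c6
  obtain ⟨P', b3, b4⟩ := ih (R \ comp (qg w) R v) (sdiff_ssubset c1 ⟨v, c4⟩)
    (fun C hC => hR C (hC.trans sdiff_subset)) P₁ b1
  exact ⟨P', b3, b4.trans b2⟩

end PartnP

open PartnP in
theorem partn : PartnStmt := by
  intro κ w β O K b Λ hw hl hK hβ hb hO hΛ
  by_cases h2 : ts β O < 2 * b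
  · have hne : O.Nonempty := by
      rw [nonempty_iff_ne_empty]
      rintro rfl
      simp only [ts, sum_empty] at hO
      omega
    refine ⟨{O}, ⟨fun C hC => ?_, fun C hC C' hC' e => ?_, by simp⟩, fun Γ hΓ => ?_⟩
    · rw [mem_singleton.1 hC]
      exact hl.conn hne (fun a ha => (hβ a ha).1) fun _ _ _ _ e hp => adj_of e hp
    · exact absurd ((mem_singleton.1 hC).trans (mem_singleton.1 hC').symm) e
    · rw [mem_singleton.1 hΓ]
      exact ⟨hO, h2.le.trans (Nat.mul_le_mul_right _ (by omega))⟩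
  have hcard : ∀ FF : Finset (Finset κ), Fam (qg w) O FF id → FF.card ≤ O.card :=
    fun _ h => h.card_le
  obtain ⟨FF, ⟨f1, f2⟩, f3⟩ := exists_max_of
    (p := fun FF : Finset (Finset κ) => Fam (qg w) O FF id ∧
      ∀ C ∈ FF, b ≤ ts β C ∧ ts β C ≤ 2 * b) card O.card (fun FF h => hcard FF h.1)
    ⟨∅, ⟨by simp, by simp, by simp⟩, by simp⟩
  have hd : ∀ C ∈ FF, Disjoint C (O \ un FF) := fun C hC =>
    disjoint_sdiff.mono_left (subset_un hC)
  obtain ⟨P, b1, b2⟩ := all (I := FF) hw hl (fun u hu => (hβ u hu).1) (not_lt.1 h2) (O \ un FF)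
    (fun C hC hc => by
      by_contra h0
      obtain ⟨T, a1, a2, a3⟩ := grow
        (fun u hu => (hβ u (mem_sdiff.1 (hC hu)).1).2.1) hc (not_lt.1 h0)
      have a4 : ∀ C' ∈ FF, Disjoint C' T := fun C' hC' => (hd C' hC').mono_right (a1.trans hC)
      have a5 : T ∉ FF := fun h1 => a2.1.ne_empty (disjoint_self.1 (a4 T h1))
      have := f3 (insert T FF) ⟨⟨fun X hX => by
        rcases mem_insert.1 hX with rfl | hX
        exacts [a1.trans (hC.trans sdiff_subset), f1.sub X hX], fun X hX => by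
        rcases mem_insert.1 hX with rfl | hX
        exacts [a2, f1.conn X hX], fun X hX X' hX' e => by
        rcases mem_insert.1 hX with rfl | hD <;> rcases mem_insert.1 hX' with rfl | hD'
        exacts [absurd rfl e, (a4 _ hD').symm, a4 _ hD, f1.disj _ hD _ hD' e]⟩, fun X hX => by
        rcases mem_insert.1 hX with rfl | hX
        exacts [a3, f2 X hX]⟩
      rw [card_insert_of_notMem a5] at this
      omega)
    id ⟨f1, sdiff_subset, hd, fun a ha ha' => by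
      by_contra h0
      exact ha' (mem_sdiff.2 ⟨ha, fun h1 => h0 (mem_un.1 h1)⟩), fun C hC => (f2 C hC).1⟩
  refine ⟨FF.image P, ⟨fun C hC => ?_, fun C hC C' hC' e => ?_, ?_⟩, fun Γ hΓ => ?_⟩
  · obtain ⟨i, hi, rfl⟩ := mem_image.1 hC
    exact b1.fam.conn i hi
  · obtain ⟨i, hi, rfl⟩ := mem_image.1 hC
    obtain ⟨j, hj, rfl⟩ := mem_image.1 hC'
    exact b1.fam.disj i hi j hj fun e' => e (by rw [e'])
  · refine Subset.antisymm (biUnion_subset.2 fun C hC => ?_) fun a ha => ?_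
    · obtain ⟨i, hi, rfl⟩ := mem_image.1 hC
      exact b1.fam.sub i hi
    · obtain ⟨i, hi, h0⟩ := b1.cov a ha (notMem_empty a)
      exact mem_biUnion.2 ⟨P i, mem_image_of_mem P hi, h0⟩
  obtain ⟨j, hj, rfl⟩ := mem_image.1 hΓ
  refine ⟨b1.big j hj, ?_⟩
  have hb0 : (0 : ℝ) < b := by exact_mod_cast hb
  have c1 : Real.exp ((ts β (P j) : ℝ) / b) ≤ pot w β K b FF P ∅ := by
    refine le_trans (le_of_eq ?_) (single_le_sum (fun _ _ => (Real.exp_pos _).le) hj)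
    simp [cw]
  have c2 : pot w β K b FF id (O \ un FF) ≤
      FF.card * Real.exp (((4 * K + 2) * b : ℝ) / b) := by
    refine (sum_le_card_nsmul _ _ (Real.exp (((4 * K + 2) * b : ℝ) / b)) fun i hi => ?_).trans
      (le_of_eq (by simp))
    refine Real.exp_le_exp.2 (div_le_div_of_nonneg_right ?_ hb0.le)
    have a1 := (f2 i hi).2
    have a2 : cw w i (O \ un FF) ≤ ts β i := by
      rw [cw_eq_sum]
      exact sum_le_sum fun u hu =>
        (cw_mono subset_rfl sdiff_subset).trans (hβ u (f1.sub i hi hu)).2.2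
    have a3 := Nat.mul_le_mul_left (2 * K) (a2.trans a1)
    have a5 : ts β i + 2 * K * cw w i (O \ un FF) ≤ (4 * K + 2) * b := by
      have : (4 * K + 2) * b = 2 * K * (2 * b) + 2 * b := by ring
      omega
    exact_mod_cast a5
  have c3 : (FF.card : ℝ) ≤ Real.exp Λ := by
    have a1 : (FF.card : ℝ) ≤ 2 ^ Λ := by exact_mod_cast (hcard FF f1).trans hΛ
    have a2 : (2 : ℝ) ≤ Real.exp 1 := by linarith [Real.add_one_le_exp 1]
    rw [← mul_one (Λ : ℝ), Real.exp_nat_mul]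
    exact a1.trans (pow_le_pow_left₀ (by norm_num) a2 Λ)
  have c4 := (c1.trans (b2.trans c2)).trans (mul_le_mul_of_nonneg_right c3 (Real.exp_pos _).le)
  rw [← Real.exp_add, Real.exp_le_exp, div_le_iff₀ hb0, add_mul, div_mul_cancel₀ _ hb0.ne'] at c4
  have c5 : (ts β (P j) : ℝ) ≤ (4 * K + Λ + 2) * b := by linarith
  exact_mod_cast c5

end Pool.Agent.MP_35cb46_co.Nl

end
end MrgPart2

-- ======== part 3: formerly Pool.Agent.MP_35cb46_co.nl.Route
section MrgPart3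

/-! Row ROUTE: random routes through the lazy walk. -/

noncomputable section

namespace Pool.Agent.MP_35cb46_co.Nl

open Finset Pool.Agent.MP_7be75d_co Pool.Agent.MP_35cb46_co.Sq
open scoped Classical

namespace RouteP

variable {κ : Type}

/-- A doubly stochastic kernel on `X` supported on the graph. -/
structure Ker (G : SimpleGraph κ) (X : Finset κ) (W : κ → κ → ℝ) : Prop where
  nn : ∀ c ∈ X, ∀ z, 0 ≤ W c z
  row : ∀ c ∈ X, ∑ z ∈ X, W c z = 1
  col : ∀ z ∈ X, ∑ c ∈ X, W c z = 1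
  sup : ∀ c ∈ X, ∀ z ∈ X, 0 < W c z → c = z ∨ G.Adj c z

/-- Powers of the kernel. -/
def pw (X : Finset κ) (W : κ → κ → ℝ) : ℕ → κ → κ → ℝ
  | 0, a, b => if a = b then 1 else 0
  | i + 1, a, b => ∑ c ∈ X, pw X W i a c * W c b

/-- Law of the visited set and of the end of the walk. -/
def lw [Fintype κ] (X : Finset κ) (W : κ → κ → ℝ) (a : κ) : ℕ → Finset κ → κ → ℝ
  | 0, S, m => if S = {a} then (if a = m then 1 else 0) else 0
  | i + 1, S, m => ∑ T : Finset κ, if S = insert m T then ∑ c ∈ X, lw X W a i T c * W c m else 0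

variable {G : SimpleGraph κ} {X : Finset κ} {W : κ → κ → ℝ}

theorem pw_nn (h : Ker G X W) (i : ℕ) (a b : κ) : 0 ≤ pw X W i a b := by
  induction i generalizing b with
  | zero => simp only [pw]; split_ifs <;> norm_num
  | succ i ih => exact sum_nonneg fun c hc => mul_nonneg (ih c) (h.nn c hc b)

theorem pw_row (h : Ker G X W) (i : ℕ) {a : κ} (ha : a ∈ X) : ∑ z ∈ X, pw X W i a z = 1 := by
  induction i with
  | zero => simp [pw, ha]
  | succ i ih =>
    simp only [pw]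
    rw [sum_comm, ← ih]
    exact sum_congr rfl fun c hc => by rw [← mul_sum, h.row c hc, mul_one]

theorem pw_col (h : Ker G X W) (i : ℕ) {a : κ} (ha : a ∈ X) : ∑ z ∈ X, pw X W i z a = 1 := by
  induction i generalizing a with
  | zero => simp [pw, ha]
  | succ i ih =>
    simp only [pw]
    rw [sum_comm, ← h.col a ha]
    exact sum_congr rfl fun c hc => by rw [← sum_mul, ih hc, one_mul]

theorem pw_mix (h : Ker G X W) {ρ : ℝ} (hρ : 0 ≤ ρ)
    (hm : ∀ x : κ → ℝ, ∑ c ∈ X, x c = 0 →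
      ∑ b ∈ X, (∑ c ∈ X, x c * W c b) ^ 2 ≤ ρ * ∑ c ∈ X, x c ^ 2)
    {a : κ} (ha : a ∈ X) (i : ℕ) :
    ∑ b ∈ X, (pw X W i a b - (X.card : ℝ)⁻¹) ^ 2 ≤ ρ ^ i := by
  have hn : (0 : ℝ) < X.card := by exact_mod_cast card_pos.2 ⟨a, ha⟩
  induction i with
  | zero =>
    have h1 : ∀ b ∈ X, (pw X W 0 a b - (X.card : ℝ)⁻¹) ^ 2 =
        pw X W 0 a b * (1 - 2 * (X.card : ℝ)⁻¹) + (X.card : ℝ)⁻¹ ^ 2 := fun b _ => by
      simp only [pw]; split_ifs <;> ring
    rw [sum_congr rfl h1, sum_add_distrib, ← sum_mul, pw_row h 0 ha, sum_const, nsmul_eq_mul]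
    have h2 : (X.card : ℝ) * (X.card : ℝ)⁻¹ ^ 2 = (X.card : ℝ)⁻¹ := by field_simp
    have h3 := inv_pos.2 hn
    rw [h2]
    linarith
  | succ i ih =>
    have h1 := hm (fun c => pw X W i a c - (X.card : ℝ)⁻¹) (by
      rw [sum_sub_distrib, pw_row h i ha, sum_const, nsmul_eq_mul, mul_inv_cancel₀ hn.ne', sub_self])
    have h2 : ∀ b ∈ X, (pw X W (i + 1) a b - (X.card : ℝ)⁻¹) ^ 2 =
        (∑ c ∈ X, (pw X W i a c - (X.card : ℝ)⁻¹) * W c b) ^ 2 := fun b hb => by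
      simp only [pw, sub_mul, sum_sub_distrib, ← mul_sum, h.col b hb, mul_one]
    rw [sum_congr rfl h2, pow_succ']
    exact h1.trans (mul_le_mul_of_nonneg_left ih hρ)

section law

variable [Fintype κ]

theorem lw_nn (h : Ker G X W) (a : κ) (i : ℕ) (S : Finset κ) (m : κ) : 0 ≤ lw X W a i S m := by
  induction i generalizing S m with
  | zero => simp only [lw]; split_ifs <;> norm_num
  | succ i ih =>
    refine sum_nonneg fun T _ => ?_
    split_ifs
    · exact sum_nonneg fun c hc => mul_nonneg (ih T c) (h.nn c hc m)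
    · exact le_rfl

theorem lw_step (a : κ) (i : ℕ) (m : κ) (g : Finset κ → ℝ) :
    ∑ S, lw X W a (i + 1) S m * g S =
      ∑ T, (∑ c ∈ X, lw X W a i T c * W c m) * g (insert m T) := by
  simp only [lw, sum_mul (s := (univ : Finset (Finset κ))), ite_mul, zero_mul]
  rw [sum_comm]
  exact sum_congr rfl fun T _ => by simp

theorem lw_sum (a : κ) (i : ℕ) (m : κ) : ∑ S, lw X W a i S m = pw X W i a m := by
  induction i generalizing m with
  | zero => simp [lw, pw]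
  | succ i ih =>
    have h1 := lw_step (X := X) (W := W) a i m fun _ => 1
    simp only [mul_one] at h1
    rw [h1, sum_comm]
    exact sum_congr rfl fun c _ => by rw [← sum_mul, ih]

theorem lw_sup (h : Ker G X W) {a : κ} (ha : a ∈ X) (i : ℕ) (S : Finset κ) {m : κ} (hm : m ∈ X)
    (hp : lw X W a i S m ≠ 0) : a ∈ S ∧ m ∈ S ∧ S ⊆ X ∧ Conn G S := by
  induction i generalizing S m with
  | zero =>
    simp only [lw] at hp
    split_ifs at hp with h1 h2
    · subst h1 h2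
      exact ⟨mem_singleton_self _, mem_singleton_self _, singleton_subset_iff.2 ha,
        Conn.singleton _⟩
    · exact absurd rfl hp
    · exact absurd rfl hp
  | succ i ih =>
    obtain ⟨T, -, hT⟩ := exists_ne_zero_of_sum_ne_zero hp
    split_ifs at hT with h1
    · obtain ⟨c, hc, h2⟩ := exists_ne_zero_of_sum_ne_zero hT
      obtain ⟨h3, h4, h5, h6⟩ := ih T hc (left_ne_zero_of_mul h2)
      subst h1
      refine ⟨mem_insert_of_mem h3, mem_insert_self _ _, insert_subset hm h5, ?_⟩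
      rcases h.sup c hc m hm ((h.nn c hc m).lt_of_ne' (right_ne_zero_of_mul h2)) with h7 | h7
      · rwa [← h7, insert_eq_of_mem h4]
      · exact h6.insert h4 h7
    · exact absurd rfl hT

theorem lw_hit (h : Ker G X W) {a : κ} (ha : a ∈ X) (z : κ) (i : ℕ) :
    ∑ m ∈ X, ∑ S, lw X W a i S m * (if z ∈ S then 1 else 0) ≤
      ∑ j ∈ range (i + 1), pw X W j a z := by
  induction i with
  | zero =>
    simp only [lw, ite_mul, zero_mul, sum_ite_eq', mem_univ, if_true, one_mul, sum_ite_eq, ha,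
      mem_singleton, zero_add, sum_range_one, pw, eq_comm (a := z), le_refl]
  | succ i ih =>
    rw [sum_range_succ]
    have h1 : ∀ m ∈ X, ∑ S, lw X W a (i + 1) S m * (if z ∈ S then 1 else 0) ≤
        ∑ T, (∑ c ∈ X, lw X W a i T c * W c m) * (if z ∈ T then 1 else 0) +
          if z = m then pw X W (i + 1) a m else 0 := fun m _ => by
      rw [lw_step]
      split_ifs with h2
      · subst h2
        have h3 := lw_step (X := X) (W := W) a i z fun _ => 1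
        simp only [mul_one, lw_sum] at h3
        simp only [mem_insert_self, if_true, mul_one, ← h3, le_add_iff_nonneg_left]
        refine sum_nonneg fun T _ => mul_nonneg
          (sum_nonneg fun c hc => mul_nonneg (lw_nn h a i T c) (h.nn c hc z)) ?_
        split_ifs <;> norm_num
      · simp [h2]
    refine (sum_le_sum h1).trans ?_
    rw [sum_add_distrib]
    refine add_le_add (le_trans (le_of_eq ?_) ih) ?_
    · rw [sum_comm, sum_comm (s := X)]
      refine sum_congr rfl fun T _ => ?_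
      rw [← sum_mul, ← sum_mul, sum_comm]
      congr 1
      exact sum_congr rfl fun c hc => by rw [← mul_sum, h.row c hc, mul_one]
    · rw [sum_ite_eq]
      split_ifs
      · exact le_rfl
      · exact pw_nn h _ _ _

/-- Law of the visited set given the end. -/
def cd (X : Finset κ) (W : κ → κ → ℝ) (l : ℕ) (a m : κ) (S : Finset κ) : ℝ :=
  lw X W a l S m / pw X W l a m

theorem main (h : Ker G X W) (l : ℕ)
    (hl : ∀ a ∈ X, ∀ m ∈ X, (X.card : ℝ)⁻¹ ≤ 2 * pw X W l a m) :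
    ∃ (h : κ → κ → ℝ) (ω : κ → κ → Finset κ × Finset κ → ℝ), (∀ a z, 0 ≤ h a z) ∧
    (∀ a ∈ X, 1 ≤ h a a ∧ ∑ z ∈ X, h a z ≤ 2 * (l + 1) ∧ ∑ z ∈ X, h z a ≤ 2 * (l + 1)) ∧
    ∀ a ∈ X, ∀ b ∈ X, (∀ q, 0 ≤ ω a b q) ∧ ∑ q, ω a b q = 1 ∧
      (∀ q, 0 < ω a b q → a ∈ q.1 ∧ b ∈ q.2 ∧ q.1 ⊆ X ∧ q.2 ⊆ X ∧ Conn G q.1 ∧
        Conn G q.2 ∧ ¬ Disjoint q.1 q.2) ∧
      ∀ z, ∑ q ∈ univ.filter fun q : Finset κ × Finset κ => z ∈ q.1, ω a b q ≤ h a z ∧
        ∑ q ∈ univ.filter fun q : Finset κ × Finset κ => z ∈ q.2, ω a b q ≤ h b z := by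
  have hcn : ∀ a m S, 0 ≤ cd X W l a m S := fun a m S =>
    div_nonneg (lw_nn h a l S m) (pw_nn h l a m)
  have hpos : ∀ a ∈ X, ∀ m ∈ X, 0 < pw X W l a m := fun a ha m hm => by
    have hn : (0 : ℝ) < X.card := by exact_mod_cast card_pos.2 ⟨a, ha⟩
    have := inv_pos.2 hn
    linarith [hl a ha m hm]
  have hc1 : ∀ a ∈ X, ∀ m ∈ X, ∑ S, cd X W l a m S = 1 := fun a ha m hm => by
    simp only [cd]
    rw [← sum_div, lw_sum, div_self (hpos a ha m hm).ne']
  have hhit : ∀ a ∈ X, ∀ z, ∑ m ∈ X, (X.card : ℝ)⁻¹ *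
      ∑ S, cd X W l a m S * (if z ∈ S then 1 else 0) ≤
        2 * ∑ j ∈ range (l + 1), pw X W j a z := fun a ha z => by
    refine le_trans ?_ (mul_le_mul_of_nonneg_left (lw_hit h ha z l) (by norm_num))
    rw [mul_sum]
    refine sum_le_sum fun m hm => ?_
    rw [mul_sum, mul_sum]
    refine sum_le_sum fun S _ => ?_
    split_ifs
    · have h1 := mul_le_mul_of_nonneg_right (hl a ha m hm) (hcn a m S)
      have h2 : pw X W l a m * cd X W l a m S = lw X W a l S m :=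
        mul_div_cancel₀ _ (hpos a ha m hm).ne'
      rw [mul_assoc, h2] at h1
      simpa using h1
    · simp
  refine ⟨fun a z => 2 * ∑ j ∈ range (l + 1), pw X W j a z,
    fun a b q => ∑ m ∈ X, (X.card : ℝ)⁻¹ * (cd X W l a m q.1 * cd X W l b m q.2),
    fun a z => mul_nonneg (by norm_num) (sum_nonneg fun j _ => pw_nn h j a z),
    fun a ha => ⟨?_, le_of_eq ?_, le_of_eq ?_⟩, fun a ha b hb => ⟨fun q => ?_, ?_, fun q hq => ?_,
      fun z => ⟨?_, ?_⟩⟩⟩
  · have h1 := single_le_sum (f := fun j => pw X W j a a) (fun j _ => pw_nn h j a a)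
      (mem_range.2 (Nat.succ_pos l))
    have h2 : pw X W 0 a a = 1 := by simp [pw]
    simp only [h2] at h1
    beta_reduce
    linarith
  · rw [← mul_sum, sum_comm, sum_congr rfl fun j _ => pw_row h j ha]
    simp
  · rw [← mul_sum, sum_comm, sum_congr rfl fun j _ => pw_col h j ha]
    simp
  · exact sum_nonneg fun m _ => mul_nonneg (by positivity) (mul_nonneg (hcn _ _ _) (hcn _ _ _))
  · have hn : (0 : ℝ) < X.card := by exact_mod_cast card_pos.2 ⟨a, ha⟩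
    rw [sum_comm, sum_congr rfl (g := fun _ => (X.card : ℝ)⁻¹) fun m hm => ?_]
    · rw [sum_const, nsmul_eq_mul, mul_inv_cancel₀ hn.ne']
    · rw [← mul_sum, Fintype.sum_prod_type, ← sum_mul_sum, hc1 a ha m hm, hc1 b hb m hm]
      simp
  · obtain ⟨m, hm, h1⟩ := exists_ne_zero_of_sum_ne_zero hq.ne'
    have h2 := right_ne_zero_of_mul h1
    obtain ⟨p1, p2, p3, p4⟩ := lw_sup h ha l q.1 hm (div_ne_zero_iff.1 (left_ne_zero_of_mul h2)).1
    obtain ⟨r1, r2, r3, r4⟩ := lw_sup h hb l q.2 hm (div_ne_zero_iff.1 (right_ne_zero_of_mul h2)).1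
    exact ⟨p1, r1, p3, r3, p4, r4, not_disjoint_iff.2 ⟨m, p2, r2⟩⟩
  · refine le_trans (le_of_eq ?_) (hhit a ha z)
    rw [sum_comm]
    refine sum_congr rfl fun m hm => ?_
    rw [← mul_sum, sum_filter, Fintype.sum_prod_type]
    congr 1
    refine sum_congr rfl fun S _ => ?_
    split_ifs with h1
    · simp only [← mul_sum, hc1 b hb m hm]
    · simp
  · refine le_trans (le_of_eq ?_) (hhit b hb z)
    rw [sum_comm]
    refine sum_congr rfl fun m hm => ?_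
    rw [← mul_sum, sum_filter, Fintype.sum_prod_type_right]
    congr 1
    refine sum_congr rfl fun S _ => ?_
    split_ifs with h1
    · simp only [← sum_mul, hc1 a ha m hm, one_mul, mul_one]
    · simp

end law

/-- The lazy walk. -/
def lz (X : Finset κ) (w : κ → κ → ℝ) (D : ℝ) (a b : κ) : ℝ :=
  w a b / (2 * D) + if a = b then 1 - (∑ c ∈ X, w a c) / (2 * D) else 0

variable {w : κ → κ → ℝ} {D : ℝ}

theorem lz_symm (hs : ∀ a b, w a b = w b a) (a b : κ) : lz X w D a b = lz X w D b a := by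
  unfold lz
  by_cases h : a = b
  · rw [h]
  · rw [if_neg h, if_neg (Ne.symm h), hs]

theorem lz_row {c : κ} (hc : c ∈ X) : ∑ z ∈ X, lz X w D c z = 1 := by
  simp only [lz, sum_add_distrib, sum_ite_eq, hc, if_true, ← sum_div]
  ring

theorem lz_half (h0 : ∀ a b, 0 ≤ w a b) (hD : 0 < D) (hd : ∀ a ∈ X, ∑ b ∈ X, w a b ≤ D)
    {c : κ} (hc : c ∈ X) (z : κ) : (if c = z then 1 else 0) ≤ 2 * lz X w D c z := by
  have h1 : 0 ≤ w c z / (2 * D) := div_nonneg (h0 c z) (by positivity)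
  have h2 : (∑ b ∈ X, w c b) / (2 * D) ≤ 1 / 2 := by
    rw [div_le_iff₀ (by positivity)]
    linarith [hd c hc]
  unfold lz
  split_ifs <;> linarith

theorem lz_ker (hs : ∀ a b, w a b = w b a) (h0 : ∀ a b, 0 ≤ w a b) (hD : 0 < D)
    (hd : ∀ a ∈ X, ∑ b ∈ X, w a b ≤ D) : Ker (sg w) X (lz X w D) where
  nn c hc z := by
    have := lz_half h0 hD hd hc z
    split_ifs at this <;> linarith
  row c hc := lz_row hc
  col z hz := by rw [sum_congr rfl fun c _ => lz_symm hs c z, lz_row hz]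
  sup c _ z _ h := by
    by_cases h1 : c = z
    · exact Or.inl h1
    · rw [lz, if_neg h1, add_zero] at h
      exact Or.inr ((SimpleGraph.fromRel_adj _ _ _).2
        ⟨h1, Or.inl ((div_pos_iff_of_pos_right (by positivity)).1 h)⟩)

/-- Jensen for a doubly stochastic kernel. -/
theorem jensen {V : κ → κ → ℝ} (h0 : ∀ c ∈ X, ∀ z, 0 ≤ V c z) (hr : ∀ c ∈ X, ∑ z ∈ X, V c z = 1)
    (hc : ∀ z ∈ X, ∑ c ∈ X, V c z = 1) (x : κ → ℝ) :
    ∑ b ∈ X, (∑ c ∈ X, x c * V c b) ^ 2 ≤ ∑ c ∈ X, x c ^ 2 := by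
  have h1 : ∀ b ∈ X, (∑ c ∈ X, x c * V c b) ^ 2 ≤ ∑ c ∈ X, x c ^ 2 * V c b := fun b hb => by
    have := sum_sq_le_sum_mul_sum_of_sq_le_mul X (r := fun c => x c * V c b)
      (f := fun c => x c ^ 2 * V c b) (g := fun c => V c b)
      (fun c hc => mul_nonneg (sq_nonneg _) (h0 c hc b)) (fun c hc => h0 c hc b)
      (fun c _ => le_of_eq (by ring))
    rwa [hc b hb, mul_one] at this
  refine (sum_le_sum h1).trans (le_of_eq ?_)
  rw [sum_comm]
  exact sum_congr rfl fun c hc => by rw [← mul_sum, hr c hc, mul_one]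

theorem lz_sq (hs : ∀ a b, w a b = w b a) (h0 : ∀ a b, 0 ≤ w a b) (hD : 0 < D)
    (hd : ∀ a ∈ X, ∑ b ∈ X, w a b ≤ D) (x : κ → ℝ) :
    ∑ b ∈ X, (∑ c ∈ X, x c * lz X w D c b) ^ 2 ≤
      ∑ b ∈ X, x b * ∑ c ∈ X, x c * lz X w D c b := by
  have hk := lz_ker hs h0 hD hd
  have h1 := jensen (X := X) (V := fun c z => 2 * lz X w D c z - if c = z then 1 else 0)
    (fun c hc z => sub_nonneg.2 (lz_half h0 hD hd hc z))
    (fun c hc => by
      rw [sum_sub_distrib, ← mul_sum, hk.row c hc, sum_ite_eq, if_pos hc]; norm_num)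
    (fun c hc => by
      rw [sum_sub_distrib, ← mul_sum, hk.col c hc, sum_ite_eq', if_pos hc]; norm_num) x
  have h2 : ∀ b ∈ X, (∑ c ∈ X, x c * (2 * lz X w D c b - if c = b then 1 else 0)) ^ 2 =
      4 * (∑ c ∈ X, x c * lz X w D c b) ^ 2 - 4 * (x b * ∑ c ∈ X, x c * lz X w D c b) +
        x b ^ 2 := fun b hb => by
    simp only [mul_sub, sum_sub_distrib, mul_ite, mul_one, mul_zero, sum_ite_eq', hb, if_true,
      mul_left_comm _ (2 : ℝ), ← mul_sum]
    ring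
  rw [sum_congr rfl h2, sum_add_distrib, sum_sub_distrib, ← mul_sum, ← mul_sum] at h1
  linarith

theorem lz_form (hs : ∀ a b, w a b = w b a) (h0 : ∀ a b, 0 ≤ w a b) (hD : 0 < D)
    (hd : ∀ a ∈ X, ∑ b ∈ X, w a b ≤ D) (x : κ → ℝ) :
    4 * D * ∑ b ∈ X, x b * ∑ c ∈ X, x c * lz X w D c b =
      4 * D * ∑ c ∈ X, x c ^ 2 - ∑ a ∈ X, ∑ b ∈ X, w a b * (x a - x b) ^ 2 := by
  have hk := lz_ker hs h0 hD hd
  have h1 : ∀ a b, w a b * (x a - x b) ^ 2 = 2 * D * (x a ^ 2 * lz X w D a b) +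
      2 * D * (x b ^ 2 * lz X w D a b) - 4 * D * (x b * (x a * lz X w D a b)) := fun a b => by
    unfold lz
    split_ifs with h
    · subst h
      ring
    · field_simp
      ring
  have h2 : ∑ a ∈ X, ∑ b ∈ X, x a ^ 2 * lz X w D a b = ∑ c ∈ X, x c ^ 2 :=
    sum_congr rfl fun c hc => by rw [← mul_sum, hk.row c hc, mul_one]
  have h3 : ∑ a ∈ X, ∑ b ∈ X, x b ^ 2 * lz X w D a b = ∑ c ∈ X, x c ^ 2 := by
    rw [sum_comm]
    exact sum_congr rfl fun c hc => by rw [← mul_sum, hk.col c hc, mul_one]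
  have h4 : ∑ a ∈ X, ∑ b ∈ X, x b * (x a * lz X w D a b) =
      ∑ b ∈ X, x b * ∑ c ∈ X, x c * lz X w D c b := by
    rw [sum_comm]
    exact sum_congr rfl fun c _ => by rw [← mul_sum]
  have h5 : ∀ (t : ℝ) (f : κ → κ → ℝ), ∑ a ∈ X, ∑ b ∈ X, t * f a b =
      t * ∑ a ∈ X, ∑ b ∈ X, f a b := fun t f => by simp only [mul_sum]
  simp only [h1, sum_sub_distrib, sum_add_distrib]
  rw [h5 (2 * D) fun a b => x a ^ 2 * lz X w D a b, h5 (2 * D) fun a b => x b ^ 2 * lz X w D a b,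
    h5 (4 * D) fun a b => x b * (x a * lz X w D a b), h2, h3, h4]
  ring

theorem lz_mix (cheeg : CheegStmt) {K : ℕ} (hs : ∀ a b, w a b = w b a) (h0 : ∀ a b, 0 ≤ w a b)
    (hD : 0 < D) (hK : 1 ≤ K) (hd : ∀ a ∈ X, ∑ b ∈ X, w a b ≤ D)
    (he : ∀ S ⊆ X, 2 * S.card ≤ X.card → D * S.card ≤ K * rw w S (X \ S)) (x : κ → ℝ)
    (hx : ∑ c ∈ X, x c = 0) : ∑ b ∈ X, (∑ c ∈ X, x c * lz X w D c b) ^ 2 ≤
      (1 - (4 * (K : ℝ) ^ 2)⁻¹) * ∑ c ∈ X, x c ^ 2 := by
  have hK' : (0 : ℝ) < K := by exact_mod_cast hK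
  obtain ⟨t, ht⟩ := cheeg κ w X (fun _ => D) (K : ℝ)⁻¹ hs h0 (by positivity) hd (fun S hS h => by
    simp only [sum_const, nsmul_eq_mul] at h ⊢
    have h1 : (2 : ℝ) * S.card ≤ X.card := le_of_mul_le_mul_right (by linarith) hD
    rw [inv_mul_le_iff₀ hK', mul_comm]
    exact he S hS (by exact_mod_cast h1)) x
  have h1 : ∑ c ∈ X, x c ^ 2 ≤ ∑ c ∈ X, (x c - t) ^ 2 := by
    have : ∑ c ∈ X, (x c - t) ^ 2 = ∑ c ∈ X, x c ^ 2 - 2 * t * ∑ c ∈ X, x c + ∑ _c ∈ X, t ^ 2 := by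
      rw [mul_sum, ← sum_sub_distrib, ← sum_add_distrib]
      exact sum_congr rfl fun c _ => by ring
    rw [this, hx]
    have := sum_nonneg fun c (_ : c ∈ X) => sq_nonneg t
    linarith
  rw [← mul_sum] at ht
  have h2 := lz_form hs h0 hD hd x
  have h3 : (K : ℝ)⁻¹ ^ 2 * (D * ∑ c ∈ X, x c ^ 2) ≤
      (K : ℝ)⁻¹ ^ 2 * (D * ∑ c ∈ X, (x c - t) ^ 2) := by gcongr
  refine (lz_sq hs h0 hD hd x).trans (le_of_mul_le_mul_left ?_ (show 0 < 4 * D by positivity))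
  have h4 : 4 * D * ((1 - (4 * (K : ℝ) ^ 2)⁻¹) * ∑ c ∈ X, x c ^ 2) =
      4 * D * ∑ c ∈ X, x c ^ 2 - (K : ℝ)⁻¹ ^ 2 * (D * ∑ c ∈ X, x c ^ 2) := by
    field_simp
  rw [h2, h4]
  linarith

theorem pow_small {K Λ n : ℕ} (hK : 1 ≤ K) (hn : 0 < n) (h : n ≤ 2 ^ Λ) :
    (1 - (4 * (K : ℝ) ^ 2)⁻¹) ^ (4 * K ^ 2 * (2 * (Λ + 1))) ≤ ((n : ℝ)⁻¹ / 2) ^ 2 := by
  have hK' : (1 : ℝ) ≤ K := by exact_mod_cast hK
  have h0 : (1 : ℝ) ≤ 4 * (K : ℝ) ^ 2 := by nlinarith
  have h1 : 0 ≤ 1 - (4 * (K : ℝ) ^ 2)⁻¹ := sub_nonneg.2 (inv_le_one_of_one_le₀ h0)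
  have h2 : (1 - (4 * (K : ℝ) ^ 2)⁻¹) ^ (4 * K ^ 2) ≤ 1 / 2 := by
    have h3 := pow_le_pow_left₀ h1 (Real.one_sub_le_exp_neg _) (4 * K ^ 2)
    rw [← Real.exp_nat_mul] at h3
    have h4 : ((4 * K ^ 2 : ℕ) : ℝ) * -(4 * (K : ℝ) ^ 2)⁻¹ = -1 := by
      push_cast
      field_simp
    rw [h4] at h3
    exact h3.trans (Real.exp_neg_one_lt_d9.le.trans (by norm_num))
  have h5 : ((1 : ℝ) / 2) ^ (Λ + 1) ≤ (n : ℝ)⁻¹ / 2 := by
    have h6 : (n : ℝ) ≤ 2 ^ Λ := by exact_mod_cast h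
    have h7 : (0 : ℝ) < n := by exact_mod_cast hn
    rw [pow_succ, one_div, inv_pow, div_eq_mul_inv]
    gcongr
  rw [pow_mul]
  refine (pow_le_pow_left₀ (pow_nonneg h1 _) h2 _).trans ?_
  rw [pow_mul']
  exact pow_le_pow_left₀ (by positivity) h5 2

end RouteP

open RouteP in
theorem route (cheeg : CheegStmt) : RouteStmt := by
  refine ⟨18, fun κ _ X w D K Λ hs h0 hD hK hX hd he => ?_⟩
  have hk := lz_ker hs h0 hD hd
  have hK' : (1 : ℝ) ≤ K := by exact_mod_cast hK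
  have hρ : 0 ≤ 1 - (4 * (K : ℝ) ^ 2)⁻¹ := sub_nonneg.2 (inv_le_one_of_one_le₀ (by nlinarith))
  obtain ⟨h, ω, h1, h2, h3⟩ := main hk (4 * K ^ 2 * (2 * (Λ + 1))) fun a ha m hm => by
    have h4 := (single_le_sum (f := fun b => (pw X (lz X w D) (4 * K ^ 2 * (2 * (Λ + 1))) a b -
      (X.card : ℝ)⁻¹) ^ 2) (fun _ _ => sq_nonneg _) hm).trans
      ((pw_mix hk hρ (lz_mix cheeg hs h0 hD hK hd he) ha _).trans
        (pow_small hK (card_pos.2 ⟨a, ha⟩) hX))
    have h5 := (abs_le_of_sq_le_sq' h4 (by positivity)).1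
    linarith
  have h4 : 2 * (((4 * K ^ 2 * (2 * (Λ + 1)) : ℕ) : ℝ) + 1) ≤ (18 * K ^ 2 * (Λ + 1) : ℕ) := by
    have h5 : 1 ≤ K ^ 2 * (Λ + 1) := Nat.mul_pos (Nat.pow_pos hK) (Nat.succ_pos Λ)
    have h6 : 2 * (4 * K ^ 2 * (2 * (Λ + 1)) + 1) ≤ 18 * K ^ 2 * (Λ + 1) := by nlinarith
    exact_mod_cast h6
  exact ⟨h, ω, h1, fun a ha => ⟨(h2 a ha).1, (h2 a ha).2.1.trans h4, (h2 a ha).2.2.trans h4⟩, h3⟩

end Pool.Agent.MP_35cb46_co.Nl

end
end MrgPart3

-- marker of a merged file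
example : 731051 + 604990 = 731051 + 604990 := rfl
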