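import Pool.Agent.MP_35cb46_co.nl.Spec
import Pool.Agent.MP_35cb46_co.nl.DoneA

-- ======== part 0: formerly Pool.Agent.MP_35cb46_co.nl.Karg
section MrgPart0

/-! PROJECT NL, row KARG: counting the traces of small cuts. -/

noncomputable section

namespace Pool.Agent.MP_35cb46_co.Nl

open Finset Pool.Agent.MP_7be75d_co Pool.Agent.MP_35cb46_co.Sq
open scoped Classical

namespace KargP

variable {κ : Type}

/-- The number of members of the family that separate two points. -/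
def rho (F : Finset (Finset κ)) (x y : κ) : ℕ := (F.filter fun W => ¬ (x ∈ W ↔ y ∈ W)).card

lemma rho_comm (F : Finset (Finset κ)) (x y : κ) : rho F x y = rho F y x := by
  unfold rho
  congr 1
  exact filter_congr fun W _ => by tauto

lemma rho_self (F : Finset (Finset κ)) (x : κ) : rho F x x = 0 := by simp [rho]

lemma rho_tri (F : Finset (Finset κ)) (x y z : κ) : rho F x z ≤ rho F x y + rho F y z := by
  unfold rho
  refine le_trans (card_le_card fun W hW => ?_) (card_union_le _ _)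
  simp only [mem_filter, mem_union] at hW ⊢
  tauto

lemma rho_congr {F : Finset (Finset κ)} {x y : κ} (h : ∀ W ∈ F, x ∈ W ↔ y ∈ W) (t : κ) :
    rho F t x = rho F t y := by
  unfold rho
  congr 1
  exact filter_congr fun W hW => by rw [h W hW]

lemma cw_ite (w : κ → κ → ℕ) {X W : Finset κ} (h : W ⊆ X) :
    cw w W (X \ W) = ∑ a ∈ X, ∑ b ∈ X, if a ∈ W ∧ b ∉ W then w a b else 0 := by
  unfold cw
  rw [← sum_subset h fun a _ ha => by simp [ha]]
  refine sum_congr rfl fun a ha => ?_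
  rw [sdiff_eq_filter, sum_filter]
  simp [ha]

lemma sum_rho {w : κ → κ → ℕ} (hw : Sy w) {X : Finset κ} {F : Finset (Finset κ)}
    (hF : ∀ W ∈ F, W ⊆ X) :
    ∑ a ∈ X, ∑ b ∈ X, w a b * rho F a b = ∑ W ∈ F, 2 * cw w W (X \ W) := by
  have h1 : ∀ a b, w a b * rho F a b = ∑ W ∈ F, ((if a ∈ W ∧ b ∉ W then w a b else 0) +
      if b ∈ W ∧ a ∉ W then w b a else 0) := fun a b => by
    rw [rho, card_filter, mul_sum]
    refine sum_congr rfl fun W _ => ?_
    by_cases ha : a ∈ W <;> by_cases hb : b ∈ W <;> simp [ha, hb, hw b a]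
  simp only [h1]
  rw [sum_congr rfl fun a _ => sum_comm, sum_comm]
  refine sum_congr rfl fun W hW => ?_
  simp only [sum_add_distrib]
  rw [two_mul, cw_ite w (hF W hW)]
  congr 1
  exact sum_comm

lemma balls {w : κ → κ → ℕ} {X T : Finset κ} {F : Finset (Finset κ)} {h l : ℕ}
    (far : ∀ t ∈ T, ∀ t' ∈ T, t ≠ t' → 2 * h ≤ rho F t t' + 1)
    (cut : ∀ t ∈ T, ∀ i < h, l ≤ cw w (X.filter fun y => rho F t y ≤ i)
      (X \ X.filter fun y => rho F t y ≤ i)) :
    T.card * (h * l) ≤ ∑ a ∈ X, ∑ b ∈ X, w a b * rho F a b := by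
  have h1 : T.card * (h * l) ≤ ∑ t ∈ T, ∑ i ∈ range h, ∑ a ∈ X, ∑ b ∈ X,
      w a b * if rho F t a ≤ i ∧ i < rho F t b then 1 else 0 := by
    rw [← smul_eq_mul, ← sum_const]
    refine sum_le_sum fun t ht => ?_
    conv_lhs => rw [← card_range h, ← smul_eq_mul, ← sum_const]
    refine sum_le_sum fun i hi => (cut t ht i (mem_range.1 hi)).trans (le_of_eq ?_)
    rw [cw_ite w (filter_subset _ _)]
    refine sum_congr rfl fun a ha => sum_congr rfl fun b hb => ?_
    simp [ha, hb]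
  refine h1.trans ?_
  rw [sum_congr rfl fun t _ => sum_comm, sum_comm]
  refine sum_le_sum fun a _ => ?_
  rw [sum_congr rfl fun t _ => sum_comm, sum_comm]
  refine sum_le_sum fun b _ => ?_
  simp only [← mul_sum]
  refine Nat.mul_le_mul_left _ ?_
  have h2 : ∀ t, (∑ i ∈ range h, if rho F t a ≤ i ∧ i < rho F t b then 1 else 0) ≤ rho F a b :=
    fun t => by
      rw [← card_filter]
      refine (card_le_card (t := Ico (rho F t a) (rho F t b)) fun i hi => ?_).trans ?_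
      · exact mem_Ico.2 (mem_filter.1 hi).2
      · have := rho_tri F t a b
        rw [Nat.card_Ico]
        omega
  by_cases h3 : ∃ t ∈ T, rho F t a < h
  · obtain ⟨t, ht, h3⟩ := h3
    rw [sum_eq_single t (fun t' ht' hne => ?_) fun h4 => absurd ht h4]
    · exact h2 t
    refine sum_eq_zero fun i hi => if_neg fun h4 => ?_
    have k1 := far t ht t' ht' hne.symm
    have k2 := rho_tri F t a t'
    have k3 := rho_comm F a t'
    have k4 := mem_range.1 hi
    omega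
  · refine (sum_eq_zero fun t ht => sum_eq_zero fun i hi => if_neg fun h4 => h3 ⟨t, ht, ?_⟩).trans_le
      (Nat.zero_le _)
    exact h4.1.trans_lt (mem_range.1 hi)

lemma card_le_pow {T : Finset κ} {F : Finset (Finset κ)}
    (inj : ∀ W ∈ F, ∀ W' ∈ F, (∀ t ∈ T, t ∈ W ↔ t ∈ W') → W = W') : F.card ≤ 2 ^ T.card := by
  rw [← card_powerset]
  refine card_le_card_of_injOn (fun W => T.filter (· ∈ W))
    (fun W _ => mem_coe.2 (mem_powerset.2 (filter_subset _ _))) fun W hW W' hW' h => ?_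
  refine inj W hW W' hW' fun t ht => ?_
  have := congrArg (t ∈ ·) h
  simpa [ht] using this

lemma main {w : κ → κ → ℕ} (hw : Sy w) {X : Finset κ} {l j : ℕ} (hl : 1 ≤ l) (d : ℕ)
    (hd : max 1 (4 * j) ≤ d) : ∀ (T : Finset κ) (F : Finset (Finset κ)), T.card = d → T ⊆ X →
    (∀ W ∈ F, W ⊆ X ∧ cw w W (X \ W) ≤ j * l) →
    (∀ W ∈ F, ∀ W' ∈ F, (∀ t ∈ T, t ∈ W ↔ t ∈ W') → W = W') →
    (∀ B ⊆ X, (∀ x ∈ X, ∀ y ∈ X, (∀ W ∈ F, x ∈ W ↔ y ∈ W) → x ∈ B → y ∈ B) → (∃ t ∈ T, t ∈ B) →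
      (∃ t ∈ T, t ∉ B) → l ≤ cw w B (X \ B)) →
    F.card ≤ 2 * 2 ^ (4 * j) * d.choose (4 * j) := by
  induction d, hd using Nat.le_induction with
  | base =>
    intro T F hT _ _ inj _
    have h1 := card_le_pow inj
    rw [hT] at h1
    rcases Nat.eq_zero_or_pos j with rfl | hj
    · simpa using h1
    · rw [max_eq_right (by omega)] at h1 ⊢
      rw [Nat.choose_self]
      omega
  | succ d hd ih =>
    intro T F hT hX hF inj cut
    have hd1 : 1 ≤ d := (le_max_left _ _).trans hd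
    have hd2 : 4 * j ≤ d := (le_max_right _ _).trans hd
    obtain ⟨⟨t, t'⟩, hp, hmin⟩ := exists_min_image T.offDiag (fun p => rho F p.1 p.2) (by
      rw [← card_pos, offDiag_card, hT]
      have : d + 1 < (d + 1) * (d + 1) := by nlinarith
      omega)
    obtain ⟨ht, ht', hne⟩ := mem_offDiag.1 hp
    simp only at ht ht' hne hmin
    set r := rho F t t' with hr
    have h1 := balls (w := w) (X := X) (T := T) (F := F) (h := (r + 1) / 2) (l := l)
      (fun s hs s' hs' h => by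
        have := hmin (s, s') (mem_offDiag.2 ⟨hs, hs', h⟩)
        simp only at this
        omega)
      (fun s hs i hi => cut _ (filter_subset _ _) (fun x _ y hy h hx => by
          rw [mem_filter] at hx ⊢
          exact ⟨hy, rho_congr h s ▸ hx.2⟩)
        ⟨s, hs, mem_filter.2 ⟨hX hs, by simp [rho_self]⟩⟩ (by
          obtain ⟨s', hs', h⟩ : ∃ s' ∈ T, s ≠ s' := by
            by_cases h : s = t
            · exact ⟨t', ht', h ▸ hne⟩
            · exact ⟨t, ht, h⟩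
          refine ⟨s', hs', fun h2 => ?_⟩
          have k1 := hmin (s, s') (mem_offDiag.2 ⟨hs, hs', h⟩)
          have k2 := (mem_filter.1 h2).2
          simp only at k1
          omega))
    rw [sum_rho hw fun W hW => (hF W hW).1, hT] at h1
    have h2 : ∑ W ∈ F, 2 * cw w W (X \ W) ≤ F.card * (2 * (j * l)) := by
      rw [← smul_eq_mul, ← sum_const]
      exact sum_le_sum fun W hW => Nat.mul_le_mul_left _ (hF W hW).2
    have h3 : (d + 1) * r ≤ F.card * (4 * j) := by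
      have k1 : (d + 1) * ((r + 1) / 2) ≤ F.card * (2 * j) :=
        Nat.le_of_mul_le_mul_right (by nlinarith [h1.trans h2]) hl
      have k2 : r ≤ 2 * ((r + 1) / 2) := by omega
      nlinarith [Nat.mul_le_mul_left (d + 1) k2]
    have h4 := ih (T.erase t') (F.filter fun W => t ∈ W ↔ t' ∈ W)
      (by rw [card_erase_of_mem ht', hT]; rfl) ((erase_subset _ _).trans hX)
      (fun W hW => hF W (mem_filter.1 hW).1)
      (fun W hW W' hW' h => by
        rw [mem_filter] at hW hW'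
        refine inj W hW.1 W' hW'.1 fun s hs => ?_
        by_cases e : s = t'
        · rw [e, ← hW.2, ← hW'.2]
          exact h t (mem_erase.2 ⟨hne, ht⟩)
        · exact h s (mem_erase.2 ⟨e, hs⟩))
      (fun B hB h ⟨s, hs, k⟩ ⟨s', hs', k'⟩ => cut B hB
        (fun x hx y hy h' => h x hx y hy fun W hW => h' W (mem_filter.1 hW).1)
        ⟨s, mem_of_mem_erase hs, k⟩ ⟨s', mem_of_mem_erase hs', k'⟩)
    have h5 : (F.filter fun W => t ∈ W ↔ t' ∈ W).card + r = F.card :=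
      card_filter_add_card_filter_not _
    have h6 := Nat.choose_mul_succ_eq d (4 * j)
    obtain ⟨e, he⟩ := Nat.exists_eq_add_of_le hd2
    have h7 : d + 1 - 4 * j = e + 1 := by omega
    rw [h7] at h6
    refine Nat.le_of_mul_le_mul_right (c := e + 1) ?_ (Nat.succ_pos e)
    rw [mul_assoc _ _ (e + 1), ← h6, ← mul_assoc]
    have h8 := Nat.mul_le_mul_right (d + 1) h4
    generalize 2 * 2 ^ (4 * j) * d.choose (4 * j) = M at *
    generalize (F.filter fun W => t ∈ W ↔ t' ∈ W).card = N' at *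
    have h9 : F.card * (d + 1) = F.card * (e + 1) + F.card * (4 * j) := by rw [he]; ring
    nlinarith

end KargP

open KargP in
theorem karg : KargStmt := by
  intro κ w X D l j hw hD hX hl hc
  suffices h : ∀ S : Finset (Finset (Finset κ)), (∀ A ∈ S, A ⊆ D ∧ ∃ W ⊆ X, Resp D W ∧
      (∀ Z ∈ D, Z ∈ A ↔ Z ⊆ W) ∧ cw w W (X \ W) ≤ j * l) →
      S.card ≤ 2 * (2 * D.card + 2) ^ (4 * j) from h _ fun A hA => by
    simp only [mem_filter, mem_powerset] at hA
    exact hA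
  intro S hS
  by_cases hd : max 1 (4 * j) ≤ D.card
  swap
  · have h1 : S.card ≤ 2 ^ D.card := by
      rw [← card_powerset]
      exact card_le_card fun A hA => mem_powerset.2 (hS A hA).1
    have h2 : 2 ^ (4 * j) ≤ (2 * D.card + 2) ^ (4 * j) := Nat.pow_le_pow_left (by omega) _
    have h3 : 2 ^ D.card ≤ 2 ^ (4 * j) := Nat.pow_le_pow_right two_pos (by omega)
    omega
  have h0 : ∀ A ∈ S, ∃ W ⊆ X, Resp D W ∧ (∀ Z ∈ D, Z ∈ A ↔ Z ⊆ W) ∧ cw w W (X \ W) ≤ j * l :=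
    fun A hA => (hS A hA).2
  choose! W h1 h2 h3 h4 using h0
  have hne : Nonempty κ := by
    obtain ⟨Z, hZ⟩ := card_pos.1 ((le_max_left _ _).trans hd)
    exact ⟨(hX Z hZ).2.choose⟩
  choose! t ht using fun Z hZ => (hX Z hZ).2
  have key : ∀ {B : Finset κ}, Resp D B → ∀ Z ∈ D, ∀ x ∈ Z, x ∈ B ↔ Z ⊆ B := fun hB Z hZ x hx =>
    ⟨fun h => (hB Z hZ).resolve_right fun h' => disjoint_left.1 h' hx h, fun h => h hx⟩
  have i1 : ∀ A ∈ S, ∀ A' ∈ S, (∀ Z ∈ D, Z ⊆ W A ↔ Z ⊆ W A') → A = A' := fun A hA A' hA' h => by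
    have k1 := (hS A hA).1
    have k2 := (hS A' hA').1
    ext Z
    exact ⟨fun hZ => (h3 A' hA' Z (k1 hZ)).2 ((h Z (k1 hZ)).1 ((h3 A hA Z (k1 hZ)).1 hZ)),
      fun hZ => (h3 A hA Z (k2 hZ)).2 ((h Z (k2 hZ)).2 ((h3 A' hA' Z (k2 hZ)).1 hZ))⟩
  have e1 : (S.image W).card = S.card := card_image_of_injOn fun A hA A' hA' h =>
    i1 A hA A' hA' fun Z _ => by rw [h]
  have e2 : (D.image t).card = D.card := card_image_of_injOn fun Z hZ Z' hZ' h => by
    by_contra hn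
    exact disjoint_left.1 (hD Z hZ Z' hZ' hn) (ht Z hZ) (h ▸ ht Z' hZ')
  have := main hw (X := X) hl D.card hd (D.image t) (S.image W) e2
    (fun x hx => by
      obtain ⟨Z, hZ, rfl⟩ := mem_image.1 hx
      exact (hX Z hZ).1 (ht Z hZ))
    (fun V hV => by
      obtain ⟨A, hA, rfl⟩ := mem_image.1 hV
      exact ⟨h1 A hA, h4 A hA⟩)
    (fun V hV V' hV' h => by
      obtain ⟨A, hA, rfl⟩ := mem_image.1 hV
      obtain ⟨A', hA', rfl⟩ := mem_image.1 hV'
      rw [i1 A hA A' hA' fun Z hZ => by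
        rw [← key (h2 A hA) Z hZ _ (ht Z hZ), ← key (h2 A' hA') Z hZ _ (ht Z hZ)]
        exact h _ (mem_image_of_mem _ hZ)])
    (fun B hB h ⟨s, hs, k⟩ ⟨s', hs', k'⟩ => by
      obtain ⟨Z, hZ, rfl⟩ := mem_image.1 hs
      obtain ⟨Z', hZ', rfl⟩ := mem_image.1 hs'
      have hR : Resp D B := fun Y hY => by
        by_cases h5 : Disjoint Y B
        · exact Or.inr h5
        obtain ⟨x, hx, hx'⟩ := not_disjoint_iff.1 h5
        refine Or.inl fun y hy => h x ((hX Y hY).1 hx) y ((hX Y hY).1 hy) (fun V hV => ?_) hx'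
        obtain ⟨A, hA, rfl⟩ := mem_image.1 hV
        rw [key (h2 A hA) Y hY x hx, key (h2 A hA) Y hY y hy]
      exact hc B hB hR ⟨Z, hZ, (key hR Z hZ _ (ht Z hZ)).1 k⟩
        ⟨Z', hZ', (hR Z' hZ').resolve_left fun h5 => k' (h5 (ht Z' hZ'))⟩)
  rw [e1] at this
  refine this.trans ?_
  rw [mul_assoc]
  refine Nat.mul_le_mul_left _ ((Nat.mul_le_mul_left _ (Nat.choose_le_pow _ _)).trans ?_)
  rw [← mul_pow]
  exact Nat.pow_le_pow_left (by omega) _

end Pool.Agent.MP_35cb46_co.Nl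

end
end MrgPart0

-- ======== part 1: formerly Pool.Agent.MP_35cb46_co.nl.Play
section MrgPart1

/-! PROJECT NL, row PLAY: the cut-matching game on tokens of rooted atoms gives a net. -/

noncomputable section

namespace Pool.Agent.MP_35cb46_co.Nl

open Finset Pool.Agent.MP_7be75d_co Pool.Agent.MP_35cb46_co.Sq
open scoped Classical

namespace PlayP

variable {V κ ι K P : Type}

lemma wl_mono {w : κ → κ → ℕ} {X : Finset κ} {τ τ' : κ → ℕ} {k : ℕ} (h : WL w X τ k)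
    (hτ : ∀ v ∈ X, τ' v ≤ τ v) : WL w X τ' k := fun A hA =>
  le_trans (min_le_min (sum_le_sum fun v hv => hτ v (hA hv))
    (sum_le_sum fun v hv => hτ v (mem_sdiff.1 hv).1)) (h A hA)

lemma ind_le {A B : Finset κ} {v : κ} (h : v ∈ A → v ∈ B) : ind A v ≤ ind B v := by
  unfold ind
  by_cases hv : v ∈ A
  · rw [if_pos hv, if_pos (h hv)]
  · rw [if_neg hv]; exact Nat.zero_le _

lemma assign {β : Type} [DecidableEq P] [Fintype K] (a : K → P) (av : P → Finset β)
    (h : ∀ x, (univ.filter fun k => a k = x).card ≤ (av x).card) :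
    ∃ f : K → β, (∀ k, f k ∈ av (a k)) ∧ Function.Injective fun k => (a k, f k) := by
  have h1 : ∀ x, ∃ F : {k // a k = x} ↪ β, Set.range F ⊆ av x := fun x =>
    Function.Embedding.exists_of_card_le_finset (by rw [Fintype.card_subtype]; exact h x)
  choose F hF using h1
  refine ⟨fun k => F (a k) ⟨k, rfl⟩, fun k => hF _ ⟨_, rfl⟩, fun k k' e => ?_⟩
  have e1 : a k = a k' := congrArg Prod.fst e
  have e2 : F (a k) ⟨k, rfl⟩ = F (a k') ⟨k', rfl⟩ := congrArg Prod.snd e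
  have e3 : ∀ x (hx : a k = x), F (a k) ⟨k, rfl⟩ = F x ⟨k, hx⟩ := by rintro x rfl; rfl
  rw [e3 _ e1] at e2
  exact congrArg Subtype.val ((F _).injective e2)

lemma swap (I : Finset K) (u v : K → ι) (hu : Set.InjOn u I) (hv : Set.InjOn v I)
    (huv : ∀ k ∈ I, ∀ k' ∈ I, u k ≠ v k') :
    ∃ μ : ι → ι, (∀ x, μ (μ x) = x) ∧ (∀ k ∈ I, μ (u k) = v k) ∧ (∀ k ∈ I, μ (v k) = u k) ∧
      ∀ x, μ x ≠ x → ∃ k ∈ I, x = u k ∨ x = v k := by
  let μ : ι → ι := fun x => if h : ∃ k ∈ I, u k = x then v h.choose else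
    if h : ∃ k ∈ I, v k = x then u h.choose else x
  have h1 : ∀ k ∈ I, μ (u k) = v k := fun k hk => by
    have h : ∃ k' ∈ I, u k' = u k := ⟨k, hk, rfl⟩
    simp only [μ, dif_pos h]
    rw [hu h.choose_spec.1 hk h.choose_spec.2]
  have h2 : ∀ k ∈ I, μ (v k) = u k := fun k hk => by
    have h' : ¬ ∃ k' ∈ I, u k' = v k := fun ⟨k', hk', e⟩ => huv k' hk' k hk e
    have h : ∃ k' ∈ I, v k' = v k := ⟨k, hk, rfl⟩
    simp only [μ, dif_neg h', dif_pos h]
    rw [hv h.choose_spec.1 hk h.choose_spec.2]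
  have h3 : ∀ x, μ x ≠ x → ∃ k ∈ I, x = u k ∨ x = v k := fun x hx => by
    by_contra hc
    push Not at hc
    have a1 : ¬ ∃ k ∈ I, u k = x := fun ⟨k, hk, e⟩ => (hc k hk).1 e.symm
    have a2 : ¬ ∃ k ∈ I, v k = x := fun ⟨k, hk, e⟩ => (hc k hk).2 e.symm
    exact hx (by simp only [μ, dif_neg a1, dif_neg a2])
  refine ⟨μ, fun x => ?_, h1, h2, h3⟩
  by_cases hx : μ x = x
  · rw [hx, hx]
  · obtain ⟨k, hk, rfl | rfl⟩ := h3 x hx
    · rw [h1 k hk, h2 k hk]
    · rw [h2 k hk, h1 k hk]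

/-- Tokens of the atom `a` in `S`. -/
def av [DecidableEq P] {w : ℕ} (S : Finset (P × Fin w)) (a : P) : Finset (Fin w) :=
  univ.filter fun i => (a, i) ∈ S

lemma av_compl [DecidableEq P] [Fintype P] {w : ℕ} (S : Finset (P × Fin w)) (a : P) :
    (av S a).card + (av Sᶜ a).card = w := by
  have := card_filter_add_card_filter_not (s := (univ : Finset (Fin w))) fun i => (a, i) ∈ S
  simpa [av] using this

lemma card_eq_av [DecidableEq P] [Fintype P] {w : ℕ} (S : Finset (P × Fin w)) :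
    S.card = ∑ a, (av S a).card := by
  have : S.card = (univ.filter fun x => x ∈ S).card := by simp
  rw [this, card_filter, Fintype.sum_prod_type]
  refine sum_congr rfl fun a _ => ?_
  rw [av, card_filter]

lemma le_cr {μ : ι → ι} {S : Finset ι} (T : Finset ι) (h : ∀ x ∈ T, x ∈ S ∧ μ x ∉ S) :
    T.card ≤ cr μ S := card_le_card fun x hx => mem_filter.2 (h x hx)

lemma cr_le {μ : ι → ι} {S : Finset ι} (T : Finset ι) (h : ∀ x ∈ S, μ x ∉ S → x ∈ T) :
    cr μ S ≤ T.card := card_le_card fun x hx => h x (mem_filter.1 hx).1 (mem_filter.1 hx).2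

lemma mk_swap [DecidableEq P] [Fintype P] [Fintype K] {w : ℕ} (S : Finset (P × Fin w)) (α β : K → P)
    (hα : ∀ a, (univ.filter fun k => α k = a).card ≤ (av S a).card)
    (hβ : ∀ a, (univ.filter fun k => β k = a).card ≤ (av Sᶜ a).card) :
    ∃ μ : P × Fin w → P × Fin w, (∀ x, μ (μ x) = x) ∧ Fintype.card K ≤ cr μ S ∧
      ∀ p : P → Prop, cr μ (univ.filter fun x => p x.1) ≤
        (univ.filter fun k => ¬ (p (α k) ↔ p (β k))).card := by
  obtain ⟨f, f1, f2⟩ := assign α (av S) hα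
  obtain ⟨g, g1, g2⟩ := assign β (av Sᶜ) hβ
  have hf : ∀ k, (α k, f k) ∈ S := fun k => (mem_filter.1 (f1 k)).2
  have hg : ∀ k, (β k, g k) ∉ S := fun k => mem_compl.1 (mem_filter.1 (g1 k)).2
  obtain ⟨μ, m1, m2, m3, m4⟩ := swap univ (fun k => (α k, f k)) (fun k => (β k, g k))
    f2.injOn g2.injOn fun k _ k' _ e => hg k' (e ▸ hf k)
  refine ⟨μ, m1, ?_, fun p => ?_⟩
  · rw [← card_univ, ← card_image_of_injective _ f2]
    refine le_cr _ fun x hx => ?_
    obtain ⟨k, -, rfl⟩ := mem_image.1 hx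
    rw [m2 k (mem_univ _)]
    exact ⟨hf k, hg k⟩
  · refine le_trans (cr_le _ fun x hx1 hx2 => ?_)
      (card_image_le (f := fun k => if p (α k) then (α k, f k) else (β k, g k)))
    have hx : p x.1 ∧ ¬ p (μ x).1 := by simpa using And.intro hx1 hx2
    obtain ⟨k, -, rfl | rfl⟩ := m4 x fun e => hx.2 (by rw [e]; exact hx.1)
    · rw [m2 k (mem_univ _)] at hx
      refine mem_image.2 ⟨k, mem_filter.2 ⟨mem_univ _, fun e => hx.2 (e.1 hx.1)⟩, if_pos hx.1⟩
    · rw [m3 k (mem_univ _)] at hx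
      refine mem_image.2 ⟨k, mem_filter.2 ⟨mem_univ _, fun e => hx.2 (e.2 hx.1)⟩, if_neg hx.2⟩

lemma inner [DecidableEq P] [Fintype P] {w : ℕ} (S : Finset (P × Fin w)) :
    ∃ μ : P × Fin w → P × Fin w, (∀ x, μ (μ x) = x) ∧
      ∑ a, min (av S a).card (av Sᶜ a).card ≤ cr μ S ∧
      ∀ p : P → Prop, cr μ (univ.filter fun x => p x.1) = 0 := by
  have hc : ∀ a, (univ.filter fun k : Σ a, Fin (min (av S a).card (av Sᶜ a).card) =>
      k.1 = a).card = min (av S a).card (av Sᶜ a).card := fun a => by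
    rw [card_filter, Fintype.sum_sigma, sum_eq_single a]
    · simp
    · intro b _ hb; simp [hb]
    · simp
  obtain ⟨μ, m1, m2, m3⟩ := mk_swap S
    (fun k : Σ a, Fin (min (av S a).card (av Sᶜ a).card) => k.1) (fun k => k.1)
    (fun a => (hc a).trans_le (min_le_left _ _)) (fun a => (hc a).trans_le (min_le_right _ _))
  refine ⟨μ, m1, by simpa using m2, fun p => by simpa using m3 p⟩

lemma split [DecidableEq P] [Fintype P] {w g n q : ℕ} (sd : P → Bool) (hw : 1 ≤ w)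
    (h1 : (univ.filter fun a => sd a = true).card = 2 * n)
    (h2 : (univ.filter fun a => sd a = false).card = 2 * n) (hP : Fintype.card P = 4 * n)
    (hg : 448 * g ≤ n * w) (hq : 4 * q ≤ n + 3) (hn : 8 ≤ n) (S : Finset (P × Fin w)) (hS : Bal S)
    (hlt : ∑ a, min (av S a).card (av Sᶜ a).card < g) :
    ∃ A B : Finset P, A.card = q ∧ B.card = q ∧ (∀ a ∈ A, sd a = true) ∧ (∀ b ∈ B, sd b = false) ∧
      (((∀ a ∈ A, (w + 1) / 2 ≤ (av S a).card) ∧ ∀ b ∈ B, (w + 1) / 2 ≤ (av Sᶜ b).card) ∨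
        ((∀ a ∈ A, (w + 1) / 2 ≤ (av Sᶜ a).card) ∧ ∀ b ∈ B, (w + 1) / 2 ≤ (av S b).card)) := by
  let H : P → Prop := fun a => w ≤ 2 * (av S a).card
  have e1 : S.card ≤ (univ.filter H).card * w + ∑ a, min (av S a).card (av Sᶜ a).card := by
    rw [card_eq_av, card_filter, sum_mul, ← sum_add_distrib]
    refine sum_le_sum fun a _ => ?_
    have := av_compl S a
    by_cases h : H a
    · rw [if_pos h]; omega
    · rw [if_neg h]; simp only [H] at h; omega
  have e2 : Sᶜ.card ≤ (univ.filter fun a => ¬ H a).card * w +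
      ∑ a, min (av S a).card (av Sᶜ a).card := by
    rw [card_eq_av, card_filter, sum_mul, ← sum_add_distrib]
    refine sum_le_sum fun a _ => ?_
    have := av_compl S a
    by_cases h : H a
    · rw [if_neg (not_not.2 h)]; simp only [H] at h; omega
    · rw [if_pos h]; omega
  obtain ⟨b1, b2⟩ := hS
  have e3 := card_add_card_compl S
  rw [Fintype.card_prod, Fintype.card_fin, hP, mul_assoc] at b1 b2 e3
  have e4 : 447 * n ≤ 448 * (univ.filter H).card :=
    Nat.le_of_mul_le_mul_right (by rw [mul_assoc, mul_assoc]; omega) hw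
  have e5 : 895 * n ≤ 448 * (univ.filter fun a => ¬ H a).card :=
    Nat.le_of_mul_le_mul_right (by rw [mul_assoc, mul_assoc]; omega) hw
  have c1 := card_filter_add_card_filter_not (s := univ.filter fun a => sd a = true) H
  have c2 := card_filter_add_card_filter_not (s := univ.filter fun a => sd a = false) H
  have c3 : ∀ (p : P → Prop) [DecidablePred p], (univ.filter p).card ≤
      ((univ.filter fun a => sd a = true).filter p).card +
      ((univ.filter fun a => sd a = false).filter p).card := fun p _ => by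
    refine le_trans (card_le_card fun a ha => ?_) (card_union_le _ _)
    simp only [mem_filter, mem_univ, true_and, mem_union] at ha ⊢
    cases sd a <;> simp [ha]
  have c4 := c3 H
  have c5 := c3 fun a => ¬ H a
  have hH : ∀ a, H a → (w + 1) / 2 ≤ (av S a).card := fun a h => by simp only [H] at h; omega
  have hL : ∀ a, ¬ H a → (w + 1) / 2 ≤ (av Sᶜ a).card := fun a h => by
    have := av_compl S a
    simp only [H] at h; omega
  by_cases hc : q ≤ ((univ.filter fun a => sd a = true).filter H).card ∧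
      q ≤ ((univ.filter fun a => sd a = false).filter fun a => ¬ H a).card
  · obtain ⟨A, hA, a1⟩ := exists_subset_card_eq hc.1
    obtain ⟨B, hB, a2⟩ := exists_subset_card_eq hc.2
    exact ⟨A, B, a1, a2, fun a ha => (mem_filter.1 (mem_filter.1 (hA ha)).1).2,
      fun a ha => (mem_filter.1 (mem_filter.1 (hB ha)).1).2,
      Or.inl ⟨fun a ha => hH a (mem_filter.1 (hA ha)).2, fun a ha => hL a (mem_filter.1 (hB ha)).2⟩⟩
  · obtain ⟨A, hA, a1⟩ := exists_subset_card_eq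
      (s := (univ.filter fun a => sd a = true).filter fun a => ¬ H a) (n := q) (by omega)
    obtain ⟨B, hB, a2⟩ := exists_subset_card_eq
      (s := (univ.filter fun a => sd a = false).filter H) (n := q) (by omega)
    exact ⟨A, B, a1, a2, fun a ha => (mem_filter.1 (mem_filter.1 (hA ha)).1).2,
      fun a ha => (mem_filter.1 (mem_filter.1 (hB ha)).1).2,
      Or.inr ⟨fun a ha => hL a (mem_filter.1 (hA ha)).2, fun a ha => hH a (mem_filter.1 (hB ha)).2⟩⟩

/-- The number of paths between two atoms. -/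
def mul (I : Finset K) (α β : K → κ) (a b : κ) : ℕ :=
  (I.filter fun k => (α k = a ∧ β k = b) ∨ (α k = b ∧ β k = a)).card

lemma mul_symm (I : Finset K) (α β : K → κ) (a b : κ) : mul I α β a b = mul I α β b a := by
  unfold mul
  exact congrArg card (filter_congr fun k _ => or_comm)

lemma cut_le {I : Finset K} {α β : K → κ} {J : Finset κ} (h : ∀ k ∈ I, α k ∈ J ∧ β k ∈ J)
    (A : Finset κ) :
    (I.filter fun k => ¬ (α k ∈ A ↔ β k ∈ A)).card ≤ cw (mul I α β) A (J \ A) := by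
  refine le_trans (card_le_card (t := A.biUnion fun a => (J \ A).biUnion fun b =>
    I.filter fun k => (α k = a ∧ β k = b) ∨ (α k = b ∧ β k = a)) fun k hk => ?_)
    (card_biUnion_le.trans (sum_le_sum fun a _ => card_biUnion_le))
  obtain ⟨hk, e⟩ := mem_filter.1 hk
  simp only [mem_biUnion, mem_filter, mem_sdiff]
  by_cases ha : α k ∈ A
  · exact ⟨α k, ha, β k, ⟨(h k hk).2, by tauto⟩, hk, Or.inl ⟨rfl, rfl⟩⟩
  · exact ⟨β k, by tauto, α k, ⟨(h k hk).1, ha⟩, hk, Or.inr ⟨rfl, rfl⟩⟩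

lemma net (hext : ExtStmt) {G : SimpleGraph V} {Amb Rt Ro C : Finset V} {T w c : ℕ}
    {J : Finset κ} {X : κ → Finset V} (sd : κ → Bool) (I : Finset K) (s s' z : K → V)
    (Q : K → Finset V) (α β : K → κ) (fam : Fam G Amb J X) (hQ : Fam G Amb I Q)
    (hQX : ∀ k ∈ I, ∀ a ∈ J, Disjoint (X a) (Q k)) (hQR : ∀ k ∈ I, Disjoint (Q k) Ro)
    (is : Set.InjOn s I) (is' : Set.InjOn s' I)
    (hl : ∀ k ∈ I, α k ∈ J ∧ sd (α k) = true ∧ s k ∈ X (α k) ∧ s k ∈ C ∧ ∃ y ∈ Q k, G.Adj (s k) y)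
    (hr : ∀ k ∈ I, β k ∈ J ∧ sd (β k) = false ∧ s' k ∈ X (β k) ∧ s' k ∈ C ∧ z k ∈ Q k ∧
      G.Adj (s' k) (z k))
    (hC : Disjoint C Ro) (rt : Ro ⊆ Rt) (root : ∀ a ∈ J, (Ro ∩ X a).card = w)
    (xwl : ∀ a ∈ J, WL (aw G) (X a) (ind (Ro ∪ C)) (T + 1))
    (cap : ∀ a, (I.filter fun k => α k = a).card ≤ T * w ∧ (I.filter fun k => β k = a).card ≤ T * w)
    (hexp : WL (mul I α β) J (fun _ => w) c) :
    ∃ N : ND V κ, IsNet G Amb Rt T w c N ∧ N.J = J := by
  have iz : Set.InjOn z I := fun k hk k' hk' e => by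
    by_contra hne
    exact disjoint_left.1 (hQ.disj k hk k' hk' hne) (hr k hk).2.2.2.2.1
      (e ▸ (hr k' hk').2.2.2.2.1)
  have zs : ∀ k ∈ I, ∀ k' ∈ I, z k ≠ s' k' := fun k hk k' hk' e =>
    disjoint_left.1 (hQX k hk _ (hr k' hk').1) (hr k' hk').2.2.1 (e ▸ (hr k hk).2.2.2.2.1)
  obtain ⟨μ, m1, m2, m3, -⟩ := swap I z s' iz is' zs
  let X' : κ → Finset V := fun a => X a ∪ (I.filter fun k => α k = a).biUnion Q
  have mX : ∀ a x, x ∈ X' a ↔ x ∈ X a ∨ ∃ k ∈ I, α k = a ∧ x ∈ Q k := fun a x => by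
    simp only [X', mem_union, mem_biUnion, mem_filter, and_assoc]
  have zX : ∀ k ∈ I, z k ∈ X' (α k) := fun k hk =>
    (mX _ _).2 (Or.inr ⟨k, hk, rfl, (hr k hk).2.2.2.2.1⟩)
  have sX : ∀ k ∈ I, s' k ∈ X' (β k) := fun k hk => (mX _ _).2 (Or.inl (hr k hk).2.2.1)
  have dX : ∀ a ∈ J, ∀ b ∈ J, a ≠ b → Disjoint (X' a) (X' b) := fun a ha b hb hab => by
    refine disjoint_left.2 fun x h1 h2 => ?_
    rcases (mX _ _).1 h1 with h1 | ⟨k, hk, e, h1⟩ <;> rcases (mX _ _).1 h2 with h2 | ⟨k', hk', e', h2⟩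
    · exact disjoint_left.1 (fam.disj a ha b hb hab) h1 h2
    · exact disjoint_left.1 (hQX k' hk' a ha) h1 h2
    · exact disjoint_left.1 (hQX k hk b hb) h2 h1
    · exact disjoint_left.1 (hQ.disj k hk k' hk' fun e'' => hab (by rw [← e, ← e', e''])) h1 h2
  have zX' : ∀ k ∈ I, ∀ a ∈ J, z k ∈ X' a → α k = a := fun k hk a ha h => by
    by_contra hne
    exact disjoint_left.1 (dX _ (hl k hk).1 a ha hne) (zX k hk) h
  have sX' : ∀ k ∈ I, ∀ a ∈ J, s' k ∈ X' a → β k = a := fun k hk a ha h => by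
    by_contra hne
    exact disjoint_left.1 (dX _ (hr k hk).1 a ha hne) (sX k hk) h
  have mT : ∀ x, x ∈ I.image z ∪ I.image s' ↔ ∃ k ∈ I, x = z k ∨ x = s' k := fun x => by
    simp only [mem_union, mem_image]
    constructor
    · rintro (⟨k, hk, e⟩ | ⟨k, hk, e⟩)
      · exact ⟨k, hk, Or.inl e.symm⟩
      · exact ⟨k, hk, Or.inr e.symm⟩
    · rintro ⟨k, hk, e | e⟩
      · exact Or.inl ⟨k, hk, e.symm⟩
      · exact Or.inr ⟨k, hk, e.symm⟩
  refine ⟨⟨J, X', I.image z ∪ I.image s', Ro, μ, sd⟩, ⟨⟨?_, ?_, dX⟩, ?_, rt, ?_, ?_, ?_, ?_, ?_⟩,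
    rfl⟩ <;> dsimp only
  · intro a ha x hx
    rcases (mX _ _).1 hx with h | ⟨k, hk, -, h⟩
    · exact fam.sub a ha h
    · exact hQ.sub k hk h
  · intro a ha
    refine (fam.conn a ha).attach_sets _ fun k hk0 => ?_
    obtain ⟨hk, rfl⟩ := mem_filter.1 hk0
    obtain ⟨-, -, h1, -, y, h2, h3⟩ := hl k hk
    exact ⟨hQ.conn k hk, s k, h1, y, h2, h3⟩
  · intro x hx
    obtain ⟨k, hk, rfl | rfl⟩ := (mT x).1 hx
    · refine ⟨?_, m1 _, ?_, α k, (hl k hk).1, β k, (hr k hk).1, zX k hk, ?_, ?_⟩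
      · rw [m2 k hk]; exact (mT _).2 ⟨k, hk, Or.inr rfl⟩
      · rw [m2 k hk]; exact (hr k hk).2.2.2.2.2.symm
      · rw [m2 k hk]; exact sX k hk
      · rw [(hl k hk).2.1, (hr k hk).2.1]; decide
    · refine ⟨?_, m1 _, ?_, β k, (hr k hk).1, α k, (hl k hk).1, sX k hk, ?_, ?_⟩
      · rw [m3 k hk]; exact (mT _).2 ⟨k, hk, Or.inl rfl⟩
      · rw [m3 k hk]; exact (hr k hk).2.2.2.2.2
      · rw [m3 k hk]; exact zX k hk
      · rw [(hl k hk).2.1, (hr k hk).2.1]; decide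
  · refine disjoint_left.2 fun x hx h => ?_
    obtain ⟨k, hk, rfl | rfl⟩ := (mT x).1 hx
    · exact disjoint_left.1 (hQR k hk) (hr k hk).2.2.2.2.1 h
    · exact disjoint_left.1 hC (hr k hk).2.2.2.1 h
  · intro a ha
    cases e : sd a
    · refine le_trans (card_le_card fun x hx => ?_) ((card_image_le (f := s')).trans (cap a).2)
      obtain ⟨h1, h2⟩ := mem_inter.1 hx
      obtain ⟨k, hk, rfl | rfl⟩ := (mT x).1 h1
      · have := (hl k hk).2.1
        rw [zX' k hk a ha h2, e] at this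
        exact absurd this (by decide)
      · exact mem_image_of_mem _ (mem_filter.2 ⟨hk, sX' k hk a ha h2⟩)
    · refine le_trans (card_le_card fun x hx => ?_) ((card_image_le (f := z)).trans (cap a).1)
      obtain ⟨h1, h2⟩ := mem_inter.1 hx
      obtain ⟨k, hk, rfl | rfl⟩ := (mT x).1 h1
      · exact mem_image_of_mem _ (mem_filter.2 ⟨hk, zX' k hk a ha h2⟩)
      · have := (hr k hk).2.1
        rw [sX' k hk a ha h2, e] at this
        exact absurd this (by decide)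
  · intro a ha
    rw [← root a ha]
    congr 1
    ext x
    simp only [mem_inter, mX]
    refine and_congr_right fun hx => ⟨?_, Or.inl⟩
    rintro (h | ⟨k, hk, -, h⟩)
    · exact h
    · exact absurd hx (disjoint_left.1 (hQR k hk) h)
  · intro a ha
    have e1 : X a ∪ (I.filter fun k => α k = a).biUnion (fun k => insert (s k) (Q k)) = X' a := by
      ext x
      simp only [mX, mem_union, mem_biUnion, mem_filter, mem_insert]
      constructor
      · rintro (h | ⟨k, ⟨hk, rfl⟩, rfl | h⟩)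
        · exact Or.inl h
        · exact Or.inl (hl k hk).2.2.1
        · exact Or.inr ⟨k, hk, rfl, h⟩
      · rintro (h | ⟨k, hk, e, h⟩)
        · exact Or.inl h
        · exact Or.inr ⟨k, ⟨hk, e⟩, Or.inr h⟩
    have := hext V K G (X a) ((Ro ∪ I.image s') ∩ X a) (I.filter fun k => α k = a) z s
      (fun k => insert (s k) (Q k)) (T + 1) (by omega) inter_subset_right ?_ ?_ ?_ ?_
    · rw [e1] at this
      refine wl_mono this fun v hv => ind_le fun h => ?_
      rcases mem_union.1 h with h | h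
      · obtain ⟨k, hk, rfl | rfl⟩ := (mT v).1 h
        · exact mem_union_right _ (mem_image_of_mem _ (mem_filter.2 ⟨hk, zX' k hk a ha hv⟩))
        · refine mem_union_left _ (mem_inter.2 ⟨mem_union_right _ (mem_image_of_mem _ hk), ?_⟩)
          rw [← sX' k hk a ha hv]; exact (hr k hk).2.2.1
      · refine mem_union_left _ (mem_inter.2 ⟨mem_union_left _ h, ?_⟩)
        rcases (mX _ _).1 hv with h' | ⟨k, hk, -, h'⟩
        · exact h'
        · exact absurd h (disjoint_left.1 (hQR k hk) h')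
    · intro k hk h
      obtain ⟨hk, e⟩ := mem_filter.1 hk
      rcases mem_union.1 (mem_inter.1 h).1 with h' | h'
      · exact disjoint_left.1 hC (hl k hk).2.2.2.1 h'
      · obtain ⟨k', hk', e'⟩ := mem_image.1 h'
        have h1 := sX' k' hk' a ha ((mX _ _).2 (Or.inl (e' ▸ (mem_inter.1 h).2)))
        have h2 := (hr k' hk').2.1
        rw [h1, ← e, (hl k hk).2.1] at h2
        exact absurd h2 (by decide)
    · intro k hk
      obtain ⟨hk, e⟩ := mem_filter.1 hk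
      obtain ⟨-, -, h1, -, y, h2, h3⟩ := hl k hk
      refine ⟨(hQ.conn k hk).insert h2 h3.symm, ?_, mem_insert_of_mem (hr k hk).2.2.2.2.1⟩
      ext x
      simp only [mem_inter, mem_insert, mem_singleton]
      constructor
      · rintro ⟨rfl | h, h'⟩
        · rfl
        · exact absurd h (disjoint_left.1 (hQX k hk a ha) h')
      · rintro rfl
        exact ⟨Or.inl rfl, e ▸ h1⟩
    · intro k hk k' hk' hne
      obtain ⟨hk, -⟩ := mem_filter.1 hk
      obtain ⟨hk', -⟩ := mem_filter.1 hk'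
      refine disjoint_left.2 fun x h1 h2 => ?_
      rcases mem_insert.1 h1 with rfl | h1 <;> rcases mem_insert.1 h2 with h2 | h2
      · exact hne (is hk hk' h2)
      · exact disjoint_left.1 (hQX k' hk' _ (hl k hk).1) (hl k hk).2.2.1 h2
      · exact disjoint_left.1 (hQX k hk _ (hl k' hk').1) (hl k' hk').2.2.1 (h2 ▸ h1)
      · exact disjoint_left.1 (hQ.disj k hk k' hk' hne) h1 h2
    · refine wl_mono (xwl a ha) fun v _ => ind_le fun h => ?_
      rcases mem_union.1 h with h | h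
      · rcases mem_union.1 (mem_inter.1 h).1 with h | h
        · exact mem_union_left _ h
        · obtain ⟨k, hk, rfl⟩ := mem_image.1 h
          exact mem_union_right _ (hr k hk).2.2.2.1
      · obtain ⟨k, hk, rfl⟩ := mem_image.1 h
        exact mem_union_right _ (hl k (mem_filter.1 hk).1).2.2.2.1
  · intro A hA
    refine (hexp A hA).trans (Nat.mul_le_mul_left _ (sum_le_sum fun a _ => sum_le_sum fun b _ => ?_))
    unfold mul ND.mu
    dsimp only
    refine card_le_card_of_injOn (fun k => if α k = a ∧ β k = b then z k else s' k)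
      (fun k hk => ?_) fun k hk k' hk' e => ?_
    · obtain ⟨hk, h⟩ := mem_filter.1 (mem_coe.1 hk)
      refine mem_coe.2 ?_
      dsimp only
      by_cases h1 : α k = a ∧ β k = b
      · rw [if_pos h1, mem_filter, mem_inter, m2 k hk, ← h1.1, ← h1.2]
        exact ⟨⟨(mT _).2 ⟨k, hk, Or.inl rfl⟩, zX k hk⟩, sX k hk⟩
      · have h2 := h.resolve_left h1
        rw [if_neg h1, mem_filter, mem_inter, m3 k hk, ← h2.1, ← h2.2]
        exact ⟨⟨(mT _).2 ⟨k, hk, Or.inr rfl⟩, sX k hk⟩, zX k hk⟩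
    · have hk := (mem_filter.1 (mem_coe.1 hk)).1
      have hk' := (mem_filter.1 (mem_coe.1 hk')).1
      dsimp only at e
      split_ifs at e
      · exact iz hk hk' e
      · exact absurd e (zs k hk k' hk')
      · exact absurd e.symm (zs k' hk' k hk)
      · exact is' hk hk' e

/-- The paths of one round. -/
structure Rd (V κ : Type) where
  m : ℕ
  s : Fin m → V
  s' : Fin m → V
  Q : Fin m → Finset V
  α : Fin m → κ
  β : Fin m → κ

/-- The empty round. -/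
def Rd.nil (V κ : Type) : Rd V κ := ⟨0, Fin.elim0, Fin.elim0, Fin.elim0, Fin.elim0, Fin.elim0⟩

instance : Nonempty (Rd V κ) := ⟨Rd.nil V κ⟩

/-- A legal round that dominates the matching `μ` of tokens. -/
structure ROk (G : SimpleGraph V) (J : Finset κ) (X : κ → Finset V) (sd : κ → Bool)
    (R Cd : Finset V) (y : V → V) (w : ℕ) (μ : J × Fin w → J × Fin w) (D : Rd V κ) : Prop where
  tok : Tok G R D.Q
  is : Function.Injective D.s
  is' : Function.Injective D.s'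
  left : ∀ k, D.α k ∈ J ∧ sd (D.α k) = true ∧ D.s k ∈ X (D.α k) ∧ D.s k ∈ Cd ∧ y (D.s k) ∈ D.Q k
  right : ∀ k, D.β k ∈ J ∧ sd (D.β k) = false ∧ D.s' k ∈ X (D.β k) ∧ D.s' k ∈ Cd ∧
    y (D.s' k) ∈ D.Q k
  cap : ∀ a, (univ.filter fun k => D.α k = a).card ≤ w ∧ (univ.filter fun k => D.β k = a).card ≤ w
  cut : ∀ A : Finset κ, cr μ (univ.filter fun x => x.1.1 ∈ A) ≤
    (univ.filter fun k => ¬ (D.α k ∈ A ↔ D.β k ∈ A)).card

lemma step {G : SimpleGraph V} {Amb Rt Ro : Finset V} {T w n g t : ℕ} {J J₀ : Finset κ}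
    {X : κ → Finset V} {R Cd : ℕ → Finset V} {y : ℕ → V → V} (h : Ready G Amb Rt T w J X R Cd y Ro)
    (hJ : J₀ ⊆ J) (sd : κ → Bool) (hw : 1 ≤ w) (h0 : J₀.card = 4 * n)
    (h1 : (J₀.filter fun a => sd a = true).card = 2 * n)
    (h2 : (J₀.filter fun a => sd a = false).card = 2 * n) (hg : 448 * g ≤ n * w) (hn : 224 ≤ n)
    (ht : t ∈ Icc 1 T) (S : Finset (J₀ × Fin w)) (hS : Bal S) :
    ∃ μ : J₀ × Fin w → J₀ × Fin w, (∀ x, μ (μ x) = x) ∧ g ≤ cr μ S ∧
      ∃ D, ROk G J₀ X sd (R t) (Cd t) (y t) w μ D := by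
  by_cases hlt : ∑ a, min (av S a).card (av Sᶜ a).card < g
  swap
  · obtain ⟨μ, m1, m2, m3⟩ := inner S
    refine ⟨μ, m1, (not_lt.1 hlt).trans m2, Rd.nil V κ, ⟨fun k => k.elim0, fun k => k.elim0,
      fun k => k.elim0⟩, fun k => k.elim0, fun k => k.elim0, fun k => k.elim0, fun k => k.elim0,
      fun a => ⟨?_, ?_⟩, fun A => ?_⟩
    · exact (card_le_univ _).trans (by simp [Rd.nil])
    · exact (card_le_univ _).trans (by simp [Rd.nil])
    · exact le_of_eq_of_le (by convert m3 fun a => a.1 ∈ A) (Nat.zero_le _)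
  have cs : ∀ b, (univ.filter fun a : J₀ => sd a = b).card = (J₀.filter fun a => sd a = b).card :=
    fun b => by
      rw [univ_eq_attach, filter_attach (fun a => sd a = b), card_map, card_attach]
  obtain ⟨A, B, a1, a2, a3, a4, a5⟩ := split (q := (n + 3) / 4) (fun a : J₀ => sd a) hw
    ((cs _).trans h1) ((cs _).trans h2) (by rw [Fintype.card_coe, h0]) hg (by omega) (by omega)
    S hS hlt
  have sub : ∀ C : Finset J₀, C.map (Function.Embedding.subtype _) ⊆ J := fun C a ha => by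
    obtain ⟨a, -, rfl⟩ := mem_map.1 ha
    exact hJ a.2
  obtain ⟨m, s, s', Q, b1, b2, b3, b4, b5, b6, b7⟩ := h.orc t ht _ (sub A) _ (sub B)
    (by
      rw [disjoint_map]
      exact disjoint_left.2 fun a ha hb => by
        have := a3 a ha
        rw [a4 a hb] at this
        exact absurd this (by decide))
    (by rw [card_map, card_map, a1, a2]) (by rw [card_map, a1]; omega)
  have own : ∀ (C : Finset J₀) (v : V), v ∈ (C.map (Function.Embedding.subtype _)).biUnion X →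
      ∃ a ∈ C, v ∈ X a := fun C v hv => by
    obtain ⟨a, ha, hv⟩ := mem_biUnion.1 hv
    obtain ⟨a, ha', rfl⟩ := mem_map.1 ha
    exact ⟨a, ha', hv⟩
  choose α α1 α2 using fun k => own A _ (b5 k).2.1
  choose β β1 β2 using fun k => own B _ (b6 k).2.1
  have cα : ∀ a : J₀, (univ.filter fun k => α k = a).card ≤ (w + 1) / 2 := fun a =>
    le_trans (card_le_card fun k hk => mem_filter.2 ⟨mem_univ _, (mem_filter.1 hk).2 ▸ α2 k⟩)
      (b7 a (hJ a.2)).1
  have cβ : ∀ a : J₀, (univ.filter fun k => β k = a).card ≤ (w + 1) / 2 := fun a =>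
    le_trans (card_le_card fun k hk => mem_filter.2 ⟨mem_univ _, (mem_filter.1 hk).2 ▸ β2 k⟩)
      (b7 a (hJ a.2)).2
  have fit : ∀ (γ : Fin m → J₀) (C : Finset J₀) (S' : Finset (J₀ × Fin w)), (∀ k, γ k ∈ C) →
      (∀ a, (univ.filter fun k => γ k = a).card ≤ (w + 1) / 2) →
      (∀ a ∈ C, (w + 1) / 2 ≤ (av S' a).card) →
      ∀ a, (univ.filter fun k => γ k = a).card ≤ (av S' a).card := fun γ C S' c1 c2 c3 a => by
    by_cases ha : a ∈ C
    · exact (c2 a).trans (c3 a ha)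
    · rw [filter_eq_empty_iff.2 fun k _ (e : γ k = a) => ha (e ▸ c1 k)]
      exact Nat.zero_le _
  have capw : ∀ γ : Fin m → J₀, (∀ a, (univ.filter fun k => γ k = a).card ≤ (w + 1) / 2) →
      ∀ a : κ, (univ.filter fun k => (γ k).1 = a).card ≤ w := fun γ c a => by
    by_cases ha : a ∈ J₀
    · refine le_trans (card_le_card fun k hk => mem_filter.2 ⟨mem_univ _, ?_⟩)
        ((c ⟨a, ha⟩).trans (by omega))
      exact Subtype.ext (mem_filter.1 hk).2
    · rw [filter_eq_empty_iff.2 fun k _ (e : (γ k).1 = a) => ha (e ▸ (γ k).2)]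
      exact Nat.zero_le _
  have hm : g ≤ m := by
    rw [card_map, a1] at b1
    have : n * w ≤ 4 * ((n + 3) / 4 * w) := by
      rw [← mul_assoc]; exact Nat.mul_le_mul_right _ (by omega)
    omega
  have key : ∃ μ : J₀ × Fin w → J₀ × Fin w, (∀ x, μ (μ x) = x) ∧ m ≤ cr μ S ∧
      ∀ p : J₀ → Prop, cr μ (univ.filter fun x => p x.1) ≤
        (univ.filter fun k => ¬ (p (α k) ↔ p (β k))).card := by
    rcases a5 with ⟨c1, c2⟩ | ⟨c1, c2⟩
    · obtain ⟨μ, m1, m2, m3⟩ := mk_swap S α β (fit α A S α1 cα c1) (fit β B Sᶜ β1 cβ c2)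
      exact ⟨μ, m1, by simpa using m2, fun p => by convert m3 p⟩
    · obtain ⟨μ, m1, m2, m3⟩ := mk_swap S β α (fit β B S β1 cβ c2) (fit α A Sᶜ α1 cα c1)
      refine ⟨μ, m1, by simpa using m2, fun p => ?_⟩
      have := m3 p
      simp only [iff_comm (a := p (β _))] at this
      convert this
  obtain ⟨μ, m1, m2, m3⟩ := key
  refine ⟨μ, m1, hm.trans m2, ⟨m, s, s', Q, fun k => α k, fun k => β k⟩, b2, b3, b4,
    fun k => ⟨(α k).2, a3 _ (α1 k), α2 k, (b5 k).1, (b5 k).2.2⟩,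
    fun k => ⟨(β k).2, a4 _ (β1 k), β2 k, (b6 k).1, (b6 k).2.2⟩,
    fun a => ⟨capw α cα a, capw β cβ a⟩, fun A => ?_⟩
  convert m3 fun a => a.1 ∈ A

end PlayP

open PlayP in
theorem play (cm : Sq.CMStmt) (trim : TrimStmt) (ext : ExtStmt) : PlayStmt := by
  refine ⟨43008, by norm_num, fun V κ _ G Amb Rt T w Λ J X R Cd y Ro hT hV hJ hw h => ?_⟩
  obtain ⟨n, hn⟩ : ∃ n, n = J.card / 4 := ⟨_, rfl⟩
  obtain ⟨J₀, j1, j2⟩ := exists_subset_card_eq (s := J) (n := 4 * n) (by omega)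
  obtain ⟨P, p1, p2⟩ := exists_subset_card_eq (s := J₀) (n := 2 * n) (by omega)
  let sd : κ → Bool := fun a => decide (a ∈ P)
  have s1 : (J₀.filter fun a => sd a = true).card = 2 * n := by
    rw [← p2]; congr 1; ext a
    simp only [sd, mem_filter, decide_eq_true_eq]
    exact ⟨fun h => h.2, fun h => ⟨p1 h, h⟩⟩
  have s2 : (J₀.filter fun a => sd a = false).card = 2 * n := by
    have : (J₀.filter fun a => sd a = false) = J₀ \ P := by ext a; simp [sd]
    rw [this, card_sdiff_of_subset p1]; omega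
  obtain ⟨g, hg⟩ : ∃ g, g = n * w / 448 := ⟨_, rfl⟩
  have nw : n ≤ n * w := Nat.le_mul_of_pos_right _ hw
  have cι : Fintype.card (J₀ × Fin w) = 4 * (n * w) := by
    rw [Fintype.card_prod, Fintype.card_coe, Fintype.card_fin, j2, mul_assoc]
  have cV : 4 * (n * w) ≤ Fintype.card V := by
    have e : ∑ a ∈ J₀, (Ro ∩ X a).card = 4 * (n * w) := by
      rw [sum_congr rfl fun a ha => h.root a (j1 ha), sum_const, j2, smul_eq_mul, mul_assoc]
    rw [← e, ← card_biUnion fun a ha b hb hab => (h.fam.disj a (j1 ha) b (j1 hb) hab).mono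
      inter_subset_right inter_subset_right]
    exact card_le_univ _
  have hΛ : 1 ≤ Λ := by
    rcases Nat.eq_zero_or_pos Λ with rfl | h0
    · omega
    · exact h0
  obtain ⟨t, ht, M, hM, hcut⟩ := cm (J₀ × Fin w) g T Λ
    (fun t M => ∀ j < t, ∃ D, ROk G J₀ X sd (R (j + 1)) (Cd (j + 1)) (y (j + 1)) w (M j) D)
    (by omega)
    (by
      rw [cι]
      calc 12 * (4 * (n * w)) * Λ < 43008 * g * Λ := Nat.mul_lt_mul_of_pos_right (by omega) hΛ
        _ = 43008 * Λ * g := by ring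
        _ ≤ T * g := Nat.mul_le_mul_right _ hT)
    (fun j hj => absurd hj (Nat.not_lt_zero j))
    (fun t ht M hM S hS => by
      obtain ⟨μ, m1, m2, m3⟩ := step (g := g) (t := t + 1) h j1 sd hw j2 s1 s2 (by omega) (by omega)
        (mem_Icc.2 ⟨by omega, by omega⟩) S hS
      refine ⟨μ, m1, m2, fun j hj => ?_⟩
      by_cases e : j = t
      · subst e
        rwa [Function.update_self]
      · rw [Function.update_of_ne e]
        exact hM j (by omega))
  choose! D hD using hM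
  let K := Σ j : ℕ, Fin (D j).m
  let I : Finset K := (range t).sigma fun _ => univ
  let α : K → κ := fun k => (D k.1).α k.2
  let β : K → κ := fun k => (D k.1).β k.2
  have mI : ∀ k ∈ I, k.1 < t := fun k hk => mem_range.1 (mem_sigma.1 hk).1
  have mT : ∀ k ∈ I, k.1 + 1 ∈ Icc 1 T := fun k hk => by
    have := mI k hk
    exact mem_Icc.2 ⟨by omega, by omega⟩
  have cnt : ∀ (p : K → Prop) [DecidablePred p], (I.filter p).card =
      ∑ j ∈ range t, (univ.filter fun i : Fin (D j).m => p ⟨j, i⟩).card := fun p _ => by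
    rw [filter_sigma, card_sigma]
  have cast : ∀ (J' : Finset κ) (A : Finset κ), rw (fun a b => (mul I α β a b : ℝ)) A (J' \ A) =
      (cw (mul I α β) A (J' \ A) : ℕ) := fun J' A => by simp [rw, cw]
  obtain ⟨A, t1, t2, -, t3⟩ := trim κ (fun a b => (mul I α β a b : ℝ)) J₀ (w / 10752) n
    (fun a b => by rw [mul_symm]) (fun a b => Nat.cast_nonneg _) (Or.inl j2.ge)
    (fun S hS c1 c2 => by
      have e : (univ.filter fun x : J₀ × Fin w => x.1.1 ∈ S).card = S.card * w := by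
        rw [card_eq_av]
        have : ∀ a : J₀, (av (univ.filter fun x : J₀ × Fin w => x.1.1 ∈ S) a).card =
            if a.1 ∈ S then w else 0 := fun a => by
          by_cases ha : a.1 ∈ S <;> simp [av, ha]
        rw [sum_congr rfl fun a _ => this a, sum_coe_sort J₀ fun a => if a ∈ S then w else 0,
          ← sum_filter, filter_mem_eq_inter, inter_eq_right.2 hS, sum_const, smul_eq_mul]
      have c3 : n * w ≤ S.card * w := Nat.mul_le_mul_right _ c1
      have c4 : S.card * w ≤ 2 * (n * w) := by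
        rw [← mul_assoc]; exact Nat.mul_le_mul_right _ (by omega)
      have c5 := hcut (univ.filter fun x : J₀ × Fin w => x.1.1 ∈ S)
        ⟨by rw [cι, e]; omega, by rw [cι, e]; omega⟩
      have c6 : ∑ j ∈ range t, cr (M j) (univ.filter fun x : J₀ × Fin w => x.1.1 ∈ S) ≤
          cw (mul I α β) S (J₀ \ S) := by
        refine le_trans ?_ (cut_le (fun k hk =>
          ⟨((hD _ (mI k hk)).left _).1, ((hD _ (mI k hk)).right _).1⟩) S)
        rw [cnt]
        exact sum_le_sum fun j hj => (hD j (mem_range.1 hj)).cut S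
      have c7 : S.card * w ≤ 10752 * cw (mul I α β) S (J₀ \ S) := by omega
      have c8 : (S.card * w : ℝ) ≤ 10752 * (cw (mul I α β) S (J₀ \ S) : ℕ) := by exact_mod_cast c7
      rw [cast]
      linarith)
  have hsub : J₀ \ A ⊆ J := sdiff_subset.trans j1
  let I' : Finset K := I.filter fun k => α k ∈ J₀ \ A ∧ β k ∈ J₀ \ A
  have mI' : ∀ k ∈ I', k ∈ I := fun k hk => (mem_filter.1 hk).1
  have hcd : ∀ k ∈ I, Cd (k.1 + 1) ⊆ (Icc 1 T).biUnion Cd := fun k hk =>
    subset_biUnion_of_mem Cd (mT k hk)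
  have inj : ∀ s : ∀ j, Fin (D j).m → V, (∀ j < t, Function.Injective (s j)) →
      (∀ j < t, ∀ i, s j i ∈ Cd (j + 1)) → Set.InjOn (fun k : K => s k.1 k.2) I' := by
    rintro s c1 c2 ⟨j, i⟩ hk ⟨j', i'⟩ hk' e
    have hk := mI' _ hk
    have hk' := mI' _ hk'
    by_cases ej : j = j'
    · subst ej
      rw [show i = i' from c1 j (mI _ hk) e]
    · exact absurd (c2 j' (mI _ hk') i') (disjoint_left.1 (h.cdisj _ (mT _ hk) _ (mT _ hk')
        (by simpa using ej)) ((show s j i = s j' i' from e) ▸ c2 j (mI _ hk) i))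
  have capT : ∀ γ : ∀ j, Fin (D j).m → κ,
      (∀ j < t, ∀ a, (univ.filter fun i => γ j i = a).card ≤ w) →
      ∀ a, (I'.filter fun k : K => γ k.1 k.2 = a).card ≤ T * w := fun γ c a => by
    refine (card_le_card (filter_subset_filter _ mI')).trans ?_
    rw [cnt]
    refine (sum_le_card_nsmul _ _ w fun j hj => c j (mem_range.1 hj) a).trans ?_
    rw [card_range, smul_eq_mul]
    exact Nat.mul_le_mul_right _ ht
  obtain ⟨N, n1, n2⟩ := net (G := G) (Amb := Amb) (Rt := Rt) (Ro := Ro)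
    (C := (Icc 1 T).biUnion Cd) (T := T) (w := w) (c := 43008) (J := J₀ \ A) (X := X) ext sd I'
    (fun k => (D k.1).s k.2) (fun k => (D k.1).s' k.2) (fun k => y (k.1 + 1) ((D k.1).s' k.2))
    (fun k => (D k.1).Q k.2) α β
    ⟨fun a ha => h.fam.sub a (hsub ha), fun a ha => h.fam.conn a (hsub ha),
      fun a ha b hb => h.fam.disj a (hsub ha) b (hsub hb)⟩
    ⟨fun k hk => ((hD _ (mI k (mI' k hk))).tok.sub _).trans (h.rsub _ (mT k (mI' k hk))),
      fun k hk => (hD _ (mI k (mI' k hk))).tok.conn _, by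
        rintro ⟨j, i⟩ hk ⟨j', i'⟩ hk' hne
        have hk := mI' _ hk
        have hk' := mI' _ hk'
        by_cases ej : j = j'
        · subst ej
          exact (hD _ (mI _ hk)).tok.disj _ _ fun e => hne (by rw [show i = i' from e])
        · exact (h.rdisj _ (mT _ hk) _ (mT _ hk') (by simpa using ej)).mono
            ((hD _ (mI _ hk)).tok.sub _) ((hD _ (mI _ hk')).tok.sub _)⟩
    (fun k hk a ha => (h.xr a (hsub ha) _ (mT k (mI' k hk))).mono_right
      ((hD _ (mI k (mI' k hk))).tok.sub _))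
    (fun k hk => (h.rro _ (mT k (mI' k hk))).mono_left ((hD _ (mI k (mI' k hk))).tok.sub _))
    (inj (fun j => (D j).s) (fun j hj => (hD j hj).is) fun j hj i => ((hD j hj).left i).2.2.2.1)
    (inj (fun j => (D j).s') (fun j hj => (hD j hj).is') fun j hj i => ((hD j hj).right i).2.2.2.1)
    (fun k hk => by
      obtain ⟨-, c1, c2, c3, c4⟩ := (hD _ (mI k (mI' k hk))).left k.2
      exact ⟨(mem_filter.1 hk).2.1, c1, c2, hcd k (mI' k hk) c3, _, c4,
        h.adj _ (mT k (mI' k hk)) _ c3⟩)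
    (fun k hk => by
      obtain ⟨-, c1, c2, c3, c4⟩ := (hD _ (mI k (mI' k hk))).right k.2
      exact ⟨(mem_filter.1 hk).2.2, c1, c2, hcd k (mI' k hk) c3, c4,
        h.adj _ (mT k (mI' k hk)) _ c3⟩)
    ((disjoint_biUnion_left _ _ _).2 h.cro) h.rt (fun a ha => h.root a (hsub ha))
    (fun a ha => h.xwl a (hsub ha))
    (fun a => ⟨capT (fun j => (D j).α) (fun j hj a => ((hD j hj).cap a).1) a,
      capT (fun j => (D j).β) (fun j hj a => ((hD j hj).cap a).2) a⟩)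
    (by
      have eq : ∀ S ⊆ J₀ \ A, cw (mul I α β) S ((J₀ \ A) \ S) =
          cw (mul I' α β) S ((J₀ \ A) \ S) := fun S hS =>
        sum_congr rfl fun a ha => sum_congr rfl fun b hb => by
          have ha := hS ha
          have hb := (mem_sdiff.1 hb).1
          unfold mul
          rw [filter_filter]
          refine congrArg card (filter_congr fun k _ => ⟨fun e => ⟨?_, e⟩, fun e => e.2⟩)
          rcases e with ⟨e1, e2⟩ | ⟨e1, e2⟩ <;> rw [e1, e2]
          · exact ⟨ha, hb⟩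
          · exact ⟨hb, ha⟩
      have half : ∀ S ⊆ J₀ \ A, 2 * S.card ≤ (J₀ \ A).card →
          ts (fun _ => w) S ≤ 43008 * cw (mul I' α β) S ((J₀ \ A) \ S) := fun S hS c => by
        have c1 := t3 S hS c
        rw [cast, eq S hS] at c1
        have c2 : (S.card * w : ℝ) ≤ 43008 * (cw (mul I' α β) S ((J₀ \ A) \ S) : ℕ) := by
          have : (0 : ℝ) ≤ (cw (mul I' α β) S ((J₀ \ A) \ S) : ℕ) := Nat.cast_nonneg _
          linarith
        rw [ts, sum_const, smul_eq_mul]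
        exact_mod_cast c2
      intro S hS
      by_cases c : 2 * S.card ≤ (J₀ \ A).card
      · exact (min_le_left _ _).trans (half S hS c)
      · have c1 := half ((J₀ \ A) \ S) sdiff_subset (by rw [card_sdiff_of_subset hS]; omega)
        rw [Finset.sdiff_sdiff_eq_self hS, cw_comm (mul_symm I' α β)] at c1
        exact (min_le_right _ _).trans c1)
  refine ⟨N, n1, ?_⟩
  rw [n2, card_sdiff_of_subset t1]
  omega

end Pool.Agent.MP_35cb46_co.Nl

end
end MrgPart1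

-- ======== part 2: formerly Pool.Agent.MP_35cb46_co.nl.Prep
section MrgPart2

/-! PROJECT NL, row PREP: rooting the atoms, preparing the routers, and the game. -/

noncomputable section

namespace Pool.Agent.MP_35cb46_co.Nl

open Finset Pool.Agent.MP_7be75d_co Pool.Agent.MP_35cb46_co.Sq
open scoped Classical

namespace PrepP

variable {V κ ι : Type} {G : SimpleGraph V} {Amb Rt Old : Finset V} {T w K K₁ : ℕ} {J : Finset κ}
  {X : κ → Finset V} {R Cd : ℕ → Finset V} {y : ℕ → V → V}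

/-- Equality in a sum type is decided classically. -/
local instance (priority := high) decEqSum {α β : Type} : DecidableEq (α ⊕ β) :=
  fun a b => Classical.propDecidable (a = b)

/-- One router answers every cut. -/
def Orc (G : SimpleGraph V) (w : ℕ) (J : Finset κ) (X : κ → Finset V) (R Cd : Finset V)
    (y : V → V) : Prop :=
  ∀ A ⊆ J, ∀ B ⊆ J, Disjoint A B → A.card = B.card → 56 ≤ A.card →
    ∃ (m : ℕ) (s s' : Fin m → V) (Q : Fin m → Finset V), A.card * w ≤ 112 * m ∧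
      Tok G R Q ∧ Function.Injective s ∧ Function.Injective s' ∧
      (∀ k, s k ∈ Cd ∧ s k ∈ A.biUnion X ∧ y (s k) ∈ Q k) ∧
      (∀ k, s' k ∈ Cd ∧ s' k ∈ B.biUnion X ∧ y (s' k) ∈ Q k) ∧
      ∀ a ∈ J, (univ.filter fun k => s k ∈ X a).card ≤ (w + 1) / 2 ∧
        (univ.filter fun k => s' k ∈ X a).card ≤ (w + 1) / 2

lemma owner {U : Finset V} (h : Fam G U J X) (hJ : J.Nonempty) :
    ∃ o : V → κ, ∀ a ∈ J, ∀ x ∈ X a, o x = a := by
  refine ⟨fun x => if h : ∃ a ∈ J, x ∈ X a then h.choose else hJ.choose, fun a ha x hx => ?_⟩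
  have e : ∃ a ∈ J, x ∈ X a := ⟨a, ha, hx⟩
  dsimp only
  rw [dif_pos e]
  exact h.eq e.choose_spec.1 ha e.choose_spec.2 hx

lemma fib_count {I : Finset ι} {o : ι → κ} {A : Finset κ} {u : ℕ} (h : ∀ a ∈ A, u ≤ cnt I o a) :
    A.card * u ≤ (I.filter fun i => o i ∈ A).card := by
  rw [← ts_cnt]; exact card_le_ts h

lemma cnt_le [Fintype V] (hd : Deg G univ 6) {C : Finset V} {z : V → V}
    (h : ∀ x ∈ C, G.Adj x (z x)) (v : V) : cnt C z v ≤ 6 := by
  refine le_trans (card_le_card fun x hx => ?_) (hd v (mem_univ v))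
  obtain ⟨h1, rfl⟩ := mem_filter.1 hx
  exact mem_filter.2 ⟨mem_univ _, (h x h1).symm⟩

lemma indep (r : κ → κ → Prop) [∀ a, DecidablePred (r a)] (hr : ∀ a b, r a b → r b a) (J : Finset κ) (D : ℕ)
    (h0 : ∀ a ∈ J, r a a) (hD : ∀ a ∈ J, (J.filter (r a)).card ≤ D) :
    ∃ J' ⊆ J, (∀ a ∈ J', ∀ b ∈ J', r a b → a = b) ∧ J.card ≤ J'.card * D := by
  obtain ⟨J', ⟨h1, h2⟩, h3⟩ := exists_max_of
    (p := fun J' : Finset κ => J' ⊆ J ∧ ∀ a ∈ J', ∀ b ∈ J', r a b → a = b) card J.card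
    (fun a ha => card_le_card ha.1) ⟨∅, empty_subset _, by simp⟩
  refine ⟨J', h1, h2, le_trans (card_le_card (t := J'.biUnion fun a => J.filter (r a))
    fun b hb => ?_) (card_biUnion_le.trans (sum_le_card_nsmul _ _ _ fun a ha => hD a (h1 ha)))⟩
  by_contra hc
  simp only [mem_biUnion, mem_filter, not_exists, not_and] at hc
  have hb' : b ∉ J' := fun e => hc b e hb (h0 b hb)
  have := h3 (insert b J') ⟨insert_subset hb h1, fun a ha c hc' e => by
    rcases mem_insert.1 ha with h4 | h4 <;> rcases mem_insert.1 hc' with h5 | h5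
    · rw [h4, h5]
    · exact absurd (hr _ _ (h4 ▸ e)) (hc c h5 hb)
    · exact absurd (h5 ▸ e) (hc a h4 hb)
    · exact h2 a h4 c h5 e⟩
  rw [card_insert_of_notMem hb'] at this
  omega

lemma root [Fintype V] (link : LinkStmt) (hd : Deg G univ 6) (hK : 1 ≤ K) (hJ : J.Nonempty)
    (h : Pre G Amb Rt T w K₁ K J X R Cd y Old) (c m : ℕ)
    (h1 : ∀ i ≤ J.card, 14 * K * m ≤ 14 * K * (c * (J.card - i)) + i * w)
    (h2 : 14 * K * m ≤ Old.card) :
    ∃ (s s' : Fin m → V) (Q : Fin m → Finset V), Tok G (R 0) Q ∧ Function.Injective s ∧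
      Function.Injective s' ∧ (∀ k, s k ∈ Cd 0 ∧ y 0 (s k) ∈ Q k) ∧ (∀ k, s' k ∈ Old ∧ s' k ∈ Q k) ∧
      ∀ a ∈ J, (univ.filter fun k => s k ∈ X a).card ≤ c := by
  obtain ⟨o, ho⟩ := owner h.fam hJ
  have z : 0 ≤ T := Nat.zero_le T
  have hc : ∀ v, cnt ((Cd 0).image Sum.inl ∪ Old.image Sum.inr) (Sum.elim (y 0) id) v ≤
      cnt (Cd 0) (y 0) v + ind Old v := fun v => by
    refine le_trans (card_le_card (t := ((Cd 0).filter fun x => y 0 x = v).image Sum.inl ∪
      (Old.filter fun x => x = v).image Sum.inr) fun i hi => ?_)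
      ((card_union_le _ _).trans (add_le_add card_image_le (card_image_le.trans ?_)))
    · obtain ⟨hi, e⟩ := mem_filter.1 hi
      rcases mem_union.1 hi with hi | hi <;> obtain ⟨x, hx, rfl⟩ := mem_image.1 hi
      · exact mem_union_left _ (mem_image_of_mem _ (mem_filter.2 ⟨hx, e⟩))
      · exact mem_union_right _ (mem_image_of_mem _ (mem_filter.2 ⟨hx, e⟩))
    · by_cases hv : v ∈ Old
      · rw [ind_of_mem hv]
        exact card_le_one.2 fun a ha b hb => (mem_filter.1 ha).2.trans (mem_filter.1 hb).2.symm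
      · rw [filter_eq_empty_iff.2 fun x hx (e : x = v) => hv (e ▸ hx)]
        exact Nat.zero_le _
  obtain ⟨s, s', Q, a1, a2, a3, a4, a5, a6⟩ := link V (V ⊕ V) (κ ⊕ V) G (R 0)
    ((Cd 0).image Sum.inl) (Old.image Sum.inr) (Sum.elim (y 0) id) (Sum.map o id)
    (J.image Sum.inl) (Old.image Sum.inr) c 1 K m hd hK
    (disjoint_left.2 fun i h1 h2 => by
      obtain ⟨x, -, rfl⟩ := mem_image.1 h1
      simp at h2)
    (fun i hi => by
      rcases mem_union.1 hi with hi | hi <;> obtain ⟨x, hx, rfl⟩ := mem_image.1 hi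
      · exact (h.adj 0 z x hx).1
      · exact (mem_inter.1 (h.old hx)).1)
    (fun v => by
      have := hc v
      have := cnt_le hd (fun x hx => (h.adj 0 z x hx).2) v
      have := ind_le_one Old v
      convert (show cnt ((Cd 0).image Sum.inl ∪ Old.image Sum.inr) (Sum.elim (y 0) id) v ≤ 7 by
        omega))
    ((h.rwl 0 z).tau fun v _ => by
      rw [if_pos rfl]
      convert hc v)
    (fun i hi => by
      obtain ⟨x, hx, rfl⟩ := mem_image.1 hi
      obtain ⟨a, ha, hx⟩ := mem_biUnion.1 (h.csub 0 z hx)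
      exact mem_image.2 ⟨a, ha, by simp [ho a ha x hx]⟩)
    (fun i hi => by
      obtain ⟨x, hx, rfl⟩ := mem_image.1 hi
      exact mem_image.2 ⟨x, hx, rfl⟩)
    (fun A₁ hA₁ A₂ hA₂ => by
      have b1 : A₁.card * w ≤ _ := fib_count (I := (Cd 0).image Sum.inl) (o := Sum.map o id)
        fun a ha => by
          obtain ⟨a, ha', rfl⟩ := mem_image.1 (hA₁ ha)
          rw [← h.card a ha' 0 z, ← card_image_of_injective _ (Sum.inl_injective (β := V))]
          refine card_le_card fun i hi => ?_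
          obtain ⟨x, hx, rfl⟩ := mem_image.1 hi
          exact mem_filter.2 ⟨mem_image_of_mem _ (mem_inter.1 hx).1,
            by simp [ho a ha' x (mem_inter.1 hx).2]⟩
      have b2 : A₂.card * 1 ≤ _ := fib_count (I := Old.image (Sum.inr (α := V)))
        (o := Sum.map o id) fun a ha => by
          obtain ⟨a, ha', rfl⟩ := mem_image.1 (hA₂ ha)
          exact card_pos.2 ⟨Sum.inr a, mem_filter.2 ⟨mem_image_of_mem _ ha', rfl⟩⟩
      have c1 : (J.image (Sum.inl (β := V))).card = J.card :=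
        card_image_of_injective _ Sum.inl_injective
      have c2 : (Old.image (Sum.inr (α := κ))).card = Old.card :=
        card_image_of_injective _ Sum.inr_injective
      have d1 := card_le_card hA₁
      have d2 := card_le_card hA₂
      have e1 := h1 A₁.card (by omega)
      have e2 : Old.card - A₂.card ≤ 14 * K * (Old.card - A₂.card) :=
        Nat.le_mul_of_pos_left _ (by omega)
      have goal : 14 * K * m ≤ 14 * K * (c * (J.card - A₁.card) + 1 * (Old.card - A₂.card)) +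
          min (A₁.card * w) (A₂.card * 1) := by
        rw [mul_add, one_mul]
        omega
      refine goal.trans (add_le_add (le_of_eq ?_) (min_le_min ?_ ?_))
      · rw [← c1, ← c2, ← card_sdiff_of_subset hA₁, ← card_sdiff_of_subset hA₂]
      · convert b1
      · convert b2)
  choose x x1 x2 using fun k => mem_image.1 (a4 k).1
  choose x' x1' x2' using fun k => mem_image.1 (a5 k).1
  refine ⟨x, x', Q, a1, fun k k' e => a2 (by rw [← x2, ← x2, e]),
    fun k k' e => a3 (by rw [← x2', ← x2', e]), fun k => ⟨x1 k, ?_⟩, fun k => ⟨x1' k, ?_⟩,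
    fun a ha => le_trans (card_le_card fun k hk => ?_) (a6 (Sum.inl a)).1⟩
  · have := (a4 k).2
    rwa [← x2 k] at this
  · have := (a5 k).2
    rwa [← x2' k] at this
  · refine mem_filter.2 ⟨mem_univ _, ?_⟩
    rw [← x2 k, Sum.map_inl, ho a ha _ (mem_filter.1 hk).2]

lemma orc_of [Fintype V] (link : LinkStmt) (hd : Deg G univ 6) {U R₀ R' C C₀ : Finset V}
    {z : V → V} {K' u w' : ℕ} (fam : Fam G U J X) (hK : 1 ≤ K') (hR : R' ⊆ R₀) (hC : C ⊆ C₀)
    (hu : ∀ a ∈ J, u ≤ (C ∩ X a).card) (hz : ∀ x ∈ C, z x ∈ R' ∧ G.Adj x (z x))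
    (hwl : WL (aw G) R' (cnt C z) K')
    (hm : ∀ n, 56 ≤ n → ∃ m, n * w' ≤ 112 * m ∧
      ∀ i ≤ n, 14 * K' * m ≤ 14 * K' * ((w' + 1) / 2 * (n - i)) + i * u) :
    Orc G w' J X R₀ C₀ z := by
  intro A hA B hB hAB e h56
  obtain ⟨m, m1, m2⟩ := hm _ h56
  obtain ⟨o, ho⟩ := owner fam ((card_pos.1 (by omega) : A.Nonempty).mono hA)
  have sub : C ∩ A.biUnion X ∪ C ∩ B.biUnion X ⊆ C := union_subset inter_subset_left inter_subset_left
  have own : ∀ D ⊆ J, ∀ i ∈ C ∩ D.biUnion X, o i ∈ D := fun D hD i hi => by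
    obtain ⟨a, ha, hx⟩ := mem_biUnion.1 (mem_inter.1 hi).2
    rwa [ho a (hD ha) i hx]
  have fc : ∀ D ⊆ J, ∀ D' ⊆ D, D'.card * u ≤ ((C ∩ D.biUnion X).filter fun i => o i ∈ D').card :=
    fun D hD D' hD' => fib_count fun a ha => (hu a (hD (hD' ha))).trans (card_le_card fun x hx =>
      mem_filter.2 ⟨mem_inter.2 ⟨(mem_inter.1 hx).1, mem_biUnion.2 ⟨a, hD' ha, (mem_inter.1 hx).2⟩⟩,
        ho a (hD (hD' ha)) x (mem_inter.1 hx).2⟩)
  obtain ⟨s, s', Q, a1, a2, a3, a4, a5, a6⟩ := link V V κ G R' (C ∩ A.biUnion X) (C ∩ B.biUnion X)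
    z o A B ((w' + 1) / 2) ((w' + 1) / 2) K' m hd hK
    (disjoint_left.2 fun i h1 h2 => disjoint_left.1 hAB (own A hA i h1) (own B hB i h2))
    (fun i hi => (hz i (sub hi)).1)
    (fun v => (cnt_le hd (fun x hx => (hz x (sub hx)).2) v).trans (by norm_num))
    (hwl.tau fun v _ => cnt_mono sub z v) (own A hA) (own B hB)
    (fun A₁ hA₁ A₂ hA₂ => by
      have b1 := fc A hA A₁ hA₁
      have b2 := fc B hB A₂ hA₂
      have e1 := m2 A₁.card (card_le_card hA₁)
      have e2 := m2 A₂.card (e ▸ card_le_card hA₂)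
      rw [card_sdiff_of_subset hA₁, card_sdiff_of_subset hA₂, ← e, mul_add]
      omega)
  exact ⟨m, s, s', Q, m1, ⟨fun k => (a1.sub k).trans hR, a1.conn, a1.disj⟩, a2, a3,
    fun k => ⟨hC (mem_inter.1 (a4 k).1).1, (mem_inter.1 (a4 k).1).2, (a4 k).2⟩,
    fun k => ⟨hC (mem_inter.1 (a5 k).1).1, (mem_inter.1 (a5 k).1).2, (a5 k).2⟩,
    fun a ha => ⟨le_trans (card_le_card fun k hk =>
      mem_filter.2 ⟨mem_univ _, ho a ha _ (mem_filter.1 hk).2⟩) (a6 a).1,
      le_trans (card_le_card fun k hk =>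
      mem_filter.2 ⟨mem_univ _, ho a ha _ (mem_filter.1 hk).2⟩) (a6 a).2⟩⟩

lemma absorb (ext : ExtStmt) (h : Pre G Amb Rt T w (T + 1) K J X R Cd y Old)
    (hcd : ∀ t ≤ T, ∀ t' ≤ T, t ≠ t' → Disjoint (Cd t) (Cd t')) {m w' : ℕ} {s s' : Fin m → V}
    {Q : Fin m → Finset V} (tok : Tok G (R 0) Q) (is : Function.Injective s)
    (is' : Function.Injective s') (hs : ∀ k, s k ∈ Cd 0 ∧ y 0 (s k) ∈ Q k)
    (hs' : ∀ k, s' k ∈ Old ∧ s' k ∈ Q k) {J' : Finset κ} (hJ : J' ⊆ J)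
    (hw : ∀ a ∈ J', (univ.filter fun k => s k ∈ X a).card = w')
    (orc : ∀ t ∈ Icc 1 T, Orc G w' J' X (R t) (Cd t) (y t)) :
    ∃ X' Ro, Ready G Amb Rt T w' J' X' R Cd y Ro := by
  have z : 0 ≤ T := Nat.zero_le T
  let X' : κ → Finset V := fun a => X a ∪ (univ.filter fun k => s k ∈ X a).biUnion Q
  have mX : ∀ a x, x ∈ X' a ↔ x ∈ X a ∨ ∃ k, s k ∈ X a ∧ x ∈ Q k := fun a x => by
    simp only [X', mem_union, mem_biUnion, mem_filter, mem_univ, true_and]
  have XQ : ∀ a ∈ J, ∀ k, ∀ x ∈ X a, x ∉ Q k := fun a ha k x h1 h2 =>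
    disjoint_left.1 (h.xr a ha 0 z) h1 (tok.sub k h2)
  have QQ : ∀ k k', ∀ x ∈ Q k, x ∈ Q k' → k = k' := fun k k' x h1 h2 => by
    by_contra hne
    exact disjoint_left.1 (tok.disj k k' hne) h1 h2
  have CR : ∀ t ≤ T, ∀ x ∈ Cd t, x ∉ R 0 := fun t ht x hx hr => by
    obtain ⟨a, ha, hx⟩ := mem_biUnion.1 (h.csub t ht hx)
    exact disjoint_left.1 (h.xr a ha 0 z) hx hr
  have CX : ∀ t ≤ T, ∀ x ∈ Cd t, ∀ a, x ∈ X' a → x ∈ X a := fun t ht x hx a ha => by
    rcases (mX _ _).1 ha with h1 | ⟨k, -, h1⟩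
    · exact h1
    · exact absurd (tok.sub k h1) (CR t ht x hx)
  have RoR : ∀ x ∈ univ.image s', x ∈ R 0 := fun x hx => by
    obtain ⟨k, -, rfl⟩ := mem_image.1 hx
    exact tok.sub k (hs' k).2
  have sX : ∀ a ∈ J, ∀ k, s' k ∈ X' a → s k ∈ X a := fun a ha k hk => by
    rcases (mX _ _).1 hk with h1 | ⟨k', h1, h2⟩
    · exact absurd (hs' k).2 (XQ a ha k _ h1)
    · rwa [QQ k k' _ (hs' k).2 h2]
  have le : ∀ t ∈ Icc 1 T, t ≤ T := fun t ht => (mem_Icc.1 ht).2
  have ne : ∀ t ∈ Icc 1 T, t ≠ 0 := fun t ht => by have := (mem_Icc.1 ht).1; omega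
  refine ⟨X', univ.image s', ⟨?_, ?_, ?_⟩, fun t ht => h.rsub t (le t ht),
    fun t ht t' ht' => h.rdisj t (le t ht) t' (le t' ht'), ?_,
    fun t ht t' ht' => hcd t (le t ht) t' (le t' ht'),
    fun t ht => disjoint_left.2 fun x h1 h2 => CR t (le t ht) x h1 (RoR x h2),
    fun t ht => (h.rdisj t (le t ht) 0 z (ne t ht)).mono_right RoR,
    fun t ht x hx => (h.adj t (le t ht) x hx).2, ?_, ?_, ?_, ?_⟩
  · intro a ha x hx
    rcases (mX _ _).1 hx with h1 | ⟨k, -, h1⟩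
    · exact h.fam.sub a (hJ ha) h1
    · exact h.rsub 0 z (tok.sub k h1)
  · intro a ha
    exact (h.fam.conn a (hJ ha)).attach_sets _ fun k hk =>
      ⟨tok.conn k, s k, (mem_filter.1 hk).2, _, (hs k).2, (h.adj 0 z _ (hs k).1).2⟩
  · intro a ha b hb hab
    refine disjoint_left.2 fun x h1 h2 => ?_
    rcases (mX _ _).1 h1 with h1 | ⟨k, e, h1⟩ <;> rcases (mX _ _).1 h2 with h2 | ⟨k', e', h2⟩
    · exact hab (h.fam.eq (hJ ha) (hJ hb) h1 h2)
    · exact XQ a (hJ ha) k' x h1 h2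
    · exact XQ b (hJ hb) k x h2 h1
    · exact hab (h.fam.eq (hJ ha) (hJ hb) e (QQ k k' x h1 h2 ▸ e'))
  · intro a ha t ht
    refine disjoint_left.2 fun x h1 h2 => ?_
    rcases (mX _ _).1 h1 with h1 | ⟨k, -, h1⟩
    · exact disjoint_left.1 (h.xr a (hJ ha) t (le t ht)) h1 h2
    · exact disjoint_left.1 (h.rdisj t (le t ht) 0 z (ne t ht)) h2 (tok.sub k h1)
  · intro x hx
    obtain ⟨k, -, rfl⟩ := mem_image.1 hx
    exact (mem_inter.1 (h.old (hs' k).1)).2
  · intro a ha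
    rw [← hw a ha, ← card_image_of_injective _ is']
    congr 1
    ext x
    simp only [mem_inter, mem_image, mem_filter, mem_univ, true_and]
    constructor
    · rintro ⟨⟨k, rfl⟩, h1⟩
      exact ⟨k, sX a (hJ ha) k h1, rfl⟩
    · rintro ⟨k, h1, rfl⟩
      exact ⟨⟨k, rfl⟩, (mX _ _).2 (Or.inr ⟨k, h1, (hs' k).2⟩)⟩
  · intro a ha
    have e1 : X a ∪ (univ.filter fun k => s k ∈ X a).biUnion (fun k => insert (s k) (Q k)) =
        X' a := by
      ext x
      simp only [mX, mem_union, mem_biUnion, mem_filter, mem_insert, mem_univ, true_and]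
      constructor
      · rintro (h1 | ⟨k, h1, rfl | h2⟩)
        · exact Or.inl h1
        · exact Or.inl h1
        · exact Or.inr ⟨k, h1, h2⟩
      · rintro (h1 | ⟨k, h1, h2⟩)
        · exact Or.inl h1
        · exact Or.inr ⟨k, h1, Or.inr h2⟩
    have := ext V (Fin m) G (X a) ((Icc 1 T).biUnion Cd ∩ X a) (univ.filter fun k => s k ∈ X a) s' s
      (fun k => insert (s k) (Q k)) (T + 1) (by omega) inter_subset_right ?_ ?_ ?_ ?_
    · rw [e1] at this
      refine this.tau fun v hv => ind_mono fun h1 => ?_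
      rcases mem_union.1 h1 with h1 | h1
      · obtain ⟨k, -, rfl⟩ := mem_image.1 h1
        exact mem_union_right _ (mem_image_of_mem _ (mem_filter.2 ⟨mem_univ _, sX a (hJ ha) k hv⟩))
      · obtain ⟨t, ht, h2⟩ := mem_biUnion.1 h1
        exact mem_union_left _ (mem_inter.2 ⟨h1, CX t (le t ht) v h2 a hv⟩)
    · intro k _ h1
      obtain ⟨t, ht, h2⟩ := mem_biUnion.1 (mem_inter.1 h1).1
      exact disjoint_left.1 (hcd t (le t ht) 0 z (ne t ht)) h2 (hs k).1
    · intro k hk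
      have hk := (mem_filter.1 hk).2
      refine ⟨(tok.conn k).insert (hs k).2 (h.adj 0 z _ (hs k).1).2.symm, ?_,
        mem_insert_of_mem (hs' k).2⟩
      ext x
      simp only [mem_inter, mem_insert, mem_singleton]
      constructor
      · rintro ⟨rfl | h1, h2⟩
        · rfl
        · exact absurd h1 (XQ a (hJ ha) k x h2)
      · rintro rfl
        exact ⟨Or.inl rfl, hk⟩
    · intro k hk k' hk' hne
      refine disjoint_left.2 fun x h1 h2 => ?_
      rcases mem_insert.1 h1 with rfl | h1 <;> rcases mem_insert.1 h2 with h2 | h2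
      · exact hne (is h2)
      · exact XQ a (hJ ha) k' _ (mem_filter.1 hk).2 h2
      · exact XQ a (hJ ha) k _ (mem_filter.1 hk').2 (h2 ▸ h1)
      · exact hne (QQ k k' x h1 h2)
    · refine (h.xwl a (hJ ha)).tau fun v _ => ind_mono fun h1 => ?_
      rcases mem_union.1 h1 with h1 | h1
      · obtain ⟨t, ht, h2⟩ := mem_biUnion.1 (mem_inter.1 h1).1
        exact mem_biUnion.2 ⟨t, mem_range.2 (Nat.lt_succ_of_le (le t ht)), h2⟩
      · obtain ⟨k, -, rfl⟩ := mem_image.1 h1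
        exact mem_biUnion.2 ⟨0, mem_range.2 (by omega), (hs k).1⟩
  · intro t ht A hA B hB hAB e h56
    obtain ⟨n, u, u', P, a1, a2, a3, a4, a5, a6, a7⟩ := orc t ht A hA B hB hAB e h56
    have up : ∀ (D : Finset κ), D.biUnion X ⊆ D.biUnion X' := fun D =>
      biUnion_mono fun a _ => subset_union_left
    exact ⟨n, u, u', P, a1, a2, a3, a4, fun k => ⟨(a5 k).1, up A (a5 k).2.1, (a5 k).2.2⟩,
      fun k => ⟨(a6 k).1, up B (a6 k).2.1, (a6 k).2.2⟩, fun a ha =>
      ⟨le_trans (card_le_card fun k hk => mem_filter.2 ⟨mem_univ _,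
        CX t (le t ht) _ (a5 k).1 a (mem_filter.1 hk).2⟩) (a7 a ha).1,
      le_trans (card_le_card fun k hk => mem_filter.2 ⟨mem_univ _,
        CX t (le t ht) _ (a6 k).1 a (mem_filter.1 hk).2⟩) (a7 a ha).2⟩⟩

/-- Thinning the atoms so that one candidate per atom is well linked with constant two. -/
lemma thin_out [Fintype V] (core : CoreStmt) (group : GroupStmt) (pick : PickStmt)
    (link : LinkStmt) (hd : Deg G univ 6) (hT : 1 ≤ T) (hK : 1 ≤ K) (hw : 1 ≤ w)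
    (h : Pre G Amb Rt T w K₁ K J X R Cd y Old) {J₁ : Finset κ} (hJ : J₁ ⊆ J) (hne : J₁.Nonempty) :
    ∃ J' ⊆ J₁, J₁.card ≤ J'.card * (T * (14 * K)) ∧
      ∀ t ∈ Icc 1 T, Orc G 1 J' X (R t) (Cd t) (y t) := by
  by_cases hlt : J₁.card < K
  · obtain ⟨a, ha⟩ := hne
    refine ⟨{a}, singleton_subset_iff.2 ha, ?_, fun t _ A hA B _ _ _ h56 => ?_⟩
    · have : 14 * K ≤ T * (14 * K) := Nat.le_mul_of_pos_left _ hT
      rw [card_singleton]; omega
    · have := card_le_card hA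
      rw [card_singleton] at this; omega
  have hx : ∀ t, ∀ a, ∃ x : V, t ≤ T → a ∈ J → x ∈ Cd t ∩ X a := fun t a => by
    by_cases c : t ≤ T ∧ a ∈ J
    · obtain ⟨x, hx⟩ := card_pos.1 (show 0 < (Cd t ∩ X a).card by rw [h.card a c.2 t c.1]; omega)
      exact ⟨x, fun _ _ => hx⟩
    · exact ⟨(h.fam.conn _ (hJ hne.choose_spec)).1.choose, fun c1 c2 => absurd ⟨c1, c2⟩ c⟩
  choose x hx using hx
  have xC : ∀ t ≤ T, ∀ D ⊆ J, D.image (x t) ⊆ Cd t := fun t ht D hD v hv => by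
    obtain ⟨a, ha, rfl⟩ := mem_image.1 hv
    exact (mem_inter.1 (hx t a ht (hD ha))).1
  have xi : ∀ t ≤ T, Set.InjOn (x t) J₁ := fun t ht a ha b hb e =>
    h.fam.eq (hJ ha) (hJ hb) (mem_inter.1 (hx t a ht (hJ ha))).2
      (e ▸ (mem_inter.1 (hx t b ht (hJ hb))).2)
  have cnt_im : ∀ t ≤ T, ∀ D ⊆ J₁, ∀ S, ts (cnt (D.image (x t)) (y t)) S =
      (D.filter fun a => y t (x t a) ∈ S).card := fun t ht D hD S => by
    rw [ts_cnt, filter_image, card_image_of_injOn
      ((xi t ht).mono fun a ha => hD (mem_filter.1 ha).1)]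
  have hq : ∀ t, ∃ (R' : Finset V) (QQ : Finset (Finset V)), t ∈ Icc 1 T → R' ⊆ R t ∧
      (∀ a ∈ J₁, y t (x t a) ∈ R') ∧ WL (aw G) R' (cnt (J₁.image (x t)) (y t)) K ∧
      Sq.Part G R' QQ ∧ ∀ C ∈ QQ, K ≤ ts (cnt (J₁.image (x t)) (y t)) C ∧
        ts (cnt (J₁.image (x t)) (y t)) C ≤ 7 * K + 7 := fun t => by
    by_cases ht : t ∈ Icc 1 T
    swap
    · exact ⟨∅, ∅, fun c => absurd c ht⟩
    have ht' := (mem_Icc.1 ht).2
    have yR : ∀ a ∈ J₁, y t (x t a) ∈ R t := fun a ha =>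
      (h.adj t ht' _ (mem_inter.1 (hx t a ht' (hJ ha))).1).1
    have all : ∀ S, (∀ a ∈ J₁, y t (x t a) ∈ S) → ts (cnt (J₁.image (x t)) (y t)) S = J₁.card :=
      fun S hS => by rw [cnt_im t ht' _ subset_rfl, filter_true_of_mem hS]
    obtain ⟨R', r1, r2, r3, r4⟩ := core V G (R t) (cnt (J₁.image (x t)) (y t)) K
      ((h.rwl t ht').tau fun v _ => (cnt_mono (xC t ht' _ hJ) _ v).trans (Nat.le_add_right _ _))
      (by rw [all _ yR]; omega)
    have yR' : ∀ a ∈ J₁, y t (x t a) ∈ R' := fun a ha => r3 _ (yR a ha)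
      (card_pos.2 ⟨x t a, mem_filter.2 ⟨mem_image_of_mem _ ha, rfl⟩⟩)
    obtain ⟨QQ, q1, q2⟩ := group V G R' (cnt (J₁.image (x t)) (y t)) K hd r2
      (fun v => (cnt_le hd (fun u hu => (h.adj t ht' u (xC t ht' _ hJ hu)).2) v).trans (by norm_num))
      hK (by rw [all _ yR']; omega)
    exact ⟨R', QQ, fun _ => ⟨r1, yR', r4, q1, q2⟩⟩
  choose R' QQ hq using hq
  have grp : ∀ t ∈ Icc 1 T, ∀ a ∈ J₁, ∃ C ∈ QQ t, y t (x t a) ∈ C := fun t ht a ha => by
    have := (hq t ht).2.1 a ha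
    rw [← (hq t ht).2.2.2.1.un] at this
    simpa using this
  obtain ⟨J', j1, j2, j3⟩ := indep
    (fun a b => ∃ t ∈ Icc 1 T, ∃ C ∈ QQ t, y t (x t a) ∈ C ∧ y t (x t b) ∈ C)
    (fun a b ⟨t, ht, C, hC, e⟩ => ⟨t, ht, C, hC, e.symm⟩) J₁ (T * (14 * K))
    (fun a ha => by
      have ht : 1 ∈ Icc 1 T := mem_Icc.2 ⟨le_rfl, hT⟩
      obtain ⟨C, hC, e⟩ := grp 1 ht a ha
      exact ⟨1, ht, C, hC, e, e⟩)
    (fun a ha => by
      choose! C hC using fun t ht => grp t ht a ha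
      refine le_trans (card_le_card (t := (Icc 1 T).biUnion fun t =>
        J₁.filter fun b => y t (x t b) ∈ C t) fun b hb => ?_) (card_biUnion_le.trans ?_)
      · obtain ⟨hb, t, ht, C', hC', e1, e2⟩ := mem_filter.1 hb
        refine mem_biUnion.2 ⟨t, ht, mem_filter.2 ⟨hb, ?_⟩⟩
        by_cases e : C' = C t
        · exact e ▸ e2
        · exact absurd (hC t ht).2
            (disjoint_left.1 ((hq t ht).2.2.2.1.disj _ hC' _ (hC t ht).1 e) e1)
      · refine (sum_le_card_nsmul _ _ (14 * K) fun t ht => ?_).trans (by simp)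
        rw [← cnt_im t (mem_Icc.1 ht).2 _ subset_rfl]
        have := ((hq t ht).2.2.2.2 _ (hC t ht).1).2
        omega)
  refine ⟨J', j1, j3, fun t ht => ?_⟩
  have ht' := (mem_Icc.1 ht).2
  obtain ⟨r1, r2, r3, r4, r5⟩ := hq t ht
  refine orc_of (K' := 2) (u := 1) (C := J'.image (x t)) link hd
    (h.fam.mono subset_rfl (j1.trans hJ)) (by norm_num) r1 (xC t ht' _ (j1.trans hJ))
    (fun a ha => card_pos.2 ⟨x t a, mem_inter.2 ⟨mem_image_of_mem _ ha,
      (mem_inter.1 (hx t a ht' (hJ (j1 ha)))).2⟩⟩) (fun v hv => ?_)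
    (pick V G (R' t) _ _ K (QQ t) hK r3 r4 fun C hC => ⟨(r5 C hC).1, ?_⟩)
    fun n hn => ⟨n / 28, by omega, fun i hi => by omega⟩
  · refine ⟨?_, (h.adj t ht' v (xC t ht' _ (j1.trans hJ) hv)).2⟩
    obtain ⟨a, ha, rfl⟩ := mem_image.1 hv
    exact r2 a (j1 ha)
  · rw [cnt_im t ht' _ j1]
    exact card_le_one.2 fun a ha b hb => j2 a (mem_filter.1 ha).1 b (mem_filter.1 hb).1
      ⟨t, ht, C, hC, (mem_filter.1 ha).2, (mem_filter.1 hb).2⟩

lemma total {m : ℕ} {s : Fin m → V} (h : Pre G Amb Rt T w K₁ K J X R Cd y Old)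
    (hs : ∀ k, s k ∈ Cd 0) : ∑ a ∈ J, (univ.filter fun k => s k ∈ X a).card = m := by
  rw [← card_biUnion (t := fun a => univ.filter fun k => s k ∈ X a) fun a ha b hb hab =>
    disjoint_left.2 fun k h1 h2 => hab (h.fam.eq ha hb (mem_filter.1 h1).2 (mem_filter.1 h2).2)]
  refine Eq.trans (congrArg card (eq_univ_of_forall fun k => ?_)) (by simp)
  obtain ⟨a, ha, hx⟩ := mem_biUnion.1 (h.csub 0 (Nat.zero_le _) (hs k))
  exact mem_biUnion.2 ⟨a, ha, mem_filter.2 ⟨mem_univ _, hx⟩⟩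

end PrepP

open PrepP in
theorem prep (core : CoreStmt) (group : GroupStmt) (pick : PickStmt) (link : LinkStmt)
    (ext : ExtStmt) : PrepStmt := by
  intro V κ _ G Amb Rt T w K J X R Cd y Old hd hT hK hw hJ h hcd
  have K2 : 0 < 14 * K ^ 2 := by positivity
  have hne : J.Nonempty := card_pos.1 (by omega)
  have many := h.many
  have KK : ∀ n, 14 * K * n ≤ 14 * K ^ 2 * n := fun n =>
    Nat.mul_le_mul_right _ (Nat.mul_le_mul_left _ (Nat.le_self_pow (by norm_num) K))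
  by_cases hb : 14 * K ^ 2 ≤ w
  · obtain ⟨c, hc⟩ : ∃ c, c = w / (14 * K ^ 2) := ⟨_, rfl⟩
    have c1 : 1 ≤ c := hc ▸ Nat.div_pos hb K2
    have c2 : 14 * K ^ 2 * c ≤ w := hc ▸ Nat.mul_div_le _ _
    have c3 : w < 14 * K ^ 2 * (c + 1) := hc ▸ Nat.lt_mul_div_succ _ K2
    have c4 : ∀ d ≤ c, ∀ n i, i ≤ n → 14 * K * (n * d) ≤ 14 * K * (d * (n - i)) + i * w :=
      fun d hdc n i hi => by
        obtain ⟨j, rfl⟩ := Nat.exists_eq_add_of_le hi
        have e1 : 14 * K * d ≤ w := (Nat.mul_le_mul_left _ hdc).trans ((KK c).trans c2)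
        have e2 := Nat.mul_le_mul_left i e1
        rw [Nat.add_sub_cancel_left]
        nlinarith
    obtain ⟨s, s', Q, a1, a2, a3, a4, a5, a6⟩ := root link hd hK hne h c (J.card * c)
      (c4 c le_rfl _) (Nat.le_of_mul_le_mul_left (c := K) (by
        have := Nat.mul_le_mul_left J.card c2
        nlinarith) hK)
    have tot := total h fun k => (a4 k).1
    have each : ∀ a ∈ J, (univ.filter fun k => s k ∈ X a).card = c :=
      (sum_eq_sum_iff_of_le a6).1 (by rw [tot, sum_const, smul_eq_mul])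
    obtain ⟨X', Ro, hR⟩ := absorb ext h hcd a1 a2 a3 a4 a5 subset_rfl each fun t ht =>
      orc_of (K' := K) (u := w) link hd h.fam hK subset_rfl subset_rfl
        (fun a ha => (h.card a ha t (mem_Icc.1 ht).2).ge) (h.adj t (mem_Icc.1 ht).2)
        ((h.rwl t (mem_Icc.1 ht).2).tau fun v _ => Nat.le_add_right _ _)
        fun n _ => ⟨n * ((c + 1) / 2), by
          have := Nat.mul_le_mul_left n (show c ≤ 112 * ((c + 1) / 2) by omega)
          nlinarith, fun i hi => c4 _ (by omega) n i hi⟩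
    refine ⟨c, J, X', Cd, Ro, hR, c1, ?_, Nat.le_mul_of_pos_left _ (by positivity), by nlinarith⟩
    exact (Nat.le_mul_of_pos_left _ K2).trans c2
  · obtain ⟨m, hm⟩ : ∃ m, m = J.card / (14 * K ^ 2) := ⟨_, rfl⟩
    have c1 : 1 ≤ m := hm ▸ Nat.div_pos hJ K2
    have c2 : 14 * K ^ 2 * m ≤ J.card := hm ▸ Nat.mul_div_le _ _
    have c3 : J.card < 14 * K ^ 2 * (m + 1) := hm ▸ Nat.lt_mul_div_succ _ K2
    obtain ⟨s, s', Q, a1, a2, a3, a4, a5, a6⟩ := root link hd hK hne h 1 m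
      (fun i hi => by
        have e1 := KK m
        have e2 : J.card - i ≤ 14 * K * (1 * (J.card - i)) := by
          rw [one_mul]; exact Nat.le_mul_of_pos_left _ (by omega)
        have e3 : i ≤ i * w := Nat.le_mul_of_pos_right _ hw
        omega)
      (Nat.le_of_mul_le_mul_left (c := K) (by
        have : J.card ≤ J.card * w := Nat.le_mul_of_pos_right _ hw
        nlinarith) hK)
    have tot := total h fun k => (a4 k).1
    have c4 : m ≤ (J.filter fun a => (univ.filter fun k => s k ∈ X a).card = 1).card := by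
      rw [card_filter]
      refine tot.ge.trans (sum_le_sum fun a ha => ?_)
      have := a6 a ha
      split_ifs <;> omega
    obtain ⟨J', j1, j2, j3⟩ := thin_out core group pick link hd hT hK hw h (filter_subset _ J)
      (card_pos.1 (c1.trans c4))
    obtain ⟨X', Ro, hR⟩ := absorb ext h hcd a1 a2 a3 a4 a5 (j1.trans (filter_subset _ _))
      (fun a ha => (mem_filter.1 (j1 ha)).2) j3
    refine ⟨1, J', X', Cd, Ro, hR, le_rfl, hw, ?_, by omega⟩
    calc J.card ≤ 28 * K ^ 2 * m := by nlinarith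
      _ ≤ 28 * K ^ 2 * (J'.card * (T * (14 * K))) := Nat.mul_le_mul_left _ (c4.trans j2)
      _ = 392 * (K ^ 3 * T * J'.card) := by ring
      _ ≤ 420 * (K ^ 3 * T * J'.card) := Nat.mul_le_mul_right _ (by norm_num)
      _ = _ := by ring

theorem game (boost : BoostStmt) (prep : PrepStmt) (play : PlayStmt) : GameStmt := by
  obtain ⟨c, c1, hc⟩ := play
  refine ⟨c + 30, c, c1, fun Λ T hΛ hT V κ _ G Amb Rt w K J X R Cd y Old hd hV hw hK hJ h => ?_⟩
  have K2 : 2 ≤ K := by omega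
  have pw : ∀ n, 2 ^ n ≤ K ^ n := fun n => Nat.pow_le_pow_left K2 n
  have mono : ∀ a b, a ≤ b → K ^ a ≤ K ^ b := fun a b e => Nat.pow_le_pow_right (by omega) e
  obtain ⟨w₁, Cd₁, b1, b2, b3, b4, b5⟩ := boost V κ G Amb Rt T w K J X R Cd y Old hd hT (by omega)
    hw h
  obtain ⟨w₂, J', X', Cd₂, Ro, p1, p2, p3, p4, p5⟩ := prep V κ G Amb Rt T w₁ K J X R Cd₁ y Old hd hT
    (by omega) b3
    (calc 14 * K ^ 2 ≤ K ^ 4 * K ^ 2 := Nat.mul_le_mul_right _ (le_trans (by norm_num) (pw 4))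
      _ = K ^ 6 := by ring
      _ ≤ K ^ (c + 30) := mono _ _ (by omega)
      _ ≤ _ := hJ) b1 b2
  have e1 : J.card ≤ K ^ 13 * J'.card :=
    calc J.card ≤ 420 * K ^ 3 * T * J'.card := p4
      _ ≤ K ^ 9 * K ^ 3 * K * J'.card := by
        have : 420 ≤ K ^ 9 := le_trans (by norm_num) (pw 9)
        have : T ≤ K := by omega
        gcongr
      _ = _ := by ring
  have e2 : c ≤ J'.card := by
    refine (le_pow_of K2).trans (Nat.le_of_mul_le_mul_left (c := K ^ 13) ?_ (by positivity))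
    rw [← pow_add]
    exact (mono _ _ (by omega)).trans (hJ.trans e1)
  obtain ⟨N, n1, n2⟩ := hc V κ G Amb Rt T w₂ Λ J' X' R Cd₂ y Ro
    (le_trans (Nat.mul_le_mul_right _ (by omega)) hΛ) (by omega) e2 p2 p1
  refine ⟨w₂, N, n1, p2, p3.trans b4, ?_⟩
  have e3 : w ≤ K ^ 14 * w₂ :=
    calc w ≤ 28 * K * (T + 1) * w₁ := b5
      _ ≤ K ^ 5 * K * K * (K ^ 5 * K ^ 2 * w₂) := by
        have : 28 ≤ K ^ 5 := le_trans (by norm_num) (pw 5)
        have : w₁ ≤ K ^ 5 * K ^ 2 * w₂ := p5.trans (by gcongr)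
        gcongr
      _ = _ := by ring
  calc J.card * w ≤ K ^ 13 * (K * N.J.card) * (K ^ 14 * w₂) :=
        Nat.mul_le_mul (e1.trans (Nat.mul_le_mul_left _
          (n2.trans (Nat.mul_le_mul_right _ K2)))) e3
    _ = K ^ 28 * (N.J.card * w₂) := by ring
    _ ≤ _ := Nat.mul_le_mul_right _ (mono _ _ (by omega))

end Pool.Agent.MP_35cb46_co.Nl

end
end MrgPart2

-- ======== part 3: formerly Pool.Agent.MP_35cb46_co.nl.TopA
section MrgPart3

/-! PROJECT NL, row TOP: the pieces of the top level. -/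

namespace Pool.Agent.MP_35cb46_co.Nl.TopP

open Finset Pool.Agent.MP_7be75d_co Pool.Agent.MP_35cb46_co.Sq
open scoped Classical

variable {V : Type} [Fintype V] {G : SimpleGraph V} {W T₀ : Finset V}

/-- A block of clusters cut into parts that hold the clusters of `Kp`. -/
def Blk (G : SimpleGraph V) (W T₀ : Finset V) (Z Kp : Finset (Finset V)) (p K Bm : ℕ) : Prop :=
  ∃ (h : ℕ) (P : Fin h → Finset V) (grp : Finset V → Fin h), Parts G (un Z) univ p K h P ∧
    (∀ u ∈ Kp, u ⊆ P (grp u)) ∧ (∀ i, ts (bo G W T₀) (Kp.filter fun u => grp u = i) ≤ Bm) ∧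
    ts (bo G W T₀) Z ≤ Bm * h

theorem blk_one {Z : Finset (Finset V)} {p K Bm : ℕ} (h1 : Conn G (un Z))
    (h2 : Rich G (un Z) (p + 1)) (h3 : ts (bo G W T₀) Z ≤ Bm) : Blk G W T₀ Z Z p K Bm := by
  refine ⟨1, fun _ => un Z, fun _ => 0, ⟨⟨fun _ => subset_rfl, fun _ => h1,
    fun i j e => absurd (Subsingleton.elim i j) e⟩, fun _ => h2, fun _ => by simpa using h1.1,
    fun S Z' h4 _ => ?_⟩, fun u hu => subset_un hu,
    fun i => (ts_mono (filter_subset _ _)).trans h3, by omega⟩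
  omega

theorem sit_of {PP O : Finset (Finset V)} {BB D : Finset (Finset (Finset V))} {p K Bm : ℕ}
    (hP : Sq.Part G W PP) (hD : D ⊆ BB) (hB : PD BB) (hs : ∀ Z ∈ BB, Z ⊆ PP ∧ Z.Nonempty)
    (hO : O ⊆ un D) (hb : ∀ Z ∈ BB, Blk G W T₀ Z (if Z ∈ D then O ∩ Z else Z) p K Bm) :
    ∃ (ι : Type) (I : Finset ι) (S : ι → Finset V) (nd : Finset V → ι)
      (par : Finset (Finset V) → Finset ι), Sit G W T₀ PP D O (PP \ un BB) I S nd par p K Bm := by
  have h0 : ∀ Z : Finset (Finset V), ∃ (h : ℕ) (P : Fin h → Finset V) (grp : Finset V → Fin h),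
      Z ∈ BB → Parts G (un Z) univ p K h P ∧
      (∀ u ∈ (if Z ∈ D then O ∩ Z else Z), u ⊆ P (grp u)) ∧
      (∀ i, ts (bo G W T₀) ((if Z ∈ D then O ∩ Z else Z).filter fun u => grp u = i) ≤ Bm) ∧
      ts (bo G W T₀) Z ≤ Bm * h := fun Z => by
    by_cases hZ : Z ∈ BB
    · obtain ⟨h, P, grp, H⟩ := hb Z hZ
      exact ⟨h, P, grp, fun _ => H⟩
    · exact ⟨1, fun _ => ∅, fun _ => 0, fun e => absurd e hZ⟩
  choose h P grp H using h0
  have h1 : ∀ u : Finset V, ∃ Z : Finset (Finset V), ∀ Z' ∈ BB, u ∈ Z' → Z = Z' := fun u => by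
    by_cases hu : ∃ Z ∈ BB, u ∈ Z
    · obtain ⟨Z, hZ, hu⟩ := hu
      exact ⟨Z, fun Z' hZ' hu' => hB.eq hZ hZ' hu hu'⟩
    · exact ⟨∅, fun Z' hZ' hu' => absurd ⟨Z', hZ', hu'⟩ hu⟩
  choose blk hblk using h1
  have hpd : PD PP := hP.disj
  have hW : ∀ Z ∈ BB, un Z ⊆ W := fun Z hZ => hP.un ▸ un_mono (hs Z hZ).1
  have hdis : ∀ I I' : Finset (Finset V), I ⊆ PP → I' ⊆ PP → Disjoint I I' →
      Disjoint (un I) (un I') := fun I I' a b c => disjoint_left.2 fun v h2 h3 => by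
    obtain ⟨C, h4, h5⟩ := mem_un.1 h2
    obtain ⟨C', h6, h7⟩ := mem_un.1 h3
    exact disjoint_left.1 c h4 (hpd.eq (a h4) (b h6) h5 h7 ▸ h6)
  have hnd : ∀ u, ∀ Z ∈ BB, u ∈ Z → (⟨blk u, grp (blk u) u⟩ : Σ Z, Fin (h Z)) = ⟨Z, grp Z u⟩ :=
    fun u Z hZ hu => congrArg (fun Z => (⟨Z, grp Z u⟩ : Σ Z, Fin (h Z))) (hblk u Z hZ hu)
  have hk : ∀ u ∈ kept PP D O \ (PP \ un BB), ∃ Z ∈ BB, u ∈ Z ∧
      u ∈ (if Z ∈ D then O ∩ Z else Z) := fun u hu => by
    obtain ⟨h2, h3⟩ := mem_sdiff.1 hu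
    rcases mem_union.1 h2 with h4 | h4
    · obtain ⟨h5, h6⟩ := mem_sdiff.1 h4
      obtain ⟨Z, hZ, h7⟩ := mem_un.1 (by_contra fun e => h3 (mem_sdiff.2 ⟨h5, e⟩) : u ∈ un BB)
      exact ⟨Z, hZ, h7, by rw [if_neg fun e => h6 (subset_un e h7)]; exact h7⟩
    · obtain ⟨Z, hZ, h7⟩ := mem_un.1 (hO h4)
      exact ⟨Z, hD hZ, h7, by rw [if_pos hZ]; exact mem_inter.2 ⟨h4, h7⟩⟩
  have hcard : ∀ Z, (univ.map (Function.Embedding.sigmaMk (β := fun Z => Fin (h Z)) Z)).card = h Z :=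
    fun Z => by simp
  have hmem : ∀ Z (i : Fin (h Z)), (⟨Z, i⟩ : Σ Z, Fin (h Z)) ∈
      univ.map (Function.Embedding.sigmaMk (β := fun Z => Fin (h Z)) Z) :=
    fun Z i => mem_map.2 ⟨i, mem_univ _, rfl⟩
  refine ⟨Σ Z, Fin (h Z), BB.sigma fun _ => univ, fun i => P i.1 i.2,
    fun u => ⟨blk u, grp (blk u) u⟩,
    fun Z => univ.map (Function.Embedding.sigmaMk (β := fun Z => Fin (h Z)) Z), hP,
    fun Z hZ => hs Z (hD hZ), hB.mono hD, hO,
    sdiff_subset_sdiff subset_rfl (un_mono hD), ⟨?_, ?_, ?_⟩, ?_, ?_, ?_, ?_, ?_, ?_, ?_, ?_, ?_⟩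
  · intro i hi
    have hZ := (mem_sigma.1 hi).1
    exact ((H _ hZ).1.tok.sub _).trans (hW _ hZ)
  · exact fun i hi => (H _ (mem_sigma.1 hi).1).1.tok.conn _
  · rintro ⟨Z, i⟩ hi ⟨Z', j⟩ hj e
    have hZ : Z ∈ BB := (mem_sigma.1 hi).1
    have hZ' : Z' ∈ BB := (mem_sigma.1 hj).1
    by_cases e' : Z = Z'
    · subst e'
      exact (H _ hZ).1.tok.disj _ _ fun e'' => e (by rw [show i = j from e''])
    · exact (hdis _ _ (hs _ hZ).1 (hs _ hZ').1 (hB _ hZ _ hZ' e')).mono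
        ((H _ hZ).1.tok.sub _) ((H _ hZ').1.tok.sub _)
  · exact fun i hi => (H _ (mem_sigma.1 hi).1).1.rich _
  · intro i hi v hv
    have hZ := (mem_sigma.1 hi).1
    obtain ⟨h2, h3⟩ := mem_sdiff.1 hv
    refine (hdis i.1 {v} (hs _ hZ).1 (singleton_subset_iff.2 h2)
      (disjoint_singleton_right.2 fun e => h3 (subset_un hZ e))).mono ((H _ hZ).1.tok.sub _)
      (subset_un (mem_singleton_self v))
  · intro u hu
    obtain ⟨Z, hZ, h2, h3⟩ := hk u hu
    have h4 := hnd u Z hZ h2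
    refine ⟨h4 ▸ mem_sigma.2 ⟨hZ, mem_univ _⟩, ?_⟩
    rw [show P (blk u) (grp (blk u) u) = P Z (grp Z u) from
      congrArg (fun i : Σ Z, Fin (h Z) => P i.1 i.2) h4]
    exact (H Z hZ).2.1 u h3
  · rintro ⟨Z, i⟩ hi
    have hZ : Z ∈ BB := (mem_sigma.1 hi).1
    refine le_trans (ts_mono fun u hu => ?_) ((H Z hZ).2.2.1 i)
    simp only [mem_filter] at hu
    obtain ⟨h2, h3⟩ := hu
    obtain ⟨Z', hZ', h4, h5⟩ := hk u h2
    rw [hnd u Z' hZ' h4] at h3
    obtain ⟨rfl, h6⟩ := Sigma.mk.inj_iff.1 h3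
    exact mem_filter.2 ⟨h5, eq_of_heq h6⟩
  · intro Z hZ
    refine ⟨fun i hi => ?_, ⟨_, hmem Z (grp Z ∅)⟩⟩
    obtain ⟨j, -, rfl⟩ := mem_map.1 hi
    exact mem_sigma.2 ⟨hD hZ, mem_univ _⟩
  · intro Z _ Z' _ e
    refine disjoint_left.2 fun i h2 h3 => ?_
    obtain ⟨j, -, rfl⟩ := mem_map.1 h2
    obtain ⟨j', -, h4⟩ := mem_map.1 h3
    exact e (congrArg Sigma.fst h4).symm
  · intro Z hZ u hu
    simp only [hnd u Z (hD hZ) (mem_inter.1 hu).2]
    exact hmem Z _
  · intro Z hZ A hA B h2 h3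
    obtain ⟨A', -, rfl⟩ := subset_map_iff.1 hA
    rw [card_map, hcard] at h2
    rw [card_map]
    refine ((H Z (hD hZ)).1.exp A' (univ.filter fun j => (⟨Z, j⟩ : Σ Z, Fin (h Z)) ∈ B) h2
      fun i hi j hij => ?_).trans (Nat.mul_le_mul_left _ ?_)
    · have h5 := h3 _ (mem_map_of_mem _ hi) _ (hmem Z j) hij
      simp only [mem_union] at h5
      rcases h5 with h4 | h4
      · exact mem_union_left _ ((mem_map' _).1 h4)
      · exact mem_union_right _ (mem_filter.2 ⟨mem_univ _, h4⟩)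
    · exact card_le_card_of_injOn (fun j => ⟨Z, j⟩) (fun j hj => (mem_filter.1 hj).2)
        fun a _ b _ e => sigma_mk_injective (β := fun Z => Fin (h Z)) e
  · intro Z hZ
    rw [hcard]
    exact (H Z (hD hZ)).2.2.2

end Pool.Agent.MP_35cb46_co.Nl.TopP

end MrgPart3

-- ======== part 4: formerly Pool.Agent.MP_35cb46_co.nl.Top
section MrgPart4

/-! PROJECT NL, row TOP: the theorem for small graphs of bounded degree. -/

namespace Pool.Agent.MP_35cb46_co.Nl

open Finset Pool.Agent.MP_7be75d_co Pool.Agent.MP_35cb46_co.Sq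
open scoped Classical

namespace TopP

/-- The numbers of the top level. -/
structure Num (cZ cP cS T L p q Λ B A τ l Bm K k : ℕ) : Prop where
  a1 : Λ ≤ B
  a2 : T + 4 ≤ B
  a3 : 4 * (32 * (T + 4)) * (Λ + 1) ≤ B
  a4 : B < A
  a5 : 4 * B ^ cZ ≤ A
  a6 : 12 * B ^ cZ * (T + 1) ≤ A
  t1 : 21 * (14 * A * Λ) * (p + 1) ≤ τ
  t2 : 1 ≤ τ
  t3 : p ≤ τ
  l1 : B ^ cZ * τ ≤ l
  l2 : 2 * τ ≤ l
  l3 : 21 * (28 * A * Λ * (B + 1)) * (p + 1) ≤ l
  l4 : cS * (T + 4) ^ 2 * τ * (Λ + 1) ≤ l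
  m1 : A ^ cP * L * τ ≤ Bm
  m2 : 4 * l ≤ Bm
  k1 : L ≤ K
  k2 : 8 * (T + 4) ^ 2 ≤ K
  k3 : 12 * (200 * K ^ 2 * (20 * (8 * (T + 4)) * (Λ + 1) * Bm) * q) + 13 ≤ k

theorem num (cZ cP cS : ℕ) : ∃ e : ℕ, ∀ T L p q Λ B k : ℕ, Λ + 2 ≤ B → T + 4 ≤ B → 1 ≤ L → 1 ≤ p →
    1 ≤ q → B ^ e * L ^ 3 * (p * q) ≤ k →
    ∃ A τ l Bm K, Num cZ cP cS T L p q Λ (B ^ 9) A τ l Bm K k := by
  obtain ⟨a, ha⟩ : ∃ a, a = 9 * cZ + 10 := ⟨_, rfl⟩
  obtain ⟨E, hE⟩ : ∃ E, E = a * cP + 9 * cZ + cS + 13 := ⟨_, rfl⟩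
  refine ⟨E + a + 50, fun T L p q Λ B k h1 h2 hL hp hq hk => ?_⟩
  have hB : 2 ≤ B := by omega
  have pw : ∀ {i j : ℕ}, i ≤ j → B ^ i ≤ B ^ j := fun h => Nat.pow_le_pow_right (by omega) h
  have two : ∀ i : ℕ, 2 ^ i ≤ B ^ i := fun i => Nat.pow_le_pow_left hB i
  have b1 : B ≤ B ^ 9 := by simpa using pw (show 1 ≤ 9 by omega)
  have hΛ : Λ ≤ B := by omega
  have hΛ1 : Λ + 1 ≤ B := by omega
  have hp2 : p + 1 ≤ 2 * p := by omega
  have hz : (B ^ 9) ^ cZ = B ^ (9 * cZ) := by rw [← pow_mul]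
  have pos : ∀ i, 1 ≤ B ^ i := fun i => Nat.one_le_pow _ _ (by omega)
  obtain ⟨τ, hτ⟩ : ∃ τ, τ = B ^ (a + 11) * p := ⟨_, rfl⟩
  have τ1 : p ≤ τ := hτ ▸ Nat.le_mul_of_pos_left _ (pos _)
  refine ⟨B ^ a, τ, B ^ (9 * cZ + cS + 11) * τ, B ^ E * L * τ, L * B ^ 5, hΛ.trans b1,
    h2.trans b1, ?_, ?_, ?_, ?_, ?_, by omega, τ1, ?_, ?_, ?_, ?_, ?_, ?_, ?_, ?_, ?_⟩
  · calc _ = 2 ^ 7 * (T + 4) * (Λ + 1) := by ring
      _ ≤ B ^ 7 * B * B := by gcongr
      _ = _ := by ring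
  · exact Nat.pow_lt_pow_right (by omega) (by omega)
  · calc _ = 2 ^ 2 * B ^ (9 * cZ) := by rw [hz]; ring
      _ ≤ B ^ 2 * B ^ (9 * cZ) := by gcongr
      _ ≤ _ := by rw [← pow_add]; exact pw (by omega)
  · calc _ ≤ 2 ^ 4 * B ^ (9 * cZ) * B := by rw [hz]; gcongr <;> omega
      _ ≤ B ^ 4 * B ^ (9 * cZ) * B := by gcongr
      _ ≤ _ := by rw [← pow_add, ← pow_succ]; exact pw (by omega)
  · calc _ ≤ 21 * (14 * B ^ a * B) * (2 * p) := by gcongr
      _ = 588 * (B ^ a * B * p) := by ring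
      _ ≤ B ^ 10 * (B ^ a * B * p) := by gcongr; exact le_trans (by norm_num) (two 10)
      _ = _ := by rw [hτ]; ring
  · rw [hz]; exact Nat.mul_le_mul_right _ (pw (by omega))
  · exact Nat.mul_le_mul_right _ (hB.trans (by simpa using pw (show 1 ≤ _ by omega)))
  · calc _ ≤ 21 * (28 * B ^ a * B * (2 * B ^ 9)) * (2 * p) := by
          gcongr
          have := pos 9
          omega
      _ = 2352 * (B ^ a * B ^ 10 * p) := by ring
      _ ≤ B ^ 12 * (B ^ a * B ^ 10 * p) := by gcongr; exact le_trans (by norm_num) (two 12)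
      _ = B ^ 11 * τ := by rw [hτ]; ring
      _ ≤ _ := Nat.mul_le_mul_right _ (pw (by omega))
  · calc _ ≤ B ^ cS * B ^ 2 * τ * B := by gcongr; exact le_pow_of hB
      _ = B ^ (cS + 3) * τ := by ring
      _ ≤ _ := Nat.mul_le_mul_right _ (pw (by omega))
  · rw [← pow_mul]
    exact Nat.mul_le_mul_right _ (Nat.mul_le_mul_right _ (pw (by omega)))
  · calc _ = 2 ^ 2 * B ^ (9 * cZ + cS + 11) * 1 * τ := by ring
      _ ≤ B ^ 2 * B ^ (9 * cZ + cS + 11) * L * τ := by gcongr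
      _ ≤ _ := by
        rw [← pow_add]
        exact Nat.mul_le_mul_right _ (Nat.mul_le_mul_right _ (pw (by omega)))
  · exact Nat.le_mul_of_pos_right _ (pos _)
  · calc _ = 1 * (2 ^ 3 * (T + 4) ^ 2) := by ring
      _ ≤ L * (B ^ 3 * B ^ 2) := by gcongr
      _ = _ := by ring
  · obtain ⟨x, hx⟩ : ∃ x, x = B ^ (E + a + 23) * L ^ 3 * (p * q) := ⟨_, rfl⟩
    have x1 : 1 ≤ x := by rw [hx]; exact Nat.succ_le_of_lt (by positivity)
    calc _ ≤ 12 * (200 * (L * B ^ 5) ^ 2 * (20 * (8 * B) * B * (B ^ E * L * τ)) * q) + 13 := by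
          gcongr
      _ = 384000 * x + 13 := by rw [hx, hτ]; ring
      _ ≤ 2 ^ 27 * x := by omega
      _ ≤ B ^ 27 * x := by gcongr
      _ = B ^ (E + a + 50) * L ^ 3 * (p * q) := by rw [hx]; ring
      _ ≤ k := hk

end TopP

open TopP

theorem piece (hterm : TermStmt) (hclu : CluStmt) (hhav : HavenStmt) (hexp : ExpfStmt)
    (hclb : ClbStmt) (hcolz : ColzStmt) (hgame : GameStmt) (hiter : IterStmt) (hz : ZpartStmt)
    (hs : SampStmt) (ha : AbsStmt) (hq : HavqStmt) : Nl.PieceStmt := by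
  obtain ⟨c₀, K₀, hK₀, hgame⟩ := hgame
  obtain ⟨cI, hiter⟩ := hiter c₀
  obtain ⟨cP, hz⟩ := hz c₀
  obtain ⟨cZ, hcolz⟩ := hcolz
  obtain ⟨cS, hs⟩ := hs
  obtain ⟨e, he⟩ := num cZ cP cS
  refine ⟨(c₀ + K₀ + 6) * (e + 3 * cI), fun V _ G p q Λ r j k hd hV hp hq1 hr hj hR hk => ?_⟩
  obtain ⟨T, hT⟩ : ∃ T, T = c₀ * Λ + 1 := ⟨_, rfl⟩
  obtain ⟨B₁, hB₁⟩ : ∃ B₁, B₁ = (Λ + 2) ^ (c₀ + K₀ + 6) := ⟨_, rfl⟩
  have b0 : 2 ≤ Λ + 2 := by omega
  have b1 : Λ + 2 ≤ B₁ := hB₁ ▸ Nat.le_self_pow (by omega) _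
  have b2 : T + 4 ≤ B₁ :=
    calc T + 4 ≤ (c₀ + 5) * (Λ + 2) := by rw [hT]; nlinarith
      _ ≤ (Λ + 2) ^ (c₀ + 5) * (Λ + 2) := Nat.mul_le_mul_right _ (le_pow_of b0)
      _ ≤ _ := by rw [← pow_succ, hB₁]; exact Nat.pow_le_pow_right (by omega) (by omega)
  have b3 : K₀ ≤ B₁ := (le_pow_of b0).trans (hB₁ ▸ Nat.pow_le_pow_right (by omega) (by omega))
  rw [pow_mul, ← hB₁] at hr hk
  have hg := hgame Λ T (by omega) (by omega)
  have r1 : B₁ ^ cI ≤ r := (Nat.pow_le_pow_right (by omega) (by omega)).trans hr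
  have r2 : 1 ≤ r := (Nat.one_le_pow _ _ (by omega)).trans r1
  have hi := (hiter T K₀ B₁ Λ r j p hg (by omega) hK₀ (by omega) (by omega) b3 r1).down hj
  obtain ⟨L, hL⟩ : ∃ L, L = (B₁ ^ cI) ^ (j + 1) * r ^ 3 := ⟨_, rfl⟩
  rw [← hL] at hi
  have L1 : 1 ≤ L := by
    have : 0 < B₁ := by omega
    rw [hL]; exact Nat.succ_le_of_lt (by positivity)
  obtain ⟨A, τ, l, Bm, K, n⟩ := he T L p q Λ B₁ k b1 b2 L1 hp hq1 (le_trans (by
    calc B₁ ^ e * L ^ 3 * (p * q)
        = (B₁ ^ e) ^ 1 * (B₁ ^ (3 * cI)) ^ (j + 1) * r ^ 9 * (p * q) := by rw [hL]; ring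
      _ ≤ (B₁ ^ e) ^ (j + 1) * (B₁ ^ (3 * cI)) ^ (j + 1) * r ^ 9 * (p * q) := by
          gcongr
          · exact Nat.one_le_pow _ _ (by omega)
          · omega
      _ = _ := by rw [← mul_pow, ← pow_add]) hk)
  generalize B₁ ^ 9 = B at n
  clear hk hr r1 r2 hL he hiter hgame b1 b2 b3 hB₁ hj hT
  obtain ⟨k₁, hk₁⟩ : ∃ k₁, k₁ = 200 * K ^ 2 * (20 * (8 * (T + 4)) * (Λ + 1) * Bm) * q := ⟨_, rfl⟩
  obtain ⟨W, T₀, hTW, hW, hwl, hk⟩ := hterm V G k₁ hd (hR.mono le_rfl subset_rfl (hk₁ ▸ n.k3))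
  obtain ⟨g, hg4⟩ : ∃ g, g = 4 * l := ⟨_, rfl⟩
  have a1 := n.a1
  have a2 := n.a2
  have a4 := n.a4
  have t2 := n.t2
  have l2 := n.l2
  have m2 := n.m2
  have K1 : 1 ≤ K := L1.trans n.k1
  have z1 : 1 ≤ B ^ cZ := Nat.one_le_pow _ _ (by omega)
  have g1 : g ≤ T₀.card := by
    refine le_trans ?_ hk
    calc g ≤ 1 * (1 * Bm) * 1 := by omega
      _ ≤ _ := by
        rw [hk₁]
        gcongr
        · exact Nat.succ_le_of_lt (by positivity)
        · exact Nat.succ_le_of_lt (by positivity)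
  have g2 : T₀.card ≤ Fintype.card V := card_le_univ _
  have Λ1 : 1 ≤ Λ := by
    rcases Nat.eq_zero_or_pos Λ with rfl | h
    · omega
    · exact h
  obtain ⟨PP, hc⟩ := hclu V G W T₀ g A Λ hd hW hTW (card_pos.1 (by omega)) (by omega) (by omega)
    (by omega)
  obtain ⟨c1, c2, -, c4, c5⟩ := hclb V G W T₀ g A Λ PP hc (by omega) Λ1
  have hpd : PD PP := hc.part.disj
  have hPP : PP.card ≤ Fintype.card V :=
    (hpd.card_le fun C hC => (hc.part.conn C hC).1).trans (card_le_univ _)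
  obtain ⟨U, hU⟩ : ∃ U, U = PP.filter fun C => bo G W T₀ C ≤ τ := ⟨_, rfl⟩
  have mU : ∀ {C}, C ∈ U ↔ C ∈ PP ∧ bo G W T₀ C ≤ τ := by simp [hU]
  have UP : U ⊆ PP := fun C h => (mU.1 h).1
  obtain ⟨ZZ, sd, zd, zs, hY⟩ := hexp (Finset V) (ew G) (bo G W T₀) U (32 * (T + 4)) (Λ + 1) sy_ew
    ew_self (by omega) (by
      have h1 : ts (bo G W T₀) U ≤ (un U).card * 7 := by
        rw [un, card_biUnion (t := id) fun C h C' h' => hpd C (UP h) C' (UP h'), sum_mul]
        exact sum_le_sum fun C _ => bo_le hd W T₀ C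
      have h2 : (un U).card ≤ Fintype.card V := card_le_univ _
      rw [pow_succ]
      omega)
  have zk : ∀ Z ∈ ZZ, ZOk G W T₀ PP sd B τ Z := fun Z hZ =>
    ⟨(zs Z hZ).1.trans UP, (zs Z hZ).2.1, (zs Z hZ).2.2.up n.a3,
      fun u hu => (mU.1 ((zs Z hZ).1 hu)).2⟩
  have zv : ∀ Z ∈ ZZ, g < ts (bo G W T₀) Z ∧ ∀ u ∈ Z, A ≤ bo G W T₀ u := fun Z hZ =>
    have := c5 sd B τ Z (zk Z hZ) a4 (by omega)
    ⟨this.1, fun u hu => (this.2 u hu).1⟩
  have zn : ∀ Z ∈ ZZ, Z ⊆ PP ∧ Z.Nonempty := fun Z hZ =>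
    ⟨(zk Z hZ).sub, card_pos.1 (by have := (zk Z hZ).two; omega)⟩
  obtain ⟨D, hD⟩ : ∃ D, D = ZZ.filter fun Z => A ^ cP * L * τ ≤ ts (bo G W T₀) Z := ⟨_, rfl⟩
  have mD : ∀ {Z}, Z ∈ D ↔ Z ∈ ZZ ∧ A ^ cP * L * τ ≤ ts (bo G W T₀) Z := by simp [hD]
  have DZ : D ⊆ ZZ := fun Z h => (mD.1 h).1
  have DU : un D ⊆ U := fun u hu =>
    let ⟨Z, h1, h2⟩ := mem_un.1 hu
    (zs Z (DZ h1)).1 h2
  obtain ⟨I'', F, LL, r', hbil, hsa⟩ := hs (Finset V) (ew G) PP D l τ (T + 4) Λ sy_ew (zd.mono DZ)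
    (fun Z hZ => zn Z (DZ hZ))
    (by
      have h1 := (zd.mono DZ).card_le fun Z hZ => (zn Z (DZ hZ)).2
      have h2 := card_le_card (DU.trans UP)
      omega) t2 (by omega)
    (fun u hu => by
      have h1 := mU.1 (DU hu)
      have h2 := bo_eq (T := T₀) hc.part h1.1
      omega) n.l4
    (by
      rintro W' hW' - ⟨Z, hZ, h1⟩ ⟨Z', hZ', h2⟩
      have h3 := c4 (by omega) W' hW'
      have h4 := c4 (by omega) (PP \ W') sdiff_subset
      have h5 : ts (bo G W T₀) Z ≤ ts (bo G W T₀) W' := ts_mono h1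
      have h6 : ts (bo G W T₀) Z' ≤ ts (bo G W T₀) (PP \ W') :=
        ts_mono (subset_sdiff.2 ⟨(zn Z' (DZ hZ')).1, h2⟩)
      have h7 := (zv Z (DZ hZ)).1
      have h8 := (zv Z' (DZ hZ')).1
      have h9 := hwl (un W') (hc.part.un ▸ un_mono hW')
      rw [← un_sdiff hc.part hW', ← cw_ew hpd hW' sdiff_subset disjoint_sdiff,
        (hpd.mono hW').ts_un, (hpd.mono sdiff_subset).ts_un] at h9
      unfold out at h3 h4
      rw [Finset.sdiff_sdiff_eq_self hW', cw_comm sy_ew (PP \ W')] at h4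
      change min (ts (ts (ind T₀)) W') (ts (ts (ind T₀)) (PP \ W')) ≤ _ at h9
      omega)
  obtain ⟨y, hy⟩ : ∃ y : Finset V → Finset V → ℕ, ∀ v u, y v u = if u ∈ un D then ew G v u else 0 :=
    ⟨_, fun _ _ => rfl⟩
  have y1 : ∀ v S, ts (y v) S = cw (ew G) {v} (un D ∩ S) := fun v S => by
    simp only [ts, hy, cw, sum_singleton]
    rw [← sum_filter, filter_mem_eq_inter, inter_comm]
  obtain ⟨col, o1, o2, o3⟩ := hcolz V (Finset V) _ G W T₀ g A Λ PP sd B τ D
    (U.filter fun v => bo G W T₀ v ≤ 4 * cw (ew G) {v} (un D)) y I'' F LL r' (T + 4) B (T + 3)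
    (T + 1) hd hV hc (zd.mono DZ) (fun Z hZ => zk Z (DZ hZ)) a1 le_rfl a2 (by omega) (by omega)
    (by omega) (by have := n.a5; omega) (by have := n.l1; omega)
    (by
      have h1 := card_le_card ((filter_subset (fun v => bo G W T₀ v ≤ 4 * cw (ew G) {v} (un D))
        U).trans UP)
      have h2 : 2 ^ Λ ≤ 4 ^ B :=
        (Nat.pow_le_pow_right (by omega) a1).trans (Nat.pow_le_pow_left (by omega) _)
      omega)
    (fun v hv u => by
      obtain ⟨h1, h2⟩ := mem_filter.1 hv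
      rw [y1, inter_univ, hy]
      split_ifs with hu
      · have h3 := mU.1 h1
        have h4 := mU.1 (DU hu)
        have h5 := hc.thin v h3.1 u h4.1 (by omega)
        have h6 := Nat.mul_le_mul_right (ew G v u) n.a5
        rw [mul_assoc] at h6
        omega
      · simp) hbil
  obtain ⟨O, hO⟩ : ∃ O, O = un D ∩ cls univ col (T + 3) := ⟨_, rfl⟩
  have hsamp : Samp (ew G) PP D O K := hO ▸ (hsa _ o3).up n.k2
  obtain ⟨BB, hBB⟩ : ∃ BB, BB = (PP \ U).image (fun u => ({u} : Finset (Finset V))) ∪ ZZ :=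
    ⟨_, rfl⟩
  have mB : ∀ {Z}, Z ∈ BB ↔ (∃ u ∈ PP \ U, {u} = Z) ∨ Z ∈ ZZ := by
    simp only [hBB, mem_union, mem_image, implies_true]
  have hnot : ∀ u ∈ PP \ U, ∀ Z ∈ ZZ, u ∉ Z := fun u hu Z hZ h => (mem_sdiff.1 hu).2 ((zs Z hZ).1 h)
  obtain ⟨ι, I, S, nd, par, hsit⟩ := sit_of (G := G) (W := W) (T₀ := T₀) (PP := PP) (O := O)
    (BB := BB) (D := D) (p := p) (K := K) (Bm := Bm) hc.part
    (fun Z hZ => mB.2 (Or.inr (DZ hZ)))
    (by
      intro Z hZ Z' hZ' hne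
      rcases mB.1 hZ with ⟨u, hu, rfl⟩ | h1 <;> rcases mB.1 hZ' with ⟨u', hu', rfl⟩ | h2
      · exact disjoint_singleton.2 fun e => hne (by rw [e])
      · exact disjoint_singleton_left.2 (hnot u hu _ h2)
      · exact disjoint_singleton_right.2 (hnot u' hu' _ h1)
      · exact zd _ h1 _ h2 hne)
    (by
      intro Z hZ
      rcases mB.1 hZ with ⟨u, hu, rfl⟩ | h1
      · exact ⟨singleton_subset_iff.2 (mem_sdiff.1 hu).1, singleton_nonempty _⟩
      · exact zn Z h1)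
    (hO ▸ inter_subset_left)
    (by
      intro Z hZ
      rcases mB.1 hZ with ⟨u, hu, rfl⟩ | h1
      · rw [if_neg fun h => hnot u hu _ (DZ h) (mem_singleton_self u)]
        obtain ⟨h2, h3⟩ := mem_sdiff.1 hu
        have h4 : un {u} = u := by simp [un]
        have h5 := hc.le u h2
        refine blk_one (h4.symm ▸ hc.part.conn u h2) (h4.symm ▸ hhav V G u (bw G W T₀ u) _ p hd
          (hc.wl u h2) (bw_le hd W T₀ u) (Nat.mul_pos (by omega) Λ1) ?_) (by rw [ts_single]; omega)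
        have h6 := n.t1
        have h7 : ¬ bo G W T₀ u ≤ τ := fun h => h3 (mU.2 ⟨h2, h⟩)
        rw [ts_bw]
        omega
      · split_ifs with h2
        · obtain ⟨h, P, grp, p1, p2, p3, p4⟩ := hz V G W T₀ g A Λ PP Z col T K₀ (B ^ cZ) L p τ A hd
            hV hg hi hc (zn Z h1).1 (fun u hu => ⟨(zv Z h1).2 u hu, (zk Z h1).le u hu⟩) (o1 Z h2)
            z1 L1 n.a6 le_rfl (by omega) t2 n.t3 (mD.1 h2).2
          have h3 : O ∩ Z = cls Z col (T + 3) := by
            ext u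
            simp only [hO, mem_inter, mem_cls, mem_univ, true_and]
            exact ⟨fun h => ⟨h.2, h.1.2⟩, fun h => ⟨⟨subset_un h2 h.1, h.2⟩, h.1⟩⟩
          rw [h3]
          exact ⟨h, P, grp, p1.up subset_rfl subset_rfl n.k1, p2, fun i => (p3 i).trans n.m1,
            p4.trans (Nat.mul_le_mul_right _ n.m1)⟩
        · have h3 : WL (ew G) Z (bo G W T₀) B :=
            (zk Z h1).wl.mono (fun a _ b _ => bip_le sd a b) (fun _ _ => le_rfl) le_rfl
          obtain ⟨σ, hσ⟩ : ∃ σ : V → ℕ, ∀ C ∈ Z, ∀ v ∈ C, σ v = bw G W T₀ C v := by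
            have : ∀ v : V, ∃ s, ∀ C ∈ Z, v ∈ C → s = bw G W T₀ C v := fun v => by
              by_cases hv : ∃ C ∈ Z, v ∈ C
              · obtain ⟨C, h4, h5⟩ := hv
                exact ⟨bw G W T₀ C v, fun C' h6 h7 => by
                  rw [hpd.eq ((zn Z h1).1 h4) ((zn Z h1).1 h6) h5 h7]⟩
              · exact ⟨0, fun C h4 h5 => absurd ⟨C, h4, h5⟩ hv⟩
            choose σ hσ using this
            exact ⟨σ, fun C h4 v h5 => hσ v C h4 h5⟩
          have h4 := c1 Z (zn Z h1).1 B h3 (fun v => min (σ v) 7) fun C h4 v h5 =>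
            (min_le_left _ _).trans (hσ C h4 v h5).le
          have h5 : ¬ A ^ cP * L * τ ≤ ts (bo G W T₀) Z := fun h => h2 (mD.2 ⟨h1, h⟩)
          have h6 := n.m1
          refine blk_one (c2 Z (zn Z h1).1 B (zn Z h1).2 h3) (hhav V G _ _ _ p hd h4
            (fun v => min_le_right _ _) (Nat.mul_pos (Nat.mul_pos (by omega) Λ1) (by omega)) ?_)
            (by omega)
          have h7 : ts (fun v => min (σ v) 7) (un Z) = ts (bo G W T₀) Z := by
            rw [(hpd.mono (zn Z h1).1).ts_un]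
            refine sum_congr rfl fun C h7 => ?_
            rw [← ts_bw]
            exact sum_congr rfl fun v h8 => by
              show min (σ v) 7 = _
              rw [hσ C h7 v h8, min_eq_left (bw_le hd W T₀ C v)]
          have h8 := (zv Z h1).1
          have h9 := n.l3
          omega)
  have hYs : PP \ un BB ⊆ U \ un ZZ := fun v hv => by
    obtain ⟨h1, h2⟩ := mem_sdiff.1 hv
    refine mem_sdiff.2 ⟨by_contra fun h => h2 ?_, fun h => h2 ?_⟩
    · exact subset_un (mB.2 (Or.inl ⟨v, mem_sdiff.2 ⟨h1, h⟩, rfl⟩)) (mem_singleton_self v)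
    · exact un_mono (fun Z hZ => mB.2 (Or.inr hZ)) h
  obtain ⟨S', nd', hsit'⟩ := ha V ι G W T₀ PP D O _ I S nd par p K (8 * (T + 4)) Bm Λ hd hV
    (by omega) (by omega) hsit
    (fun v hv => by
      have h0 := (mem_sdiff.1 (hYs hv)).1
      obtain ⟨h1, h2⟩ := mU.1 h0
      refine ⟨hc.pos v h1, by omega, ?_⟩
      have h3 := bo_eq (T := T₀) hc.part h1
      have h4 := hwl v (hc.part.un ▸ subset_un h1)
      have h5 : bo G W T₀ v = cw (aw G) v (W \ v) + ts (ind T₀) v := rfl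
      have h6 : ts (ind T₀) (W \ v) + ts (ind T₀) v = ts (ind T₀) W :=
        ts_sdiff (hc.part.un ▸ subset_un h1)
      rw [ts_ind T₀ W, inter_eq_right.2 hTW] at h6
      rw [← ts_ind] at h3
      have h7 : cw (ew G) {v} (PP \ un D) + cw (ew G) {v} (un D) = cw (ew G) {v} PP :=
        cw_sdiff_right (DU.trans UP)
      have h8 : cw (ew G) {v} (PP \ un D) ≤ cw (ew G) {v} (kept PP D O) :=
        cw_mono subset_rfl subset_union_left
      have h9 : cw (ew G) {v} O ≤ cw (ew G) {v} (kept PP D O) :=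
        cw_mono subset_rfl subset_union_right
      by_cases hb : bo G W T₀ v ≤ 4 * cw (ew G) {v} (un D)
      · have h10 := o2 (T + 3) (by omega) v (mem_filter.2 ⟨h0, hb⟩)
        rw [y1, y1, inter_univ, ← hO] at h10
        calc _ ≤ 4 * (2 * (T + 4) * cw (ew G) {v} (kept PP D O)) :=
              hb.trans (Nat.mul_le_mul_left _ (h10.trans (Nat.mul_le_mul_left _ h9)))
          _ = _ := by ring
      · calc _ ≤ 4 * cw (ew G) {v} (kept PP D O) := by omega
          _ ≤ _ := Nat.mul_le_mul_right _ (by omega))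
    (fun A' hA' => by
      have := hY A' (hA'.trans hYs)
      rwa [show 4 * (8 * (T + 4)) = 32 * (T + 4) by ring])
  exact hq V ι G W T₀ PP D O I S' nd' par p q K _ hTW hwl K1
    (Nat.mul_pos (by positivity) (by omega)) hq1 hsit' hsamp (hk₁ ▸ hk)

end Pool.Agent.MP_35cb46_co.Nl

end MrgPart4

-- marker of a merged file
example : 731051 + 762728 = 731051 + 762728 := rfl
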