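import Mathlib.Data.Finset.Sum
import Pool.Agent.MP_35cb46_co.nl.Spec
import Pool.Agent.MP_35cb46_co.nl.DoneA
import Mathlib.Algebra.Order.Field.GeomSum
import Mathlib.Analysis.Complex.ExponentialBounds

-- ======== part 0: formerly Pool.Agent.MP_35cb46_co.nl.Link
section MrgPart0

/-! PROJECT NL, row LINK: disjoint connections with capacities, from the theorem of Menger. -/

noncomputable section

namespace Pool.Agent.MP_35cb46_co.Nl

open Finset Pool.Agent.MP_7be75d_co Pool.Agent.MP_35cb46_co.Sq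
open scoped Classical

namespace LinkP

theorem joined_of {W : Type} {H : SimpleGraph W} {U A B Z D : Finset W} {a b : W}
    (hD : ∀ x ∈ D, x ∈ U ∧ x ∉ Z) (ha : a ∈ A) (hb : b ∈ B) (haD : a ∈ D) (h : R H D a b) :
    Joined H U A B Z :=
  ⟨a, ha, b, hb, mem_sdiff.2 (hD a haD), h.mono fun x hx => mem_sdiff.2 (hD x hx)⟩

/-- The theorem of Menger inside a finite set of an arbitrary type. -/
theorem menger' {W : Type} (H : SimpleGraph W) (U A B : Finset W) (k : ℕ)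
    (h : ∀ Z : Finset W, Z.card < k → Joined H U A B Z) :
    ∃ P : Fin k → Finset W, Linkage H U A B P := by
  let H' : SimpleGraph U := H.comap Subtype.val
  let em : U ↪ W := Function.Embedding.subtype _
  obtain ⟨P, hP⟩ := menger (univ : Finset U) k _ H' (A.subtype (· ∈ U)) (B.subtype (· ∈ U)) le_rfl
    (by
      intro Z hZ
      obtain ⟨a, ha, b, hb, haU, hab⟩ := h (Z.map em) (by rwa [card_map])
      have key : ∀ x (hx : x ∈ U \ Z.map em), (⟨x, (mem_sdiff.1 hx).1⟩ : U) ∈ univ \ Z :=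
        fun x hx => mem_sdiff.2 ⟨mem_univ _, fun hz => (mem_sdiff.1 hx).2 (mem_map.2 ⟨_, hz, rfl⟩)⟩
      refine joined_of (D := univ \ Z) (a := ⟨a, (mem_sdiff.1 haU).1⟩)
        (b := ⟨b, (mem_sdiff.1 (hab.mem haU)).1⟩) (fun x hx => mem_sdiff.1 hx) (mem_subtype.2 ha)
        (mem_subtype.2 hb) (key a haU) ?_
      have := hab.ind (P := fun b => ∀ hb : b ∈ U, R H' (univ \ Z) ⟨a, (mem_sdiff.1 haU).1⟩ ⟨b, hb⟩)
        (fun _ => R.refl) (fun u v _ ih huv hu hv _ =>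
          (ih (mem_sdiff.1 hu).1).tail huv (key u hu) (key v hv))
      exact this _)
  refine ⟨fun i => (P i).map em, fun i x hx => ?_, fun i => ?_, fun i j hij => ?_, fun i => ?_,
    fun i => ?_⟩
  · obtain ⟨z, -, rfl⟩ := mem_map.1 hx
    exact z.2
  · refine ⟨(hP.conn i).1.map, fun a ha b hb => ?_⟩
    obtain ⟨a, ha', rfl⟩ := mem_map.1 ha
    obtain ⟨b, hb', rfl⟩ := mem_map.1 hb
    exact ((hP.conn i).2 a ha' b hb').ind (P := fun b => R H ((P i).map em) (em a) (em b)) R.refl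
      fun u v _ ih huv hu hv => ih.tail huv (mem_map_of_mem _ hu) (mem_map_of_mem _ hv)
  · exact (disjoint_map _).2 (hP.disj i j hij)
  · obtain ⟨a, ha, h⟩ := hP.left i
    exact ⟨a.1, mem_subtype.1 ha, mem_map_of_mem em h⟩
  · obtain ⟨a, ha, h⟩ := hP.right i
    exact ⟨a.1, mem_subtype.1 ha, mem_map_of_mem em h⟩

variable {V ι κ : Type}

/-- If all edges from `A` to `B` have an end in `Z`, there are at most `6 * |Z|` of them. -/
theorem cw_le_left [Fintype V] {G : SimpleGraph V} (hG : Deg G univ 6) {A B Z : Finset V}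
    (h : ∀ a ∈ A, ∀ b ∈ B, G.Adj a b → a ∈ Z) : cw (aw G) A B ≤ 6 * Z.card := by
  have h1 := cw_sdiff_left (w := aw G) (B := B) (inter_subset_left (s₁ := A) (s₂ := Z))
  have h2 : cw (aw G) (A \ (A ∩ Z)) B = 0 := cw_eq_zero.2 fun a ha b hb => by
    have ha' := mem_sdiff.1 ha
    exact if_neg fun hab => ha'.2 (mem_inter.2 ⟨ha'.1, h a ha'.1 b hb hab⟩)
  have h3 := (cw_mono (w := aw G) (inter_subset_right (s₁ := A) (s₂ := Z))
    (subset_rfl (a := B))).trans (hG.cw_le (subset_univ _) (subset_univ _))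
  omega

theorem ts_cnt (I : Finset ι) (y : ι → V) (A : Finset V) :
    ts (cnt I y) A = (I.filter fun i => y i ∈ A).card := by
  rw [card_eq_sum_card_fiberwise (f := y) (s := I.filter fun i => y i ∈ A) (t := A)
    fun i hi => mem_coe.2 (mem_filter.1 (mem_coe.1 hi)).2]
  refine sum_congr rfl fun a ha => ?_
  rw [cnt, filter_filter]
  congr 1
  exact filter_congr fun i _ => ⟨fun h => ⟨h ▸ ha, h⟩, fun h => h.2⟩

/-- The vertices of the auxiliary graph. -/
abbrev Wt (V ι κ : Type) : Type := V ⊕ ι ⊕ (κ × ℕ) ⊕ (κ × ℕ)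

/-- The edges of the auxiliary graph. -/
def rel (G : SimpleGraph V) (I₁ I₂ : Finset ι) (y : ι → V) (o : ι → κ) :
    Wt V ι κ → Wt V ι κ → Prop
  | .inl u, .inl v => G.Adj u v
  | .inl v, .inr (.inl i) => y i = v
  | .inr (.inl i), .inr (.inr (.inl p)) => i ∈ I₁ ∧ o i = p.1
  | .inr (.inl i), .inr (.inr (.inr p)) => i ∈ I₂ ∧ o i = p.1
  | _, _ => False

/-- The auxiliary graph. -/
def aux (G : SimpleGraph V) (I₁ I₂ : Finset ι) (y : ι → V) (o : ι → κ) : SimpleGraph (Wt V ι κ) :=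
  SimpleGraph.fromRel (rel G I₁ I₂ y o)

/-- Copies of the owners of sources. -/
def sc (p : κ × ℕ) : Wt V ι κ := .inr (.inr (.inl p))

/-- Copies of the owners of sinks. -/
def snk (p : κ × ℕ) : Wt V ι κ := .inr (.inr (.inr p))

/-- Indices. -/
def idx (i : ι) : Wt V ι κ := .inr (.inl i)

variable {G : SimpleGraph V} {I₁ I₂ : Finset ι} {y : ι → V} {o : ι → κ}

/-- A connected set that contains a source and a sink gives a connection in `G`. -/
theorem extract (hI : Disjoint I₁ I₂) {S : Finset (Wt V ι κ)} {p q : κ × ℕ}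
    (h : R (aux G I₁ I₂ y o) S (sc p) (snk q)) :
    ∃ i i', (i ∈ I₁ ∧ idx i ∈ S ∧ ∃ j, sc (o i, j) ∈ S) ∧
      (i' ∈ I₂ ∧ idx i' ∈ S ∧ ∃ j, snk (o i', j) ∈ S) ∧ y i ∈ S.toLeft ∧
      R G S.toLeft (y i) (y i') := by
  let Src : ι → Prop := fun i => i ∈ I₁ ∧ idx i ∈ S ∧ ∃ j, sc (o i, j) ∈ S
  let Rc : V → Prop := fun v => ∃ i, Src i ∧ y i ∈ S.toLeft ∧ R G S.toLeft (y i) v
  let Φ : Wt V ι κ → Prop := fun b => match b with
    | .inl v => Rc v
    | .inr (.inl i) => Src i ∨ Rc (y i)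
    | .inr (.inr (.inl _)) => True
    | .inr (.inr (.inr _)) => False
  by_contra hc
  refine h.ind (P := Φ) trivial ?_
  intro a b _ ha hab haS hbS
  obtain ⟨-, hab⟩ := (SimpleGraph.fromRel_adj _ _ _).1 hab
  rcases a with u | i | p' | p' <;> rcases b with v | i' | q' | q' <;>
    simp only [rel, or_false, false_or, or_self] at hab
  · obtain ⟨i, h1, h2, h3⟩ := ha
    exact ⟨i, h1, h2, h3.tail (hab.elim id fun h => h.symm) (mem_toLeft.2 haS) (mem_toLeft.2 hbS)⟩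
  · exact Or.inr (hab ▸ ha)
  · subst hab
    exact ha.elim (fun h => ⟨i, h, mem_toLeft.2 hbS, R.refl⟩) id
  · trivial
  · rcases ha with ha | ⟨i0, h1, h2, h3⟩
    · exact disjoint_left.1 hI ha.1 hab.1
    · exact hc ⟨i0, i, h1, ⟨hab.1, haS, q'.2, by rw [hab.2]; exact hbS⟩, h2, h3⟩
  · exact Or.inl ⟨hab.1, hbS, p'.2, by rw [hab.2]; exact haS⟩
  · exact ha.elim

theorem adj_vv {u v : V} (h : G.Adj u v) : (aux G I₁ I₂ y o).Adj (.inl u) (.inl v) :=
  (SimpleGraph.fromRel_adj _ _ _).2 ⟨fun e => h.ne (Sum.inl.inj e), Or.inl h⟩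

theorem adj_vi (i : ι) : (aux G I₁ I₂ y o).Adj (.inl (y i)) (idx i) :=
  (SimpleGraph.fromRel_adj _ _ _).2 ⟨by simp [idx], Or.inl rfl⟩

theorem adj_src {i : ι} (hi : i ∈ I₁) (j : ℕ) : (aux G I₁ I₂ y o).Adj (idx i) (sc (o i, j)) :=
  (SimpleGraph.fromRel_adj _ _ _).2 ⟨by simp [idx, sc], Or.inl ⟨hi, rfl⟩⟩

theorem adj_snk {i : ι} (hi : i ∈ I₂) (j : ℕ) : (aux G I₁ I₂ y o).Adj (idx i) (snk (o i, j)) :=
  (SimpleGraph.fromRel_adj _ _ _).2 ⟨by simp [idx, snk], Or.inl ⟨hi, rfl⟩⟩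

/-- Owners all of whose copies are deleted. -/
theorem dead_le (J : Finset κ) (c : ℕ) (Z : Finset (κ × ℕ)) :
    c * (J \ J.filter fun a => ∃ j < c, (a, j) ∉ Z).card ≤ Z.card := by
  have : (J \ J.filter fun a => ∃ j < c, (a, j) ∉ Z) ×ˢ range c ⊆ Z := by
    rintro ⟨a, j⟩ h
    obtain ⟨h1, h2⟩ := mem_product.1 h
    by_contra hc
    exact (mem_sdiff.1 h1).2 (mem_filter.2 ⟨(mem_sdiff.1 h1).1, j, mem_range.1 h2, hc⟩)
  have := card_le_card this
  rwa [card_product, card_range, mul_comm] at this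

/-- Indices that are deleted or whose anchor is deleted. -/
theorem live_le {I I' Zi : Finset ι} {Zv : Finset V} (hI : I' ⊆ I) (h7 : ∀ v, cnt I y v ≤ 7) :
    I'.card ≤ (I'.filter fun i => i ∉ Zi ∧ y i ∉ Zv).card + Zi.card + 7 * Zv.card := by
  have h1 : I' ⊆ (I'.filter fun i => i ∉ Zi ∧ y i ∉ Zv) ∪ Zi ∪ I.filter fun i => y i ∈ Zv := by
    intro i hi
    have := hI hi
    simp only [mem_union, mem_filter]
    tauto
  have h2 : (I.filter fun i => y i ∈ Zv).card ≤ Zv.card * 7 := by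
    rw [← ts_cnt]
    exact sum_le_card_nsmul _ _ _ fun v _ => h7 v
  have h3 := (card_le_card h1).trans (card_union_le _ _)
  have h4 := card_union_le (I'.filter fun i => i ∉ Zi ∧ y i ∉ Zv) Zi
  omega

/-- At most `c` of the disjoint sets contain a copy of one owner. -/
theorem cap_le {W : Type} {m c : ℕ} {P : Fin m → Finset W}
    (hP : ∀ i j, i ≠ j → Disjoint (P i) (P j)) (f : κ × ℕ → W) (t : Fin m → κ) (j : Fin m → ℕ)
    (hj : ∀ k, j k < c) (hf : ∀ k, f (t k, j k) ∈ P k) (a : κ) :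
    (univ.filter fun k => t k = a).card ≤ c := by
  rw [← card_range c]
  refine card_le_card_of_injOn j (fun k _ => mem_coe.2 (mem_range.2 (hj k))) ?_
  intro k hk k' hk' e
  by_contra hne
  have h1 := hf k
  have h2 := hf k'
  rw [(mem_filter.1 (mem_coe.1 hk)).2] at h1
  rw [(mem_filter.1 (mem_coe.1 hk')).2, ← e] at h2
  exact disjoint_left.1 (hP k k' hne) h1 h2

end LinkP

open LinkP

theorem link : LinkStmt := by
  intro V ι κ _ G R₀ I₁ I₂ y o J₁ J₂ c₁ c₂ K m hG hK hI hy h7 hWL ho₁ ho₂ hm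
  let U : Finset (Wt V ι κ) :=
    R₀.disjSum ((I₁ ∪ I₂).disjSum ((J₁ ×ˢ range c₁).disjSum (J₂ ×ˢ range c₂)))
  have hUv : ∀ v, (.inl v : Wt V ι κ) ∈ U ↔ v ∈ R₀ := fun v => inl_mem_disjSum
  have hUi : ∀ i, idx i ∈ U ↔ i ∈ I₁ ∪ I₂ := fun i => inr_mem_disjSum.trans inl_mem_disjSum
  have hU1 : ∀ p, sc p ∈ U ↔ p ∈ J₁ ×ˢ range c₁ := fun p =>
    inr_mem_disjSum.trans (inr_mem_disjSum.trans inl_mem_disjSum)
  have hU2 : ∀ p, snk p ∈ U ↔ p ∈ J₂ ×ˢ range c₂ := fun p =>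
    inr_mem_disjSum.trans (inr_mem_disjSum.trans inr_mem_disjSum)
  obtain ⟨P, hP⟩ := menger' (aux G I₁ I₂ y o) U ((J₁ ×ˢ range c₁).image sc)
    ((J₂ ×ˢ range c₂).image snk) m (by
      intro Z hZ
      by_contra hc
      have e1 := card_toLeft_add_card_toRight (u := Z)
      have e2 := card_toLeft_add_card_toRight (u := Z.toRight)
      have e3 := card_toLeft_add_card_toRight (u := Z.toRight.toRight)
      set Zv := Z.toLeft
      set Zi := Z.toRight.toLeft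
      set Z₁ := Z.toRight.toRight.toLeft
      set Z₂ := Z.toRight.toRight.toRight
      have hZv : ∀ v, v ∈ Zv ↔ .inl v ∈ Z := fun v => mem_toLeft
      have hZi : ∀ i, i ∈ Zi ↔ idx i ∈ Z := fun v => mem_toLeft.trans mem_toRight
      have hZ1 : ∀ p, p ∈ Z₁ ↔ sc p ∈ Z := fun v => mem_toLeft.trans (mem_toRight.trans mem_toRight)
      have hZ2 : ∀ p, p ∈ Z₂ ↔ snk p ∈ Z := fun v =>
        mem_toRight.trans (mem_toRight.trans mem_toRight)
      have d1 := dead_le J₁ c₁ Z₁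
      have d2 := dead_le J₂ c₂ Z₂
      have hm' := hm _ (filter_subset (fun a => ∃ j < c₁, (a, j) ∉ Z₁) J₁) _
        (filter_subset (fun a => ∃ j < c₂, (a, j) ∉ Z₂) J₂)
      set A₁ := J₁.filter fun a => ∃ j < c₁, (a, j) ∉ Z₁
      set A₂ := J₂.filter fun a => ∃ j < c₂, (a, j) ∉ Z₂
      have l1 := live_le (Zi := Zi) (Zv := Zv)
        ((filter_subset (fun i => o i ∈ A₁) I₁).trans subset_union_left) h7
      have l2 := live_le (Zi := Zi) (Zv := Zv)
        ((filter_subset (fun i => o i ∈ A₂) I₂).trans subset_union_right) h7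
      set L₁ := (I₁.filter fun i => o i ∈ A₁).filter fun i => i ∉ Zi ∧ y i ∉ Zv
      set L₂ := (I₂.filter fun i => o i ∈ A₂).filter fun i => i ∉ Zi ∧ y i ∉ Zv
      let S := (R₀ \ Zv).filter fun v => ∃ i ∈ L₁, R G (R₀ \ Zv) (y i) v
      have hS : S ⊆ R₀ := (filter_subset _ _).trans sdiff_subset
      have s1 : L₁.card ≤ ts (cnt (I₁ ∪ I₂) y) S := by
        rw [ts_cnt]
        refine card_le_card fun i hi => ?_
        have h1 := mem_filter.1 hi
        have h2 : i ∈ I₁ ∪ I₂ := mem_union_left _ (mem_filter.1 h1.1).1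
        exact mem_filter.2 ⟨h2, mem_filter.2 ⟨mem_sdiff.2 ⟨hy i h2, h1.2.2⟩, i, hi, R.refl⟩⟩
      have s2 : L₂.card ≤ ts (cnt (I₁ ∪ I₂) y) (R₀ \ S) := by
        rw [ts_cnt]
        refine card_le_card fun i' hi' => ?_
        have h1' := mem_filter.1 hi'
        have h2' := mem_filter.1 h1'.1
        have h3' : i' ∈ I₁ ∪ I₂ := mem_union_right _ h2'.1
        refine mem_filter.2 ⟨h3', mem_sdiff.2 ⟨hy i' h3', fun hs => ?_⟩⟩
        obtain ⟨-, i, hi, hr⟩ := mem_filter.1 hs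
        have h1 := mem_filter.1 hi
        have h2 := mem_filter.1 h1.1
        have h3 : i ∈ I₁ ∪ I₂ := mem_union_left _ h2.1
        obtain ⟨ha, j, hj, hjz⟩ := mem_filter.1 h2.2
        obtain ⟨ha', j', hj', hjz'⟩ := mem_filter.1 h2'.2
        have m1 : (o i, j) ∈ J₁ ×ˢ range c₁ := mem_product.2 ⟨ha, mem_range.2 hj⟩
        have m2 : (o i', j') ∈ J₂ ×ˢ range c₂ := mem_product.2 ⟨ha', mem_range.2 hj'⟩
        have n1 : sc (o i, j) ∈ U \ Z := mem_sdiff.2 ⟨(hU1 _).2 m1, fun h => hjz ((hZ1 _).2 h)⟩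
        have n2 : snk (o i', j') ∈ U \ Z :=
          mem_sdiff.2 ⟨(hU2 _).2 m2, fun h => hjz' ((hZ2 _).2 h)⟩
        have n3 : idx i ∈ U \ Z := mem_sdiff.2 ⟨(hUi _).2 h3, fun h => h1.2.1 ((hZi _).2 h)⟩
        have n4 : idx i' ∈ U \ Z := mem_sdiff.2 ⟨(hUi _).2 h3', fun h => h1'.2.1 ((hZi _).2 h)⟩
        have n5 : ∀ v ∈ R₀ \ Zv, (.inl v : Wt V ι κ) ∈ U \ Z := fun v hv =>
          mem_sdiff.2 ⟨(hUv _).2 (mem_sdiff.1 hv).1, fun h => (mem_sdiff.1 hv).2 ((hZv _).2 h)⟩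
        have n6 := n5 _ (mem_sdiff.2 ⟨hy i h3, h1.2.2⟩)
        have n7 := n5 _ (mem_sdiff.2 ⟨hy i' h3', h1'.2.2⟩)
        have r : R (aux G I₁ I₂ y o) (U \ Z) (.inl (y i)) (.inl (y i')) :=
          hr.ind (P := fun v => R (aux G I₁ I₂ y o) (U \ Z) (.inl (y i)) (.inl v)) R.refl
            fun u v _ ih huv hu hv => ih.tail (adj_vv huv) (n5 u hu) (n5 v hv)
        exact hc (joined_of (fun x hx => mem_sdiff.1 hx) (mem_image_of_mem _ m1)
          (mem_image_of_mem _ m2) n1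
          (((((R.single (adj_src h2.1 j).symm n1 n3).tail (adj_vi i).symm n3 n6).trans r).tail
            (adj_vi i') n7 n4).tail (adj_snk h2'.1 j') n4 n2))
      have s3 : cw (aw G) S (R₀ \ S) ≤ 6 * Zv.card := by
        rw [cw_comm aw_comm]
        refine cw_le_left hG fun b hb a ha hab => ?_
        by_contra hz
        obtain ⟨h1, i, hi, hr⟩ := mem_filter.1 ha
        have h2 : b ∈ R₀ \ Zv := mem_sdiff.2 ⟨(mem_sdiff.1 hb).1, hz⟩
        exact (mem_sdiff.1 hb).2 (mem_filter.2 ⟨h2, i, hi, hr.tail hab.symm h1 h2⟩)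
      have s4 := (hWL S hS).trans (Nat.mul_le_mul_left K s3)
      have t1 : 14 * K * (c₁ * (J₁ \ A₁).card + c₂ * (J₂ \ A₂).card) ≤
          14 * K * (Z₁.card + Z₂.card) := Nat.mul_le_mul_left _ (add_le_add d1 d2)
      have t2 : 14 * K * (Zv.card + Zi.card + Z₁.card + Z₂.card + 1) ≤ 14 * K * m :=
        Nat.mul_le_mul_left _ (by omega)
      have t3 : Zv.card ≤ K * Zv.card := Nat.le_mul_of_pos_left _ hK
      have t4 : Zi.card ≤ K * Zi.card := Nat.le_mul_of_pos_left _ hK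
      have t5 : min (I₁.filter fun i => o i ∈ A₁).card (I₂.filter fun i => o i ∈ A₂).card ≤
          K * (6 * Zv.card) + Zi.card + 7 * Zv.card := by omega
      have t6 := (t2.trans hm').trans (add_le_add t1 t5)
      nlinarith)
  have key : ∀ k, ∃ i i', (i ∈ I₁ ∧ idx i ∈ P k ∧ ∃ j, sc (o i, j) ∈ P k) ∧
      (i' ∈ I₂ ∧ idx i' ∈ P k ∧ ∃ j, snk (o i', j) ∈ P k) ∧ y i ∈ (P k).toLeft ∧
      R G (P k).toLeft (y i) (y i') := by
    intro k
    obtain ⟨a, ha, ha'⟩ := hP.left k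
    obtain ⟨b, hb, hb'⟩ := hP.right k
    obtain ⟨p, -, rfl⟩ := mem_image.1 ha
    obtain ⟨q, -, rfl⟩ := mem_image.1 hb
    exact extract hI ((hP.conn k).2 _ ha' _ hb')
  choose s s' h1 h2 h3 h4 using key
  choose j hj using fun k => (h1 k).2.2
  choose j' hj' using fun k => (h2 k).2.2
  refine ⟨s, s', fun k => comp G (P k).toLeft (y (s k)),
    ⟨fun k v hv => (hUv v).1 (hP.sub k (mem_toLeft.1 (comp_subset hv))), fun k => comp_conn (h3 k),
      fun k k' hk => disjoint_left.2 fun v hv hv' => disjoint_left.1 (hP.disj k k' hk)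
        (mem_toLeft.1 (comp_subset hv)) (mem_toLeft.1 (comp_subset hv'))⟩, ?_, ?_,
    fun k => ⟨(h1 k).1, self_mem_comp (h3 k)⟩,
    fun k => ⟨(h2 k).1, mem_comp.2 ⟨(h4 k).mem (h3 k), h4 k⟩⟩, fun a => ⟨?_, ?_⟩⟩
  · intro k k' e
    by_contra hne
    exact disjoint_left.1 (hP.disj k k' hne) (h1 k).2.1 (e ▸ (h1 k').2.1)
  · intro k k' e
    by_contra hne
    exact disjoint_left.1 (hP.disj k k' hne) (h2 k).2.1 (e ▸ (h2 k').2.1)
  · exact cap_le hP.disj sc (fun k => o (s k)) j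
      (fun k => mem_range.1 (mem_product.1 ((hU1 _).1 (hP.sub k (hj k)))).2) hj a
  · exact cap_le hP.disj snk (fun k => o (s' k)) j'
      (fun k => mem_range.1 (mem_product.1 ((hU2 _).1 (hP.sub k (hj' k)))).2) hj' a

theorem link2 : Link2Stmt := by
  intro V _ G X T SV m hG hT hSV hm
  obtain ⟨P, hP⟩ := menger X m _ G T SV le_rfl (by
    intro Z hZ
    by_contra hc
    let A := X.filter fun v => v ∈ Z ∨ ∃ b ∈ SV, b ∈ X \ Z ∧ R G (X \ Z) b v
    have h1 := hm A (filter_subset _ _) fun b hb => mem_filter.2 ⟨hSV hb, by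
      by_cases hz : b ∈ Z
      · exact Or.inl hz
      · exact Or.inr ⟨b, hb, mem_sdiff.2 ⟨hSV hb, hz⟩, R.refl⟩⟩
    have h2 : cw (aw G) A (X \ A) ≤ 6 * Z.card := by
      refine cw_le_left hG fun a ha b hb hab => ?_
      obtain ⟨-, h | ⟨c, h1, h2, h3⟩⟩ := mem_filter.1 ha
      · exact h
      · have hb' := mem_sdiff.1 hb
        have hbz : b ∉ Z := fun h => hb'.2 (mem_filter.2 ⟨hb'.1, Or.inl h⟩)
        exact absurd (mem_filter.2 ⟨hb'.1, Or.inr ⟨c, h1, h2,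
          h3.tail hab (h3.mem h2) (mem_sdiff.2 ⟨hb'.1, hbz⟩)⟩⟩) hb'.2
    have h3 : ts (ind T) A ≤ Z.card := by
      have : ts (ind T) A = (A.filter fun a => a ∈ T).card := by
        simp [ts, ind, filter_mem_eq_inter]
      rw [this]
      refine card_le_card fun a ha => ?_
      obtain ⟨ha, haT⟩ := mem_filter.1 ha
      obtain ⟨-, h | ⟨c, h1, h2, h3⟩⟩ := mem_filter.1 ha
      · exact h
      · exact absurd ⟨a, haT, c, h1, h3.mem h2, h3.symm⟩ hc
    unfold out at h1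
    omega)
  have key : ∀ k, ∃ s e, ∃ Q ⊆ P k, Conn G Q ∧ (s ∈ T ∧ s ∈ Q) ∧ Q ∩ SV = {e} ∧
      (e ∈ T ∨ ∃ v ∈ X \ SV, G.Adj e v) := by
    intro k
    obtain ⟨t, ht, ht'⟩ := hP.left k
    obtain ⟨b, hb, hb'⟩ := hP.right k
    by_cases hts : t ∈ SV
    · exact ⟨t, t, {t}, singleton_subset_iff.2 ht', Conn.singleton t, ⟨ht, mem_singleton_self t⟩,
        singleton_inter_of_mem hts, Or.inl ht⟩
    have h0 : t ∈ P k \ SV := mem_sdiff.2 ⟨ht', hts⟩
    obtain ⟨x, z, hx, hz, hxP, hzP, hxz⟩ := (hP.conn k).exit ht' (self_mem_comp (G := G) h0) hb'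
      fun h => (mem_sdiff.1 (comp_subset h)).2 hb
    have hzS : z ∈ SV := by
      by_contra h
      exact hz (comp_closed hx (mem_sdiff.2 ⟨hzP, h⟩) hxz)
    refine ⟨t, z, insert z (comp G (P k \ SV) t), insert_subset hzP (comp_subset.trans sdiff_subset),
      (comp_conn h0).insert hx hxz, ⟨ht, mem_insert_of_mem (self_mem_comp h0)⟩, ?_,
      Or.inr ⟨x, mem_sdiff.2 ⟨hP.sub k hxP, (mem_sdiff.1 (comp_subset hx)).2⟩, hxz.symm⟩⟩
    ext v
    simp only [mem_inter, mem_insert, mem_singleton]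
    exact ⟨fun h => h.1.elim id fun h' => absurd h.2 (mem_sdiff.1 (comp_subset h')).2,
      fun h => ⟨Or.inl h, h ▸ hzS⟩⟩
  choose s e Q h1 h2 h3 h4 h5 using key
  exact ⟨s, e, Q, ⟨fun k _ => (h1 k).trans (hP.sub k), fun k _ => h2 k,
    fun k _ k' _ hk => (hP.disj k k' hk).mono (h1 k) (h1 k')⟩, fun k _ => h3 k, fun k _ => h4 k,
    fun k _ => h5 k⟩

end Pool.Agent.MP_35cb46_co.Nl

end
end MrgPart0

-- ======== part 1: formerly Pool.Agent.MP_35cb46_co.nl.Opena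
section MrgPart1

/-! PROJECT NL: opening an atom. -/

namespace Pool.Agent.MP_35cb46_co.Nl

open Finset Pool.Agent.MP_7be75d_co Pool.Agent.MP_35cb46_co.Sq
open scoped Classical

namespace OpenaP

variable {V ι : Type} {G : SimpleGraph V} {X T SV SV' : Finset V} {I I' : Finset ι} {s e : ι → V}
  {Q : ι → Finset V}

theorem e_mem (h : Paths G X T SV I s e Q) {k : ι} (hk : k ∈ I) : e k ∈ Q k ∧ e k ∈ SV :=
  mem_inter.1 (h.en k hk ▸ mem_singleton_self _)

theorem inj (h : Paths G X T SV I s e Q) {f : ι → V} (hf : ∀ k ∈ I, f k ∈ Q k) :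
    Set.InjOn f I := fun k hk k' hk' E => by
  by_contra hne
  exact disjoint_left.1 (h.fam.disj k hk k' hk' hne) (hf k hk) (E ▸ hf k' hk')

theorem res (h : Paths G X T SV I s e Q) (hI : I' ⊆ I) (hS : SV' ⊆ SV)
    (he : ∀ k ∈ I', e k ∈ SV') : Paths G X T SV' I' s e Q where
  fam := h.fam.mono subset_rfl hI
  st k hk := h.st k (hI hk)
  en k hk := by
    refine Subset.antisymm (h.en k (hI hk) ▸ inter_subset_inter subset_rfl hS) ?_
    simp [(e_mem h (hI hk)).1, he k hk]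
  bdy k hk := (h.bdy k (hI hk)).imp_right fun ⟨v, hv, h1⟩ =>
    ⟨v, sdiff_subset_sdiff subset_rfl hS hv, h1⟩

theorem card_s (h : Paths G X T SV I s e Q) (hI : I' ⊆ I) : (I'.image s).card = I'.card :=
  card_image_of_injOn ((inj h fun k hk => (h.st k hk).2).mono hI)

theorem up {ω : V → V} {n C K K' g ρ : ℕ} {GG : Finset (Finset V)}
    (h : Opened G X T ω n C K g ρ GG) (hK : K ≤ K') : Opened G X T ω n C K' g ρ GG := by
  intro col hc
  obtain ⟨AA, wd, Y, Cd, y, h⟩ := h col hc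
  exact ⟨AA, wd, Y, Cd, y, { h with
    mass := h.mass.trans (Nat.mul_le_mul_right _ hK)
    wl := fun u hu => (h.wl u hu).up hK
    tr := fun t ht A hA => (h.tr t ht A hA).trans (Nat.mul_le_mul_right _ hK) }⟩

end OpenaP

open OpenaP

theorem openA (ext : ExtStmt) : OpenAStmt := by
  intro V ι _ G X T₀ ω g₁ A Λ PP Hv I s e Q T C K K' g ρ hC hH hO hP C1 K1 hA hK hx hρ hg col hcol
  set J : Finset V → Finset ι := fun u => I.filter fun k => e k ∈ u with hJ
  have mJ : ∀ {u k}, k ∈ J u ↔ k ∈ I ∧ e k ∈ u := mem_filter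
  have pd : PD Hv := PD.mono hC.part.disj hH
  have ex : ∀ u, ∃ (w : ℕ) (Ch : ℕ → Finset V), u ∈ Hv → (J u).card ≤ C * w ∧
      ∀ t ≤ T, Ch t ⊆ cls ((J u).image s) col t ∧ (Ch t).card = w := fun u => by
    obtain ⟨t₀, h0, h1⟩ := exists_min_image (range (T + 1))
      (fun t => (cls ((J u).image s) col t).card) (by simp)
    have : ∀ t, ∃ S, t ≤ T → S ⊆ cls ((J u).image s) col t ∧
        S.card = (cls ((J u).image s) col t₀).card := fun t => by
      by_cases ht : t ≤ T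
      · simpa [ht] using exists_subset_card_eq (h1 t (by simp; omega))
      · simp [ht]
    choose Ch hCh using this
    exact ⟨_, Ch, fun hu => ⟨(card_s hP (filter_subset _ _)).symm.trans_le
      (hcol _ (mem_image_of_mem _ hu) t₀ (by simp at h0; omega)), hCh⟩⟩
  choose w Ch hw using ex
  set at' : Finset V → Finset V := fun u => u ∪ (J u).biUnion Q with hat
  have Qu : ∀ u ∈ Hv, ∀ k ∈ J u, Q k ∩ u = {e k} := fun u hu =>
    (res hP (filter_subset _ _) (subset_un hu) fun k hk => (mJ.1 hk).2).en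
  have Qu' : ∀ u ∈ Hv, ∀ u' ∈ Hv, ∀ k ∈ J u, ∀ v ∈ Q k, v ∈ u' → u = u' := by
    intro u hu u' hu' k hk v h1 h2
    have h3 : v ∈ Q k ∩ un Hv := mem_inter.2 ⟨h1, subset_un hu' h2⟩
    rw [hP.en k (mJ.1 hk).1, mem_singleton] at h3
    exact pd.eq hu hu' (mJ.1 hk).2 (h3 ▸ h2)
  have aeq : ∀ u ∈ Hv, ∀ u' ∈ Hv, ∀ v ∈ at' u, v ∈ at' u' → u = u' := by
    intro u hu u' hu' v h1 h2
    simp only [hat, mem_union, mem_biUnion] at h1 h2
    rcases h1 with h1 | ⟨k, hk, h1⟩ <;> rcases h2 with h2 | ⟨k', hk', h2⟩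
    · exact pd.eq hu hu' h1 h2
    · exact (Qu' u' hu' u hu k' hk' v h2 h1).symm
    · exact Qu' u hu u' hu' k hk v h1 h2
    · obtain rfl : k = k' := by
        by_contra hne
        exact disjoint_left.1 (hP.fam.disj k (mJ.1 hk).1 k' (mJ.1 hk').1 hne) h1 h2
      exact pd.eq hu hu' (mJ.1 hk).2 (mJ.1 hk').2
  have sat : ∀ u, (J u).image s ⊆ at' u := fun u => image_subset_iff.2 fun k hk =>
    mem_union_right _ (mem_biUnion.2 ⟨k, hk, (hP.st k (mJ.1 hk).1).2⟩)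
  have cs : ∀ u ∈ Hv, ∀ t ≤ T, Ch u t ⊆ (J u).image s := fun u hu t ht =>
    ((hw u hu).2 t ht).1.trans cls_subset
  set Cd : ℕ → Finset V := fun t => Hv.biUnion fun u => Ch u t with hCd
  have ci : ∀ u ∈ Hv, ∀ t ≤ T, Cd t ∩ at' u = Ch u t := fun u hu t ht => by
    ext v
    simp only [hCd, mem_inter, mem_biUnion]
    exact ⟨fun ⟨⟨u', hu', h1⟩, h2⟩ => aeq u' hu' u hu v (sat _ (cs u' hu' t ht h1)) h2 ▸ h1,
      fun h => ⟨⟨u, hu, h⟩, sat _ (cs u hu t ht h)⟩⟩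
  have cw' : ∀ u ∈ Hv, ∀ t ≤ T, (Cd t ∩ at' u).card = w u := fun u hu t ht => by
    rw [ci u hu t ht, ((hw u hu).2 t ht).2]
  have cT : ∀ t ≤ T, Cd t ⊆ cls T₀ col t := fun t ht v hv => by
    obtain ⟨u, hu, h1⟩ := mem_biUnion.1 hv
    obtain ⟨h2, h3⟩ := mem_cls.1 (((hw u hu).2 t ht).1 h1)
    obtain ⟨k, hk, rfl⟩ := mem_image.1 h2
    exact mem_cls.2 ⟨(hP.st k (mJ.1 hk).1).1, h3⟩
  have eb : ∀ u ∈ Hv, ∀ v ∈ u, ind ((J u).image e) v ≤ bw G X T₀ u v := fun u hu v _ => by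
    by_cases h : v ∈ (J u).image e
    · obtain ⟨k, hk, rfl⟩ := mem_image.1 h
      rw [ind_of_mem h, bw]
      rcases hP.bdy k (mJ.1 hk).1 with h1 | ⟨x, hx, h1⟩
      · rw [ind_of_mem h1]; omega
      · have : 0 < ((X \ u).filter fun y => G.Adj (e k) y).card := card_pos.2
          ⟨x, mem_filter.2 ⟨sdiff_subset_sdiff subset_rfl (subset_un hu) hx, h1⟩⟩
        rw [cw_aw_single]; omega
    · simp [ind_of_notMem h]
  have ac : ∀ u ∈ Hv, Conn G (at' u) := fun u hu => by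
    have hc := hC.part.conn u (hH hu)
    obtain ⟨a, ha⟩ := hc.1
    refine Conn.of_center (mem_union_left _ ha) fun b hb => ?_
    rcases mem_union.1 hb with hb | hb
    · exact hc.r ha hb subset_union_left
    · obtain ⟨k, hk, hb⟩ := mem_biUnion.1 hb
      exact (hc.r ha (mJ.1 hk).2 subset_union_left).trans ((hP.fam.conn k (mJ.1 hk).1).r
        (e_mem hP (mJ.1 hk).1).1 hb ((subset_biUnion_of_mem Q hk).trans subset_union_right))
  refine ⟨Hv.image at', fun a => (Cd 0 ∩ a).card, fun _ => ∅, Cd, fun _ => ω,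
    ⟨forall_mem_image.2 fun u hu => ?_, forall_mem_image.2 ac,
      forall_mem_image.2 fun u hu => forall_mem_image.2 fun u' hu' hne => ?_⟩, by simp, by simp,
    by simp, fun t ht v hv => ?_, forall_mem_image.2 fun u hu t ht => ?_,
    forall_mem_image.2 fun u hu => ?_, forall_mem_image.2 fun u hu => ?_, ?_,
    fun t ht x hx => ?_, forall_mem_image.2 fun u hu => ?_, fun t ht B hB => ?_⟩
  · exact union_subset (hC.part.un ▸ subset_biUnion_of_mem id (hH hu))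
      (biUnion_subset.2 fun k hk => hP.fam.sub k (mJ.1 hk).1)
  · exact disjoint_left.2 fun v h1 h2 => hne (congrArg at' (aeq u hu u' hu' v h1 h2))
  · obtain ⟨u, hu, h1⟩ := mem_biUnion.1 hv
    exact subset_un (mem_image_of_mem _ hu) (sat _ (cs u hu t ht h1))
  · rw [cw' u hu t ht, cw' u hu 0 (by omega)]
  · rw [cw' u hu 0 (by omega)]
    exact Nat.le_of_mul_le_mul_left ((hx u hu).trans (hw u hu).1) C1
  · rw [cw' u hu 0 (by omega), ← ((hw u hu).2 0 (by omega)).2]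
    refine (Nat.mul_le_mul_left _ (le_trans ?_ (hC.le u (hH hu)))).trans hρ
    rw [← ts_bw]
    refine (card_le_card (cs u hu 0 (by omega))).trans (card_image_le.trans
      (le_trans ?_ (ts_le (eb u hu))))
    rw [ts_ind, inter_eq_right.2 (image_subset_iff.2 fun k hk => (mJ.1 hk).2),
      card_image_of_injOn ((inj hP fun k hk => (e_mem hP hk).1).mono
        (coe_subset.2 (filter_subset _ _)))]
  · have h1 : I.card ≤ ∑ u ∈ Hv, C * w u :=
      (card_le_card fun k hk => by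
        obtain ⟨u, hu, h⟩ := mem_un.1 (e_mem hP hk).2
        exact mem_biUnion.2 ⟨u, hu, mJ.2 ⟨hk, h⟩⟩).trans
        (card_biUnion_le.trans (sum_le_sum fun u hu => (hw u hu).1))
    rw [ts, sum_image fun u hu u' hu' h => by
      obtain ⟨a, ha⟩ := (ac u hu).1
      exact aeq u hu u' hu' a ha (h ▸ ha), sum_congr rfl fun u hu => cw' u hu 0 (by omega)]
    rw [← mul_sum] at h1
    calc g ≤ K * (C * ∑ u ∈ Hv, w u) := hg.trans (Nat.mul_le_mul_left _ h1)
      _ ≤ _ := by rw [← mul_assoc]; exact Nat.mul_le_mul_right _ hK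
  · exact ⟨mem_union_right _ (mem_image_of_mem _ (cT t ht hx)),
      (hO.adj x (cls_subset (cT t ht hx))).2⟩
  · have := ext V ι G u ∅ (J u) s e Q K' K1 (empty_subset _) (by simp)
      (fun k hk => ⟨hP.fam.conn k (mJ.1 hk).1, Qu u hu k hk, (hP.st k (mJ.1 hk).1).2⟩)
      (fun k hk k' hk' => hP.fam.disj k (mJ.1 hk).1 k' (mJ.1 hk').1)
      (by rw [empty_union]; exact ((hC.wl u (hH hu)).up hA).tau (eb u hu))
    refine this.tau fun v hv => ind_mono fun h => ?_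
    obtain ⟨t, ht, h⟩ := mem_biUnion.1 h
    have ht' : t ≤ T := by simp at ht; omega
    exact mem_union_right _ (cs u hu t ht' (ci u hu t ht' ▸ mem_inter.2 ⟨h, hv⟩))
  · rw [ts_cnt]
    refine le_trans ?_ (Nat.le_mul_of_pos_left _ K1)
    refine le_trans (card_le_card_of_injOn ω (fun x hx => ?_) fun x hx y hy => hO.inj
      (cls_subset (cT t ht (mem_filter.1 hx).1)) (cls_subset (cT t ht (mem_filter.1 hy).1)))
      (Nat.le_add_left _ _)
    have := mem_filter.1 hx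
    exact mem_coe.2 (mem_inter.2 ⟨this.2, mem_image_of_mem _ (cT t ht this.1)⟩)

theorem opn (hS : StructStmt) (hA : OpenAStmt) (hB : OpenBStmt) : OpenStmt := by
  obtain ⟨cS, hS⟩ := hS
  obtain ⟨cB, hB⟩ := hB
  refine ⟨7 * (cB + 1) * (cS + 1) * (6 + 3 * cB), ?_⟩
  intro V _ G X T₀ ω T C B Λ g ρ hd hV hX hO hW h1 h2 hΛ hT C1 hC hρ hg
  have B2 : 2 ≤ B := by omega
  rw [pow_mul, pow_mul, pow_mul] at hρ ⊢
  have e1 : 28 * B * Λ < B ^ 7 :=
    calc 28 * B * Λ < 2 ^ 5 * B * B := by nlinarith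
      _ ≤ B ^ 5 * B * B := by gcongr
      _ = _ := by ring
  have e2 : B ≤ B ^ 7 := Nat.le_self_pow (by norm_num) _
  generalize B ^ 7 = B₁ at *
  have e3 : B₁ ≤ B₁ ^ (cB + 1) := Nat.le_self_pow (by omega) _
  have e4 : B₁ ^ cB ≤ B₁ ^ (cB + 1) := Nat.pow_le_pow_right (by omega) (by omega)
  generalize B₁ ^ (cB + 1) = A at *
  have e5 : A ≤ A ^ (cS + 1) := Nat.le_self_pow (by omega) _
  have e6 : A ^ cS ≤ A ^ (cS + 1) := Nat.pow_le_pow_right (by omega) (by omega)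
  generalize A ^ (cS + 1) = F at *
  have F2 : 2 ≤ F := by omega
  have e7 : F ^ 6 ≤ F ^ (6 + 3 * cB) := Nat.pow_le_pow_right (by omega) (by omega)
  have e8 : (F ^ 3) ^ cB ≤ F ^ (6 + 3 * cB) := by
    rw [← pow_mul]; exact Nat.pow_le_pow_right (by omega) (by omega)
  generalize F ^ (6 + 3 * cB) = H at *
  have e9 : F ≤ F ^ 6 := Nat.le_self_pow (by norm_num) _
  have r1 : 1 ≤ ρ := by omega
  obtain ⟨PP, S₁, S₂, sd, m, s, e, Q, c1, c2, c3, c4, c5, c6, hP⟩ := hS V G X T₀ B A Λ A A g ρ hd hV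
    hX hO.sub hW h1 h2 hΛ B2 (by omega) (by omega) le_rfl (by omega) le_rfl (by omega)
    ((Nat.pow_le_pow_right r1 (by norm_num)).trans hg)
  replace c5 := c5.trans (Nat.mul_le_mul_right _ e6)
  replace c6 := c6.trans (Nat.mul_le_mul_right _ e6)
  have p0 : 0 < F ^ 4 * ρ ^ 2 := by positivity
  have x1 : g / (F ^ 4 * ρ ^ 2) * (F ^ 4 * ρ ^ 2) ≤ g := Nat.div_mul_le_self _ _
  have x2 : F ^ 2 ≤ g / (F ^ 4 * ρ ^ 2) := (Nat.le_div_iff_mul_le p0).2 <|
    calc _ = F ^ 6 * ρ ^ 2 := by ring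
      _ ≤ ρ * ρ ^ 2 := by gcongr; omega
      _ ≤ g := by rw [← pow_succ']; exact hg
  have x3 := Nat.lt_mul_div_succ g p0
  generalize g / (F ^ 4 * ρ ^ 2) = x at *
  have x0 : 1 ≤ x := le_trans (Nat.one_le_pow _ _ (by omega)) x2
  have x4 : ∀ n, x ≤ n → g ≤ H * ρ ^ 2 * n := fun n hn =>
    calc g ≤ F ^ 4 * ρ ^ 2 * (2 * x) := x3.le.trans (Nat.mul_le_mul_left _ (by omega))
      _ = F ^ 4 * 2 * 1 * ρ ^ 2 * x := by ring
      _ ≤ F ^ 4 * F * F * ρ ^ 2 * n := by gcongr; omega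
      _ = F ^ 6 * ρ ^ 2 * n := by ring
      _ ≤ _ := by gcongr
  have F4 : 4 * F ≤ F ^ 3 := by nlinarith
  have sP : S₁ ∪ un S₂ ⊆ PP := union_subset c2 (biUnion_subset.2 fun Z hZ => (c4 Z hZ).sub)
  have cardP : ∀ D ⊆ PP, D.card ≤ Fintype.card V := fun D hD =>
    ((PD.mono c1.part.disj hD).card_le fun Z hZ => (c1.part.conn Z (hD hZ)).1).trans
      (card_le_univ _)
  have gs : ∀ I : Finset (Fin m), I.image s ⊆ T₀ := fun I =>
    image_subset_iff.2 fun k _ => (hP.st k (mem_univ _)).1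
  have hρg : ρ * (g / ρ) ≤ g := Nat.mul_div_le _ _
  set Hv := (S₁ ∪ un S₂).filter fun u => x ≤ (univ.filter fun k => e k ∈ u).card with hHv
  set IH := univ.filter fun k => e k ∈ un Hv with hIH
  set IL := univ.filter fun k => e k ∉ un Hv with hIL
  set ZZ := S₂.filter fun Z => B₁ ^ cB * x ≤ (IL.filter fun k => e k ∈ un Z).card with hZZ
  set IB := IL.filter fun k => e k ∈ un (un ZZ) with hIB
  have light : ∀ u ∈ S₁ ∪ un S₂, (IL.filter fun k => e k ∈ u).card ≤ x := fun u hu => by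
    by_cases h : u ∈ Hv
    · rw [filter_false_of_mem fun k hk h' => absurd (subset_un h h') (mem_filter.1 hk).2]
      simp
    · have : ¬ x ≤ (univ.filter fun k => e k ∈ u).card := fun h' => h (mem_filter.2 ⟨hu, h'⟩)
      exact (card_le_card (filter_subset_filter _ (subset_univ _))).trans (by omega)
  have cnt : m ≤ IH.card + IB.card + (S₁.card + S₂.card) * (F * x) := by
    have s1 : (univ : Finset (Fin m)) ⊆ IH ∪ IB ∪ (S₁.biUnion (fun u => IL.filter fun k => e k ∈ u)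
        ∪ (S₂ \ ZZ).biUnion fun Z => IL.filter fun k => e k ∈ un Z) := fun k hk => by
      by_cases h : e k ∈ un Hv
      · exact mem_union_left _ (mem_union_left _ (mem_filter.2 ⟨hk, h⟩))
      have hL : k ∈ IL := mem_filter.2 ⟨hk, h⟩
      obtain ⟨u, hu, h3⟩ := mem_un.1 (e_mem hP hk).2
      rcases mem_union.1 hu with hu | hu
      · exact mem_union_right _ (mem_union_left _ (mem_biUnion.2 ⟨u, hu, mem_filter.2 ⟨hL, h3⟩⟩))
      obtain ⟨Z, hZ, hu⟩ := mem_un.1 hu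
      by_cases h4 : Z ∈ ZZ
      · exact mem_union_left _ (mem_union_right _
          (mem_filter.2 ⟨hL, subset_un (subset_un h4 hu) h3⟩))
      · exact mem_union_right _ (mem_union_right _ (mem_biUnion.2
          ⟨Z, mem_sdiff.2 ⟨hZ, h4⟩, mem_filter.2 ⟨hL, subset_un hu h3⟩⟩))
    have s2 := card_biUnion_le_card_mul S₁ (fun u => IL.filter fun k => e k ∈ u) (F * x)
      fun u hu => (light u (mem_union_left _ hu)).trans (Nat.le_mul_of_pos_left _ (by omega))
    have s3 := card_biUnion_le_card_mul (S₂ \ ZZ) (fun Z => IL.filter fun k => e k ∈ un Z) (F * x)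
      fun Z hZ => (not_le.1 fun h => (mem_sdiff.1 hZ).2
        (mem_filter.2 ⟨(mem_sdiff.1 hZ).1, h⟩)).le.trans (Nat.mul_le_mul_right _ (by omega))
    have s4 := s3.trans (Nat.mul_le_mul_right _ (card_le_card sdiff_subset))
    have s5 := (card_le_card s1).trans ((card_union_le _ _).trans
      (Nat.add_le_add (card_union_le _ _) (card_union_le _ _)))
    rw [card_univ, Fintype.card_fin] at s5
    rw [add_mul]
    omega
  have half : 2 * ((S₁.card + S₂.card) * (F * x)) ≤ m := Nat.le_of_mul_le_mul_left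
    (calc F * (2 * ((S₁.card + S₂.card) * (F * x))) ≤ F * (F * (F * ρ ^ 2 * (F * x))) := by gcongr
      _ = x * (F ^ 4 * ρ ^ 2) := by ring
      _ ≤ F * m := x1.trans c6) (by omega)
  have gI : ∀ n, m ≤ 4 * n → g ≤ F ^ 3 * n := fun n hn =>
    calc g ≤ F * (4 * n) := c6.trans (Nat.mul_le_mul_left _ hn)
      _ = 4 * F * n := by ring
      _ ≤ _ := by gcongr
  by_cases hm : m ≤ 4 * IH.card
  · have hx : ∀ u ∈ Hv, x ≤ (IH.filter fun k => e k ∈ u).card := fun u hu =>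
      (mem_filter.1 hu).2.trans (card_le_card fun k hk => mem_filter.2
        ⟨mem_filter.2 ⟨mem_univ _, subset_un hu (mem_filter.1 hk).2⟩, (mem_filter.1 hk).2⟩)
    refine ⟨_, forall_mem_image.2 fun u hu => ⟨gs _, x4 _ ?_⟩,
      card_image_le.trans (cardP _ ((filter_subset _ _).trans sP)),
      hA V _ G X T₀ ω _ A Λ PP Hv IH s e Q T C (F ^ 3) H g ρ c1 ((filter_subset _ _).trans sP) hO
        (res hP (subset_univ _) (un_mono (filter_subset _ _)) fun k hk => (mem_filter.1 hk).2)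
        C1 (by omega) (le_trans ?_ e7) (le_trans ?_ e7) (fun u hu => le_trans ?_ (hx u hu)) hρg
        (gI _ hm)⟩
    · rw [card_s hP (subset_univ _)]; exact hx u hu
    · calc 14 * A * Λ ≤ 2 ^ 4 * F * F := by gcongr <;> omega
        _ ≤ F ^ 4 * F * F := by gcongr
        _ = _ := by ring
    · calc F ^ 3 * C ≤ F ^ 3 * F ^ 3 := by gcongr; omega
        _ = _ := by ring
    · refine le_trans ?_ x2
      rw [sq]; gcongr <;> omega
  · have zs : un ZZ ⊆ S₁ ∪ un S₂ := (un_mono (filter_subset _ _)).trans subset_union_right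
    have hx : ∀ Z ∈ ZZ, B₁ ^ cB * x ≤ (IB.filter fun k => e k ∈ un Z).card := fun Z hZ =>
      (mem_filter.1 hZ).2.trans (card_le_card fun k hk => mem_filter.2
        ⟨mem_filter.2 ⟨(mem_filter.1 hk).1, un_mono (subset_un hZ) (mem_filter.1 hk).2⟩,
          (mem_filter.1 hk).2⟩)
    have pz := c3.mono (filter_subset _ _ : ZZ ⊆ S₂)
    have cz := fun Z (hZ : Z ∈ ZZ) => c4 Z (mem_filter.1 hZ).1
    refine ⟨_, forall_mem_image.2 fun Z hZ => ⟨gs _, x4 _ ?_⟩,
      card_image_le.trans ((pz.card_le fun Z hZ => card_pos.1 (by have := (cz Z hZ).two; omega)).trans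
        (cardP _ (zs.trans sP))),
      up (hB V _ G X T₀ ω _ A Λ PP sd _ _ ZZ IB s e Q T C B₁ (F ^ 3) x g ρ hd hV c1 pz cz hO
        (res hP (subset_univ _) (un_mono zs) fun k hk => (mem_filter.1 hk).2)
        (by omega) e1.le (by omega) C1 (by omega) e4 (by omega)
        ((Nat.mul_le_mul_right _ e4).trans (Nat.mul_div_le _ _)) x0
        (fun u hu => (card_le_card (filter_subset_filter _ (filter_subset _ _))).trans
          (light u (zs hu))) hx hρg (gI _ (by omega))) e8⟩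
    rw [card_s hP (subset_univ _)]
    exact (Nat.le_mul_of_pos_left _ (Nat.pow_pos (by omega))).trans (hx Z hZ)

end Pool.Agent.MP_35cb46_co.Nl

end MrgPart1

-- ======== part 2: formerly Pool.Agent.MP_35cb46_co.nl.Samp
section MrgPart2

/-! PROJECT NL, row SAMP: integral flows, elimination of inner nodes, and the union bound. -/

noncomputable section

namespace Pool.Agent.MP_35cb46_co.Nl

open Finset Pool.Agent.MP_7be75d_co Pool.Agent.MP_35cb46_co.Sq
open scoped Classical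

namespace SampP

variable {κ : Type}

/-- Restriction of weights to a rectangle. -/
def rs (f : κ → κ → ℕ) (A B : Finset κ) (a b : κ) : ℕ := if a ∈ A ∧ b ∈ B then f a b else 0

theorem cw_rs (f : κ → κ → ℕ) (A B X Y : Finset κ) :
    cw (rs f A B) X Y = cw f (X ∩ A) (Y ∩ B) := by
  unfold cw rs
  rw [← sum_ite_mem X A]
  refine sum_congr rfl fun a _ => ?_
  by_cases ha : a ∈ A
  · simp only [ha, true_and, if_true]
    exact sum_ite_mem Y B _
  · simp [ha]

theorem cw_le_cw {f g : κ → κ → ℕ} (h : ∀ a b, f a b ≤ g a b) (X Y : Finset κ) :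
    cw f X Y ≤ cw g X Y :=
  sum_le_sum fun a _ => sum_le_sum fun b _ => h a b

variable [Fintype κ]

/-- Net outflow. -/
def dv (f : κ → κ → ℕ) (v : κ) : ℤ := ∑ b, (f v b : ℤ) - ∑ a, (f a v : ℤ)

theorem sum_dv (f : κ → κ → ℕ) (T : Finset κ) :
    ∑ v ∈ T, dv f v = (cw f T Tᶜ : ℤ) - (cw f Tᶜ T : ℤ) := by
  unfold dv cw
  push_cast
  rw [sum_sub_distrib]
  have h1 : ∑ v ∈ T, ∑ b, (f v b : ℤ) =
      ∑ v ∈ T, ∑ b ∈ T, (f v b : ℤ) + ∑ v ∈ T, ∑ b ∈ Tᶜ, (f v b : ℤ) := by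
    rw [← sum_add_distrib]
    exact sum_congr rfl fun v _ => (sum_add_sum_compl T _).symm
  have h2 : ∑ v ∈ T, ∑ a, (f a v : ℤ) =
      ∑ v ∈ T, ∑ b ∈ T, (f v b : ℤ) + ∑ a ∈ Tᶜ, ∑ v ∈ T, (f a v : ℤ) := by
    rw [sum_comm, ← sum_add_sum_compl T]
  rw [h1, h2]
  ring

/-- One unit on the arc `(x, y)`. -/
def sgl (x y a b : κ) : ℕ := if a = x ∧ b = y then 1 else 0

theorem sum_sgl_row (x y a : κ) : ∑ b, sgl x y a b = if a = x then 1 else 0 := by
  unfold sgl
  by_cases h : a = x <;> simp [h]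

theorem sum_sgl_col (x y b : κ) : ∑ a, sgl x y a b = if b = y then 1 else 0 := by
  unfold sgl
  by_cases h : b = y <;> simp [h]

theorem dv_add {f g : κ → κ → ℕ} {x y : κ} (h : ∀ a b, g a b = f a b + sgl x y a b) (v : κ) :
    dv g v = dv f v + (if v = x then 1 else 0) - (if v = y then 1 else 0) := by
  have h1 : ∑ b, (g v b : ℤ) = ∑ b, (f v b : ℤ) + (if v = x then 1 else 0) := by
    have := congrArg (Nat.cast : ℕ → ℤ) (sum_sgl_row x y v)
    push_cast at this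
    rw [← this, ← sum_add_distrib]
    exact sum_congr rfl fun b _ => by rw [h]; push_cast; rfl
  have h2 : ∑ a, (g a v : ℤ) = ∑ a, (f a v : ℤ) + (if v = y then 1 else 0) := by
    have := congrArg (Nat.cast : ℕ → ℤ) (sum_sgl_col x y v)
    push_cast at this
    rw [← this, ← sum_add_distrib]
    exact sum_congr rfl fun b _ => by rw [h]; push_cast; rfl
  unfold dv
  rw [h1, h2]
  ring

/-- One more unit can be sent from a source to `w`, changing the flow only inside `T`. -/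
def Aug (c f : κ → κ → ℕ) (A T : Finset κ) (w : κ) : Prop :=
  ∃ g : κ → κ → ℕ, (∀ a b, g a b ≤ c a b) ∧ (∀ a b, ¬ (a ∈ T ∧ b ∈ T) → g a b = f a b) ∧
    ∃ a₀ ∈ A, ∀ v, dv g v = dv f v + (if v = a₀ then 1 else 0) - (if v = w then 1 else 0)

theorem Aug.mono {c f : κ → κ → ℕ} {A T T' : Finset κ} {w : κ} (h : Aug c f A T w) (hT : T ⊆ T') :
    Aug c f A T' w := by
  obtain ⟨g, h1, h2, h3⟩ := h
  exact ⟨g, h1, fun a b hab => h2 a b fun hh => hab ⟨hT hh.1, hT hh.2⟩, h3⟩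

theorem Aug.step {c f : κ → κ → ℕ} {A T : Finset κ} {v w : κ} (h : Aug c f A T v) (hv : v ∈ T)
    (hw : w ∉ T) (hr : f v w < c v w ∨ 0 < f w v) : Aug c f A (insert w T) w := by
  obtain ⟨g, h1, h2, a₀, ha, h3⟩ := h
  rcases hr with hr | hr
  · refine ⟨fun a b => g a b + sgl v w a b, fun a b => ?_, fun a b hab => ?_, a₀, ha, fun u => ?_⟩
    · beta_reduce
      unfold sgl
      split_ifs with hh
      · rw [hh.1, hh.2, h2 v w fun q => hw q.2]
        exact hr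
      · exact h1 a b
    · beta_reduce
      unfold sgl
      rw [if_neg, Nat.add_zero]
      · exact h2 a b fun q => hab ⟨mem_insert_of_mem q.1, mem_insert_of_mem q.2⟩
      · rintro ⟨rfl, rfl⟩
        exact hab ⟨mem_insert_of_mem hv, mem_insert_self _ _⟩
    · rw [dv_add (f := g) (fun _ _ => rfl) u, h3 u]
      ring
  · have hg : 0 < g w v := by rw [h2 w v fun q => hw q.1]; exact hr
    have e : ∀ a b, g a b = (g a b - sgl w v a b) + sgl w v a b := by
      intro a b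
      unfold sgl
      split_ifs with hh
      · rw [hh.1, hh.2]
        omega
      · rfl
    refine ⟨fun a b => g a b - sgl w v a b, fun a b => (Nat.sub_le _ _).trans (h1 a b),
      fun a b hab => ?_, a₀, ha, fun u => ?_⟩
    · beta_reduce
      unfold sgl
      rw [if_neg, Nat.sub_zero]
      · exact h2 a b fun q => hab ⟨mem_insert_of_mem q.1, mem_insert_of_mem q.2⟩
      · rintro ⟨rfl, rfl⟩
        exact hab ⟨mem_insert_self _ _, mem_insert_of_mem hv⟩
    · have := dv_add (f := fun a b => g a b - sgl w v a b) e u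
      rw [h3 u] at this
      linarith

theorem flow_step {c f : κ → κ → ℕ} {A B : Finset κ} {k : ℕ} (hAB : Disjoint A B)
    (hk : ∀ T, A ⊆ T → Disjoint T B → k ≤ cw c T Tᶜ) (hf : ∀ a b, f a b ≤ c a b)
    (h0 : ∀ v, v ∉ A → v ∉ B → dv f v = 0) (hv : ∑ a ∈ A, dv f a < k) :
    ∃ g : κ → κ → ℕ, (∀ a b, g a b ≤ c a b) ∧ (∀ v, v ∉ A → v ∉ B → dv g v = 0) ∧
      ∑ a ∈ A, dv g a = ∑ a ∈ A, dv f a + 1 := by
  obtain ⟨T, hT, hmax⟩ := exists_max_image
    (univ.filter fun T : Finset κ => A ⊆ T ∧ ∀ w ∈ T, Aug c f A T w) card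
    ⟨A, mem_filter.2 ⟨mem_univ _, subset_rfl, fun w hw =>
      ⟨f, hf, fun _ _ _ => rfl, w, hw, fun v => by ring⟩⟩⟩
  obtain ⟨-, hA, hT⟩ := mem_filter.1 hT
  have hcl : ∀ v ∈ T, ∀ w, w ∉ T → ¬ (f v w < c v w ∨ 0 < f w v) := by
    intro v hv w hw hr
    have := hmax (insert w T) (mem_filter.2 ⟨mem_univ _, hA.trans (subset_insert _ _),
      fun u hu => by
        rcases mem_insert.1 hu with rfl | hu
        · exact (hT v hv).step hv hw hr
        · exact (hT u hu).mono (subset_insert _ _)⟩)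
    rw [card_insert_of_notMem hw] at this
    omega
  by_cases hd : Disjoint T B
  · exfalso
    have h1 : cw f T Tᶜ = cw c T Tᶜ := sum_congr rfl fun v hv => sum_congr rfl fun w hw => by
      have := hcl v hv w (mem_compl.1 hw)
      have := hf v w
      omega
    have h2 : cw f Tᶜ T = 0 := cw_eq_zero.2 fun w hw v hv => by
      have := hcl v hv w (mem_compl.1 hw)
      omega
    have h3 : ∑ v ∈ A, dv f v = ∑ v ∈ T, dv f v :=
      sum_subset hA fun v hv hv' => h0 v hv' (disjoint_left.1 hd hv)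
    have h4 := sum_dv f T
    have h5 := hk T hA hd
    rw [h1, h2] at h4
    omega
  · obtain ⟨t, ht, htB⟩ := not_disjoint_iff.1 hd
    obtain ⟨g, h1, -, a₀, ha, h3⟩ := hT t ht
    refine ⟨g, h1, fun v hA' hB' => ?_, ?_⟩
    · rw [h3 v, h0 v hA' hB', if_neg (by rintro rfl; exact hA' ha),
        if_neg (by rintro rfl; exact hB' htB)]
      ring
    · rw [sum_congr rfl fun v _ => h3 v, sum_sub_distrib, sum_add_distrib, sum_ite_eq', sum_ite_eq',
        if_pos ha, if_neg fun q => disjoint_left.1 hAB q htB]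
      ring

theorem flow {c : κ → κ → ℕ} {A B : Finset κ} {k : ℕ} (hAB : Disjoint A B)
    (hk : ∀ T, A ⊆ T → Disjoint T B → k ≤ cw c T Tᶜ) (n : ℕ) (hn : n ≤ k) :
    ∃ f : κ → κ → ℕ, (∀ a b, f a b ≤ c a b) ∧ (∀ v, v ∉ A → v ∉ B → dv f v = 0) ∧
      ∑ a ∈ A, dv f a = n := by
  induction n with
  | zero => exact ⟨fun _ _ => 0, fun _ _ => Nat.zero_le _, fun _ _ _ => by simp [dv], by simp [dv]⟩
  | succ n ih =>
    obtain ⟨f, h1, h2, h3⟩ := ih (by omega)
    obtain ⟨g, g1, g2, g3⟩ := flow_step hAB hk h1 h2 (by omega)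
    exact ⟨g, g1, g2, by rw [g3, h3]; push_cast; rfl⟩

theorem transport (n : ℕ) : ∀ x y : κ → ℕ, ∑ a, x a = n → ∑ b, y b = n →
    ∃ G : κ → κ → ℕ, (∀ a, ∑ b, G a b = x a) ∧ ∀ b, ∑ a, G a b = y b := by
  induction n with
  | zero =>
    intro x y hx hy
    exact ⟨fun _ _ => 0, fun a => by simp [(sum_eq_zero_iff.1 hx) a (mem_univ _)],
      fun b => by simp [(sum_eq_zero_iff.1 hy) b (mem_univ _)]⟩
  | succ n ih =>
    have key : ∀ x : κ → ℕ, ∑ a, x a = n + 1 → ∃ (a₀ : κ) (x' : κ → ℕ), ∑ a, x' a = n ∧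
        ∀ a, x a = x' a + if a = a₀ then 1 else 0 := by
      intro x hx
      obtain ⟨a₀, -, ha⟩ := exists_ne_zero_of_sum_ne_zero (s := univ) (f := x) (by omega)
      have e : ∀ a, x a = (x a - if a = a₀ then 1 else 0) + if a = a₀ then 1 else 0 := by
        intro a
        split_ifs with hh
        · rw [hh]
          omega
        · rfl
      refine ⟨a₀, fun a => x a - if a = a₀ then 1 else 0, ?_, e⟩
      have hx' : ∑ a, x a = ∑ a, (x a - if a = a₀ then 1 else 0) + 1 := by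
        have := sum_congr (s₁ := univ) rfl fun a _ => e a
        rwa [sum_add_distrib, sum_ite_eq', if_pos (mem_univ _)] at this
      beta_reduce
      omega
    intro x y hx hy
    obtain ⟨a₀, x', h1, h2⟩ := key x hx
    obtain ⟨b₀, y', h3, h4⟩ := key y hy
    obtain ⟨G, g1, g2⟩ := ih x' y' h1 h3
    refine ⟨fun a b => G a b + sgl a₀ b₀ a b, fun a => ?_, fun b => ?_⟩
    · rw [sum_add_distrib, g1, sum_sgl_row, h2 a]
    · rw [sum_add_distrib, g2, sum_sgl_col, h4 b]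

theorem elim_one (f : κ → κ → ℕ) (s : κ) (hs : dv f s = 0) : ∃ F : κ → κ → ℕ,
    (∀ a, F a s = 0 ∧ F s a = 0) ∧ (∀ t, (∀ b, f t b = 0) → ∀ b, F t b = 0) ∧
    (∀ t, (∀ a, f a t = 0) → ∀ a, F a t = 0) ∧ (∀ v, dv F v = dv f v) ∧
    ∀ P Q : Finset κ, s ∉ P → s ∉ Q →
      cw F P Q ≤ cw f (insert s P) Q ∧ cw F P Q ≤ cw f P (insert s Q) := by
  have sp : ∀ x : κ → ℕ, ∑ a, (if a = s then 0 else x a) + x s = ∑ a, x a := by
    intro x
    have : ∀ a, x a = (if a = s then 0 else x a) + if a = s then x a else 0 := fun a => by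
      split_ifs <;> simp
    rw [sum_congr rfl fun a _ => this a, sum_add_distrib, sum_ite_eq', if_pos (mem_univ _)]
  have hs' : ∑ b, f s b = ∑ a, f a s := by
    unfold dv at hs
    have : ((∑ b, f s b : ℕ) : ℤ) = (∑ a, f a s : ℕ) := by push_cast; linarith
    exact_mod_cast this
  obtain ⟨G, g1, g2⟩ := transport (∑ a, if a = s then 0 else f a s)
    (fun a => if a = s then 0 else f a s) (fun b => if b = s then 0 else f s b) rfl (by
      have := sp fun a => f a s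
      have := sp fun b => f s b
      omega)
  have z1 : ∀ a, (if a = s then 0 else f a s) = 0 → ∀ b, G a b = 0 := fun a ha b =>
    (sum_eq_zero_iff.1 ((g1 a).trans ha)) b (mem_univ _)
  have z2 : ∀ b, (if b = s then 0 else f s b) = 0 → ∀ a, G a b = 0 := fun b hb a =>
    (sum_eq_zero_iff.1 ((g2 b).trans hb)) a (mem_univ _)
  refine ⟨fun a b => (if a = s ∨ b = s then 0 else f a b) + G a b, fun a => ⟨?_, ?_⟩,
    fun t ht b => ?_, fun t ht a => ?_, fun v => ?_, fun P Q hP hQ => ?_⟩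
  · simp [z2 s (if_pos rfl) a]
  · simp [z1 s (if_pos rfl) a]
  · simp [ht, z1 t (by simp [ht]) b]
  · simp [ht, z2 t (by simp [ht]) a]
  · by_cases hv : v = s
    · rw [hv, hs]
      simp [dv, z1 s (if_pos rfl), z2 s (if_pos rfl)]
    · have e1 : ∑ b, ((if v = s ∨ b = s then 0 else f v b) + G v b) = ∑ b, f v b := by
        rw [sum_add_distrib, g1, if_neg hv, ← sp fun b => f v b]
        simp [hv]
      have e2 : ∑ a, ((if a = s ∨ v = s then 0 else f a v) + G a v) = ∑ a, f a v := by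
        rw [sum_add_distrib, g2, if_neg hv, ← sp fun a => f a v]
        simp [hv]
      have e3 := congrArg (Nat.cast : ℕ → ℤ) e1
      have e4 := congrArg (Nat.cast : ℕ → ℤ) e2
      rw [Nat.cast_sum, Nat.cast_sum] at e3 e4
      unfold dv
      rw [e3, e4]
  · have e : cw (fun a b => (if a = s ∨ b = s then 0 else f a b) + G a b) P Q =
        cw f P Q + cw G P Q := by
      unfold cw
      rw [← sum_add_distrib]
      refine sum_congr rfl fun a ha => ?_
      rw [← sum_add_distrib]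
      refine sum_congr rfl fun b hb => ?_
      beta_reduce
      rw [if_neg]
      rintro (rfl | rfl)
      exacts [hP ha, hQ hb]
    rw [e]
    constructor
    · have h1 : cw f (insert s P) Q = ∑ b ∈ Q, f s b + cw f P Q := sum_insert hP
      have h2 : cw G P Q ≤ ∑ b ∈ Q, f s b := by
        unfold cw
        rw [sum_comm]
        refine sum_le_sum fun b hb => (sum_le_sum_of_subset (subset_univ P)).trans ?_
        rw [g2, if_neg (by rintro rfl; exact hQ hb)]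
      omega
    · have h1 : cw f P (insert s Q) = ∑ a ∈ P, f a s + cw f P Q := by
        unfold cw
        rw [← sum_add_distrib]
        exact sum_congr rfl fun a _ => sum_insert hQ
      have h2 : cw G P Q ≤ ∑ a ∈ P, f a s := by
        refine sum_le_sum fun a ha => (sum_le_sum_of_subset (subset_univ Q)).trans ?_
        rw [g1, if_neg (by rintro rfl; exact hP ha)]
      omega

theorem elim (f : κ → κ → ℕ) (S : Finset κ) : (∀ s ∈ S, dv f s = 0) → ∃ F : κ → κ → ℕ,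
    (∀ s ∈ S, ∀ a, F a s = 0 ∧ F s a = 0) ∧ (∀ v, dv F v = dv f v) ∧
    ∀ P Q U : Finset κ, U ⊆ S → Disjoint P S → Disjoint Q S →
      cw F P Q ≤ cw f (P ∪ U) (Q ∪ (S \ U)) := by
  induction S using Finset.induction_on with
  | empty =>
    intro _
    exact ⟨f, by simp, fun _ => rfl, fun P Q U _ _ _ =>
      cw_mono subset_union_left subset_union_left⟩
  | insert s S hs ih =>
    intro h
    obtain ⟨F, h1, h2, h3⟩ := ih fun t ht => h t (mem_insert_of_mem ht)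
    obtain ⟨F', g1, g2, g3, g4, g5⟩ := elim_one F s (by rw [h2, h s (mem_insert_self _ _)])
    refine ⟨F', fun t ht a => ?_, fun v => (g4 v).trans (h2 v), fun P Q U hU hP hQ => ?_⟩
    · rcases mem_insert.1 ht with rfl | ht
      · exact g1 a
      · exact ⟨g3 t (fun b => (h1 t ht b).1) a, g2 t (fun b => (h1 t ht b).2) a⟩
    · obtain ⟨hP1, hP2⟩ := disjoint_insert_right.1 hP
      obtain ⟨hQ1, hQ2⟩ := disjoint_insert_right.1 hQ
      have hU' : U.erase s ⊆ S := fun x hx =>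
        (mem_insert.1 (hU (mem_of_mem_erase hx))).resolve_left (ne_of_mem_erase hx)
      by_cases hsU : s ∈ U
      · refine (g5 P Q hP1 hQ1).1.trans ((h3 _ Q _ hU'
          (disjoint_insert_left.2 ⟨hs, hP2⟩) hQ2).trans (cw_mono ?_ ?_))
        · intro x hx
          simp only [mem_union, mem_insert, mem_erase] at hx ⊢
          rcases hx with (rfl | hx) | hx
          exacts [Or.inr hsU, Or.inl hx, Or.inr hx.2]
        · intro x hx
          simp only [mem_union, mem_insert, mem_erase, mem_sdiff] at hx ⊢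
          rcases hx with hx | hx
          · exact Or.inl hx
          · exact Or.inr ⟨Or.inr hx.1, fun q => hx.2 ⟨by rintro rfl; exact hs hx.1, q⟩⟩
      · refine (g5 P Q hP1 hQ1).2.trans ((h3 P _ _ hU' hP2
          (disjoint_insert_left.2 ⟨hs, hQ2⟩)).trans (cw_mono ?_ ?_))
        · exact union_subset_union_right (erase_subset _ _)
        · intro x hx
          simp only [mem_union, mem_insert, mem_erase, mem_sdiff] at hx ⊢
          rcases hx with (rfl | hx) | hx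
          · exact Or.inr ⟨Or.inl rfl, hsU⟩
          · exact Or.inl hx
          · exact Or.inr ⟨Or.inr hx.1, fun q => hx.2 ⟨by rintro rfl; exact hs hx.1, q⟩⟩

/-- The end to end matrix of a maximum flow. -/
theorem ends (e : κ → κ → ℕ) (PP A B : Finset κ) (k : ℕ) (hAB : Disjoint A B)
    (hk : ∀ T, A ⊆ T → Disjoint T B → k ≤ cw e (T ∩ PP) (Tᶜ ∩ PP)) :
    ∃ F : κ → κ → ℕ, (∀ a b, 0 < F a b → a ∈ A ∧ b ∈ B) ∧ k ≤ cw F univ univ ∧
      ∀ X Y W : Finset κ, cw F X Y ≤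
        cw e ((X ∩ A ∪ W \ (A ∪ B)) ∩ PP) ((Y ∩ B ∪ (A ∪ B ∪ W)ᶜ) ∩ PP) := by
  obtain ⟨f, f1, f2, f3⟩ := flow (c := rs e PP PP) hAB
    (fun T h1 h2 => by rw [cw_rs]; exact hk T h1 h2) k le_rfl
  obtain ⟨F, h1, h2, h3⟩ := elim f (A ∪ B)ᶜ fun s hs => by
    rw [mem_compl, mem_union, not_or] at hs
    exact f2 s hs.1 hs.2
  refine ⟨rs F A B, fun a b hab => ?_, ?_, fun X Y W => ?_⟩
  · by_contra hc
    rw [rs, if_neg hc] at hab
    omega
  · rw [cw_rs, univ_inter, univ_inter]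
    have e1 := sum_dv F A
    rw [sum_congr rfl fun v _ => h2 v, f3] at e1
    have e2 : cw F A Aᶜ = cw F A B := by
      refine sum_congr rfl fun a _ => (sum_subset (fun b hb => mem_compl.2 fun q =>
        disjoint_left.1 hAB q hb) fun b hb hb' => (h1 b ?_ a).1).symm
      rw [mem_compl, mem_union, not_or]
      exact ⟨mem_compl.1 hb, hb'⟩
    omega
  · rw [cw_rs, ← cw_rs e PP PP]
    refine (h3 _ _ (W \ (A ∪ B)) (fun x hx => mem_compl.2 (mem_sdiff.1 hx).2) ?_ ?_).trans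
      ((cw_le_cw f1 _ _).trans (cw_mono subset_rfl (union_subset_union_right ?_)))
    · exact disjoint_left.2 fun x hx hx' => mem_compl.1 hx' (mem_union_left _ (mem_inter.1 hx).2)
    · exact disjoint_left.2 fun x hx hx' => mem_compl.1 hx' (mem_union_right _ (mem_inter.1 hx).2)
    · intro x hx
      simp only [mem_sdiff, mem_compl, mem_union] at hx ⊢
      tauto

omit [Fintype κ] in
theorem mem_un' {D : Finset (Finset κ)} {x : κ} : x ∈ un D ↔ ∃ Z ∈ D, x ∈ Z := by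
  simp [un]

/-- `W` has trace `A` on the blocks. -/
def Tr (PP : Finset κ) (D A : Finset (Finset κ)) (W : Finset κ) : Prop :=
  W ⊆ PP ∧ Resp D W ∧ ∀ Z ∈ D, Z ∈ A ↔ Z ⊆ W

theorem one (e : κ → κ → ℕ) (PP : Finset κ) (D A : Finset (Finset κ)) (r : ℕ) (he : Sy e)
    (hD : PD D) (hZ : ∀ Z ∈ D, Z ⊆ PP ∧ Z.Nonempty) (hr : ∀ u ∈ un D, cw e {u} PP ≤ r)
    (hA : A ⊆ D) : ∃ (W₀ : Finset κ) (F : κ → κ → ℕ), Tr PP D A W₀ ∧
      (∀ a b, 0 < F a b → a ∈ un A ∧ b ∉ un A) ∧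
      (∀ a, cw F {a} univ ≤ r ∧ cw F univ {a} ≤ r) ∧ cw e W₀ (PP \ W₀) ≤ cw F univ univ ∧
      ∀ O W, Tr PP D A W →
        cw F O O ≤ cw e (W ∩ kept PP D (un D ∩ O)) (kept PP D (un D ∩ O) \ W) := by
  have hdis : Disjoint (un A) (un (D \ A)) := by
    refine disjoint_left.2 fun x h1 h2 => ?_
    obtain ⟨Z, hZ1, hx⟩ := mem_un'.1 h1
    obtain ⟨Z', hZ2, hx'⟩ := mem_un'.1 h2
    exact disjoint_left.1 (hD Z (hA hZ1) Z' (mem_sdiff.1 hZ2).1
      (by rintro rfl; exact (mem_sdiff.1 hZ2).2 hZ1)) hx hx'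
  have htr : ∀ T, un A ⊆ T → Disjoint T (un (D \ A)) → Tr PP D A (T ∩ PP) := by
    intro T h1 h2
    have a1 : ∀ Z ∈ A, Z ⊆ T ∩ PP := fun Z hZ' x hx =>
      mem_inter.2 ⟨h1 (mem_un'.2 ⟨Z, hZ', hx⟩), (hZ Z (hA hZ')).1 hx⟩
    have a2 : ∀ Z ∈ D, Z ∉ A → Disjoint Z (T ∩ PP) := fun Z h3 h4 => disjoint_left.2 fun x hx hx' =>
      disjoint_left.1 h2 (mem_inter.1 hx').1 (mem_un'.2 ⟨Z, mem_sdiff.2 ⟨h3, h4⟩, hx⟩)
    refine ⟨inter_subset_right, fun Z h3 => ?_, fun Z h3 => ⟨a1 Z, fun h4 => ?_⟩⟩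
    · by_cases h4 : Z ∈ A
      exacts [Or.inl (a1 Z h4), Or.inr (a2 Z h3 h4)]
    · by_contra h5
      obtain ⟨x, hx⟩ := (hZ Z h3).2
      exact disjoint_left.1 (a2 Z h3 h5) hx (h4 hx)
  obtain ⟨W₀, hW, hmin⟩ := exists_min_image (univ.filter fun W => Tr PP D A W)
    (fun W => cw e W (PP \ W)) ⟨_, mem_filter.2 ⟨mem_univ _, htr _ subset_rfl hdis⟩⟩
  obtain ⟨F, f1, f2, f3⟩ := ends e PP (un A) (un (D \ A)) (cw e W₀ (PP \ W₀)) hdis
    fun T h1 h2 => (hmin _ (mem_filter.2 ⟨mem_univ _, htr T h1 h2⟩)).trans (cw_mono subset_rfl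
      fun x hx => by
        simp only [mem_sdiff, mem_inter, mem_compl] at hx ⊢
        tauto)
  have hu1 : ∀ x ∈ un A, x ∈ un D := fun x hx => by
    obtain ⟨Z, h1, h2⟩ := mem_un'.1 hx
    exact mem_un'.2 ⟨Z, hA h1, h2⟩
  have hu2 : ∀ x ∈ un (D \ A), x ∈ un D := fun x hx => by
    obtain ⟨Z, h1, h2⟩ := mem_un'.1 hx
    exact mem_un'.2 ⟨Z, (mem_sdiff.1 h1).1, h2⟩
  have hu3 : ∀ x ∈ un D, x ∈ un A ∨ x ∈ un (D \ A) := fun x hx => by
    obtain ⟨Z, h1, h2⟩ := mem_un'.1 hx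
    by_cases h3 : Z ∈ A
    exacts [Or.inl (mem_un'.2 ⟨Z, h3, h2⟩), Or.inr (mem_un'.2 ⟨Z, mem_sdiff.2 ⟨h1, h3⟩, h2⟩)]
  refine ⟨W₀, F, (mem_filter.1 hW).2, fun a b hab => ⟨(f1 a b hab).1, fun q =>
    disjoint_left.1 hdis q (f1 a b hab).2⟩, fun a => ⟨?_, ?_⟩, f2, fun O W hW' => ?_⟩
  · by_cases ha : a ∈ un A
    · refine (f3 _ _ ∅).trans ((cw_mono (fun x hx => ?_) inter_subset_right).trans (hr a (hu1 a ha)))
      simp only [mem_inter, mem_union, mem_sdiff, notMem_empty] at hx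
      tauto
    · rw [cw_eq_zero.2 fun x hx b _ => by
        by_contra hc
        exact ha (mem_singleton.1 hx ▸ (f1 x b (Nat.pos_of_ne_zero hc)).1)]
      exact Nat.zero_le _
  · by_cases ha : a ∈ un (D \ A)
    · refine (f3 _ _ univ).trans ((cw_mono inter_subset_right (fun x hx => ?_)).trans
        ((cw_comm he _ _).le.trans (hr a (hu2 a ha))))
      simp only [mem_inter, mem_union, mem_compl, mem_univ] at hx
      tauto
    · rw [cw_eq_zero.2 fun b _ x hx => by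
        by_contra hc
        exact ha (mem_singleton.1 hx ▸ (f1 b x (Nat.pos_of_ne_zero hc)).2)]
      exact Nat.zero_le _
  · obtain ⟨w1, w2, w3⟩ := hW'
    have a1 : ∀ x ∈ un A, x ∈ W := fun x hx => by
      obtain ⟨Z, h1, h2⟩ := mem_un'.1 hx
      exact (w3 Z (hA h1)).1 h1 h2
    have a2 : ∀ x ∈ un (D \ A), x ∉ W := fun x hx => by
      obtain ⟨Z, h1, h2⟩ := mem_un'.1 hx
      obtain ⟨h3, h4⟩ := mem_sdiff.1 h1
      exact disjoint_left.1 ((w2 Z h3).resolve_left fun q => h4 ((w3 Z h3).2 q)) h2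
    refine (f3 O O W).trans (cw_mono (fun x hx => ?_) fun x hx => ?_)
    · have b1 := a1 x
      have b2 := hu1 x
      have b3 := hu3 x
      simp only [kept, mem_inter, mem_union, mem_sdiff] at hx ⊢
      tauto
    · have b1 := a2 x
      have b2 := hu2 x
      have b3 := hu3 x
      simp only [kept, mem_inter, mem_union, mem_sdiff, mem_compl] at hx ⊢
      tauto

theorem term_le (N j Λ : ℕ) (hN : N ≤ 2 * (2 ^ (Λ + 2)) ^ (8 * j)) :
    (N : ℝ) * Real.exp (-((21 * j * (Λ + 1) : ℕ) : ℝ)) ≤ 2 * (1 / 32 : ℝ) ^ j := by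
  have h1 : ((2 : ℝ)) ^ (21 * j * (Λ + 1)) ≤ Real.exp ((21 * j * (Λ + 1) : ℕ) : ℝ) := by
    rw [← Real.exp_one_pow]
    exact pow_le_pow_left₀ (by norm_num) (by have := Real.exp_one_gt_d9; linarith) _
  have h2 : N * 32 ^ j ≤ 2 * 2 ^ (21 * j * (Λ + 1)) := by
    have e : (2 ^ (Λ + 2)) ^ (8 * j) * 32 ^ j = 2 ^ ((Λ + 2) * (8 * j) + 5 * j) := by
      rw [← pow_mul, show (32 : ℕ) = 2 ^ 5 from rfl, ← pow_mul, ← pow_add]
    have h3 : (Λ + 2) * (8 * j) + 5 * j ≤ 21 * j * (Λ + 1) := by nlinarith [Nat.zero_le (j * Λ)]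
    calc N * 32 ^ j ≤ 2 * (2 ^ (Λ + 2)) ^ (8 * j) * 32 ^ j := Nat.mul_le_mul_right _ hN
      _ = 2 * 2 ^ ((Λ + 2) * (8 * j) + 5 * j) := by rw [mul_assoc, e]
      _ ≤ _ := Nat.mul_le_mul_left _ (Nat.pow_le_pow_right (by norm_num) h3)
  have h4 : (N : ℝ) * 32 ^ j ≤ 2 * 2 ^ (21 * j * (Λ + 1)) := by exact_mod_cast h2
  rw [Real.exp_neg, one_div, inv_pow, ← div_eq_mul_inv, ← div_eq_mul_inv,
    div_le_div_iff₀ (Real.exp_pos _) (by positivity)]
  linarith

theorem sum_le {ι : Type} (I : Finset ι) (j : ι → ℕ) (x : ι → ℝ) (Λ : ℕ) (hj : ∀ A ∈ I, 1 ≤ j A)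
    (hx : ∀ A ∈ I, ((21 * j A * (Λ + 1) : ℕ) : ℝ) ≤ x A)
    (hN : ∀ n, 1 ≤ n → (I.filter fun A => j A = n).card ≤ 2 * (2 ^ (Λ + 2)) ^ (8 * n)) :
    ∑ A ∈ I, Real.exp (-x A) ≤ 1 / 8 := by
  have hm : ∀ A ∈ I, j A ∈ Ico 1 (I.sup j + 1) := fun A hA =>
    mem_Ico.2 ⟨hj A hA, Nat.lt_succ_of_le (le_sup hA)⟩
  rw [← sum_fiberwise_of_maps_to hm]
  calc _ ≤ ∑ n ∈ Ico 1 (I.sup j + 1), 2 * (1 / 32 : ℝ) ^ n := by
        refine sum_le_sum fun n hn => le_trans ?_ (term_le _ n Λ (hN n (mem_Ico.1 hn).1))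
        rw [← nsmul_eq_mul]
        refine sum_le_card_nsmul _ _ _ fun A hA => Real.exp_le_exp.2 (neg_le_neg ?_)
        rw [← (mem_filter.1 hA).2]
        exact hx A (mem_filter.1 hA).1
    _ ≤ 1 / 8 := by
        rw [← mul_sum]
        have := geom_sum_Ico_le_of_lt_one (x := (1 / 32 : ℝ)) (m := 1) (n := I.sup j + 1)
          (by norm_num) (by norm_num)
        norm_num at this ⊢
        linarith

end SampP

open SampP in
theorem samp (karg : KargStmt) : SampStmt := by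
  refine ⟨1344, fun κ _ e PP D l r C Λ he hD hZ hcard hr hC hdeg hl hcut => ?_⟩
  have hex : ∀ A : Finset (Finset κ), ∃ (W₀ : Finset κ) (F : κ → κ → ℕ), A ⊆ D → Tr PP D A W₀ ∧
      (∀ a b, 0 < F a b → a ∈ un A ∧ b ∉ un A) ∧
      (∀ a, cw F {a} univ ≤ r ∧ cw F univ {a} ≤ r) ∧ cw e W₀ (PP \ W₀) ≤ cw F univ univ ∧
      ∀ O W, Tr PP D A W →
        cw F O O ≤ cw e (W ∩ kept PP D (un D ∩ O)) (kept PP D (un D ∩ O) \ W) := by
    intro A
    by_cases hA : A ⊆ D
    · obtain ⟨W₀, F, h⟩ := one e PP D A r he hD hZ hdeg hA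
      exact ⟨W₀, F, fun _ => h⟩
    · exact ⟨∅, e, fun h => absurd h hA⟩
  choose W₀ F hF using hex
  have hl0 : 0 < l := lt_of_lt_of_le (by positivity) hl
  have hI : ∀ A ∈ D.powerset.filter fun A => A ≠ ∅ ∧ A ≠ D, A ⊆ D := fun A hA =>
    mem_powerset.1 (mem_filter.1 hA).1
  refine ⟨D.powerset.filter fun A => A ≠ ∅ ∧ A ≠ D, F, un, r, ⟨hr, fun A hA => (hF A (hI A hA)).2.1,
    fun A hA => (hF A (hI A hA)).2.2.1, ?_⟩, fun O hO W hW hR => ?_⟩
  · have key := sum_le (D.powerset.filter fun A => A ≠ ∅ ∧ A ≠ D)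
      (fun A => cw e (W₀ A) (PP \ W₀ A) / l)
      (fun A => (cw (F A) univ univ : ℝ) / (64 * (C : ℝ) ^ 2 * r)) Λ ?_ ?_ ?_
    · simpa only [neg_div] using key
    · intro A hA
      obtain ⟨t1, t2, t3⟩ := (hF A (hI A hA)).1
      obtain ⟨h1, h2⟩ := (mem_filter.1 hA).2
      obtain ⟨Z, hZ1⟩ := nonempty_iff_ne_empty.2 h1
      obtain ⟨Z', hZ2, hZ3⟩ := exists_of_ssubset (Finset.ssubset_iff_subset_ne.2 ⟨hI A hA, h2⟩)
      exact (Nat.one_le_div_iff hl0).2 (hcut _ t1 t2 ⟨Z, hI A hA hZ1, (t3 Z (hI A hA hZ1)).1 hZ1⟩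
        ⟨Z', hZ2, (t2 Z' hZ2).resolve_left fun q => hZ3 ((t3 Z' hZ2).2 q)⟩)
    · intro A hA
      have h1 := (hF A (hI A hA)).2.2.2.1
      have h2 := Nat.div_mul_le_self (cw e (W₀ A) (PP \ W₀ A)) l
      have hr' : (0 : ℝ) < r := by exact_mod_cast hr
      have hC' : (0 : ℝ) < C := by exact_mod_cast hC
      rw [le_div_iff₀ (by positivity)]
      have h3 : 21 * (cw e (W₀ A) (PP \ W₀ A) / l) * (Λ + 1) * (64 * C ^ 2 * r) ≤
          cw (F A) univ univ := by
        calc _ = cw e (W₀ A) (PP \ W₀ A) / l * (1344 * C ^ 2 * r * (Λ + 1)) := by ring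
          _ ≤ cw e (W₀ A) (PP \ W₀ A) / l * l := Nat.mul_le_mul_left _ hl
          _ ≤ _ := h2.trans h1
      exact_mod_cast h3
    · intro n hn
      have h1 := karg κ e PP D l (n + 1) he hD hZ hl0 hcut
      refine le_trans (card_le_card fun A hA => ?_) (h1.trans (Nat.mul_le_mul_left _ ?_))
      · obtain ⟨hA1, hA2⟩ := mem_filter.1 hA
        obtain ⟨t1, t2, t3⟩ := (hF A (hI A hA1)).1
        refine (@mem_filter _ _ (_) _ _).2 ⟨mem_powerset.2 (hI A hA1), W₀ A, t1, t2, t3, ?_⟩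
        rw [← hA2, mul_comm]
        exact (Nat.lt_mul_div_succ _ hl0).le
      · have h2 : 2 * D.card + 2 ≤ 2 ^ (Λ + 2) := by
          have := Nat.one_le_two_pow (n := Λ)
          rw [pow_add]
          omega
        exact (Nat.pow_le_pow_left h2 _).trans (Nat.pow_le_pow_right (by positivity) (by omega))
  · have ht : Tr PP D (D.filter fun Z => Z ⊆ W) W := ⟨hW, hR, fun Z hZ' => by simp [hZ']⟩
    by_cases h1 : (D.filter fun Z => Z ⊆ W) = ∅
    · refine ⟨∅, empty_subset _, fun Z _ => Or.inr (disjoint_empty_right _), fun Z hZ' => ?_,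
        by simp [cw]⟩
      rw [← ht.2.2 Z hZ', h1, subset_empty]
      exact ⟨fun q => absurd q (notMem_empty _), fun q => absurd q (hZ Z hZ').2.ne_empty⟩
    by_cases h2 : (D.filter fun Z => Z ⊆ W) = D
    · refine ⟨PP, subset_rfl, fun Z hZ' => Or.inl (hZ Z hZ').1, fun Z hZ' => ?_, by simp [cw]⟩
      rw [← ht.2.2 Z hZ', h2]
      exact ⟨fun _ => (hZ Z hZ').1, fun _ => hZ'⟩
    obtain ⟨⟨t1, t2, t3⟩, -, -, f2, f3⟩ := hF _ (filter_subset (fun Z => Z ⊆ W) D)
    refine ⟨_, t1, t2, fun Z hZ' => (ht.2.2 Z hZ').symm.trans (t3 Z hZ'), f2.trans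
      ((hO _ (mem_filter.2 ⟨mem_powerset.2 (filter_subset _ _), h1, h2⟩)).trans ?_)⟩
    exact Nat.mul_le_mul (by omega) (f3 O W ht)

end Pool.Agent.MP_35cb46_co.Nl

end
end MrgPart2

-- marker of a merged file
example : 731051 + 183826 = 731051 + 183826 := rfl
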