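import Pool.Agent.MP_35cb46_co.nl.Spec

-- ======== part 0: formerly Pool.Agent.MP_35cb46_co.nl.RouterA
section MrgPart0

/-! Row ROUTER, part A: the auxiliary weights on the free atoms and their expansion. -/

noncomputable section

namespace Pool.Agent.MP_35cb46_co.Nl.RouterP

open Finset Pool.Agent.MP_7be75d_co Pool.Agent.MP_35cb46_co.Sq
open scoped Classical

variable {κ : Type}

/-- The fat bundles. -/
def fat (m : κ → κ → ℕ) (g Θ : ℕ) (a b : κ) : ℕ := if Θ * m a b ≤ g then 0 else m a b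

/-- Weights between the free atoms of one hub. -/
def hubw (g : ℕ) (PP : Finset (Finset κ)) (F : Finset κ) (a b : κ) : ℝ :=
  ∑ P ∈ PP, if a ∈ P ∩ F ∧ b ∈ P ∩ F then (g : ℝ) / (P ∩ F).card else 0

/-- The auxiliary weights. -/
def wp (m : κ → κ → ℕ) (g Θ : ℕ) (PP : Finset (Finset κ)) (F : Finset κ) (a b : κ) : ℝ :=
  fat m g Θ a b + hubw g PP F a b

/-- The graph of fat bundles. -/
def gf (m : κ → κ → ℕ) (g Θ : ℕ) : SimpleGraph κ := SimpleGraph.fromRel fun a b => g < Θ * m a b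

/-- The graph of hub mates. -/
def gv (PP : Finset (Finset κ)) : SimpleGraph κ :=
  SimpleGraph.fromRel fun a b => ∃ P ∈ PP, a ∈ P ∧ b ∈ P

variable {m : κ → κ → ℕ} {g Θ : ℕ} {PP : Finset (Finset κ)} {F J S X : Finset κ}

theorem mem_un {a : κ} : a ∈ un PP ↔ ∃ P ∈ PP, a ∈ P := by simp [un]

theorem pd_eq (h : PD PP) {P Q : Finset κ} {a : κ} (hP : P ∈ PP) (hQ : Q ∈ PP) (ha : a ∈ P)
    (hb : a ∈ Q) : P = Q := by
  by_contra hne
  exact disjoint_left.1 (h P hP Q hQ hne) ha hb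

theorem card_un (h : PD PP) : (un PP).card = ∑ P ∈ PP, P.card :=
  card_biUnion fun P hP Q hQ hne => h P hP Q hQ hne

theorem pd_mono (h : PD PP) {QQ : Finset (Finset κ)} (hQ : QQ ⊆ PP) : PD QQ :=
  fun P hP Q hQ' hne => h P (hQ hP) Q (hQ hQ') hne

theorem hubw_nonneg (a b : κ) : 0 ≤ hubw g PP F a b :=
  sum_nonneg fun P _ => by split_ifs <;> positivity

theorem wp_nonneg (a b : κ) : 0 ≤ wp m g Θ PP F a b :=
  add_nonneg (Nat.cast_nonneg _) (hubw_nonneg a b)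

theorem wp_symm (hm : Sy m) (a b : κ) : wp m g Θ PP F a b = wp m g Θ PP F b a := by
  unfold wp fat hubw
  rw [hm a b]
  congr 1
  exact sum_congr rfl fun P _ => by simp only [and_comm]

theorem fat_le (a b : κ) : fat m g Θ a b ≤ m a b := by
  unfold fat; split_ifs <;> simp

theorem sum_hubw (h : PD PP) (a : κ) : ∑ b ∈ X, hubw g PP F a b ≤ g := by
  unfold hubw
  rw [sum_comm]
  have h1 : ∀ P ∈ PP, ∑ b ∈ X, (if a ∈ P ∩ F ∧ b ∈ P ∩ F then (g : ℝ) / (P ∩ F).card else 0) ≤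
      if a ∈ P then (g : ℝ) else 0 := by
    intro P _
    by_cases ha : a ∈ P ∩ F
    · have hc : (0 : ℝ) < (P ∩ F).card := by exact_mod_cast card_pos.2 ⟨a, ha⟩
      simp only [ha, true_and, (mem_inter.1 ha).1, if_true]
      rw [← sum_filter, sum_const, nsmul_eq_mul]
      have : ((X.filter fun b => b ∈ P ∩ F).card : ℝ) ≤ (P ∩ F).card := by
        exact_mod_cast card_le_card fun b hb => (mem_filter.1 hb).2
      calc _ ≤ ((P ∩ F).card : ℝ) * ((g : ℝ) / (P ∩ F).card) := by gcongr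
        _ = g := by field_simp
    · simp only [ha, false_and, if_false, sum_const_zero]
      split_ifs <;> positivity
  refine (sum_le_sum h1).trans ?_
  rw [← sum_filter, sum_const, nsmul_eq_mul]
  have : (PP.filter fun P => a ∈ P).card ≤ 1 := card_le_one.2 fun P hP Q hQ =>
    pd_eq h (mem_filter.1 hP).1 (mem_filter.1 hQ).1 (mem_filter.1 hP).2 (mem_filter.1 hQ).2
  have h2 : ((PP.filter fun P => a ∈ P).card : ℝ) ≤ 1 := by exact_mod_cast this
  have h3 : (0 : ℝ) ≤ g := Nat.cast_nonneg _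
  nlinarith

theorem sum_wp (h : PD PP) (hX : X ⊆ J) {a : κ} (ha : cw m {a} J ≤ g) :
    ∑ b ∈ X, wp m g Θ PP F a b ≤ 2 * g := by
  unfold wp
  rw [sum_add_distrib]
  have h1 : ∑ b ∈ X, fat m g Θ a b ≤ g := by
    refine le_trans ?_ ha
    simp only [cw, sum_singleton]
    exact (sum_le_sum fun b _ => fat_le a b).trans (sum_le_sum_of_subset hX)
  have h2 : ((∑ b ∈ X, fat m g Θ a b : ℕ) : ℝ) ≤ g := by exact_mod_cast h1
  push_cast at h2
  have := sum_hubw (g := g) (F := F) (X := X) h a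
  linarith

theorem sg_le (hm : Sy m) : sg (wp m g Θ PP F) ≤ gf m g Θ ⊔ gv PP := by
  have key : ∀ a b, a ≠ b → 0 < wp m g Θ PP F a b → (gf m g Θ ⊔ gv PP).Adj a b := by
    intro a b hab h
    by_cases h1 : Θ * m a b ≤ g
    · right
      have h2 : 0 < hubw g PP F a b := by simpa [wp, fat, h1] using h
      obtain ⟨P, hP, h3⟩ := exists_ne_zero_of_sum_ne_zero h2.ne'
      have h4 : a ∈ P ∩ F ∧ b ∈ P ∩ F := by
        by_contra hc
        exact h3 (if_neg hc)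
      exact (SimpleGraph.fromRel_adj _ _ _).2
        ⟨hab, Or.inl ⟨P, hP, (mem_inter.1 h4.1).1, (mem_inter.1 h4.2).1⟩⟩
    · left
      exact (SimpleGraph.fromRel_adj _ _ _).2 ⟨hab, Or.inl (by omega)⟩
  intro a b h
  obtain ⟨hab, h | h⟩ := (SimpleGraph.fromRel_adj _ _ _).1 h
  · exact key a b hab h
  · exact key a b hab (by rwa [wp_symm hm])

theorem cw_le_card (hd : ∀ a ∈ J, cw m {a} J ≤ g) {A B : Finset κ} (hA : A ⊆ J) (hB : B ⊆ J) :
    cw m A B ≤ g * A.card := by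
  rw [cw_eq_sum, mul_comm, ← smul_eq_mul, ← sum_const]
  exact sum_le_sum fun a ha => (cw_mono subset_rfl hB).trans (hd a (hA ha))

theorem sum_hub_ite (f : κ → κ → ℝ) (A B P : Finset κ) :
    ∑ a ∈ A, ∑ b ∈ B, (if a ∈ P ∧ b ∈ P then f a b else 0) = ∑ a ∈ A ∩ P, ∑ b ∈ B ∩ P, f a b := by
  rw [← filter_mem_eq_inter, ← filter_mem_eq_inter, sum_filter]
  refine sum_congr rfl fun a _ => ?_
  rw [sum_filter]
  by_cases ha : a ∈ P <;> simp [ha]

/-- The cut of the net inside the free atoms against the auxiliary cut. -/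
theorem cut_le (hm : Sy m) (hd : ∀ a ∈ J, cw m {a} J ≤ g) (hF : F ⊆ J) (hS : S ⊆ F) :
    (cw m S (F \ S) : ℝ) ≤ 2 * rw (wp m g Θ PP F) S (F \ S) + cw (lost m g Θ PP) J J := by
  have hpt : ∀ a ∈ F, ∀ b ∈ F, (m a b : ℝ) ≤ fat m g Θ a b + lost m g Θ PP a b +
      ∑ P ∈ PP, if a ∈ P ∩ F ∧ b ∈ P ∩ F then (m a b : ℝ) else 0 := by
    intro a ha b hb
    have h0 : (0 : ℝ) ≤ ∑ P ∈ PP, if a ∈ P ∩ F ∧ b ∈ P ∩ F then (m a b : ℝ) else 0 :=
      sum_nonneg fun P _ => by split_ifs <;> positivity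
    by_cases h1 : ∃ P ∈ PP, a ∈ P ∧ b ∈ P
    · obtain ⟨P, hP, h2, h3⟩ := h1
      have := single_le_sum (f := fun P => if a ∈ P ∩ F ∧ b ∈ P ∩ F then (m a b : ℝ) else 0)
        (fun P _ => by split_ifs <;> positivity) hP
      rw [if_pos ⟨mem_inter.2 ⟨h2, ha⟩, mem_inter.2 ⟨h3, hb⟩⟩] at this
      have h4 : (0 : ℝ) ≤ fat m g Θ a b := Nat.cast_nonneg _
      have h5 : (0 : ℝ) ≤ lost m g Θ PP a b := Nat.cast_nonneg _
      linarith
    · have : fat m g Θ a b + lost m g Θ PP a b = m a b := by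
        unfold fat lost thin
        rw [if_neg h1]
        split_ifs <;> simp
      have h2 : (fat m g Θ a b : ℝ) + lost m g Θ PP a b = m a b := by exact_mod_cast this
      linarith
  have h1 : (cw m S (F \ S) : ℝ) ≤ ∑ a ∈ S, ∑ b ∈ F \ S, ((fat m g Θ a b : ℝ) +
      lost m g Θ PP a b + ∑ P ∈ PP, if a ∈ P ∩ F ∧ b ∈ P ∩ F then (m a b : ℝ) else 0) := by
    unfold cw
    push_cast
    exact sum_le_sum fun a ha => sum_le_sum fun b hb => hpt a (hS ha) b (mem_sdiff.1 hb).1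
  have h2 : ∑ a ∈ S, ∑ b ∈ F \ S, (lost m g Θ PP a b : ℝ) ≤ cw (lost m g Θ PP) J J := by
    have := cw_mono (w := lost m g Θ PP) (hS.trans hF) ((sdiff_subset (s := F) (t := S)).trans hF)
    have h3 : ((cw (lost m g Θ PP) S (F \ S) : ℕ) : ℝ) ≤ cw (lost m g Θ PP) J J := by
      exact_mod_cast this
    unfold cw at h3 ⊢
    push_cast at h3 ⊢
    exact h3
  have h3 : ∑ a ∈ S, ∑ b ∈ F \ S, ∑ P ∈ PP, (if a ∈ P ∩ F ∧ b ∈ P ∩ F then (m a b : ℝ) else 0) ≤
      2 * ∑ a ∈ S, ∑ b ∈ F \ S, hubw g PP F a b := by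
    unfold hubw
    have e1 : ∀ f : Finset κ → κ → κ → ℝ, ∑ a ∈ S, ∑ b ∈ F \ S, ∑ P ∈ PP, f P a b =
        ∑ P ∈ PP, ∑ a ∈ S, ∑ b ∈ F \ S, f P a b := by
      intro f
      rw [sum_comm' (s := PP) (t := fun _ => S) (t' := S) (s' := fun _ => PP) (by tauto)]
      exact sum_congr rfl fun a _ => sum_comm
    rw [e1, e1, mul_sum]
    refine sum_le_sum fun P _ => ?_
    rw [sum_hub_ite, sum_hub_ite]
    simp only [sum_const, nsmul_eq_mul]
    set x := (S ∩ (P ∩ F)).card with hx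
    set y := ((F \ S) ∩ (P ∩ F)).card with hy
    have hxy : x + y = (P ∩ F).card := by
      rw [hx, hy, ← card_union_of_disjoint]
      · congr 1
        ext a
        simp only [mem_union, mem_inter, mem_sdiff]
        tauto
      · exact disjoint_left.2 fun a h1 h2 => (mem_sdiff.1 (mem_inter.1 h2).1).2 (mem_inter.1 h1).1
    have s1 : S ∩ (P ∩ F) ⊆ J := inter_subset_left.trans (hS.trans hF)
    have s2 : (F \ S) ∩ (P ∩ F) ⊆ J := inter_subset_left.trans (sdiff_subset.trans hF)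
    have c1 := cw_le_card hd s1 s2
    have c2 := cw_le_card hd s2 s1
    rw [cw_comm hm] at c2
    have e2 : ∑ a ∈ S ∩ (P ∩ F), ∑ b ∈ (F \ S) ∩ (P ∩ F), (m a b : ℝ) =
        (cw m (S ∩ (P ∩ F)) ((F \ S) ∩ (P ∩ F)) : ℕ) := by
      unfold cw; push_cast; rfl
    rw [e2, ← hxy]
    generalize cw m (S ∩ (P ∩ F)) ((F \ S) ∩ (P ∩ F)) = c at c1 c2
    rw [← hx] at c1
    rw [← hy] at c2
    rcases Nat.eq_zero_or_pos (x + y) with h0 | h0
    · have : c = 0 := by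
        have : x = 0 := by omega
        rw [this] at c1; omega
      simp [this, h0]
    · have h4 : (0 : ℝ) < ((x + y : ℕ) : ℝ) := by exact_mod_cast h0
      have h5 : c * (x + y) ≤ 2 * (x * (y * g)) := by nlinarith
      have h6 : (c : ℝ) * ((x + y : ℕ) : ℝ) ≤ 2 * (x * (y * g)) := by exact_mod_cast h5
      rw [show (2 : ℝ) * (x * (y * (g / ((x + y : ℕ) : ℝ)))) =
        2 * (x * (y * g)) / ((x + y : ℕ) : ℝ) by ring, le_div_iff₀ h4]
      exact h6
  simp only [sum_add_distrib] at h1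
  have h4 : rw (wp m g Θ PP F) S (F \ S) = ∑ a ∈ S, ∑ b ∈ F \ S, (fat m g Θ a b : ℝ) +
      ∑ a ∈ S, ∑ b ∈ F \ S, hubw g PP F a b := by
    unfold rw wp
    simp only [sum_add_distrib]
  have h5 : (0 : ℝ) ≤ ∑ a ∈ S, ∑ b ∈ F \ S, (fat m g Θ a b : ℝ) := by positivity
  linarith

/-- Trimming: almost all free atoms form an expander for the auxiliary weights. -/
theorem core (trim : TrimStmt) {T w K B L : ℕ} {U : Finset κ} (hm : Sy m)
    (hd : ∀ a ∈ J, cw m {a} J ≤ T * w) (hwl : WL m J (fun _ => w) K) (hK : 1 ≤ K)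
    (hT : T ≤ B) (hKB : K ≤ B) (hB : 2 ≤ B) (hL : 64 * B ^ 3 ≤ L) (hn : L ≤ J.card)
    (hU : L * U.card ≤ J.card) (hl : L * cw (lost m (T * w) Θ PP) J J ≤ J.card * w) :
    ∃ X ⊆ J \ U, 4 * B * (J \ X).card ≤ J.card ∧ ∀ S ⊆ X, 2 * S.card ≤ X.card →
      (2 * (T * w : ℕ) : ℝ) * S.card ≤
        (16 * B ^ 2 : ℕ) * rw (wp m (T * w) Θ PP (J \ U)) S (X \ S) := by
  set n := J.card with hn'
  set s := n / (8 * B) with hs
  have hB3 : 8 * B ≤ 64 * B ^ 3 := by nlinarith [Nat.pow_le_pow_left hB 2, pow_succ B 2]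
  have hs1 : 8 * B * s ≤ n := Nat.mul_div_le _ _
  have hs2 : n ≤ 16 * B * s := by
    have h1 : n < 8 * B * (s + 1) := Nat.lt_mul_div_succ _ (by omega)
    have h2 : 1 ≤ s := (Nat.le_div_iff_mul_le (by omega)).2 (by omega)
    nlinarith
  have hU8 : 8 * B * U.card ≤ n := le_trans (Nat.mul_le_mul_right _ (hB3.trans hL)) hU
  have hFc : n ≤ (J \ U).card + U.card := by
    rw [hn', card_sdiff_add_card]; exact card_le_card subset_union_left
  have hK0 : (0 : ℝ) < K := by exact_mod_cast hK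
  obtain ⟨A, hA, hAc, -, hexp⟩ := trim κ (wp m (T * w) Θ PP (J \ U)) (J \ U) (w / (4 * K)) s
    (wp_symm hm) wp_nonneg (Or.inl (by nlinarith)) (by
      intro S hS h1 h2
      have hSJ : S ⊆ J := hS.trans sdiff_subset
      have a1 := hwl S hSJ
      have a2 : S.card ≤ (J \ S).card := by
        have b1 : ((J \ U) \ S).card ≤ (J \ S).card :=
          card_le_card (sdiff_subset_sdiff sdiff_subset subset_rfl)
        rw [card_sdiff_of_subset hS] at b1
        omega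
      simp only [ts, sum_const, smul_eq_mul] at a1
      rw [min_eq_left (Nat.mul_le_mul_right _ a2)] at a1
      have a3 : cw m S (J \ S) ≤ cw m S ((J \ U) \ S) + T * w * U.card := by
        have b1 : J \ S ⊆ ((J \ U) \ S) ∪ (J ∩ U) := by
          intro a ha
          simp only [mem_union, mem_sdiff, mem_inter] at ha ⊢
          tauto
        refine (cw_mono subset_rfl b1).trans (cw_union_right_le.trans ?_)
        have b2 := cw_le_card hd (inter_subset_left (s₁ := J) (s₂ := U)) hSJ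
        rw [cw_comm hm] at b2
        have b3 : (J ∩ U).card ≤ U.card := card_le_card inter_subset_right
        have := Nat.mul_le_mul_left (T * w) b3
        omega
      have a4 := cut_le (Θ := Θ) (PP := PP) hm hd sdiff_subset hS
      set lo := cw (lost m (T * w) Θ PP) J J
      have a5 : 2 * K * (lo + T * w * U.card) ≤ S.card * w := by
        have hL0 : 0 < L := by nlinarith
        refine Nat.le_of_mul_le_mul_left ?_ hL0
        have b1 : L * (T * w * U.card) ≤ T * w * n := by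
          rw [mul_left_comm]; exact Nat.mul_le_mul_left _ hU
        have b2 : L * (2 * K * (lo + T * w * U.card)) ≤ 2 * K * (1 + T) * (n * w) :=
          calc _ = 2 * K * (L * lo + L * (T * w * U.card)) := by ring
            _ ≤ 2 * K * (n * w + T * w * n) := by gcongr
            _ = _ := by ring
        have b3 : 2 * K * (1 + T) ≤ 4 * B ^ 2 := by nlinarith
        have b4 : n * w ≤ 16 * B * S.card * w := by
          gcongr; exact hs2.trans (Nat.mul_le_mul_left _ h1)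
        calc _ ≤ 4 * B ^ 2 * (16 * B * S.card * w) := b2.trans (Nat.mul_le_mul b3 b4)
          _ = 64 * B ^ 3 * (S.card * w) := by ring
          _ ≤ _ := Nat.mul_le_mul_right _ hL
      have c1 : (S.card : ℝ) * w ≤ K * cw m S (J \ S) := by exact_mod_cast a1
      have c3 : (cw m S (J \ S) : ℝ) ≤ cw m S ((J \ U) \ S) + T * w * U.card := by
        exact_mod_cast a3
      have c5 : (2 : ℝ) * K * (lo + T * w * U.card) ≤ S.card * w := by exact_mod_cast a5
      rw [div_mul_eq_mul_div, div_le_iff₀ (by positivity)]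
      have c6 : (K : ℝ) * cw m S (J \ S) ≤ K * (2 * rw (wp m (T * w) Θ PP (J \ U)) S
        ((J \ U) \ S) + lo + T * w * U.card) := by gcongr; linarith
      nlinarith)
  refine ⟨(J \ U) \ A, sdiff_subset, ?_, ?_⟩
  · have b1 : J \ ((J \ U) \ A) ⊆ U ∪ A := by
      intro a ha
      simp only [mem_union, mem_sdiff] at ha ⊢
      tauto
    have b2 := (card_le_card b1).trans (card_union_le _ _)
    have b3 : 8 * B * A.card ≤ n := (Nat.mul_le_mul_left _ hAc).trans hs1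
    nlinarith
  · intro S hS h2
    have b1 := hexp S hS h2
    rw [div_mul_eq_mul_div, div_le_iff₀ (by positivity)] at b1
    have b2 : 0 ≤ rw (wp m (T * w) Θ PP (J \ U)) S (((J \ U) \ A) \ S) :=
      sum_nonneg fun a _ => sum_nonneg fun b _ => wp_nonneg a b
    generalize rw (wp m (T * w) Θ PP (J \ U)) S (((J \ U) \ A) \ S) = r at b1 b2
    have b3 : (T : ℝ) ≤ B := by exact_mod_cast hT
    have b4 : (K : ℝ) ≤ B := by exact_mod_cast hKB
    have b5 : (0 : ℝ) ≤ T := Nat.cast_nonneg _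
    push_cast
    calc (2 : ℝ) * (T * w) * S.card = 2 * T * (w * S.card) := by ring
      _ ≤ 2 * T * (2 * r * (4 * K)) := by gcongr
      _ = 16 * (T * K) * r := by ring
      _ ≤ 16 * (B * B) * r := by gcongr
      _ = _ := by ring

end Pool.Agent.MP_35cb46_co.Nl.RouterP

end
end MrgPart0

-- ======== part 1: formerly Pool.Agent.MP_35cb46_co.nl.RouterB
section MrgPart1

/-! Row ROUTER, part B: the embedded patterns, and the cuts of one router. -/

noncomputable section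

namespace Pool.Agent.MP_35cb46_co.Nl.RouterP

open Finset Pool.Agent.MP_7be75d_co Pool.Agent.MP_35cb46_co.Sq
open scoped Classical

variable {κ : Type}

/-- The nodes of the pattern: `k P` of them for every hub `P`. -/
def nodes (Gd : Finset (Finset κ)) (k : Finset κ → ℕ) : Finset (Finset κ × ℕ) :=
  Gd.biUnion fun P => (range (k P)).image (Prod.mk P)

theorem mem_nodes {Gd : Finset (Finset κ)} {k : Finset κ → ℕ} {u : Finset κ × ℕ} :
    u ∈ nodes Gd k ↔ u.1 ∈ Gd ∧ u.2 < k u.1 := by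
  obtain ⟨P, i⟩ := u
  simp only [nodes, mem_biUnion, mem_image, mem_range, Prod.mk.injEq]
  constructor
  · rintro ⟨Q, hQ, j, hj, rfl, rfl⟩
    exact ⟨hQ, hj⟩
  · rintro ⟨h1, h2⟩
    exact ⟨P, h1, i, h2, rfl, rfl⟩

theorem fib_nodes {Gd : Finset (Finset κ)} {k : Finset κ → ℕ} {P : Finset κ} (hP : P ∈ Gd) :
    ((nodes Gd k).filter fun u => u.1 = P).card = k P := by
  have : ((nodes Gd k).filter fun u => u.1 = P) = (range (k P)).image (Prod.mk P) := by
    ext ⟨Q, i⟩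
    simp only [mem_filter, mem_nodes, mem_image, mem_range, Prod.mk.injEq]
    constructor
    · rintro ⟨⟨-, h2⟩, rfl⟩
      exact ⟨i, h2, rfl, rfl⟩
    · rintro ⟨j, hj, rfl, rfl⟩
      exact ⟨⟨hP, hj⟩, rfl⟩
  rw [this, card_image_of_injective _ (Prod.mk_right_injective P), card_range]

theorem sum_fib_le (Z : Finset (Finset κ × ℕ)) (QQ : Finset (Finset κ)) :
    ∑ P ∈ QQ, (Z.filter fun u => u.1 = P).card ≤ Z.card := by
  rw [← card_biUnion]
  · exact card_le_card (biUnion_subset.2 fun P _ => filter_subset _ _)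
  · intro P _ Q _ hne
    exact disjoint_left.2 fun u h1 h2 => hne ((mem_filter.1 h1).2.symm.trans (mem_filter.1 h2).2)

theorem card_nodes {Gd : Finset (Finset κ)} {k : Finset κ → ℕ} :
    (nodes Gd k).card = ∑ P ∈ Gd, k P := by
  rw [card_eq_sum_card_fiberwise (f := fun u : Finset κ × ℕ => u.1) (t := Gd)
    (fun u hu => (mem_nodes.1 hu).1)]
  exact sum_congr rfl fun P hP => fib_nodes hP

/-- One embedded copy of the pattern for every colour. -/
structure Lay (H : SimpleGraph κ) (X : Finset κ) (T d L : ℕ) (J₀ : Finset (Finset κ × ℕ))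
    (Γ : SimpleGraph (Finset κ × ℕ)) (Jt : ℕ → Finset (Finset κ × ℕ))
    (π : ℕ → Finset κ × ℕ → κ) (Bs : ℕ → Finset κ × ℕ → Finset κ) : Prop where
  sub : ∀ t ≤ T, Jt t ⊆ J₀
  deg : Deg Γ J₀ d
  wl : ∀ t ≤ T, WL (aw Γ) (Jt t) (fun _ => 1) (4 * d)
  fam : ∀ t ≤ T, Fam H X (Jt t) (Bs t)
  cross : ∀ t ≤ T, ∀ t' ≤ T, t ≠ t' → ∀ u ∈ Jt t, ∀ u' ∈ Jt t', Disjoint (Bs t u) (Bs t' u')
  port : ∀ t ≤ T, ∀ u ∈ Jt t, π t u ∈ u.1 ∧ π t u ∈ Bs t u
  touch : ∀ t ≤ T, ∀ u ∈ Jt t, ∀ v ∈ Jt t, Γ.Adj u v → Touch H (Bs t u) (Bs t v)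
  lose : ∀ t ≤ T, L * (J₀ \ Jt t).card ≤ J₀.card

/-- Disjoint copies of a graph. -/
def copies {ι : Type} (Γ : SimpleGraph ι) : SimpleGraph (ℕ × ι) where
  Adj u v := u.1 = v.1 ∧ Γ.Adj u.2 v.2
  symm := ⟨fun _ _ h => ⟨h.1.symm, h.2.symm⟩⟩
  loopless := ⟨fun _ h => Γ.irrefl h.2⟩

theorem sd_inst {α : Type} (i j : DecidableEq α) (A B : Finset α) :
    @SDiff.sdiff _ (@Finset.instSDiff α i) A B = @SDiff.sdiff _ (@Finset.instSDiff α j) A B := by
  rw [Subsingleton.elim i j]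

theorem lay (pat : PatStmt) (patr : PatrStmt) (emb : EmbStmt) : ∃ c : ℕ, ∀ (κ : Type) [Fintype κ]
    (X : Finset κ) (wt : κ → κ → ℝ) (D : ℝ) (B T Λ L : ℕ) (Gd : Finset (Finset κ)),
    (∀ a b, wt a b = wt b a) → (∀ a b, 0 ≤ wt a b) → 0 < D → X.Nonempty → X.card ≤ 2 ^ B →
    (∀ a ∈ X, ∑ b ∈ X, wt a b ≤ D) →
    (∀ S ⊆ X, 2 * S.card ≤ X.card → D * S.card ≤ B * rw wt S (X \ S)) → PD Gd →
    (∀ P ∈ Gd, P.Nonempty ∧ P.card ≤ 2 * (P ∩ X).card) → (un Gd).card ≤ 2 ^ Λ →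
    16 * (2 * Λ + 2) ^ 2 * (T + 1) ≤ B → L * (3 * (2 * Λ + 2) ^ 2 * (T + 1)) ≤ B →
    ∃ Γ Jt π Bs, Lay (sg wt) X T (2 * Λ + 2) L
      (nodes Gd fun P => P.card / (2 * (T + 1) * B ^ c)) Γ Jt π Bs := by
  obtain ⟨c, hc⟩ := emb
  refine ⟨c, ?_⟩
  intro κ _ X wt D B T Λ L Gd h1 h2 h3 h0 h4 h5 h6 hpd hGd hΛ hB1 hB2
  set J₀ := nodes Gd fun P => P.card / (2 * (T + 1) * B ^ c) with hJ₀
  set d := 2 * Λ + 2 with hd
  have hd2 : 2 ≤ d := by omega
  have hdB : d ≤ B := by nlinarith [Nat.zero_le T, Nat.zero_le (d ^ 2 * T)]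
  have hJc : J₀.card ≤ 2 ^ Λ := by
    refine le_trans ?_ hΛ
    rw [hJ₀, card_nodes, card_un hpd]
    exact sum_le_sum fun P _ => Nat.div_le_self _ _
  obtain ⟨Γ, hΓ1, hΓ2⟩ := pat _ J₀ Λ hJc
  obtain ⟨J', hJ', π, Bs, e1, e2, e3, e4⟩ := hc κ (ℕ × Finset κ × ℕ) X wt D B
    (range (T + 1) ×ˢ J₀) (copies Γ) (fun u => u.2.1 ∩ X) h1 h2 h3 (by omega) h0 h4 h5 h6
    (by
      intro v hv
      refine le_trans ?_ ((hΓ1 v.2 (mem_product.1 hv).2).trans hdB)
      refine card_le_card_of_injOn (fun u => u.2) ?_ ?_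
      · intro u hu
        have hu' := mem_filter.1 (mem_coe.1 hu)
        exact mem_coe.2 (mem_filter.2 ⟨(mem_product.1 hu'.1).2, hu'.2.2⟩)
      · intro u hu u' hu' h
        exact Prod.ext ((mem_filter.1 (mem_coe.1 hu)).2.1.symm.trans
          (mem_filter.1 (mem_coe.1 hu')).2.1) h)
    (by
      intro u hu
      have hP := hGd _ (mem_nodes.1 (mem_product.1 hu).2).1
      refine ⟨inter_subset_right, card_pos.1 ?_⟩
      have := card_pos.2 hP.1
      have := hP.2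
      omega)
    (by
      intro z
      by_cases hz : ∃ P ∈ Gd, z ∈ P
      · obtain ⟨P, hP, hzP⟩ := hz
        have a1 : ((range (T + 1) ×ˢ J₀).filter fun u => z ∈ u.2.1 ∩ X) ⊆
            range (T + 1) ×ˢ (J₀.filter fun u => u.1 = P) := by
          intro u hu
          obtain ⟨b1, b2⟩ := mem_filter.1 hu
          exact mem_product.2 ⟨(mem_product.1 b1).1, mem_filter.2 ⟨(mem_product.1 b1).2,
            pd_eq hpd (mem_nodes.1 (mem_product.1 b1).2).1 hP (mem_inter.1 b2).1 hzP⟩⟩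
        have a2 : ∑ u ∈ (range (T + 1) ×ˢ J₀).filter fun u => z ∈ u.2.1 ∩ X,
            (((u.2.1 ∩ X).card : ℝ))⁻¹ ≤
            ∑ u ∈ range (T + 1) ×ˢ (J₀.filter fun u => u.1 = P), (((P ∩ X).card : ℝ))⁻¹ := by
          refine le_trans (le_of_eq (sum_congr rfl fun u hu => ?_))
            (sum_le_sum_of_subset_of_nonneg a1 fun _ _ _ => by positivity)
          rw [(mem_filter.1 (mem_product.1 (a1 hu)).2).2]
        rw [sum_const, card_product, card_range, hJ₀, fib_nodes hP, nsmul_eq_mul] at a2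
        have a3 : 0 < (P ∩ X).card := by
          have := card_pos.2 (hGd P hP).1
          have := (hGd P hP).2
          omega
        have a4 : B ^ c * ((T + 1) * (P.card / (2 * (T + 1) * B ^ c))) ≤ (P ∩ X).card := by
          have b1 := Nat.mul_div_le P.card (2 * (T + 1) * B ^ c)
          have b2 := (hGd P hP).2
          nlinarith
        have a5 : (B : ℝ) ^ c * (((T + 1) * (P.card / (2 * (T + 1) * B ^ c)) : ℕ) : ℝ) ≤
            (P ∩ X).card := by exact_mod_cast a4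
        have a6 : (0 : ℝ) < (P ∩ X).card := by exact_mod_cast a3
        refine (mul_le_mul_of_nonneg_left a2 (by positivity)).trans ?_
        rw [← mul_assoc, ← div_eq_mul_inv, div_le_one a6]
        exact a5
      · rw [filter_false_of_mem, sum_empty, mul_zero]
        · exact zero_le_one
        · intro u hu h
          exact hz ⟨_, (mem_nodes.1 (mem_product.1 hu).2).1, (mem_inter.1 h).1⟩)
  have hB : ∀ t ≤ T, B * (J₀.filter fun u => (t, u) ∉ J').card ≤ (T + 1) * J₀.card := by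
    intro t ht
    have e1' : B * ((range (T + 1) ×ˢ J₀) \ J').card ≤ (T + 1) * J₀.card := by
      rw [card_product, card_range] at e1
      exact (sd_inst _ _ _ _) ▸ e1
    refine le_trans (Nat.mul_le_mul_left _ ?_) e1'
    refine card_le_card_of_injOn (fun u => (t, u)) ?_ (fun u _ u' _ h => (Prod.ext_iff.1 h).2)
    intro u hu
    have hu' := mem_filter.1 (mem_coe.1 hu)
    exact mem_coe.2 (mem_sdiff.2 ⟨mem_product.2 ⟨mem_range.2 (Nat.lt_succ_of_le ht), hu'.1⟩, hu'.2⟩)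
  have hT : ∀ t ≤ T, ∃ Z ⊆ J₀ \ (J₀.filter fun u => (t, u) ∉ J'),
      (J₀ \ Z).card ≤ 3 * d * d * (J₀.filter fun u => (t, u) ∉ J').card ∧
      WL (aw Γ) Z (fun _ => 1) (4 * d) := by
    intro t ht
    obtain ⟨Z, z1, z2, z3⟩ := patr _ Γ J₀ (J₀.filter fun u => (t, u) ∉ J') d d hΓ1 hΓ2
      (filter_subset _ _) (by omega) (by omega) (by
      refine Nat.le_of_mul_le_mul_left (le_trans ?_ (hB t ht)) (Nat.succ_pos T)
      calc _ = 16 * d ^ 2 * (T + 1) * (J₀.filter fun u => (t, u) ∉ J').card := by ring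
        _ ≤ _ := Nat.mul_le_mul_right _ hB1)
    exact ⟨Z, (sd_inst _ _ _ _) ▸ z1, (sd_inst _ _ _ _) ▸ z2, z3⟩
  choose! Jt j1 j2 j3 using hT
  have hin : ∀ t ≤ T, ∀ u ∈ Jt t, (t, u) ∈ J' := by
    intro t ht u hu
    obtain ⟨b1, b2⟩ := mem_sdiff.1 (j1 t ht hu)
    by_contra hc
    exact b2 (mem_filter.2 ⟨b1, hc⟩)
  refine ⟨Γ, Jt, fun t u => π (t, u), fun t u => Bs (t, u),
    fun t ht => (j1 t ht).trans sdiff_subset, hΓ1, j3, fun t ht => ⟨?_, ?_, ?_⟩, ?_, ?_, ?_, ?_⟩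
  · exact fun u hu => e2.sub _ (hin t ht u hu)
  · exact fun u hu => e2.conn _ (hin t ht u hu)
  · exact fun u hu v hv h => e2.disj _ (hin t ht u hu) _ (hin t ht v hv)
      fun h' => h (Prod.ext_iff.1 h').2
  · exact fun t ht t' ht' h u hu v hv => e2.disj _ (hin t ht u hu) _ (hin t' ht' v hv)
      fun h' => h (Prod.ext_iff.1 h').1
  · exact fun t ht u hu => ⟨(mem_inter.1 (e3 _ (hin t ht u hu)).1).1, (e3 _ (hin t ht u hu)).2⟩
  · exact fun t ht u hu v hv h => e4 _ (hin t ht u hu) _ (hin t ht v hv) ⟨rfl, h⟩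
  · intro t ht
    refine Nat.le_of_mul_le_mul_left (le_trans ?_ (hB t ht)) (Nat.succ_pos T)
    calc _ ≤ (T + 1) * (L * (3 * d * d * (J₀.filter fun u => (t, u) ∉ J').card)) := by
          gcongr; exact j2 t ht
      _ = L * (3 * d ^ 2 * (T + 1)) * (J₀.filter fun u => (t, u) ∉ J').card := by ring
      _ ≤ _ := Nat.mul_le_mul_right _ hB2

variable {m : κ → κ → ℕ} {g Θ t : ℕ} {PP : Finset (Finset κ)} {J R A : Finset κ} {col : κ → ℕ}

theorem dev_one (hm : Sy m) (hd : ∀ a ∈ J, cw m {a} J ≤ g) {I Mj Mn Dv : Finset κ} {e : ℕ}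
    (h1 : I ⊆ Mj ∪ Mn) (h2 : Mn ⊆ J) (h3 : Dv ⊆ J) (h4 : ∀ a ∈ Dv, g ≤ Θ * cw m {a} I)
    (h5 : Mn.card * g ≤ Θ * e) (h6 : cw m Dv Mj ≤ e) (hΘ : 1 ≤ Θ) :
    g * Dv.card ≤ 2 * Θ ^ 2 * e := by
  have a1 : g * Dv.card ≤ Θ * cw m Dv I := by
    rw [cw_eq_sum, mul_sum, mul_comm, ← smul_eq_mul, ← sum_const]
    exact sum_le_sum h4
  have a2 : cw m Dv I ≤ cw m Dv Mj + cw m Dv Mn := (cw_mono subset_rfl h1).trans cw_union_right_le
  have a3 := cw_le_card hd h2 h3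
  rw [cw_comm hm, mul_comm] at a3
  have a4 : e ≤ Θ * e := Nat.le_mul_of_pos_left _ hΘ
  calc _ ≤ Θ * (Θ * e + Θ * e) := a1.trans (Nat.mul_le_mul_left _ (by omega))
    _ = _ := by ring

/-- The atoms on the other side than their hub. -/
def dev (PP : Finset (Finset κ)) (R A : Finset κ) (side : Finset κ → Prop) : Finset κ :=
  R.filter fun a => ∃ P ∈ PP, a ∈ P ∧ (a ∈ A ↔ ¬ side P)

theorem dev_le (hm : Sy m) (hd : ∀ a ∈ J, cw m {a} J ≤ g) (hpd : PD PP) (hP : ∀ P ∈ PP, P ⊆ J)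
    (hI : ∀ P ∈ PP, WL m (cls P col t) (fun _ => g) Θ ∧ ∀ a ∈ P, g ≤ Θ * cw m {a} (cls P col t))
    (hR : cls (un PP) col t ⊆ R) (hΘ : 1 ≤ Θ) :
    ∃ side, g * (dev PP R A side).card ≤ 2 * Θ ^ 2 * cw m A (R \ A) := by
  obtain ⟨side, hside⟩ : ∃ side : Finset κ → Prop,
      ∀ P, side P ↔ (cls P col t \ A).card ≤ (A ∩ cls P col t).card := ⟨_, fun _ => Iff.rfl⟩
  refine ⟨side, ?_⟩
  have a1 : dev PP R A side ⊆
      PP.biUnion fun P => (R ∩ P).filter fun a => (a ∈ A ↔ ¬ side P) := by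
    intro a ha
    obtain ⟨b1, P, b2, b3, b4⟩ := mem_filter.1 ha
    exact mem_biUnion.2 ⟨P, b2, mem_filter.2 ⟨mem_inter.2 ⟨b1, b3⟩, b4⟩⟩
  have a2 : ∀ P ∈ PP, g * ((R ∩ P).filter fun a => (a ∈ A ↔ ¬ side P)).card ≤
      2 * Θ ^ 2 * cw m (A ∩ P) (R \ A) := by
    intro P hPP
    have hIP : cls P col t ⊆ P := filter_subset _ _
    have hIR : cls P col t ⊆ R := fun a ha =>
      hR (mem_filter.2 ⟨mem_un.2 ⟨P, hPP, hIP ha⟩, (mem_filter.1 ha).2⟩)
    have b1 := (hI P hPP).1 (A ∩ cls P col t) inter_subset_right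
    simp only [ts, sum_const, smul_eq_mul, sdiff_inter_self_right] at b1
    have b2 : cw m (A ∩ cls P col t) (cls P col t \ A) ≤ cw m (A ∩ P) (R \ A) :=
      cw_mono (inter_subset_inter_left hIP) (sdiff_subset_sdiff hIR subset_rfl)
    have b3 := b1.trans (Nat.mul_le_mul_left _ b2)
    have b4 : ((R ∩ P).filter fun a => (a ∈ A ↔ ¬ side P)) ⊆ P :=
      (filter_subset _ _).trans inter_subset_right
    by_cases hs : side P
    · refine dev_one (I := cls P col t) (Mj := A ∩ cls P col t) (Mn := cls P col t \ A) hm hd ?_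
        (sdiff_subset.trans (hIP.trans (hP P hPP))) (b4.trans (hP P hPP))
        (fun a ha => (hI P hPP).2 a (b4 ha)) ?_ ?_ hΘ
      · intro a ha
        simp only [mem_union, mem_inter, mem_sdiff]
        tauto
      · rwa [min_eq_right (Nat.mul_le_mul_right _ ((hside P).1 hs))] at b3
      · rw [cw_comm hm]
        refine cw_mono (inter_subset_inter_left hIP) fun a ha => ?_
        obtain ⟨c1, c2⟩ := mem_filter.1 ha
        exact mem_sdiff.2 ⟨(mem_inter.1 c1).1, fun h => c2.1 h hs⟩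
    · refine dev_one (I := cls P col t) (Mj := cls P col t \ A) (Mn := A ∩ cls P col t) hm hd ?_
        (inter_subset_right.trans (hIP.trans (hP P hPP))) (b4.trans (hP P hPP))
        (fun a ha => (hI P hPP).2 a (b4 ha)) ?_ ?_ hΘ
      · intro a ha
        simp only [mem_union, mem_inter, mem_sdiff]
        tauto
      · rwa [min_eq_left (Nat.mul_le_mul_right _ (le_of_not_ge (mt (hside P).2 hs)))] at b3
      · refine cw_mono (fun a ha => ?_) (sdiff_subset_sdiff hIR subset_rfl)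
        obtain ⟨c1, c2⟩ := mem_filter.1 ha
        exact mem_inter.2 ⟨c2.2 hs, (mem_inter.1 c1).2⟩
  have a3 : ∑ P ∈ PP, cw m (A ∩ P) (R \ A) ≤ cw m A (R \ A) := by
    rw [← cw_biUnion]
    · exact cw_mono (biUnion_subset.2 fun P _ => inter_subset_left) subset_rfl
    · exact fun P h1 Q h2 hne => (hpd P h1 Q h2 hne).mono inter_subset_right inter_subset_right
  calc _ ≤ g * ∑ P ∈ PP, ((R ∩ P).filter fun a => (a ∈ A ↔ ¬ side P)).card :=
        Nat.mul_le_mul_left _ ((card_le_card a1).trans card_biUnion_le)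
    _ ≤ ∑ P ∈ PP, 2 * Θ ^ 2 * cw m (A ∩ P) (R \ A) := by rw [mul_sum]; exact sum_le_sum a2
    _ ≤ _ := by rw [← mul_sum]; exact Nat.mul_le_mul_left _ a3

theorem gf_le (hm : Sy m) (A B : Finset κ) : g * cw (aw (gf m g Θ)) A B ≤ Θ * cw m A B := by
  unfold cw
  simp only [mul_sum]
  refine sum_le_sum fun a _ => sum_le_sum fun b _ => ?_
  unfold aw
  split_ifs with h
  · obtain ⟨-, h | h⟩ := (SimpleGraph.fromRel_adj _ _ _).1 h
    · omega
    · rw [hm b a] at h; omega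
  · simp

end Pool.Agent.MP_35cb46_co.Nl.RouterP

end
end MrgPart1

-- ======== part 2: formerly Pool.Agent.MP_35cb46_co.nl.Router
section MrgPart2

/-! Row ROUTER: the global routers of one level. -/

noncomputable section

namespace Pool.Agent.MP_35cb46_co.Nl

open Finset Pool.Agent.MP_7be75d_co Pool.Agent.MP_35cb46_co.Sq
open scoped Classical

namespace RouterP

variable {κ : Type} {m : κ → κ → ℕ} {g Θ t : ℕ} {PP GG : Finset (Finset κ)} {J R A : Finset κ}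
  {col : κ → ℕ} {Γ : SimpleGraph (Finset κ × ℕ)} {Z : Finset (Finset κ × ℕ)}
  {π : Finset κ × ℕ → κ} {Bs : Finset κ × ℕ → Finset κ} {d σ : ℕ}

theorem port_inj {ι : Type} {H : SimpleGraph κ} {Z : Finset ι} {π : ι → κ} {Bs : ι → Finset κ}
    (hfam : Fam H R Z Bs) (h : ∀ u ∈ Z, π u ∈ Bs u) : Set.InjOn π Z := by
  intro u hu v hv e
  by_contra hne
  exact disjoint_left.1 (hfam.disj u hu v hv hne) (h u hu) (e ▸ h v hv)

theorem one_side (br : BrStmt) (hm : Sy m) (hd : ∀ a ∈ J, cw m {a} J ≤ g) (hpd : PD PP)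
    (hP : ∀ P ∈ PP, P ⊆ J)
    (hI : ∀ P ∈ PP, WL m (cls P col t) (fun _ => g) Θ ∧ ∀ a ∈ P, g ≤ Θ * cw m {a} (cls P col t))
    (hR : cls (un PP) col t ⊆ R) (hΘ : 1 ≤ Θ) (hdeg : Deg Γ Z d)
    (hwl : WL (aw Γ) Z (fun _ => 1) (4 * d)) (hd1 : 1 ≤ d) (hσ : 1 ≤ σ)
    (hfam : Fam (gf m g Θ ⊔ gv PP) R Z Bs) (hport : ∀ u ∈ Z, π u ∈ u.1 ∧ π u ∈ Bs u)
    (htouch : ∀ u ∈ Z, ∀ v ∈ Z, Γ.Adj u v → Touch (gf m g Θ ⊔ gv PP) (Bs u) (Bs v))
    (hGG : GG ⊆ PP) (hk : ∀ P ∈ GG, P.card ≤ 4 * σ * (Z.filter fun u => u.1 = P).card)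
    (hA : A ⊆ R) (hmin : (Z.filter fun u => π u ∈ A).card ≤ (Z.filter fun u => π u ∉ A).card) :
    g * (A ∩ un GG).card + g * (Z.filter fun u => π u ∈ A).card ≤
      130 * σ * d ^ 2 * Θ ^ 2 * cw m A (R \ A) := by
  obtain ⟨side, hs⟩ := dev_le (A := A) hm hd hpd hP hI hR hΘ
  have a1 := br κ _ Γ Z (gf m g Θ) (gv PP) R Bs π d (4 * d) hdeg hwl hd1 hfam
    (fun u hu => (hport u hu).2) htouch A (dev PP R A side) (by
      intro a ha b hb hab h1 h2
      have : ∃ P ∈ PP, a ∈ P ∧ b ∈ P := by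
        obtain ⟨-, ⟨P, h3, h4, h5⟩ | ⟨P, h3, h4, h5⟩⟩ := (SimpleGraph.fromRel_adj _ _ _).1 hab
        · exact ⟨P, h3, h4, h5⟩
        · exact ⟨P, h3, h5, h4⟩
      obtain ⟨P, h3, h4, h5⟩ := this
      by_cases h : side P
      · exact Or.inr (mem_filter.2 ⟨hb, P, h3, h5, by tauto⟩)
      · exact Or.inl (mem_filter.2 ⟨ha, P, h3, h4, by tauto⟩))
  rw [min_eq_left hmin] at a1
  have a2 : Z.biUnion Bs ⊆ R := biUnion_subset.2 hfam.sub
  have a3 := (gf_le (g := g) (Θ := Θ) hm (Z.biUnion Bs ∩ A) (Z.biUnion Bs \ A)).trans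
    (Nat.mul_le_mul_left Θ (cw_mono (w := m) (inter_subset_right (s₁ := Z.biUnion Bs) (s₂ := A))
      (sdiff_subset_sdiff a2 (subset_rfl (a := A)))))
  have a4 : (dev PP R A side ∩ Z.biUnion Bs).card ≤ (dev PP R A side).card :=
    card_le_card inter_subset_left
  have a5 : A ∩ un GG ⊆ dev PP R A side ∪ un (GG.filter side) := by
    intro a ha
    obtain ⟨P, h1, h2⟩ := mem_un.1 (mem_inter.1 ha).2
    by_cases h : side P
    · exact mem_union_right _ (mem_un.2 ⟨P, mem_filter.2 ⟨h1, h⟩, h2⟩)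
    · exact mem_union_left _ (mem_filter.2 ⟨hA (mem_inter.1 ha).1, P, hGG h1, h2,
        iff_of_true (mem_inter.1 ha).1 h⟩)
  have a6 : (Z.filter fun u => π u ∈ dev PP R A side).card ≤ (dev PP R A side).card :=
    card_le_card_of_injOn π (fun u hu => (mem_filter.1 (mem_coe.1 hu)).2)
      ((port_inj hfam fun u hu => (hport u hu).2).mono (coe_subset.2 (filter_subset _ _)))
  have a7 : (un (GG.filter side)).card ≤ 4 * σ *
      ((Z.filter fun u => π u ∈ A).card + (dev PP R A side).card) := by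
    rw [card_un (pd_mono hpd ((filter_subset _ _).trans hGG))]
    have b1 := sum_fib_le (Z.filter fun u => π u ∈ A ∨ π u ∈ dev PP R A side) (GG.filter side)
    have b2 : (Z.filter fun u => π u ∈ A ∨ π u ∈ dev PP R A side).card ≤
        (Z.filter fun u => π u ∈ A).card + (Z.filter fun u => π u ∈ dev PP R A side).card := by
      rw [filter_or]; exact card_union_le _ _
    refine le_trans ?_ (Nat.mul_le_mul_left _ (b1.trans (b2.trans (Nat.add_le_add_left a6 _))))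
    rw [mul_sum]
    refine sum_le_sum fun P hPP => (hk P (mem_filter.1 hPP).1).trans
      (Nat.mul_le_mul_left _ (card_le_card fun u hu => ?_))
    obtain ⟨c1, c2⟩ := mem_filter.1 hu
    refine mem_filter.2 ⟨mem_filter.2 ⟨c1, ?_⟩, c2⟩
    by_cases h : π u ∈ A
    · exact Or.inl h
    · exact Or.inr (mem_filter.2 ⟨hfam.sub u c1 (hport u c1).2, P, hGG (mem_filter.1 hPP).1,
        c2 ▸ (hport u c1).1, iff_of_false h (not_not.2 (mem_filter.1 hPP).2)⟩)
  have a8 := (card_le_card a5).trans (card_union_le _ _)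
  generalize (Z.filter fun u => π u ∈ A).card = p at *
  generalize (dev PP R A side).card = D at *
  generalize cw m A (R \ A) = e at *
  generalize cw (aw (gf m g Θ)) (Z.biUnion Bs ∩ A) (Z.biUnion Bs \ A) = f at *
  have c0 : Θ * e ≤ Θ ^ 2 * e := Nat.mul_le_mul_right _ (Nat.le_self_pow (by omega) _)
  have c1 : g * p ≤ 24 * (d ^ 2 * (Θ ^ 2 * e)) :=
    calc _ ≤ g * (2 * d * (4 * d) * (D + f)) :=
          Nat.mul_le_mul_left _ (a1.trans (Nat.mul_le_mul_left _ (Nat.add_le_add_right a4 _)))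
      _ = 8 * d ^ 2 * (g * D + g * f) := by ring
      _ ≤ 8 * d ^ 2 * (2 * Θ ^ 2 * e + Θ ^ 2 * e) :=
          Nat.mul_le_mul_left _ (Nat.add_le_add hs (a3.trans c0))
      _ = _ := by ring
  have c2 : g * D ≤ 2 * (d ^ 2 * (Θ ^ 2 * e)) := by
    have : Θ ^ 2 * e ≤ d ^ 2 * (Θ ^ 2 * e) := Nat.le_mul_of_pos_left _ (by positivity)
    nlinarith
  have c3 : g * (A ∩ un GG).card ≤ g * D + 4 * σ * (g * p + g * D) :=
    calc _ ≤ g * (D + 4 * σ * (p + D)) := Nat.mul_le_mul_left _ (by omega)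
      _ = _ := by ring
  generalize hx : d ^ 2 * (Θ ^ 2 * e) = x at c1 c2
  have c4 : 130 * σ * d ^ 2 * Θ ^ 2 * e = 130 * (σ * x) := by rw [← hx]; ring
  have c5 : x ≤ σ * x := Nat.le_mul_of_pos_left _ hσ
  have c6 : 4 * σ * (g * p + g * D) ≤ 104 * (σ * x) :=
    calc _ ≤ 4 * σ * (24 * x + 2 * x) := by gcongr
      _ = _ := by ring
  omega

theorem ts_ind (T A : Finset κ) : ∑ a ∈ A, ind T a = (A ∩ T).card := by
  simp [ind]

theorem wl_of (br : BrStmt) (hm : Sy m) (hd : ∀ a ∈ J, cw m {a} J ≤ g) (hpd : PD PP)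
    (hP : ∀ P ∈ PP, P ⊆ J)
    (hI : ∀ P ∈ PP, WL m (cls P col t) (fun _ => g) Θ ∧ ∀ a ∈ P, g ≤ Θ * cw m {a} (cls P col t))
    (hR : cls (un PP) col t ⊆ R) (hΘ : 1 ≤ Θ) (hdeg : Deg Γ Z d)
    (hwl : WL (aw Γ) Z (fun _ => 1) (4 * d)) (hd1 : 1 ≤ d) (hσ : 1 ≤ σ)
    (hfam : Fam (gf m g Θ ⊔ gv PP) R Z Bs) (hport : ∀ u ∈ Z, π u ∈ u.1 ∧ π u ∈ Bs u)
    (htouch : ∀ u ∈ Z, ∀ v ∈ Z, Γ.Adj u v → Touch (gf m g Θ ⊔ gv PP) (Bs u) (Bs v))
    (hGG : GG ⊆ PP) (hk : ∀ P ∈ GG, P.card ≤ 4 * σ * (Z.filter fun u => u.1 = P).card)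
    {τ : κ → ℕ} (hτ : ∀ a, τ a ≤ g * ind (un GG) a + g * ind (Z.image π) a) {Q : ℕ}
    (hQ : 130 * σ * d ^ 2 * Θ ^ 2 ≤ Q) : WL m R τ Q := by
  have key : ∀ A ⊆ R, (Z.filter fun u => π u ∈ A).card ≤ (Z.filter fun u => π u ∉ A).card →
      ts τ A ≤ Q * cw m A (R \ A) := by
    intro A hA hmin
    refine le_trans ?_ ((one_side br hm hd hpd hP hI hR hΘ hdeg hwl hd1 hσ hfam hport htouch hGG
      hk hA hmin).trans (Nat.mul_le_mul_right _ hQ))
    refine (sum_le_sum fun a _ => hτ a).trans ?_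
    rw [sum_add_distrib, ← mul_sum, ← mul_sum, ts_ind, ts_ind]
    refine Nat.add_le_add_left (Nat.mul_le_mul_left _ (le_trans (card_le_card ?_)
      (card_image_le (f := π)))) _
    intro a ha
    obtain ⟨u, hu, rfl⟩ := mem_image.1 (mem_inter.1 ha).2
    exact mem_image.2 ⟨u, mem_filter.2 ⟨hu, (mem_inter.1 ha).1⟩, rfl⟩
  intro A hA
  by_cases h : (Z.filter fun u => π u ∈ A).card ≤ (Z.filter fun u => π u ∉ A).card
  · exact (min_le_left _ _).trans (key A hA h)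
  · refine (min_le_right _ _).trans ?_
    have e1 : (Z.filter fun u => π u ∈ R \ A) = Z.filter fun u => π u ∉ A :=
      filter_congr fun u hu => by simp [hfam.sub u hu (hport u hu).2]
    have e2 : (Z.filter fun u => π u ∉ R \ A) = Z.filter fun u => π u ∈ A :=
      filter_congr fun u hu => by simp [hfam.sub u hu (hport u hu).2]
    have := key (R \ A) sdiff_subset (by rw [e1, e2]; omega)
    rwa [Finset.sdiff_sdiff_eq_self hA, cw_comm hm] at this

theorem le_two_div {n σ : ℕ} (h0 : 1 ≤ σ) (h : σ ≤ n) : n ≤ 2 * σ * (n / σ) := by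
  have h1 : n < σ * (n / σ + 1) := Nat.lt_mul_div_succ _ h0
  have h2 : 1 ≤ n / σ := (Nat.le_div_iff_mul_le h0).2 (by omega)
  nlinarith

theorem pw {B a i j : ℕ} (hB : 2 ≤ B) (h : a ≤ 2 ^ i) : a * B ^ j ≤ B ^ (i + j) := by
  rw [pow_add]
  exact Nat.mul_le_mul_right _ (h.trans (Nat.pow_le_pow_left hB _))

end RouterP

open RouterP

theorem router (trim : TrimStmt) (pat : PatStmt) (patr : PatrStmt) (br : BrStmt) (emb : EmbStmt) :
    RouterStmt := by
  obtain ⟨c, hc⟩ := lay pat patr emb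
  refine ⟨15 * c + 20, ?_⟩
  intro κ _ J m T w K B Θ PP col hm hd hwl hw hT hK hJ hTB hKB hB hΘ hpd hP hun hI hU hl
  rcases PP.eq_empty_or_nonempty with rfl | ⟨P₀, hP₀⟩
  · refine ⟨fun _ => ∅, ∅, ∅, subset_rfl, by simp [un], fun t _ => by simp [un, cls],
      by simp, subset_rfl, by simpa [un] using hun, fun t _ A hA => ?_⟩
    rw [subset_empty.1 hA]
    simp [ts]
  have hB1 : 1 ≤ B := by omega
  have hmono : ∀ {i j : ℕ}, i ≤ j → B ^ i ≤ B ^ j := fun h => Nat.pow_le_pow_right hB1 h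
  set U := (un PP).filter fun a => col a ≤ T + 1 with hUdef
  obtain ⟨X, hX, hXc, hXe⟩ := core (Θ := Θ) (PP := PP) (U := U) trim hm hd hwl hK hTB hKB hB
    ((pw (a := 64) (i := 6) hB (by norm_num)).trans (hmono (by omega)))
    ((hP P₀ hP₀).2.trans (card_le_card (hP P₀ hP₀).1)) hU hl
  have hXJ : X ⊆ J := hX.trans sdiff_subset
  have hXne : X.Nonempty := by
    rw [nonempty_iff_ne_empty]
    rintro rfl
    have a1 : 0 < J.card :=
      lt_of_lt_of_le (by positivity) ((hP P₀ hP₀).2.trans (card_le_card (hP P₀ hP₀).1))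
    rw [sdiff_empty] at hXc
    nlinarith
  set Gd := PP.filter fun P => P.card ≤ 2 * (P ∩ X).card with hGd
  have hGP : Gd ⊆ PP := filter_subset _ _
  have hunJ : ∀ QQ ⊆ PP, un QQ ⊆ J := fun QQ h a ha => by
    obtain ⟨P, h1, h2⟩ := mem_un.1 ha
    exact (hP P (h h1)).1 h2
  have hT1 : T + 1 ≤ 2 * B := by omega
  have hd3 : 2 * B + 2 ≤ 3 * B := by omega
  obtain ⟨Γ, Jt, π, Bs, hL⟩ := hc κ X (wp m (T * w) Θ PP (J \ U)) (2 * (T * w : ℕ)) (B ^ 15) T B
    (8 * B * (T + 1)) Gd (wp_symm hm) wp_nonneg (by positivity) hXne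
    ((card_le_card hXJ).trans (hJ.trans
      (Nat.pow_le_pow_right (by omega) (Nat.le_self_pow (by omega) _))))
    (fun a ha => sum_wp hpd hXJ (hd a (hXJ ha)))
    (fun S hS h2 => (hXe S hS h2).trans (mul_le_mul_of_nonneg_right
      (Nat.cast_le.2 ((pw (a := 16) (i := 4) hB (by norm_num)).trans (hmono (by omega))))
      (sum_nonneg fun a _ => sum_nonneg fun b _ => wp_nonneg a b)))
    (pd_mono hpd hGP)
    (fun P h => ⟨card_pos.1 (lt_of_lt_of_le (by positivity) (hP P (hGP h)).2), (mem_filter.1 h).2⟩)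
    ((card_le_card (hunJ _ hGP)).trans hJ)
    (calc _ ≤ 16 * (3 * B) ^ 2 * (2 * B) := by gcongr
      _ = 288 * B ^ 3 := by ring
      _ ≤ _ := (pw (i := 9) hB (by norm_num)).trans (hmono (by omega)))
    (calc _ ≤ 8 * B * (2 * B) * (3 * (3 * B) ^ 2 * (2 * B)) := by gcongr
      _ = 864 * B ^ 5 := by ring
      _ ≤ _ := pw (i := 10) hB (by norm_num))
  set σ := 2 * (T + 1) * (B ^ 15) ^ c with hσ
  have hσ1 : 1 ≤ σ := Nat.succ_le_of_lt (by positivity)
  have hσ2 : σ ≤ B ^ (15 * c + 3) :=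
    calc _ ≤ 2 * (2 * B) * (B ^ 15) ^ c := by rw [hσ]; gcongr
      _ = 4 * B ^ (15 * c + 1) := by rw [← pow_mul]; ring
      _ ≤ _ := (pw (i := 2) hB (by norm_num)).trans (hmono (by omega))
  set J₀ := nodes Gd fun P => P.card / σ with hJ₀
  have hkP : ∀ P ∈ PP, P.card ≤ 2 * σ * (P.card / σ) := fun P h =>
    le_two_div hσ1 (hσ2.trans ((hmono (by omega)).trans (hP P h).2))
  set GG := Gd.filter fun P => ∀ t ≤ T, P.card / σ ≤ 2 * ((Jt t).filter fun u => u.1 = P).card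
    with hGG
  have hGG1 : GG ⊆ Gd := filter_subset _ _
  have hbad : 2 * B * ∑ P ∈ PP \ Gd, P.card ≤ J.card := by
    have a1 : ∑ P ∈ PP \ Gd, P.card ≤ 2 * ∑ P ∈ PP \ Gd, (P \ X).card := by
      rw [mul_sum]
      refine sum_le_sum fun P h => ?_
      have b1 : ¬ P.card ≤ 2 * (P ∩ X).card := fun h' =>
        (mem_sdiff.1 h).2 (mem_filter.2 ⟨(mem_sdiff.1 h).1, h'⟩)
      have b2 := card_sdiff_add_card_inter P X
      omega
    have a2 : ∑ P ∈ PP \ Gd, (P \ X).card ≤ (J \ X).card := by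
      rw [← card_biUnion]
      · exact card_le_card (biUnion_subset.2 fun P h =>
          sdiff_subset_sdiff (hP P (mem_sdiff.1 h).1).1 subset_rfl)
      · exact fun P h1 Q h2 hne => (hpd P (mem_sdiff.1 h1).1 Q (mem_sdiff.1 h2).1 hne).mono
          sdiff_subset sdiff_subset
    calc _ ≤ 2 * B * (2 * (J \ X).card) := Nat.mul_le_mul_left _ (by omega)
      _ = 4 * B * (J \ X).card := by ring
      _ ≤ _ := hXc
  have hJ₀c : σ * J₀.card ≤ J.card := by
    refine le_trans ?_ (card_le_card (hunJ _ hGP))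
    rw [hJ₀, card_nodes, card_un (pd_mono hpd hGP), mul_sum]
    exact sum_le_sum fun P _ => Nat.mul_div_le _ _
  have hbad2 : 2 * B * ∑ P ∈ Gd \ GG, P.card ≤ J.card := by
    have a1 : ∀ P ∈ Gd \ GG, P.card ≤
        4 * σ * ∑ t ∈ range (T + 1), ((J₀ \ Jt t).filter fun u => u.1 = P).card := by
      intro P h
      obtain ⟨h1, h2⟩ := mem_sdiff.1 h
      have b1 : ¬ ∀ t ≤ T, P.card / σ ≤ 2 * ((Jt t).filter fun u => u.1 = P).card := fun h' =>
        h2 (mem_filter.2 ⟨h1, h'⟩)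
      push Not at b1
      obtain ⟨t, ht, b1⟩ := b1
      have b2 : (J₀.filter fun u => u.1 = P) ⊆
          ((J₀ \ Jt t).filter fun u => u.1 = P) ∪ (Jt t).filter fun u => u.1 = P := by
        intro u hu
        simp only [mem_union, mem_filter, mem_sdiff] at hu ⊢
        tauto
      have b3 := (card_le_card b2).trans (card_union_le _ _)
      rw [hJ₀, fib_nodes h1, ← hJ₀] at b3
      have b4 := single_le_sum (f := fun t => ((J₀ \ Jt t).filter fun u => u.1 = P).card)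
        (fun _ _ => Nat.zero_le _) (mem_range.2 (show t < T + 1 by omega))
      calc _ ≤ 2 * σ * (P.card / σ) := hkP P (hGP h1)
        _ ≤ 2 * σ * (2 * ∑ t ∈ range (T + 1), ((J₀ \ Jt t).filter fun u => u.1 = P).card) :=
          Nat.mul_le_mul_left _ (by omega)
        _ = _ := by ring
    have a2 : ∑ P ∈ Gd \ GG, P.card ≤ 4 * σ * ∑ t ∈ range (T + 1), (J₀ \ Jt t).card := by
      refine (sum_le_sum a1).trans ?_
      rw [← mul_sum, sum_comm]
      exact Nat.mul_le_mul_left _ (sum_le_sum fun t _ => sum_fib_le _ _)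
    have a3 : 8 * B * (T + 1) * ∑ t ∈ range (T + 1), (J₀ \ Jt t).card ≤ (T + 1) * J₀.card := by
      rw [mul_sum]
      refine (sum_le_sum fun t ht => hL.lose t (Nat.le_of_lt_succ (mem_range.1 ht))).trans ?_
      simp
    refine Nat.le_of_mul_le_mul_left ?_ (Nat.succ_pos T)
    calc _ ≤ (T + 1) * (2 * B * (4 * σ * ∑ t ∈ range (T + 1), (J₀ \ Jt t).card)) := by gcongr
      _ = σ * (8 * B * (T + 1) * ∑ t ∈ range (T + 1), (J₀ \ Jt t).card) := by ring
      _ ≤ σ * ((T + 1) * J₀.card) := Nat.mul_le_mul_left _ a3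
      _ = (T + 1) * (σ * J₀.card) := by ring
      _ ≤ _ := Nat.mul_le_mul_left _ hJ₀c
  have hBX : ∀ t ≤ T, (Jt t).biUnion (Bs t) ⊆ X := fun t ht => biUnion_subset.2 (hL.fam t ht).sub
  have hXU : ∀ a ∈ X, ∀ t ≤ T + 1, a ∉ cls (un PP) col t := fun a ha t ht h =>
    (mem_sdiff.1 (hX ha)).2 (mem_filter.2 ⟨(mem_filter.1 h).1, (mem_filter.1 h).2 ▸ ht⟩)
  have hcls : ∀ t, cls (un GG) col t ⊆ cls (un PP) col t := fun t =>
    filter_subset_filter _ (biUnion_subset_biUnion_of_subset_left _ (hGG1.trans hGP))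
  refine ⟨fun t => (Jt t).biUnion (Bs t) ∪ cls (un PP) col t, GG, (Jt 0).image (π 0),
    hGG1.trans hGP, ?_, fun t ht => ⟨?_, (hcls t).trans subset_union_right⟩, ?_, ?_, ?_, ?_⟩
  · rw [card_un (pd_mono hpd sdiff_subset)]
    have a1 : PP \ GG = (PP \ Gd) ∪ (Gd \ GG) := (sdiff_union_sdiff_cancel hGP hGG1).symm
    have a2 := sum_union_inter (s₁ := PP \ Gd) (s₂ := Gd \ GG) (f := fun P => P.card)
    rw [a1]
    have a3 : ∑ P ∈ (PP \ Gd) ∪ (Gd \ GG), P.card ≤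
        ∑ P ∈ PP \ Gd, P.card + ∑ P ∈ Gd \ GG, P.card := by omega
    nlinarith
  · intro a ha
    rcases mem_union.1 ha with h | h
    · exact mem_sdiff.2 ⟨hXJ (hBX t ht h), hXU a (hBX t ht h) _ le_rfl⟩
    · refine mem_sdiff.2 ⟨hunJ _ subset_rfl (mem_filter.1 h).1, fun h' => ?_⟩
      have := (mem_filter.1 h).2
      have := (mem_filter.1 h').2
      omega
  · intro t ht t' ht' hne
    refine disjoint_left.2 fun a h1 h2 => ?_
    rcases mem_union.1 h1 with h1 | h1 <;> rcases mem_union.1 h2 with h2 | h2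
    · obtain ⟨u, hu, h1⟩ := mem_biUnion.1 h1
      obtain ⟨v, hv, h2⟩ := mem_biUnion.1 h2
      exact disjoint_left.1 (hL.cross t ht t' ht' hne u hu v hv) h1 h2
    · exact hXU a (hBX t ht h1) t' (by omega) h2
    · exact hXU a (hBX t' ht' h2) t (by omega) h1
    · exact hne ((mem_filter.1 h1).2.symm.trans (mem_filter.1 h2).2)
  · intro a ha
    obtain ⟨u, hu, rfl⟩ := mem_image.1 ha
    exact mem_union_left _ (mem_biUnion.2 ⟨u, hu, (hL.port 0 (Nat.zero_le _) u hu).2⟩)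
  · rw [card_image_of_injOn (port_inj (hL.fam 0 (Nat.zero_le _))
      fun u hu => (hL.port 0 (Nat.zero_le _) u hu).2)]
    have a1 := hL.lose 0 (Nat.zero_le _)
    have a2 := card_sdiff_add_card_eq_card (hL.sub 0 (Nat.zero_le _))
    have a3 : 2 * (J₀ \ Jt 0).card ≤ J₀.card :=
      le_trans (Nat.mul_le_mul_right _ (by nlinarith)) a1
    have a4 : J₀.card ≤ 2 * (Jt 0).card := by omega
    have a5 : ∑ P ∈ Gd, P.card ≤ 2 * σ * J₀.card := by
      rw [hJ₀, card_nodes, mul_sum]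
      exact sum_le_sum fun P h => hkP P (hGP h)
    have a6 := sum_sdiff (f := fun P => P.card) hGP
    rw [card_un hpd, ← a6] at hun
    have a7 : J.card ≤ 2 * B * ∑ P ∈ Gd, P.card := by nlinarith
    calc _ ≤ 2 * B * (2 * B ^ (15 * c + 3) * (2 * (Jt 0).card)) :=
          a7.trans (Nat.mul_le_mul_left _ (a5.trans (by gcongr)))
      _ = 8 * B ^ (15 * c + 4) * (Jt 0).card := by ring
      _ ≤ _ := Nat.mul_le_mul_right _ ((pw (i := 3) hB (by norm_num)).trans (hmono (by omega)))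
  · intro t ht
    have hle := sg_le (g := T * w) (Θ := Θ) (PP := PP) (F := J \ U) hm
    refine wl_of (π := π t) (Bs := Bs t) (GG := GG) br hm hd hpd (fun P h => (hP P h).1)
      (fun P h => hI P h t ht) subset_union_right hΘ (hL.deg.mono (hL.sub t ht)) (hL.wl t ht)
      (by omega) hσ1
      ⟨fun u hu => (subset_biUnion_of_mem _ hu).trans subset_union_left,
        fun u hu => ((hL.fam t ht).conn u hu).mono' fun x y h _ _ => hle h, (hL.fam t ht).disj⟩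
      (hL.port t ht) ?_ (hGG1.trans hGP) ?_ ?_ ?_
    · intro u hu v hv h
      obtain ⟨x, hx, y, hy, hxy⟩ := hL.touch t ht u hu v hv h
      exact ⟨x, hx, y, hy, hle hxy⟩
    · intro P h
      calc _ ≤ 2 * σ * (P.card / σ) := hkP P (hGP (hGG1 h))
        _ ≤ 2 * σ * (2 * ((Jt t).filter fun u => u.1 = P).card) :=
          Nat.mul_le_mul_left _ ((mem_filter.1 h).2 t ht)
        _ = _ := by ring
    · intro a
      refine Nat.add_le_add (Nat.mul_le_mul_left _ ?_) ?_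
      · unfold ind
        split_ifs with h1 h2
        · exact le_rfl
        · exact absurd (mem_filter.1 h1).1 h2
        · exact Nat.zero_le _
        · exact le_rfl
      · split_ifs with h
        · subst h
          exact Nat.mul_le_mul_right _ (Nat.le_mul_of_pos_left _ hT)
        · exact Nat.zero_le _
    · rw [mul_pow]
      refine Nat.mul_le_mul ?_ (Nat.pow_le_pow_right hΘ (by omega))
      calc _ ≤ 130 * B ^ (15 * c + 3) * (3 * B) ^ 2 := by gcongr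
        _ = 1170 * B ^ (15 * c + 5) := by ring
        _ ≤ _ := (pw (i := 11) hB (by norm_num)).trans (hmono (by omega))

end Pool.Agent.MP_35cb46_co.Nl

end
end MrgPart2

-- ======== part 3: formerly Pool.Agent.MP_35cb46_co.nl.Struct
section MrgPart3

/-! PROJECT NL, row STRUCT: few sinks that receive many disjoint paths from the terminals. -/

noncomputable section

namespace Pool.Agent.MP_35cb46_co.Nl

open Finset Pool.Agent.MP_7be75d_co Pool.Agent.MP_35cb46_co.Sq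
open scoped Classical

namespace StructP

section Gen

variable {κ : Type} {w w' : κ → κ → ℕ} {τ β : κ → ℕ} {X Z A W : Finset κ} {K K' B : ℕ}

lemma mem_un {D : Finset (Finset κ)} {v : κ} : v ∈ un D ↔ ∃ C ∈ D, v ∈ C := by
  simp [un]

lemma mem_sd {v : κ} : v ∈ X \ W ↔ v ∈ X ∧ v ∉ W := mem_sdiff

lemma ts_mono (h : A ⊆ W) : ts τ A ≤ ts τ W := sum_le_sum_of_subset h

lemma cw_le_of_le (h : ∀ a b, w' a b ≤ w a b) : cw w' A W ≤ cw w A W :=
  sum_le_sum fun a _ => sum_le_sum fun b _ => h a b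

lemma wl_mono (h : WL w' Z β K') (hw : ∀ a b, w' a b ≤ w a b) (hτ : ∀ v ∈ Z, τ v ≤ β v)
    (hK : K' ≤ K) : WL w Z τ K := fun A hA => by
  refine le_trans (min_le_min ?_ ?_) ((h A hA).trans (Nat.mul_le_mul hK (cw_le_of_le hw)))
  · exact sum_le_sum fun v hv => hτ v (hA hv)
  · exact sum_le_sum fun v hv => hτ v (mem_sdiff.1 hv).1

lemma wl_single (c : κ) : WL w {c} τ K := fun A hA => by
  rcases subset_singleton_iff.1 hA with rfl | rfl
  · simp [ts]
  · simp [ts]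

lemma ts_ind (T A : Finset κ) : ts (ind T) A = (A.filter fun a => a ∈ T).card := by
  rw [ts, card_filter]; rfl

lemma ts_ind_of_subset {T : Finset κ} (h : T ⊆ A) : ts (ind T) A = T.card := by
  rw [ts_ind]
  congr 1
  ext a
  simp only [mem_filter]
  exact ⟨fun h' => h'.2, fun h' => ⟨h h', h'⟩⟩

/-- Rounding multiplies the boundary by at most `K`. -/
lemma round_out (hr : Nl.RoundStmt) {D : Finset (Finset κ)} (hw : Sy w) (hK : 1 ≤ K) (hD : PD D)
    (h : ∀ Z ∈ D, Z ⊆ X ∧ WL w Z (fun v => τ v + cw w {v} (X \ Z)) K) (hA : A ⊆ X) :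
    ∃ W ⊆ X, Resp D W ∧ (∀ Z ∈ D, Z ⊆ A → Z ⊆ W) ∧ out w τ X W ≤ K * out w τ X A := by
  obtain ⟨W, h1, h2, h3, -, h5⟩ := hr κ w w τ X D K hw (fun _ _ => le_rfl) hK hD h A hA
  refine ⟨W, h1, h2, h3, ?_⟩
  have h6 : ts τ W ≤ ts τ (W \ A) + ts τ A := by
    have h7 : ts τ (W \ (W ∩ A)) + ts τ (W ∩ A) = ts τ W := sum_sdiff inter_subset_left
    have h8 : ts τ (W ∩ A) ≤ ts τ A := ts_mono inter_subset_right
    rw [sdiff_inter_self_left] at h7
    omega
  have h9 : ts τ A ≤ K * ts τ A := Nat.le_mul_of_pos_left _ hK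
  unfold out
  rw [mul_add]
  omega

lemma round_out' (hr : Nl.RoundStmt) {D : Finset (Finset κ)} (hw : Sy w) (hK : 1 ≤ K) (hD : PD D)
    (hβ : ∀ v ∈ X, β v = cw w {v} X + τ v) (h : ∀ Z ∈ D, Z ⊆ X ∧ WL w Z β K) (hA : A ⊆ X) :
    ∃ W ⊆ X, Resp D W ∧ (∀ Z ∈ D, Z ⊆ A → Z ⊆ W) ∧ out w τ X W ≤ K * out w τ X A := by
  refine round_out hr hw hK hD (fun Z hZ => ⟨(h Z hZ).1,
    wl_mono (h Z hZ).2 (fun _ _ => le_rfl) (fun v hv => ?_) le_rfl⟩) hA
  have h1 : cw w {v} (X \ Z) ≤ cw w {v} X := cw_mono subset_rfl sdiff_subset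
  rw [hβ v ((h Z hZ).1 hv)]
  omega

/-- A set whose complement is sparse has a large boundary. -/
lemma full_out (hw : Sy w) (hB : 2 ≤ B) (hβ : ∀ v ∈ X, β v = cw w {v} X + τ v)
    (hτ : ∀ v ∈ X, τ v ≤ B * cw w {v} X) (hW : W ⊆ X)
    (h : ∀ S ⊆ X, Disjoint S W → 6 * B * cw w S S ≤ ts β S) :
    ts τ X ≤ 2 * B * out w τ X W := by
  have h1 := h (X \ W) sdiff_subset sdiff_disjoint
  have h2 : ts β (X \ W) = cw w (X \ W) X + ts τ (X \ W) := by
    rw [cw_eq_sum, ts, ts, ← sum_add_distrib]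
    exact sum_congr rfl fun v hv => hβ v (mem_sdiff.1 hv).1
  have h3 : ts τ (X \ W) ≤ B * cw w (X \ W) X := by
    rw [cw_eq_sum, ts, mul_sum]
    exact sum_le_sum fun v hv => hτ v (mem_sdiff.1 hv).1
  have h4 := cw_sdiff_right (w := w) (A := X \ W) hW
  have h5 : ts τ (X \ W) + ts τ W = ts τ X := sum_sdiff hW
  rw [cw_comm hw (X \ W) W] at h4
  unfold out
  rw [h2] at h1
  rw [← h4] at h1 h3
  rw [← h5]
  generalize cw w (X \ W) (X \ W) = a at *
  generalize cw w W (X \ W) = x at *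
  generalize ts τ (X \ W) = y at *
  generalize ts τ W = z at *
  obtain ⟨B, rfl⟩ := Nat.exists_eq_add_of_le hB
  have h6 : a ≤ x := by
    by_contra hc
    have h7 : x ≤ a := by omega
    have h8 : B * x ≤ B * a := Nat.mul_le_mul_left _ h7
    nlinarith
  have h7 : B * a ≤ B * x := Nat.mul_le_mul_left _ h6
  nlinarith [Nat.zero_le (B * z)]

end Gen

section Part

variable {V : Type} {G : SimpleGraph V} {X T : Finset V} {PP W W' : Finset (Finset V)}

lemma sy_ew : Sy (ew G) := fun a b => by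
  unfold ew
  by_cases h : a = b
  · simp [h]
  · rw [if_neg h, if_neg (Ne.symm h), cw_comm aw_comm]

lemma sub_of_mem (hP : Sq.Part G X PP) {C : Finset V} (hC : C ∈ PP) : C ⊆ X := fun v hv => by
  rw [← hP.un]
  exact mem_biUnion.2 ⟨C, hC, hv⟩

lemma exists_mem (hP : Sq.Part G X PP) {v : V} (hv : v ∈ X) : ∃ C ∈ PP, v ∈ C := by
  rw [← hP.un] at hv
  exact mem_biUnion.1 hv

lemma eq_of_mem (hP : Sq.Part G X PP) {C C' : Finset V} {v : V} (hC : C ∈ PP) (hC' : C' ∈ PP)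
    (hv : v ∈ C) (hv' : v ∈ C') : C = C' := by
  by_contra h
  exact disjoint_left.1 (hP.disj C hC C' hC' h) hv hv'

lemma sum_un (hP : Sq.Part G X PP) (hW : W ⊆ PP) (f : V → ℕ) :
    ∑ v ∈ un W, f v = ∑ C ∈ W, ∑ v ∈ C, f v :=
  sum_biUnion fun C hC C' hC' h => hP.disj C (hW hC) C' (hW hC') h

lemma ts_un (hP : Sq.Part G X PP) (hW : W ⊆ PP) (τ : V → ℕ) : ts (ts τ) W = ts τ (un W) :=
  (sum_un hP hW τ).symm

lemma cw_un (hP : Sq.Part G X PP) (hW : W ⊆ PP) (hW' : W' ⊆ PP) (hd : ∀ C ∈ W, C ∉ W') :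
    cw (ew G) W W' = cw (aw G) (un W) (un W') := by
  have h1 : ∀ C : Finset V, cw (aw G) C (un W') = ∑ C' ∈ W', cw (aw G) C C' := fun C => by
    rw [cw_comm aw_comm, cw, sum_un hP hW']
    exact sum_congr rfl fun C' _ => cw_comm aw_comm C' C
  rw [cw, cw, sum_un hP hW]
  refine sum_congr rfl fun C hC => ?_
  change _ = cw (aw G) C (un W')
  rw [h1]
  exact sum_congr rfl fun C' hC' => if_neg fun e : C = C' => hd C hC (e ▸ hC')

lemma un_compl (hP : Sq.Part G X PP) (hW : W ⊆ PP) (h : ∀ C, C ∈ W' ↔ C ∈ PP ∧ C ∉ W) :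
    un W' = X \ un W := by
  ext v
  rw [mem_sdiff, mem_un, mem_un]
  constructor
  · rintro ⟨C, hC, hv⟩
    obtain ⟨h1, h2⟩ := (h C).1 hC
    refine ⟨sub_of_mem hP h1 hv, ?_⟩
    rintro ⟨C', hC', hv'⟩
    exact h2 (eq_of_mem hP h1 (hW hC') hv hv' ▸ hC')
  · rintro ⟨h1, h2⟩
    obtain ⟨C, hC, hv⟩ := exists_mem hP h1
    exact ⟨C, (h C).2 ⟨hC, fun hW => h2 ⟨C, hW, hv⟩⟩, hv⟩

lemma cw_compl (hP : Sq.Part G X PP) (hW : W ⊆ PP) (h : ∀ C, C ∈ W' ↔ C ∈ PP ∧ C ∉ W) :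
    cw (ew G) W W' = cw (aw G) (un W) (X \ un W) := by
  rw [cw_un hP hW (fun C hC => ((h C).1 hC).1) (fun C hC hC' => ((h C).1 hC').2 hC),
    un_compl hP hW h]

lemma out_un (hP : Sq.Part G X PP) (hW : W ⊆ PP) (τ : V → ℕ) :
    out (ew G) (ts τ) PP W = out (aw G) τ X (un W) := by
  unfold out
  rw [ts_un hP hW, cw_compl hP hW fun C => mem_sd]

lemma cw_single (hP : Sq.Part G X PP) {C : Finset V} (hC : C ∈ PP) :
    cw (ew G) {C} PP = cw (aw G) C (X \ C) := by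
  have h1 : un ({C} : Finset (Finset V)) = C := by simp [un]
  have h2 : ({C} : Finset (Finset V)) ⊆ PP := singleton_subset_iff.2 hC
  have h3 := cw_sdiff_right (w := ew G) (A := {C}) h2
  have h4 : cw (ew G) {C} {C} = 0 := by simp [cw, ew]
  rw [h4, add_zero, cw_compl hP h2 (fun C => mem_sd), h1] at h3
  exact h3.symm

lemma bo_eq (hP : Sq.Part G X PP) {C : Finset V} (hC : C ∈ PP) :
    bo G X T C = cw (ew G) {C} PP + ts (ind T) C := by
  rw [cw_single hP hC]; rfl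

lemma un_all (hP : Sq.Part G X PP) : un PP = X := hP.un

lemma vol_le [Fintype V] (hd : Deg G univ 6) (hP : Sq.Part G X PP) (hW : W ⊆ PP) :
    ts (bo G X T) W ≤ 7 * Fintype.card V := by
  have h1 : ∀ C : Finset V, bo G X T C ≤ ∑ _v ∈ C, 7 := fun C => by
    have h2 := hd.cw_le (subset_univ C) (subset_univ (X \ C))
    have h3 : ts (ind T) C ≤ C.card := by
      rw [ts_ind]; exact card_filter_le _ _
    rw [sum_const, smul_eq_mul]
    unfold bo out
    omega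
  refine (sum_le_sum fun C _ => h1 C).trans ?_
  rw [← sum_un hP hW, sum_const, smul_eq_mul, mul_comm]
  exact Nat.mul_le_mul_left _ (card_le_univ _)

/-- A set of vertices that splits no cluster is a union of clusters. -/
lemma exists_un (hP : Sq.Part G X PP) {A : Finset V} (hA : A ⊆ X) (h : Resp PP A) :
    ∃ W ⊆ PP, un W = A ∧ ∀ C ∈ PP, C ⊆ A → C ∈ W := by
  refine ⟨PP.filter fun C => C ⊆ A, filter_subset _ _, ?_, fun C h1 h2 => mem_filter.2 ⟨h1, h2⟩⟩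
  ext v
  rw [mem_un]
  constructor
  · rintro ⟨C, hC, hv⟩
    exact (mem_filter.1 hC).2 hv
  · intro hv
    obtain ⟨C, hC, hv'⟩ := exists_mem hP (hA hv)
    rcases h C hC with h1 | h1
    · exact ⟨C, mem_filter.2 ⟨hC, h1⟩, hv'⟩
    · exact (disjoint_left.1 h1 hv' hv).elim

end Part

lemma le_two_mul_div {a d : ℕ} (hd : 0 < d) (h : d ≤ a) : a ≤ 2 * d * (a / d) := by
  have h1 := Nat.lt_mul_div_succ a hd
  have h2 : d * 1 ≤ d * (a / d) := Nat.mul_le_mul_left _ ((Nat.le_div_iff_mul_le hd).2 (by omega))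
  have h3 : 2 * d * (a / d) = d * (a / d) + d * (a / d) := by ring
  rw [mul_add] at h1
  omega

lemma pow_big {b : ℕ} (hb : 2 ≤ b) : 2048 * b ^ 5 ≤ b ^ 16 := by
  have h1 : 2 ^ 11 ≤ b ^ 11 := Nat.pow_le_pow_left hb 11
  calc 2048 * b ^ 5 = 2 ^ 11 * b ^ 5 := by norm_num
    _ ≤ b ^ 11 * b ^ 5 := Nat.mul_le_mul_right _ h1
    _ = b ^ 16 := by ring

end StructP

open StructP in
theorem struct (clu : CluStmt) (clb : ClbStmt) (expf : ExpfStmt) (sink : SinkStmt)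
    (round : Nl.RoundStmt) (link2 : Link2Stmt) : StructStmt := by
  refine ⟨16, fun V _ G X T B b Λ A M g ρ hd hΛ hX hT hwl htg hgt hΛB hB hBb hA hAb hM hMb hρ hg => ?_⟩
  have hb : 2 ≤ b := hB.trans hBb
  have hbig := pow_big hb
  have hb2 : b ^ 2 ≤ b ^ 5 := Nat.pow_le_pow_right (by omega) (by norm_num)
  have hb20 : 4 ≤ b ^ 2 := by nlinarith
  have hBB : B * B ≤ b ^ 2 := by rw [sq]; exact Nat.mul_le_mul hBb hBb
  have hρ0 : 0 < ρ := by omega
  have hρρ : ρ ≤ g := le_trans (by nlinarith) hg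
  -- the scales
  obtain ⟨g₁, hg₁⟩ : ∃ g₁, g₁ = g / ρ := ⟨_, rfl⟩
  rw [← hg₁]
  obtain ⟨τ₁, hτ₁⟩ : ∃ τ₁, τ₁ = g₁ / M := ⟨_, rfl⟩
  rw [← hτ₁]
  obtain ⟨t, ht⟩ : ∃ t, t = T.card := ⟨_, rfl⟩
  rw [← ht] at htg hgt
  have e1 : ρ ≤ g₁ := by rw [hg₁, Nat.le_div_iff_mul_le hρ0, ← sq]; exact hg
  have e2 : 4 * B * g₁ ≤ t := by
    have h1 : g₁ * ρ ≤ g := hg₁ ▸ Nat.div_mul_le_self g ρ
    have h2 : g₁ * (4 * (B * B)) ≤ g₁ * ρ := Nat.mul_le_mul_left _ (by omega)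
    refine Nat.le_of_mul_le_mul_left ?_ (show 0 < B by omega)
    calc B * (4 * B * g₁) = g₁ * (4 * (B * B)) := by ring
      _ ≤ B * t := h2.trans (h1.trans hgt)
  have e3 : 8 * g₁ ≤ t := le_trans (Nat.mul_le_mul_right _ (by omega)) e2
  have e4 : t ≤ Fintype.card V := ht ▸ card_le_univ _
  have e5 : 6 ≤ Λ := by
    by_contra hc
    have : 2 ^ Λ ≤ 2 ^ 5 := Nat.pow_le_pow_right (by norm_num) (by omega)
    omega
  have e6 : 2 * τ₁ ≤ g₁ := by
    have h1 : τ₁ * M ≤ g₁ := hτ₁ ▸ Nat.div_mul_le_self g₁ M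
    have h2 : τ₁ * 2 ≤ τ₁ * M := Nat.mul_le_mul_left _ hM
    omega
  have hA1 : 2 ≤ A := by nlinarith
  have hTn : T.Nonempty := card_pos.1 (by omega)
  -- the clustering and the expanders
  obtain ⟨PP, hC⟩ := clu V G X T g₁ A Λ hd hX hT hTn (by omega) (by omega) (by omega)
  have hP := hC.part
  obtain ⟨-, -, -, c4, c5⟩ := clb V G X T g₁ A Λ PP hC (by omega) (by omega)
  obtain ⟨U, hU⟩ : ∃ U : Finset (Finset V), ∀ C, C ∈ U ↔ C ∈ PP ∧ bo G X T C ≤ τ₁ :=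
    ⟨PP.filter fun C => bo G X T C ≤ τ₁, fun C => mem_filter⟩
  have hUP : U ⊆ PP := fun C h => ((hU C).1 h).1
  obtain ⟨ZZ, sd, z1, z2, z3⟩ := expf (Finset V) (ew G) (bo G X T) U (6 * B) (Λ + 1) sy_ew
    (fun a => if_pos rfl) (by omega) (by
      have := vol_le (T := T) hd hP hUP
      rw [pow_succ]
      omega)
  obtain ⟨K, hK⟩ : ∃ K, K = 28 * B * Λ := ⟨_, rfl⟩
  rw [← hK] at hA ⊢
  have hK1 : 1 ≤ K := by rw [hK]; nlinarith
  have hZ : ∀ Z ∈ ZZ, ZOk G X T PP sd K τ₁ Z := fun Z h =>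
    ⟨(z2 Z h).1.trans hUP, (z2 Z h).2.1,
      wl_mono (z2 Z h).2.2 (fun _ _ => le_rfl) (fun _ _ => le_rfl) (by rw [hK]; nlinarith),
      fun u hu => ((hU u).1 ((z2 Z h).1 hu)).2⟩
  -- the blocks
  obtain ⟨D, hD⟩ : ∃ D : Finset (Finset (Finset V)), ∀ Z, Z ∈ D ↔
      (∃ C ∈ PP, C ∉ U ∧ {C} = Z) ∨ Z ∈ ZZ := by
    refine ⟨(PP.filter fun C => C ∉ U).image singleton ∪ ZZ, fun Z => ?_⟩
    simp only [mem_union, mem_image, mem_filter, and_assoc]
  have d1 : PD D := by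
    intro Z h Z' h' hne
    rcases (hD Z).1 h with ⟨C, -, h1, rfl⟩ | h1 <;> rcases (hD Z').1 h' with ⟨C', -, h2, rfl⟩ | h2
    · exact disjoint_singleton.2 fun e => hne (by rw [e])
    · exact disjoint_singleton_left.2 fun e => h1 ((z2 _ h2).1 e)
    · exact disjoint_singleton_right.2 fun e => h2 ((z2 _ h1).1 e)
    · exact z1 Z h1 Z' h2 hne
  have d2 : ∀ Z ∈ D, Z ⊆ PP ∧ Z.Nonempty := by
    intro Z h
    rcases (hD Z).1 h with ⟨C, h0, -, rfl⟩ | h1
    · exact ⟨singleton_subset_iff.2 h0, singleton_nonempty C⟩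
    · exact ⟨(hZ Z h1).sub, card_pos.1 (by have := (hZ Z h1).two; omega)⟩
  have d3 : ∀ Z ∈ D, Z ⊆ PP ∧ WL (ew G) Z (bo G X T) K := by
    intro Z h
    refine ⟨(d2 Z h).1, ?_⟩
    rcases (hD Z).1 h with ⟨C, -, -, rfl⟩ | h1
    · exact wl_single C
    · refine wl_mono (hZ Z h1).wl (fun a c => ?_) (fun _ _ => le_rfl) le_rfl
      unfold bip
      split_ifs
      · exact Nat.zero_le _
      · exact le_rfl
  have d4 : ∀ Z ∈ D, τ₁ + 1 ≤ ts (bo G X T) Z := by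
    intro Z h
    rcases (hD Z).1 h with ⟨C, h0, h1, rfl⟩ | h1
    · have h2 : ¬ bo G X T C ≤ τ₁ := fun h3 => h1 ((hU C).2 ⟨h0, h3⟩)
      rw [ts, sum_singleton]
      omega
    · have := (c5 sd K τ₁ Z (hZ Z h1) hA e6).1
      omega
  have hβ : ∀ C ∈ PP, bo G X T C = cw (ew G) {C} PP + ts (ind T) C := fun C h => bo_eq hP h
  have hTX : ts (ind T) X = t := ht ▸ ts_ind_of_subset hT
  have hτ : ∀ C ∈ PP, ts (ind T) C ≤ B * cw (ew G) {C} PP := by
    intro C h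
    have h1 := hwl C (sub_of_mem hP h)
    have h2 : ts (ind T) (X \ C) + ts (ind T) C = ts (ind T) X := sum_sdiff (sub_of_mem hP h)
    have h3 := hC.le C h
    rw [hβ C h] at h3
    rw [cw_single hP h]
    rwa [min_eq_left (by omega)] at h1
  -- the sinks
  obtain ⟨l, hl⟩ : ∃ l, l = (τ₁ + 2) / 2 := ⟨_, rfl⟩
  obtain ⟨F, hF⟩ : ∃ F, F = t / (4 * B) := ⟨_, rfl⟩
  have f1 : g₁ ≤ F := by rw [hF, Nat.le_div_iff_mul_le (by omega), mul_comm]; exact e2
  have f2 : F * (4 * B) ≤ t := hF ▸ Nat.div_mul_le_self t _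
  obtain ⟨S, s1, s2, s3⟩ := sink (Finset V) (ew G) (ts (ind T)) PP D l F sy_ew d1 d2 (by omega)
    (by omega) (fun W hW _ ⟨Z, h1, h2⟩ => by
      have h3 := c4 hA1 W hW
      have h4 := (d4 Z h1).trans (ts_mono h2)
      omega) (fun W hW h1 => by
      have h2 := full_out (β := bo G X T) sy_ew hB hβ hτ hW fun S hS hSW =>
        z3 S fun C hCS => by
          have h3 : C ∉ W := disjoint_left.1 hSW hCS
          refine mem_sd.2 ⟨?_, fun h4 => ?_⟩
          · by_contra h4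
            exact h3 (h1 {C} ((hD _).2 (Or.inl ⟨C, hS hCS, h4, rfl⟩)) (mem_singleton_self C))
          · obtain ⟨Z, h5, h6⟩ := mem_un.1 h4
            exact h3 (h1 Z ((hD Z).2 (Or.inr h5)) h6)
      rw [ts_un hP subset_rfl, un_all hP, hTX] at h2
      refine Nat.le_of_mul_le_mul_left ?_ (show 0 < 2 * B by omega)
      calc 2 * B * (2 * F) = F * (4 * B) := by ring
        _ ≤ _ := f2.trans h2)
  obtain ⟨S₁, hS₁, k1⟩ : ∃ S₁ : Finset (Finset V), (∀ C, C ∈ S₁ ↔ C ∈ PP ∧ {C} ∈ S) ∧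
      S₁.card ≤ S.card :=
    ⟨PP.filter fun C => {C} ∈ S, fun C => mem_filter, card_le_card_of_injOn singleton
      (fun C h => (mem_filter.1 (mem_coe.1 h)).2) fun _ _ _ _ h => singleton_injective h⟩
  obtain ⟨S₂, hS₂, k2⟩ : ∃ S₂ : Finset (Finset (Finset V)), (∀ Z, Z ∈ S₂ ↔ Z ∈ S ∧ Z ∈ ZZ) ∧
      S₂.card ≤ S.card :=
    ⟨S.filter fun Z => Z ∈ ZZ, fun Z => mem_filter, card_filter_le _ _⟩
  -- the paths
  obtain ⟨K₁, hK₁⟩ : ∃ K₁, K₁ = 14 * A * Λ := ⟨_, rfl⟩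
  have hK₁1 : 1 ≤ K₁ := by rw [hK₁]; nlinarith
  have hKK : 0 < K * K₁ := Nat.mul_pos hK1 hK₁1
  have hKb : K * K₁ * (B * B) ≤ 14 * b ^ 5 := by
    have h1 : K₁ ≤ 14 * b * b :=
      hK₁ ▸ Nat.mul_le_mul (Nat.mul_le_mul_left _ hAb) (hΛB.trans hBb)
    calc K * K₁ * (B * B) ≤ b * (14 * b * b) * b ^ 2 :=
        Nat.mul_le_mul (Nat.mul_le_mul (by omega) h1) hBB
      _ = 14 * b ^ 5 := by ring
  obtain ⟨m, hm⟩ : ∃ m, m = F / (7 * (K * K₁)) := ⟨_, rfl⟩
  have m1 : m * (7 * (K * K₁)) ≤ F := hm ▸ Nat.div_mul_le_self F _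
  have m2 : 7 * (K * K₁) ≤ F := by
    have h1 : K * K₁ ≤ K * K₁ * (B * B) := Nat.le_mul_of_pos_right _ (by positivity)
    omega
  have hSV : ∀ C ∈ S₁ ∪ un S₂, C ∈ PP := fun C h => by
    rcases mem_union.1 h with h1 | h1
    · exact ((hS₁ C).1 h1).1
    · obtain ⟨Z, h2, h3⟩ := mem_un.1 h1
      exact (hZ Z ((hS₂ Z).1 h2).2).sub h3
  obtain ⟨s, e, Q, hQ⟩ := link2 V G X T (un (S₁ ∪ un S₂)) m hd hT
    (fun v hv => by
      obtain ⟨C, h1, h2⟩ := mem_un.1 hv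
      exact sub_of_mem hP (hSV C h1) h2) (fun A' hA' hSA => by
      obtain ⟨W₁, w1, w2, w3, w4⟩ := round_out (τ := ind T) round aw_comm hK₁1 hP.disj
        (fun C h => ⟨sub_of_mem hP h, wl_mono (hC.wl C h) (fun _ _ => le_rfl)
          (fun v _ => (add_comm _ _).le) hK₁.ge⟩) hA'
      obtain ⟨WW, u1, rfl, u3⟩ := exists_un hP w1 w2
      obtain ⟨W₂, v1, v2, v3, v4⟩ := round_out' round sy_ew hK1 d1 hβ d3 u1
      have h1 : ∀ C ∈ S₁ ∪ un S₂, C ∈ WW := fun C h => u3 C (hSV C h)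
        (w3 C (hSV C h) fun v hv => hSA (mem_un.2 ⟨C, h, hv⟩))
      have h2 := s3 W₂ v1 v2 fun Z h => v3 Z (s1 h) (by
        rcases (hD Z).1 (s1 h) with ⟨C, h3, -, rfl⟩ | h3
        · exact singleton_subset_iff.2 (h1 C (mem_union_left _ ((hS₁ C).2 ⟨h3, h⟩)))
        · exact fun C hCZ => h1 C (mem_union_right _ (mem_un.2 ⟨Z, (hS₂ Z).2 ⟨h, h3⟩, hCZ⟩)))
      rw [out_un hP u1] at v4
      refine Nat.le_of_mul_le_mul_left ?_ hKK
      calc K * K₁ * (7 * m) = m * (7 * (K * K₁)) := by ring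
        _ ≤ K * (K₁ * out (aw G) (ind T) X A') :=
          m1.trans (h2.trans (v4.trans (Nat.mul_le_mul_left _ w4)))
        _ = _ := by ring)
  refine ⟨PP, S₁, S₂, sd, m, s, e, Q, hC, fun C h => ((hS₁ C).1 h).1,
    fun Z h Z' h' => z1 Z ((hS₂ Z).1 h).2 Z' ((hS₂ Z').1 h').2,
    fun Z h => hZ Z ((hS₂ Z).1 h).2, ?_, ?_, hQ⟩
  · have h1 : g ≤ 2 * ρ * g₁ := hg₁ ▸ le_two_mul_div hρ0 hρρ
    have h2 : g₁ < M * (τ₁ + 1) := hτ₁ ▸ Nat.lt_mul_div_succ g₁ (by omega)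
    have h3 : M * (τ₁ + 1) ≤ b * (2 * l) := Nat.mul_le_mul hMb (by omega)
    have h4 : F ≤ t := hF ▸ Nat.div_le_self _ _
    have h5 : F ≤ 2 * ρ * (b * (2 * l)) :=
      h4.trans (htg.trans (h1.trans (Nat.mul_le_mul_left _ (h2.le.trans h3))))
    have h6 : S.card * l ^ 2 ≤ 240 * b ^ 2 * ρ ^ 2 * l ^ 2 :=
      calc S.card * l ^ 2 ≤ 15 * F ^ 2 := s2
        _ ≤ 15 * (2 * ρ * (b * (2 * l))) ^ 2 := Nat.mul_le_mul_left _ (Nat.pow_le_pow_left h5 2)
        _ = _ := by ring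
    have h7 := Nat.le_of_mul_le_mul_right h6 (pow_pos (by omega) 2)
    have h8 : 480 * b ^ 2 * ρ ^ 2 ≤ b ^ 16 * ρ ^ 2 := Nat.mul_le_mul_right _ (by omega)
    have h9 : 480 * b ^ 2 * ρ ^ 2 = 2 * (240 * b ^ 2 * ρ ^ 2) := by ring
    omega
  · have h1 : F ≤ 2 * (7 * (K * K₁)) * m := hm ▸ le_two_mul_div (by omega) m2
    have h2 : t ≤ 2 * (4 * B) * F := by
      refine hF ▸ le_two_mul_div (by omega) (le_trans ?_ e2)
      exact Nat.le_mul_of_pos_right _ (by omega)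
    calc g ≤ B * (2 * (4 * B) * (2 * (7 * (K * K₁)) * m)) :=
        hgt.trans (Nat.mul_le_mul_left _ (h2.trans (Nat.mul_le_mul_left _ h1)))
      _ = 112 * (K * K₁ * (B * B)) * m := by ring
      _ ≤ b ^ 16 * m := Nat.mul_le_mul_right _ (by omega)

end Pool.Agent.MP_35cb46_co.Nl

end
end MrgPart3

-- marker of a merged file
example : 731051 + 753548 = 731051 + 753548 := rfl
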