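import Pool.Agent.MP_35cb46_co.nl.Havq
import Pool.Agent.MP_35cb46_co.nl.Cut
import Pool.Agent.MP_35cb46_co.nl.Clb
import Pool.Agent.MP_35cb46_co.nl.Zpart
import Pool.Agent.MP_35cb46_co.nl.Dec
import Pool.Agent.MP_35cb46_co.nl.Done
import Pool.Agent.MP_35cb46_co.nl.Mc
import Pool.Agent.MP_35cb46_co.nl.Emb
import Pool.Agent.MP_35cb46_co.nl.Group
import Pool.Agent.MP_35cb46_co.nl.Route
import Pool.Agent.MP_35cb46_co.nl.Top
import Pool.Agent.MP_35cb46_co.nl.Samp
import Pool.Agent.MP_35cb46_co.nl.Struct
import Pool.Agent.MP_35cb46_co.nl.Trim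

/-! PROJECT NL: the rows put together. -/

namespace Pool.Agent.MP_35cb46_co.Nl

theorem main : FinalStmt :=
  have hcomp := comp round
  have hnetc := netc hcomp
  have hexpf := expf dec
  have hpatr := patr trim
  have hcol := col cheeg mc cher fib
  have hemb := emb (route cheeg)
  have hclb := clb hcomp
  have hcolz := colz hclb hcol
  have hgame := game (boost group pick) (prep core group pick link ext) (play Sq.cm trim ext)
  have hopen := opn (struct clu hclb hexpf sink round link2) (openA ext) (openB hclb hcolz)
  have hiter := iter (done trim pat hpatr br hemb hnetc haven)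
    (down1 dec hcol hopen (router trim pat hpatr br hemb) hnetc) down2
  fin (piece term clu haven hexpf hclb hcolz hgame hiter (zpart hclb partn link) (samp karg) abs
    havq)

end Pool.Agent.MP_35cb46_co.Nl
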