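import Pool.Agent.MP_35cb46_co.nl.Spec
import Mathlib.Data.ZMod.Basic
import Pool.Agent.MP_35cb46_co.nl.DoneA

-- ======== part 0: formerly Pool.Agent.MP_35cb46_co.nl.Sink
section MrgPart0

/-! PROJECT NL, row SINK: few blocks already force a large boundary. -/

noncomputable section

namespace Pool.Agent.MP_35cb46_co.Nl

open Finset Pool.Agent.MP_7be75d_co Pool.Agent.MP_35cb46_co.Sq
open scoped Classical

namespace SinkP

variable {κ : Type} {w : κ → κ → ℕ} {τ : κ → ℕ} {X A B W : Finset κ} {D S : Finset (Finset κ)}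

theorem out_eq (hW : W ⊆ X) : out w τ X W = ∑ a ∈ X,
    ((∑ b ∈ X, if a ∈ W ∧ b ∉ W then w a b else 0) + if a ∈ W then τ a else 0) := by
  have h1 : ∀ g : κ → ℕ, ∑ a ∈ W, g a = ∑ a ∈ X, if a ∈ W then g a else 0 := fun g => by
    rw [← sum_filter, filter_mem_eq_inter, inter_eq_right.2 hW]
  rw [sum_add_distrib, out, cw, ts, h1, h1]
  congr 1
  refine sum_congr rfl fun a _ => ?_
  by_cases ha : a ∈ W
  · simp only [ha, if_true, true_and]
    rw [← sum_filter, sdiff_eq_filter]
  · simp [ha]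

/-- The boundary is submodular. -/
theorem submod (hA : A ⊆ X) (hB : B ⊆ X) :
    out w τ X (A ∪ B) + out w τ X (A ∩ B) ≤ out w τ X A + out w τ X B := by
  rw [out_eq (union_subset hA hB), out_eq (inter_subset_left.trans hA), out_eq hA, out_eq hB,
    ← sum_add_distrib, ← sum_add_distrib]
  refine sum_le_sum fun a _ => ?_
  have h : (∑ b ∈ X, if a ∈ A ∪ B ∧ b ∉ A ∪ B then w a b else 0) +
      (∑ b ∈ X, if a ∈ A ∩ B ∧ b ∉ A ∩ B then w a b else 0) ≤
      (∑ b ∈ X, if a ∈ A ∧ b ∉ A then w a b else 0) +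
      (∑ b ∈ X, if a ∈ B ∧ b ∉ B then w a b else 0) := by
    rw [← sum_add_distrib, ← sum_add_distrib]
    refine sum_le_sum fun b _ => ?_
    by_cases h1 : a ∈ A <;> by_cases h2 : a ∈ B <;> by_cases h3 : b ∈ A <;> by_cases h4 : b ∈ B <;>
      simp [h1, h2, h3, h4]
  have h' : ((if a ∈ A ∪ B then τ a else 0) + if a ∈ A ∩ B then τ a else 0) =
      (if a ∈ A then τ a else 0) + if a ∈ B then τ a else 0 := by
    by_cases h1 : a ∈ A <;> by_cases h2 : a ∈ B <;> simp [h1, h2]
  omega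

theorem resp_union (hA : Resp D A) (hB : Resp D B) : Resp D (A ∪ B) := fun Z hZ => by
  rcases hA Z hZ with h | h
  · exact Or.inl (h.trans subset_union_left)
  · rcases hB Z hZ with h' | h'
    · exact Or.inl (h'.trans subset_union_right)
    · exact Or.inr (disjoint_union_right.2 ⟨h, h'⟩)

theorem resp_inter (hA : Resp D A) (hB : Resp D B) : Resp D (A ∩ B) := fun Z hZ => by
  rcases hA Z hZ with h | h
  · rcases hB Z hZ with h' | h'
    · exact Or.inl (subset_inter h h')
    · exact Or.inr (h'.mono_right inter_subset_right)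
  · exact Or.inr (h.mono_right inter_subset_left)

theorem resp_sdiff (hA : Resp D A) (hB : Resp D B) : Resp D (A \ B) := fun Z hZ => by
  rcases hA Z hZ with h | h
  · rcases hB Z hZ with h' | h'
    · exact Or.inr (disjoint_sdiff.mono_left h')
    · exact Or.inl (subset_sdiff.2 ⟨h, h'⟩)
  · exact Or.inr (h.mono_right sdiff_subset)

/-- Removing a piece `A \ B` from `A`. -/
theorem piece (hw : Sy w) (hA : A ⊆ X) (hB : B ⊆ A) :
    out w τ X (A \ B) + out w τ X A = out w τ X B + 2 * (cw w (A \ B) (X \ A) + ts τ (A \ B)) := by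
  have e1 : X \ (A \ B) = (X \ A) ∪ B := by
    ext x
    have := @hA x
    have := @hB x
    simp only [mem_sdiff, mem_union]
    tauto
  have e2 : X \ B = (X \ A) ∪ (A \ B) := by
    ext x
    have := @hA x
    have := @hB x
    simp only [mem_sdiff, mem_union]
    tauto
  have d1 : Disjoint (X \ A) B := sdiff_disjoint.mono_right hB
  have d2 : Disjoint (X \ A) (A \ B) := sdiff_disjoint.mono_right sdiff_subset
  have h1 : cw w (A \ B) (X \ A) + cw w B (X \ A) = cw w A (X \ A) := cw_sdiff_left hB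
  have h2 : ts τ (A \ B) + ts τ B = ts τ A := sum_sdiff hB
  have h3 : cw w (A \ B) B = cw w B (A \ B) := cw_comm hw _ _
  simp only [out]
  rw [e1, e2, cw_union_right d1, cw_union_right d2]
  omega

/-- The sets that compete for `S`. -/
def Ok (X : Finset κ) (D S : Finset (Finset κ)) (W : Finset κ) : Prop :=
  W ⊆ X ∧ Resp D W ∧ ∀ Z ∈ S, Z ⊆ W

theorem unions {V : Finset κ → Finset κ} {m l : ℕ} (hW : Ok X D S W)
    (hmin : ∀ W', Ok X D S W' → out w τ X W ≤ out w τ X W')
    (hV : ∀ d ∈ D, Ok X D S (V d) ∧ m * out w τ X (V d) ≤ m * out w τ X W + l) :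
    ∀ T ⊆ D, Ok X D S (W ∪ T.biUnion V) ∧
      m * out w τ X (W ∪ T.biUnion V) ≤ m * out w τ X W + T.card * l := by
  intro T
  induction T using Finset.induction_on with
  | empty => intro _; simpa using hW
  | insert d T hd ih =>
    intro hT
    obtain ⟨⟨a1, a2, a3⟩, a4⟩ := ih ((subset_insert _ _).trans hT)
    obtain ⟨⟨b1, b2, b3⟩, b4⟩ := hV d (hT (mem_insert_self _ _))
    have e : W ∪ (insert d T).biUnion V = (W ∪ T.biUnion V) ∪ V d := by
      rw [biUnion_insert, union_comm (V d), union_assoc]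
    rw [e, card_insert_of_notMem hd]
    refine ⟨⟨union_subset a1 b1, resp_union a2 b2, fun Z hZ => (a3 Z hZ).trans subset_union_left⟩,
      ?_⟩
    have h1 := submod (w := w) (τ := τ) a1 b1
    have h2 := hmin _ ⟨inter_subset_left.trans a1, resp_inter a2 b2,
      fun Z hZ => subset_inter (a3 Z hZ) (b3 Z hZ)⟩
    have h3 := Nat.mul_le_mul_left m h1
    have h4 := Nat.mul_le_mul_left m h2
    rw [mul_add, mul_add] at h3
    rw [add_mul, one_mul]
    omega

/-- Below `F` some block raises the smallest boundary by `l / (2 m)`. -/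
theorem step {l F m : ℕ} (hw : Sy w) (hlF : l ≤ F) (hm : 4 * F + 2 * l ≤ m * l)
    (h1 : ∀ W ⊆ X, Resp D W → (∃ Z ∈ D, Z ⊆ W) → l ≤ out w τ X W)
    (h2 : ∀ W ⊆ X, (∀ Z ∈ D, Z ⊆ W) → 2 * F ≤ out w τ X W) (hW : Ok X D S W)
    (hmin : ∀ W', Ok X D S W' → out w τ X W ≤ out w τ X W') (hF : out w τ X W < F) :
    ∃ d ∈ D, ∀ W', Ok X D (insert d S) W' → 2 * m * out w τ X W + l ≤ 2 * m * out w τ X W' := by
  by_contra hc
  push Not at hc
  choose! V hV1 hV2 using hc
  have hm0 : 0 < m := by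
    rcases Nat.eq_zero_or_pos m with h | h
    · subst h; omega
    · exact h
  have hU := unions (m := 2 * m) (l := l) (V := V) hW hmin fun d hd =>
    ⟨⟨(hV1 d hd).1, (hV1 d hd).2.1, fun Z hZ => (hV1 d hd).2.2 Z (mem_insert_of_mem hZ)⟩,
      (hV2 d hd).le⟩
  -- at most `m` sets raise the boundary by at most `l / 2`
  have hhalf : ∀ T ⊆ D, T.card ≤ m → 2 * out w τ X (W ∪ T.biUnion V) ≤ 2 * out w τ X W + l := by
    intro T hT hc
    have a := (hU T hT).2
    have b := Nat.mul_le_mul_right l hc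
    refine Nat.le_of_mul_le_mul_left ?_ hm0
    rw [mul_add, ← mul_assoc, ← mul_assoc, mul_comm m 2]
    omega
  -- a smallest covering family
  obtain ⟨T, hT, hTmin⟩ := exists_min_image
    (D.powerset.filter fun T => ∀ Z ∈ D, Z ⊆ W ∪ T.biUnion V) card
    ⟨D, mem_filter.2 ⟨mem_powerset_self _, fun Z hZ =>
      (((hV1 Z hZ).2.2 Z (mem_insert_self _ _)).trans (subset_biUnion_of_mem V hZ)).trans
        subset_union_right⟩⟩
  obtain ⟨hTD, hcov⟩ := mem_filter.1 hT
  rw [mem_powerset] at hTD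
  rcases le_total T.card m with hc | hc
  · have a := hhalf T hTD hc
    have b := h2 _ (hU T hTD).1.1 hcov
    omega
  obtain ⟨T', hT', hc'⟩ := exists_subset_card_eq hc
  have hT'D : T' ⊆ D := hT'.trans hTD
  set U := W ∪ T'.biUnion V with hUdef
  have hsub : ∀ i, W ∪ (T'.erase i).biUnion V ⊆ U := fun i =>
    union_subset_union_right (biUnion_subset_biUnion_of_subset_left _ (erase_subset _ _))
  have hin : ∀ i, U \ (W ∪ (T'.erase i).biUnion V) ⊆ V i := by
    intro i x hx
    obtain ⟨a, b⟩ := mem_sdiff.1 hx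
    rw [mem_union, not_or] at b
    rcases mem_union.1 a with a | a
    · exact absurd a b.1
    · obtain ⟨j, hj, a⟩ := mem_biUnion.1 a
      by_cases e : j = i
      · exact e ▸ a
      · exact absurd (mem_biUnion.2 ⟨j, mem_erase.2 ⟨e, hj⟩, a⟩) b.2
  have hz : ∀ i ∈ T', l ≤ 4 * (cw w (U \ (W ∪ (T'.erase i).biUnion V)) (X \ U) +
      ts τ (U \ (W ∪ (T'.erase i).biUnion V))) := by
    intro i hi
    have hiT := hT' hi
    have hE : T.erase i ⊆ D := (erase_subset _ _).trans hTD
    have hE' : T'.erase i ⊆ D := (erase_subset _ _).trans hT'D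
    -- a private block
    obtain ⟨Z, hZ, hZn⟩ : ∃ Z ∈ D, ¬ Z ⊆ W ∪ (T.erase i).biUnion V := by
      by_contra hn
      push Not at hn
      have := hTmin _ (mem_filter.2 ⟨mem_powerset.2 hE, hn⟩)
      have := card_erase_lt_of_mem hiT
      omega
    have hd : Disjoint Z (W ∪ (T.erase i).biUnion V) := ((hU _ hE).1.2.1 Z hZ).resolve_left hZn
    have hZU : Z ⊆ U := by
      intro x hx
      have b := disjoint_left.1 hd hx
      rw [mem_union, not_or] at b
      rcases mem_union.1 (hcov Z hZ hx) with a | a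
      · exact absurd a b.1
      · obtain ⟨j, hj, a⟩ := mem_biUnion.1 a
        by_cases e : j = i
        · exact mem_union_right _ (mem_biUnion.2 ⟨i, hi, e ▸ a⟩)
        · exact absurd (mem_biUnion.2 ⟨j, mem_erase.2 ⟨e, hj⟩, a⟩) b.2
    have hZa : Z ⊆ U \ (W ∪ (T'.erase i).biUnion V) := subset_sdiff.2 ⟨hZU, hd.mono_right
      (union_subset_union_right (biUnion_subset_biUnion_of_subset_left _
        (erase_subset_erase _ hT')))⟩
    have a := h1 _ (sdiff_subset.trans (hU _ hT'D).1.1)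
      (resp_sdiff (hU _ hT'D).1.2.1 (hU _ hE').1.2.1) ⟨Z, hZ, hZa⟩
    have b := piece (τ := τ) hw (hU _ hT'D).1.1 (hsub i)
    have c := hmin _ (hU _ hT'D).1
    have d := hhalf _ hE' ((card_le_card (erase_subset _ _)).trans hc'.le)
    rw [← hUdef] at a b c
    omega
  have hdis : (T' : Set (Finset κ)).PairwiseDisjoint
      fun i => U \ (W ∪ (T'.erase i).biUnion V) := by
    intro i hi j _ hij
    refine Disjoint.mono_left (hin i) (disjoint_sdiff.mono_left ?_)
    exact (subset_biUnion_of_mem V (mem_erase.2 ⟨hij, hi⟩)).trans subset_union_right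
  have hsum : ∑ i ∈ T', (cw w (U \ (W ∪ (T'.erase i).biUnion V)) (X \ U) +
      ts τ (U \ (W ∪ (T'.erase i).biUnion V))) ≤ out w τ X U := by
    have hb : (T'.biUnion fun i => U \ (W ∪ (T'.erase i).biUnion V)) ⊆ U :=
      biUnion_subset.2 fun i _ => sdiff_subset
    rw [sum_add_distrib, out]
    refine add_le_add ?_ ?_
    · simp only [cw]
      rw [← sum_biUnion hdis]
      exact sum_le_sum_of_subset hb
    · simp only [ts]
      rw [← sum_biUnion hdis]
      exact sum_le_sum_of_subset hb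
  have a := sum_le_sum hz
  rw [sum_const, smul_eq_mul, hc', ← mul_sum] at a
  have b := hhalf _ hT'D hc'.le
  rw [← hUdef] at b
  omega

theorem greedy {l F m : ℕ} (hw : Sy w) (hD : ∀ Z ∈ D, Z ⊆ X) (hlF : l ≤ F)
    (hm : 4 * F + 2 * l ≤ m * l)
    (h1 : ∀ W ⊆ X, Resp D W → (∃ Z ∈ D, Z ⊆ W) → l ≤ out w τ X W)
    (h2 : ∀ W ⊆ X, (∀ Z ∈ D, Z ⊆ W) → 2 * F ≤ out w τ X W) (k : ℕ) :
    ∃ S ⊆ D, S.card ≤ k ∧ ∀ W, Ok X D S W → min (2 * m * F) (k * l) ≤ 2 * m * out w τ X W := by
  induction k with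
  | zero => exact ⟨∅, empty_subset _, le_rfl, fun W _ => by simp⟩
  | succ k ih =>
    obtain ⟨S, hS, hc, h⟩ := ih
    obtain ⟨W, hW, hmin⟩ := exists_min_image (X.powerset.filter (Ok X D S)) (out w τ X)
      ⟨X, mem_filter.2 ⟨mem_powerset_self _, subset_rfl, fun Z hZ => Or.inl (hD Z hZ),
        fun Z hZ => hD Z (hS hZ)⟩⟩
    have hW' := (mem_filter.1 hW).2
    have hmin' : ∀ W', Ok X D S W' → out w τ X W ≤ out w τ X W' := fun W' h' =>
      hmin W' (mem_filter.2 ⟨mem_powerset.2 h'.1, h'⟩)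
    rcases Nat.lt_or_ge (out w τ X W) F with hF | hF
    · obtain ⟨d, hd, hs⟩ := step hw hlF hm h1 h2 hW' hmin' hF
      refine ⟨insert d S, insert_subset hd hS, (card_insert_le _ _).trans (by omega),
        fun W' h' => ?_⟩
      have a := hs W' h'
      have b := h W hW'
      rw [add_mul, one_mul]
      omega
    · exact ⟨S, hS, by omega, fun W' h' => (min_le_left _ _).trans
        (Nat.mul_le_mul_left _ (hF.trans (hmin' W' h')))⟩

end SinkP

/-- Row SINK. -/
theorem sink : SinkStmt := by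
  intro κ w τ X D l F hw _ hD hl hlF h1 h2
  have hl0 : 0 < l := hl
  set m := 4 * F / l + 3 with hm
  have m1 : m * l ≤ 4 * F + 3 * l := by
    rw [hm, add_mul]
    exact Nat.add_le_add_right (Nat.div_mul_le_self _ _) _
  have m2 : 4 * F + 2 * l ≤ m * l := by
    have := Nat.lt_div_mul_add (a := 4 * F) hl0
    rw [hm, add_mul]
    omega
  obtain ⟨S, hS, hc, h⟩ := SinkP.greedy hw (fun Z hZ => (hD Z hZ).1) hlF m2 h1 h2
    (2 * m * F / l + 1)
  have k1 : (2 * m * F / l + 1) * l ≤ 2 * m * F + l := by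
    rw [add_mul, one_mul]
    exact Nat.add_le_add_right (Nat.div_mul_le_self _ _) _
  have k2 : 2 * m * F ≤ (2 * m * F / l + 1) * l := by
    have := Nat.lt_div_mul_add (a := 2 * m * F) hl0
    rw [add_mul, one_mul]
    omega
  refine ⟨S, hS, ?_, fun W hW hR hZ => ?_⟩
  · calc S.card * l ^ 2 ≤ (2 * m * F / l + 1) * l ^ 2 := Nat.mul_le_mul_right _ hc
      _ = (2 * m * F / l + 1) * l * l := by ring
      _ ≤ (2 * m * F + l) * l := Nat.mul_le_mul_right _ k1
      _ = 2 * F * (m * l) + l * l := by ring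
      _ ≤ 2 * F * (4 * F + 3 * F) + F * F :=
        Nat.add_le_add (Nat.mul_le_mul_left _ (by omega)) (Nat.mul_le_mul hlF hlF)
      _ = 15 * F ^ 2 := by ring
  · have a := h W ⟨hW, hR, hZ⟩
    rw [min_eq_left k2] at a
    exact Nat.le_of_mul_le_mul_left a (Nat.mul_pos two_pos (Nat.succ_pos _))

end Pool.Agent.MP_35cb46_co.Nl

end
end MrgPart0

-- ======== part 1: formerly Pool.Agent.MP_35cb46_co.nl.Trim
section MrgPart1

/-! PROJECT NL, row TRIM: trimming, pattern expanders, branch sets. -/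

noncomputable section

namespace Pool.Agent.MP_35cb46_co.Nl

open Finset Pool.Agent.MP_7be75d_co Pool.Agent.MP_35cb46_co.Sq
open scoped Classical

namespace TrimP

variable {κ : Type} {w : κ → κ → ℝ} {A A' B B' : Finset κ}

theorem rw_nonneg (h : ∀ a b, 0 ≤ w a b) (A B : Finset κ) : 0 ≤ rw w A B :=
  sum_nonneg fun _ _ => sum_nonneg fun _ _ => h _ _

theorem rw_mono (h : ∀ a b, 0 ≤ w a b) (A : Finset κ) (hB : B ⊆ B') : rw w A B ≤ rw w A B' :=
  sum_le_sum fun _ _ => sum_le_sum_of_subset_of_nonneg hB fun _ _ _ => h _ _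

theorem rw_comm (h : ∀ a b, w a b = w b a) (A B : Finset κ) : rw w A B = rw w B A := by
  unfold rw
  rw [sum_comm]
  exact sum_congr rfl fun _ _ => sum_congr rfl fun _ _ => h _ _

theorem rw_union (h : Disjoint A A') : rw w (A ∪ A') B = rw w A B + rw w A' B := sum_union h

/-- shifts of a finite set identified with a cyclic group -/
theorem exists_shift {ι : Type} (J : Finset ι) (n : ℕ) (h : J.card = n + 1) :
    ∃ sh : ZMod (n + 1) → ι → ι, (∀ t, ∀ a ∈ J, sh t a ∈ J) ∧ (∀ a ∈ J, sh 0 a = a) ∧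
      (∀ s t, ∀ a ∈ J, sh (s + t) a = sh t (sh s a)) ∧ ∀ a ∈ J, ∀ b ∈ J, ∃ t, sh t a = b := by
  have e : J ≃ ZMod (n + 1) := Fintype.equivOfCardEq (by simp [h])
  refine ⟨fun t a => if ha : a ∈ J then (e.symm (e ⟨a, ha⟩ + t) : ι) else a,
    fun t a ha => ?_, fun a ha => ?_, fun s t a ha => ?_, fun a ha b hb => ?_⟩
  · simp [ha]
  · simp [ha]
  · simp [ha, add_assoc]
  · exact ⟨e ⟨b, hb⟩ - e ⟨a, ha⟩, by simp [ha]⟩

end TrimP

open TrimP

theorem trim : TrimStmt := by
  intro κ w X φ s hs hw hX h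
  by_cases h0 : s ≤ 1 ∨ φ ≤ 0
  · refine ⟨∅, empty_subset _, Nat.zero_le _, fun _ => rfl, fun S hS h2 => ?_⟩
    rw [sdiff_empty] at hS h2 ⊢
    have h3 := rw_nonneg hw S (X \ S)
    rcases h0 with h0 | h0
    · rcases S.eq_empty_or_nonempty with rfl | hne
      · simpa using h3
      · have := h S hS (h0.trans hne.card_pos) h2
        linarith
    · have := mul_nonpos_of_nonpos_of_nonneg h0 (Nat.cast_nonneg (α := ℝ) S.card)
      linarith
  push Not at h0
  obtain ⟨h1, hφ⟩ := h0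
  have h4 : 4 * s ≤ X.card := hX.resolve_right (by omega)
  obtain ⟨A, ⟨hA, hA1, hA2⟩, hmax⟩ := exists_max_of (p := fun A : Finset κ =>
    A ⊆ X ∧ 2 * A.card ≤ X.card ∧ 2 * rw w A (X \ A) ≤ φ * A.card) card X.card
    (fun A hA => card_le_card hA.1) ⟨∅, empty_subset _, by simp, by simp [rw]⟩
  have hlt : A.card < s := by
    by_contra hc
    push Not at hc
    have h2 := h A hA hc hA1
    have h3 : (0 : ℝ) < A.card := by exact_mod_cast (by omega : 0 < A.card)
    have := mul_pos hφ h3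
    linarith
  refine ⟨A, hA, hlt.le, fun _ => by omega, fun S hS h2 => ?_⟩
  by_contra hc
  push Not at hc
  have hne : 0 < S.card := by
    rcases S.eq_empty_or_nonempty with rfl | hne
    · simp [rw] at hc
    · exact hne.card_pos
  have hd : Disjoint A S := (subset_sdiff.1 hS).2.symm
  have hsub : A ∪ S ⊆ X := union_subset hA (subset_sdiff.1 hS).1
  have e : X \ (A ∪ S) = (X \ A) \ S := by rw [sdiff_union_distrib]; ext; simp; tauto
  have hcard := card_union_of_disjoint hd
  have key : 2 * rw w (A ∪ S) (X \ (A ∪ S)) < φ * (A ∪ S).card := by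
    rw [rw_union hd, hcard, e]
    have := rw_mono hw A (sdiff_subset (s := X \ A) (t := S))
    push_cast
    linarith
  by_cases h5 : 2 * (A ∪ S).card ≤ X.card
  · have := hmax _ ⟨hsub, h5, key.le⟩
    omega
  have c1 := card_sdiff_add_card_eq_card hsub
  have c2 := card_sdiff_add_card_eq_card hA
  have h6 := h (X \ (A ∪ S)) sdiff_subset (by omega) (by omega)
  rw [Finset.sdiff_sdiff_eq_self hsub, rw_comm hs] at h6
  have h7 : ((A ∪ S).card : ℝ) ≤ 2 * (X \ (A ∪ S)).card := by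
    exact_mod_cast (by omega : (A ∪ S).card ≤ 2 * (X \ (A ∪ S)).card)
  have := mul_le_mul_of_nonneg_left h7 hφ.le
  linarith

theorem pat : PatStmt := by
  intro ι J Λ hJ
  rcases Nat.eq_zero_or_pos J.card with h0 | h0
  · rw [card_eq_zero] at h0
    subst h0
    exact ⟨⊥, fun v hv => absurd hv (notMem_empty _), fun A hA => by
      rw [subset_empty.1 hA]; simp [ts]⟩
  obtain ⟨n, hn⟩ : ∃ n, J.card = n + 1 := ⟨J.card - 1, by omega⟩
  obtain ⟨sh, h1, h2, h3, h4⟩ := exists_shift J n hn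
  let Γ : SimpleGraph ι := SimpleGraph.fromRel fun a b => ∃ i < Λ, sh (2 ^ i : ℕ) a = b
  refine ⟨Γ, fun v hv => ?_, fun A hA => ?_⟩
  · have hs : (J.filter fun u => Γ.Adj v u) ⊆ (range Λ).image (fun i => sh (2 ^ i : ℕ) v) ∪
        (range Λ).image fun i => sh (-((2 ^ i : ℕ) : ZMod (n + 1))) v := by
      intro u hu
      obtain ⟨hu, -, ⟨i, hi, e⟩ | ⟨i, hi, e⟩⟩ := mem_filter.1 hu
      · exact mem_union_left _ (mem_image.2 ⟨i, mem_range.2 hi, e⟩)
      · refine mem_union_right _ (mem_image.2 ⟨i, mem_range.2 hi, ?_⟩)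
        rw [← e, ← h3 _ _ _ hu, add_neg_cancel, h2 _ hu]
    have a1 := card_image_le (s := range Λ) (f := fun i => sh (2 ^ i : ℕ) v)
    have a2 := card_image_le (s := range Λ)
      (f := fun i => sh (-((2 ^ i : ℕ) : ZMod (n + 1))) v)
    have a3 := (card_le_card hs).trans (card_union_le _ _)
    rw [card_range] at a1 a2
    have a4 : (J.filter fun u => Γ.Adj v u).card ≤ 2 * Λ + 2 := by omega
    convert a4
  obtain ⟨E, hE⟩ : ∃ E, E = cw (aw Γ) A (J \ A) := ⟨_, rfl⟩
  let c : ZMod (n + 1) → ℕ := fun t => (A.filter fun a => sh t a ∉ A).card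
  have inj : ∀ t, Set.InjOn (sh t) J := fun t a ha b hb e => by
    rw [← h2 a ha, ← h2 b hb, ← add_neg_cancel t, h3 _ _ _ ha, h3 _ _ _ hb, e]
  have sub : ∀ s t, c (s + t) ≤ c s + c t := by
    intro s t
    have b1 : (A.filter fun a => sh (s + t) a ∉ A) ⊆ (A.filter fun a => sh s a ∉ A) ∪
        A.filter fun a => sh s a ∈ A ∧ sh t (sh s a) ∉ A := by
      intro a ha
      obtain ⟨ha, ha'⟩ := mem_filter.1 ha
      rw [h3 _ _ _ (hA ha)] at ha'
      by_cases hc : sh s a ∈ A
      · exact mem_union_right _ (mem_filter.2 ⟨ha, hc, ha'⟩)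
      · exact mem_union_left _ (mem_filter.2 ⟨ha, hc⟩)
    have b2 : (A.filter fun a => sh s a ∈ A ∧ sh t (sh s a) ∉ A).card ≤ c t :=
      card_le_card_of_injOn (sh s) (fun a ha => mem_filter.2 (mem_filter.1 ha).2)
        fun a ha b hb => inj s (hA (mem_filter.1 ha).1) (hA (mem_filter.1 hb).1)
    exact (card_le_card b1).trans ((card_union_le _ _).trans (Nat.add_le_add_left b2 _))
  have gen : ∀ i < Λ, c (2 ^ i : ℕ) ≤ E := by
    intro i hi
    rw [hE, cw]
    refine (card_filter _ _).trans_le (sum_le_sum fun a ha => ?_)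
    split_ifs with hc
    · exact Nat.zero_le _
    · have hadj : Γ.Adj a (sh (2 ^ i : ℕ) a) :=
        (SimpleGraph.fromRel_adj _ _ _).2 ⟨fun e => hc (e ▸ ha), Or.inl ⟨i, hi, rfl⟩⟩
      have := single_le_sum (f := aw Γ a) (s := J \ A) (fun _ _ => Nat.zero_le _)
        (mem_sdiff.2 ⟨h1 _ a (hA ha), hc⟩)
      rwa [aw, if_pos hadj] at this
  have all : ∀ L ≤ Λ, ∀ m < 2 ^ L, c (m : ℕ) ≤ L * E := by
    intro L
    induction L with
    | zero =>
      intro _ m hm
      obtain rfl : m = 0 := by omega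
      have : c 0 = 0 := card_eq_zero.2 (filter_eq_empty_iff.2 fun a ha => by
        rw [h2 a (hA ha)]; exact not_not.2 ha)
      simp [this]
    | succ L ih =>
      intro hL m hm
      rw [pow_succ] at hm
      rw [add_mul, one_mul]
      by_cases hc : m < 2 ^ L
      · exact (ih (by omega) m hc).trans (Nat.le_add_right _ _)
      · obtain ⟨m', rfl⟩ : ∃ m', m = m' + 2 ^ L := ⟨m - 2 ^ L, by omega⟩
        rw [Nat.cast_add]
        exact (sub _ _).trans (Nat.add_le_add (ih (by omega) m' (by omega)) (gen L (by omega)))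
  have up : ∑ t, c t ≤ (n + 1) * (Λ * E) := by
    refine (sum_le_card_nsmul _ _ (Λ * E) fun t _ => ?_).trans_eq (by simp)
    have := all Λ le_rfl t.val ((ZMod.val_lt t).trans_le (hn ▸ hJ))
    rwa [ZMod.natCast_zmod_val] at this
  have low : A.card * (J \ A).card ≤ ∑ t, c t := by
    simp only [c, card_filter]
    rw [sum_comm]
    refine le_of_eq_of_le (by simp) (card_nsmul_le_sum A _ (J \ A).card fun a ha => ?_)
    rw [← card_filter]
    refine le_trans (card_le_card fun b hb => ?_) (card_image_le (f := fun t => sh t a))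
    obtain ⟨t, ht⟩ := h4 a (hA ha) b (mem_sdiff.1 hb).1
    exact mem_image.2 ⟨t, mem_filter.2 ⟨mem_univ _, ht ▸ (mem_sdiff.1 hb).2⟩, ht⟩
  have c1 := card_sdiff_add_card_eq_card hA
  rw [ts_const, ts_const, mul_one, mul_one, ← hE]
  refine Nat.le_of_mul_le_mul_left (c := n + 1) ?_ (Nat.succ_pos n)
  have h5 := low.trans up
  rw [← hn, ← c1] at h5 ⊢
  generalize A.card = x at h5 ⊢
  generalize (J \ A).card = y at h5 ⊢
  rcases le_total x y with h | h
  · rw [min_eq_left h]; nlinarith [Nat.zero_le ((y + x) * E)]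
  · rw [min_eq_right h]; nlinarith [Nat.zero_le ((y + x) * E)]

theorem patr (ht : TrimStmt) : PatrStmt := by
  intro ι Γ J Bd d K hd hwl hB h1 hK hc
  have hK' : (0 : ℝ) < K := by exact_mod_cast hK
  have c1 := card_sdiff_add_card_eq_card hB
  have c2 : Bd.card ≤ d * K * Bd.card := Nat.le_mul_of_pos_left _ (Nat.mul_pos h1 hK)
  obtain ⟨A, hA, hA1, -, hA2⟩ := ht ι (fun a b => (aw Γ a b : ℝ)) (J \ Bd) (1 / (2 * K))
    (2 * (d * K * Bd.card)) (fun a b => by rw [aw_comm]) (fun a b => Nat.cast_nonneg _)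
    (Or.inl (by nlinarith)) (by
      intro S hS h2 h3
      have hSJ : S ⊆ J := hS.trans sdiff_subset
      have h4 := hwl S hSJ
      have c3 := card_sdiff_add_card_eq_card hSJ
      rw [ts_const, ts_const, mul_one, mul_one, min_eq_left (by omega)] at h4
      have h5 : cw (aw Γ) S (J \ S) ≤ cw (aw Γ) S ((J \ Bd) \ S) + Bd.card * d := by
        refine (cw_mono subset_rfl (B' := ((J \ Bd) \ S) ∪ Bd) fun x hx => ?_).trans
          (cw_union_right_le.trans (Nat.add_le_add_left ?_ _))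
        · simp only [mem_union, mem_sdiff] at hx ⊢
          tauto
        · rw [cw_comm fun a b => aw_comm a b]
          exact hd.cw_le hB hSJ
      have h6 : S.card ≤ 2 * K * cw (aw Γ) S ((J \ Bd) \ S) := by
        have := Nat.mul_le_mul_left K h5
        nlinarith
      rw [← cast_cw, div_mul_eq_mul_div, one_mul, div_le_iff₀ (by positivity), mul_comm]
      exact_mod_cast h6)
  have key : ∀ S ⊆ (J \ Bd) \ A, 2 * S.card ≤ ((J \ Bd) \ A).card →
      S.card ≤ 4 * K * cw (aw Γ) S (((J \ Bd) \ A) \ S) := by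
    intro S hS h2
    have h3 := hA2 S hS h2
    rw [← cast_cw, div_mul_eq_mul_div, one_mul, div_le_iff₀ (by positivity)] at h3
    have h4 : (S.card : ℝ) ≤ 4 * K * cw (aw Γ) S (((J \ Bd) \ A) \ S) := by linarith
    exact_mod_cast h4
  refine ⟨(J \ Bd) \ A, sdiff_subset, ?_, fun S hS => ?_⟩
  · have c3 := card_sdiff_add_card_eq_card hA
    have c4 := card_sdiff_add_card_eq_card
      ((sdiff_subset.trans sdiff_subset) : (J \ Bd) \ A ⊆ J)
    nlinarith
  · have c3 := card_sdiff_add_card_eq_card hS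
    rw [ts_const, ts_const, mul_one, mul_one]
    by_cases h2 : 2 * S.card ≤ ((J \ Bd) \ A).card
    · exact (min_le_left _ _).trans (key S hS h2)
    · have := key _ sdiff_subset (by omega : 2 * (((J \ Bd) \ A) \ S).card ≤ _)
      rw [Finset.sdiff_sdiff_eq_self hS, cw_comm fun a b => aw_comm a b] at this
      exact (min_le_right _ _).trans this

theorem br : BrStmt := by
  intro κ ι Γ J Hf Hv U Bs π d K hd hwl _ hF hπ hT A Mk hM
  obtain ⟨W, hW⟩ : ∃ W, W = J.biUnion Bs := ⟨_, rfl⟩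
  rw [← hW]
  have hBW : ∀ u ∈ J, Bs u ⊆ W := fun u hu => hW ▸ subset_biUnion_of_mem Bs hu
  let Z := (W ∩ A).filter fun a => ∃ b ∈ W \ A, Hf.Adj a b
  have hZ : Z.card ≤ cw (aw Hf) (W ∩ A) (W \ A) := by
    refine (card_filter _ _).trans_le (sum_le_sum fun a _ => ?_)
    split_ifs with hc
    · obtain ⟨b, hb, hab⟩ := hc
      have := single_le_sum (f := aw Hf a) (fun _ _ => Nat.zero_le _) hb
      rwa [aw, if_pos hab] at this
    · exact Nat.zero_le _
  let Bad := J.filter fun u => ¬ Disjoint (Bs u) (Mk ∩ W ∪ Z)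
  have hBad : Bad.card ≤ (Mk ∩ W).card + cw (aw Hf) (W ∩ A) (W \ A) :=
    (card_meet_le J _ hF.disj).trans ((card_union_le _ _).trans (Nat.add_le_add_left hZ _))
  have hBJ : Bad ⊆ J := filter_subset _ _
  let JA := J.filter fun u => π u ∈ A
  have hJA : JA ⊆ J := filter_subset _ _
  have e : J \ JA = J.filter fun u => π u ∉ A := by
    ext u
    simp only [JA, mem_sdiff, mem_filter]
    tauto
  have h1 := hwl JA hJA
  rw [ts_const, ts_const, mul_one, mul_one] at h1
  rw [← e]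
  have h0 : cw (aw Γ) (JA \ Bad) ((J \ JA) \ Bad) = 0 := by
    refine cw_eq_zero.2 fun u hu v hv => if_neg fun huv => ?_
    obtain ⟨hu, hu'⟩ := mem_sdiff.1 hu
    obtain ⟨hv, hv'⟩ := mem_sdiff.1 hv
    rw [e] at hv
    obtain ⟨huJ, huA⟩ := mem_filter.1 hu
    obtain ⟨hvJ, hvA⟩ := mem_filter.1 hv
    have good : ∀ x ∈ Bs u ∪ Bs v, x ∉ Mk ∩ W ∪ Z := by
      intro x hx hx'
      rcases mem_union.1 hx with hx | hx
      · exact hu' (mem_filter.2 ⟨huJ, not_disjoint_iff.2 ⟨x, hx, hx'⟩⟩)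
      · exact hv' (mem_filter.2 ⟨hvJ, not_disjoint_iff.2 ⟨x, hx, hx'⟩⟩)
    have sW : Bs u ∪ Bs v ⊆ W := union_subset (hBW u huJ) (hBW v hvJ)
    have sU : Bs u ∪ Bs v ⊆ U := union_subset (hF.sub u huJ) (hF.sub v hvJ)
    obtain ⟨x, y, hxA, hyA, hx, hy, hxy⟩ :=
      ((hF.conn u huJ).union_touch (hF.conn v hvJ) (hT u huJ v hvJ huv)).exit
        (mem_union_left _ (hπ u huJ)) huA (mem_union_right _ (hπ v hvJ)) hvA
    rcases hxy with hxy | hxy
    · exact good x hx (mem_union_right _ (mem_filter.2 ⟨mem_inter.2 ⟨sW hx, hxA⟩, y,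
        mem_sdiff.2 ⟨sW hy, hyA⟩, hxy⟩))
    · rcases hM x (sU hx) y (sU hy) hxy hxA hyA with h | h
      · exact good x hx (mem_union_left _ (mem_inter.2 ⟨h, sW hx⟩))
      · exact good y hy (mem_union_left _ (mem_inter.2 ⟨h, sW hy⟩))
  have h2 : cw (aw Γ) JA (J \ JA) ≤ Bad.card * d + Bad.card * d := by
    refine (cw_mono (A' := Bad ∪ JA \ Bad) (fun x hx => ?_) subset_rfl).trans
      (cw_union_left_le.trans (Nat.add_le_add (hd.cw_le hBJ sdiff_subset) ?_))
    · simp only [mem_union, mem_sdiff]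
      tauto
    refine (cw_mono subset_rfl (B' := (J \ JA) \ Bad ∪ Bad) fun x hx => ?_).trans
      (cw_union_right_le.trans ?_)
    · simp only [mem_union, mem_sdiff] at hx ⊢
      tauto
    · rw [h0, zero_add, cw_comm fun a b => aw_comm a b]
      exact hd.cw_le hBJ (sdiff_subset.trans hJA)
  refine h1.trans ((Nat.mul_le_mul_left K h2).trans ?_)
  calc K * (Bad.card * d + Bad.card * d) = 2 * d * K * Bad.card := by ring
    _ ≤ _ := Nat.mul_le_mul_left _ hBad

end Pool.Agent.MP_35cb46_co.Nl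

end
end MrgPart1

-- marker of a merged file
example : 731051 + 561691 = 731051 + 561691 := rfl
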